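import Pool.Agent.Lib.Hyp.Rat.RL95

/-!
Closedness lemmas for the limit step of Theorem C (helper39).

* `RIneq`, `LIneq` : the two cross inequalities; `RIneq.limit`, `LIneq.limit` : they are closed;
* `tendsToCycle_of_ineq` : three reference points and both inequalities give an attracting cycle;
* `zero_persist` : isolated zeros persist; `isCrit_persist`, `exists_isCrit_seq` : critical points
  of a nondegenerate `b` are limits of critical points of the nearby maps.
-/

namespace HypRat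

namespace Lim39

open Filter Topology

attribute [local irreducible] jac jacN

/-! ### Continuity of `chord` and `sig` -/

theorem continuous_jacN_right (d : ℕ) (b : Par d) (N : ℕ) :
    Continuous (fun z : ℂ × ℂ => jacN d b N z) := by
  have h : Continuous (fun z : ℂ × ℂ => (b, z)) := by fun_prop
  exact (continuous_jacN_joint d N).comp h

theorem tendsto_jac {d : ℕ} {b : ℕ → Par d} {b' : Par d} {c : ℕ → ℂ × ℂ} {c' : ℂ × ℂ}
    (hb : Tendsto b atTop (𝓝 b')) (hc : Tendsto c atTop (𝓝 c')) :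
    Tendsto (fun i => jac d (b i) (c i)) atTop (𝓝 (jac d b' c')) := by
  have hp : Tendsto (fun i => (b i, c i)) atTop (𝓝 (b', c')) := hb.prodMk_nhds hc
  exact ((continuous_jac_joint d).tendsto (b', c')).comp hp

theorem tendsto_jacN {d : ℕ} {b : ℕ → Par d} {b' : Par d} {c : ℕ → ℂ × ℂ} {c' : ℂ × ℂ}
    (hb : Tendsto b atTop (𝓝 b')) (hc : Tendsto c atTop (𝓝 c')) (N : ℕ) :
    Tendsto (fun i => jacN d (b i) N (c i)) atTop (𝓝 (jacN d b' N c')) := by
  have hp : Tendsto (fun i => (b i, c i)) atTop (𝓝 (b', c')) := hb.prodMk_nhds hc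
  exact ((continuous_jacN_joint d N).tendsto (b', c')).comp hp

theorem continuousAt_chord_left {x : ℂ × ℂ} (hx : x ≠ 0) {y : ℂ × ℂ} (hy : y ≠ 0) :
    ContinuousAt (fun z => chord z y) x := by
  unfold chord
  have h1 : Continuous (fun z : ℂ × ℂ => ‖wedge z y‖) := by
    have : Continuous (fun z : ℂ × ℂ => wedge z y) :=
      continuous_wedge.comp (continuous_id.prodMk continuous_const)
    exact this.norm
  have h2 : Continuous (fun z : ℂ × ℂ => ‖z‖ * ‖y‖) := by fun_prop
  exact h1.continuousAt.div h2.continuousAt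
    (mul_ne_zero (norm_ne_zero_iff.mpr hx) (norm_ne_zero_iff.mpr hy))

theorem continuousAt_sig {d : ℕ} {b : Par d} (hb : Nondeg d b) (N : ℕ) {x : ℂ × ℂ} (hx : x ≠ 0) :
    ContinuousAt (fun z => sig d b N z) x := by
  unfold sig
  have h1 : Continuous (fun z : ℂ × ℂ => ‖jacN d b N z‖ * ‖z‖ ^ 2) := by
    exact (continuous_jacN_right d b N).norm.mul (continuous_norm.pow 2)
  have h2 : Continuous (fun z : ℂ × ℂ => ‖(F d b)^[N] z‖ ^ 2) :=
    (continuous_iter d b N).norm.pow 2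
  exact h1.continuousAt.div h2.continuousAt
    (pow_ne_zero _ (norm_ne_zero_iff.mpr (iter_ne_zero hb hx N)))

theorem chord_self (x : ℂ × ℂ) : chord x x = 0 := by
  unfold chord; rw [wedge_self]; simp

theorem chord_pos {x y : ℂ × ℂ} (h : wedge x y ≠ 0) : 0 < chord x y := by
  have hx : x ≠ 0 := by rintro rfl; exact h (wedge_zero_left y)
  have hy : y ≠ 0 := by rintro rfl; exact h (wedge_zero_right x)
  have hx' : 0 < ‖x‖ := norm_pos_iff.mpr hx
  have hy' : 0 < ‖y‖ := norm_pos_iff.mpr hy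
  have h' : 0 < ‖wedge x y‖ := norm_pos_iff.mpr h
  unfold chord
  positivity

theorem wedge_eq_zero_of_chord {x y : ℂ × ℂ} (hx : x ≠ 0) (hy : y ≠ 0) (h : chord x y = 0) :
    wedge x y = 0 := by
  by_contra hne
  exact (chord_pos hne).ne' h

/-! ### The two inequalities -/

theorem continuous_orb (d N k : ℕ) :
    Continuous (fun p : Par d × (ℂ × ℂ) => orb d N k p.1 p.2) := continuous_iter_joint d _

/-- `|R_k| ≤ M`, without denominators. -/
def RIneq (d : ℕ) (b : Par d) (c al be : ℂ × ℂ) (N k : ℕ) (M : ℝ) : Prop :=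
  ‖wedge (orb d N k b c) (orb d N (k + 1) b c)‖ * ‖wedge al be‖ ≤
    M * (‖wedge (orb d N k b c) be‖ * ‖wedge (orb d N (k + 1) b c) al‖)

/-- `|L_k| ≤ M`, without denominators. -/
def LIneq (d : ℕ) (b : Par d) (c al be : ℂ × ℂ) (N k : ℕ) (M : ℝ) : Prop :=
  ‖jacN d b N (orb d N k b c)‖ * (‖wedge (orb d N k b c) al‖ * ‖wedge (orb d N k b c) be‖) ≤
    M * (‖wedge (orb d N (k + 1) b c) al‖ * ‖wedge (orb d N (k + 1) b c) be‖)

theorem RIneq_of_Rf {d N k : ℕ} {b : Par d} {c al be : ℂ × ℂ} {M : ℝ}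
    (h1 : wedge (orb d N k b c) be ≠ 0) (h2 : wedge (orb d N (k + 1) b c) al ≠ 0)
    (h : ‖Rf d N k b c al be‖ ≤ M) : RIneq d b c al be N k M := by
  have n1 := norm_pos_iff.mpr h1
  have n2 := norm_pos_iff.mpr h2
  unfold Rf at h
  rw [norm_div, norm_mul, norm_mul, div_le_iff₀ (mul_pos n1 n2)] at h
  exact h

theorem LIneq_of_Lf {d N k : ℕ} {b : Par d} {c al be : ℂ × ℂ} {M : ℝ}
    (h1 : wedge (orb d N (k + 1) b c) al ≠ 0) (h2 : wedge (orb d N (k + 1) b c) be ≠ 0)
    (h : ‖Lf d N k b c al be‖ ≤ M) : LIneq d b c al be N k M := by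
  have n1 := norm_pos_iff.mpr h1
  have n2 := norm_pos_iff.mpr h2
  unfold Lf at h
  rw [norm_div, norm_mul, norm_mul, norm_mul, div_le_iff₀ (mul_pos n1 n2)] at h
  exact h

section limits

variable {d : ℕ} {b : ℕ → Par d} {b' : Par d} {c al be : ℕ → ℂ × ℂ} {c' al' be' : ℂ × ℂ}

theorem tendsto_orb (hb : Tendsto b atTop (𝓝 b')) (hc : Tendsto c atTop (𝓝 c')) (N k : ℕ) :
    Tendsto (fun i => orb d N k (b i) (c i)) atTop (𝓝 (orb d N k b' c')) :=
  ((continuous_orb d N k).tendsto (b', c')).comp (hb.prodMk_nhds hc)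

theorem tendsto_wedge {x y : ℕ → ℂ × ℂ} {x' y' : ℂ × ℂ} (hx : Tendsto x atTop (𝓝 x'))
    (hy : Tendsto y atTop (𝓝 y')) : Tendsto (fun i => wedge (x i) (y i)) atTop (𝓝 (wedge x' y')) :=
  (continuous_wedge.tendsto (x', y')).comp (hx.prodMk_nhds hy)

/-- L1, first inequality. -/
theorem RIneq.limit (hb : Tendsto b atTop (𝓝 b')) (hc : Tendsto c atTop (𝓝 c'))
    (hal : Tendsto al atTop (𝓝 al')) (hbe : Tendsto be atTop (𝓝 be')) {N k : ℕ} {M : ℝ}
    (h : ∃ᶠ i in atTop, RIneq d (b i) (c i) (al i) (be i) N k M) :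
    RIneq d b' c' al' be' N k M := by
  have h0 := tendsto_orb hb hc N k
  have h1 := tendsto_orb hb hc N (k + 1)
  exact le_of_tendsto_of_tendsto_of_frequently
    ((tendsto_wedge h0 h1).norm.mul (tendsto_wedge hal hbe).norm)
    (((tendsto_wedge h0 hbe).norm.mul (tendsto_wedge h1 hal).norm).const_mul M) h

/-- L1, second inequality. -/
theorem LIneq.limit (hb : Tendsto b atTop (𝓝 b')) (hc : Tendsto c atTop (𝓝 c'))
    (hal : Tendsto al atTop (𝓝 al')) (hbe : Tendsto be atTop (𝓝 be')) {N k : ℕ} {M : ℝ}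
    (h : ∃ᶠ i in atTop, LIneq d (b i) (c i) (al i) (be i) N k M) :
    LIneq d b' c' al' be' N k M := by
  have h0 := tendsto_orb hb hc N k
  have h1 := tendsto_orb hb hc N (k + 1)
  have hj := tendsto_jacN hb h0 N
  exact le_of_tendsto_of_tendsto_of_frequently
    (hj.norm.mul ((tendsto_wedge h0 hal).norm.mul (tendsto_wedge h0 hbe).norm))
    (((tendsto_wedge h1 hal).norm.mul (tendsto_wedge h1 hbe).norm).const_mul M) h

end limits

/-! ### Three reference points -/

theorem RIneq.chord_le {d : ℕ} {b : Par d} (hb : Nondeg d b) {c al be : ℂ × ℂ} (hc : c ≠ 0)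
    (h : wedge al be ≠ 0) {N k : ℕ} {M : ℝ} (hR : RIneq d b c al be N k M) :
    chord (orb d N k b c) (orb d N (k + 1) b c) * chord al be ≤ 4 * |M| := by
  have hx := orb_ne_zero hb hc N k
  have hy := orb_ne_zero hb hc N (k + 1)
  have hal : al ≠ 0 := by rintro rfl; exact h (wedge_zero_left _)
  have hbe : be ≠ 0 := by rintro rfl; exact h (wedge_zero_right _)
  unfold RIneq at hR
  set x := orb d N k b c
  set y := orb d N (k + 1) b c
  have hx' : 0 < ‖x‖ := norm_pos_iff.mpr hx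
  have hy' : 0 < ‖y‖ := norm_pos_iff.mpr hy
  have ha' : 0 < ‖al‖ := norm_pos_iff.mpr hal
  have hb' : 0 < ‖be‖ := norm_pos_iff.mpr hbe
  have h1 := norm_wedge_le x be
  have h2 := norm_wedge_le y al
  have h3 : ‖wedge x be‖ * ‖wedge y al‖ ≤ 2 * (‖x‖ * ‖be‖) * (2 * (‖y‖ * ‖al‖)) :=
    mul_le_mul h1 h2 (norm_nonneg _) (by positivity)
  have h4 : M * (‖wedge x be‖ * ‖wedge y al‖) ≤
      |M| * (2 * (‖x‖ * ‖be‖) * (2 * (‖y‖ * ‖al‖))) :=
    (mul_le_mul_of_nonneg_right (le_abs_self M) (by positivity)).trans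
      (mul_le_mul_of_nonneg_left h3 (abs_nonneg M))
  unfold chord
  rw [div_mul_div_comm, div_le_iff₀ (by positivity)]
  calc ‖wedge x y‖ * ‖wedge al be‖ ≤ |M| * (2 * (‖x‖ * ‖be‖) * (2 * (‖y‖ * ‖al‖))) := hR.trans h4
    _ = 4 * |M| * (‖x‖ * ‖y‖ * (‖al‖ * ‖be‖)) := by ring

theorem LIneq.sig_le {d : ℕ} {b : Par d} (hb : Nondeg d b) {c al be : ℂ × ℂ} (hc : c ≠ 0)
    (h : wedge al be ≠ 0) {N k : ℕ} {M : ℝ} (hL : LIneq d b c al be N k M) :
    sig d b N (orb d N k b c) * (chord (orb d N k b c) al * chord (orb d N k b c) be) ≤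
      M * (chord (orb d N (k + 1) b c) al * chord (orb d N (k + 1) b c) be) := by
  have hx := orb_ne_zero hb hc N k
  have hy := orb_ne_zero hb hc N (k + 1)
  have hal : al ≠ 0 := by rintro rfl; exact h (wedge_zero_left _)
  have hbe : be ≠ 0 := by rintro rfl; exact h (wedge_zero_right _)
  unfold LIneq at hL
  unfold sig chord
  rw [← orb_succ]
  set x := orb d N k b c
  set y := orb d N (k + 1) b c
  have hx' : 0 < ‖x‖ := norm_pos_iff.mpr hx
  have hy' : 0 < ‖y‖ := norm_pos_iff.mpr hy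
  have ha' : 0 < ‖al‖ := norm_pos_iff.mpr hal
  have hb' : 0 < ‖be‖ := norm_pos_iff.mpr hbe
  have e1 : ‖jacN d b N x‖ * ‖x‖ ^ 2 / ‖y‖ ^ 2 *
      (‖wedge x al‖ / (‖x‖ * ‖al‖) * (‖wedge x be‖ / (‖x‖ * ‖be‖))) =
      (‖jacN d b N x‖ * (‖wedge x al‖ * ‖wedge x be‖)) / (‖y‖ ^ 2 * (‖al‖ * ‖be‖)) := by
    field_simp
  have e2 : M * (‖wedge y al‖ / (‖y‖ * ‖al‖) * (‖wedge y be‖ / (‖y‖ * ‖be‖))) =
      (M * (‖wedge y al‖ * ‖wedge y be‖)) / (‖y‖ ^ 2 * (‖al‖ * ‖be‖)) := by
    field_simp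
  rw [e1, e2]
  gcongr

/-- L2. -/
theorem tendsToCycle_of_ineq {d : ℕ} (hd : 1 ≤ d) {b : Par d} (hb : Nondeg d b) {c : ℂ × ℂ}
    (hc : c ≠ 0) {N k0 : ℕ} (hN : 1 ≤ N) {C ρ : ℝ} (hρ0 : 0 ≤ ρ) (hρ : ρ < 1)
    {z : Fin 3 → ℂ × ℂ} (hz : ∀ i j, i ≠ j → wedge (z i) (z j) ≠ 0)
    (hR : ∀ i j, i ≠ j → ∀ k, k0 ≤ k → RIneq d b c (z i) (z j) N k (C * ρ ^ k))
    (hL : ∀ i j, i ≠ j → ∀ k, k0 ≤ k → LIneq d b c (z i) (z j) N k ρ) :
    TendsToCycle d b c := by
  have hx : ∀ k, orb d N k b c ≠ 0 := fun k => orb_ne_zero hb hc N k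
  -- step 1: consecutive points are close
  have h01 : wedge (z 0) (z 1) ≠ 0 := hz 0 1 (by decide)
  have hch := chord_pos h01
  set D : ℝ := 4 * |C| / chord (z 0) (z 1) with hD
  have hD0 : 0 ≤ D := by positivity
  have hstep : ∀ k, k0 ≤ k →
      chord (orb d N k b c) (orb d N (k + 1) b c) ≤ D * ρ ^ k := by
    intro k hk
    have h1 := (hR 0 1 (by decide) k hk).chord_le hb hc h01
    rw [abs_mul, abs_of_nonneg (pow_nonneg hρ0 k)] at h1
    rw [hD, div_mul_eq_mul_div, le_div_iff₀ hch]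
    linarith
  have h1ρ : 0 < 1 - ρ := by linarith
  -- step 2: telescoping
  have htel : ∀ k, k0 ≤ k → ∀ m, chord (orb d N k b c) (orb d N (k + m) b c) ≤
      D * (ρ ^ k - ρ ^ (k + m)) / (1 - ρ) := by
    intro k hk m
    induction m with
    | zero => simp [chord_self]
    | succ m ih =>
      have h1 := chord_triangle (hx k) (hx (k + m)) (hx (k + (m + 1)))
      have h2 := hstep (k + m) (by omega)
      have e : D * (ρ ^ k - ρ ^ (k + (m + 1))) / (1 - ρ) =
          D * (ρ ^ k - ρ ^ (k + m)) / (1 - ρ) + D * ρ ^ (k + m) := by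
        field_simp
        ring
      rw [e]
      exact h1.trans (add_le_add ih h2)
  have htel' : ∀ k, k0 ≤ k → ∀ m, k ≤ m → chord (orb d N k b c) (orb d N m b c) ≤
      D * ρ ^ k / (1 - ρ) := by
    intro k hk m hm
    obtain ⟨m, rfl⟩ := Nat.exists_eq_add_of_le hm
    refine (htel k hk m).trans ?_
    gcongr
    have : 0 ≤ ρ ^ (k + m) := pow_nonneg hρ0 _
    linarith
  -- step 3: a limit point
  have hnx : ∀ k, ‖orb d N k b c‖ ≠ 0 := fun k => norm_ne_zero_iff.mpr (hx k)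
  have hinv : ∀ k, ((‖orb d N k b c‖ : ℂ))⁻¹ ≠ 0 := fun k =>
    inv_ne_zero (Complex.ofReal_ne_zero.mpr (hnx k))
  have hu : ∀ k, ((‖orb d N k b c‖ : ℂ))⁻¹ • orb d N k b c ∈ Metric.sphere (0 : ℂ × ℂ) 1 := by
    intro k
    rw [mem_sphere_zero_iff_norm, norm_smul, norm_inv, Complex.norm_real, norm_norm,
      inv_mul_cancel₀ (hnx k)]
  obtain ⟨γ, hγ, φ, hφ, hlim⟩ := (isCompact_sphere (0 : ℂ × ℂ) 1).tendsto_subseq hu
  have hγ0 : γ ≠ 0 := by
    rintro rfl
    simp at hγ
  have hφt : Tendsto φ atTop atTop := hφ.tendsto_atTop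
  have hchγ : Tendsto (fun j => chord (orb d N (φ j) b c) γ) atTop (𝓝 0) := by
    have h1 := (continuousAt_chord_left hγ0 hγ0).tendsto.comp hlim
    rw [chord_self] at h1
    refine h1.congr fun j => ?_
    exact chord_smul_left (hinv _) _ _
  have hbound : ∀ k, k0 ≤ k → chord (orb d N k b c) γ ≤ D * ρ ^ k / (1 - ρ) := by
    intro k hk
    have h1 : Tendsto (fun j => D * ρ ^ k / (1 - ρ) + chord (orb d N (φ j) b c) γ) atTop
        (𝓝 (D * ρ ^ k / (1 - ρ) + 0)) := hchγ.const_add _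
    rw [add_zero] at h1
    refine ge_of_tendsto h1 ?_
    filter_upwards [hφt.eventually_ge_atTop k] with j hj
    exact (chord_triangle (hx k) (hx (φ j)) hγ0).trans
      (add_le_add (htel' k hk _ hj) le_rfl)
  have hto : Tendsto (fun k => chord (orb d N k b c) γ) atTop (𝓝 0) := by
    have h1 : Tendsto (fun k => D * ρ ^ k / (1 - ρ)) atTop (𝓝 0) := by
      have := ((tendsto_pow_atTop_nhds_zero_of_lt_one hρ0 hρ).const_mul D).div_const (1 - ρ)
      simpa using this
    refine squeeze_zero' (Eventually.of_forall fun k => chord_nonneg _ _) ?_ h1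
    filter_upwards [eventually_ge_atTop k0] with k hk
    exact hbound k hk
  have hto1 : Tendsto (fun j => chord (orb d N (φ j + 1) b c) γ) atTop (𝓝 0) :=
    hto.comp ((tendsto_add_atTop_nat 1).comp hφt)
  -- step 4: the limit is fixed by the iterate
  have hFγ0 : (F d b)^[N] γ ≠ 0 := iter_ne_zero hb hγ0 N
  have hfix : wedge ((F d b)^[N] γ) γ = 0 := by
    apply wedge_eq_zero_of_chord hFγ0 hγ0
    have h1 : Tendsto (fun j => chord ((F d b)^[N] (((‖orb d N (φ j) b c‖ : ℂ))⁻¹ •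
        orb d N (φ j) b c)) γ) atTop (𝓝 (chord ((F d b)^[N] γ) γ)) :=
      (continuousAt_chord_left hFγ0 hγ0).tendsto.comp
        (((continuous_iter d b N).tendsto γ).comp hlim)
    refine tendsto_nhds_unique h1 ?_
    refine hto1.congr fun j => ?_
    rw [iter_smul, chord_smul_left (pow_ne_zero _ (hinv _)), orb_succ]
  -- step 5: the multiplier
  have hpar : ∀ i j, i ≠ j → wedge γ (z i) = 0 → wedge γ (z j) ≠ 0 := by
    intro i j hij h1 h2
    obtain ⟨s, hs⟩ := exists_smul_of_wedge_eq_zero hγ0 h1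
    obtain ⟨t, ht⟩ := exists_smul_of_wedge_eq_zero hγ0 h2
    apply hz i j hij
    rw [hs, ht, wedge_smul_left, wedge_smul_right, wedge_self]
    ring
  have hpair : ∃ i j, i ≠ j ∧ wedge γ (z i) ≠ 0 ∧ wedge γ (z j) ≠ 0 := by
    by_cases h0 : wedge γ (z 0) = 0
    · exact ⟨1, 2, by decide, hpar 0 1 (by decide) h0, hpar 0 2 (by decide) h0⟩
    · by_cases h1 : wedge γ (z 1) = 0
      · exact ⟨0, 2, by decide, h0, hpar 1 2 (by decide) h1⟩
      · exact ⟨0, 1, by decide, h0, h1⟩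
  obtain ⟨i, j, hij, hi, hj⟩ := hpair
  have hzi : z i ≠ 0 := by
    intro h; rw [h, wedge_zero_right] at hi; exact hi rfl
  have hzj : z j ≠ 0 := by
    intro h; rw [h, wedge_zero_right] at hj; exact hj rfl
  have hsig : sig d b N γ ≤ ρ := by
    have hs : Tendsto (fun n => sig d b N (orb d N (φ n) b c)) atTop (𝓝 (sig d b N γ)) := by
      refine ((continuousAt_sig hb N hγ0).tendsto.comp hlim).congr fun n => ?_
      have := sig_smul hd b N one_ne_zero (hinv (φ n)) (orb d N (φ n) b c)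
      rw [one_smul] at this
      exact this
    have hca : ∀ a : ℂ × ℂ, a ≠ 0 →
        Tendsto (fun n => chord (orb d N (φ n) b c) a) atTop (𝓝 (chord γ a)) := by
      intro a ha
      refine ((continuousAt_chord_left hγ0 ha).tendsto.comp hlim).congr fun n => ?_
      exact chord_smul_left (hinv _) _ _
    have hca1 : ∀ a : ℂ × ℂ, a ≠ 0 →
        Tendsto (fun n => chord (orb d N (φ n + 1) b c) a) atTop (𝓝 (chord γ a)) := by
      intro a ha
      rw [tendsto_iff_dist_tendsto_zero]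
      refine squeeze_zero (fun n => dist_nonneg) (fun n => ?_) hto1
      rw [Real.dist_eq, abs_le]
      have h1 := chord_triangle (hx (φ n + 1)) hγ0 ha
      have h2 := chord_triangle hγ0 (hx (φ n + 1)) ha
      rw [chord_comm γ (orb d N (φ n + 1) b c)] at h2
      constructor <;> linarith
    have h1 := hs.mul ((hca _ hzi).mul (hca _ hzj))
    have h2 := ((hca1 _ hzi).mul (hca1 _ hzj)).const_mul ρ
    have h3 : sig d b N γ * (chord γ (z i) * chord γ (z j)) ≤
        ρ * (chord γ (z i) * chord γ (z j)) := by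
      refine le_of_tendsto_of_tendsto h1 h2 ?_
      filter_upwards [hφt.eventually_ge_atTop k0] with n hn
      exact (hL i j hij (φ n) hn).sig_le hb hc (hz i j hij)
    exact le_of_mul_le_mul_right h3 (mul_pos (chord_pos hi) (chord_pos hj))
  refine ⟨N, hN, γ, (isAttracting_iff_sig hd hb hγ0).mpr ⟨hfix, by linarith⟩, ?_⟩
  refine hto.congr fun k => ?_
  unfold orb
  rw [mul_comm]

/-! ### Persistence of zeros -/

/-- An isolated zero of a holomorphic function of one variable persists. -/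
theorem zero_persist {X : Type*} [TopologicalSpace X] {x0 : X} {g : X → ℂ → ℂ}
    (hc : Continuous (fun p : X × ℂ => g p.1 p.2)) (hg : ∀ x, Differentiable ℂ (g x))
    (h0 : g x0 0 = 0) (hne : ¬ ∀ᶠ t in 𝓝 (0 : ℂ), g x0 t = 0) {ε : ℝ} (hε : 0 < ε) :
    ∀ᶠ x in 𝓝 x0, ∃ t, ‖t‖ < ε ∧ g x t = 0 := by
  have han : AnalyticAt ℂ (g x0) 0 := (hg x0).analyticAt 0
  have hev : ∀ᶠ t in 𝓝[≠] (0 : ℂ), g x0 t ≠ 0 :=
    han.eventually_eq_zero_or_eventually_ne_zero.resolve_left hne
  rw [eventually_nhdsWithin_iff, Metric.eventually_nhds_iff] at hev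
  obtain ⟨r0, hr0, hr⟩ := hev
  set r : ℝ := min r0 ε / 2 with hrdef
  have hrpos : 0 < r := by positivity
  have hr1 : r < r0 := by
    have := min_le_left r0 ε
    have : 0 < min r0 ε := lt_min hr0 hε
    rw [hrdef]; linarith
  have hr2 : r < ε := by
    have := min_le_right r0 ε
    have : 0 < min r0 ε := lt_min hr0 hε
    rw [hrdef]; linarith
  have hS : IsCompact (Metric.sphere (0 : ℂ) r) := isCompact_sphere _ _
  have hSne : (Metric.sphere (0 : ℂ) r).Nonempty :=
    ⟨(r : ℂ), by rw [mem_sphere_zero_iff_norm, Complex.norm_real, Real.norm_of_nonneg hrpos.le]⟩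
  obtain ⟨t0, ht0, hmin⟩ := hS.exists_isMinOn hSne ((hg x0).continuous.norm.continuousOn)
  set δ : ℝ := ‖g x0 t0‖ with hδ
  have hδ0 : 0 < δ := by
    rw [hδ, norm_pos_iff]
    have ht0' : ‖t0‖ = r := mem_sphere_zero_iff_norm.mp ht0
    apply hr
    · rw [dist_zero_right, ht0']; exact hr1
    · rintro rfl
      rw [norm_zero] at ht0'
      exact hrpos.ne ht0'
  have h1 : ∀ᶠ x in 𝓝 x0, ∀ t ∈ Metric.sphere (0 : ℂ) r, δ / 2 < ‖g x t‖ := by
    refine hS.eventually_forall_of_forall_eventually ?_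
    intro t ht
    have h2 : δ / 2 < ‖g x0 t‖ := by
      have : δ ≤ ‖g x0 t‖ := hmin ht
      linarith
    exact (hc.norm.continuousAt (x := (x0, t))).eventually (lt_mem_nhds h2)
  have h2 : ∀ᶠ x in 𝓝 x0, ‖g x 0‖ < δ / 2 := by
    have hcont : Continuous (fun x => ‖g x 0‖) :=
      (hc.comp (continuous_id.prodMk continuous_const)).norm
    refine (hcont.continuousAt (x := x0)).eventually (gt_mem_nhds ?_)
    show ‖g x0 0‖ < δ / 2
    rw [h0, norm_zero]
    positivity
  filter_upwards [h1, h2] with x hx1 hx2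
  by_contra hcon
  push Not at hcon
  have hnz : ∀ t ∈ Metric.closedBall (0 : ℂ) r, g x t ≠ 0 := by
    intro t ht
    exact hcon t ((mem_closedBall_zero_iff.mp ht).trans_lt hr2)
  have hdiff : DiffContOnCl ℂ (fun t => (g x t)⁻¹) (Metric.ball (0 : ℂ) r) := by
    refine DifferentiableOn.diffContOnCl ?_
    intro t ht
    have ht' : t ∈ Metric.closedBall (0 : ℂ) r := Metric.closure_ball_subset_closedBall ht
    exact ((hg x).differentiableAt.inv (hnz t ht')).differentiableWithinAt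
  have hfr : ∀ t ∈ frontier (Metric.ball (0 : ℂ) r), ‖(g x t)⁻¹‖ ≤ (δ / 2)⁻¹ := by
    intro t ht
    rw [frontier_ball _ hrpos.ne'] at ht
    rw [norm_inv]
    exact inv_anti₀ (by positivity) (hx1 t ht).le
  have h3 := Complex.norm_le_of_forall_mem_frontier_norm_le Metric.isBounded_ball hdiff hfr
    (subset_closure (Metric.mem_ball_self hrpos))
  rw [norm_inv] at h3
  have hg0 : 0 < ‖g x 0‖ := norm_pos_iff.mpr (hnz 0 (Metric.mem_closedBall_self hrpos.le))
  have h4 := (inv_le_inv₀ hg0 (by positivity)).mp h3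
  linarith

/-! ### The Jacobian of a nondegenerate map is not identically zero -/

/-- A linear combination of the two forms has a nontrivial zero. -/
theorem exists_wedge_F_eq_zero {d : ℕ} (hd : 1 ≤ d) (b : Par d) (e : ℂ × ℂ) :
    ∃ x : ℂ × ℂ, x ≠ 0 ∧ wedge (F d b x) e = 0 := by
  set a : Fin (d + 1) → ℂ := fun j =>
    b (Fin.castAdd (d + 1) j) * e.2 - b (Fin.natAdd (d + 1) j) * e.1 with ha
  have hform : ∀ x : ℂ × ℂ, wedge (F d b x) e =
      ∑ j : Fin (d + 1), a j * (x.1 ^ (j : ℕ) * x.2 ^ (d - (j : ℕ))) := by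
    intro x
    simp only [wedge, F, ha, Finset.sum_mul, ← Finset.sum_sub_distrib]
    exact Finset.sum_congr rfl fun j _ => by ring
  by_cases hlast : a (Fin.last d) = 0
  · refine ⟨(1, 0), by simp, ?_⟩
    rw [hform, Finset.sum_eq_single (Fin.last d)]
    · rw [hlast, zero_mul]
    · intro j _ hj
      have hj' : (j : ℕ) < d := by
        have h1 : (j : ℕ) ≤ d := Nat.lt_succ_iff.mp j.2
        have h2 : (j : ℕ) ≠ d := fun h => hj (Fin.ext (by simpa using h))
        omega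
      have : d - (j : ℕ) ≠ 0 := by omega
      simp [this]
    · intro h
      exact absurd (Finset.mem_univ _) h
  · set P : Polynomial ℂ := ∑ j : Fin (d + 1), Polynomial.C (a j) * Polynomial.X ^ (j : ℕ) with hP
    have hcoeff : P.coeff d = a (Fin.last d) := by
      rw [hP, Polynomial.finsetSum_coeff, Finset.sum_eq_single (Fin.last d)]
      · rw [Polynomial.coeff_C_mul, Polynomial.coeff_X_pow]
        simp
      · intro j _ hj
        have h2 : (j : ℕ) ≠ d := fun h => hj (Fin.ext (by simpa using h))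
        rw [Polynomial.coeff_C_mul, Polynomial.coeff_X_pow, if_neg (fun h => h2 h.symm), mul_zero]
      · intro h
        exact absurd (Finset.mem_univ _) h
    have hne : P.coeff d ≠ 0 := by rw [hcoeff]; exact hlast
    have hdeg : 0 < P.degree := by
      have h1 : (d : WithBot ℕ) ≤ P.degree := Polynomial.le_degree_of_ne_zero hne
      have h2 : (0 : WithBot ℕ) < (d : WithBot ℕ) := by exact_mod_cast hd
      exact h2.trans_le h1
    obtain ⟨t, ht⟩ := Complex.exists_root hdeg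
    refine ⟨(t, 1), by simp, ?_⟩
    rw [hform]
    have h3 : P.eval t = 0 := ht
    rw [hP, Polynomial.eval_finsetSum] at h3
    simpa using h3

theorem jac_line_ne {d : ℕ} (hd : 1 ≤ d) {b : Par d} (hb : Nondeg d b) {c v : ℂ × ℂ}
    (hcv : wedge c v ≠ 0) : ¬ ∀ᶠ t in 𝓝 (0 : ℂ), jac d b (c + t • v) = 0 := by
  intro hev
  have hc : c ≠ 0 := by rintro rfl; exact hcv (wedge_zero_left v)
  set w : ℂ × ℂ := F d b c with hw
  have hw0 : w ≠ 0 := fun h => hc (hb c h)
  obtain ⟨e, he⟩ := exists_wedge_ne_zero hw0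
  -- the curve
  have hline : ∀ t : ℂ, HasDerivAt (fun t : ℂ => c + t • v) v t := by
    intro t
    have h1 : HasDerivAt (fun t : ℂ => t • v) ((1 : ℂ) • v) t := (hasDerivAt_id t).smul_const v
    rw [one_smul] at h1
    exact h1.const_add c
  have hG : ∀ t : ℂ, HasDerivAt (fun t : ℂ => F d b (c + t • v))
      (fderiv ℂ (F d b) (c + t • v) v) t := by
    intro t
    have hF : HasFDerivAt (F d b) (fderiv ℂ (F d b) (c + t • v)) (c + t • v) :=
      (differentiable_F d b (c + t • v)).hasFDerivAt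
    exact hF.comp_hasDerivAt t (hline t)
  have hG1 : ∀ t : ℂ, HasDerivAt (fun t : ℂ => (F d b (c + t • v)).1)
      (fderiv ℂ (F d b) (c + t • v) v).1 t := fun t => (hG t).fst
  have hG2 : ∀ t : ℂ, HasDerivAt (fun t : ℂ => (F d b (c + t • v)).2)
      (fderiv ℂ (F d b) (c + t • v) v).2 t := fun t => (hG t).snd
  have hwG : ∀ t : ℂ, HasDerivAt (fun t : ℂ => wedge w (F d b (c + t • v)))
      (wedge w (fderiv ℂ (F d b) (c + t • v) v)) t := by
    intro t
    unfold wedge
    exact ((hG2 t).const_mul w.1).sub ((hG1 t).const_mul w.2)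
  have hGe : ∀ t : ℂ, HasDerivAt (fun t : ℂ => wedge (F d b (c + t • v)) e)
      (wedge (fderiv ℂ (F d b) (c + t • v) v) e) t := by
    intro t
    unfold wedge
    exact ((hG1 t).mul_const e.2).sub ((hG2 t).mul_const e.1)
  have hden : ∀ᶠ t in 𝓝 (0 : ℂ), wedge (F d b (c + t • v)) e ≠ 0 := by
    have h1 : ContinuousAt (fun t : ℂ => wedge (F d b (c + t • v)) e) 0 := (hGe 0).continuousAt
    apply h1.eventually_ne
    rw [zero_smul, add_zero]
    exact he
  obtain ⟨r, hr, hball⟩ := Metric.eventually_nhds_iff_ball.mp (hev.and hden)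
  have hψ : ∀ t ∈ Metric.ball (0 : ℂ) r, HasDerivAt
      (fun t : ℂ => wedge w (F d b (c + t • v)) / wedge (F d b (c + t • v)) e) 0 t := by
    intro t ht
    obtain ⟨h1, h2⟩ := hball t ht
    have h3 := (hwG t).div (hGe t) h2
    have h4 : (wedge w (fderiv ℂ (F d b) (c + t • v) v) * wedge (F d b (c + t • v)) e -
        wedge w (F d b (c + t • v)) * wedge (fderiv ℂ (F d b) (c + t • v) v) e) /
          wedge (F d b (c + t • v)) e ^ 2 = 0 := by
      have h5 := wedge_fderiv_F hd b (c + t • v) v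
      rw [h1, zero_mul] at h5
      have h6 : wedge w (fderiv ℂ (F d b) (c + t • v) v) * wedge (F d b (c + t • v)) e -
        wedge w (F d b (c + t • v)) * wedge (fderiv ℂ (F d b) (c + t • v) v) e =
        wedge w e * wedge (F d b (c + t • v)) (fderiv ℂ (F d b) (c + t • v) v) := by
        simp only [wedge]; ring
      rw [h6, h5, mul_zero, zero_div]
    rw [h4] at h3
    exact h3
  have hconst : ∀ t ∈ Metric.ball (0 : ℂ) r, wedge w (F d b (c + t • v)) = 0 := by
    intro t ht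
    have h1 := Metric.isOpen_ball.is_const_of_deriv_eq_zero
      (convex_ball (0 : ℂ) r).isPreconnected
      (fun s hs => (hψ s hs).differentiableAt.differentiableWithinAt)
      (fun s hs => (hψ s hs).deriv) ht (Metric.mem_ball_self hr)
    simp only [zero_smul, add_zero] at h1
    rw [← hw, wedge_self, zero_div, div_eq_zero_iff] at h1
    exact h1.resolve_right (hball t ht).2
  have hall : ∀ t : ℂ, wedge w (F d b (c + t • v)) = 0 := by
    have han : AnalyticOnNhd ℂ (fun t : ℂ => wedge w (F d b (c + t • v))) Set.univ := by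
      have hdiff : Differentiable ℂ (fun t : ℂ => wedge w (F d b (c + t • v))) :=
        fun t => (hwG t).differentiableAt
      exact fun t _ => hdiff.analyticAt t
    have h2 : (fun t : ℂ => wedge w (F d b (c + t • v))) =ᶠ[𝓝 0] 0 := by
      filter_upwards [Metric.ball_mem_nhds (0 : ℂ) hr] with t ht
      exact hconst t ht
    intro t
    exact han.eqOn_zero_of_preconnected_of_eventuallyEq_zero isPreconnected_univ
      (Set.mem_univ 0) h2 (Set.mem_univ t)
  -- all of the plane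
  have hgen : ∀ x : ℂ × ℂ, wedge x v ≠ 0 → wedge w (F d b x) = 0 := by
    intro x hx
    have h6 : x = (wedge x v / wedge c v) • (c + (-(wedge x c) / wedge x v) • v) := by
      have k1 : wedge x v / wedge c v * (-(wedge x c) / wedge x v) = -(wedge x c) / wedge c v := by
        field_simp
      rw [smul_add, smul_smul, k1]
      have k2 : wedge c v • x = wedge x v • c + (-(wedge x c)) • v := by
        ext <;> simp only [wedge, Prod.smul_fst, Prod.smul_snd, Prod.fst_add, Prod.snd_add,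
          smul_eq_mul] <;> ring
      calc x = (wedge c v)⁻¹ • (wedge c v • x) := by rw [smul_smul, inv_mul_cancel₀ hcv, one_smul]
        _ = (wedge x v / wedge c v) • c + (-(wedge x c) / wedge c v) • v := by
          rw [k2, smul_add, smul_smul, smul_smul]
          congr 2 <;> ring
    rw [h6, F_smul, wedge_smul_right, hall, mul_zero]
  have hfull : ∀ x : ℂ × ℂ, wedge w (F d b x) = 0 := by
    intro x
    by_cases hx : wedge x v = 0
    · have h1 : Tendsto (fun n : ℕ => wedge w (F d b (x + (1 / ((n : ℂ) + 1)) • c))) atTop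
          (𝓝 (wedge w (F d b (x + (0 : ℂ) • c)))) := by
        have hcont : Continuous (fun s : ℂ => wedge w (F d b (x + s • c))) := by
          have h2 : Continuous (fun s : ℂ => F d b (x + s • c)) :=
            (differentiable_F d b).continuous.comp (by fun_prop)
          exact continuous_wedge.comp (continuous_const.prodMk h2)
        exact (hcont.tendsto 0).comp (tendsto_one_div_add_atTop_nhds_zero_nat (𝕜 := ℂ))
      rw [zero_smul, add_zero] at h1
      refine tendsto_nhds_unique h1 (tendsto_const_nhds.congr fun n => ?_)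
      have h3 : (1 : ℂ) / ((n : ℂ) + 1) ≠ 0 := by
        have : (n : ℂ) + 1 ≠ 0 := by exact_mod_cast Nat.succ_ne_zero n
        exact div_ne_zero one_ne_zero this
      refine (hgen _ ?_).symm
      rw [wedge_add_left, wedge_smul_left, hx, zero_add]
      exact mul_ne_zero h3 hcv
    · exact hgen x hx
  obtain ⟨x, hx0, hx⟩ := exists_wedge_F_eq_zero hd b e
  obtain ⟨s, hs⟩ := exists_smul_of_wedge_eq_zero hw0 (hfull x)
  rw [hs, wedge_smul_left] at hx
  have hs0 : s = 0 := (mul_eq_zero.mp hx).resolve_right he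
  rw [hs0, zero_smul] at hs
  exact hx0 (hb x hs)

/-! ### Persistence of critical points -/

/-- L3, local form. -/
theorem isCrit_persist {d : ℕ} (hd : 1 ≤ d) {b' : Par d} (hb : Nondeg d b') {c' : ℂ × ℂ}
    (hc : IsCrit d b' c') (hc1 : ‖c'‖ = 1) {ε : ℝ} (hε : 0 < ε) :
    ∀ᶠ b in 𝓝 b', ∃ c, IsCrit d b c ∧ ‖c‖ = 1 ∧ dist c c' < ε := by
  obtain ⟨hc0, hj⟩ := (isCrit_iff hd).mp hc
  obtain ⟨v, hv⟩ := exists_wedge_ne_zero hc0
  -- the normalisation is continuous at `t = 0`
  have hcont : Tendsto (fun t : ℂ => ((‖c' + t • v‖ : ℂ))⁻¹ • (c' + t • v)) (𝓝 0) (𝓝 c') := by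
    have h1 : ContinuousAt (fun t : ℂ => ((‖c' + t • v‖ : ℂ))⁻¹ • (c' + t • v)) 0 := by
      have h2 : Continuous (fun t : ℂ => c' + t • v) := by fun_prop
      have h3 : ContinuousAt (fun t : ℂ => ((‖c' + t • v‖ : ℂ))⁻¹) 0 := by
        refine ContinuousAt.inv₀ ?_ ?_
        · exact (Complex.continuous_ofReal.comp h2.norm).continuousAt
        · rw [zero_smul, add_zero, hc1]; simp
      exact h3.smul h2.continuousAt
    have h4 := h1.tendsto
    simp only [zero_smul, add_zero, hc1, Complex.ofReal_one, inv_one, one_smul] at h4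
    exact h4
  obtain ⟨r, hr, hball⟩ := Metric.eventually_nhds_iff.mp
    (hcont.eventually (Metric.ball_mem_nhds c' hε))
  obtain ⟨r2, hr2, hball2⟩ : ∃ r2 > 0, ∀ t : ℂ, ‖t‖ < r2 → c' + t • v ≠ 0 := by
    refine ⟨1 / (‖v‖ + 1), by positivity, fun t ht h => ?_⟩
    have h1 : c' = -(t • v) := eq_neg_of_add_eq_zero_left h
    have h2 : ‖c'‖ = ‖t‖ * ‖v‖ := by rw [h1, norm_neg, norm_smul]
    rw [hc1] at h2
    rw [lt_div_iff₀ (by positivity)] at ht
    nlinarith [norm_nonneg t, norm_nonneg v]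
  have hcont2 : Continuous (fun p : Par d × ℂ => jac d p.1 (c' + p.2 • v)) := by
    have h1 : Continuous (fun p : Par d × ℂ => (p.1, c' + p.2 • v)) := by fun_prop
    exact (continuous_jac_joint d).comp h1
  have hdiff2 : ∀ b : Par d, Differentiable ℂ (fun t : ℂ => jac d b (c' + t • v)) := by
    intro b
    have h1 : Differentiable ℂ (fun t : ℂ => (b, c' + t • v)) := by fun_prop
    exact (differentiable_jac_joint d).comp h1
  have hzero2 : jac d b' (c' + (0 : ℂ) • v) = 0 := by rw [zero_smul, add_zero]; exact hj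
  have hz := zero_persist (x0 := b') (g := fun b t => jac d b (c' + t • v))
    hcont2 hdiff2 hzero2 (jac_line_ne hd hb hv) (lt_min hr hr2)
  filter_upwards [hz] with b hb'
  obtain ⟨t, ht, hzero⟩ := hb'
  have hne : c' + t • v ≠ 0 := hball2 t (ht.trans_le (min_le_right _ _))
  have hn : ‖c' + t • v‖ ≠ 0 := norm_ne_zero_iff.mpr hne
  have hinv : ((‖c' + t • v‖ : ℂ))⁻¹ ≠ 0 := inv_ne_zero (Complex.ofReal_ne_zero.mpr hn)
  refine ⟨((‖c' + t • v‖ : ℂ))⁻¹ • (c' + t • v), ?_, ?_, ?_⟩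
  · rw [isCrit_iff hd]
    refine ⟨smul_ne_zero hinv hne, ?_⟩
    have h1 := jac_smul b ((‖c' + t • v‖ : ℂ))⁻¹ (c' + t • v)
    rw [hzero, mul_zero] at h1
    exact (mul_eq_zero.mp h1).resolve_right (pow_ne_zero _ hinv)
  · rw [norm_smul, norm_inv, Complex.norm_real, norm_norm, inv_mul_cancel₀ hn]
  · have h1 : dist t 0 < r := by
      rw [dist_zero_right]; exact ht.trans_le (min_le_left _ _)
    exact hball h1

/-- L3: critical points of `b'` are limits of critical points. -/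
theorem exists_isCrit_seq {d : ℕ} (hd : 1 ≤ d) {b : ℕ → Par d} {b' : Par d}
    (hb : Nondeg d b') (hlim : Tendsto b atTop (𝓝 b')) {c' : ℂ × ℂ} (hc : IsCrit d b' c')
    (hc1 : ‖c'‖ = 1) :
    ∃ c : ℕ → ℂ × ℂ, Tendsto c atTop (𝓝 c') ∧ ∀ᶠ i in atTop, IsCrit d (b i) (c i) ∧ ‖c i‖ = 1 := by
  classical
  have hex : ∀ i : ℕ, ∃ c : ℂ × ℂ, (∃ x, IsCrit d (b i) x ∧ ‖x‖ = 1) →
      (IsCrit d (b i) c ∧ ‖c‖ = 1 ∧
        dist c c' ≤ Metric.infDist c' {x | IsCrit d (b i) x ∧ ‖x‖ = 1} + 1 / ((i : ℝ) + 1)) := by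
    intro i
    by_cases h : ∃ x, IsCrit d (b i) x ∧ ‖x‖ = 1
    · have hpos : (0 : ℝ) < 1 / ((i : ℝ) + 1) := by positivity
      have hlt : Metric.infDist c' {x | IsCrit d (b i) x ∧ ‖x‖ = 1} <
          Metric.infDist c' {x | IsCrit d (b i) x ∧ ‖x‖ = 1} + 1 / ((i : ℝ) + 1) := by linarith
      obtain ⟨x, hx, hd'⟩ := (Metric.infDist_lt_iff (by exact h)).mp hlt
      refine ⟨x, fun _ => ⟨hx.1, hx.2, ?_⟩⟩
      rw [dist_comm]
      exact hd'.le
    · exact ⟨0, fun h' => absurd h' h⟩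
  choose c hcs using hex
  refine ⟨c, ?_, ?_⟩
  · rw [Metric.tendsto_atTop]
    intro ε hε
    have h1 := hlim.eventually (isCrit_persist hd hb hc hc1 (half_pos hε))
    have h2 : ∀ᶠ i : ℕ in atTop, 1 / ((i : ℝ) + 1) < ε / 2 :=
      (tendsto_one_div_add_atTop_nhds_zero_nat (𝕜 := ℝ)).eventually (gt_mem_nhds (half_pos hε))
    obtain ⟨n, hn⟩ := (h1.and h2).exists_forall_of_atTop
    refine ⟨n, fun i hi => ?_⟩
    obtain ⟨⟨x, hx1, hx2, hx3⟩, hi2⟩ := hn i hi
    obtain ⟨-, -, h3⟩ := hcs i ⟨x, hx1, hx2⟩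
    have h4 : Metric.infDist c' {x | IsCrit d (b i) x ∧ ‖x‖ = 1} ≤ dist c' x :=
      Metric.infDist_le_dist_of_mem (by exact ⟨hx1, hx2⟩)
    rw [dist_comm] at hx3
    linarith
  · filter_upwards [hlim.eventually (isCrit_persist hd hb hc hc1 one_pos)] with i hi
    obtain ⟨x, hx1, hx2, -⟩ := hi
    obtain ⟨h1, h2, -⟩ := hcs i ⟨x, hx1, hx2⟩
    exact ⟨h1, h2⟩

/-- A limit of critical points is critical. -/
theorem isCrit_limit {d : ℕ} (hd : 1 ≤ d) {b : ℕ → Par d} {b' : Par d} {c : ℕ → ℂ × ℂ}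
    {c' : ℂ × ℂ} (hb : Tendsto b atTop (𝓝 b')) (hc : Tendsto c atTop (𝓝 c')) (hc0 : c' ≠ 0)
    (h : ∃ᶠ i in atTop, IsCrit d (b i) (c i)) : IsCrit d b' c' := by
  rw [isCrit_iff hd]
  refine ⟨hc0, ?_⟩
  have h1 := tendsto_jac hb hc
  by_contra hne
  have h2 := h1.eventually_ne hne
  obtain ⟨i, hi1, hi2⟩ := (h.and_eventually h2).exists
  exact hi2 ((isCrit_iff hd).mp hi1).2

end Lim39

end HypRat
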