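import Pool.Agent.Lib.Hyp.Rat.Bound95
import Pool.Agent.Lib.Hyp.Rat.Lim39

/-!
The limit step of Theorem C (helper39): `expandingRat_of_limit` is `Iface.lim` from three
independent limits of reference points (`D3`).
-/

namespace HypRat

open Filter Topology

attribute [local irreducible] jac F jacN

/-- Three pairwise different limits of reference points. -/
def HasThree (d : ℕ) (T : Par d → Set (ℂ × ℂ)) : Prop :=
  ∀ (u : ℕ → Par d) (b : Par d), (∀ i, u i ∈ ExpandingRat d) → Tendsto u atTop (𝓝 b) →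
    Nondeg d b → ∃ φ : ℕ → ℕ, StrictMono φ ∧ ∃ (y : Fin 3 → ℕ → ℂ × ℂ) (z : Fin 3 → ℂ × ℂ),
      (∀ j i, y j i ∈ T (u (φ i))) ∧ (∀ j, Tendsto (y j) atTop (𝓝 (z j))) ∧
      ∀ j j', j ≠ j' → wedge (z j) (z j') ≠ 0

theorem expandingRat_of_limit {d : ℕ} (hd : 1 ≤ d) {T : Par d → Set (ℂ × ℂ)}
    (hnever : ∀ b ∈ ExpandingRat d, ∀ c, IsCrit d b c → ∀ y ∈ T b, ∀ k : ℕ,
      wedge ((F d b)^[k] c) y ≠ 0)
    (hD3 : HasThree d T) (u : ℕ → Par d) (b : Par d) (hu : ∀ i, u i ∈ ExpandingRat d)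
    (hlim : Tendsto u atTop (𝓝 b)) (hb : Nondeg d b) (N k₀ : ℕ) (C ρ : ℝ) (hN : 1 ≤ N)
    (hρ0 : 0 ≤ ρ) (hρ1 : ρ < 1)
    (hRL : ∀ i, ∀ c, IsCrit d (u i) c → ∀ α ∈ T (u i), ∀ β ∈ T (u i), ∀ k, k₀ ≤ k →
      ‖Rf d N k (u i) c α β‖ ≤ C * ρ ^ k ∧ ‖Lf d N k (u i) c α β‖ ≤ ρ) :
    b ∈ ExpandingRat d := by
  obtain ⟨φ, hφ, y, z, hy, hyz, hz⟩ := hD3 u b hu hlim hb
  have hlim' : Tendsto (fun i => u (φ i)) atTop (𝓝 b) := hlim.comp hφ.tendsto_atTop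
  refine mem_expandingRat_of_unit hd hb fun x hx hx1 => ?_
  obtain ⟨c, hc, hev⟩ := Lim39.exists_isCrit_seq hd hb hlim' hx hx1
  refine Lim39.tendsToCycle_of_ineq hd hb hx.1 (k0 := k₀) (C := C) hN hρ0 hρ1 hz ?_ ?_
  · intro i j _ k hk
    refine Lim39.RIneq.limit hlim' hc (hyz i) (hyz j) (Eventually.frequently ?_)
    filter_upwards [hev] with n hn
    refine Lim39.RIneq_of_Rf ?_ ?_ (hRL (φ n) (c n) hn.1 _ (hy i n) _ (hy j n) k hk).1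
    · exact hnever _ (hu (φ n)) _ hn.1 _ (hy j n) _
    · exact hnever _ (hu (φ n)) _ hn.1 _ (hy i n) _
  · intro i j _ k hk
    refine Lim39.LIneq.limit hlim' hc (hyz i) (hyz j) (Eventually.frequently ?_)
    filter_upwards [hev] with n hn
    refine Lim39.LIneq_of_Lf ?_ ?_ (hRL (φ n) (c n) hn.1 _ (hy i n) _ (hy j n) k hk).2
    · exact hnever _ (hu (φ n)) _ hn.1 _ (hy i n) _
    · exact hnever _ (hu (φ n)) _ hn.1 _ (hy j n) _

end HypRat
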