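import Pool.Agent.Lib.Hyp.Rat.DD25

/-!
MP_47150b_an, Theorem C, module C (helper25): local estimates near attracting cycles of rational
maps, openness of the expanding locus, uniform estimates on compact sets.
-/

namespace HypRat

open Filter Topology

theorem chord_iter_smul {d : ℕ} (b : Par d) (N : ℕ) {t s : ℂ} (ht : t ≠ 0) (hs : s ≠ 0)
    (x y : ℂ × ℂ) : chord ((F d b)^[N] (t • x)) ((F d b)^[N] (s • y)) =
      chord ((F d b)^[N] x) ((F d b)^[N] y) := by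
  rw [iter_smul, iter_smul, chord_smul_left (pow_ne_zero _ ht), chord_smul_right (pow_ne_zero _ hs)]

theorem sig_smul_right {d : ℕ} (hd : 1 ≤ d) (b : Par d) (N : ℕ) {u : ℂ} (hu : u ≠ 0)
    (x : ℂ × ℂ) : sig d b N (u • x) = sig d b N x := by
  have := sig_smul hd b N one_ne_zero hu x
  rwa [one_smul] at this

theorem tendsto_iter {ι : Type*} {f : Filter ι} {d : ℕ} {b : Par d} {x : ℂ × ℂ} {u : ι → Par d}
    {v : ι → ℂ × ℂ} (hu : Tendsto u f (𝓝 b)) (hv : Tendsto v f (𝓝 x)) (N : ℕ) :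
    Tendsto (fun i => (F d (u i))^[N] (v i)) f (𝓝 ((F d b)^[N] x)) := by
  have h1 : Tendsto (fun p : Par d × (ℂ × ℂ) => (F d p.1)^[N] p.2) (𝓝 (b, x))
    (𝓝 ((F d b)^[N] x)) := (continuous_iter_joint d N).tendsto (b, x)
  have h2 : Tendsto (fun i => (u i, v i)) f (𝓝 (b, x)) := hu.prodMk_nhds hv
  have h3 := h1.comp h2
  exact h3

theorem tendsto_sig {ι : Type*} {f : Filter ι} {d : ℕ} {b : Par d} (hb : Nondeg d b)
    {x : ℂ × ℂ} (hx : x ≠ 0) {u : ι → Par d} {v : ι → ℂ × ℂ} (hu : Tendsto u f (𝓝 b))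
    (hv : Tendsto v f (𝓝 x)) (N : ℕ) :
    Tendsto (fun i => sig d (u i) N (v i)) f (𝓝 (sig d b N x)) := by
  have h2 : Tendsto (fun i => (u i, v i)) f (𝓝 (b, x)) := hu.prodMk_nhds hv
  have h1 : Tendsto (fun p : Par d × (ℂ × ℂ) => jacN d p.1 N p.2) (𝓝 (b, x))
    (𝓝 (jacN d b N x)) := (continuous_jacN_joint d N).tendsto (b, x)
  have h3 := (h1.comp h2).norm
  have h4 := (tendsto_iter hu hv N).norm.pow 2
  have h5 := hv.norm.pow 2
  have h6 := (h3.mul h5).div h4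
    (pow_ne_zero _ (norm_ne_zero_iff.mpr (iter_ne_zero hb hx N)))
  exact h6

/-- **The local trap.** Near an attracting periodic point the `q`-th iterate is a uniform
contraction of a neighbourhood into itself, for all nearby parameters. -/
theorem trap {d : ℕ} (hd : 1 ≤ d) {b₀ : Par d} (hb : Nondeg d b₀) {q : ℕ} {α : ℂ × ℂ}
    (h : IsAttracting d b₀ q α) {ε : ℝ} (hε : 0 < ε) :
    ∃ δ ρ : ℝ, 0 < δ ∧ δ ≤ ε ∧ 0 < ρ ∧ ρ < 1 ∧ ∀ᶠ b in 𝓝 b₀, Nondeg d b ∧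
      (∀ x y : ℂ × ℂ, x ≠ 0 → y ≠ 0 → chord x α ≤ δ → chord y α ≤ δ →
        chord ((F d b)^[q] x) ((F d b)^[q] y) ≤ ρ * chord x y) ∧
      (∀ x : ℂ × ℂ, x ≠ 0 → chord x α ≤ δ → sig d b q x ≤ ρ) ∧
      (∀ x : ℂ × ℂ, x ≠ 0 → chord x α ≤ δ → chord ((F d b)^[q] x) α ≤ δ) := by
  have hα : α ≠ 0 := h.1
  have hα' : 0 < ‖α‖ := norm_pos_iff.mpr hα
  obtain ⟨hw, hs⟩ := (isAttracting_iff_sig hd hb hα).mp h
  obtain ⟨ρ, hρa, hρ1⟩ := exists_between (max_lt one_pos hs)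
  have hρ0 : 0 < ρ := (le_max_left _ _).trans_lt hρa
  have hρs : sig d b₀ q α < ρ := (le_max_right _ _).trans_lt hρa
  have hSS : SS d b₀ q α α < ρ := by rwa [SS_self hd hb q hα]
  have hev : ∀ᶠ p : Par d × ((ℂ × ℂ) × (ℂ × ℂ)) in 𝓝 (b₀, (α, α)), SS d p.1 q p.2.1 p.2.2 < ρ :=
    (continuousAt_SS hb q hα hα).eventually (gt_mem_nhds hSS)
  obtain ⟨U, hU, W, hW, hUW⟩ := mem_nhds_prod_iff.mp hev
  obtain ⟨η, hη, hηW⟩ := Metric.mem_nhds_iff.mp hW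
  -- the radius
  obtain ⟨δ, hδ0, hδ⟩ : ∃ δ : ℝ, 0 < δ ∧ δ < min (min ε (1 / 2)) (η / (2 * ‖α‖)) :=
    exists_between (by positivity)
  have hδε : δ < ε := hδ.trans_le ((min_le_left _ _).trans (min_le_left _ _))
  have hδ1 : δ < 1 / 2 := hδ.trans_le ((min_le_left _ _).trans (min_le_right _ _))
  have hδη : δ * ‖α‖ < η := by
    have h1 : δ < η / (2 * ‖α‖) := hδ.trans_le (min_le_right _ _)
    have h2 : δ * ‖α‖ < η / (2 * ‖α‖) * ‖α‖ := mul_lt_mul_of_pos_right h1 hα'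
    have h3 : η / (2 * ‖α‖) * ‖α‖ = η / 2 := by field_simp
    linarith
  have hball : ∀ x : ℂ × ℂ, x ≠ 0 → chord x α ≤ δ → ∃ t : ℂ, t ≠ 0 ∧ ‖t • x - α‖ < η := by
    intro x hx hxδ
    obtain ⟨t, ht, h1⟩ := Ch.exists_smul_near' hx hα (by linarith)
    refine ⟨t, ht, h1.trans_lt ?_⟩
    exact (mul_le_mul_of_nonneg_right hxδ hα'.le).trans_lt hδη
  have hmem : ∀ b ∈ U, ∀ x y : ℂ × ℂ, ‖x - α‖ < η → ‖y - α‖ < η → SS d b q x y < ρ := by
    intro b hbU x y hx hy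
    have h1 : ((x, y) : (ℂ × ℂ) × (ℂ × ℂ)) ∈ W := by
      apply hηW
      rw [Metric.mem_ball, Prod.dist_eq, dist_eq_norm, dist_eq_norm]
      exact max_lt hx hy
    exact hUW (Set.mk_mem_prod hbU h1)
  -- invariance at the centre
  have hcen : ∀ᶠ b in 𝓝 b₀, chord ((F d b)^[q] α) α < (1 - ρ) * δ := by
    have h1 : Tendsto (fun b : Par d => (F d b)^[q] α) (𝓝 b₀) (𝓝 ((F d b₀)^[q] α)) :=
      tendsto_iter tendsto_id tendsto_const_nhds q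
    have h2 := Ch.tendsto_chord h1 tendsto_const_nhds (iter_ne_zero hb hα q) hα
    rw [(Ch.chord_eq_zero_iff (iter_ne_zero hb hα q) hα).mpr hw] at h2
    exact h2.eventually (gt_mem_nhds (mul_pos (by linarith) hδ0))
  refine ⟨δ, ρ, hδ0, hδε.le, hρ0, hρ1, ?_⟩
  filter_upwards [hU, hcen, (isOpen_nondeg d).mem_nhds hb] with b hbU hbc hbn
  have hbn' : Nondeg d b := hbn
  have hcontr : ∀ x y : ℂ × ℂ, x ≠ 0 → y ≠ 0 → chord x α ≤ δ → chord y α ≤ δ →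
        chord ((F d b)^[q] x) ((F d b)^[q] y) ≤ ρ * chord x y := by
    intro x y hx hy hxδ hyδ
    obtain ⟨t, ht, h1⟩ := hball x hx hxδ
    obtain ⟨s, hs, h2⟩ := hball y hy hyδ
    rw [← chord_iter_smul b q ht hs, chord_iter b q (smul_ne_zero ht hx) (smul_ne_zero hs hy),
      chord_smul_left ht, chord_smul_right hs]
    exact mul_le_mul_of_nonneg_right (hmem b hbU _ _ h1 h2).le (chord_nonneg _ _)
  refine ⟨hbn', hcontr, ?_, ?_⟩
  · intro x hx hxδ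
    obtain ⟨t, ht, h1⟩ := hball x hx hxδ
    rw [← sig_smul_right hd b q ht, ← SS_self hd hbn' q (smul_ne_zero ht hx)]
    exact (hmem b hbU _ _ h1 h1).le
  · intro x hx hxδ
    have h1 := hcontr x α hx hα hxδ (by rw [Ch.chord_self]; exact hδ0.le)
    have h2 := chord_triangle (iter_ne_zero hbn' hx q) (iter_ne_zero hbn' hα q) hα
    have h3 : ρ * chord x α ≤ ρ * δ := mul_le_mul_of_nonneg_left hxδ hρ0.le
    linarith

/-- Uniform contraction near an attracting periodic point. -/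
theorem local_contract {d : ℕ} (hd : 1 ≤ d) {b₀ : Par d} (hb : Nondeg d b₀) {q : ℕ} {α : ℂ × ℂ}
    (h : IsAttracting d b₀ q α) :
    ∃ e : ℝ, 0 < e ∧ ∃ ρ : ℝ, 0 ≤ ρ ∧ ρ < 1 ∧ ∀ᶠ b in 𝓝 b₀, ∀ x y : ℂ × ℂ, x ≠ 0 → y ≠ 0 →
      chord x α ≤ e → chord y α ≤ e →
        chord ((F d b)^[q] x) ((F d b)^[q] y) ≤ ρ * chord x y := by
  obtain ⟨δ, ρ, h1, -, h3, h4, h5⟩ := trap hd hb h one_pos
  exact ⟨δ, h1, ρ, h3.le, h4, h5.mono fun b hb => hb.2.1⟩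

/-- The estimate along one orbit. -/
def EstPt (d : ℕ) (b : Par d) (c : ℂ × ℂ) (N k0 : ℕ) (C ρ : ℝ) : Prop :=
  ∀ k, k0 ≤ k → chord ((F d b)^[k * N] c) ((F d b)^[(k + 1) * N] c) ≤ C * ρ ^ k ∧
    sig d b N ((F d b)^[k * N] c) ≤ ρ

theorem iter_step (d : ℕ) (b : Par d) (N k : ℕ) (c : ℂ × ℂ) :
    (F d b)^[(k + 1) * N] c = (F d b)^[N] ((F d b)^[k * N] c) := by
  rw [← Function.iterate_add_apply]
  congr 1
  ring

theorem EstPt.mono {d : ℕ} {b : Par d} {c : ℂ × ℂ} {N k0 k0' : ℕ} {C C' ρ ρ' : ℝ}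
    (h : EstPt d b c N k0 C ρ) (hk : k0 ≤ k0') (hC : 0 ≤ C) (hCC : C ≤ C') (hρ : 0 ≤ ρ)
    (hρρ : ρ ≤ ρ') : EstPt d b c N k0' C' ρ' := by
  intro k hk'
  obtain ⟨h1, h2⟩ := h k (hk.trans hk')
  refine ⟨h1.trans ?_, h2.trans hρρ⟩
  exact mul_le_mul hCC (pow_le_pow_left₀ hρ hρρ k) (pow_nonneg hρ k) (hC.trans hCC)

theorem EstPt.smul {d : ℕ} (hd : 1 ≤ d) {b : Par d} {c : ℂ × ℂ} {N k0 : ℕ} {C ρ : ℝ}
    (h : EstPt d b c N k0 C ρ) {t : ℂ} (ht : t ≠ 0) : EstPt d b (t • c) N k0 C ρ := by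
  intro k hk
  obtain ⟨h1, h2⟩ := h k hk
  rw [iter_smul, iter_smul, chord_smul_left (pow_ne_zero _ ht), chord_smul_right (pow_ne_zero _ ht),
    sig_smul_right hd b N (pow_ne_zero _ ht)]
  exact ⟨h1, h2⟩

theorem sig_mul_le {d : ℕ} {b : Par d} (hb : Nondeg d b) {x : ℂ × ℂ} (hx : x ≠ 0) {N : ℕ}
    {ρ : ℝ} (hρ : 0 ≤ ρ) (t : ℕ) (h : ∀ i, i < t → sig d b N ((F d b)^[i * N] x) ≤ ρ) :
    sig d b (t * N) x ≤ ρ ^ t := by
  induction t with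
  | zero =>
    have hx' : ‖x‖ ≠ 0 := norm_ne_zero_iff.mpr hx
    simp only [Nat.zero_mul, sig, jacN_zero, norm_one, one_mul, Function.iterate_zero, id_eq,
      pow_zero]
    rw [div_self (pow_ne_zero _ hx')]
  | succ t ih =>
    have h1 := ih fun i hi => h i (Nat.lt_succ_of_lt hi)
    have h2 := h t (Nat.lt_succ_self t)
    have e : (t + 1) * N = t * N + N := by ring
    rw [e, sig_add hb _ _ hx, pow_succ]
    exact mul_le_mul h1 h2 (sig_nonneg _ _ _ _) (pow_nonneg hρ t)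

theorem chord_sum_le {x : ℕ → ℂ × ℂ} (hx : ∀ k, x k ≠ 0) {B : ℝ} (t : ℕ)
    (h : ∀ i, i < t → chord (x i) (x (i + 1)) ≤ B) : chord (x 0) (x t) ≤ t * B := by
  induction t with
  | zero => simp [Ch.chord_self]
  | succ t ih =>
    have h1 := ih fun i hi => h i (Nat.lt_succ_of_lt hi)
    have h2 := h t (Nat.lt_succ_self t)
    have h3 := chord_triangle (hx 0) (hx t) (hx (t + 1))
    push_cast
    linarith

theorem EstPt.mul {d : ℕ} {b : Par d} (hb : Nondeg d b) {c : ℂ × ℂ} (hc : c ≠ 0) {N k0 t : ℕ}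
    {C ρ : ℝ} (h : EstPt d b c N k0 C ρ) (ht : 1 ≤ t) (hC : 0 ≤ C) (hρ0 : 0 ≤ ρ) (hρ1 : ρ ≤ 1) :
    EstPt d b c (N * t) k0 (C * t) ρ := by
  intro k hk
  have hit : ∀ i, (F d b)^[i * N] ((F d b)^[k * (N * t)] c) = (F d b)^[(k * t + i) * N] c := by
    intro i
    rw [← Function.iterate_add_apply]
    congr 1
    ring
  have hkt : k ≤ k * t := Nat.le_mul_of_pos_right k ht
  constructor
  · have h1 := chord_sum_le (x := fun i => (F d b)^[(k * t + i) * N] c)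
      (fun i => iter_ne_zero hb hc _) (B := C * ρ ^ k) t (fun i _ => by
        have h2 := (h (k * t + i) (by omega)).1
        refine h2.trans (mul_le_mul_of_nonneg_left ?_ hC)
        exact pow_le_pow_of_le_one hρ0 hρ1 (by omega))
    simp only [add_zero] at h1
    have e1 : k * t * N = k * (N * t) := by ring
    have e2 : (k * t + t) * N = (k + 1) * (N * t) := by ring
    rw [e1, e2] at h1
    refine h1.trans (le_of_eq ?_)
    ring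
  · have h1 := sig_mul_le hb (iter_ne_zero hb hc (k * (N * t))) (N := N) hρ0 t (fun i _ => by
      rw [hit]
      exact (h (k * t + i) (by omega)).2)
    rw [Nat.mul_comm t N] at h1
    refine h1.trans ?_
    calc ρ ^ t ≤ ρ ^ 1 := pow_le_pow_of_le_one hρ0 hρ1 ht
      _ = ρ := pow_one ρ

/-- Uniform attraction near an orbit which tends to an attracting cycle (master form). -/
theorem local_orbit {d : ℕ} (hd : 1 ≤ d) {b₀ : Par d} (hb : Nondeg d b₀) {c₀ : ℂ × ℂ}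
    (hc : c₀ ≠ 0) {q : ℕ} {α : ℂ × ℂ} (h : IsAttracting d b₀ q α)
    (ht : Tendsto (fun k : ℕ => chord ((F d b₀)^[q * k] c₀) α) atTop (𝓝 0)) {ε : ℝ}
    (hε : 0 < ε) : ∃ (ρ : ℝ) (k0 : ℕ), 0 < ρ ∧ ρ < 1 ∧ ∀ᶠ p : Par d × (ℂ × ℂ) in 𝓝 (b₀, c₀),
      Nondeg d p.1 ∧ p.2 ≠ 0 ∧ ∀ k, k0 ≤ k → chord ((F d p.1)^[k * q] p.2) α ≤ ε ∧
        chord ((F d p.1)^[k * q] p.2) ((F d p.1)^[(k + 1) * q] p.2) ≤ 2 * ρ ^ (k - k0) ∧
          sig d p.1 q ((F d p.1)^[k * q] p.2) ≤ ρ := by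
  obtain ⟨δ, ρ, hδ0, hδε, hρ0, hρ1, hev⟩ := trap hd hb h hε
  have hα : α ≠ 0 := h.1
  obtain ⟨k0, hk0⟩ := (ht.eventually (gt_mem_nhds hδ0)).exists
  rw [Nat.mul_comm] at hk0
  refine ⟨ρ, k0, hρ0, hρ1, ?_⟩
  have h1 : Tendsto (fun p : Par d × (ℂ × ℂ) => (F d p.1)^[k0 * q] p.2) (𝓝 (b₀, c₀))
      (𝓝 ((F d b₀)^[k0 * q] c₀)) := (continuous_iter_joint d (k0 * q)).tendsto (b₀, c₀)
  have h2 := (Ch.tendsto_chord h1 tendsto_const_nhds (iter_ne_zero hb hc _) hα).eventually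
    (gt_mem_nhds hk0)
  have h3 : ∀ᶠ p : Par d × (ℂ × ℂ) in 𝓝 (b₀, c₀), p.2 ≠ 0 :=
    continuous_snd.continuousAt.eventually_ne hc
  have h4 : Tendsto (fun p : Par d × (ℂ × ℂ) => p.1) (𝓝 (b₀, c₀)) (𝓝 b₀) :=
    continuous_fst.tendsto (b₀, c₀)
  filter_upwards [h2, h3, h4.eventually hev] with p hp2 hp3 hp4
  obtain ⟨hn, hcon, hsig, hinv⟩ := hp4
  refine ⟨hn, hp3, ?_⟩
  have hne : ∀ k, (F d p.1)^[k * q] p.2 ≠ 0 := fun k => iter_ne_zero hn hp3 _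
  have hδk : ∀ j, chord ((F d p.1)^[(k0 + j) * q] p.2) α ≤ δ := by
    intro j
    induction j with
    | zero => exact hp2.le
    | succ j ih =>
      rw [← add_assoc, iter_step]
      exact hinv _ (hne _) ih
  have hch : ∀ j, chord ((F d p.1)^[(k0 + j) * q] p.2) ((F d p.1)^[(k0 + j + 1) * q] p.2) ≤
      2 * ρ ^ j := by
    intro j
    induction j with
    | zero =>
      rw [pow_zero, mul_one]
      exact chord_le_two _ _
    | succ j ih =>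
      have h5 := hcon _ _ (hne (k0 + j)) (hne (k0 + j + 1)) (hδk j) (hδk (j + 1))
      rw [← iter_step, ← iter_step] at h5
      rw [← add_assoc]
      refine h5.trans ?_
      rw [pow_succ]
      have := mul_le_mul_of_nonneg_left ih hρ0.le
      linarith
  intro k hk
  obtain ⟨j, rfl⟩ := Nat.exists_eq_add_of_le hk
  refine ⟨(hδk j).trans hδε, ?_, hsig _ (hne _) (hδk j)⟩
  rw [Nat.add_sub_cancel_left]
  exact hch j

/-- **C1.** The uniform estimate near an orbit which tends to an attracting cycle. -/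
theorem local_est {d : ℕ} (hd : 1 ≤ d) {b₀ : Par d} (hb : Nondeg d b₀) {c₀ : ℂ × ℂ}
    (hc : c₀ ≠ 0) (h : TendsToCycle d b₀ c₀) :
    ∃ (N k0 : ℕ) (C ρ : ℝ), 1 ≤ N ∧ 0 ≤ C ∧ 0 ≤ ρ ∧ ρ < 1 ∧
      ∀ᶠ p : Par d × (ℂ × ℂ) in 𝓝 (b₀, c₀), EstPt d p.1 p.2 N k0 C ρ := by
  obtain ⟨q, hq, α, hα, ht⟩ := h
  obtain ⟨ρ, k0, hρ0, hρ1, hev⟩ := local_orbit hd hb hc hα ht one_pos
  refine ⟨q, k0, 2 * (ρ ^ k0)⁻¹, ρ, hq, by positivity, hρ0.le, hρ1, ?_⟩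
  filter_upwards [hev] with p hp k hk
  obtain ⟨-, h2, h3⟩ := hp.2.2 k hk
  refine ⟨h2.trans (le_of_eq ?_), h3⟩
  obtain ⟨j, rfl⟩ := Nat.exists_eq_add_of_le hk
  rw [Nat.add_sub_cancel_left, pow_add]
  have : ρ ^ k0 ≠ 0 := pow_ne_zero _ hρ0.ne'
  field_simp

/-- **C3.** Nearby orbits end near the attracting periodic point. -/
theorem local_trap {d : ℕ} (hd : 1 ≤ d) {b₀ : Par d} (hb : Nondeg d b₀) {c₀ : ℂ × ℂ}
    (hc : c₀ ≠ 0) {q : ℕ} {α : ℂ × ℂ} (h : IsAttracting d b₀ q α)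
    (ht : Tendsto (fun k : ℕ => chord ((F d b₀)^[q * k] c₀) α) atTop (𝓝 0)) {ε : ℝ}
    (hε : 0 < ε) : ∃ k0 : ℕ, ∀ᶠ p : Par d × (ℂ × ℂ) in 𝓝 (b₀, c₀), ∀ k, k0 ≤ k →
      chord ((F d p.1)^[q * k] p.2) α ≤ ε := by
  obtain ⟨ρ, k0, -, -, hev⟩ := local_orbit hd hb hc h ht hε
  refine ⟨k0, hev.mono fun p hp k hk => ?_⟩
  rw [Nat.mul_comm]
  exact (hp.2.2 k hk).1

/-- Convergence of an orbit satisfying the estimate. -/
theorem exists_attracting_of_estPt {d : ℕ} (hd : 1 ≤ d) {b : Par d} (hb : Nondeg d b)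
    {c : ℂ × ℂ} (hc : c ≠ 0) {N k0 : ℕ} {C ρ : ℝ} (hC : 0 ≤ C) (hρ0 : 0 ≤ ρ) (hρ1 : ρ < 1)
    (h : EstPt d b c N k0 C ρ) : ∃ γ : ℂ × ℂ, ‖γ‖ = 1 ∧ IsAttracting d b N γ ∧
      sig d b N γ ≤ ρ ∧
      (∀ k, k0 ≤ k → chord ((F d b)^[k * N] c) γ ≤ C * ρ ^ k * (1 - ρ)⁻¹) ∧
        Tendsto (fun k : ℕ => chord ((F d b)^[N * k] c) γ) atTop (𝓝 0) := by
  have hne : ∀ k, (F d b)^[k * N] c ≠ 0 := fun k => iter_ne_zero hb hc _
  obtain ⟨γ, hγ1, hγb, hγt⟩ := Ch.exists_limit hne hC hρ0 hρ1 (fun k hk => (h k hk).1)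
  have hγ0 : γ ≠ 0 := by
    rintro rfl
    simp at hγ1
  obtain ⟨t, ht0, ht⟩ := Ch.exists_smul_tendsto hne hγ0 hγt
  have h1 := tendsto_iter (tendsto_const_nhds (x := b)) ht N
  have h2 := Ch.tendsto_chord h1 (tendsto_const_nhds (x := γ)) (iter_ne_zero hb hγ0 N) hγ0
  have h3 : (fun k => chord ((F d b)^[N] (t k • (F d b)^[k * N] c)) γ) =
      fun k => chord ((F d b)^[(k + 1) * N] c) γ := by
    funext k
    rw [iter_smul, chord_smul_left (pow_ne_zero _ (ht0 k)), ← iter_step]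
  rw [h3] at h2
  have h4 : Tendsto (fun k => chord ((F d b)^[(k + 1) * N] c) γ) atTop (𝓝 0) :=
    (tendsto_add_atTop_iff_nat (f := fun k => chord ((F d b)^[k * N] c) γ) 1).mpr hγt
  have h5 := tendsto_nhds_unique h2 h4
  have hw : wedge ((F d b)^[N] γ) γ = 0 :=
    (Ch.chord_eq_zero_iff (iter_ne_zero hb hγ0 N) hγ0).mp h5
  have h6 := tendsto_sig hb hγ0 (tendsto_const_nhds (x := b)) ht N
  have h7 : sig d b N γ ≤ ρ := by
    refine le_of_tendsto h6 ?_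
    filter_upwards [eventually_ge_atTop k0] with k hk
    rw [sig_smul_right hd b N (ht0 k)]
    exact (h k hk).2
  refine ⟨γ, hγ1, (isAttracting_iff_sig hd hb hγ0).mpr ⟨hw, h7.trans_lt hρ1⟩, h7, hγb, ?_⟩
  have e : (fun k : ℕ => chord ((F d b)^[N * k] c) γ) =
      fun k => chord ((F d b)^[k * N] c) γ := by
    funext k
    rw [Nat.mul_comm]
  rw [e]
  exact hγt

/-- **C4.** -/
theorem tendsToCycle_of_estPt {d : ℕ} (hd : 1 ≤ d) {b : Par d} (hb : Nondeg d b)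
    {c : ℂ × ℂ} (hc : c ≠ 0) {N k0 : ℕ} {C ρ : ℝ} (hN : 1 ≤ N) (hC : 0 ≤ C) (hρ0 : 0 ≤ ρ)
    (hρ1 : ρ < 1) (h : EstPt d b c N k0 C ρ) : TendsToCycle d b c := by
  obtain ⟨γ, -, h1, -, -, h2⟩ := exists_attracting_of_estPt hd hb hc hC hρ0 hρ1 h
  exact ⟨N, hN, γ, h1, h2⟩

/-- Scaling to the unit sphere. -/
theorem exists_unit {x : ℂ × ℂ} (hx : x ≠ 0) : ∃ t : ℂ, t ≠ 0 ∧ ‖t • x‖ = 1 := by
  have hn : ‖x‖ ≠ 0 := norm_ne_zero_iff.mpr hx
  refine ⟨((‖x‖ : ℂ))⁻¹, inv_ne_zero (Complex.ofReal_ne_zero.mpr hn), ?_⟩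
  rw [norm_smul, norm_inv, Complex.norm_real, norm_norm, inv_mul_cancel₀ hn]

theorem isCrit_smul {d : ℕ} (hd : 1 ≤ d) {b : Par d} {x : ℂ × ℂ} {t : ℂ} (ht : t ≠ 0)
    (h : IsCrit d b x) : IsCrit d b (t • x) := by
  rw [isCrit_iff hd] at h ⊢
  refine ⟨smul_ne_zero ht h.1, ?_⟩
  have h1 := jac_smul b t x
  rw [h.2, mul_zero] at h1
  exact (mul_eq_zero.mp h1).resolve_right (pow_ne_zero _ ht)

theorem TendsToCycle.of_smul {d : ℕ} {b : Par d} {x : ℂ × ℂ} {t : ℂ} (ht : t ≠ 0)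
    (h : TendsToCycle d b (t • x)) : TendsToCycle d b x := by
  obtain ⟨q, hq, α, hα, h1⟩ := h
  refine ⟨q, hq, α, hα, ?_⟩
  have e : (fun k : ℕ => chord ((F d b)^[q * k] (t • x)) α) =
      fun k => chord ((F d b)^[q * k] x) α := by
    funext k
    rw [iter_smul, chord_smul_left (pow_ne_zero _ ht)]
  rw [e] at h1
  exact h1

/-- **C5.** The expanding locus is open. -/
theorem isOpen_expandingRat {d : ℕ} (hd : 1 ≤ d) : IsOpen (ExpandingRat d) := by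
  rw [isOpen_iff_mem_nhds]
  intro b₀ hb₀
  obtain ⟨hn, hcyc⟩ := hb₀
  have hK : IsCompact (Metric.sphere (0 : ℂ × ℂ) 1) := isCompact_sphere _ _
  have hev : ∀ᶠ b in 𝓝 b₀, ∀ x ∈ Metric.sphere (0 : ℂ × ℂ) 1,
      Nondeg d b → IsCrit d b x → TendsToCycle d b x := by
    refine hK.eventually_forall_of_forall_eventually ?_
    intro x hx
    have hx0 : x ≠ 0 := by
      rintro rfl
      simp at hx
    by_cases hj : jac d b₀ x = 0
    · obtain ⟨N, k0, C, ρ, hN, hC, hρ0, hρ1, h⟩ := local_est hd hn hx0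
        (hcyc x ((isCrit_iff hd).mpr ⟨hx0, hj⟩))
      filter_upwards [h] with p hp hpn hpc
      exact tendsToCycle_of_estPt hd hpn hpc.1 hN hC hρ0 hρ1 hp
    · have h1 : ∀ᶠ p : Par d × (ℂ × ℂ) in 𝓝 (b₀, x), jac d p.1 p.2 ≠ 0 :=
        (continuous_jac_joint d).continuousAt.eventually_ne hj
      filter_upwards [h1] with p hp _ hpc
      exact absurd ((isCrit_iff hd).mp hpc).2 hp
  filter_upwards [hev, (isOpen_nondeg d).mem_nhds hn] with b hb hbn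
  have hbn' : Nondeg d b := hbn
  refine ⟨hbn', fun x hx => ?_⟩
  obtain ⟨t, ht, ht1⟩ := exists_unit hx.1
  exact TendsToCycle.of_smul ht (hb _ (mem_sphere_zero_iff_norm.mpr ht1) hbn' (isCrit_smul hd ht hx))

/-- The property used in the compactness argument. -/
def GoodSet (d : ℕ) (S : Set (Par d × (ℂ × ℂ))) : Prop :=
  ∃ (N k0 : ℕ) (C ρ : ℝ), 1 ≤ N ∧ 0 ≤ C ∧ 0 ≤ ρ ∧ ρ < 1 ∧
    ∀ p ∈ S, Nondeg d p.1 → p.2 ≠ 0 → EstPt d p.1 p.2 N k0 C ρ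

theorem GoodSet.union {d : ℕ} {S T : Set (Par d × (ℂ × ℂ))} (hS : GoodSet d S)
    (hT : GoodSet d T) : GoodSet d (S ∪ T) := by
  obtain ⟨N, k0, C, ρ, h1, h2, h3, h4, h5⟩ := hS
  obtain ⟨N', k0', C', ρ', h1', h2', h3', h4', h5'⟩ := hT
  have e1 : 0 ≤ C * N' := by positivity
  have e2 : 0 ≤ C' * N := by positivity
  refine ⟨N * N', max k0 k0', C * N' + C' * N, max ρ ρ', Nat.mul_pos h1 h1',
    by positivity, h3.trans (le_max_left _ _), max_lt h4 h4', ?_⟩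
  rintro p (hp | hp) hn hne
  · exact ((h5 p hp hn hne).mul hn hne h1' h2 h3 h4.le).mono (le_max_left _ _) e1 (by linarith) h3
      (le_max_left _ _)
  · rw [mul_comm N N']
    exact ((h5' p hp hn hne).mul hn hne h1 h2' h3' h4'.le).mono (le_max_right _ _) e2
      (by linarith) h3' (le_max_right _ _)

/-- **C6.** The uniform estimate on a compact set of expanding maps. -/
theorem cert {d : ℕ} (hd : 1 ≤ d) {K : Set (Par d)} (hK : IsCompact K)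
    (hKE : K ⊆ ExpandingRat d) :
    ∃ (N k0 : ℕ) (C ρ : ℝ), 1 ≤ N ∧ 0 ≤ C ∧ 0 ≤ ρ ∧ ρ < 1 ∧
      ∀ b ∈ K, ∀ c, IsCrit d b c → EstPt d b c N k0 C ρ := by
  have hcomp : IsCompact {p : Par d × (ℂ × ℂ) | p.1 ∈ K ∧ ‖p.2‖ = 1 ∧ jac d p.1 p.2 = 0} := by
    refine (hK.prod (isCompact_sphere (0 : ℂ × ℂ) 1)).of_isClosed_subset ?_ ?_
    · refine (hK.isClosed.preimage continuous_fst).inter (IsClosed.inter ?_ ?_)
      · exact isClosed_eq continuous_snd.norm continuous_const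
      · exact isClosed_eq (continuous_jac_joint d) continuous_const
    · rintro ⟨b, x⟩ ⟨h1, h2, -⟩
      exact ⟨h1, mem_sphere_zero_iff_norm.mpr h2⟩
  have key : GoodSet d {p : Par d × (ℂ × ℂ) | p.1 ∈ K ∧ ‖p.2‖ = 1 ∧ jac d p.1 p.2 = 0} := by
    refine hcomp.induction_on (p := GoodSet d)
      ⟨1, 0, 0, 0, le_rfl, le_rfl, le_rfl, one_pos, fun p hp => absurd hp (Set.notMem_empty p)⟩
      ?_ (fun S T hS hT => hS.union hT) ?_
    · rintro S T hST ⟨N, k0, C, ρ, h1, h2, h3, h4, h5⟩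
      exact ⟨N, k0, C, ρ, h1, h2, h3, h4, fun p hp => h5 p (hST hp)⟩
    · rintro ⟨b, x⟩ ⟨hb, hx, hj⟩
      have hx0 : x ≠ 0 := by
        rintro rfl
        simp at hx
      obtain ⟨hn, hcyc⟩ := hKE hb
      obtain ⟨N, k0, C, ρ, hN, hC, hρ0, hρ1, h⟩ := local_est hd hn hx0
        (hcyc x ((isCrit_iff hd).mpr ⟨hx0, hj⟩))
      exact ⟨_, mem_nhdsWithin_of_mem_nhds h, N, k0, C, ρ, hN, hC, hρ0, hρ1,
        fun p hp _ _ => hp⟩
  obtain ⟨N, k0, C, ρ, h1, h2, h3, h4, h5⟩ := key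
  refine ⟨N, k0, C, ρ, h1, h2, h3, h4, fun b hb c hc => ?_⟩
  obtain ⟨t, ht, ht1⟩ := exists_unit hc.1
  have hc' := (isCrit_iff hd).mp (isCrit_smul hd ht hc)
  have h6 := h5 (b, t • c) ⟨hb, ht1, hc'.2⟩ (hKE hb).1 hc'.1
  have h7 := h6.smul hd (inv_ne_zero ht)
  simp only [smul_smul, inv_mul_cancel₀ ht, one_smul] at h7
  exact h7

end HypRat
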