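import Pool.Agent.Lib.Hyp.Rat.Defs

/-!
Resultant of two binary forms of degree `d` and the functions `b_i b_j^(2d-1) / Res b`
(module R + S of the plan for the space of rational maps, MP_47150b_an; helper24).
-/

namespace HypRat

open Polynomial

section gen

variable {R S : Type*} [CommRing R] [CommRing S]

/-- the polynomial with the coefficients `a 0, ..., a d` -/
noncomputable def pl24 {d : ℕ} (a : Fin (d + 1) → R) : R[X] :=
  ∑ j : Fin (d + 1), C (a j) * X ^ (j : ℕ)

theorem pl24_map {d : ℕ} (a : Fin (d + 1) → R) (φ : R →+* S) :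
    (pl24 a).map φ = pl24 (fun j => φ (a j)) := by
  simp [pl24, Polynomial.map_sum]

theorem pl24_coeff {d : ℕ} (a : Fin (d + 1) → R) (j : Fin (d + 1)) :
    (pl24 a).coeff j = a j := by
  unfold pl24
  rw [finsetSum_coeff]
  rw [Finset.sum_eq_single j]
  · simp
  · intro i _ hij
    rw [coeff_C_mul, coeff_X_pow, if_neg, mul_zero]
    intro h
    exact hij (Fin.ext h.symm)
  · intro h
    exact absurd (Finset.mem_univ _) h

theorem pl24_natDegree {d : ℕ} (a : Fin (d + 1) → R) : (pl24 a).natDegree ≤ d := by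
  unfold pl24
  refine natDegree_sum_le_of_forall_le _ _ ?_
  intro j _
  refine (natDegree_C_mul_X_pow_le _ _).trans ?_
  omega

theorem pl24_eval {d : ℕ} (a : Fin (d + 1) → R) (z : R) :
    (pl24 a).eval z = ∑ j : Fin (d + 1), a j * z ^ (j : ℕ) := by
  simp [pl24, eval_finsetSum]

end gen

/-- the generic resultant of two binary forms of degree `d` -/
noncomputable def ResP (d : ℕ) : MvPolynomial (Fin ((d + 1) + (d + 1))) ℂ :=
  resultant (pl24 fun j : Fin (d + 1) => MvPolynomial.X (Fin.castAdd (d + 1) j))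
    (pl24 fun j : Fin (d + 1) => MvPolynomial.X (Fin.natAdd (d + 1) j)) d d

theorem ResP_isHomogeneous (d : ℕ) : (ResP d).IsHomogeneous (2 * d) := by
  unfold ResP resultant
  rw [Matrix.det_apply']
  refine MvPolynomial.IsHomogeneous.sum _ _ _ ?_
  intro σ _
  have h : (∏ i : Fin (d + d), sylvester
      (pl24 fun j : Fin (d + 1) => (MvPolynomial.X (Fin.castAdd (d + 1) j) :
        MvPolynomial (Fin ((d + 1) + (d + 1))) ℂ))
      (pl24 fun j : Fin (d + 1) => MvPolynomial.X (Fin.natAdd (d + 1) j)) d d (σ i) i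
      ).IsHomogeneous (∑ i : Fin (d + d), 1) := by
    refine MvPolynomial.IsHomogeneous.prod _ _ _ ?_
    intro i _
    unfold sylvester
    rw [Matrix.of_apply]
    refine Fin.addCases (fun j => ?_) (fun j => ?_) i
    · rw [Fin.addCases_left]
      split_ifs with h1
      · have h2 : ((σ (Fin.castAdd d j) : Fin (d + d)) : ℕ) - (j : ℕ) < d + 1 := by
          have := h1.2; omega
        have := pl24_coeff (fun j : Fin (d + 1) => (MvPolynomial.X (Fin.natAdd (d + 1) j) :
          MvPolynomial (Fin ((d + 1) + (d + 1))) ℂ)) ⟨_, h2⟩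
        simp only at this
        rw [this]
        exact MvPolynomial.isHomogeneous_X _ _
      · exact MvPolynomial.isHomogeneous_zero _ _ _
    · rw [Fin.addCases_right]
      split_ifs with h1
      · have h2 : ((σ (Fin.natAdd d j) : Fin (d + d)) : ℕ) - (j : ℕ) < d + 1 := by
          have := h1.2; omega
        have := pl24_coeff (fun j : Fin (d + 1) => (MvPolynomial.X (Fin.castAdd (d + 1) j) :
          MvPolynomial (Fin ((d + 1) + (d + 1))) ℂ)) ⟨_, h2⟩
        simp only at this
        rw [this]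
        exact MvPolynomial.isHomogeneous_X _ _
      · exact MvPolynomial.isHomogeneous_zero _ _ _
  have e : (∑ i : Fin (d + d), 1) = 2 * d := by simp; ring
  rw [e] at h
  rcases Int.units_eq_one_or (Equiv.Perm.sign σ) with hs | hs
  · rw [hs, Units.val_one, Int.cast_one, one_mul]; exact h
  · rw [hs, Units.val_neg, Units.val_one, Int.cast_neg, Int.cast_one, neg_one_mul]; exact h.neg

/-- the value of the resultant -/
noncomputable def Res (d : ℕ) (b : Par d) : ℂ := MvPolynomial.eval b (ResP d)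

theorem Res_eq (d : ℕ) (b : Par d) :
    Res d b = resultant (pl24 fun j : Fin (d + 1) => b (Fin.castAdd (d + 1) j))
      (pl24 fun j : Fin (d + 1) => b (Fin.natAdd (d + 1) j)) d d := by
  unfold Res ResP
  rw [← resultant_map_map, pl24_map, pl24_map]
  have e1 : (fun j : Fin (d + 1) => MvPolynomial.eval b
      (MvPolynomial.X (Fin.castAdd (d + 1) j))) = fun j => b (Fin.castAdd (d + 1) j) := by
    funext j
    exact MvPolynomial.eval_X _
  have e2 : (fun j : Fin (d + 1) => MvPolynomial.eval b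
      (MvPolynomial.X (Fin.natAdd (d + 1) j))) = fun j => b (Fin.natAdd (d + 1) j) := by
    funext j
    exact MvPolynomial.eval_X _
  rw [e1, e2]

/-- values of the homogeneous map in the affine chart -/
theorem F_chart24 (d : ℕ) (b : Par d) (x : ℂ × ℂ) (hx : x.2 ≠ 0) :
    F d b x = (x.2 ^ d * (pl24 fun j : Fin (d + 1) => b (Fin.castAdd (d + 1) j)).eval (x.1 / x.2),
      x.2 ^ d * (pl24 fun j : Fin (d + 1) => b (Fin.natAdd (d + 1) j)).eval (x.1 / x.2)) := by
  have key : ∀ a : Fin (d + 1) → ℂ, ∑ j : Fin (d + 1), a j * (x.1 ^ (j : ℕ) * x.2 ^ (d - (j : ℕ)))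
      = x.2 ^ d * ∑ j : Fin (d + 1), a j * (x.1 / x.2) ^ (j : ℕ) := by
    intro a
    rw [Finset.mul_sum]
    refine Finset.sum_congr rfl ?_
    intro j _
    have h1 : x.2 ^ d = x.2 ^ (d - (j : ℕ)) * x.2 ^ (j : ℕ) := by
      rw [← pow_add]; congr 1; omega
    rw [div_pow, h1]
    field_simp
  unfold F
  rw [pl24_eval, pl24_eval, key, key]

/-- values of the homogeneous map at infinity -/
theorem F_infty24 (d : ℕ) (b : Par d) (x : ℂ × ℂ) (hx : x.2 = 0) :
    F d b x = (x.1 ^ d * (pl24 fun j : Fin (d + 1) => b (Fin.castAdd (d + 1) j)).coeff d,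
      x.1 ^ d * (pl24 fun j : Fin (d + 1) => b (Fin.natAdd (d + 1) j)).coeff d) := by
  have key : ∀ a : Fin (d + 1) → ℂ, ∑ j : Fin (d + 1), a j * (x.1 ^ (j : ℕ) * x.2 ^ (d - (j : ℕ)))
      = x.1 ^ d * (pl24 a).coeff d := by
    intro a
    have := pl24_coeff a (Fin.last d)
    rw [Fin.val_last] at this
    rw [this, Finset.sum_eq_single (Fin.last d)]
    · simp [mul_comm]
    · intro j _ hj
      have : (j : ℕ) < d := by
        have := Fin.val_lt_last hj
        exact this
      rw [hx, zero_pow (by omega), mul_zero, mul_zero]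
    · intro h
      exact absurd (Finset.mem_univ _) h
  unfold F
  rw [key, key]

/-- no common zero -/
theorem nondeg_iff24 (d : ℕ) (b : Par d) : Nondeg d b ↔
    (∀ z, ¬ ((pl24 fun j : Fin (d + 1) => b (Fin.castAdd (d + 1) j)).eval z = 0 ∧
      (pl24 fun j : Fin (d + 1) => b (Fin.natAdd (d + 1) j)).eval z = 0)) ∧
    ¬ ((pl24 fun j : Fin (d + 1) => b (Fin.castAdd (d + 1) j)).coeff d = 0 ∧
      (pl24 fun j : Fin (d + 1) => b (Fin.natAdd (d + 1) j)).coeff d = 0) := by
  constructor
  · intro h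
    constructor
    · rintro z ⟨h1, h2⟩
      have h3 : F d b (z, 1) = 0 := by
        rw [F_chart24 d b (z, 1) one_ne_zero]
        refine Prod.ext ?_ ?_
        · show (1 : ℂ) ^ d * eval (z / 1) _ = 0
          rw [div_one, h1, mul_zero]
        · show (1 : ℂ) ^ d * eval (z / 1) _ = 0
          rw [div_one, h2, mul_zero]
      have := h _ h3
      simp at this
    · rintro ⟨h1, h2⟩
      have h3 : F d b (1, 0) = 0 := by
        rw [F_infty24 d b (1, 0) rfl, h1, h2, mul_zero]
        rfl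
      have := h _ h3
      simp at this
  · rintro ⟨h1, h2⟩ x hx
    by_cases h0 : x.2 = 0
    · rw [F_infty24 d b x h0] at hx
      by_contra hne
      have hx1 : x.1 ≠ 0 := by
        intro h
        exact hne (Prod.ext h h0)
      have hp : x.1 ^ d ≠ 0 := pow_ne_zero _ hx1
      have e1 := congrArg Prod.fst hx
      have e2 := congrArg Prod.snd hx
      simp only [Prod.fst_zero, Prod.snd_zero, mul_eq_zero, hp, false_or] at e1 e2
      exact h2 ⟨e1, e2⟩
    · rw [F_chart24 d b x h0] at hx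
      exfalso
      have hp : x.2 ^ d ≠ 0 := pow_ne_zero _ h0
      have e1 := congrArg Prod.fst hx
      have e2 := congrArg Prod.snd hx
      simp only [Prod.fst_zero, Prod.snd_zero, mul_eq_zero, hp, false_or] at e1 e2
      exact h1 _ ⟨e1, e2⟩

/-- the resultant vanishes iff there is a common zero, version with a leading coefficient -/
theorem res_lead24 (d : ℕ) (f g : ℂ[X]) (hf : f.natDegree ≤ d) (hg : g.natDegree ≤ d)
    (h : f.coeff d ≠ 0) : resultant f g d d ≠ 0 ↔ ∀ z, ¬ (f.eval z = 0 ∧ g.eval z = 0) := by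
  have hfd : f.natDegree = d := le_antisymm hf (le_natDegree_of_ne_zero h)
  have hf0 : f ≠ 0 := by rintro rfl; simp at h
  have e := resultant_eq_prod_eval f g d hg (IsAlgClosed.splits f)
  rw [hfd] at e
  rw [e]
  have hl : f.leadingCoeff ^ d ≠ 0 := pow_ne_zero _ (leadingCoeff_ne_zero.2 hf0)
  rw [mul_ne_zero_iff, and_iff_right hl, Ne, Multiset.prod_eq_zero_iff, Multiset.mem_map]
  constructor
  · rintro h1 z ⟨h2, h3⟩
    exact h1 ⟨z, (mem_roots hf0).2 h2, h3⟩
  · rintro h1 ⟨z, h2, h3⟩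
    exact h1 z ⟨(mem_roots hf0).1 h2, h3⟩

theorem Res_ne_zero_iff (d : ℕ) (hd : 1 ≤ d) (b : Par d) : Res d b ≠ 0 ↔ Nondeg d b := by
  rw [Res_eq, nondeg_iff24 d]
  generalize hf : (pl24 fun j : Fin (d + 1) => b (Fin.castAdd (d + 1) j)) = f
  generalize hg : (pl24 fun j : Fin (d + 1) => b (Fin.natAdd (d + 1) j)) = g
  have df : f.natDegree ≤ d := by rw [← hf]; exact pl24_natDegree _
  have dg : g.natDegree ≤ d := by rw [← hg]; exact pl24_natDegree _
  by_cases h1 : f.coeff d = 0
  · by_cases h2 : g.coeff d = 0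
    · have k1 : f.natDegree < d := by
        rcases lt_or_eq_of_le df with h | h
        · exact h
        · exfalso
          rw [← h, coeff_natDegree, leadingCoeff_eq_zero] at h1
          rw [h1] at h; simp at h; omega
      have k2 : g.natDegree < d := by
        rcases lt_or_eq_of_le dg with h | h
        · exact h
        · exfalso
          rw [← h, coeff_natDegree, leadingCoeff_eq_zero] at h2
          rw [h2] at h; simp at h; omega
      constructor
      · intro h
        exact absurd (resultant_eq_zero_of_lt_lt _ _ _ _ k1 k2) h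
      · rintro ⟨_, h⟩
        exact absurd ⟨h1, h2⟩ h
    · rw [resultant_comm]
      have := res_lead24 d g f dg df h2
      rw [mul_ne_zero_iff, this]
      constructor
      · rintro ⟨_, h⟩
        exact ⟨fun z hz => h z hz.symm, fun hz => h2 hz.2⟩
      · rintro ⟨h, _⟩
        exact ⟨pow_ne_zero _ (by norm_num), fun z hz => h z hz.symm⟩
  · rw [res_lead24 d f g df dg h1]
    constructor
    · intro h
      exact ⟨h, fun hz => h1 hz.1⟩
    · rintro ⟨h, _⟩
      exact h

/-! ### the functions `b_i b_j^(2d-1) / Res b` -/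

theorem Res_smul (d : ℕ) (t : ℂ) (b : Par d) : Res d (t • b) = t ^ (2 * d) * Res d b := by
  rw [Res_eq, Res_eq]
  have e : ∀ f : Fin (d + 1) → Fin ((d + 1) + (d + 1)),
      (pl24 fun j : Fin (d + 1) => (t • b) (f j)) = C t * pl24 fun j : Fin (d + 1) => b (f j) := by
    intro f
    unfold pl24
    rw [Finset.mul_sum]
    refine Finset.sum_congr rfl ?_
    intro j _
    show C (t * b (f j)) * X ^ (j : ℕ) = C t * (C (b (f j)) * X ^ (j : ℕ))
    rw [C_mul, mul_assoc]
  rw [e, e, resultant_C_mul_left, resultant_C_mul_right]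
  ring

theorem differentiable_eval24 {σ : Type*} [Fintype σ] (P : MvPolynomial σ ℂ) :
    Differentiable ℂ fun b : σ → ℂ => MvPolynomial.eval b P := by
  induction P using MvPolynomial.induction_on with
  | C a => simp
  | add p q hp hq =>
    simp only [map_add]
    exact hp.add hq
  | mul_X p i hp =>
    simp only [map_mul, MvPolynomial.eval_X]
    exact hp.mul (differentiable_apply i)

theorem Res_differentiable (d : ℕ) : Differentiable ℂ (Res d) :=
  differentiable_eval24 (ResP d)

/-- `b_i b_j^(2d-1) / Res b` -/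
noncomputable def quot24 (d : ℕ) (i j : Fin ((d + 1) + (d + 1))) (b : Par d) : ℂ :=
  b i * b j ^ (2 * d - 1) / Res d b

theorem quot24_differentiableAt (d : ℕ) (hd : 1 ≤ d) (i j : Fin ((d + 1) + (d + 1))) (b : Par d)
    (hb : Nondeg d b) : DifferentiableAt ℂ (quot24 d i j) b := by
  have h1 : DifferentiableAt ℂ (fun b : Par d => b i * b j ^ (2 * d - 1)) b :=
    (differentiable_apply i b).mul ((differentiable_apply j b).pow _)
  have h2 : DifferentiableAt ℂ (fun b : Par d => (Res d b)⁻¹) b :=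
    (Res_differentiable d b).inv ((Res_ne_zero_iff d hd b).2 hb)
  have h3 : quot24 d i j = fun b : Par d => b i * b j ^ (2 * d - 1) * (Res d b)⁻¹ := by
    funext b
    unfold quot24
    rw [div_eq_mul_inv]
  rw [h3]
  exact h1.mul h2

theorem quot24_smul (d : ℕ) (hd : 1 ≤ d) (i j : Fin ((d + 1) + (d + 1))) (b : Par d) (t : ℂ)
    (ht : t ≠ 0) : quot24 d i j (t • b) = quot24 d i j b := by
  unfold quot24
  rw [Res_smul, Pi.smul_apply, Pi.smul_apply, smul_eq_mul, smul_eq_mul, mul_pow]
  have h1 : t ^ (2 * d) = t * t ^ (2 * d - 1) := by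
    rw [← pow_succ']; congr 1; omega
  have h2 : t * b i * (t ^ (2 * d - 1) * b j ^ (2 * d - 1))
      = t ^ (2 * d) * (b i * b j ^ (2 * d - 1)) := by rw [h1]; ring
  rw [h2, mul_div_mul_left _ _ (pow_ne_zero _ ht)]

theorem quot24_mem (d : ℕ) (hd : 1 ≤ d) (i j : Fin ((d + 1) + (d + 1))) {Ω : Set (Par d)}
    (hΩ : ∀ b ∈ Ω, Nondeg d b) : quot24 d i j ∈ InvHol Ω :=
  ⟨fun b hb => (quot24_differentiableAt d hd i j b (hΩ b hb)).differentiableWithinAt,
    fun t ht b _ _ => quot24_smul d hd i j b t ht⟩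

theorem quot24_mul (d : ℕ) (i j : Fin ((d + 1) + (d + 1))) (b : Par d) :
    quot24 d i j b * b j = quot24 d j j b * b i := by
  unfold quot24
  ring

theorem nondeg_ne_zero24 (d : ℕ) (b : Par d) (hb : Nondeg d b) :
    ∃ j, b j ≠ 0 := by
  by_contra h
  push Not at h
  have h1 : F d b (1, 0) = 0 := by
    unfold F
    simp [h]
  have := hb _ h1
  simp at this

theorem quot24_ne_zero (d : ℕ) (hd : 1 ≤ d) (j : Fin ((d + 1) + (d + 1))) (b : Par d)
    (hb : Nondeg d b) (hj : b j ≠ 0) : quot24 d j j b ≠ 0 := by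
  unfold quot24
  exact div_ne_zero (mul_ne_zero hj (pow_ne_zero _ hj)) ((Res_ne_zero_iff d hd b).2 hb)

/-- separation of the lines -/
theorem invHol_separates (d : ℕ) (hd : 1 ≤ d) {Ω : Set (Par d)} (hΩ : ∀ b ∈ Ω, Nondeg d b) :
    ∀ b ∈ Ω, ∀ b' ∈ Ω, (∀ g ∈ InvHol Ω, g b = g b') → ∃ t : ℂ, t ≠ 0 ∧ b' = t • b := by
  intro b hb b' hb' h
  obtain ⟨j, hj⟩ := nondeg_ne_zero24 d b (hΩ b hb)
  have h1 := h _ (quot24_mem d hd j j hΩ)
  have h2 : quot24 d j j b' ≠ 0 := h1 ▸ quot24_ne_zero d hd j b (hΩ b hb) hj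
  have h3 : b' j ≠ 0 := by
    intro h0
    apply h2
    unfold quot24
    rw [h0, zero_mul, zero_div]
  refine ⟨b' j / b j, div_ne_zero h3 hj, ?_⟩
  funext i
  have e1 := quot24_mul d i j b
  have e2 := quot24_mul d i j b'
  rw [← h _ (quot24_mem d hd i j hΩ), ← h1] at e2
  have e3 : quot24 d j j b * (b i * b' j) = quot24 d j j b * (b' i * b j) := by
    calc quot24 d j j b * (b i * b' j) = (quot24 d j j b * b i) * b' j := by ring
      _ = (quot24 d i j b * b j) * b' j := by rw [e1]
      _ = (quot24 d i j b * b' j) * b j := by ring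
      _ = (quot24 d j j b * b' i) * b j := by rw [e2]
      _ = _ := by ring
  have e4 := mul_left_cancel₀ (quot24_ne_zero d hd j b (hΩ b hb) hj) e3
  rw [Pi.smul_apply, smul_eq_mul, div_mul_eq_mul_div, eq_div_iff hj]
  rw [← e4]; ring

/-- separation of the tangent vectors -/
theorem invHol_immersion (d : ℕ) (hd : 1 ≤ d) {Ω : Set (Par d)} (hΩ : ∀ b ∈ Ω, Nondeg d b) :
    ∀ b ∈ Ω, ∀ v : Par d, (∀ g ∈ InvHol Ω, fderiv ℂ g b v = 0) → ∃ t : ℂ, v = t • b := by
  intro b hb v h
  obtain ⟨j, hj⟩ := nondeg_ne_zero24 d b (hΩ b hb)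
  refine ⟨v j / b j, ?_⟩
  funext i
  have hd1 := quot24_differentiableAt d hd i j b (hΩ b hb)
  have hd2 := quot24_differentiableAt d hd j j b (hΩ b hb)
  have e0 : (fun b : Par d => quot24 d i j b * b j) = fun b => quot24 d j j b * b i :=
    funext fun b => quot24_mul d i j b
  have e1 : fderiv ℂ (fun b : Par d => quot24 d i j b * b j) b v
      = fderiv ℂ (fun b : Par d => quot24 d j j b * b i) b v := by rw [e0]
  have ap : ∀ k : Fin ((d + 1) + (d + 1)),
      HasFDerivAt (fun b : Par d => b k) (ContinuousLinearMap.proj (R := ℂ) k) b :=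
    fun k => hasFDerivAt_apply k b
  rw [(hd1.hasFDerivAt.fun_mul (ap j)).fderiv, (hd2.hasFDerivAt.fun_mul (ap i)).fderiv] at e1
  simp only [add_apply, smul_apply, smul_eq_mul,
    ContinuousLinearMap.proj_apply, h _ (quot24_mem d hd i j hΩ),
    h _ (quot24_mem d hd j j hΩ), mul_zero, add_zero] at e1
  have e2 := quot24_mul d i j b
  have e3 : quot24 d j j b * (b i * v j) = quot24 d j j b * (v i * b j) := by
    calc quot24 d j j b * (b i * v j) = (quot24 d j j b * b i) * v j := by ring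
      _ = (quot24 d i j b * b j) * v j := by rw [e2]
      _ = (quot24 d i j b * v j) * b j := by ring
      _ = (quot24 d j j b * v i) * b j := by rw [e1]
      _ = _ := by ring
  have e4 := mul_left_cancel₀ (quot24_ne_zero d hd j b (hΩ b hb) hj) e3
  rw [Pi.smul_apply, smul_eq_mul, div_mul_eq_mul_div, eq_div_iff hj]
  rw [← e4]; ring

theorem isOpen_nondeg24 (d : ℕ) (hd : 1 ≤ d) : IsOpen {b : Par d | Nondeg d b} := by
  have e : {b : Par d | Nondeg d b} = {b | Res d b ≠ 0} :=
    Set.ext fun b => (Res_ne_zero_iff d hd b).symm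
  rw [e]
  exact isOpen_ne_fun (Res_differentiable d).continuous continuous_const

/-- on the unit sphere a bound of the functions `b_j^(2d) / Res b` bounds `Res` from below -/
theorem one_le_mul_norm_Res (d : ℕ) (hd : 1 ≤ d) (b : Par d) (hb : Nondeg d b) (h1 : ‖b‖ = 1)
    {M : ℝ} (hM : ∀ j, ‖quot24 d j j b‖ ≤ M) : 1 ≤ M * ‖Res d b‖ := by
  have h2 : ∃ j, ‖b j‖ = 1 := by
    obtain ⟨j, _, hj⟩ := Finset.exists_max_image Finset.univ (fun j => ‖b j‖)
      ⟨⟨0, by omega⟩, Finset.mem_univ _⟩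
    refine ⟨j, le_antisymm (h1 ▸ norm_le_pi_norm b j) ?_⟩
    rw [← h1, pi_norm_le_iff_of_nonneg (norm_nonneg _)]
    exact fun i => hj i (Finset.mem_univ _)
  obtain ⟨j, hj⟩ := h2
  have h3 := hM j
  have hR : 0 < ‖Res d b‖ := norm_pos_iff.2 ((Res_ne_zero_iff d hd b).2 hb)
  unfold quot24 at h3
  rw [norm_div, norm_mul, norm_pow, hj, one_pow, one_mul, div_le_iff₀ hR] at h3
  exact h3

/-- limits of nondegenerate maps of norm one with bounded `b_j^(2d) / Res b` -/
theorem nondeg_of_tendsto24 (d : ℕ) (hd : 1 ≤ d) {u : ℕ → Par d} {b : Par d}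
    (hu : Filter.Tendsto u Filter.atTop (nhds b)) (hn : ∀ i, Nondeg d (u i)) (h1 : ∀ i, ‖u i‖ = 1)
    {M : ℝ} (hM : ∀ i j, ‖quot24 d j j (u i)‖ ≤ M) : Nondeg d b ∧ ‖b‖ = 1 := by
  have hb : ‖b‖ = 1 := by
    have := hu.norm
    simp only [h1] at this
    exact (tendsto_nhds_unique this tendsto_const_nhds)
  refine ⟨?_, hb⟩
  rw [← Res_ne_zero_iff d hd]
  intro h0
  have h2 : Filter.Tendsto (fun i => M * ‖Res d (u i)‖) Filter.atTop (nhds (M * ‖Res d b‖)) :=
    (((Res_differentiable d).continuous.tendsto b).comp hu).norm.const_mul M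
  rw [h0, norm_zero, mul_zero] at h2
  have h3 : (1 : ℝ) ≤ 0 := ge_of_tendsto' h2 fun i =>
    one_le_mul_norm_Res d hd (u i) (hn i) (h1 i) (hM i)
  linarith

end HypRat
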