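import Pool.Agent.Lib.Hyp.Rat.Bound95
import Pool.Agent.Lib.Hyp.Rat.Res24
import Pool.Agent.Lib.Hyp.CT15

/-!
Assembly of Theorem C (helper95): hulls in relatively closed open parts of the expanding locus
of rational maps, from the interfaces of the other modules.
-/

namespace HypRat

open Filter Topology

attribute [local irreducible] jac F jacN

/-- The invariant hull. -/
def invHull {d : ℕ} (Ω K : Set (Par d)) : Set (Par d) :=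
  {b | b ∈ Ω ∧ ∀ g ∈ InvHol Ω, ∀ M : ℝ, (∀ x ∈ K, ‖g x‖ ≤ M) → ‖g b‖ ≤ M}

/-- Interface: the power sums of `H` over the triples. -/
def SumIface (d : ℕ) (T : Par d → Set (ℂ × ℂ)) (Ω : Set (Par d))
    (H : Par d → ℂ × ℂ → ℂ × ℂ → ℂ × ℂ → ℂ) : Prop :=
  ∃ (C₀ : ℝ) (G : ℕ → Par d → ℂ), 0 ≤ C₀ ∧ (∀ m, G m ∈ InvHol Ω) ∧
    (∀ b ∈ Ω, ∀ M : ℝ, 0 ≤ M → (∀ c, IsCrit d b c → ∀ α ∈ T b, ∀ β ∈ T b, ‖H b c α β‖ ≤ M) →
      ∀ m, 1 ≤ m → ‖G m b‖ ≤ C₀ * M ^ m) ∧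
    (∀ b ∈ Ω, ∀ M : ℝ, 0 ≤ M → (∀ m, 1 ≤ m → ‖G m b‖ ≤ C₀ * M ^ m) →
      ∀ c, IsCrit d b c → ∀ α ∈ T b, ∀ β ∈ T b, ‖H b c α β‖ ≤ M)

/-- Bounds pass to the invariant hull. -/
theorem SumIface.hull {d : ℕ} {T : Par d → Set (ℂ × ℂ)} {Ω : Set (Par d)}
    {H : Par d → ℂ × ℂ → ℂ × ℂ → ℂ × ℂ → ℂ} (h : SumIface d T Ω H) {K : Set (Par d)}
    (hK : K ⊆ Ω) {M : ℝ} (hM : 0 ≤ M)
    (hb : ∀ x ∈ K, ∀ c, IsCrit d x c → ∀ α ∈ T x, ∀ β ∈ T x, ‖H x c α β‖ ≤ M) {b : Par d}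
    (hbh : b ∈ invHull Ω K) : ∀ c, IsCrit d b c → ∀ α ∈ T b, ∀ β ∈ T b, ‖H b c α β‖ ≤ M := by
  obtain ⟨C₀, G, hC₀, hG, h1, h2⟩ := h
  apply h2 b hbh.1 M hM
  intro m hm
  exact hbh.2 (G m) (hG m) _ fun x hx => h1 x (hK hx) M hM (hb x hx) m hm

/-- The bounds on `Rf`, `Lf` at one map. -/
def RLBound (d : ℕ) (T : Par d → Set (ℂ × ℂ)) (N k₀ : ℕ) (C ρ : ℝ) (b : Par d) : Prop :=
  ∀ c, IsCrit d b c → ∀ α ∈ T b, ∀ β ∈ T b, ∀ k, k₀ ≤ k →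
    ‖Rf d N k b c α β‖ ≤ C * ρ ^ k ∧ ‖Lf d N k b c α β‖ ≤ ρ

/-- Everything that Theorem C needs from the modules. -/
structure Iface (d : ℕ) (Ψ : Par d → ℂ × ℂ → ℂ) (T : Par d → Set (ℂ × ℂ)) : Prop where
  ref : RefSet d Ψ T
  cert : ∀ K : Set (Par d), IsCompact K → K ⊆ ExpandingRat d →
    ∃ N : ℕ, 1 ≤ N ∧ ∃ k₀ : ℕ, ∃ C ρ : ℝ, 0 ≤ C ∧ 0 ≤ ρ ∧ ρ < 1 ∧ ∀ b ∈ K, ∀ c,
      IsCrit d b c → ∀ k, k₀ ≤ k → chord (orb d N k b c) (orb d N (k + 1) b c) ≤ C * ρ ^ k ∧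
        sig d b N (orb d N k b c) ≤ ρ
  sumR : ∀ Ω : Set (Par d), IsOpen Ω → Ω ⊆ ExpandingRat d →
    (∀ t : ℂ, t ≠ 0 → ∀ b ∈ Ω, t • b ∈ Ω) → ∀ N k, 1 ≤ N → SumIface d T Ω (Rf d N k)
  sumL : ∀ Ω : Set (Par d), IsOpen Ω → Ω ⊆ ExpandingRat d →
    (∀ t : ℂ, t ≠ 0 → ∀ b ∈ Ω, t • b ∈ Ω) → ∀ N k, 1 ≤ N → SumIface d T Ω (Lf d N k)
  lim : ∀ (u : ℕ → Par d) (b : Par d), (∀ i, u i ∈ ExpandingRat d) → Tendsto u atTop (𝓝 b) →
    Nondeg d b → ∀ (N k₀ : ℕ) (C ρ : ℝ), 1 ≤ N → 0 ≤ C → 0 ≤ ρ → ρ < 1 →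
      (∀ i, RLBound d T N k₀ C ρ (u i)) → b ∈ ExpandingRat d

theorem hull_lim {d : ℕ} (hd : 1 ≤ d) {Ψ : Par d → ℂ × ℂ → ℂ} {T : Par d → Set (ℂ × ℂ)}
    (hI : Iface d Ψ T) {Ω : Set (Par d)} (hΩ : IsOpen Ω) (hΩE : Ω ⊆ ExpandingRat d)
    (hcl : closure Ω ∩ ExpandingRat d ⊆ Ω) (hinv : ∀ t : ℂ, t ≠ 0 → ∀ b ∈ Ω, t • b ∈ Ω)
    {K : Set (Par d)} (hK : IsCompact K) (hKΩ : K ⊆ Ω) {u : ℕ → Par d} {b : Par d}
    (hu : ∀ i, u i ∈ invHull Ω K) (hlim : Tendsto u atTop (𝓝 b)) (hb : Nondeg d b) :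
    b ∈ Ω := by
  obtain ⟨N, hN, k₀, C, ρ, hC, hρ0, hρ1, hbd⟩ :=
    bound_compact hd hI.ref hK (hKΩ.trans hΩE) (hI.cert K hK (hKΩ.trans hΩE))
  have hRL : ∀ i, RLBound d T N k₀ C ρ (u i) := by
    intro i c hc α hα β hβ k hk
    constructor
    · exact (hI.sumR Ω hΩ hΩE hinv N k hN).hull hKΩ (by positivity)
        (fun x hx c hc α hα β hβ => (hbd x hx c hc α hα β hβ k hk).1) (hu i) c hc α hα β hβ
    · exact (hI.sumL Ω hΩ hΩE hinv N k hN).hull hKΩ hρ0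
        (fun x hx c hc α hα β hβ => (hbd x hx c hc α hα β hβ k hk).2) (hu i) c hc α hα β hβ
  have hbE : b ∈ ExpandingRat d :=
    hI.lim u b (fun i => hΩE (hu i).1) hlim hb N k₀ C ρ hN hC hρ0 hρ1 hRL
  exact hcl ⟨mem_closure_of_tendsto hlim (Eventually.of_forall fun i => (hu i).1), hbE⟩

/-- A bound for a holomorphic function passes to the limit. -/
theorem bound_lim {m : ℕ} {Ω : Set (Fin m → ℂ)} (hΩ : IsOpen Ω) {g : (Fin m → ℂ) → ℂ}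
    (hg : DifferentiableOn ℂ g Ω) {u : ℕ → Fin m → ℂ} {b : Fin m → ℂ}
    (hlim : Tendsto u atTop (𝓝 b)) (hb : b ∈ Ω) {M : ℝ} (h : ∀ i, ‖g (u i)‖ ≤ M) :
    ‖g b‖ ≤ M := by
  have hc : ContinuousAt g b := (hg.differentiableAt (hΩ.mem_nhds hb)).continuousAt
  exact le_of_tendsto ((hc.tendsto.comp hlim).norm) (Eventually.of_forall h)

/-- A continuous function is bounded on a compact set. -/
theorem exists_bound_on {m : ℕ} {Ω K : Set (Fin m → ℂ)} {g : (Fin m → ℂ) → ℂ}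
    (hg : DifferentiableOn ℂ g Ω) (hK : IsCompact K) (hKΩ : K ⊆ Ω) :
    ∃ M : ℝ, ∀ x ∈ K, ‖g x‖ ≤ M :=
  hK.exists_bound_of_continuousOn (hg.continuousOn.mono hKΩ)

theorem stein_quotient {d : ℕ} (hd : 1 ≤ d) {Ψ : Par d → ℂ × ℂ → ℂ}
    {T : Par d → Set (ℂ × ℂ)} (hI : Iface d Ψ T) {Ω : Set (Par d)} (hΩ : IsOpen Ω)
    (hΩE : Ω ⊆ ExpandingRat d) (hcl : closure Ω ∩ ExpandingRat d ⊆ Ω)
    (hinv : ∀ t : ℂ, t ≠ 0 → ∀ b ∈ Ω, t • b ∈ Ω) : IsSteinQuotient Ω := by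
  have hND : ∀ b ∈ Ω, Nondeg d b := fun b hb => (hΩE hb).1
  refine ⟨hΩ, hinv, ?_, invHol_separates d hd hND, invHol_immersion d hd hND⟩
  intro K hK hKΩ
  set L : Set (Par d) := {b | b ∈ Ω ∧ ‖b‖ = 1 ∧
    ∀ g ∈ InvHol Ω, ∀ M : ℝ, (∀ x ∈ K, ‖g x‖ ≤ M) → ‖g b‖ ≤ M} with hL
  have hLsub : L ⊆ Metric.closedBall 0 1 := by
    rintro b ⟨-, h, -⟩
    rw [mem_closedBall_zero_iff, h]
  refine (isCompact_closedBall (0 : Par d) 1).of_isClosed_subset ?_ hLsub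
  refine IsSeqClosed.isClosed ?_
  intro u b hu hlim
  have hn : ∀ i, ‖u i‖ = 1 := fun i => (hu i).2.1
  have hM : ∀ j, ∃ M : ℝ, ∀ x ∈ K, ‖quot24 d j j x‖ ≤ M := fun j =>
    exists_bound_on (quot24_mem d hd j j hND).1 hK hKΩ
  choose M hM using hM
  set M' : ℝ := ∑ j, |M j| with hM'
  have hMj : ∀ j, M j ≤ M' := fun j =>
    (le_abs_self _).trans (Finset.single_le_sum (f := fun j => |M j|) (fun _ _ => abs_nonneg _)
      (Finset.mem_univ j))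
  have hb := nondeg_of_tendsto24 d hd (u := u) (b := b) (M := M') hlim
    (fun i => hND _ (hu i).1) hn (fun i j => (hu i).2.2 _ (quot24_mem d hd j j hND) _
      fun x hx => (hM j x hx).trans (hMj j))
  have hbΩ : b ∈ Ω := hull_lim hd hI hΩ hΩE hcl hinv hK hKΩ
    (fun i => ⟨(hu i).1, (hu i).2.2⟩) hlim hb.1
  refine ⟨hbΩ, hb.2, fun g hg M hgM => ?_⟩
  exact bound_lim hΩ hg.1 hlim hbΩ fun i => (hu i).2.2 g hg M hgM

theorem domain_of_holomorphy {d : ℕ} (hd : 1 ≤ d) {Ψ : Par d → ℂ × ℂ → ℂ}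
    {T : Par d → Set (ℂ × ℂ)} (hI : Iface d Ψ T) {Ω : Set (Par d)} (hΩ : IsOpen Ω)
    (hΩE : Ω ⊆ ExpandingRat d) (hcl : closure Ω ∩ ExpandingRat d ⊆ Ω)
    (hinv : ∀ t : ℂ, t ≠ 0 → ∀ b ∈ Ω, t • b ∈ Ω) : Hyp20.IsDomainOfHolomorphy Ω := by
  have hND : ∀ b ∈ Ω, Nondeg d b := fun b hb => (hΩE hb).1
  refine Hyp20.CT.isDomainOfHolomorphy hΩ ?_
  intro K hK hKΩ
  set L : Set (Par d) := {a | a ∈ Ω ∧ ∀ g : Par d → ℂ, DifferentiableOn ℂ g Ω →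
        ∀ M : ℝ, (∀ b ∈ K, ‖g b‖ ≤ M) → ‖g a‖ ≤ M} with hL
  -- bounded
  have hcoord : ∀ j, ∃ M : ℝ, ∀ x ∈ K, ‖(fun b : Par d => b j) x‖ ≤ M := fun j =>
    exists_bound_on (Ω := Ω) (differentiable_apply j).differentiableOn hK hKΩ
  choose M hM using hcoord
  have hLsub : L ⊆ Metric.closedBall 0 (∑ j, |M j|) := by
    rintro b ⟨-, h⟩
    rw [mem_closedBall_zero_iff]
    refine (pi_norm_le_iff_of_nonneg (Finset.sum_nonneg fun _ _ => abs_nonneg _)).mpr fun j => ?_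
    refine (h (fun b => b j) (differentiable_apply j).differentiableOn (M j) (hM j)).trans ?_
    exact (le_abs_self _).trans (Finset.single_le_sum (f := fun j => |M j|)
      (fun _ _ => abs_nonneg _) (Finset.mem_univ j))
  refine (isCompact_closedBall (0 : Par d) (∑ j, |M j|)).of_isClosed_subset ?_ hLsub
  refine IsSeqClosed.isClosed ?_
  intro u b hu hlim
  have hinvRes : DifferentiableOn ℂ (fun b : Par d => (Res d b)⁻¹) Ω := fun x hx =>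
    ((Res_differentiable d x).inv ((Res_ne_zero_iff d hd x).mpr (hND x hx))).differentiableWithinAt
  obtain ⟨M₁, hM₁⟩ := exists_bound_on hinvRes hK hKΩ
  have hRes : ∀ i, 1 ≤ (|M₁| + 1) * ‖Res d (u i)‖ := by
    intro i
    have h1 := (hu i).2 _ hinvRes M₁ hM₁
    have h2 : Res d (u i) ≠ 0 := (Res_ne_zero_iff d hd _).mpr (hND _ (hu i).1)
    have h3 : 0 < ‖Res d (u i)‖ := norm_pos_iff.mpr h2
    rw [norm_inv] at h1
    have h4 : ‖Res d (u i)‖⁻¹ ≤ |M₁| + 1 := h1.trans (by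
      have := le_abs_self M₁
      linarith)
    calc (1:ℝ) = ‖Res d (u i)‖⁻¹ * ‖Res d (u i)‖ := (inv_mul_cancel₀ h3.ne').symm
      _ ≤ (|M₁| + 1) * ‖Res d (u i)‖ := mul_le_mul_of_nonneg_right h4 h3.le
  have hResb : Res d b ≠ 0 := by
    intro h0
    have hc : Tendsto (fun i => (|M₁| + 1) * ‖Res d (u i)‖) atTop (𝓝 ((|M₁| + 1) * ‖Res d b‖)) :=
      (((Res_differentiable d).continuous.tendsto b).comp hlim).norm.const_mul _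
    have := ge_of_tendsto hc (Eventually.of_forall hRes)
    rw [h0, norm_zero, mul_zero] at this
    exact absurd this (by norm_num)
  have hb : Nondeg d b := (Res_ne_zero_iff d hd b).mp hResb
  have hbΩ : b ∈ Ω := hull_lim hd hI hΩ hΩE hcl hinv hK hKΩ
    (fun i => ⟨(hu i).1, fun g hg M hgM => (hu i).2 g hg.1 M hgM⟩) hlim hb
  refine ⟨hbΩ, fun g hg M hgM => ?_⟩
  exact bound_lim hΩ hg hlim hbΩ fun i => (hu i).2 g hg M hgM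

/-- **Theorem C**: a component of the expanding locus of rational maps of degree `d` is a domain
of holomorphy, and its image in projective space is a Stein manifold. -/
theorem component_stein {d : ℕ} (hd : 1 ≤ d) {Ψ : Par d → ℂ × ℂ → ℂ}
    {T : Par d → Set (ℂ × ℂ)} (hI : Iface d Ψ T) (hopen : IsOpen (ExpandingRat d)) (b₀ : Par d) :
    Hyp20.IsDomainOfHolomorphy (connectedComponentIn (ExpandingRat d) b₀) ∧
      IsSteinQuotient (connectedComponentIn (ExpandingRat d) b₀) := by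
  have h1 : IsOpen (connectedComponentIn (ExpandingRat d) b₀) := hopen.connectedComponentIn
  have h2 := connectedComponentIn_subset (ExpandingRat d) b₀
  have h3 := component_relClosed (S := ExpandingRat d) b₀
  have h4 : ∀ t : ℂ, t ≠ 0 → ∀ b ∈ connectedComponentIn (ExpandingRat d) b₀,
      t • b ∈ connectedComponentIn (ExpandingRat d) b₀ := fun t ht b hb => component_smul hd hb ht
  exact ⟨domain_of_holomorphy hd hI h1 h2 h3 h4, stein_quotient hd hI h1 h2 h3 h4⟩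

end HypRat
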