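import Pool.Agent.Lib.Hyp.Rat.Defs

/-!
Algebra of the homogeneous maps `F d b` (helper95).
-/

namespace HypRat

open Filter Topology

/-! ### The area form and the distance `chord` -/

theorem wedge_smul_left (t : ℂ) (x y : ℂ × ℂ) : wedge (t • x) y = t * wedge x y := by
  simp only [wedge, Prod.smul_fst, Prod.smul_snd, smul_eq_mul]; ring

theorem wedge_smul_right (t : ℂ) (x y : ℂ × ℂ) : wedge x (t • y) = t * wedge x y := by
  simp only [wedge, Prod.smul_fst, Prod.smul_snd, smul_eq_mul]; ring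

theorem wedge_add_left (x x' y : ℂ × ℂ) : wedge (x + x') y = wedge x y + wedge x' y := by
  simp only [wedge, Prod.fst_add, Prod.snd_add]; ring

theorem wedge_add_right (x y y' : ℂ × ℂ) : wedge x (y + y') = wedge x y + wedge x y' := by
  simp only [wedge, Prod.fst_add, Prod.snd_add]; ring

theorem wedge_self (x : ℂ × ℂ) : wedge x x = 0 := by simp only [wedge]; ring

theorem wedge_swap (x y : ℂ × ℂ) : wedge y x = -wedge x y := by simp only [wedge]; ring

theorem wedge_identity (x y z : ℂ × ℂ) :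
    wedge x y • z + wedge y z • x + wedge z x • y = 0 := by
  ext <;> simp only [wedge, Prod.fst_add, Prod.snd_add, Prod.smul_fst, Prod.smul_snd,
    smul_eq_mul, Prod.fst_zero, Prod.snd_zero] <;> ring

theorem wedge_zero_left (y : ℂ × ℂ) : wedge 0 y = 0 := by simp [wedge]

theorem wedge_zero_right (x : ℂ × ℂ) : wedge x 0 = 0 := by simp [wedge]

theorem exists_smul_of_wedge_eq_zero {x y : ℂ × ℂ} (hx : x ≠ 0) (h : wedge x y = 0) :
    ∃ t : ℂ, y = t • x := by
  simp only [wedge] at h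
  by_cases h1 : x.1 = 0
  · have h2 : x.2 ≠ 0 := by
      intro h2
      exact hx (Prod.ext h1 h2)
    refine ⟨y.2 / x.2, ?_⟩
    rw [h1] at h
    have h3 : y.1 = 0 := by
      have : x.2 * y.1 = 0 := by linear_combination -h
      exact (mul_eq_zero.mp this).resolve_left h2
    ext
    · simp [h1, h3]
    · simp [h2]
  · refine ⟨y.1 / x.1, ?_⟩
    ext
    · simp [h1]
    · simp only [Prod.smul_snd, smul_eq_mul]
      field_simp
      linear_combination h

theorem wedge_eq_zero_iff {x y : ℂ × ℂ} (hx : x ≠ 0) :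
    wedge x y = 0 ↔ ∃ t : ℂ, y = t • x := by
  refine ⟨exists_smul_of_wedge_eq_zero hx, ?_⟩
  rintro ⟨t, rfl⟩
  rw [wedge_smul_right, wedge_self, mul_zero]

theorem exists_wedge_ne_zero {x : ℂ × ℂ} (hx : x ≠ 0) : ∃ v, wedge x v ≠ 0 := by
  by_contra hcon
  push Not at hcon
  have h1 := hcon (1, 0)
  have h2 := hcon (0, 1)
  simp only [wedge] at h1 h2
  apply hx
  ext
  · simpa using h2
  · simpa using h1

theorem norm_wedge_le (x y : ℂ × ℂ) : ‖wedge x y‖ ≤ 2 * (‖x‖ * ‖y‖) := by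
  unfold wedge
  have hx1 := norm_fst_le x
  have hx2 := norm_snd_le x
  have hy1 := norm_fst_le y
  have hy2 := norm_snd_le y
  have h1 : ‖x.1 * y.2‖ ≤ ‖x‖ * ‖y‖ := by
    rw [norm_mul]; exact mul_le_mul hx1 hy2 (norm_nonneg _) (norm_nonneg _)
  have h2 : ‖x.2 * y.1‖ ≤ ‖x‖ * ‖y‖ := by
    rw [norm_mul]; exact mul_le_mul hx2 hy1 (norm_nonneg _) (norm_nonneg _)
  have := norm_sub_le (x.1 * y.2) (x.2 * y.1)
  linarith

theorem continuous_wedge : Continuous (fun p : (ℂ × ℂ) × (ℂ × ℂ) => wedge p.1 p.2) := by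
  unfold wedge; fun_prop

theorem differentiable_wedge : Differentiable ℂ (fun p : (ℂ × ℂ) × (ℂ × ℂ) => wedge p.1 p.2) := by
  unfold wedge; fun_prop

theorem chord_nonneg (x y : ℂ × ℂ) : 0 ≤ chord x y := by unfold chord; positivity

theorem chord_le_two (x y : ℂ × ℂ) : chord x y ≤ 2 := by
  unfold chord
  rcases eq_or_lt_of_le (by positivity : 0 ≤ ‖x‖ * ‖y‖) with h | h
  · rw [← h, div_zero]; norm_num
  · rw [div_le_iff₀ h]; exact norm_wedge_le x y

theorem chord_comm (x y : ℂ × ℂ) : chord x y = chord y x := by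
  unfold chord; rw [wedge_swap x y, norm_neg, mul_comm ‖y‖]

theorem chord_smul_left {t : ℂ} (ht : t ≠ 0) (x y : ℂ × ℂ) : chord (t • x) y = chord x y := by
  unfold chord
  rw [wedge_smul_left, norm_mul, norm_smul, mul_assoc]
  exact mul_div_mul_left _ _ (norm_ne_zero_iff.mpr ht)

theorem chord_smul_right {t : ℂ} (ht : t ≠ 0) (x y : ℂ × ℂ) : chord x (t • y) = chord x y := by
  rw [chord_comm, chord_smul_left ht, chord_comm]

theorem chord_triangle {x y z : ℂ × ℂ} (hx : x ≠ 0) (hy : y ≠ 0) (hz : z ≠ 0) :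
    chord x z ≤ chord x y + chord y z := by
  have hx' : 0 < ‖x‖ := norm_pos_iff.mpr hx
  have hy' : 0 < ‖y‖ := norm_pos_iff.mpr hy
  have hz' : 0 < ‖z‖ := norm_pos_iff.mpr hz
  have key : ‖wedge x z‖ * ‖y‖ ≤ ‖wedge x y‖ * ‖z‖ + ‖wedge y z‖ * ‖x‖ := by
    have h := wedge_identity x y z
    have h2 : wedge x z • y = wedge x y • z + wedge y z • x := by
      have h3 : wedge z x = -wedge x z := wedge_swap x z
      rw [h3, neg_smul] at h
      exact (sub_eq_zero.mp (by rw [sub_eq_add_neg]; exact h)).symm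
    calc ‖wedge x z‖ * ‖y‖ = ‖wedge x z • y‖ := (norm_smul _ _).symm
      _ = ‖wedge x y • z + wedge y z • x‖ := by rw [h2]
      _ ≤ ‖wedge x y • z‖ + ‖wedge y z • x‖ := norm_add_le _ _
      _ = _ := by rw [norm_smul, norm_smul]
  unfold chord
  rw [div_add_div _ _ (by positivity) (by positivity), div_le_div_iff₀ (by positivity)
    (by positivity)]
  have e : ‖wedge x z‖ * (‖x‖ * ‖y‖ * (‖y‖ * ‖z‖)) = (‖wedge x z‖ * ‖y‖) * (‖x‖ * ‖y‖ * ‖z‖) := by
    ring
  rw [e]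
  calc (‖wedge x z‖ * ‖y‖) * (‖x‖ * ‖y‖ * ‖z‖)
      ≤ (‖wedge x y‖ * ‖z‖ + ‖wedge y z‖ * ‖x‖) * (‖x‖ * ‖y‖ * ‖z‖) :=
        mul_le_mul_of_nonneg_right key (by positivity)
    _ = (‖wedge x y‖ * (‖y‖ * ‖z‖) + ‖x‖ * ‖y‖ * ‖wedge y z‖) * (‖x‖ * ‖z‖) := by ring

/-! ### The homogeneous map -/

theorem F_smul (d : ℕ) (b : Par d) (t : ℂ) (x : ℂ × ℂ) : F d b (t • x) = t ^ d • F d b x := by
  have key : ∀ j : Fin (d + 1), (t * x.1) ^ (j : ℕ) * (t * x.2) ^ (d - (j : ℕ)) =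
      t ^ d * (x.1 ^ (j : ℕ) * x.2 ^ (d - (j : ℕ))) := by
    intro j
    have hj : (j : ℕ) ≤ d := Nat.lt_succ_iff.mp j.2
    have : t ^ d = t ^ (j : ℕ) * t ^ (d - (j : ℕ)) := by rw [← pow_add, Nat.add_sub_cancel' hj]
    rw [this, mul_pow, mul_pow]; ring
  ext
  · simp only [F, Prod.smul_fst, Prod.smul_snd, smul_eq_mul, key, Finset.mul_sum]
    exact Finset.sum_congr rfl fun j _ => by ring
  · simp only [F, Prod.smul_fst, Prod.smul_snd, smul_eq_mul, key, Finset.mul_sum]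
    exact Finset.sum_congr rfl fun j _ => by ring

theorem F_smul_par (d : ℕ) (b : Par d) (t : ℂ) (x : ℂ × ℂ) : F d (t • b) x = t • F d b x := by
  ext
  · simp only [F, Prod.smul_fst, Pi.smul_apply, smul_eq_mul, Finset.mul_sum]
    exact Finset.sum_congr rfl fun j _ => by ring
  · simp only [F, Prod.smul_snd, Pi.smul_apply, smul_eq_mul, Finset.mul_sum]
    exact Finset.sum_congr rfl fun j _ => by ring

theorem differentiable_F_joint (d : ℕ) :
    Differentiable ℂ (fun p : Par d × (ℂ × ℂ) => F d p.1 p.2) := by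
  unfold F; fun_prop

theorem contDiff_F_joint (d : ℕ) {m : WithTop ℕ∞} :
    ContDiff ℂ m (fun p : Par d × (ℂ × ℂ) => F d p.1 p.2) := by
  unfold F; fun_prop

theorem differentiable_F (d : ℕ) (b : Par d) : Differentiable ℂ (F d b) := by
  unfold F; fun_prop

theorem contDiff_F (d : ℕ) (b : Par d) {m : WithTop ℕ∞} : ContDiff ℂ m (F d b) := by
  unfold F; fun_prop

theorem differentiable_iter_joint (d k : ℕ) :
    Differentiable ℂ (fun p : Par d × (ℂ × ℂ) => (F d p.1)^[k] p.2) := by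
  induction k with
  | zero => simpa using differentiable_snd
  | succ k ih =>
    simp only [Function.iterate_succ_apply']
    exact (differentiable_F_joint d).comp (differentiable_fst.prodMk ih)

theorem continuous_iter_joint (d k : ℕ) :
    Continuous (fun p : Par d × (ℂ × ℂ) => (F d p.1)^[k] p.2) :=
  (differentiable_iter_joint d k).continuous

theorem differentiable_iter (d : ℕ) (b : Par d) (k : ℕ) : Differentiable ℂ ((F d b)^[k]) :=
  (differentiable_F d b).iterate k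

theorem continuous_iter (d : ℕ) (b : Par d) (k : ℕ) : Continuous ((F d b)^[k]) :=
  (differentiable_iter d b k).continuous

theorem F_zero {d : ℕ} (hd : 1 ≤ d) (b : Par d) : F d b 0 = 0 := by
  have := F_smul d b 0 0
  rw [zero_smul, zero_pow (by omega), zero_smul] at this
  exact this

theorem iter_ne_zero {d : ℕ} {b : Par d} (hb : Nondeg d b) {x : ℂ × ℂ} (hx : x ≠ 0) (k : ℕ) :
    (F d b)^[k] x ≠ 0 := by
  induction k with
  | zero => simpa using hx
  | succ k ih =>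
    rw [Function.iterate_succ_apply']
    exact fun h => ih (hb _ h)

theorem iter_smul (d : ℕ) (b : Par d) (k : ℕ) (t : ℂ) (x : ℂ × ℂ) :
    (F d b)^[k] (t • x) = t ^ (d ^ k) • (F d b)^[k] x := by
  induction k generalizing t x with
  | zero => simp
  | succ k ih =>
    rw [Function.iterate_succ_apply, F_smul, ih, ← pow_mul, Function.iterate_succ_apply]
    congr 2
    ring

theorem nondeg_smul {d : ℕ} {b : Par d} (hb : Nondeg d b) {t : ℂ} (ht : t ≠ 0) :
    Nondeg d (t • b) := by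
  intro x hx
  rw [F_smul_par] at hx
  exact hb x ((smul_eq_zero.mp hx).resolve_left ht)

/-! ### The Jacobian -/

/-- The Jacobian form: `wedge (F x) (DF x v) = jac x * wedge x v`. It is a binary form of
degree `2 d - 2` in `x`. -/
noncomputable def jac (d : ℕ) (b : Par d) (x : ℂ × ℂ) : ℂ :=
  ∑ i : Fin (d + 1), ∑ j : Fin (d + 1), b (Fin.castAdd (d + 1) i) * b (Fin.natAdd (d + 1) j) *
    (((i : ℕ) : ℂ) - ((j : ℕ) : ℂ)) *
      (x.1 ^ ((i : ℕ) + (j : ℕ) - 1) * x.2 ^ (2 * d - 1 - ((i : ℕ) + (j : ℕ))))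

theorem fderiv_F (d : ℕ) (b : Par d) (x v : ℂ × ℂ) :
    fderiv ℂ (F d b) x v =
      (∑ j : Fin (d + 1), b (Fin.castAdd (d + 1) j) *
        (((j : ℕ) : ℂ) * x.1 ^ ((j : ℕ) - 1) * v.1 * x.2 ^ (d - (j : ℕ)) +
          x.1 ^ (j : ℕ) * (((d - (j : ℕ) : ℕ) : ℂ) * x.2 ^ (d - (j : ℕ) - 1) * v.2)),
       ∑ j : Fin (d + 1), b (Fin.natAdd (d + 1) j) *
        (((j : ℕ) : ℂ) * x.1 ^ ((j : ℕ) - 1) * v.1 * x.2 ^ (d - (j : ℕ)) +
          x.1 ^ (j : ℕ) * (((d - (j : ℕ) : ℕ) : ℂ) * x.2 ^ (d - (j : ℕ) - 1) * v.2))) := by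
  have hline : HasDerivAt (fun t : ℂ => x + t • v) v 0 := by
    have h1 : HasDerivAt (fun t : ℂ => t • v) ((1:ℂ) • v) 0 := (hasDerivAt_id (0:ℂ)).smul_const v
    rw [one_smul] at h1
    exact h1.const_add x
  have h1 : HasDerivAt (fun t : ℂ => F d b (x + t • v)) (fderiv ℂ (F d b) x v) 0 := by
    have hF : HasFDerivAt (F d b) (fderiv ℂ (F d b) x) (x + (0:ℂ) • v) := by
      rw [zero_smul, add_zero]
      exact (differentiable_F d b x).hasFDerivAt
    exact hF.comp_hasDerivAt 0 hline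
  have hx1 : HasDerivAt (fun t : ℂ => x.1 + t * v.1) v.1 0 := by
    simpa using ((hasDerivAt_id (0:ℂ)).mul_const v.1).const_add x.1
  have hx2 : HasDerivAt (fun t : ℂ => x.2 + t * v.2) v.2 0 := by
    simpa using ((hasDerivAt_id (0:ℂ)).mul_const v.2).const_add x.2
  have hterm : ∀ (c : ℂ) (j : Fin (d + 1)),
      HasDerivAt (fun t : ℂ => c * ((x.1 + t * v.1) ^ (j : ℕ) * (x.2 + t * v.2) ^ (d - (j : ℕ))))
        (c * (((j : ℕ) : ℂ) * x.1 ^ ((j : ℕ) - 1) * v.1 * x.2 ^ (d - (j : ℕ)) +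
          x.1 ^ (j : ℕ) * (((d - (j : ℕ) : ℕ) : ℂ) * x.2 ^ (d - (j : ℕ) - 1) * v.2))) 0 := by
    intro c j
    have := ((hx1.fun_pow (j : ℕ)).fun_mul (hx2.fun_pow (d - (j : ℕ)))).const_mul c
    simpa using this
  have h2 : HasDerivAt (fun t : ℂ => F d b (x + t • v))
      (∑ j : Fin (d + 1), b (Fin.castAdd (d + 1) j) *
        (((j : ℕ) : ℂ) * x.1 ^ ((j : ℕ) - 1) * v.1 * x.2 ^ (d - (j : ℕ)) +
          x.1 ^ (j : ℕ) * (((d - (j : ℕ) : ℕ) : ℂ) * x.2 ^ (d - (j : ℕ) - 1) * v.2)),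
       ∑ j : Fin (d + 1), b (Fin.natAdd (d + 1) j) *
        (((j : ℕ) : ℂ) * x.1 ^ ((j : ℕ) - 1) * v.1 * x.2 ^ (d - (j : ℕ)) +
          x.1 ^ (j : ℕ) * (((d - (j : ℕ) : ℕ) : ℂ) * x.2 ^ (d - (j : ℕ) - 1) * v.2))) 0 := by
    have e : (fun t : ℂ => F d b (x + t • v)) = fun t : ℂ =>
        (∑ j : Fin (d + 1), b (Fin.castAdd (d + 1) j) *
          ((x.1 + t * v.1) ^ (j : ℕ) * (x.2 + t * v.2) ^ (d - (j : ℕ))),
         ∑ j : Fin (d + 1), b (Fin.natAdd (d + 1) j) *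
          ((x.1 + t * v.1) ^ (j : ℕ) * (x.2 + t * v.2) ^ (d - (j : ℕ)))) := by
      funext t
      simp only [F, Prod.fst_add, Prod.snd_add, Prod.smul_fst, Prod.smul_snd, smul_eq_mul]
    rw [e]
    refine HasDerivAt.prodMk ?_ ?_
    · exact HasDerivAt.fun_sum fun j _ => hterm _ j
    · exact HasDerivAt.fun_sum fun j _ => hterm _ j
  exact h1.unique h2

theorem wedge_fderiv_F {d : ℕ} (hd : 1 ≤ d) (b : Par d) (x v : ℂ × ℂ) :
    wedge (F d b x) (fderiv ℂ (F d b) x v) = jac d b x * wedge x v := by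
  rw [fderiv_F]
  simp only [F, wedge, jac]
  rw [Finset.sum_mul_sum, Finset.sum_mul_sum, Finset.sum_mul, Finset.sum_comm (f := fun i j =>
    b (Fin.natAdd (d + 1) i) * (x.1 ^ (i : ℕ) * x.2 ^ (d - (i : ℕ))) * _),
    ← Finset.sum_sub_distrib]
  apply Finset.sum_congr rfl
  intro i _
  rw [Finset.sum_mul, ← Finset.sum_sub_distrib]
  apply Finset.sum_congr rfl
  intro j _
  have hi : (i : ℕ) ≤ d := Nat.lt_succ_iff.mp i.2
  have hj : (j : ℕ) ≤ d := Nat.lt_succ_iff.mp j.2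
  set i' : ℕ := (i : ℕ) with hi'
  set j' : ℕ := (j : ℕ) with hj'
  by_cases hij : i' = j'
  · rw [hij]; ring
  · have e1 : (i' : ℂ) * x.1 ^ (i' - 1) * x.1 ^ j' = i' * x.1 ^ (i' + j' - 1) := by
      rcases Nat.eq_zero_or_pos i' with h | h
      · rw [h]; simp
      · rw [mul_assoc, ← pow_add]; congr 2; omega
    have e2 : (j' : ℂ) * x.1 ^ (j' - 1) * x.1 ^ i' = j' * x.1 ^ (i' + j' - 1) := by
      rcases Nat.eq_zero_or_pos j' with h | h
      · rw [h]; simp
      · rw [mul_assoc, ← pow_add]; congr 2; omega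
    have e3 : ((d - i' : ℕ) : ℂ) * x.2 ^ (d - i' - 1) * x.2 ^ (d - j') =
        ((d : ℂ) - i') * x.2 ^ (2 * d - 1 - (i' + j')) := by
      rw [Nat.cast_sub hi]
      rcases Nat.eq_or_lt_of_le hi with h | h
      · rw [h]; simp
      · rw [mul_assoc, ← pow_add]; congr 2; omega
    have e4 : ((d - j' : ℕ) : ℂ) * x.2 ^ (d - j' - 1) * x.2 ^ (d - i') =
        ((d : ℂ) - j') * x.2 ^ (2 * d - 1 - (i' + j')) := by
      rw [Nat.cast_sub hj]
      rcases Nat.eq_or_lt_of_le hj with h | h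
      · rw [h]; simp
      · rw [mul_assoc, ← pow_add]; congr 2; omega
    have e5 : x.1 ^ i' * x.1 ^ j' = x.1 ^ (i' + j' - 1) * x.1 := by
      rw [← pow_add, ← pow_succ]; congr 1; omega
    have e6 : x.2 ^ (d - i') * x.2 ^ (d - j') = x.2 ^ (2 * d - 1 - (i' + j')) * x.2 := by
      rw [← pow_add, ← pow_succ]; congr 1; omega
    set A := b (Fin.castAdd (d + 1) i)
    set B := b (Fin.natAdd (d + 1) j)
    set X := x.1 ^ (i' + j' - 1)
    set Y := x.2 ^ (2 * d - 1 - (i' + j'))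
    linear_combination (A * B * v.1 * (x.2 ^ (d - i') * x.2 ^ (d - j'))) * e2 -
      (A * B * v.1 * (x.2 ^ (d - i') * x.2 ^ (d - j'))) * e1 +
      (A * B * v.2 * (x.1 ^ i' * x.1 ^ j')) * e4 - (A * B * v.2 * (x.1 ^ i' * x.1 ^ j')) * e3 +
      (A * B * v.1 * ((j' : ℂ) - i') * X) * e6 + (A * B * v.2 * ((i' : ℂ) - j') * Y) * e5

theorem isCrit_iff {d : ℕ} (hd : 1 ≤ d) {b : Par d} {x : ℂ × ℂ} :
    IsCrit d b x ↔ x ≠ 0 ∧ jac d b x = 0 := by
  constructor
  · rintro ⟨hx, h⟩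
    refine ⟨hx, ?_⟩
    obtain ⟨v, hv⟩ := exists_wedge_ne_zero hx
    have := h v
    rw [wedge_fderiv_F hd] at this
    exact (mul_eq_zero.mp this).resolve_right hv
  · rintro ⟨hx, h⟩
    refine ⟨hx, fun v => ?_⟩
    rw [wedge_fderiv_F hd, h, zero_mul]

theorem differentiable_jac_joint (d : ℕ) :
    Differentiable ℂ (fun p : Par d × (ℂ × ℂ) => jac d p.1 p.2) := by
  unfold jac; fun_prop

theorem continuous_jac_joint (d : ℕ) :
    Continuous (fun p : Par d × (ℂ × ℂ) => jac d p.1 p.2) :=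
  (differentiable_jac_joint d).continuous

theorem jac_smul {d : ℕ} (b : Par d) (t : ℂ) (x : ℂ × ℂ) :
    jac d b (t • x) * t ^ 2 = t ^ (2 * d) * jac d b x := by
  simp only [jac, Prod.smul_fst, Prod.smul_snd, smul_eq_mul, Finset.sum_mul, Finset.mul_sum]
  apply Finset.sum_congr rfl
  intro i _
  apply Finset.sum_congr rfl
  intro j _
  have hi : (i : ℕ) ≤ d := Nat.lt_succ_iff.mp i.2
  have hj : (j : ℕ) ≤ d := Nat.lt_succ_iff.mp j.2
  by_cases hij : (i : ℕ) = (j : ℕ)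
  · rw [hij]; ring
  · have e : t ^ (2 * d) = t ^ ((i : ℕ) + (j : ℕ) - 1) * t ^ (2 * d - 1 - ((i : ℕ) + (j : ℕ))) *
        t ^ 2 := by
      rw [← pow_add, ← pow_add]; congr 1; omega
    rw [e, mul_pow, mul_pow]; ring

theorem jac_smul_par (d : ℕ) (b : Par d) (t : ℂ) (x : ℂ × ℂ) :
    jac d (t • b) x = t ^ 2 * jac d b x := by
  simp only [jac, Pi.smul_apply, smul_eq_mul, Finset.mul_sum]
  apply Finset.sum_congr rfl
  intro i _
  apply Finset.sum_congr rfl
  intro j _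
  ring

/-- The Jacobian form of the `N`-th iterate. -/
noncomputable def jacN (d : ℕ) (b : Par d) (N : ℕ) (x : ℂ × ℂ) : ℂ :=
  ∏ i ∈ Finset.range N, jac d b ((F d b)^[i] x)

theorem jacN_zero (d : ℕ) (b : Par d) (x : ℂ × ℂ) : jacN d b 0 x = 1 := by simp [jacN]

theorem jacN_succ (d : ℕ) (b : Par d) (N : ℕ) (x : ℂ × ℂ) :
    jacN d b (N + 1) x = jacN d b N x * jac d b ((F d b)^[N] x) := by
  simp [jacN, Finset.prod_range_succ]

theorem jacN_add (d : ℕ) (b : Par d) (N M : ℕ) (x : ℂ × ℂ) :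
    jacN d b (N + M) x = jacN d b N x * jacN d b M ((F d b)^[N] x) := by
  simp only [jacN, Finset.prod_range_add, ← Function.iterate_add_apply]
  congr 1
  exact Finset.prod_congr rfl fun i _ => by rw [Nat.add_comm]

theorem wedge_fderiv_iter {d : ℕ} (hd : 1 ≤ d) (b : Par d) (N : ℕ) (x v : ℂ × ℂ) :
    wedge ((F d b)^[N] x) (fderiv ℂ ((F d b)^[N]) x v) = jacN d b N x * wedge x v := by
  induction N with
  | zero => simp [jacN_zero]
  | succ N ih =>
    have h1 : fderiv ℂ ((F d b)^[N + 1]) x v =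
        fderiv ℂ (F d b) ((F d b)^[N] x) (fderiv ℂ ((F d b)^[N]) x v) := by
      rw [Function.iterate_succ', fderiv_comp _ (differentiable_F d b).differentiableAt
        (differentiable_iter d b N).differentiableAt]
      rfl
    rw [h1, Function.iterate_succ_apply', wedge_fderiv_F hd, jacN_succ]
    linear_combination (jac d b ((F d b)^[N] x)) * ih

theorem differentiable_jacN_joint (d N : ℕ) :
    Differentiable ℂ (fun p : Par d × (ℂ × ℂ) => jacN d p.1 N p.2) := by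
  induction N with
  | zero => simp [jacN_zero]
  | succ N ih =>
    simp only [jacN_succ]
    exact ih.mul ((differentiable_jac_joint d).comp
      (differentiable_fst.prodMk (differentiable_iter_joint d N)))

theorem continuous_jacN_joint (d N : ℕ) :
    Continuous (fun p : Par d × (ℂ × ℂ) => jacN d p.1 N p.2) :=
  (differentiable_jacN_joint d N).continuous

/-- Scaling of the iterates and of their Jacobians. -/
theorem scaling {d : ℕ} (hd : 1 ≤ d) (b : Par d) (N : ℕ) {t u : ℂ} (ht : t ≠ 0) (hu : u ≠ 0)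
    (x : ℂ × ℂ) : ∃ s : ℂ, s ≠ 0 ∧ (F d (t • b))^[N] (u • x) = s • (F d b)^[N] x ∧
      jacN d (t • b) N (u • x) * u ^ 2 = s ^ 2 * jacN d b N x := by
  induction N with
  | zero => exact ⟨u, hu, by simp, by simp [jacN_zero]⟩
  | succ N ih =>
    obtain ⟨s, hs, h1, h2⟩ := ih
    refine ⟨t * s ^ d, by positivity, ?_, ?_⟩
    · rw [Function.iterate_succ_apply', Function.iterate_succ_apply', h1, F_smul_par, F_smul,
        smul_smul]
    · rw [jacN_succ, jacN_succ, h1]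
      have h3 := jac_smul b s ((F d b)^[N] x)
      have h4 := jac_smul_par d b t (s • (F d b)^[N] x)
      rw [h4]
      have hs2 : s ^ 2 ≠ 0 := pow_ne_zero _ hs
      have h5 : jac d b (s • (F d b)^[N] x) = s ^ (2 * d) * jac d b ((F d b)^[N] x) / s ^ 2 := by
        rw [eq_div_iff hs2]; exact h3
      rw [h5]
      have h6 : (t * s ^ d) ^ 2 = t ^ 2 * s ^ (2 * d) := by rw [mul_pow, ← pow_mul, mul_comm d 2]
      rw [h6]
      have h7 : jacN d (t • b) N (u • x) *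
          (t ^ 2 * (s ^ (2 * d) * jac d b ((F d b)^[N] x) / s ^ 2)) * u ^ 2 =
          (jacN d (t • b) N (u • x) * u ^ 2) * (t ^ 2 * s ^ (2 * d) * jac d b ((F d b)^[N] x)) /
            s ^ 2 := by ring
      rw [h7, h2]
      field_simp

/-- The size of the derivative of the `N`-th iterate at `[x]` (for the metric with distance
`chord`). -/
noncomputable def sig (d : ℕ) (b : Par d) (N : ℕ) (x : ℂ × ℂ) : ℝ :=
  ‖jacN d b N x‖ * ‖x‖ ^ 2 / ‖(F d b)^[N] x‖ ^ 2

theorem sig_nonneg (d : ℕ) (b : Par d) (N : ℕ) (x : ℂ × ℂ) : 0 ≤ sig d b N x := by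
  unfold sig; positivity

theorem sig_add {d : ℕ} {b : Par d} (hb : Nondeg d b) (N M : ℕ) {x : ℂ × ℂ} (hx : x ≠ 0) :
    sig d b (N + M) x = sig d b N x * sig d b M ((F d b)^[N] x) := by
  unfold sig
  have h1 : ‖(F d b)^[N] x‖ ≠ 0 := norm_ne_zero_iff.mpr (iter_ne_zero hb hx N)
  rw [jacN_add, norm_mul, Nat.add_comm N M, Function.iterate_add_apply]
  field_simp

theorem sig_smul {d : ℕ} (hd : 1 ≤ d) (b : Par d) (N : ℕ) {t u : ℂ} (ht : t ≠ 0) (hu : u ≠ 0)
    (x : ℂ × ℂ) : sig d (t • b) N (u • x) = sig d b N x := by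
  obtain ⟨s, hs, h1, h2⟩ := scaling hd b N ht hu x
  unfold sig
  rw [h1, norm_smul, norm_smul]
  have h3 : ‖jacN d (t • b) N (u • x)‖ * ‖u‖ ^ 2 = ‖s‖ ^ 2 * ‖jacN d b N x‖ := by
    rw [← norm_pow, ← norm_mul, h2, norm_mul, norm_pow]
  have hs' : ‖s‖ ≠ 0 := norm_ne_zero_iff.mpr hs
  rw [mul_pow, mul_pow]
  rcases eq_or_ne (‖(F d b)^[N] x‖) 0 with h0 | h0
  · rw [h0]; simp
  · rw [div_eq_div_iff (by positivity) (by positivity)]
    linear_combination (‖x‖ ^ 2 * ‖(F d b)^[N] x‖ ^ 2) * h3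

/-- The multiplier of a fixed point of the `q`-th iterate. -/
theorem multiplier_eq {d : ℕ} (hd : 1 ≤ d) {b : Par d} {q : ℕ} {α : ℂ × ℂ} (hα : α ≠ 0)
    {l μ : ℂ} (h1 : (F d b)^[q] α = l • α)
    (h2 : ∀ v : ℂ × ℂ, wedge α (fderiv ℂ ((F d b)^[q]) α v) = μ * l * wedge α v) :
    jacN d b q α = μ * l ^ 2 := by
  obtain ⟨v, hv⟩ := exists_wedge_ne_zero hα
  have h3 := wedge_fderiv_iter hd b q α v
  rw [h1, wedge_smul_left, h2 v] at h3
  have : (jacN d b q α - μ * l ^ 2) * wedge α v = 0 := by linear_combination -h3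
  exact sub_eq_zero.mp ((mul_eq_zero.mp this).resolve_right hv)

/-- Conversely a fixed point of the `q`-th iterate with `|jacN| < |l|²` is attracting. -/
theorem isAttracting_of {d : ℕ} (hd : 1 ≤ d) {b : Par d} (hb : Nondeg d b) {q : ℕ} {α : ℂ × ℂ}
    (hα : α ≠ 0) {l : ℂ} (h1 : (F d b)^[q] α = l • α) (h2 : ‖jacN d b q α‖ < ‖l‖ ^ 2) :
    IsAttracting d b q α := by
  have hl : l ≠ 0 := by
    rintro rfl
    rw [zero_smul] at h1
    exact iter_ne_zero hb hα q h1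
  refine ⟨hα, l, jacN d b q α / l ^ 2, h1, fun v => ?_, ?_⟩
  · have h3 := wedge_fderiv_iter hd b q α v
    rw [h1, wedge_smul_left] at h3
    field_simp
    linear_combination h3
  · have hl' : 0 < ‖l‖ ^ 2 := by positivity
    rw [norm_div, norm_pow, div_lt_one hl']
    exact h2

/-- `IsAttracting` in terms of `sig`. -/
theorem isAttracting_iff_sig {d : ℕ} (hd : 1 ≤ d) {b : Par d} (hb : Nondeg d b) {q : ℕ}
    {α : ℂ × ℂ} (hα : α ≠ 0) :
    IsAttracting d b q α ↔ wedge ((F d b)^[q] α) α = 0 ∧ sig d b q α < 1 := by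
  have key : ∀ l : ℂ, (F d b)^[q] α = l • α → l ≠ 0 ∧
      (sig d b q α < 1 ↔ ‖jacN d b q α‖ < ‖l‖ ^ 2) := by
    intro l hl
    have hl0 : l ≠ 0 := by
      rintro rfl
      rw [zero_smul] at hl
      exact iter_ne_zero hb hα q hl
    refine ⟨hl0, ?_⟩
    unfold sig
    rw [hl, norm_smul, mul_pow]
    have h1 : 0 < ‖α‖ ^ 2 := by
      have := norm_pos_iff.mpr hα
      positivity
    have h2 : 0 < ‖l‖ ^ 2 := by
      have := norm_pos_iff.mpr hl0
      positivity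
    rw [div_lt_one (by positivity)]
    exact mul_lt_mul_iff_left₀ h1
  constructor
  · rintro ⟨-, l, μ, h1, h2, h3⟩
    obtain ⟨hl0, hiff⟩ := key l h1
    refine ⟨by rw [h1, wedge_smul_left, wedge_self, mul_zero], hiff.mpr ?_⟩
    rw [multiplier_eq hd hα h1 h2, norm_mul, norm_pow]
    have : 0 < ‖l‖ ^ 2 := by
      have := norm_pos_iff.mpr hl0
      positivity
    nlinarith
  · rintro ⟨h1, h2⟩
    rw [wedge_swap] at h1
    obtain ⟨l, hl⟩ := exists_smul_of_wedge_eq_zero hα (neg_eq_zero.mp h1)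
    obtain ⟨-, hiff⟩ := key l hl
    exact isAttracting_of hd hb hα hl (hiff.mp h2)

/-- Nondegeneracy is an open condition. -/
theorem isOpen_nondeg (d : ℕ) : IsOpen {b : Par d | Nondeg d b} := by
  rw [isOpen_iff_mem_nhds]
  intro b₀ hb₀
  have hK : IsCompact (Metric.sphere (0 : ℂ × ℂ) 1) := isCompact_sphere _ _
  have hev : ∀ᶠ b in 𝓝 b₀, ∀ x ∈ Metric.sphere (0 : ℂ × ℂ) 1, F d b x ≠ 0 := by
    refine hK.eventually_forall_of_forall_eventually ?_
    intro x hx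
    have hx0 : x ≠ 0 := by
      rintro rfl
      simp at hx
    exact (differentiable_F_joint d).continuous.continuousAt.eventually_ne
      (fun h => hx0 (hb₀ x h))
  filter_upwards [hev] with b hb x hx
  by_contra hx0
  have hn : ‖x‖ ≠ 0 := norm_ne_zero_iff.mpr hx0
  refine hb (((‖x‖ : ℂ))⁻¹ • x) ?_ ?_
  · rw [mem_sphere_zero_iff_norm, norm_smul, norm_inv, Complex.norm_real, norm_norm,
      inv_mul_cancel₀ hn]
  · rw [F_smul, hx, smul_zero]

end HypRat
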