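import Pool.Agent.Lib.Hyp.Rat.FormDef24
import Pool.Agent.Lib.Hyp.Rat.Alg95
import Pool.Agent.Lib.Hyp.Rat.Res24

/-!
The forms `jac d b` (degree `2 d - 2`) and `wedge (F^[2] y) (F^[3] y)` (degree `d^2 + d^3`):
holomorphic coefficients, and they do not vanish identically
(module G, MP_47150b_an, second half of Q2; helper24).
-/

namespace HypRat

open Polynomial

/-! ### functions which are forms of degree `D` -/

/-- `f` is a binary form of degree `D` -/
def IsForm24 (D : ℕ) (f : ℂ × ℂ → ℂ) : Prop := ∃ a, ∀ x, f x = form D a x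

namespace IsForm24

variable {D E : ℕ} {f g : ℂ × ℂ → ℂ}

theorem zero (D : ℕ) : IsForm24 D fun _ => 0 := ⟨0, fun x => by simp [form]⟩

theorem add (hf : IsForm24 D f) (hg : IsForm24 D g) : IsForm24 D fun x => f x + g x := by
  obtain ⟨a, ha⟩ := hf
  obtain ⟨b, hb⟩ := hg
  refine ⟨a + b, fun x => ?_⟩
  beta_reduce
  rw [ha, hb]
  simp only [form, Pi.add_apply, add_mul, Finset.sum_add_distrib]

theorem const_mul (t : ℂ) (hf : IsForm24 D f) : IsForm24 D fun x => t * f x := by
  obtain ⟨a, ha⟩ := hf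
  refine ⟨t • a, fun x => ?_⟩
  beta_reduce
  rw [ha]
  simp only [form, Pi.smul_apply, smul_eq_mul, Finset.mul_sum, mul_assoc]

theorem sub (hf : IsForm24 D f) (hg : IsForm24 D g) : IsForm24 D fun x => f x - g x := by
  have := hf.add (hg.const_mul (-1))
  refine (funext fun x => ?_ : (fun x => f x + -1 * g x) = fun x => f x - g x) ▸ this
  ring

theorem sum {ι : Type*} (s : Finset ι) {f : ι → ℂ × ℂ → ℂ} (hf : ∀ i ∈ s, IsForm24 D (f i)) :
    IsForm24 D fun x => ∑ i ∈ s, f i x := by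
  classical
  induction s using Finset.induction_on with
  | empty => simpa using zero D
  | insert i s hi ih =>
    simp only [Finset.sum_insert hi]
    exact (hf i (Finset.mem_insert_self _ _)).add
      (ih fun j hj => hf j (Finset.mem_insert_of_mem hj))

theorem monomial {k l : ℕ} (h : k + l = D) : IsForm24 D fun x => x.1 ^ k * x.2 ^ l := by
  refine ⟨Pi.single (⟨k, by omega⟩ : Fin (D + 1)) 1, fun x => ?_⟩
  unfold form
  rw [Finset.sum_eq_single (⟨k, by omega⟩ : Fin (D + 1))]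
  · rw [Pi.single_eq_same, one_mul]
    have : D - k = l := by omega
    simp only [this]
  · intro j _ hj
    rw [Pi.single_eq_of_ne hj, zero_mul]
  · intro h
    exact absurd (Finset.mem_univ _) h

theorem mul (hf : IsForm24 D f) (hg : IsForm24 E g) : IsForm24 (D + E) fun x => f x * g x := by
  obtain ⟨a, ha⟩ := hf
  obtain ⟨b, hb⟩ := hg
  have e : (fun x => f x * g x) = fun x : ℂ × ℂ => ∑ i : Fin (D + 1), ∑ j : Fin (E + 1),
      (a i * b j) * (x.1 ^ ((i : ℕ) + (j : ℕ)) * x.2 ^ ((D - (i : ℕ)) + (E - (j : ℕ)))) := by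
    funext x
    rw [ha, hb]
    unfold form
    rw [Finset.sum_mul_sum]
    refine Finset.sum_congr rfl fun i _ => Finset.sum_congr rfl fun j _ => ?_
    rw [pow_add, pow_add]
    ring
  rw [e]
  refine sum _ fun i _ => sum _ fun j _ => const_mul _ (monomial ?_)
  omega

theorem one : IsForm24 0 fun _ => 1 := by
  have := monomial (D := 0) (k := 0) (l := 0) rfl
  simpa using this

theorem pow (hf : IsForm24 D f) (k : ℕ) : IsForm24 (k * D) fun x => f x ^ k := by
  induction k with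
  | zero => simpa using one
  | succ k ih =>
    have := ih.mul hf
    rw [← Nat.succ_mul] at this
    simpa only [pow_succ] using this

theorem fst : IsForm24 1 fun x => x.1 := by
  have := monomial (D := 1) (k := 1) (l := 0) rfl
  simpa using this

theorem snd : IsForm24 1 fun x => x.2 := by
  have := monomial (D := 1) (k := 0) (l := 1) rfl
  simpa using this

/-- the components of `F` at forms of degree `D` are forms of degree `d * D` -/
theorem comp (d : ℕ) (a : Fin (d + 1) → ℂ) (hf : IsForm24 D f) (hg : IsForm24 D g) :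
    IsForm24 (d * D) fun x =>
      ∑ j : Fin (d + 1), a j * (f x ^ (j : ℕ) * g x ^ (d - (j : ℕ))) := by
  refine sum _ fun j _ => const_mul _ ?_
  have := (hf.pow (j : ℕ)).mul (hg.pow (d - (j : ℕ)))
  rw [← Nat.add_mul] at this
  have e : (j : ℕ) + (d - (j : ℕ)) = d := by omega
  rwa [e] at this

end IsForm24

theorem isForm24_iter (d : ℕ) (b : Par d) (k : ℕ) :
    IsForm24 (d ^ k) (fun x => ((F d b)^[k] x).1) ∧
      IsForm24 (d ^ k) (fun x => ((F d b)^[k] x).2) := by
  induction k with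
  | zero => exact ⟨by simpa using IsForm24.fst, by simpa using IsForm24.snd⟩
  | succ k ih =>
    simp only [Function.iterate_succ_apply', pow_succ']
    exact ⟨IsForm24.comp d _ ih.1 ih.2, IsForm24.comp d _ ih.1 ih.2⟩

/-- the equation of the second preimages of the fixed points -/
noncomputable def Psi (d : ℕ) (b : Par d) (y : ℂ × ℂ) : ℂ :=
  wedge ((F d b)^[2] y) ((F d b)^[3] y)

theorem isForm24_Psi (d : ℕ) (b : Par d) : IsForm24 (d ^ 2 + d ^ 3) (Psi d b) := by
  have h2 := isForm24_iter d b 2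
  have h3 := isForm24_iter d b 3
  exact (h2.1.mul h3.2).sub (h2.2.mul h3.1)

theorem isForm24_jac {d : ℕ} (b : Par d) : IsForm24 (2 * d - 2) (jac d b) := by
  refine IsForm24.sum _ fun i _ => IsForm24.sum _ fun j _ => ?_
  by_cases hij : (i : ℕ) = (j : ℕ)
  · have e : (fun x : ℂ × ℂ => b (Fin.castAdd (d + 1) i) * b (Fin.natAdd (d + 1) j) *
        (((i : ℕ) : ℂ) - ((j : ℕ) : ℂ)) *
        (x.1 ^ ((i : ℕ) + (j : ℕ) - 1) * x.2 ^ (2 * d - 1 - ((i : ℕ) + (j : ℕ))))) =
        fun _ => 0 := by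
      funext x
      rw [hij, sub_self, mul_zero, zero_mul]
    rw [e]
    exact IsForm24.zero _
  · refine IsForm24.const_mul _ (IsForm24.monomial ?_)
    omega

/-! ### holomorphic coefficients -/

/-- the coefficients of the form `x ↦ A (e, x)` -/
noncomputable def coef24 {E : Type*} (D : ℕ) (A : E → ℂ × ℂ → ℂ) (e : E) : Fin (D + 1) → ℂ :=
  (Matrix.vandermonde fun i : Fin (D + 1) => ((i : ℕ) : ℂ))⁻¹.mulVec
    fun i => A e (((i : ℕ) : ℂ), 1)

theorem form_coef24 {E : Type*} {D : ℕ} {A : E → ℂ × ℂ → ℂ} (e : E) (h : IsForm24 D (A e))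
    (x : ℂ × ℂ) : A e x = form D (coef24 D A e) x := by
  obtain ⟨a, ha⟩ := h
  have hV : IsUnit (Matrix.vandermonde fun i : Fin (D + 1) => ((i : ℕ) : ℂ)).det := by
    rw [isUnit_iff_ne_zero, Matrix.det_vandermonde_ne_zero_iff]
    intro i j hij
    exact Fin.ext (Nat.cast_injective (R := ℂ) hij)
  have e1 : (fun i : Fin (D + 1) => A e (((i : ℕ) : ℂ), 1))
      = (Matrix.vandermonde fun i : Fin (D + 1) => ((i : ℕ) : ℂ)).mulVec a := by
    funext i
    rw [ha]
    simp only [form, Matrix.mulVec, dotProduct, Matrix.vandermonde_apply, one_pow, mul_one]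
    exact Finset.sum_congr rfl fun j _ => mul_comm _ _
  have e2 : coef24 D A e = a := by
    unfold coef24
    rw [e1, Matrix.mulVec_mulVec, Matrix.nonsing_inv_mul _ hV, Matrix.one_mulVec]
  rw [e2]
  exact ha x

theorem differentiable_coef24 {E : Type*} [NormedAddCommGroup E] [NormedSpace ℂ E] {D : ℕ}
    {A : E → ℂ × ℂ → ℂ} (h : Differentiable ℂ fun p : E × (ℂ × ℂ) => A p.1 p.2) :
    Differentiable ℂ (coef24 D A) := by
  rw [differentiable_pi]
  intro i
  simp only [coef24, Matrix.mulVec, dotProduct]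
  refine Differentiable.fun_sum fun j _ => ?_
  refine Differentiable.const_mul ?_ _
  exact h.comp (differentiable_id.prodMk (differentiable_const _))

/-- the coefficients of the form `x ↦ jac d b x` -/
noncomputable def jacC (d : ℕ) : Par d → Fin (2 * d - 2 + 1) → ℂ := coef24 (2 * d - 2) (jac d)

theorem jac_eq_form {d : ℕ} (b : Par d) (x : ℂ × ℂ) :
    jac d b x = form (2 * d - 2) (jacC d b) x := form_coef24 b (isForm24_jac b) x

theorem differentiable_jacC (d : ℕ) : Differentiable ℂ (jacC d) :=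
  differentiable_coef24 (differentiable_jac_joint d)

theorem differentiable_Psi_joint (d : ℕ) :
    Differentiable ℂ (fun p : Par d × (ℂ × ℂ) => Psi d p.1 p.2) :=
  differentiable_wedge.comp ((differentiable_iter_joint d 2).prodMk (differentiable_iter_joint d 3))

/-- the coefficients of the form `y ↦ Psi d b y` -/
noncomputable def PsiC (d : ℕ) : Par d → Fin (d ^ 2 + d ^ 3 + 1) → ℂ :=
  coef24 (d ^ 2 + d ^ 3) (Psi d)

theorem Psi_eq_form {d : ℕ} (b : Par d) (x : ℂ × ℂ) :
    Psi d b x = form (d ^ 2 + d ^ 3) (PsiC d b) x := form_coef24 b (isForm24_Psi d b) x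

theorem differentiable_PsiC (d : ℕ) : Differentiable ℂ (PsiC d) :=
  differentiable_coef24 (differentiable_Psi_joint d)

/-! ### the two forms do not vanish identically -/

/-- the first and the second form of `b` in the affine chart -/
noncomputable abbrev pf24 (d : ℕ) (b : Par d) : ℂ[X] :=
  pl24 fun j : Fin (d + 1) => b (Fin.castAdd (d + 1) j)

/-- the second form of `b` in the affine chart -/
noncomputable abbrev pg24 (d : ℕ) (b : Par d) : ℂ[X] :=
  pl24 fun j : Fin (d + 1) => b (Fin.natAdd (d + 1) j)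

theorem isCoprime24 {d : ℕ} {b : Par d} (hb : Nondeg d b) : IsCoprime (pf24 d b) (pg24 d b) := by
  refine (isCoprime_iff_aeval_ne_zero_of_isAlgClosed (k := ℂ) ℂ _ _).2 ?_
  intro z
  have := ((nondeg_iff24 d b).1 hb).1 z
  rw [not_and_or] at this
  rw [coe_aeval_eq_eval]
  exact this

theorem jac_chart24 {d : ℕ} (b : Par d) (z : ℂ) :
    jac d b (z, 1) = -(wronskian (pf24 d b) (pg24 d b)).eval z := by
  have hd : ∀ a : Fin (d + 1) → ℂ, (derivative (pl24 a)).eval z
      = ∑ j : Fin (d + 1), a j * (((j : ℕ) : ℂ) * z ^ ((j : ℕ) - 1)) := by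
    intro a
    simp only [pl24, derivative_sum, derivative_C_mul_X_pow, eval_finsetSum, eval_mul, eval_C,
      eval_pow, eval_X]
    exact Finset.sum_congr rfl fun j _ => by ring
  rw [wronskian, eval_sub, eval_mul, eval_mul, hd, hd, pl24_eval, pl24_eval]
  rw [Finset.sum_mul_sum, Finset.sum_mul_sum, ← Finset.sum_sub_distrib, ← Finset.sum_neg_distrib]
  unfold jac
  refine Finset.sum_congr rfl fun i _ => ?_
  rw [← Finset.sum_sub_distrib, ← Finset.sum_neg_distrib]
  refine Finset.sum_congr rfl fun j _ => ?_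
  simp only [one_pow, mul_one]
  rcases Nat.eq_zero_or_pos (i : ℕ) with hi | hi <;> rcases Nat.eq_zero_or_pos (j : ℕ) with hj | hj
  · simp [hi, hj]
  · simp [hi]
    ring
  · simp [hj]
    ring
  · have e1 : z ^ ((i : ℕ) + (j : ℕ) - 1) = z ^ (i : ℕ) * z ^ ((j : ℕ) - 1) := by
      rw [← pow_add]; congr 1; omega
    have e2 : z ^ (i : ℕ) * z ^ ((j : ℕ) - 1) = z ^ ((i : ℕ) - 1) * z ^ (j : ℕ) := by
      rw [← pow_add, ← pow_add]; congr 1; omega
    rw [e1]
    linear_combination (b (Fin.castAdd (d + 1) i) * b (Fin.natAdd (d + 1) j) * ((i : ℕ) : ℂ)) * e2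

/-- a polynomial given by `pl24` with zero derivative has vanishing coefficient `d` -/
theorem coeff_zero24 {d : ℕ} (hd : 1 ≤ d) (a : Fin (d + 1) → ℂ)
    (h : derivative (pl24 a) = 0) : (pl24 a).coeff d = 0 := by
  have h1 := derivative_eq_zero.1 h
  exact coeff_eq_zero_of_natDegree_lt (by omega)

theorem exists_jac_ne_zero {d : ℕ} (hd : 1 ≤ d) {b : Par d} (hb : Nondeg d b) :
    ∃ x, jac d b x ≠ 0 := by
  by_contra h
  push Not at h
  have h1 : wronskian (pf24 d b) (pg24 d b) = 0 := by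
    refine Polynomial.funext fun z => ?_
    have := jac_chart24 b z
    rw [h, zero_eq_neg] at this
    rw [this, eval_zero]
  obtain ⟨h2, h3⟩ := (isCoprime24 hb).wronskian_eq_zero_iff.1 h1
  exact ((nondeg_iff24 d b).1 hb).2 ⟨coeff_zero24 hd _ h2, coeff_zero24 hd _ h3⟩

theorem jacC_ne_zero {d : ℕ} (hd : 1 ≤ d) {b : Par d} (hb : Nondeg d b) : jacC d b ≠ 0 := by
  intro h
  obtain ⟨x, hx⟩ := exists_jac_ne_zero hd hb
  apply hx
  rw [jac_eq_form, h]
  simp [form]

/-- the map of the projective line is surjective -/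
theorem exists_preimage {d : ℕ} (hd : 1 ≤ d) (b : Par d) (y : ℂ × ℂ) :
    ∃ x : ℂ × ℂ, x ≠ 0 ∧ wedge (F d b x) y = 0 := by
  obtain ⟨p, hp⟩ : ∃ p : ℂ[X], p = C y.2 * pf24 d b - C y.1 * pg24 d b := ⟨_, rfl⟩
  by_cases h : p.natDegree = 0
  · refine ⟨(1, 0), by simp, ?_⟩
    have h1 : p.coeff d = 0 := coeff_eq_zero_of_natDegree_lt (by omega)
    rw [hp, coeff_sub, coeff_C_mul, coeff_C_mul] at h1
    rw [F_infty24 d b (1, 0) rfl]
    show (1 : ℂ) ^ d * (pf24 d b).coeff d * y.2 - (1 : ℂ) ^ d * (pg24 d b).coeff d * y.1 = 0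
    rw [one_pow]
    linear_combination h1
  · obtain ⟨z, hz⟩ := IsAlgClosed.exists_root p (by
      intro h0
      exact h (natDegree_eq_of_degree_eq_some h0))
    refine ⟨(z, 1), by simp, ?_⟩
    rw [F_chart24 d b (z, 1) one_ne_zero]
    show (1 : ℂ) ^ d * (pf24 d b).eval (z / 1) * y.2 - (1 : ℂ) ^ d * (pg24 d b).eval (z / 1) * y.1 = 0
    rw [IsRoot.def, hp, eval_sub, eval_mul, eval_mul, eval_C, eval_C] at hz
    rw [one_pow, div_one]
    linear_combination hz

/-- for `d ≥ 2` not every point is fixed -/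
theorem exists_not_fixed {d : ℕ} (hd : 2 ≤ d) {b : Par d} (hb : Nondeg d b) :
    ∃ x : ℂ × ℂ, wedge x (F d b x) ≠ 0 := by
  by_contra h
  push Not at h
  have h1 : pf24 d b = X * pg24 d b := by
    refine Polynomial.funext fun z => ?_
    have := h (z, 1)
    rw [F_chart24 d b (z, 1) one_ne_zero] at this
    have h2 : z * ((1 : ℂ) ^ d * (pg24 d b).eval (z / 1))
        - 1 * ((1 : ℂ) ^ d * (pf24 d b).eval (z / 1)) = 0 := this
    rw [one_pow, div_one] at h2
    rw [eval_mul, eval_X]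
    linear_combination -h2
  have h2 := isCoprime24 hb
  rw [h1] at h2
  have h3 : IsUnit (pg24 d b) := (IsCoprime.of_mul_left_right h2).isUnit_of_dvd' dvd_rfl dvd_rfl
  have h4 : (pg24 d b).natDegree = 0 := natDegree_eq_zero_of_isUnit h3
  have h6 : (pg24 d b).natDegree < d := by omega
  refine ((nondeg_iff24 d b).1 hb).2 ⟨?_, coeff_eq_zero_of_natDegree_lt h6⟩
  have h5 : (pf24 d b).natDegree ≤ 1 := by
    rw [h1]
    refine natDegree_mul_le.trans ?_
    rw [natDegree_X, h4]
  have h7 : (pf24 d b).natDegree < d := by omega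
  exact coeff_eq_zero_of_natDegree_lt h7

theorem exists_Psi_ne_zero {d : ℕ} (hd : 2 ≤ d) {b : Par d} (hb : Nondeg d b) :
    ∃ y, Psi d b y ≠ 0 := by
  obtain ⟨z, hz⟩ := exists_not_fixed hd hb
  have hz0 : z ≠ 0 := by
    rintro rfl
    exact hz (by simp [wedge])
  -- preimages
  have pre : ∀ y : ℂ × ℂ, y ≠ 0 → ∃ x : ℂ × ℂ, x ≠ 0 ∧ ∃ t : ℂ, t ≠ 0 ∧ F d b x = t • y := by
    intro y hy
    obtain ⟨x, hx, hw⟩ := exists_preimage (by omega) b y
    obtain ⟨t, ht⟩ := exists_smul_of_wedge_eq_zero (x := y) (y := F d b x) hy (by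
      rw [wedge_swap, hw, neg_zero])
    refine ⟨x, hx, t, ?_, ht⟩
    rintro rfl
    rw [zero_smul] at ht
    exact hx (hb x ht)
  obtain ⟨y, hy, t, ht, hyz⟩ := pre z hz0
  obtain ⟨x, hx, s, hs, hxy⟩ := pre y hy
  refine ⟨x, ?_⟩
  have e : (F d b)^[2] x = (s ^ d * t) • z := by
    show F d b (F d b x) = _
    rw [hxy, F_smul, hyz, smul_smul]
  have e3 : (F d b)^[3] x = F d b ((F d b)^[2] x) := rfl
  unfold Psi
  rw [e3, e, F_smul, wedge_smul_left, wedge_smul_right]
  exact mul_ne_zero (mul_ne_zero (pow_ne_zero _ hs) ht)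
    (mul_ne_zero (pow_ne_zero _ (mul_ne_zero (pow_ne_zero _ hs) ht)) hz)

theorem PsiC_ne_zero {d : ℕ} (hd : 2 ≤ d) {b : Par d} (hb : Nondeg d b) : PsiC d b ≠ 0 := by
  intro h
  obtain ⟨x, hx⟩ := exists_Psi_ne_zero hd hb
  apply hx
  rw [Psi_eq_form, h]
  simp [form]

end HypRat
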