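import Pool.Agent.Lib.Hyp.Rat.Zer24
import Pool.Agent.Lib.Hyp.Rat.Form24
import Pool.Agent.Lib.Hyp.Rat.Asm95

/-!
The sum interface of Theorem C from Theorem B (MP_47150b_an, second half of Q2; helper24).
-/

namespace HypRat

open Filter Topology

attribute [local irreducible] jac F jacN

/-- Theorem B: sums over selected zeros of a holomorphic family of binary forms are
holomorphic. -/
def TheoremB24 : Prop :=
  ∀ (E : Type) [NormedAddCommGroup E] [NormedSpace ℂ E] [ProperSpace E] (D : ℕ)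
    (a : E → Fin (D + 1) → ℂ),
    Differentiable ℂ a → ∀ e₀ : E, a e₀ ≠ 0 → ∀ (S : Set (E × (ℂ × ℂ))) (H : E × (ℂ × ℂ) → ℂ),
    (∀ (e : E) (v : ℂ × ℂ) (t : ℂ), t ≠ 0 → ((e, t • v) ∈ S ↔ (e, v) ∈ S)) →
    (∀ (e : E) (v : ℂ × ℂ) (t : ℂ), t ≠ 0 → H (e, t • v) = H (e, v)) →
    (∀ v : ℂ × ℂ, v ≠ 0 → form D (a e₀) v = 0 →
      (∀ᶠ q : E × (ℂ × ℂ) in 𝓝 (e₀, v), form D (a q.1) q.2 = 0 → q ∈ S) ∨
      (∀ᶠ q : E × (ℂ × ℂ) in 𝓝 (e₀, v), form D (a q.1) q.2 = 0 → q ∉ S)) →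
    (∀ v : ℂ × ℂ, v ≠ 0 → form D (a e₀) v = 0 → (e₀, v) ∈ S →
      ∀ᶠ q : E × (ℂ × ℂ) in 𝓝 (e₀, v), DifferentiableAt ℂ H q) →
    ∀ᶠ e in 𝓝 e₀, DifferentiableAt ℂ
      (fun e => symSum24 D (a e) {v | (e, v) ∈ S} (fun v => H (e, v))) e

theorem norm_symSum24_le {D : ℕ} (a : Fin (D + 1) → ℂ) (S : Set (ℂ × ℂ)) (H : ℂ × ℂ → ℂ) {M : ℝ}
    (hM : 0 ≤ M) (h : ∀ v, v ≠ 0 → form D a v = 0 → v ∈ S → ‖H v‖ ≤ M) :
    ‖symSum24 D a S H‖ ≤ D * M := by
  classical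
  have key : ∀ s : Multiset (ℂ × ℂ), (∀ v ∈ s, v ≠ 0 ∧ form D a v = 0) →
      ‖(s.map fun v => if v ∈ S then H v else 0).sum‖ ≤ Multiset.card s * M := by
    intro s
    induction s using Multiset.induction_on with
    | empty => intro _; simp
    | cons v s ih =>
      intro hs
      rw [Multiset.map_cons, Multiset.sum_cons, Multiset.card_cons]
      have h1 := ih fun u hu => hs u (Multiset.mem_cons_of_mem hu)
      obtain ⟨h2, h3⟩ := hs v (Multiset.mem_cons_self v s)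
      have h4 : ‖(if v ∈ S then H v else 0 : ℂ)‖ ≤ M := by
        split_ifs with hv
        · exact h v h2 h3 hv
        · simpa using hM
      refine (norm_add_le _ _).trans ?_
      push_cast
      linarith
  have h1 := key (zeros24 D a) fun v hv => ⟨zeros24_ne_zero hv, form_zero_of_mem24 hv⟩
  unfold symSum24
  refine h1.trans ?_
  exact mul_le_mul_of_nonneg_right (by exact_mod_cast zeros24_card_le a) hM

theorem coef24_smul {E : Type*} {D : ℕ} {A : E → ℂ × ℂ → ℂ} {e e' : E} {s : ℂ}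
    (h : ∀ x, A e' x = s * A e x) : coef24 D A e' = s • coef24 D A e := by
  unfold coef24
  rw [← Matrix.mulVec_smul]
  congr 1
  funext i
  simp only [Pi.smul_apply, smul_eq_mul]
  exact h _

theorem jacC_smul {d : ℕ} (b : Par d) (t : ℂ) : jacC d (t • b) = t ^ 2 • jacC d b :=
  coef24_smul fun x => jac_smul_par d b t x

theorem Psi_smul_par {d : ℕ} (b : Par d) (t : ℂ) (y : ℂ × ℂ) :
    Psi d (t • b) y = t ^ ((1 + d) + (1 + (1 + d) * d)) * Psi d b y := by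
  have e2 : (F d (t • b))^[2] y = t ^ (1 + d) • (F d b)^[2] y := by
    show F d (t • b) (F d (t • b) y) = t ^ (1 + d) • F d b (F d b y)
    rw [F_smul_par, F_smul_par, F_smul, smul_smul, ← pow_succ']
    congr 2
    ring
  have e3 : (F d (t • b))^[3] y = t ^ (1 + (1 + d) * d) • (F d b)^[3] y := by
    have h1 : (F d (t • b))^[3] y = F d (t • b) ((F d (t • b))^[2] y) := rfl
    have h2 : (F d b)^[3] y = F d b ((F d b)^[2] y) := rfl
    rw [h1, h2, e2, F_smul_par, F_smul, smul_smul, ← pow_mul, ← pow_succ']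
    congr 2
    ring
  unfold Psi
  rw [e2, e3, wedge_smul_left, wedge_smul_right]
  ring

theorem PsiC_smul {d : ℕ} (b : Par d) (t : ℂ) :
    PsiC d (t • b) = t ^ ((1 + d) + (1 + (1 + d) * d)) • PsiC d b :=
  coef24_smul fun y => Psi_smul_par b t y

/-- the degree of `Psi` -/
def dP24 (d : ℕ) : ℕ := d ^ 2 + d ^ 3

section sums

variable {d : ℕ} (T : Par d → Set (ℂ × ℂ)) (H : Par d → ℂ × ℂ → ℂ × ℂ → ℂ × ℂ → ℂ) (m : ℕ)

/-- inner sum -/
noncomputable def I2 (e : (Par d × (ℂ × ℂ)) × (ℂ × ℂ)) : ℂ :=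
  symSum24 (d ^ 2 + d ^ 3) (PsiC d e.1.1) (T e.1.1) fun β => H e.1.1 e.1.2 e.2 β ^ m

/-- middle sum -/
noncomputable def I1 (e : Par d × (ℂ × ℂ)) : ℂ :=
  symSum24 (d ^ 2 + d ^ 3) (PsiC d e.1) (T e.1) fun α => I2 T H m (e, α)

/-- the power sum over the triples -/
noncomputable def I0 (b : Par d) : ℂ :=
  symSum24 (2 * d - 2) (jacC d b) Set.univ fun c => I1 T H m (b, c)

end sums

/-- what is needed of `H` -/
structure HGood (d : ℕ) (T : Par d → Set (ℂ × ℂ)) (Ω : Set (Par d))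
    (H : Par d → ℂ × ℂ → ℂ × ℂ → ℂ × ℂ → ℂ) : Prop where
  inv : ∀ (b : Par d) (c α β : ℂ × ℂ) (t u p q : ℂ), t ≠ 0 → u ≠ 0 → p ≠ 0 → q ≠ 0 →
    H (t • b) (u • c) (p • α) (q • β) = H b c α β
  hol : ∀ b ∈ Ω, ∀ c, IsCrit d b c → ∀ α ∈ T b, ∀ β ∈ T b,
    ∀ᶠ q : ((Par d × (ℂ × ℂ)) × (ℂ × ℂ)) × (ℂ × ℂ) in 𝓝 (((b, c), α), β),
      DifferentiableAt ℂ (fun q : ((Par d × (ℂ × ℂ)) × (ℂ × ℂ)) × (ℂ × ℂ) =>
        H q.1.1.1 q.1.1.2 q.1.2 q.2) q

section main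

variable {d : ℕ} {T : Par d → Set (ℂ × ℂ)} {Ω : Set (Par d)}
  {H : Par d → ℂ × ℂ → ℂ × ℂ → ℂ × ℂ → ℂ}

theorem RefSet.smul_iff {Ψ : Par d → ℂ × ℂ → ℂ} (hT : RefSet d Ψ T) (b : Par d) (y : ℂ × ℂ)
    {u : ℂ} (hu : u ≠ 0) : u • y ∈ T b ↔ y ∈ T b := by
  refine ⟨fun h => ?_, hT.smul b y u hu⟩
  have := hT.smul b (u • y) u⁻¹ (inv_ne_zero hu) h
  rwa [smul_smul, inv_mul_cancel₀ hu, one_smul] at this

theorem I2_diff (hd : 2 ≤ d) (hT : RefSet d (Psi d) T) (B : TheoremB24)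
    (hΩE : Ω ⊆ ExpandingRat d) (hH : HGood d T Ω H) (m : ℕ) {b : Par d} (hb : b ∈ Ω)
    {c : ℂ × ℂ} (hc : IsCrit d b c) {α : ℂ × ℂ} (hα : α ∈ T b) :
    ∀ᶠ e in 𝓝 ((b, c), α), DifferentiableAt ℂ (I2 T H m) e := by
  have := B ((Par d × (ℂ × ℂ)) × (ℂ × ℂ)) (d ^ 2 + d ^ 3) (fun e => PsiC d e.1.1)
    ((differentiable_PsiC d).comp (differentiable_fst.comp differentiable_fst)) ((b, c), α)
    (PsiC_ne_zero hd (hΩE hb).1) {q | q.2 ∈ T q.1.1.1}
    (fun q => H q.1.1.1 q.1.1.2 q.1.2 q.2 ^ m)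
    (fun e v t ht => hT.smul_iff _ _ ht) ?_ ?_ ?_
  · exact this
  · intro e v t ht
    have := hH.inv e.1.1 e.1.2 e.2 v 1 1 1 t one_ne_zero one_ne_zero one_ne_zero ht
    simp only [one_smul] at this
    simp only [this]
  · intro v hv h0
    rw [← Psi_eq_form] at h0
    have hc : Continuous fun q : ((Par d × (ℂ × ℂ)) × (ℂ × ℂ)) × (ℂ × ℂ) => (q.1.1.1, q.2) := by
      fun_prop
    have hp := hc.tendsto (((b, c), α), v)
    rcases hT.clopen b (hΩE hb) v hv h0 with h | h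
    · left
      filter_upwards [hp.eventually h] with q hq h1
      exact hq (by rw [Psi_eq_form]; exact h1)
    · right
      filter_upwards [hp.eventually h] with q hq h1
      exact hq (by rw [Psi_eq_form]; exact h1)
  · intro v _ _ hvS
    filter_upwards [hH.hol b hb c hc α hα v hvS] with q hq
    exact hq.pow m

theorem I2_smul (hH : HGood d T Ω H) (m : ℕ) (b : Par d) (c α : ℂ × ℂ) {u p : ℂ} (hu : u ≠ 0)
    (hp : p ≠ 0) : I2 T H m ((b, u • c), p • α) = I2 T H m ((b, c), α) := by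
  unfold I2
  refine symSum24_congr _ (fun _ _ _ => Iff.rfl) fun β _ _ _ => ?_
  have := hH.inv b c α β 1 u p 1 one_ne_zero hu hp one_ne_zero
  simp only [one_smul] at this
  simp only [this]

theorem I1_diff (hd : 2 ≤ d) (hT : RefSet d (Psi d) T) (B : TheoremB24)
    (hΩE : Ω ⊆ ExpandingRat d) (hH : HGood d T Ω H) (m : ℕ) {b : Par d} (hb : b ∈ Ω)
    {c : ℂ × ℂ} (hc : IsCrit d b c) :
    ∀ᶠ e in 𝓝 (b, c), DifferentiableAt ℂ (I1 T H m) e := by
  have := B (Par d × (ℂ × ℂ)) (d ^ 2 + d ^ 3) (fun e => PsiC d e.1)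
    ((differentiable_PsiC d).comp differentiable_fst) (b, c)
    (PsiC_ne_zero hd (hΩE hb).1) {q | q.2 ∈ T q.1.1} (I2 T H m)
    (fun e v t ht => hT.smul_iff _ _ ht) ?_ ?_ ?_
  · exact this
  · intro e v t ht
    have := I2_smul hH m e.1 e.2 v one_ne_zero ht
    simpa only [one_smul] using this
  · intro v hv h0
    rw [← Psi_eq_form] at h0
    have hc : Continuous fun q : (Par d × (ℂ × ℂ)) × (ℂ × ℂ) => (q.1.1, q.2) := by
      fun_prop
    have hp := hc.tendsto ((b, c), v)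
    rcases hT.clopen b (hΩE hb) v hv h0 with h | h
    · left
      filter_upwards [hp.eventually h] with q hq h1
      exact hq (by rw [Psi_eq_form]; exact h1)
    · right
      filter_upwards [hp.eventually h] with q hq h1
      exact hq (by rw [Psi_eq_form]; exact h1)
  · intro v _ _ hvS
    exact I2_diff hd hT B hΩE hH m hb hc hvS

theorem I1_smul (hH : HGood d T Ω H) (m : ℕ) (b : Par d) (c : ℂ × ℂ) {u : ℂ} (hu : u ≠ 0) :
    I1 T H m (b, u • c) = I1 T H m (b, c) := by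
  unfold I1
  refine symSum24_congr _ (fun _ _ _ => Iff.rfl) fun α _ _ _ => ?_
  have := I2_smul hH m b c α hu one_ne_zero
  simpa only [one_smul] using this

theorem I0_diff (hd : 2 ≤ d) (hT : RefSet d (Psi d) T) (B : TheoremB24)
    (hΩE : Ω ⊆ ExpandingRat d) (hH : HGood d T Ω H) (m : ℕ) {b : Par d} (hb : b ∈ Ω) :
    DifferentiableAt ℂ (I0 T H m) b := by
  have := B (Par d) (2 * d - 2) (jacC d) (differentiable_jacC d) b
    (jacC_ne_zero (by omega) (hΩE hb).1) Set.univ (I1 T H m)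
    (fun e v t ht => Iff.rfl) (fun e v t ht => I1_smul hH m e v ht)
    (fun v hv h0 => Or.inl (Eventually.of_forall fun q _ => Set.mem_univ q)) ?_
  · exact this.self_of_nhds
  · intro v hv h0 _
    refine I1_diff hd hT B hΩE hH m hb ((isCrit_iff (by omega)).2 ⟨hv, ?_⟩)
    rw [jac_eq_form]
    exact h0

theorem I2_par (hT : RefSet d (Psi d) T)
    (hTp : ∀ (b : Par d) (y : ℂ × ℂ) (t : ℂ), t ≠ 0 → (y ∈ T (t • b) ↔ y ∈ T b))
    (hH : HGood d T Ω H) (m : ℕ) (b : Par d) (c α : ℂ × ℂ) {t : ℂ} (ht : t ≠ 0) :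
    I2 T H m ((t • b, c), α) = I2 T H m ((b, c), α) := by
  unfold I2
  have hTe : T (t • b) = T b := Set.ext fun y => hTp b y t ht
  have hHe : (fun β => H (t • b) c α β ^ m) = fun β => H b c α β ^ m := by
    funext β
    have := hH.inv b c α β t 1 1 1 ht one_ne_zero one_ne_zero one_ne_zero
    simp only [one_smul] at this
    rw [this]
  show symSum24 (d ^ 2 + d ^ 3) (PsiC d (t • b)) (T (t • b)) (fun β => H (t • b) c α β ^ m)
    = symSum24 (d ^ 2 + d ^ 3) (PsiC d b) (T b) fun β => H b c α β ^ m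
  rw [hTe, hHe, PsiC_smul]
  refine symSum24_smul _ _ _ (fun v s hs => hT.smul_iff b v hs) ?_ (pow_ne_zero _ ht)
  intro v s hs
  have := hH.inv b c α v 1 1 1 s one_ne_zero one_ne_zero one_ne_zero hs
  simp only [one_smul] at this
  rw [this]

theorem I1_par (hT : RefSet d (Psi d) T)
    (hTp : ∀ (b : Par d) (y : ℂ × ℂ) (t : ℂ), t ≠ 0 → (y ∈ T (t • b) ↔ y ∈ T b))
    (hH : HGood d T Ω H) (m : ℕ) (b : Par d) (c : ℂ × ℂ) {t : ℂ} (ht : t ≠ 0) :
    I1 T H m (t • b, c) = I1 T H m (b, c) := by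
  unfold I1
  have hTe : T (t • b) = T b := Set.ext fun y => hTp b y t ht
  have hHe : (fun α => I2 T H m ((t • b, c), α)) = fun α => I2 T H m ((b, c), α) := by
    funext α
    exact I2_par hT hTp hH m b c α ht
  show symSum24 (d ^ 2 + d ^ 3) (PsiC d (t • b)) (T (t • b)) (fun α => I2 T H m ((t • b, c), α))
    = symSum24 (d ^ 2 + d ^ 3) (PsiC d b) (T b) fun α => I2 T H m ((b, c), α)
  rw [hTe, hHe, PsiC_smul]
  refine symSum24_smul _ _ _ (fun v s hs => hT.smul_iff b v hs) ?_ (pow_ne_zero _ ht)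
  intro v s hs
  have := I2_smul hH m b c v one_ne_zero hs
  simpa only [one_smul] using this

theorem I0_par (hT : RefSet d (Psi d) T)
    (hTp : ∀ (b : Par d) (y : ℂ × ℂ) (t : ℂ), t ≠ 0 → (y ∈ T (t • b) ↔ y ∈ T b))
    (hH : HGood d T Ω H) (m : ℕ) (b : Par d) {t : ℂ} (ht : t ≠ 0) :
    I0 T H m (t • b) = I0 T H m b := by
  unfold I0
  have hHe : (fun c => I1 T H m (t • b, c)) = fun c => I1 T H m (b, c) := by
    funext c
    exact I1_par hT hTp hH m b c ht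
  rw [hHe, jacC_smul]
  exact symSum24_smul _ _ _ (fun v s hs => Iff.rfl) (fun v s hs => I1_smul hH m b v hs)
    (pow_ne_zero _ ht)

theorem I0_mem (hd : 2 ≤ d) (hT : RefSet d (Psi d) T)
    (hTp : ∀ (b : Par d) (y : ℂ × ℂ) (t : ℂ), t ≠ 0 → (y ∈ T (t • b) ↔ y ∈ T b))
    (B : TheoremB24) (hΩE : Ω ⊆ ExpandingRat d) (hH : HGood d T Ω H) (m : ℕ) :
    I0 T H m ∈ InvHol Ω :=
  ⟨fun _ hb => (I0_diff hd hT B hΩE hH m hb).differentiableWithinAt,
    fun _ ht b _ _ => I0_par hT hTp hH m b ht⟩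

theorem norm_I0_le (hd : 2 ≤ d) (m : ℕ) {b : Par d} {M : ℝ}
    (hM : 0 ≤ M) (h : ∀ c, IsCrit d b c → ∀ α ∈ T b, ∀ β ∈ T b, ‖H b c α β‖ ≤ M) :
    ‖I0 T H m b‖ ≤ (((2 * d - 2 : ℕ) : ℝ) * (((d ^ 2 + d ^ 3 : ℕ) : ℝ)
      * ((d ^ 2 + d ^ 3 : ℕ) : ℝ))) * M ^ m := by
  have hm : 0 ≤ M ^ m := pow_nonneg hM m
  have h1 : ∀ c, IsCrit d b c → ‖I1 T H m (b, c)‖ ≤ ((d ^ 2 + d ^ 3 : ℕ) : ℝ)
      * (((d ^ 2 + d ^ 3 : ℕ) : ℝ) * M ^ m) := by
    intro c hc
    unfold I1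
    refine norm_symSum24_le _ _ _ (by positivity) ?_
    intro α _ _ hα
    unfold I2
    refine norm_symSum24_le _ _ _ hm ?_
    intro β _ _ hβ
    rw [norm_pow]
    exact pow_le_pow_left₀ (norm_nonneg _) (h c hc α hα β hβ) m
  unfold I0
  have h2 := norm_symSum24_le (jacC d b) Set.univ (fun c => I1 T H m (b, c))
    (M := ((d ^ 2 + d ^ 3 : ℕ) : ℝ) * (((d ^ 2 + d ^ 3 : ℕ) : ℝ) * M ^ m)) (by positivity) (by
      intro v hv h0 _
      exact h1 v ((isCrit_iff (by omega)).2 ⟨hv, by rw [jac_eq_form]; exact h0⟩))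
  refine h2.trans (le_of_eq ?_)
  ring

theorem norm_le_of_I0 (hd : 2 ≤ d) (hT : RefSet d (Psi d) T) (hΩE : Ω ⊆ ExpandingRat d)
    (hH : HGood d T Ω H) {b : Par d} (hb : b ∈ Ω) {C M : ℝ} (hM : 0 ≤ M)
    (h : ∀ m, 1 ≤ m → ‖I0 T H m b‖ ≤ C * M ^ m) {c α β : ℂ × ℂ} (hc : IsCrit d b c)
    (hα : α ∈ T b) (hβ : β ∈ T b) : ‖H b c α β‖ ≤ M := by
  classical
  obtain ⟨hc0, hcj⟩ := (isCrit_iff (by omega)).1 hc
  obtain ⟨c', hc', t, ht, rfl⟩ := exists_mem_zeros24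
    (jacC_ne_zero (by omega) (hΩE hb).1) hc0 (by rw [← jac_eq_form]; exact hcj)
  obtain ⟨α', hα', p, hp, rfl⟩ := exists_mem_zeros24 (PsiC_ne_zero hd (hΩE hb).1)
    (hT.ne_zero b α hα) (by rw [← Psi_eq_form]; exact hT.zero b α hα)
  obtain ⟨β', hβ', q, hq, rfl⟩ := exists_mem_zeros24 (PsiC_ne_zero hd (hΩE hb).1)
    (hT.ne_zero b β hβ) (by rw [← Psi_eq_form]; exact hT.zero b β hβ)
  rw [hT.smul_iff b _ hp] at hα
  rw [hT.smul_iff b _ hq] at hβ
  have e := hH.inv b c' α' β' 1 t p q one_ne_zero ht hp hq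
  rw [one_smul] at e
  rw [e]
  obtain ⟨w, hw⟩ : ∃ w : ℂ × ℂ → ℂ × ℂ → ℂ × ℂ → ℂ, w = fun c α β =>
    if α ∈ T b then (if β ∈ T b then H b c α β else 0) else 0 := ⟨_, rfl⟩
  have hsum : ∀ m : ℕ, 1 ≤ m → ((((zeros24 (2 * d - 2) (jacC d b)).bind fun c =>
      (zeros24 (d ^ 2 + d ^ 3) (PsiC d b)).bind fun α =>
        (zeros24 (d ^ 2 + d ^ 3) (PsiC d b)).map fun β => w c α β)).map fun x => x ^ m).sum
      = I0 T H m b := by
    intro m hm
    have h0 : (0 : ℂ) ^ m = 0 := zero_pow (by omega)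
    rw [Multiset.map_bind, Multiset.sum_bind]
    unfold I0 symSum24
    congr 1
    refine Multiset.map_congr rfl fun c _ => ?_
    rw [if_pos (Set.mem_univ c), Multiset.map_bind, Multiset.sum_bind]
    unfold I1 symSum24
    congr 1
    refine Multiset.map_congr rfl fun α _ => ?_
    rw [Multiset.map_map]
    show ((zeros24 (d ^ 2 + d ^ 3) (PsiC d b)).map fun β => w c α β ^ m).sum
      = if α ∈ T b then I2 T H m ((b, c), α) else 0
    by_cases hα2 : α ∈ T b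
    · rw [if_pos hα2]
      unfold I2 symSum24
      congr 1
      refine Multiset.map_congr rfl fun β _ => ?_
      rw [hw]
      simp only [hα2, if_true]
      by_cases hβ2 : β ∈ T b
      · simp only [hβ2, if_true]
      · simp only [hβ2, if_false, h0]
    · rw [if_neg hα2]
      have : ((zeros24 (d ^ 2 + d ^ 3) (PsiC d b)).map fun β => w c α β ^ m)
          = (zeros24 (d ^ 2 + d ^ 3) (PsiC d b)).map fun _ => 0 := by
        refine Multiset.map_congr rfl fun β _ => ?_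
        rw [hw]
        simp only [hα2, if_false, h0]
      rw [this]
      simp
  have hfin := Hyp20.norm_le_of_power_sums_multiset _ C M hM (fun m hm => by
    rw [hsum m hm]; exact h m hm) (w c' α' β') (by
      rw [Multiset.mem_bind]
      refine ⟨c', hc', ?_⟩
      rw [Multiset.mem_bind]
      exact ⟨α', hα', Multiset.mem_map.2 ⟨β', hβ', rfl⟩⟩)
  rw [hw] at hfin
  simpa only [hα, hβ, if_true] using hfin

/-- **The sum interface.** -/
theorem sumIface24 (hd : 2 ≤ d) (hT : RefSet d (Psi d) T)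
    (hTp : ∀ (b : Par d) (y : ℂ × ℂ) (t : ℂ), t ≠ 0 → (y ∈ T (t • b) ↔ y ∈ T b))
    (B : TheoremB24) (hΩE : Ω ⊆ ExpandingRat d) (hH : HGood d T Ω H) : SumIface d T Ω H := by
  refine ⟨((2 * d - 2 : ℕ) : ℝ) * (((d ^ 2 + d ^ 3 : ℕ) : ℝ) * ((d ^ 2 + d ^ 3 : ℕ) : ℝ)),
    fun m => I0 T H m, by positivity, fun m => I0_mem hd hT hTp B hΩE hH m, ?_, ?_⟩
  · intro b _ M hM h m _
    exact norm_I0_le hd m hM h
  · intro b hb M hM h c hc α hα β hβ
    exact norm_le_of_I0 hd hT hΩE hH hb hM h hc hα hβ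

end main

/-! ### the two functions -/

theorem hol_Rf24 {d : ℕ} {T : Par d → Set (ℂ × ℂ)} {Ω : Set (Par d)} (hT : RefSet d (Psi d) T)
    (hΩE : Ω ⊆ ExpandingRat d) (hd : 1 ≤ d) (N k : ℕ) : HGood d T Ω (Rf d N k) := by
  refine ⟨fun b c α β t u p q ht hu hp hq => Rf_scaling hd N k b ht hu hp hq c α β, ?_⟩
  intro b hb c hc α hα β hβ
  have dbc : Differentiable ℂ (fun q : ((Par d × (ℂ × ℂ)) × (ℂ × ℂ)) × (ℂ × ℂ) =>
      (q.1.1.1, q.1.1.2)) := by fun_prop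
  have dα : Differentiable ℂ (fun q : ((Par d × (ℂ × ℂ)) × (ℂ × ℂ)) × (ℂ × ℂ) => q.1.2) := by
    fun_prop
  have dβ : Differentiable ℂ (fun q : ((Par d × (ℂ × ℂ)) × (ℂ × ℂ)) × (ℂ × ℂ) => q.2) := by
    fun_prop
  have o1 := (differentiable_orb_joint d N k).comp dbc
  have o2 := (differentiable_orb_joint d N (k + 1)).comp dbc
  have w1 := differentiable_wedge.comp (o1.prodMk o2)
  have w2 := differentiable_wedge.comp (dα.prodMk dβ)
  have w3 := differentiable_wedge.comp (o1.prodMk dβ)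
  have w4 := differentiable_wedge.comp (o2.prodMk dα)
  have den := w3.mul w4
  have hne : wedge (orb d N k b c) β * wedge (orb d N (k + 1) b c) α ≠ 0 :=
    mul_ne_zero (hT.never b (hΩE hb) c hc β hβ _) (hT.never b (hΩE hb) c hc α hα _)
  have hev := den.continuous.continuousAt.eventually_ne (x := (((b, c), α), β)) hne
  filter_upwards [hev] with q hq
  have h1 := (w1.mul w2 q).mul ((den q).inv hq)
  refine (DifferentiableAt.congr_of_eventuallyEq h1 ?_)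
  refine Eventually.of_forall fun r => ?_
  show Rf d N k r.1.1.1 r.1.1.2 r.1.2 r.2 = _
  unfold Rf
  rw [div_eq_mul_inv]
  rfl

theorem hol_Lf24 {d : ℕ} {T : Par d → Set (ℂ × ℂ)} {Ω : Set (Par d)} (hT : RefSet d (Psi d) T)
    (hΩE : Ω ⊆ ExpandingRat d) (hd : 1 ≤ d) (N k : ℕ) : HGood d T Ω (Lf d N k) := by
  refine ⟨fun b c α β t u p q ht hu hp hq => Lf_scaling hd N k b ht hu hp hq c α β, ?_⟩
  intro b hb c hc α hα β hβ
  have db : Differentiable ℂ (fun q : ((Par d × (ℂ × ℂ)) × (ℂ × ℂ)) × (ℂ × ℂ) => q.1.1.1) := by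
    fun_prop
  have dbc : Differentiable ℂ (fun q : ((Par d × (ℂ × ℂ)) × (ℂ × ℂ)) × (ℂ × ℂ) =>
      (q.1.1.1, q.1.1.2)) := by fun_prop
  have dα : Differentiable ℂ (fun q : ((Par d × (ℂ × ℂ)) × (ℂ × ℂ)) × (ℂ × ℂ) => q.1.2) := by
    fun_prop
  have dβ : Differentiable ℂ (fun q : ((Par d × (ℂ × ℂ)) × (ℂ × ℂ)) × (ℂ × ℂ) => q.2) := by
    fun_prop
  have o1 := (differentiable_orb_joint d N k).comp dbc
  have o2 := (differentiable_orb_joint d N (k + 1)).comp dbc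
  have j1 := (differentiable_jacN_joint d N).comp (db.prodMk o1)
  have w1 := differentiable_wedge.comp (o1.prodMk dα)
  have w2 := differentiable_wedge.comp (o1.prodMk dβ)
  have w3 := differentiable_wedge.comp (o2.prodMk dα)
  have w4 := differentiable_wedge.comp (o2.prodMk dβ)
  have den := w3.mul w4
  have hne : wedge (orb d N (k + 1) b c) α * wedge (orb d N (k + 1) b c) β ≠ 0 :=
    mul_ne_zero (hT.never b (hΩE hb) c hc α hα _) (hT.never b (hΩE hb) c hc β hβ _)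
  have hev := den.continuous.continuousAt.eventually_ne (x := (((b, c), α), β)) hne
  filter_upwards [hev] with q hq
  have h1 := (j1.mul (w1.mul w2) q).mul ((den q).inv hq)
  refine (DifferentiableAt.congr_of_eventuallyEq h1 ?_)
  refine Eventually.of_forall fun r => ?_
  show Lf d N k r.1.1.1 r.1.1.2 r.1.2 r.2 = _
  unfold Lf
  rw [div_eq_mul_inv]
  rfl

theorem sumR24 {d : ℕ} {T : Par d → Set (ℂ × ℂ)} {Ω : Set (Par d)} (hd : 2 ≤ d)
    (hT : RefSet d (Psi d) T)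
    (hTp : ∀ (b : Par d) (y : ℂ × ℂ) (t : ℂ), t ≠ 0 → (y ∈ T (t • b) ↔ y ∈ T b))
    (B : TheoremB24) (hΩE : Ω ⊆ ExpandingRat d) (N k : ℕ) : SumIface d T Ω (Rf d N k) :=
  sumIface24 hd hT hTp B hΩE (hol_Rf24 hT hΩE (by omega) N k)

theorem sumL24 {d : ℕ} {T : Par d → Set (ℂ × ℂ)} {Ω : Set (Par d)} (hd : 2 ≤ d)
    (hT : RefSet d (Psi d) T)
    (hTp : ∀ (b : Par d) (y : ℂ × ℂ) (t : ℂ), t ≠ 0 → (y ∈ T (t • b) ↔ y ∈ T b))
    (B : TheoremB24) (hΩE : Ω ⊆ ExpandingRat d) (N k : ℕ) : SumIface d T Ω (Lf d N k) :=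
  sumIface24 hd hT hTp B hΩE (hol_Lf24 hT hΩE (by omega) N k)

end HypRat
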