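import Pool.Agent.Lib.Hyp.Rat.TheoremB15
import Pool.Agent.Lib.Hyp.Rat.SumI24

/-!
The sum interfaces of Theorem C from Theorem B (MP_47150b_an, helper15).
-/

namespace HypRat

theorem theoremB24 : TheoremB24 := fun _ _ _ _ D a ha e₀ he S H hSs hHs hS hH =>
  theoremB D a ha e₀ he S H hSs hHs hS hH

end HypRat
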