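import Pool.Agent.Lib.Hyp.Rat.Ref11
import Pool.Agent.Lib.Hyp.Rat.LimB39

/-!
MP_47150b_an, Theorem C, module D (helper11), part 3: three reference points at a limit of
expanding maps.
-/

namespace HypRat

open Filter Topology Polynomial

attribute [local irreducible] jac F jacN

namespace Ref11

/-- Each expanding map has a fixed point which is not a limit of a critical orbit. -/
theorem exists_fixed_not_att {d : ℕ} (hd : 2 ≤ d) {b : Par d} (hb : b ∈ ExpandingRat d) :
    ∃ al : ℂ × ℂ, ‖al‖ = 1 ∧ wedge al (F d b al) = 0 ∧ ¬ Att d b al := by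
  obtain ⟨al, hal, ⟨l, hl⟩, hnot⟩ := exists_fixed_not_attracting hd hb.1
  have hfix : wedge al (F d b al) = 0 := by rw [hl, wedge_smul_right, wedge_self, mul_zero]
  obtain ⟨t, ht, ht1⟩ := exists_unit hal
  refine ⟨t • al, ht1, ?_, ?_⟩
  · rw [F_smul, wedge_smul_left, wedge_smul_right, hfix, mul_zero, mul_zero]
  · rw [att_smul ht]
    exact fun h => hnot (isAttracting_of_att (by omega) hb hal hfix h)

/-- A totally ramified fixed point is critical and attracting. -/
theorem totally_ramified {d : ℕ} (hd : 2 ≤ d) {b : Par d} (hb : Nondeg d b) {al : ℂ × ℂ}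
    (hal : al ≠ 0) (hfix : wedge al (F d b al) = 0)
    (h : ∀ x : ℂ × ℂ, x ≠ 0 → wedge (F d b x) al = 0 → wedge al x = 0) :
    IsCrit d b al ∧ IsAttracting d b 1 al := by
  obtain ⟨l, hl⟩ := exists_smul_of_wedge_eq_zero hal hfix
  have hl0 : l ≠ 0 := by
    rintro rfl
    rw [zero_smul] at hl
    exact hal (hb _ hl)
  obtain ⟨v, hv⟩ := exists_wedge_ne_zero hal
  have hv0 : v ≠ 0 := by
    rintro rfl
    exact hv (wedge_zero_right _)
  have hLF : LF d (fun x => wedge (F d b x) al) := by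
    have h1 := LF.wedge_iter_const b 1 al
    simpa using h1
  obtain ⟨p, hp1, hp2, hp3⟩ := hLF al v
  have hlead : p.coeff d ≠ 0 := by
    rw [hp2]
    exact fun h0 => hv (h v hv0 h0)
  have hdeg : p.natDegree = d := le_antisymm hp1 (le_natDegree_of_ne_zero hlead)
  have hp0 : p ≠ 0 := by
    rintro rfl
    simp at hlead
  have hroots : ∀ z ∈ p.roots, z = 0 := by
    intro z hz
    rw [mem_roots hp0, IsRoot.def, hp3] at hz
    have hne : al + z • v ≠ 0 := by
      intro h0
      have h1 := congrArg (fun x => wedge x v) h0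
      simp only [wedge_add_left, wedge_smul_left, wedge_self, mul_zero, add_zero,
        wedge_zero_left] at h1
      exact hv h1
    have h1 := h _ hne hz
    rw [wedge_add_right, wedge_self, zero_add, wedge_smul_right, mul_eq_zero] at h1
    exact h1.resolve_right hv
  have hpX : ∀ z : ℂ, p.eval z = p.leadingCoeff * z ^ d := by
    intro z
    rw [(IsAlgClosed.splits p).eval_eq_prod_roots]
    congr 1
    have h1 : p.roots = Multiset.replicate d 0 := by
      rw [Multiset.eq_replicate]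
      exact ⟨by rw [splits_iff_card_roots.1 (IsAlgClosed.splits p), hdeg], hroots⟩
    rw [h1]
    simp
  -- the derivative at `0`
  have hline : HasDerivAt (fun z : ℂ => al + z • v) v 0 := by
    simpa using ((hasDerivAt_id (0 : ℂ)).smul_const v).const_add al
  have hF : HasDerivAt (fun z : ℂ => F d b (al + z • v)) (fderiv ℂ (F d b) al v) 0 := by
    have hF0 : HasFDerivAt (F d b) (fderiv ℂ (F d b) al) (al + (0 : ℂ) • v) := by
      rw [zero_smul, add_zero]
      exact (differentiable_F d b al).hasFDerivAt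
    exact hF0.comp_hasDerivAt (0 : ℂ) hline
  have hd1 : HasDerivAt (fun z : ℂ => wedge (F d b (al + z • v)) al)
      (wedge (fderiv ℂ (F d b) al v) al) 0 := by
    have b1 := (hasFDerivAt_fst (𝕜 := ℂ) (p := F d b (al + (0 : ℂ) • v))).comp_hasDerivAt
      (0 : ℂ) hF
    have b2 := (hasFDerivAt_snd (𝕜 := ℂ) (p := F d b (al + (0 : ℂ) • v))).comp_hasDerivAt
      (0 : ℂ) hF
    exact (b1.mul_const al.2).sub (b2.mul_const al.1)
  have hd2 : HasDerivAt (fun z : ℂ => wedge (F d b (al + z • v)) al) 0 0 := by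
    have e : (fun z : ℂ => wedge (F d b (al + z • v)) al) =
        fun z => p.leadingCoeff * z ^ d := by
      funext z
      rw [← hpX z, hp3]
    rw [e]
    have h1 := (hasDerivAt_pow d (0 : ℂ)).const_mul p.leadingCoeff
    have h2 : p.leadingCoeff * ((d : ℂ) * 0 ^ (d - 1)) = 0 := by
      rw [zero_pow (by omega), mul_zero, mul_zero]
    rwa [h2] at h1
  have hzero : wedge (fderiv ℂ (F d b) al v) al = 0 := hd1.unique hd2
  have hjac : jac d b al = 0 := by
    have h1 := wedge_fderiv_F (by omega : 1 ≤ d) b al v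
    rw [hl, wedge_smul_left, wedge_swap, hzero, neg_zero, mul_zero] at h1
    exact (mul_eq_zero.1 h1.symm).resolve_right hv
  refine ⟨(isCrit_iff (by omega)).2 ⟨hal, hjac⟩, ?_⟩
  refine isAttracting_of (by omega) hb hal (l := l) (by rw [Function.iterate_one, hl]) ?_
  have h1 : jacN d b 1 al = 0 := by
    rw [jacN_succ, jacN_zero, one_mul, Function.iterate_zero, id, hjac]
  rw [h1, norm_zero]
  have := norm_pos_iff.2 hl0
  positivity

theorem tendsto_wedge {ι : Type*} {l : Filter ι} {x y : ι → ℂ × ℂ} {a b : ℂ × ℂ}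
    (hx : Tendsto x l (𝓝 a)) (hy : Tendsto y l (𝓝 b)) :
    Tendsto (fun i => wedge (x i) (y i)) l (𝓝 (wedge a b)) :=
  (continuous_wedge.tendsto (a, b)).comp (hx.prodMk_nhds hy)

theorem tendsto_F {ι : Type*} {l : Filter ι} {d : ℕ} {u : ι → Par d} {b : Par d} {x : ι → ℂ × ℂ}
    {a : ℂ × ℂ} (hu : Tendsto u l (𝓝 b)) (hx : Tendsto x l (𝓝 a)) :
    Tendsto (fun i => F d (u i) (x i)) l (𝓝 (F d b a)) :=
  ((differentiable_F_joint d).continuous.tendsto (b, a)).comp (hu.prodMk_nhds hx)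

/-- Some value of `F^2` is not proportional to a given vector. -/
theorem exists_wedge_iter_ne_zero {d : ℕ} (hd : 1 ≤ d) {b : Par d} (hb : Nondeg d b)
    {al : ℂ × ℂ} (hal : al ≠ 0) (k : ℕ) : ∃ w : ℂ × ℂ, wedge ((F d b)^[k] w) al ≠ 0 := by
  obtain ⟨be, hbe⟩ := exists_wedge_ne_zero hal
  have hbe0 : be ≠ 0 := by
    rintro rfl
    exact hbe (wedge_zero_right _)
  obtain ⟨w, hw, hw1⟩ := (LF.wedge_iter_const b k be).exists_zero (Nat.one_le_pow _ _ (by omega))
  refine ⟨w, fun h0 => ?_⟩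
  have hx := iter_ne_zero hb hw k
  obtain ⟨t, ht⟩ := exists_smul_of_wedge_eq_zero hx hw1
  obtain ⟨s, hs⟩ := exists_smul_of_wedge_eq_zero hx h0
  apply hbe
  rw [ht, hs, wedge_smul_left, wedge_smul_right, wedge_self, mul_zero, mul_zero]

end Ref11

open Ref11 in
/-- **D3.** Three reference points at a limit of expanding maps. -/
theorem three_points {d : ℕ} (hd : 2 ≤ d) {u : ℕ → Par d} (hu : ∀ i, u i ∈ ExpandingRat d)
    {b : Par d} (hlim : Tendsto u atTop (𝓝 b)) (hb : Nondeg d b) :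
    ∃ φ : ℕ → ℕ, StrictMono φ ∧ ∃ (y : Fin 3 → ℕ → ℂ × ℂ) (z : Fin 3 → ℂ × ℂ),
      (∀ j i, y j i ∈ Tset d (u (φ i))) ∧ (∀ j, Tendsto (y j) atTop (𝓝 (z j))) ∧
      (∀ j, z j ≠ 0) ∧ ∀ j j', j ≠ j' → wedge (z j) (z j') ≠ 0 := by
  have hd1 : 1 ≤ d := by omega
  choose al hal1 hal2 hal3 using fun i => exists_fixed_not_att hd (hu i)
  obtain ⟨a, ha, φ, hφ, hφlim0⟩ := (isCompact_sphere (0 : ℂ × ℂ) 1).tendsto_subseq
    (x := al) (fun i => mem_sphere_zero_iff_norm.2 (hal1 i))
  have hφlim : Tendsto (fun i => al (φ i)) atTop (𝓝 a) := hφlim0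
  clear hφlim0
  have ha1 : ‖a‖ = 1 := mem_sphere_zero_iff_norm.1 ha
  have ha0 : a ≠ 0 := by
    rintro rfl
    rw [norm_zero] at ha1
    exact zero_ne_one ha1
  have hulim : Tendsto (fun i => u (φ i)) atTop (𝓝 b) := hlim.comp hφ.tendsto_atTop
  clear hlim
  have hwedge : ∀ (k : ℕ) (x : ℂ × ℂ), Tendsto (fun i => wedge ((F d (u (φ i)))^[k] x) (al (φ i)))
      atTop (𝓝 (wedge ((F d b)^[k] x) a)) := by
    intro k x
    have h1 : Tendsto (fun i => (F d (u (φ i)))^[k] x) atTop (𝓝 ((F d b)^[k] x)) :=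
      tendsto_iter hulim tendsto_const_nhds k
    exact tendsto_wedge h1 hφlim
  -- `a` is fixed
  have hafix : wedge a (F d b a) = 0 := by
    have h2 : Tendsto (fun i => wedge (al (φ i)) (F d (u (φ i)) (al (φ i)))) atTop
        (𝓝 (wedge a (F d b a))) := tendsto_wedge hφlim (tendsto_F hulim hφlim)
    refine tendsto_nhds_unique h2 ?_
    have e : (fun i => wedge (al (φ i)) (F d (u (φ i)) (al (φ i)))) = fun _ => 0 := by
      funext i; exact hal2 (φ i)
    rw [e]
    exact tendsto_const_nhds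
  obtain ⟨la, hla, hla1⟩ := iter_fixed hb ha0 hafix 1
  rw [Function.iterate_one] at hla1
  -- `a` is not totally ramified
  obtain ⟨a', ha'0, ha'1, ha'2⟩ : ∃ x : ℂ × ℂ, x ≠ 0 ∧ wedge (F d b x) a = 0 ∧
      wedge a x ≠ 0 := by
    by_contra hcon
    push Not at hcon
    obtain ⟨hcrit, hatt⟩ := totally_ramified hd hb ha0 hafix hcon
    have hconst : Tendsto (fun k : ℕ => chord ((F d b)^[k] a) a) atTop (𝓝 0) := by
      refine tendsto_const_nhds.congr fun k => ?_
      obtain ⟨s, hs, hs1⟩ := iter_fixed hb ha0 hafix k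
      rw [hs1, chord_smul_left hs]
      simp [chord, wedge_self]
    obtain ⟨ε, hε, hev⟩ := att_near hd1 hb ha0 hatt hcrit hconst
    have h1 : ∀ᶠ i in atTop, chord (al (φ i)) a < ε := by
      have h := Ch.tendsto_chord (l := atTop) (u := fun i => al (φ i)) (v := fun _ => a) hφlim
        tendsto_const_nhds ha0 ha0
      refine h.eventually (gt_mem_nhds ?_)
      simpa [chord, wedge_self] using hε
    obtain ⟨i, hi1, hi2⟩ := ((hulim.eventually hev).and h1).exists
    have hi0 : al (φ i) ≠ 0 := by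
      intro h0
      have := hal1 (φ i)
      rw [h0, norm_zero] at this
      exact zero_ne_one this
    exact hal3 (φ i) (hi1 _ hi0 (hal2 (φ i)) hi2.le)
  -- a preimage of `a'`
  obtain ⟨a'', ha''0, ha''1⟩ : ∃ x : ℂ × ℂ, x ≠ 0 ∧ wedge (F d b x) a' = 0 := by
    have h1 := (LF.wedge_iter_const b 1 a').exists_zero (by simpa using hd1)
    simpa using h1
  -- the images
  have hF' : ∃ s : ℂ, s ≠ 0 ∧ F d b a' = s • a := by
    have h0 : wedge a (F d b a') = 0 := by rw [wedge_swap, ha'1, neg_zero]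
    obtain ⟨s, hs⟩ := exists_smul_of_wedge_eq_zero ha0 h0
    refine ⟨s, ?_, hs⟩
    rintro rfl
    rw [zero_smul] at hs
    exact ha'0 (hb _ hs)
  have hF'' : ∃ s : ℂ, s ≠ 0 ∧ F d b a'' = s • a' := by
    have h0 : wedge a' (F d b a'') = 0 := by rw [wedge_swap, ha''1, neg_zero]
    obtain ⟨s, hs⟩ := exists_smul_of_wedge_eq_zero ha'0 h0
    refine ⟨s, ?_, hs⟩
    rintro rfl
    rw [zero_smul] at hs
    exact ha''0 (hb _ hs)
  obtain ⟨s', hs', hs'1⟩ := hF'
  obtain ⟨s'', hs'', hs''1⟩ := hF''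
  have hw2 : wedge a a'' ≠ 0 := by
    intro h0
    obtain ⟨t, ht⟩ := exists_smul_of_wedge_eq_zero ha0 h0
    have ht0 : t ≠ 0 := by
      rintro rfl
      rw [zero_smul] at ht
      exact ha''0 ht
    rw [ht, F_smul, hla1, smul_smul] at hs''1
    apply ha'2
    have h1 : a' = (s''⁻¹ * (t ^ d * la)) • a := by
      rw [← smul_smul, hs''1, smul_smul, inv_mul_cancel₀ hs'', one_smul]
    rw [h1, wedge_smul_right, wedge_self, mul_zero]
  have hw3 : wedge a' a'' ≠ 0 := by
    intro h0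
    obtain ⟨t, ht⟩ := exists_smul_of_wedge_eq_zero ha'0 h0
    have ht0 : t ≠ 0 := by
      rintro rfl
      rw [zero_smul] at ht
      exact ha''0 ht
    rw [ht, F_smul, hs'1, smul_smul] at hs''1
    apply ha'2
    have h1 : a' = (s''⁻¹ * (t ^ d * s')) • a := by
      rw [← smul_smul, hs''1, smul_smul, inv_mul_cancel₀ hs'', one_smul]
    rw [h1, wedge_smul_right, wedge_self, mul_zero]
  -- the three points
  let z : Fin 3 → ℂ × ℂ := ![a, a', a'']
  have hz0 : ∀ j, z j ≠ 0 := by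
    intro j
    fin_cases j
    · exact ha0
    · exact ha'0
    · exact ha''0
  have hzF : ∀ j, wedge ((F d b)^[2] (z j)) a = 0 := by
    intro j
    have e2 : ∀ x, (F d b)^[2] x = F d b (F d b x) := fun x => rfl
    fin_cases j
    · show wedge ((F d b)^[2] a) a = 0
      rw [e2, hla1, F_smul, hla1, smul_smul, wedge_smul_left, wedge_self, mul_zero]
    · show wedge ((F d b)^[2] a') a = 0
      rw [e2, hs'1, F_smul, hla1, smul_smul, wedge_smul_left, wedge_self, mul_zero]
    · show wedge ((F d b)^[2] a'') a = 0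
      rw [e2, hs''1, F_smul, hs'1, smul_smul, wedge_smul_left, wedge_self, mul_zero]
  obtain ⟨w, hw⟩ := exists_wedge_iter_ne_zero hd1 hb ha0 2
  have hnear : ∀ n : ℕ, ∀ᶠ i in atTop, ∀ j : Fin 3, ∃ x : ℂ × ℂ,
      ‖x - z j‖ < min (‖z j‖) (1 / ((n : ℝ) + 1)) ∧
        wedge ((F d (u (φ i)))^[2] x) (al (φ i)) = 0 := by
    intro n
    rw [Filter.eventually_all]
    intro j
    have h1 := hwedge 2 (z j)
    rw [hzF j] at h1
    exact roots_near (l := atTop) (D := d ^ 2)
      (Φ := fun i x => wedge ((F d (u (φ i)))^[2] x) (al (φ i))) (x0 := z j) (w := w)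
      (Eventually.of_forall fun i => LF.wedge_iter_const _ 2 _) h1 (hwedge 2 w) hw
      (lt_min (norm_pos_iff.2 (hz0 j)) (by positivity))
  obtain ⟨ψ, hψ, hψ1⟩ := extraction_forall_of_eventually hnear
  choose y hy1 hy2 using hψ1
  refine ⟨φ ∘ ψ, hφ.comp hψ, fun j n => y n j, z, ?_, ?_, hz0, ?_⟩
  · intro j n
    have hy0 : y n j ≠ 0 := by
      intro h0
      have h1 := (hy1 n j).trans_le (min_le_left _ _)
      rw [h0, zero_sub, norm_neg] at h1
      exact lt_irrefl _ h1
    have hnd := (hu (φ (ψ n))).1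
    have hal0 : al (φ (ψ n)) ≠ 0 := by
      intro h0
      have := hal1 (φ (ψ n))
      rw [h0, norm_zero] at this
      exact zero_ne_one this
    have h3 : ∃ s : ℂ, s ≠ 0 ∧ (F d (u (φ (ψ n))))^[2] (y n j) = s • al (φ (ψ n)) := by
      have h0 : wedge (al (φ (ψ n))) ((F d (u (φ (ψ n))))^[2] (y n j)) = 0 := by
        rw [wedge_swap, hy2 n j, neg_zero]
      obtain ⟨s, hs⟩ := exists_smul_of_wedge_eq_zero hal0 h0
      refine ⟨s, ?_, hs⟩
      rintro rfl
      rw [zero_smul] at hs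
      exact iter_ne_zero hnd hy0 2 hs
    obtain ⟨s, hs, hs1⟩ := h3
    refine ⟨hy0, ?_, ?_⟩
    · show wedge ((F d (u (φ (ψ n))))^[2] (y n j)) ((F d (u (φ (ψ n))))^[2 + 1] (y n j)) = 0
      rw [Function.iterate_succ_apply' (F d (u (φ (ψ n)))) 2 (y n j), hs1, F_smul,
        wedge_smul_left, wedge_smul_right, hal2, mul_zero, mul_zero]
    · show ¬ Att d (u (φ (ψ n))) ((F d (u (φ (ψ n))))^[2] (y n j))
      rw [hs1, att_smul hs]
      exact hal3 _
  · intro j
    rw [tendsto_iff_norm_sub_tendsto_zero]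
    refine squeeze_zero (fun n => norm_nonneg _)
      (fun n => ((hy1 n j).trans_le (min_le_right _ _)).le) ?_
    exact tendsto_one_div_add_atTop_nhds_zero_nat
  · intro j j' hjj'
    fin_cases j <;> fin_cases j' <;> simp at hjj' ⊢
    · exact ha'2
    · exact hw2
    · intro h0
      have h1 : wedge a' a = 0 := h0
      exact ha'2 (by rw [wedge_swap, h1, neg_zero])
    · exact hw3
    · intro h0
      have h1 : wedge a'' a = 0 := h0
      exact hw2 (by rw [wedge_swap, h1, neg_zero])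
    · intro h0
      have h1 : wedge a'' a' = 0 := h0
      exact hw3 (by rw [wedge_swap, h1, neg_zero])

/-- D3 in the form of `HasThree`. -/
theorem hasThree {d : ℕ} (hd : 2 ≤ d) : HasThree d (Tset d) := by
  intro u b hu hlim hb
  obtain ⟨φ, hφ, y, z, h1, h2, -, h4⟩ := three_points hd hu hlim hb
  exact ⟨φ, hφ, y, z, h1, h2, h4⟩

end HypRat
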