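import Pool.Agent.Lib.Hyp.Rat.Asm95
import Pool.Agent.Lib.Hyp.Rat.SumB15
import Pool.Agent.Lib.Hyp.Rat.Loc25
import Pool.Agent.Lib.Hyp.Rat.LimB39
import Pool.Agent.Lib.Hyp.Rat.Three11

/-!
Theorem C (helper95; modules by helpers 11, 15, 24, 25, 39, 95): for `d ≥ 2`, every component of
the expanding locus of the space of rational maps of degree `d` is a domain of holomorphy (as an
open set of coefficient vectors), and its image in projective space is a Stein manifold.
-/

namespace HypRat

open Filter Topology

attribute [local irreducible] jac F jacN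

/-- All interfaces hold. -/
theorem iface {d : ℕ} (hd : 2 ≤ d) : Iface d (Psi d) (Tset d) where
  ref := refSet hd
  cert := by
    intro K hK hKE
    obtain ⟨N, k0, C, ρ, hN, hC, hρ0, hρ1, h⟩ := cert (by omega : 1 ≤ d) hK hKE
    exact ⟨N, hN, k0, C, ρ, hC, hρ0, hρ1, fun b hb c hc k hk => h b hb c hc k hk⟩
  sumR := fun Ω _ hΩE _ N k _ => sumR24 hd (refSet hd) (refSet hd).smul_par theoremB24 hΩE N k
  sumL := fun Ω _ hΩE _ N k _ => sumL24 hd (refSet hd) (refSet hd).smul_par theoremB24 hΩE N k
  lim := fun u b hu hlim hb N k0 C ρ hN _ h0 h1 hRL =>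
    expandingRat_of_limit (by omega : 1 ≤ d) (refSet hd).never (hasThree hd) u b hu hlim hb N k0
      C ρ hN h0 h1 hRL

/-- **Theorem C.** Let `d ≥ 2` and let `Ω` be a connected component of `ExpandingRat d`, the cone
over the expanding locus of `Rat_d`. Then `Ω` is a domain of holomorphy and its image in
projective space is a Stein manifold. -/
theorem theoremC {d : ℕ} (hd : 2 ≤ d) {b₀ : Par d} (hb₀ : b₀ ∈ ExpandingRat d) :
    Hyp20.IsDomainOfHolomorphy (connectedComponentIn (ExpandingRat d) b₀) ∧
      IsSteinQuotient (connectedComponentIn (ExpandingRat d) b₀) :=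
  component_stein (by omega) (iface hd) (isOpen_expandingRat (by omega)) b₀

end HypRat
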