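import Pool.Agent.Lib.Hyp.Rat.Inv95

/-!
Uniform bounds for `Rf`, `Lf` on compact subsets of the expanding locus (helper95). The
reference set `T` is abstract here.
-/

namespace HypRat

open Filter Topology

attribute [local irreducible] jac F jacN

/-- The interface for the reference points. -/
structure RefSet (d : ℕ) (Ψ : Par d → ℂ × ℂ → ℂ) (T : Par d → Set (ℂ × ℂ)) : Prop where
  ne_zero : ∀ b y, y ∈ T b → y ≠ 0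
  zero : ∀ b y, y ∈ T b → Ψ b y = 0
  smul : ∀ b y (u : ℂ), u ≠ 0 → y ∈ T b → u • y ∈ T b
  smul_par : ∀ b y (t : ℂ), t ≠ 0 → (y ∈ T (t • b) ↔ y ∈ T b)
  cont : Continuous (fun p : Par d × (ℂ × ℂ) => Ψ p.1 p.2)
  never : ∀ b ∈ ExpandingRat d, ∀ c, IsCrit d b c → ∀ y ∈ T b, ∀ k : ℕ,
    wedge ((F d b)^[k] c) y ≠ 0
  clopen : ∀ b₀ ∈ ExpandingRat d, ∀ y₀ : ℂ × ℂ, y₀ ≠ 0 → Ψ b₀ y₀ = 0 →
    (∀ᶠ p : Par d × (ℂ × ℂ) in 𝓝 (b₀, y₀), Ψ p.1 p.2 = 0 → p.2 ∈ T p.1) ∨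
    (∀ᶠ p : Par d × (ℂ × ℂ) in 𝓝 (b₀, y₀), Ψ p.1 p.2 = 0 → p.2 ∉ T p.1)
  sep : ∀ b₀ ∈ ExpandingRat d, ∀ c₀, IsCrit d b₀ c₀ → ∀ y₀ ∈ T b₀, ∀ N : ℕ, 1 ≤ N →
    ∃ δ > 0, ∃ k₀ : ℕ, ∀ᶠ p : Par d × ((ℂ × ℂ) × (ℂ × ℂ)) in 𝓝 (b₀, (c₀, y₀)),
      ∀ k, k₀ ≤ k → δ ≤ chord ((F d p.1)^[k * N] p.2.1) p.2.2

/-- The compact set of triples (map, unit critical point, unit reference point). -/
def Trip (d : ℕ) (T : Par d → Set (ℂ × ℂ)) (K : Set (Par d)) :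
    Set (Par d × ((ℂ × ℂ) × (ℂ × ℂ))) :=
  {p | p.1 ∈ K ∧ ‖p.2.1‖ = 1 ∧ IsCrit d p.1 p.2.1 ∧ ‖p.2.2‖ = 1 ∧ p.2.2 ∈ T p.1}

theorem mem_trip {d : ℕ} {T : Par d → Set (ℂ × ℂ)} {K : Set (Par d)} {b : Par d}
    {c y : ℂ × ℂ} : (b, (c, y)) ∈ Trip d T K ↔
      b ∈ K ∧ ‖c‖ = 1 ∧ IsCrit d b c ∧ ‖y‖ = 1 ∧ y ∈ T b := Iff.rfl

theorem isCompact_trip {d : ℕ} (hd : 1 ≤ d) {Ψ : Par d → ℂ × ℂ → ℂ}
    {T : Par d → Set (ℂ × ℂ)} (hT : RefSet d Ψ T) {K : Set (Par d)} (hK : IsCompact K)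
    (hKE : K ⊆ ExpandingRat d) : IsCompact (Trip d T K) := by
  have hbig : IsCompact (K ×ˢ (Metric.sphere (0 : ℂ × ℂ) 1 ×ˢ Metric.sphere (0 : ℂ × ℂ) 1)) :=
    hK.prod ((isCompact_sphere _ _).prod (isCompact_sphere _ _))
  have hsub : Trip d T K ⊆ K ×ˢ (Metric.sphere (0 : ℂ × ℂ) 1 ×ˢ Metric.sphere (0 : ℂ × ℂ) 1) := by
    rintro ⟨b, c, y⟩ h
    obtain ⟨h1, h2, -, h4, -⟩ := mem_trip.mp h
    exact Set.mk_mem_prod h1 (Set.mk_mem_prod (mem_sphere_zero_iff_norm.mpr h2)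
      (mem_sphere_zero_iff_norm.mpr h4))
  have hcl1 : IsClosed {p : Par d × ((ℂ × ℂ) × (ℂ × ℂ)) | jac d p.1 p.2.1 = 0} :=
    isClosed_eq ((continuous_jac_joint d).comp
      (continuous_fst.prodMk (continuous_fst.comp continuous_snd))) continuous_const
  have hsub1 : Trip d T K ⊆ {p : Par d × ((ℂ × ℂ) × (ℂ × ℂ)) | jac d p.1 p.2.1 = 0} := by
    rintro ⟨b, c, y⟩ h
    exact ((isCrit_iff hd).mp (mem_trip.mp h).2.2.1).2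
  have hcl2 : IsClosed {p : Par d × ((ℂ × ℂ) × (ℂ × ℂ)) | Ψ p.1 p.2.2 = 0} :=
    isClosed_eq (hT.cont.comp
      (continuous_fst.prodMk (continuous_snd.comp continuous_snd))) continuous_const
  have hsub2 : Trip d T K ⊆ {p : Par d × ((ℂ × ℂ) × (ℂ × ℂ)) | Ψ p.1 p.2.2 = 0} := by
    rintro ⟨b, c, y⟩ h
    exact hT.zero _ _ (mem_trip.mp h).2.2.2.2
  refine hbig.of_isClosed_subset ?_ hsub
  rw [← closure_subset_iff_isClosed]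
  rintro ⟨b, c, y⟩ hp
  have hin := (hbig.isClosed.closure_subset_iff.mpr hsub) hp
  obtain ⟨hbK, hcy⟩ := Set.mem_prod.mp hin
  obtain ⟨hc', hy'⟩ := Set.mem_prod.mp hcy
  have hc1 : ‖c‖ = 1 := mem_sphere_zero_iff_norm.mp hc'
  have hy1 : ‖y‖ = 1 := mem_sphere_zero_iff_norm.mp hy'
  have hc0 : c ≠ 0 := by
    intro h
    rw [h, norm_zero] at hc1
    exact zero_ne_one hc1
  have hy0 : y ≠ 0 := by
    intro h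
    rw [h, norm_zero] at hy1
    exact zero_ne_one hy1
  have hjac : jac d b c = 0 := (hcl1.closure_subset_iff.mpr hsub1) hp
  have hΨ : Ψ b y = 0 := (hcl2.closure_subset_iff.mpr hsub2) hp
  refine mem_trip.mpr ⟨hbK, hc1, (isCrit_iff hd).mpr ⟨hc0, hjac⟩, hy1, ?_⟩
  have hproj : Tendsto (fun p : Par d × ((ℂ × ℂ) × (ℂ × ℂ)) => (p.1, p.2.2))
      (𝓝 (b, (c, y))) (𝓝 (b, y)) :=
    (continuous_fst.prodMk (continuous_snd.comp continuous_snd)).tendsto _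
  rcases hT.clopen b (hKE hbK) y hy0 hΨ with h | h
  · exact h.self_of_nhds hΨ
  · exfalso
    obtain ⟨⟨b', c', y'⟩, hp1, hp2⟩ := mem_closure_iff_nhds.mp hp _ (hproj.eventually h)
    have hp3 := (mem_trip.mp hp2).2.2.2.2
    exact hp1 (hT.zero _ _ hp3) hp3

/-- Uniform separation of the reference points from the tails of the critical orbits. -/
theorem sep_compact {d : ℕ} (hd : 1 ≤ d) {Ψ : Par d → ℂ × ℂ → ℂ}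
    {T : Par d → Set (ℂ × ℂ)} (hT : RefSet d Ψ T) {K : Set (Par d)} (hK : IsCompact K)
    (hKE : K ⊆ ExpandingRat d) {N : ℕ} (hN : 1 ≤ N) :
    ∃ δ > 0, ∃ k₀ : ℕ, ∀ b ∈ K, ∀ c, IsCrit d b c → ∀ y ∈ T b, ∀ k, k₀ ≤ k →
      δ ≤ chord (orb d N k b c) y := by
  have key : ∃ δ > 0, ∃ k₀ : ℕ, ∀ p ∈ Trip d T K, ∀ k, k₀ ≤ k →
      δ ≤ chord ((F d p.1)^[k * N] p.2.1) p.2.2 := by
    refine (isCompact_trip hd hT hK hKE).induction_on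
      (p := fun s => ∃ δ > 0, ∃ k₀ : ℕ, ∀ p ∈ s, ∀ k, k₀ ≤ k →
        δ ≤ chord ((F d p.1)^[k * N] p.2.1) p.2.2) ?_ ?_ ?_ ?_
    · exact ⟨1, one_pos, 0, by simp⟩
    · rintro s t hst ⟨δ, hδ, k₀, h⟩
      exact ⟨δ, hδ, k₀, fun p hp => h p (hst hp)⟩
    · rintro s t ⟨δ, hδ, k₀, h⟩ ⟨δ', hδ', k₀', h'⟩
      refine ⟨min δ δ', lt_min hδ hδ', max k₀ k₀', ?_⟩
      rintro p (hp | hp) k hk
      · exact (min_le_left _ _).trans (h p hp k (le_trans (le_max_left _ _) hk))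
      · exact (min_le_right _ _).trans (h' p hp k (le_trans (le_max_right _ _) hk))
    · rintro ⟨b, c, y⟩ h
      obtain ⟨h1, -, h3, -, h5⟩ := mem_trip.mp h
      obtain ⟨δ, hδ, k₀, hev⟩ := hT.sep b (hKE h1) c h3 y h5 N hN
      exact ⟨_, mem_nhdsWithin_of_mem_nhds hev, δ, hδ, k₀, fun p hp => hp⟩
  obtain ⟨δ, hδ, k₀, h⟩ := key
  refine ⟨δ, hδ, k₀, ?_⟩
  intro b hb c hc y hy k hk
  have hc0 := hc.1
  have hy0 := hT.ne_zero b y hy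
  have hnc : (‖c‖ : ℂ) ≠ 0 := by
    rw [Ne, Complex.ofReal_eq_zero]; exact norm_ne_zero_iff.mpr hc0
  have hny : (‖y‖ : ℂ) ≠ 0 := by
    rw [Ne, Complex.ofReal_eq_zero]; exact norm_ne_zero_iff.mpr hy0
  have hunit : ∀ z : ℂ × ℂ, z ≠ 0 → ‖((‖z‖ : ℂ))⁻¹ • z‖ = 1 := by
    intro z hz
    rw [norm_smul, norm_inv, Complex.norm_real, norm_norm]
    exact inv_mul_cancel₀ (norm_ne_zero_iff.mpr hz)
  have h1 : δ ≤ chord ((F d b)^[k * N] (((‖c‖ : ℂ))⁻¹ • c)) (((‖y‖ : ℂ))⁻¹ • y) :=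
    h (b, (((‖c‖ : ℂ))⁻¹ • c, ((‖y‖ : ℂ))⁻¹ • y))
      (mem_trip.mpr ⟨hb, hunit c hc0, isCrit_smul_right hd hc (inv_ne_zero hnc), hunit y hy0,
        hT.smul b y _ (inv_ne_zero hny) hy⟩) k hk
  rw [chord_smul_right (inv_ne_zero hny)] at h1
  have h2 := chord_iter_scaling hd b (k * N) one_ne_zero (inv_ne_zero hnc) c y
  rw [one_smul] at h2
  rw [h2] at h1
  exact h1

/-- Uniform bounds for `Rf` and `Lf`. -/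
theorem bound_compact {d : ℕ} (hd : 1 ≤ d) {Ψ : Par d → ℂ × ℂ → ℂ}
    {T : Par d → Set (ℂ × ℂ)} (hT : RefSet d Ψ T) {K : Set (Par d)} (hK : IsCompact K)
    (hKE : K ⊆ ExpandingRat d)
    (hcert : ∃ N : ℕ, 1 ≤ N ∧ ∃ k₀ : ℕ, ∃ C ρ : ℝ, 0 ≤ C ∧ 0 ≤ ρ ∧ ρ < 1 ∧ ∀ b ∈ K, ∀ c,
      IsCrit d b c → ∀ k, k₀ ≤ k → chord (orb d N k b c) (orb d N (k + 1) b c) ≤ C * ρ ^ k ∧
        sig d b N (orb d N k b c) ≤ ρ) :
    ∃ N : ℕ, 1 ≤ N ∧ ∃ k₀ : ℕ, ∃ C ρ : ℝ, 0 ≤ C ∧ 0 ≤ ρ ∧ ρ < 1 ∧ ∀ b ∈ K, ∀ c,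
      IsCrit d b c → ∀ α ∈ T b, ∀ β ∈ T b, ∀ k, k₀ ≤ k →
        ‖Rf d N k b c α β‖ ≤ C * ρ ^ k ∧ ‖Lf d N k b c α β‖ ≤ ρ := by
  obtain ⟨N, hN, k₁, C, ρ, hC, hρ0, hρ1, hest⟩ := hcert
  obtain ⟨δ, hδ, k₂, hsep⟩ := sep_compact hd hT hK hKE hN
  -- choose `k₃` with `ρ (1 + C ρ^k / δ)^2 ≤ ρ'`
  set ρ' : ℝ := (1 + ρ) / 2 with hρ'
  have hρ'1 : ρ' < 1 := by rw [hρ']; linarith
  have hρρ' : ρ < ρ' := by rw [hρ']; linarith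
  have hρ'0 : 0 ≤ ρ' := hρ0.trans hρρ'.le
  have hlim : Tendsto (fun k : ℕ => ρ * (1 + C * ρ ^ k / δ) ^ 2) atTop (𝓝 (ρ * (1 + C * 0 / δ) ^ 2)) :=
    ((((tendsto_pow_atTop_nhds_zero_of_lt_one hρ0 hρ1).const_mul C).div_const δ).const_add 1
      |>.pow 2).const_mul ρ
  have hlim' : ∀ᶠ k : ℕ in atTop, ρ * (1 + C * ρ ^ k / δ) ^ 2 < ρ' := by
    refine hlim.eventually_lt_const ?_
    simpa using hρρ'
  obtain ⟨k₃, hk₃⟩ := eventually_atTop.mp hlim'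
  refine ⟨N, hN, max k₁ (max k₂ k₃), 2 * C / δ ^ 2, ρ', by positivity, hρ'0, hρ'1, ?_⟩
  intro b hb c hc α hα β hβ k hk
  have hk1 : k₁ ≤ k := le_trans (le_max_left _ _) hk
  have hk2 : k₂ ≤ k := le_trans (le_trans (le_max_left _ _) (le_max_right _ _)) hk
  have hk3 : k₃ ≤ k := le_trans (le_trans (le_max_right _ _) (le_max_right _ _)) hk
  have hbN : Nondeg d b := (hKE hb).1
  have hα0 := hT.ne_zero b α hα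
  have hβ0 := hT.ne_zero b β hβ
  obtain ⟨e1, e2⟩ := hest b hb c hc k hk1
  have s1 := hsep b hb c hc β hβ k hk2
  have s2 := hsep b hb c hc α hα (k + 1) (by omega)
  have s3 := hsep b hb c hc β hβ (k + 1) (by omega)
  have hA0 : 0 ≤ C * ρ ^ k := by positivity
  constructor
  · refine (norm_Rf_le hbN hc.1 hα0 hβ0 hδ hA0 e1 s1 s2).trans ?_
    have : ρ ^ k ≤ ρ' ^ k := pow_le_pow_left₀ hρ0 hρρ'.le k
    calc 2 * (C * ρ ^ k) / δ ^ 2 = 2 * C / δ ^ 2 * ρ ^ k := by ring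
      _ ≤ 2 * C / δ ^ 2 * ρ' ^ k := mul_le_mul_of_nonneg_left this (by positivity)
  · exact (norm_Lf_le hbN hc.1 hα0 hβ0 hδ hA0 e1 e2 s2 s3).trans (hk₃ k hk3).le

end HypRat
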