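import Pool.Agent.Lib.Hyp.Rat.Defs

/-!
The distance `chord` on the projective line (helper25).
-/

namespace HypRat

open Filter Topology

namespace Ch

theorem wedge_comm (x y : ℂ × ℂ) : wedge x y = - wedge y x := by simp only [wedge]; ring

theorem wedge_self (x : ℂ × ℂ) : wedge x x = 0 := by simp only [wedge]; ring

theorem wedge_smul_left (t : ℂ) (x y : ℂ × ℂ) : wedge (t • x) y = t * wedge x y := by
  simp only [wedge, Prod.smul_fst, Prod.smul_snd, smul_eq_mul]; ring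

theorem wedge_smul_right (t : ℂ) (x y : ℂ × ℂ) : wedge x (t • y) = t * wedge x y := by
  simp only [wedge, Prod.smul_fst, Prod.smul_snd, smul_eq_mul]; ring

theorem wedge_identity (x y z : ℂ × ℂ) :
    wedge x z • y = wedge x y • z + wedge y z • x := by
  ext
  · simp only [wedge, Prod.smul_fst, Prod.fst_add, smul_eq_mul]; ring
  · simp only [wedge, Prod.smul_snd, Prod.snd_add, smul_eq_mul]; ring

theorem continuous_wedge : Continuous fun p : (ℂ × ℂ) × (ℂ × ℂ) => wedge p.1 p.2 := by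
  unfold wedge
  fun_prop

theorem norm_wedge_le (x y : ℂ × ℂ) : ‖wedge x y‖ ≤ 2 * (‖x‖ * ‖y‖) := by
  have h1 : ‖x.1‖ ≤ ‖x‖ := norm_fst_le x
  have h2 : ‖x.2‖ ≤ ‖x‖ := norm_snd_le x
  have h3 : ‖y.1‖ ≤ ‖y‖ := norm_fst_le y
  have h4 : ‖y.2‖ ≤ ‖y‖ := norm_snd_le y
  calc ‖wedge x y‖ ≤ ‖x.1 * y.2‖ + ‖x.2 * y.1‖ := norm_sub_le _ _
    _ = ‖x.1‖ * ‖y.2‖ + ‖x.2‖ * ‖y.1‖ := by rw [norm_mul, norm_mul]
    _ ≤ ‖x‖ * ‖y‖ + ‖x‖ * ‖y‖ := by gcongr
    _ = _ := by ring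

theorem chord_nonneg (x y : ℂ × ℂ) : 0 ≤ chord x y := by unfold chord; positivity

theorem chord_comm (x y : ℂ × ℂ) : chord x y = chord y x := by
  unfold chord
  rw [wedge_comm, norm_neg, mul_comm]

theorem chord_self (x : ℂ × ℂ) : chord x x = 0 := by simp [chord, wedge_self]

theorem chord_smul_left {t : ℂ} (ht : t ≠ 0) (x y : ℂ × ℂ) : chord (t • x) y = chord x y := by
  unfold chord
  rw [wedge_smul_left, norm_mul, norm_smul, mul_assoc, mul_div_mul_left]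
  exact norm_ne_zero_iff.mpr ht

theorem chord_smul_right {t : ℂ} (ht : t ≠ 0) (x y : ℂ × ℂ) : chord x (t • y) = chord x y := by
  rw [chord_comm, chord_smul_left ht, chord_comm]

theorem chord_le_two (x y : ℂ × ℂ) : chord x y ≤ 2 := by
  unfold chord
  exact div_le_of_le_mul₀ (by positivity) (by norm_num) (norm_wedge_le x y)

theorem chord_mul (x y : ℂ × ℂ) : chord x y * (‖x‖ * ‖y‖) = ‖wedge x y‖ := by
  unfold chord
  by_cases hx : x = 0
  · subst hx; simp [wedge]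
  by_cases hy : y = 0
  · subst hy; simp [wedge]
  have : ‖x‖ * ‖y‖ ≠ 0 := mul_ne_zero (norm_ne_zero_iff.mpr hx) (norm_ne_zero_iff.mpr hy)
  field_simp

theorem chord_triangle (x : ℂ × ℂ) {y : ℂ × ℂ} (hy : y ≠ 0) (z : ℂ × ℂ) :
    chord x z ≤ chord x y + chord y z := by
  by_cases hx : x = 0
  · subst hx
    have : chord (0 : ℂ × ℂ) z = 0 := by simp [chord]
    rw [this]
    exact add_nonneg (chord_nonneg _ _) (chord_nonneg _ _)
  by_cases hz : z = 0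
  · subst hz
    have : chord x (0 : ℂ × ℂ) = 0 := by simp [chord]
    rw [this]
    exact add_nonneg (chord_nonneg _ _) (chord_nonneg _ _)
  have hx' : 0 < ‖x‖ := norm_pos_iff.mpr hx
  have hy' : 0 < ‖y‖ := norm_pos_iff.mpr hy
  have hz' : 0 < ‖z‖ := norm_pos_iff.mpr hz
  have h := norm_add_le (wedge x y • z) (wedge y z • x)
  rw [← wedge_identity, norm_smul, norm_smul, norm_smul] at h
  unfold chord
  rw [div_add_div _ _ (by positivity) (by positivity), div_le_div_iff₀ (by positivity)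
    (by positivity)]
  calc ‖wedge x z‖ * (‖x‖ * ‖y‖ * (‖y‖ * ‖z‖))
      = (‖wedge x z‖ * ‖y‖) * (‖x‖ * (‖y‖ * ‖z‖)) := by ring
    _ ≤ (‖wedge x y‖ * ‖z‖ + ‖wedge y z‖ * ‖x‖) * (‖x‖ * (‖y‖ * ‖z‖)) := by gcongr
    _ = _ := by ring

theorem chord_eq_zero_iff {x y : ℂ × ℂ} (hx : x ≠ 0) (hy : y ≠ 0) :
    chord x y = 0 ↔ wedge x y = 0 := by
  unfold chord
  rw [div_eq_zero_iff]
  constructor
  · rintro (h | h)
    · exact norm_eq_zero.mp h
    · rcases mul_eq_zero.mp h with h | h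
      · exact absurd (norm_eq_zero.mp h) hx
      · exact absurd (norm_eq_zero.mp h) hy
  · intro h
    exact Or.inl (norm_eq_zero.mpr h)

/-- Rescaling of a vector so that it is near a given vector. -/
theorem exists_smul_near {x : ℂ × ℂ} (hx : x ≠ 0) (α : ℂ × ℂ) :
    ∃ t : ℂ, ‖t • x - α‖ ≤ chord x α * ‖α‖ := by
  have hx' : 0 < ‖x‖ := norm_pos_iff.mpr hx
  by_cases hα : α = 0
  · subst hα
    exact ⟨0, by simp⟩
  have hα' : 0 < ‖α‖ := norm_pos_iff.mpr hα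
  have he : chord x α * ‖α‖ = ‖wedge x α‖ / ‖x‖ := by
    unfold chord
    field_simp
  rw [he]
  rcases max_choice ‖x.1‖ ‖x.2‖ with h | h
  · have h1 : ‖x‖ = ‖x.1‖ := by rw [Prod.norm_def]; exact h
    have h2 : x.1 ≠ 0 := by
      rw [h1] at hx'
      exact norm_pos_iff.mp hx'
    refine ⟨α.1 / x.1, le_of_eq ?_⟩
    have e : (α.1 / x.1) • x - α = (0, -(wedge x α) / x.1) := by
      ext
      · simp [h2]
      · simp only [Prod.snd_sub, Prod.smul_snd, smul_eq_mul, wedge]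
        field_simp
        ring
    rw [e, Prod.norm_def, norm_zero, max_eq_right (norm_nonneg _), norm_div, norm_neg, h1]
  · have h1 : ‖x‖ = ‖x.2‖ := by rw [Prod.norm_def]; exact h
    have h2 : x.2 ≠ 0 := by
      rw [h1] at hx'
      exact norm_pos_iff.mp hx'
    refine ⟨α.2 / x.2, le_of_eq ?_⟩
    have e : (α.2 / x.2) • x - α = ((wedge x α) / x.2, 0) := by
      ext
      · simp only [Prod.fst_sub, Prod.smul_fst, smul_eq_mul, wedge]
        field_simp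
      · simp [h2]
    rw [e, Prod.norm_def, norm_zero, max_eq_left (norm_nonneg _), norm_div, h1]

/-- Rescaling by a nonzero number. -/
theorem exists_smul_near' {x : ℂ × ℂ} (hx : x ≠ 0) {α : ℂ × ℂ} (hα : α ≠ 0)
    (h : chord x α < 1) : ∃ t : ℂ, t ≠ 0 ∧ ‖t • x - α‖ ≤ chord x α * ‖α‖ := by
  obtain ⟨t, ht⟩ := exists_smul_near hx α
  refine ⟨t, ?_, ht⟩
  rintro rfl
  have hα' : 0 < ‖α‖ := norm_pos_iff.mpr hα
  rw [zero_smul, zero_sub, norm_neg] at ht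
  nlinarith

theorem wedge_eq_zero_iff {x : ℂ × ℂ} (hx : x ≠ 0) (y : ℂ × ℂ) :
    wedge x y = 0 ↔ ∃ t : ℂ, y = t • x := by
  constructor
  · intro h
    obtain ⟨t, ht⟩ := exists_smul_near hx y
    have h0 : chord x y = 0 := by simp [chord, h]
    rw [h0, zero_mul] at ht
    exact ⟨t, (sub_eq_zero.mp (norm_le_zero_iff.mp ht)).symm⟩
  · rintro ⟨t, rfl⟩
    rw [wedge_smul_right, wedge_self, mul_zero]

theorem continuousAt_chord {x y : ℂ × ℂ} (hx : x ≠ 0) (hy : y ≠ 0) :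
    ContinuousAt (fun p : (ℂ × ℂ) × (ℂ × ℂ) => chord p.1 p.2) (x, y) := by
  unfold chord
  refine ContinuousAt.div (continuous_wedge.norm.continuousAt)
    ((continuous_fst.norm.mul continuous_snd.norm).continuousAt) ?_
  exact mul_ne_zero (norm_ne_zero_iff.mpr hx) (norm_ne_zero_iff.mpr hy)

theorem tendsto_chord {ι : Type*} {l : Filter ι} {u v : ι → ℂ × ℂ} {x y : ℂ × ℂ}
    (hu : Tendsto u l (𝓝 x)) (hv : Tendsto v l (𝓝 y)) (hx : x ≠ 0) (hy : y ≠ 0) :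
    Tendsto (fun i => chord (u i) (v i)) l (𝓝 (chord x y)) := by
  have h1 : Tendsto (fun i => ‖wedge (u i) (v i)‖) l (𝓝 ‖wedge x y‖) := by
    unfold wedge
    exact (((hu.fst_nhds.mul hv.snd_nhds).sub (hu.snd_nhds.mul hv.fst_nhds)).norm)
  have h2 : Tendsto (fun i => ‖u i‖ * ‖v i‖) l (𝓝 (‖x‖ * ‖y‖)) := hu.norm.mul hv.norm
  exact h1.div h2 (mul_ne_zero (norm_ne_zero_iff.mpr hx) (norm_ne_zero_iff.mpr hy))

/-- A scale invariant property which holds near `α` holds in a projective neighbourhood. -/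
theorem forall_of_chord {P : ℂ × ℂ → Prop} {α : ℂ × ℂ} (hα : α ≠ 0)
    (hP : ∀ t : ℂ, t ≠ 0 → ∀ x, P (t • x) → P x) {ε : ℝ}
    (h : ∀ x, ‖x - α‖ < ε → P x) {x : ℂ × ℂ} (hx : x ≠ 0) (hx1 : chord x α < 1)
    (hx2 : chord x α * ‖α‖ < ε) : P x := by
  obtain ⟨t, ht, htx⟩ := exists_smul_near' hx hα hx1
  exact hP t ht x (h _ (htx.trans_lt hx2))

/-- If `[x k]` tends to `[γ]` then suitable multiples of `x k` tend to `γ`. -/
theorem exists_smul_tendsto {ι : Type*} {l : Filter ι} {x : ι → ℂ × ℂ} (hx : ∀ k, x k ≠ 0)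
    {γ : ℂ × ℂ} (hγ : γ ≠ 0) (h : Tendsto (fun k => chord (x k) γ) l (𝓝 0)) :
    ∃ t : ι → ℂ, (∀ k, t k ≠ 0) ∧ Tendsto (fun k => t k • x k) l (𝓝 γ) := by
  have hex : ∀ k, ∃ t : ℂ, t ≠ 0 ∧ (chord (x k) γ < 1 → ‖t • x k - γ‖ ≤ chord (x k) γ * ‖γ‖) := by
    intro k
    by_cases h1 : chord (x k) γ < 1
    · obtain ⟨t, ht, h2⟩ := exists_smul_near' (hx k) hγ h1
      exact ⟨t, ht, fun _ => h2⟩
    · exact ⟨1, one_ne_zero, fun h2 => absurd h2 h1⟩
  choose t ht h2 using hex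
  refine ⟨t, ht, ?_⟩
  rw [tendsto_iff_norm_sub_tendsto_zero]
  have h3 : Tendsto (fun k => chord (x k) γ * ‖γ‖) l (𝓝 0) := by
    simpa using h.mul_const ‖γ‖
  refine squeeze_zero' (Eventually.of_forall fun _ => norm_nonneg _) ?_ h3
  filter_upwards [h.eventually (gt_mem_nhds one_pos)] with k hk
  exact h2 k hk

/-- Geometric chains. -/
theorem chord_chain {x : ℕ → ℂ × ℂ} (hx : ∀ k, x k ≠ 0) {k0 : ℕ} {C ρ : ℝ} (hC : 0 ≤ C)
    (hρ0 : 0 ≤ ρ) (hρ1 : ρ < 1) (h : ∀ k, k0 ≤ k → chord (x k) (x (k + 1)) ≤ C * ρ ^ k)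
    {k : ℕ} (hk : k0 ≤ k) (j : ℕ) : chord (x k) (x (k + j)) ≤ C * ρ ^ k * (1 - ρ)⁻¹ := by
  have h1 : 0 < 1 - ρ := by linarith
  have hstep : chord (x k) (x (k + j)) ≤ C * ρ ^ k * ((1 - ρ ^ j) * (1 - ρ)⁻¹) := by
    induction j with
    | zero => simp [chord_self]
    | succ j ih =>
      have h2 := chord_triangle (x k) (hx (k + j)) (x (k + (j + 1)))
      have h3 := h (k + j) (by omega)
      have e : C * ρ ^ (k + j) = C * ρ ^ k * (ρ ^ j * ((1 - ρ) * (1 - ρ)⁻¹)) := by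
        rw [mul_inv_cancel₀ h1.ne', pow_add]; ring
      rw [add_assoc] at h3
      calc chord (x k) (x (k + (j + 1)))
          ≤ C * ρ ^ k * ((1 - ρ ^ j) * (1 - ρ)⁻¹) + C * ρ ^ (k + j) := by linarith
        _ = C * ρ ^ k * ((1 - ρ ^ (j + 1)) * (1 - ρ)⁻¹) := by rw [e, pow_succ]; ring
  refine hstep.trans ?_
  have h4 : 0 ≤ ρ ^ j := pow_nonneg hρ0 j
  have h5 : (1 - ρ ^ j) * (1 - ρ)⁻¹ ≤ (1 - ρ)⁻¹ := by
    have : 0 < (1 - ρ)⁻¹ := inv_pos.mpr h1
    nlinarith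
  exact mul_le_mul_of_nonneg_left h5 (by positivity)

/-- Completeness and compactness of the projective line: a geometric chain converges. -/
theorem exists_limit {x : ℕ → ℂ × ℂ} (hx : ∀ k, x k ≠ 0) {k0 : ℕ} {C ρ : ℝ} (hC : 0 ≤ C)
    (hρ0 : 0 ≤ ρ) (hρ1 : ρ < 1) (h : ∀ k, k0 ≤ k → chord (x k) (x (k + 1)) ≤ C * ρ ^ k) :
    ∃ γ : ℂ × ℂ, ‖γ‖ = 1 ∧ (∀ k, k0 ≤ k → chord (x k) γ ≤ C * ρ ^ k * (1 - ρ)⁻¹) ∧
      Tendsto (fun k => chord (x k) γ) atTop (𝓝 0) := by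
  set u : ℕ → ℂ × ℂ := fun k => ((‖x k‖ : ℂ)⁻¹) • x k with hu
  have hn : ∀ k, (‖x k‖ : ℂ) ≠ 0 := fun k =>
    Complex.ofReal_ne_zero.mpr (norm_ne_zero_iff.mpr (hx k))
  have hu1 : ∀ k, u k ∈ Metric.sphere (0 : ℂ × ℂ) 1 := by
    intro k
    rw [mem_sphere_zero_iff_norm, hu]
    simp only
    rw [norm_smul, norm_inv, Complex.norm_real, norm_norm]
    exact inv_mul_cancel₀ (norm_ne_zero_iff.mpr (hx k))
  obtain ⟨γ, hγ, φ, hφ, hlim⟩ := (isCompact_sphere (0 : ℂ × ℂ) 1).tendsto_subseq hu1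
  rw [mem_sphere_zero_iff_norm] at hγ
  have hγ0 : γ ≠ 0 := by
    rintro rfl
    simp at hγ
  have hb : ∀ k, k0 ≤ k → chord (x k) γ ≤ C * ρ ^ k * (1 - ρ)⁻¹ := by
    intro k hk
    have h1 : Tendsto (fun j => C * ρ ^ k * (1 - ρ)⁻¹ + chord (u (φ j)) γ) atTop
        (𝓝 (C * ρ ^ k * (1 - ρ)⁻¹ + chord γ γ)) :=
      tendsto_const_nhds.add (tendsto_chord hlim tendsto_const_nhds hγ0 hγ0)
    rw [chord_self, add_zero] at h1
    refine ge_of_tendsto h1 ?_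
    filter_upwards [eventually_ge_atTop k] with j hj
    have h2 : k ≤ φ j := hj.trans (hφ.id_le j)
    have h3 := chord_chain hx hC hρ0 hρ1 h hk (φ j - k)
    rw [Nat.add_sub_cancel' h2] at h3
    have h4 := chord_triangle (x k) (hx (φ j)) γ
    have h5 : chord (u (φ j)) γ = chord (x (φ j)) γ := chord_smul_left (inv_ne_zero (hn _)) _ _
    rw [h5]
    linarith
  refine ⟨γ, hγ, hb, ?_⟩
  have h6 : Tendsto (fun k => C * ρ ^ k * (1 - ρ)⁻¹) atTop (𝓝 0) := by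
    have := ((tendsto_pow_atTop_nhds_zero_of_lt_one hρ0 hρ1).const_mul C).mul_const (1 - ρ)⁻¹
    simpa using this
  refine squeeze_zero' (Eventually.of_forall fun _ => chord_nonneg _ _) ?_ h6
  filter_upwards [eventually_ge_atTop k0] with k hk using hb k hk

end Ch

end HypRat
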