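import Pool.Agent.Lib.Hyp.Rat.RL95

/-!
Invariance of the expanding locus under scaling, and its components (helper95).
-/

namespace HypRat

open Filter Topology

theorem isCrit_smul_right {d : ℕ} (hd : 1 ≤ d) {b : Par d} {x : ℂ × ℂ} (h : IsCrit d b x)
    {u : ℂ} (hu : u ≠ 0) : IsCrit d b (u • x) := by
  rw [isCrit_iff hd] at h ⊢
  refine ⟨smul_ne_zero hu h.1, ?_⟩
  have h1 := jac_smul b u x
  rw [h.2, mul_zero] at h1
  exact (mul_eq_zero.mp h1).resolve_right (pow_ne_zero _ hu)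

theorem isCrit_smul_par {d : ℕ} (hd : 1 ≤ d) {b : Par d} {x : ℂ × ℂ} {t : ℂ} (ht : t ≠ 0) :
    IsCrit d (t • b) x ↔ IsCrit d b x := by
  rw [isCrit_iff hd, isCrit_iff hd, jac_smul_par]
  constructor
  · rintro ⟨h1, h2⟩
    exact ⟨h1, (mul_eq_zero.mp h2).resolve_left (pow_ne_zero _ ht)⟩
  · rintro ⟨h1, h2⟩
    exact ⟨h1, by rw [h2, mul_zero]⟩

theorem chord_iter_scaling {d : ℕ} (hd : 1 ≤ d) (b : Par d) (k : ℕ) {t u : ℂ} (ht : t ≠ 0)
    (hu : u ≠ 0) (x y : ℂ × ℂ) :
    chord ((F d (t • b))^[k] (u • x)) y = chord ((F d b)^[k] x) y := by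
  obtain ⟨s, hs, h1, -⟩ := scaling hd b k ht hu x
  rw [h1, chord_smul_left hs]

theorem isAttracting_smul_par {d : ℕ} (hd : 1 ≤ d) {b : Par d} (hb : Nondeg d b) {q : ℕ}
    {α : ℂ × ℂ} (h : IsAttracting d b q α) {t : ℂ} (ht : t ≠ 0) :
    IsAttracting d (t • b) q α := by
  have hα := h.1
  rw [isAttracting_iff_sig hd hb hα] at h
  rw [isAttracting_iff_sig hd (nondeg_smul hb ht) hα]
  obtain ⟨s, hs, h1, -⟩ := scaling hd b q ht one_ne_zero α
  rw [one_smul] at h1
  refine ⟨by rw [h1, wedge_smul_left, h.1, mul_zero], ?_⟩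
  have := sig_smul hd b q ht one_ne_zero α
  rw [one_smul] at this
  rw [this]
  exact h.2

theorem tendsToCycle_smul_par {d : ℕ} (hd : 1 ≤ d) {b : Par d} (hb : Nondeg d b) {x : ℂ × ℂ}
    (h : TendsToCycle d b x) {t : ℂ} (ht : t ≠ 0) : TendsToCycle d (t • b) x := by
  obtain ⟨q, hq, α, hα, hx⟩ := h
  refine ⟨q, hq, α, isAttracting_smul_par hd hb hα ht, ?_⟩
  refine hx.congr fun k => ?_
  have := chord_iter_scaling hd b (q * k) ht one_ne_zero x α
  rw [one_smul] at this
  exact this.symm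

theorem tendsToCycle_smul_right {d : ℕ} (hd : 1 ≤ d) {b : Par d} {x : ℂ × ℂ}
    (h : TendsToCycle d b x) {u : ℂ} (hu : u ≠ 0) : TendsToCycle d b (u • x) := by
  obtain ⟨q, hq, α, hα, hx⟩ := h
  refine ⟨q, hq, α, hα, ?_⟩
  refine hx.congr fun k => ?_
  have := chord_iter_scaling hd b (q * k) one_ne_zero hu x α
  rw [one_smul] at this
  exact this.symm

theorem expandingRat_smul {d : ℕ} (hd : 1 ≤ d) {b : Par d} (h : b ∈ ExpandingRat d) {t : ℂ}
    (ht : t ≠ 0) : t • b ∈ ExpandingRat d := by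
  refine ⟨nondeg_smul h.1 ht, fun x hx => ?_⟩
  exact tendsToCycle_smul_par hd h.1 (h.2 x ((isCrit_smul_par hd ht).mp hx)) ht

/-- It suffices to look at critical points of norm one. -/
theorem mem_expandingRat_of_unit {d : ℕ} (hd : 1 ≤ d) {b : Par d} (hb : Nondeg d b)
    (h : ∀ x, IsCrit d b x → ‖x‖ = 1 → TendsToCycle d b x) : b ∈ ExpandingRat d := by
  refine ⟨hb, fun x hx => ?_⟩
  have hx0 := hx.1
  have hn : (‖x‖ : ℂ) ≠ 0 := by
    rw [Ne, Complex.ofReal_eq_zero]
    exact norm_ne_zero_iff.mpr hx0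
  have h1 : IsCrit d b (((‖x‖ : ℂ))⁻¹ • x) := isCrit_smul_right hd hx (inv_ne_zero hn)
  have h2 : ‖((‖x‖ : ℂ))⁻¹ • x‖ = 1 := by
    rw [norm_smul, norm_inv, Complex.norm_real, norm_norm]
    exact inv_mul_cancel₀ (norm_ne_zero_iff.mpr hx0)
  have h3 := tendsToCycle_smul_right hd (h _ h1 h2) hn
  rwa [smul_smul, mul_inv_cancel₀ hn, one_smul] at h3

/-- A component of the expanding locus is invariant under scaling. -/
theorem component_smul {d : ℕ} (hd : 1 ≤ d) {b₀ b : Par d}
    (h : b ∈ connectedComponentIn (ExpandingRat d) b₀) {t : ℂ} (ht : t ≠ 0) :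
    t • b ∈ connectedComponentIn (ExpandingRat d) b₀ := by
  have hbE : b ∈ ExpandingRat d := connectedComponentIn_subset _ _ h
  rw [connectedComponentIn_eq h]
  have hc : IsPreconnected ({0}ᶜ : Set ℂ) :=
    (isConnected_compl_singleton_of_one_lt_rank (by simp) (0:ℂ)).isPreconnected
  have hc2 : IsPreconnected ((fun s : ℂ => s • b) '' ({0}ᶜ : Set ℂ)) :=
    hc.image _ (continuous_id.smul continuous_const).continuousOn
  refine hc2.subset_connectedComponentIn ⟨1, by simp, one_smul _ _⟩ ?_ ⟨t, by simpa using ht, rfl⟩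
  rintro _ ⟨s, hs, rfl⟩
  exact expandingRat_smul hd hbE (by simpa using hs)

/-- The closure of a component meets the whole set only in the component. -/
theorem component_relClosed {m : ℕ} {S : Set (Fin m → ℂ)} (b₀ : Fin m → ℂ) :
    closure (connectedComponentIn S b₀) ∩ S ⊆ connectedComponentIn S b₀ := by
  rintro b ⟨h1, h2⟩
  by_cases hb : b₀ ∈ S
  · have h3 : IsPreconnected (insert b (connectedComponentIn S b₀)) :=
      isPreconnected_connectedComponentIn.subset_closure (Set.subset_insert _ _)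
        (Set.insert_subset h1 subset_closure)
    exact h3.subset_connectedComponentIn (Or.inr (mem_connectedComponentIn hb))
      (Set.insert_subset h2 (connectedComponentIn_subset _ _)) (Or.inl rfl)
  · rw [connectedComponentIn_eq_empty hb, closure_empty] at h1
    exact absurd h1 (Set.notMem_empty _)

end HypRat
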