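import Pool.Agent.Lib.Hyp.Rat.Loc25
import Pool.Agent.Lib.Hyp.Rat.Lim39
import Pool.Agent.Lib.Hyp.Rat.Inv95

/-!
The closing argument for the hyperconvexity of hyperbolic components (MP_47150b_an, helper20):
a limit of maps whose critical orbits satisfy `chord (x k) (x (k+1)) ≤ C t ^ k` with multipliers
`≤ t < 1` is expanding.
-/

namespace HypRat

open Filter Topology

attribute [local irreducible] jac F jacN

theorem continuousAt_sig_joint {d : ℕ} {b : Par d} (hb : Nondeg d b) {x : ℂ × ℂ} (hx : x ≠ 0)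
    (N : ℕ) : ContinuousAt (fun p : Par d × (ℂ × ℂ) => sig d p.1 N p.2) (b, x) := by
  have h1 : Tendsto (fun p : Par d × (ℂ × ℂ) => p.1) (𝓝 (b, x)) (𝓝 b) :=
    continuous_fst.tendsto (b, x)
  have h2 : Tendsto (fun p : Par d × (ℂ × ℂ) => p.2) (𝓝 (b, x)) (𝓝 x) :=
    continuous_snd.tendsto (b, x)
  exact tendsto_sig hb hx h1 h2 N

/-- Uniform continuity of the spherical derivative, uniformly for nearby maps. -/
theorem sig_unif {d : ℕ} (hd : 1 ≤ d) {b₀ : Par d} (hb : Nondeg d b₀) (N : ℕ) {η : ℝ}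
    (hη : 0 < η) : ∃ δ > 0, ∀ᶠ b in 𝓝 b₀, ∀ x y : ℂ × ℂ, x ≠ 0 → y ≠ 0 → chord x y ≤ δ →
      |sig d b N x - sig d b N y| ≤ η := by
  -- the compact set
  have hK : IsCompact (Metric.sphere (0 : ℂ × ℂ) 1) := isCompact_sphere _ _
  have key : ∃ δ > 0, ∀ᶠ b in 𝓝 b₀, ∀ x ∈ Metric.sphere (0 : ℂ × ℂ) 1, ∀ y : ℂ × ℂ,
      ‖y - x‖ ≤ δ → |sig d b N x - sig d b N y| ≤ η := by
    refine hK.induction_on (p := fun s => ∃ δ > 0, ∀ᶠ b in 𝓝 b₀, ∀ x ∈ s, ∀ y : ℂ × ℂ,
      ‖y - x‖ ≤ δ → |sig d b N x - sig d b N y| ≤ η) ?_ ?_ ?_ ?_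
    · exact ⟨1, one_pos, by simp⟩
    · rintro s t hst ⟨δ, hδ, h⟩
      exact ⟨δ, hδ, h.mono fun b hb x hx => hb x (hst hx)⟩
    · rintro s t ⟨δ, hδ, h⟩ ⟨δ', hδ', h'⟩
      refine ⟨min δ δ', lt_min hδ hδ', ?_⟩
      filter_upwards [h, h'] with b hb hb' x hx y hy
      rcases hx with hx | hx
      · exact hb x hx y (hy.trans (min_le_left _ _))
      · exact hb' x hx y (hy.trans (min_le_right _ _))
    · intro x₀ hx₀
      have hx₀' : x₀ ≠ 0 := by
        rintro rfl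
        simp at hx₀
      have hc := continuousAt_sig_joint hb hx₀' N
      have hev := hc.eventually (Metric.ball_mem_nhds (sig d b₀ N x₀) (half_pos hη))
      obtain ⟨U, hU, W, hW, hUW⟩ := mem_nhds_prod_iff.mp hev
      obtain ⟨r, hr, hrW⟩ := Metric.mem_nhds_iff.mp hW
      refine ⟨Metric.ball x₀ (r / 2), mem_nhdsWithin_of_mem_nhds
        (Metric.ball_mem_nhds _ (half_pos hr)), r / 2, half_pos hr, ?_⟩
      filter_upwards [hU] with b hbU x hx y hy
      have hxW : x ∈ W := hrW (Metric.ball_subset_ball (by linarith) hx)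
      have hyW : y ∈ W := by
        apply hrW
        rw [Metric.mem_ball, dist_eq_norm] at hx ⊢
        calc ‖y - x₀‖ = ‖(y - x) + (x - x₀)‖ := by rw [sub_add_sub_cancel]
          _ ≤ ‖y - x‖ + ‖x - x₀‖ := norm_add_le _ _
          _ < r := by linarith
      have h1 : sig d b N x ∈ Metric.ball (sig d b₀ N x₀) (η / 2) :=
        hUW (Set.mk_mem_prod hbU hxW)
      have h2 : sig d b N y ∈ Metric.ball (sig d b₀ N x₀) (η / 2) :=
        hUW (Set.mk_mem_prod hbU hyW)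
      rw [Metric.mem_ball, Real.dist_eq, abs_lt] at h1 h2
      rw [abs_le]
      constructor <;> linarith [h1.1, h1.2, h2.1, h2.2]
  obtain ⟨δ, hδ, h⟩ := key
  refine ⟨min δ (1 / 2), lt_min hδ (by norm_num), ?_⟩
  filter_upwards [h] with b hb x y hx hy hxy
  obtain ⟨t, ht, htx⟩ := exists_unit hx
  have htx0 : t • x ≠ 0 := smul_ne_zero ht hx
  have h1 : chord y (t • x) ≤ min δ (1 / 2) := by
    rw [chord_smul_right ht, chord_comm]
    exact hxy
  obtain ⟨s, hs, hsy⟩ := Ch.exists_smul_near' hy htx0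
    (h1.trans_lt ((min_le_right _ _).trans_lt (by norm_num)))
  rw [htx, mul_one] at hsy
  have h2 := hb (t • x) (mem_sphere_zero_iff_norm.mpr htx) (s • y)
    (hsy.trans (h1.trans (min_le_left _ _)))
  rwa [sig_smul_right hd b N ht, sig_smul_right hd b N hs] at h2

/-- **The closing argument.** -/
theorem closing {d : ℕ} (hd : 1 ≤ d) {b : ℕ → Par d} {b' : Par d} (hb : Nondeg d b')
    (hbj : ∀ j, Nondeg d (b j)) (hlim : Tendsto b atTop (𝓝 b')) {N : ℕ} (hN : 1 ≤ N) {C t : ℝ}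
    (hC : 0 ≤ C) (ht0 : 0 ≤ t) (ht1 : t < 1)
    (h1 : ∀ j c, IsCrit d (b j) c → ∀ k,
      chord (orb d N k (b j) c) (orb d N (k + 1) (b j) c) ≤ C * t ^ k)
    (h2 : ∀ j c, IsCrit d (b j) c → ∀ e : ℝ, 0 < e →
      ∀ᶠ k in atTop, sig d (b j) N (orb d N k (b j) c) ≤ t + e) :
    b' ∈ ExpandingRat d := by
  refine mem_expandingRat_of_unit hd hb fun c' hc' hc1 => ?_
  obtain ⟨c, hclim, hcev⟩ := Lim39.exists_isCrit_seq hd hb hlim hc' hc1
  set η : ℝ := (1 - t) / 4 with hη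
  have hηpos : 0 < η := by rw [hη]; linarith
  obtain ⟨δ, hδ, hsig⟩ := sig_unif hd hb N hηpos
  -- the index from which on the tail is `≤ δ`
  have htend : Tendsto (fun k : ℕ => C * t ^ k * (1 - t)⁻¹) atTop (𝓝 (C * 0 * (1 - t)⁻¹)) :=
    ((tendsto_pow_atTop_nhds_zero_of_lt_one ht0 ht1).const_mul C).mul_const _
  rw [mul_zero, zero_mul] at htend
  obtain ⟨k1, hk1⟩ := (eventually_atTop.mp (htend.eventually (gt_mem_nhds hδ)))
  -- the estimate for the approximants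
  have hest : ∀ᶠ j in atTop, ∀ k, k1 ≤ k → sig d (b j) N (orb d N k (b j) (c j)) ≤ t + 2 * η := by
    filter_upwards [hlim.eventually hsig, hcev] with j hj hcj k hk
    have hne : ∀ i, orb d N i (b j) (c j) ≠ 0 := fun i => orb_ne_zero (hbj j) hcj.1.1 N i
    obtain ⟨l, hl⟩ := (eventually_atTop.mp (h2 j (c j) hcj.1 η hηpos))
    have h3 := hl (k + l) (Nat.le_add_left _ _)
    have h4 := Ch.chord_chain hne hC ht0 ht1 (k0 := 0) (fun i _ => h1 j (c j) hcj.1 i)
      (Nat.zero_le k) l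
    have h5 := hj _ _ (hne k) (hne (k + l)) (h4.trans (hk1 k hk).le)
    have h6 := (abs_le.mp h5).2
    linarith
  -- pass to the limit
  have hρ1 : t + 2 * η < 1 := by rw [hη]; linarith
  have hlim1 : ∀ k, k1 ≤ k → sig d b' N (orb d N k b' c') ≤ t + 2 * η := by
    intro k hk
    have h3 := Lim39.tendsto_orb hlim hclim N k
    have h4 : Tendsto (fun j => sig d (b j) N (orb d N k (b j) (c j))) atTop
        (𝓝 (sig d b' N (orb d N k b' c'))) :=
      tendsto_sig hb (orb_ne_zero hb hc'.1 N k) hlim h3 N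
    exact le_of_tendsto h4 (hest.mono fun j hj => hj k hk)
  have hlim2 : ∀ k, chord (orb d N k b' c') (orb d N (k + 1) b' c') ≤ C * t ^ k := by
    intro k
    have h3 := Lim39.tendsto_orb hlim hclim N k
    have h4 := Lim39.tendsto_orb hlim hclim N (k + 1)
    have h5 := Ch.tendsto_chord h3 h4 (orb_ne_zero hb hc'.1 N k) (orb_ne_zero hb hc'.1 N (k + 1))
    exact le_of_tendsto h5 (hcev.mono fun j hj => h1 j (c j) hj.1 k)
  refine tendsToCycle_of_estPt hd hb hc'.1 (k0 := k1) (C := C) hN hC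
    (by linarith : (0:ℝ) ≤ t + 2 * η) hρ1 ?_
  intro k hk
  refine ⟨(hlim2 k).trans ?_, hlim1 k hk⟩
  exact mul_le_mul_of_nonneg_left (pow_le_pow_left₀ ht0 (by linarith) k) hC

end HypRat
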