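import Mathlib

/-!
MP_47150b_an, Theorem C, module C-d (helper11): the polynomial form of the fixed point formula.
-/

namespace Hyp20

open Polynomial

/-- If `φ` has degree `d + 1` and simple roots and `h` has degree at most `d` and the same top
coefficient, then the sum of `h / φ'` over the roots of `φ` is one. -/
theorem sum_div_derivative {d : ℕ} {φ h : ℂ[X]} (hφ : φ.natDegree = d + 1)
    (hh : h.natDegree ≤ d) (hlead : h.coeff d = φ.leadingCoeff)
    (hsimple : ∀ z, φ.eval z = 0 → (derivative φ).eval z ≠ 0) :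
    φ.roots.toFinset.card = d + 1 ∧
      ∑ z ∈ φ.roots.toFinset, h.eval z / (derivative φ).eval z = 1 := by
  classical
  have hφ0 : φ ≠ 0 := by
    rintro rfl
    simp at hφ
  have hlc : φ.leadingCoeff ≠ 0 := leadingCoeff_ne_zero.2 hφ0
  have hnodup : φ.roots.Nodup := by
    refine Multiset.nodup_iff_count_le_one.2 fun z => ?_
    rw [count_roots]
    by_contra hcon
    push Not at hcon
    have h1 := (one_lt_rootMultiplicity_iff_isRoot hφ0).1 hcon
    exact hsimple z h1.1 h1.2
  have hcard : φ.roots.toFinset.card = d + 1 := by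
    rw [Multiset.toFinset_card_of_nodup hnodup,
      splits_iff_card_roots.1 (IsAlgClosed.splits φ), hφ]
  refine ⟨hcard, ?_⟩
  set s := φ.roots.toFinset with hs
  have hprod : φ = C φ.leadingCoeff * ∏ z ∈ s, (X - C z) := by
    conv_lhs => rw [(IsAlgClosed.splits φ).eq_prod_roots]
    congr 1
    rw [Finset.prod, hs, Multiset.toFinset_val, hnodup.dedup]
  have hder : ∀ z ∈ s, (derivative φ).eval z =
      φ.leadingCoeff * ∏ w ∈ s.erase z, (z - w) := by
    intro z hz
    have h1 := Lagrange.eval_nodal_derivative_eval_node_eq (s := s) (v := (id : ℂ → ℂ)) hz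
    have h2 : (derivative φ) = C φ.leadingCoeff * derivative (Lagrange.nodal s (id : ℂ → ℂ)) := by
      conv_lhs => rw [hprod]
      rw [derivative_C_mul]
      rfl
    rw [h2, eval_mul, eval_C]
    congr 1
    have h3 : eval (id z) (derivative (Lagrange.nodal s (id : ℂ → ℂ))) =
        eval (id z) (Lagrange.nodal (s.erase z) id) := h1
    simpa [Lagrange.eval_nodal] using h3
  have hdeg : h.degree < s.card := by
    rw [hcard]
    refine lt_of_le_of_lt degree_le_natDegree ?_
    exact_mod_cast Nat.lt_succ_of_le hh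
  have h4 := Lagrange.coeff_eq_sum (s := s) (v := (id : ℂ → ℂ)) Function.injective_id.injOn hdeg
  rw [hcard, Nat.add_sub_cancel, hlead] at h4
  have h5 : ∑ z ∈ s, h.eval z / (derivative φ).eval z =
      φ.leadingCoeff⁻¹ * ∑ z ∈ s, h.eval z / ∏ w ∈ s.erase z, (z - w) := by
    rw [Finset.mul_sum]
    refine Finset.sum_congr rfl fun z hz => ?_
    rw [hder z hz, div_mul_eq_div_div_swap, div_eq_inv_mul]
  rw [h5]
  simp only [id] at h4
  rw [← h4, inv_mul_cancel₀ hlc]

/-- `Re (1 / (1 - μ)) > 1 / 2` in the unit disc. -/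
theorem half_lt_re {μ : ℂ} (hμ : ‖μ‖ < 1) : 1 / 2 < (1 / (1 - μ)).re := by
  have h1 : (1 - μ) ≠ 0 := by
    intro h
    rw [sub_eq_zero] at h
    rw [← h] at hμ
    simp at hμ
  have h2 : 0 < Complex.normSq (1 - μ) := Complex.normSq_pos.2 h1
  rw [Complex.div_re]
  simp only [Complex.one_re, Complex.one_im, Complex.sub_re, Complex.sub_im, zero_mul, zero_div,
    add_zero, one_mul]
  rw [lt_div_iff₀ h2, Complex.normSq_apply]
  simp only [Complex.sub_re, Complex.sub_im, Complex.one_re, Complex.one_im]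
  have h3 : Complex.normSq μ < 1 := by
    rw [Complex.normSq_eq_norm_sq]
    nlinarith [norm_nonneg μ]
  rw [Complex.normSq_apply] at h3
  nlinarith

/-- Not all fixed points are attracting (polynomial form). -/
theorem exists_not_attracting_poly {d : ℕ} (hd : 2 ≤ d) {φ h : ℂ[X]} (hφ : φ.natDegree = d + 1)
    (hh : h.natDegree ≤ d) (hlead : h.coeff d = φ.leadingCoeff) :
    ∃ z, φ.eval z = 0 ∧ ∀ μ : ℂ, ‖μ‖ < 1 →
      ¬ ((derivative φ).eval z = (1 - μ) * h.eval z ∧ h.eval z ≠ 0) := by
  classical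
  by_contra hcon
  push Not at hcon
  choose! μ hμ1 hμ2 hμ3 using hcon
  have h1 : ∀ z, φ.eval z = 0 → (1 - μ z) ≠ 0 := by
    intro z hz h
    have h2 := hμ1 z hz
    rw [sub_eq_zero] at h
    rw [← h] at h2
    simp at h2
  have hsimple : ∀ z, φ.eval z = 0 → (derivative φ).eval z ≠ 0 := by
    intro z hz
    rw [hμ2 z hz]
    exact mul_ne_zero (h1 z hz) (hμ3 z hz)
  obtain ⟨hcard, hsum⟩ := sum_div_derivative hφ hh hlead hsimple
  have hφ0 : φ ≠ 0 := by
    rintro rfl
    simp at hφ
  have h2 : ∑ z ∈ φ.roots.toFinset, (1 / 2 : ℝ) <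
      ∑ z ∈ φ.roots.toFinset, (h.eval z / (derivative φ).eval z).re := by
    refine Finset.sum_lt_sum_of_nonempty ?_ ?_
    · rw [← Finset.card_pos, hcard]; omega
    · intro z hz
      rw [Multiset.mem_toFinset, mem_roots hφ0] at hz
      have e : h.eval z / (derivative φ).eval z = 1 / (1 - μ z) := by
        rw [hμ2 z hz]
        have := hμ3 z hz
        have := h1 z hz
        field_simp
      rw [e]
      exact half_lt_re (hμ1 z hz)
  rw [← Complex.re_sum, hsum, Finset.sum_const, hcard, nsmul_eq_mul] at h2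
  have h3 : (3 : ℝ) ≤ ((d + 1 : ℕ) : ℝ) := by exact_mod_cast (by omega : 3 ≤ d + 1)
  simp only [Complex.one_re] at h2
  linarith

end Hyp20
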