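import Pool.Agent.Lib.Hyp.Rat.Alg95
import Pool.Agent.Lib.Hyp.Rat.FixPoly11

/-!
MP_47150b_an, Theorem C, module D (helper11), part 1: forms restricted to affine lines,
continuity of their zeros, a fixed point which is not attracting.
-/

namespace HypRat

open Filter Topology Polynomial

/-- `g` restricted to each affine line `x0 + z w` is a polynomial of degree at most `D` in `z`
with `D`-th coefficient `g w` (binary forms of degree `D` have this property). -/
def LF (D : ℕ) (g : ℂ × ℂ → ℂ) : Prop :=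
  ∀ x0 w : ℂ × ℂ, ∃ p : ℂ[X], p.natDegree ≤ D ∧ p.coeff D = g w ∧
    ∀ z : ℂ, p.eval z = g (x0 + z • w)

namespace LF

variable {D D' : ℕ} {g h : ℂ × ℂ → ℂ}

theorem fst : LF 1 (fun x => x.1) := by
  intro x0 w
  refine ⟨C w.1 * X + C x0.1, ?_, ?_, fun z => ?_⟩
  · exact natDegree_linear_le
  · simp
  · simp; ring

theorem snd : LF 1 (fun x => x.2) := by
  intro x0 w
  refine ⟨C w.2 * X + C x0.2, ?_, ?_, fun z => ?_⟩
  · exact natDegree_linear_le
  · simp
  · simp; ring

theorem const (c : ℂ) : LF 0 (fun _ => c) := fun _ _ => ⟨C c, by simp, by simp, by simp⟩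

theorem zero : LF D (fun _ => 0) := fun _ _ => ⟨0, by simp, by simp, by simp⟩

theorem add (hg : LF D g) (hh : LF D h) : LF D (fun x => g x + h x) := by
  intro x0 w
  obtain ⟨p, hp1, hp2, hp3⟩ := hg x0 w
  obtain ⟨q, hq1, hq2, hq3⟩ := hh x0 w
  exact ⟨p + q, (natDegree_add_le _ _).trans (max_le hp1 hq1), by simp [hp2, hq2],
    fun z => by simp [hp3, hq3]⟩

theorem mul (hg : LF D g) (hh : LF D' h) : LF (D + D') (fun x => g x * h x) := by
  intro x0 w
  obtain ⟨p, hp1, hp2, hp3⟩ := hg x0 w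
  obtain ⟨q, hq1, hq2, hq3⟩ := hh x0 w
  refine ⟨p * q, natDegree_mul_le.trans (add_le_add hp1 hq1), ?_, fun z => by simp [hp3, hq3]⟩
  rw [coeff_mul_add_eq_of_natDegree_le hp1 hq1, hp2, hq2]

theorem const_mul (c : ℂ) (hg : LF D g) : LF D (fun x => c * g x) := by
  have h := (const c).mul hg
  rwa [zero_add] at h

theorem neg (hg : LF D g) : LF D (fun x => -g x) := by
  have h := hg.const_mul (-1)
  simpa using h

theorem sub (hg : LF D g) (hh : LF D h) : LF D (fun x => g x - h x) := by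
  have h1 := hg.add hh.neg
  simpa [sub_eq_add_neg] using h1

theorem pow (hg : LF D g) (k : ℕ) : LF (D * k) (fun x => g x ^ k) := by
  induction k with
  | zero => simpa using const 1
  | succ k ih =>
    have h := ih.mul hg
    simp only [pow_succ]
    exact h

theorem sum {ι : Type*} (s : Finset ι) {G : ι → ℂ × ℂ → ℂ} (hG : ∀ i ∈ s, LF D (G i)) :
    LF D (fun x => ∑ i ∈ s, G i x) := by
  classical
  induction s using Finset.induction_on with
  | empty => simpa using zero (D := D)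
  | insert i s hi ih =>
    have h1 := (hG i (Finset.mem_insert_self i s)).add
      (ih fun j hj => hG j (Finset.mem_insert_of_mem hj))
    simpa only [Finset.sum_insert hi] using h1

theorem congr_deg (hg : LF D g) (hD : D = D') : LF D' g := hD ▸ hg

theorem monomial {d : ℕ} {H : ℂ × ℂ → ℂ × ℂ} (h1 : LF D (fun x => (H x).1))
    (h2 : LF D (fun x => (H x).2)) {j : ℕ} (hj : j ≤ d) :
    LF (D * d) (fun x => (H x).1 ^ j * (H x).2 ^ (d - j)) := by
  refine ((h1.pow j).mul (h2.pow (d - j))).congr_deg ?_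
  rw [← Nat.mul_add]
  congr 1
  omega

theorem F_fst {d : ℕ} (b : Par d) {H : ℂ × ℂ → ℂ × ℂ} (h1 : LF D (fun x => (H x).1))
    (h2 : LF D (fun x => (H x).2)) : LF (D * d) (fun x => (F d b (H x)).1) :=
  sum (G := fun (j : Fin (d + 1)) x => b (Fin.castAdd (d + 1) j) *
    ((H x).1 ^ (j : ℕ) * (H x).2 ^ (d - (j : ℕ)))) Finset.univ
    fun j _ => (monomial h1 h2 (Nat.lt_succ_iff.1 j.2)).const_mul _

theorem F_snd {d : ℕ} (b : Par d) {H : ℂ × ℂ → ℂ × ℂ} (h1 : LF D (fun x => (H x).1))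
    (h2 : LF D (fun x => (H x).2)) : LF (D * d) (fun x => (F d b (H x)).2) :=
  sum (G := fun (j : Fin (d + 1)) x => b (Fin.natAdd (d + 1) j) *
    ((H x).1 ^ (j : ℕ) * (H x).2 ^ (d - (j : ℕ)))) Finset.univ
    fun j _ => (monomial h1 h2 (Nat.lt_succ_iff.1 j.2)).const_mul _

theorem iter {d : ℕ} (b : Par d) (k : ℕ) :
    LF (d ^ k) (fun x => ((F d b)^[k] x).1) ∧ LF (d ^ k) (fun x => ((F d b)^[k] x).2) := by
  induction k with
  | zero => exact ⟨by simpa using fst, by simpa using snd⟩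
  | succ k ih =>
    simp only [Function.iterate_succ_apply']
    rw [pow_succ]
    exact ⟨F_fst b ih.1 ih.2, F_snd b ih.1 ih.2⟩

theorem wedge {H K : ℂ × ℂ → ℂ × ℂ} (h1 : LF D (fun x => (H x).1)) (h2 : LF D (fun x => (H x).2))
    (k1 : LF D' (fun x => (K x).1)) (k2 : LF D' (fun x => (K x).2)) :
    LF (D + D') (fun x => HypRat.wedge (H x) (K x)) :=
  (h1.mul k2).sub (h2.mul k1)

/-- `wedge (F^k x) α` as a form in `x`. -/
theorem wedge_iter_const {d : ℕ} (b : Par d) (k : ℕ) (α : ℂ × ℂ) :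
    LF (d ^ k) (fun x => HypRat.wedge ((F d b)^[k] x) α) := by
  have h := wedge (iter b k).1 (iter b k).2 (const α.1) (const α.2)
  simpa using h

end LF

/-- The Jacobian is a form of degree `2 d - 2`. -/
theorem LF.jac {d : ℕ} (b : Par d) : LF (2 * d - 2) (fun x => HypRat.jac d b x) := by
  unfold HypRat.jac
  refine LF.sum _ fun i _ => LF.sum _ fun j _ => ?_
  by_cases hij : (i : ℕ) = (j : ℕ)
  · have h : (fun x : ℂ × ℂ => b (Fin.castAdd (d + 1) i) * b (Fin.natAdd (d + 1) j) *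
        (((i : ℕ) : ℂ) - ((j : ℕ) : ℂ)) *
        (x.1 ^ ((i : ℕ) + (j : ℕ) - 1) * x.2 ^ (2 * d - 1 - ((i : ℕ) + (j : ℕ))))) =
        fun _ => 0 := by
      funext x
      rw [hij, sub_self]
      ring
    rw [h]
    exact LF.zero
  · have h := ((LF.fst.pow ((i : ℕ) + (j : ℕ) - 1)).mul
      (LF.snd.pow (2 * d - 1 - ((i : ℕ) + (j : ℕ))))).const_mul
      (b (Fin.castAdd (d + 1) i) * b (Fin.natAdd (d + 1) j) * (((i : ℕ) : ℂ) - ((j : ℕ) : ℂ)))
    refine h.congr_deg ?_
    have h1 := i.2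
    have h2 := j.2
    omega

/-- A form of positive degree has a zero. -/
theorem LF.exists_zero {D : ℕ} (hD : 1 ≤ D) {g : ℂ × ℂ → ℂ} (hg : LF D g) :
    ∃ x : ℂ × ℂ, x ≠ 0 ∧ g x = 0 := by
  by_cases h : g (1, 0) = 0
  · exact ⟨(1, 0), by simp, h⟩
  obtain ⟨p, hp1, hp2, hp3⟩ := hg (0, 1) (1, 0)
  have hdeg : p.natDegree = D := le_antisymm hp1 (le_natDegree_of_ne_zero (by rwa [hp2]))
  have h1 : p.degree ≠ 0 := by
    intro h0
    have h2 : p.natDegree = 0 := natDegree_eq_of_degree_eq_some h0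
    omega
  obtain ⟨z, hz⟩ := IsAlgClosed.exists_root p h1
  refine ⟨(0, 1) + z • (1, 0), ?_, ?_⟩
  · intro h0
    have := congrArg Prod.snd h0
    simp at this
  · rw [← hp3]; exact hz

/-- Zeros of forms move continuously. -/
theorem roots_near {E : Type*} {l : Filter E} {D : ℕ} {Φ : E → ℂ × ℂ → ℂ} {x0 w : ℂ × ℂ} {c : ℂ}
    (hLF : ∀ᶠ e in l, LF D (Φ e)) (hx0 : Tendsto (fun e => Φ e x0) l (𝓝 0))
    (hw : Tendsto (fun e => Φ e w) l (𝓝 c)) (hc : c ≠ 0) {ε : ℝ} (hε : 0 < ε) :
    ∀ᶠ e in l, ∃ x : ℂ × ℂ, ‖x - x0‖ < ε ∧ Φ e x = 0 := by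
  set η : ℝ := ε / (‖w‖ + 1) with hη
  have hw1 : 0 < ‖w‖ + 1 := by positivity
  have hη0 : 0 < η := by positivity
  have hηw : η * ‖w‖ < ε := by
    rw [hη, div_mul_eq_mul_div, div_lt_iff₀ hw1]
    nlinarith [norm_nonneg w]
  have hc0 : 0 < ‖c‖ := norm_pos_iff.2 hc
  have h1 : ∀ᶠ e in l, ‖Φ e x0‖ < ‖c‖ / 2 * η ^ D := by
    have h := hx0.norm
    rw [norm_zero] at h
    exact h.eventually (gt_mem_nhds (by positivity))
  have h2 : ∀ᶠ e in l, ‖c‖ / 2 < ‖Φ e w‖ := hw.norm.eventually (lt_mem_nhds (by linarith))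
  filter_upwards [hLF, h1, h2] with e he h1e h2e
  by_contra hcon
  push Not at hcon
  obtain ⟨p, hp1, hp2, hp3⟩ := he x0 w
  have hpw : p.coeff D ≠ 0 := by
    rw [hp2]
    intro h0
    rw [h0, norm_zero] at h2e
    linarith
  have hdeg : p.natDegree = D := le_antisymm hp1 (le_natDegree_of_ne_zero hpw)
  have hlead : p.leadingCoeff = Φ e w := by rw [leadingCoeff, hdeg, hp2]
  have hp0 : p ≠ 0 := by
    rintro rfl
    simp at hpw
  have h3 : ∀ s : Multiset ℂ, (∀ z ∈ s, η ≤ ‖z‖) →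
      η ^ Multiset.card s ≤ ‖(s.map fun z => 0 - z).prod‖ := by
    intro s
    induction s using Multiset.induction_on with
    | empty => simp
    | cons v s ih =>
      intro hs
      rw [Multiset.map_cons, Multiset.prod_cons, Multiset.card_cons, pow_succ', norm_mul]
      refine mul_le_mul ?_ (ih fun v hv => hs v (Multiset.mem_cons_of_mem hv))
        (by positivity) (norm_nonneg _)
      rw [zero_sub, norm_neg]
      exact hs v (Multiset.mem_cons_self _ _)
  have h4 := h3 p.roots (fun z hz => by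
    by_contra hlt
    push Not at hlt
    rw [mem_roots hp0, IsRoot.def, hp3] at hz
    refine hcon _ ?_ hz
    rw [add_sub_cancel_left, norm_smul]
    have := mul_le_mul_of_nonneg_right hlt.le (norm_nonneg w)
    linarith)
  have h5 : Φ e x0 = Φ e w * (p.roots.map fun z => 0 - z).prod := by
    have h6 := hp3 0
    rw [zero_smul, add_zero, (IsAlgClosed.splits p).eval_eq_prod_roots, hlead] at h6
    exact h6.symm
  rw [splits_iff_card_roots.1 (IsAlgClosed.splits p), hdeg] at h4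
  rw [h5, norm_mul] at h1e
  have h7 : ‖c‖ / 2 * η ^ D ≤ ‖Φ e w‖ * ‖(p.roots.map fun z => 0 - z).prod‖ :=
    mul_le_mul h2e.le h4 (by positivity) (norm_nonneg _)
  linarith

/-- The Jacobian is not identically zero. -/
theorem exists_jac_ne_zero11 {d : ℕ} (hd : 1 ≤ d) {b : Par d} (hb : Nondeg d b) :
    ∃ x : ℂ × ℂ, HypRat.jac d b x ≠ 0 := by
  by_contra hcon
  push Not at hcon
  obtain ⟨P, hP1, hP2, hP3⟩ := (LF.iter b 1).1 (0, 1) (1, 0)
  obtain ⟨Q, hQ1, hQ2, hQ3⟩ := (LF.iter b 1).2 (0, 1) (1, 0)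
  simp only [pow_one, Function.iterate_one] at hP1 hP2 hP3 hQ1 hQ2 hQ3
  have hcop : IsCoprime P Q := by
    rw [isCoprime_iff_aeval_ne_zero_of_isAlgClosed ℂ ℂ]
    intro z
    by_contra h
    push Not at h
    obtain ⟨h1, h2⟩ := h
    simp only [coe_aeval_eq_eval] at h1 h2
    rw [hP3] at h1
    rw [hQ3] at h2
    have h3 := hb _ (Prod.ext h1 h2)
    have := congrArg Prod.snd h3
    simp at this
  have hW : P * derivative Q = Q * derivative P := by
    refine Polynomial.funext fun z => ?_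
    set α : ℂ × ℂ := (0, 1) + z • (1, 0) with hα
    have hline : HasDerivAt (fun z : ℂ => ((0, 1) : ℂ × ℂ) + z • ((1, 0) : ℂ × ℂ)) (1, 0) z := by
      simpa using ((hasDerivAt_id z).smul_const ((1, 0) : ℂ × ℂ)).const_add ((0, 1) : ℂ × ℂ)
    have hF : HasDerivAt (fun z : ℂ => F d b (((0, 1) : ℂ × ℂ) + z • ((1, 0) : ℂ × ℂ)))
        (fderiv ℂ (F d b) α (1, 0)) z := by
      have hF0 : HasFDerivAt (F d b) (fderiv ℂ (F d b) α) (((0, 1) : ℂ × ℂ) + z • ((1, 0) : ℂ × ℂ)) :=
        (differentiable_F d b α).hasFDerivAt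
      exact hF0.comp_hasDerivAt z hline
    have b1 : HasDerivAt (fun z => P.eval z) (fderiv ℂ (F d b) α (1, 0)).1 z := by
      have h := (hasFDerivAt_fst (𝕜 := ℂ) (p := F d b α)).comp_hasDerivAt z hF
      have e : (fun z => P.eval z) =
          (Prod.fst ∘ fun z : ℂ => F d b (((0, 1) : ℂ × ℂ) + z • ((1, 0) : ℂ × ℂ))) := by
        funext z; exact hP3 z
      rw [e]; exact h
    have b2 : HasDerivAt (fun z => Q.eval z) (fderiv ℂ (F d b) α (1, 0)).2 z := by
      have h := (hasFDerivAt_snd (𝕜 := ℂ) (p := F d b α)).comp_hasDerivAt z hF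
      have e : (fun z => Q.eval z) =
          (Prod.snd ∘ fun z : ℂ => F d b (((0, 1) : ℂ × ℂ) + z • ((1, 0) : ℂ × ℂ))) := by
        funext z; exact hQ3 z
      rw [e]; exact h
    rw [eval_mul, eval_mul, ← Polynomial.deriv, ← Polynomial.deriv, b1.deriv, b2.deriv, hP3, hQ3]
    have h := wedge_fderiv_F hd b α (1, 0)
    rw [hcon, zero_mul] at h
    unfold wedge at h
    linear_combination h
  have hP' : derivative P = 0 := by
    by_contra h0
    have h1 : P ∣ derivative P := by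
      refine hcop.dvd_of_dvd_mul_left ?_
      rw [← hW]
      exact dvd_mul_right _ _
    have h2 := natDegree_le_of_dvd h1 h0
    have h3 : (derivative P).natDegree < P.natDegree := by
      refine natDegree_derivative_lt ?_
      intro h4
      exact h0 (derivative_of_natDegree_zero h4)
    omega
  have hQ' : derivative Q = 0 := by
    by_contra h0
    have h1 : Q ∣ derivative Q := by
      refine hcop.symm.dvd_of_dvd_mul_left ?_
      rw [hW]
      exact dvd_mul_right _ _
    have h2 := natDegree_le_of_dvd h1 h0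
    have h3 : (derivative Q).natDegree < Q.natDegree := by
      refine natDegree_derivative_lt ?_
      intro h4
      exact h0 (derivative_of_natDegree_zero h4)
    omega
  have h1 := derivative_eq_zero.1 hP'
  have h2 := derivative_eq_zero.1 hQ'
  have h3 : (F d b (1, 0)).1 = 0 := by
    rw [← hP2]; exact coeff_eq_zero_of_natDegree_lt (by omega)
  have h4 : (F d b (1, 0)).2 = 0 := by
    rw [← hQ2]; exact coeff_eq_zero_of_natDegree_lt (by omega)
  have h5 := hb _ (Prod.ext h3 h4)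
  simp at h5

/-- Critical points move continuously (all parameters near `b0`). -/
theorem exists_crit_near {d : ℕ} (hd : 1 ≤ d) {b0 : Par d} (hb : Nondeg d b0) {c0 : ℂ × ℂ}
    (hc0 : IsCrit d b0 c0) {ε : ℝ} (hε : 0 < ε) :
    ∀ᶠ b in 𝓝 b0, ∃ c, IsCrit d b c ∧ ‖c - c0‖ < ε := by
  obtain ⟨w, hw⟩ := exists_jac_ne_zero11 hd hb
  rw [isCrit_iff hd] at hc0
  have hcont : ∀ x : ℂ × ℂ, Tendsto (fun b : Par d => HypRat.jac d b x) (𝓝 b0)
      (𝓝 (HypRat.jac d b0 x)) := by
    intro x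
    exact ((continuous_jac_joint d).comp (continuous_id.prodMk continuous_const)).tendsto b0
  have h1 := hcont c0
  rw [hc0.2] at h1
  have h2 := roots_near (l := 𝓝 b0) (D := 2 * d - 2) (Φ := fun b x => HypRat.jac d b x)
    (x0 := c0) (w := w) (Eventually.of_forall fun b => LF.jac b) h1 (hcont w) hw
    (lt_min hε (norm_pos_iff.2 hc0.1))
  filter_upwards [h2] with b hb'
  obtain ⟨x, hx1, hx2⟩ := hb'
  refine ⟨x, (isCrit_iff hd).2 ⟨?_, hx2⟩, hx1.trans_le (min_le_left _ _)⟩
  rintro rfl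
  rw [zero_sub, norm_neg] at hx1
  exact absurd (hx1.trans_le (min_le_right _ _)) (lt_irrefl _)

/-- Some point is not fixed. -/
theorem exists_not_fixed11 {d : ℕ} (hd : 2 ≤ d) {b : Par d} (hb : Nondeg d b) :
    ∃ e : ℂ × ℂ, wedge e (F d b e) ≠ 0 := by
  by_contra hcon
  push Not at hcon
  obtain ⟨P, hP1, hP2, hP3⟩ := (LF.iter b 1).1 (0, 1) (1, 0)
  obtain ⟨Q, hQ1, hQ2, hQ3⟩ := (LF.iter b 1).2 (0, 1) (1, 0)
  simp only [pow_one, Function.iterate_one] at hP1 hP2 hP3 hQ1 hQ2 hQ3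
  have hPQ : P = X * Q := by
    refine Polynomial.funext fun z => ?_
    rw [eval_mul, eval_X, hP3, hQ3]
    have h := hcon ((0, 1) + z • (1, 0))
    simp only [wedge] at h
    simp at h
    simp
    linear_combination -h
  have hQroot : ∀ z, Q.eval z ≠ 0 := by
    intro z hz
    have h1 : P.eval z = 0 := by rw [hPQ, eval_mul, hz, mul_zero]
    rw [hP3] at h1
    rw [hQ3] at hz
    have h2 := hb _ (Prod.ext h1 hz)
    have := congrArg Prod.snd h2
    simp at this
  have hQdeg : Q.natDegree = 0 := by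
    by_contra h0
    have h1 : Q.degree ≠ 0 := by
      intro h2
      exact h0 (natDegree_eq_of_degree_eq_some h2)
    obtain ⟨z, hz⟩ := IsAlgClosed.exists_root Q h1
    exact hQroot z hz
  have hc : Q = C (Q.coeff 0) := eq_C_of_natDegree_eq_zero hQdeg
  have h1 : (F d b (1, 0)).2 = 0 := by
    rw [← hQ2, hc, coeff_C, if_neg (by omega)]
  have h2 : (F d b (1, 0)).1 = 0 := by
    rw [← hP2, hPQ, hc]
    obtain ⟨k, rfl⟩ : ∃ k, d = k + 2 := ⟨d - 2, by omega⟩
    rw [show k + 2 = (k + 1) + 1 from rfl, coeff_X_mul, coeff_C, if_neg (by omega)]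
  have h3 := hb _ (Prod.ext h2 h1)
  simp at h3

/-- **A fixed point which is not attracting.** -/
theorem exists_fixed_not_attracting {d : ℕ} (hd : 2 ≤ d) {b : Par d} (hb : Nondeg d b) :
    ∃ α : ℂ × ℂ, α ≠ 0 ∧ (∃ l : ℂ, F d b α = l • α) ∧ ¬ IsAttracting d b 1 α := by
  obtain ⟨e, he⟩ := exists_not_fixed11 hd hb
  have he0 : e ≠ 0 := by
    rintro rfl
    simp [wedge] at he
  obtain ⟨w, hw⟩ := exists_wedge_ne_zero he0
  have hΦ : LF (d + 1) (fun x => wedge x (F d b x)) := by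
    have h := LF.wedge LF.fst LF.snd (by simpa using (LF.iter b 1).1)
      (by simpa using (LF.iter b 1).2)
    exact h.congr_deg (by ring)
  have hh : LF d (fun x => wedge e (F d b x)) := by
    have h := LF.wedge (LF.const e.1) (LF.const e.2) (by simpa using (LF.iter b 1).1)
      (by simpa using (LF.iter b 1).2)
    simpa using h
  obtain ⟨φ, hφ1, hφ2, hφ3⟩ := hΦ w e
  obtain ⟨h, hh1, hh2, hh3⟩ := hh w e
  have hφdeg : φ.natDegree = d + 1 :=
    le_antisymm hφ1 (le_natDegree_of_ne_zero (by rw [hφ2]; exact he))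
  obtain ⟨z, hz0, hz⟩ := Hyp20.exists_not_attracting_poly hd hφdeg hh1
    (by rw [leadingCoeff, hφdeg, hφ2, hh2])
  set α : ℂ × ℂ := w + z • e with hα
  have hwα : wedge e α = wedge e w := by
    rw [hα, wedge_add_right, wedge_smul_right, wedge_self, mul_zero, add_zero]
  have hα0 : α ≠ 0 := by
    intro h0
    rw [h0] at hwα
    apply hw
    rw [← hwα]
    simp [wedge]
  rw [hφ3] at hz0
  obtain ⟨l, hl⟩ := exists_smul_of_wedge_eq_zero hα0 hz0
  have hl0 : l ≠ 0 := by
    rintro rfl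
    rw [zero_smul] at hl
    exact hα0 (hb _ hl)
  refine ⟨α, hα0, ⟨l, hl⟩, ?_⟩
  rintro ⟨-, l', μ, hl', hμ, hμ1⟩
  rw [Function.iterate_one] at hl'
  have hll : l' = l := by
    have h1 : (l' - l) • α = 0 := by rw [sub_smul, ← hl', ← hl, sub_self]
    rcases smul_eq_zero.1 h1 with h2 | h2
    · exact sub_eq_zero.1 h2
    · exact absurd h2 hα0
  subst hll
  refine hz μ hμ1 ⟨?_, ?_⟩
  · rw [hh3, ← Polynomial.deriv]
    have e1 : (fun z => φ.eval z) = fun z => wedge (w + z • e) (F d b (w + z • e)) :=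
      funext hφ3
    rw [e1]
    have hline : HasDerivAt (fun z : ℂ => w + z • e) e z := by
      simpa using ((hasDerivAt_id z).smul_const e).const_add w
    have hF : HasDerivAt (fun z : ℂ => F d b (w + z • e)) (fderiv ℂ (F d b) α e) z := by
      have hF0 : HasFDerivAt (F d b) (fderiv ℂ (F d b) α) (w + z • e) :=
        (differentiable_F d b α).hasFDerivAt
      exact hF0.comp_hasDerivAt z hline
    have hd1 : HasDerivAt (fun z : ℂ => wedge (w + z • e) (F d b (w + z • e)))
        (wedge e (F d b α) + wedge α (fderiv ℂ (F d b) α e)) z := by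
      have a1 := (hasFDerivAt_fst (𝕜 := ℂ) (p := α)).comp_hasDerivAt z hline
      have a2 := (hasFDerivAt_snd (𝕜 := ℂ) (p := α)).comp_hasDerivAt z hline
      have b1 := (hasFDerivAt_fst (𝕜 := ℂ) (p := F d b α)).comp_hasDerivAt z hF
      have b2 := (hasFDerivAt_snd (𝕜 := ℂ) (p := F d b α)).comp_hasDerivAt z hF
      have h5 := (a1.mul b2).sub (a2.mul b1)
      refine h5.congr_deriv ?_
      simp only [wedge, Function.comp_apply, ContinuousLinearMap.coe_fst',
        ContinuousLinearMap.coe_snd', ← hα]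
      ring
    rw [hd1.deriv]
    have h6 := hμ e
    rw [Function.iterate_one] at h6
    show wedge e (F d b α) + wedge α (fderiv ℂ (F d b) α e) = (1 - μ) * wedge e (F d b α)
    have hl2 : F d b α = l' • α := hl
    rw [h6, hl2, wedge_smul_right, wedge_swap e α]
    ring
  · rw [hh3]
    show wedge e (F d b α) ≠ 0
    have hl2 : F d b α = l' • α := hl
    rw [hl2, wedge_smul_right, hwα]
    exact mul_ne_zero hl0 hw

end HypRat
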