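import Pool.Agent.Lib.Hyp.Rat.Lim39
import Pool.Agent.Lib.Hyp.Rat.Line11
import Pool.Agent.Lib.Hyp.Rat.Loc25

/-!
MP_47150b_an, module CS of the local hyperconvexity (helper25): suprema over the critical points
and their continuity in the parameter.
-/

namespace HypRat

open Filter Topology

attribute [local irreducible] jac F jacN

/-- The supremum of `f b` over the critical points of `b` of norm one. -/
noncomputable def critSup (d : ℕ) (f : Par d → ℂ × ℂ → ℝ) (b : Par d) : ℝ :=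
  sSup ((f b) '' {c | ‖c‖ = 1 ∧ IsCrit d b c})

theorem exists_crit {d : ℕ} (hd : 2 ≤ d) (b : Par d) : ∃ c : ℂ × ℂ, ‖c‖ = 1 ∧ IsCrit d b c := by
  obtain ⟨x, hx0, hx⟩ := (LF.jac b).exists_zero (by omega)
  have hd1 : 1 ≤ d := by omega
  obtain ⟨t, ht, ht1⟩ := exists_unit hx0
  exact ⟨t • x, ht1, isCrit_smul hd1 ht ((isCrit_iff hd1).2 ⟨hx0, hx⟩)⟩

theorem crit_near {d : ℕ} (hd : 2 ≤ d) {b₀ : Par d} (hb : Nondeg d b₀) {c₀ : ℂ × ℂ}
    (hc : IsCrit d b₀ c₀) {e : ℝ} (he : 0 < e) : ∀ᶠ b in 𝓝 b₀, ∃ c, IsCrit d b c ∧ ‖c - c₀‖ < e :=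
  exists_crit_near (by omega) hb hc he

/-- The set of critical points of norm one is compact. -/
theorem isCompact_crit {d : ℕ} (hd : 1 ≤ d) (b : Par d) :
    IsCompact {c : ℂ × ℂ | ‖c‖ = 1 ∧ IsCrit d b c} := by
  have h1 : {c : ℂ × ℂ | ‖c‖ = 1 ∧ IsCrit d b c} =
      Metric.sphere (0 : ℂ × ℂ) 1 ∩ {c | jac d b c = 0} := by
    ext c
    simp only [Set.mem_ofPred_eq, Set.mem_inter_iff, mem_sphere_zero_iff_norm]
    constructor
    · rintro ⟨h1, h2⟩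
      exact ⟨h1, ((isCrit_iff hd).1 h2).2⟩
    · rintro ⟨h1, h2⟩
      refine ⟨h1, (isCrit_iff hd).2 ⟨?_, h2⟩⟩
      rintro rfl
      simp at h1
  rw [h1]
  refine (isCompact_sphere (0 : ℂ × ℂ) 1).inter_right ?_
  have h2 : Continuous fun c : ℂ × ℂ => jac d b c := by
    have h3 := (continuous_jac_joint d).comp
      ((continuous_const (y := b)).prodMk (continuous_id (X := ℂ × ℂ)))
    exact h3
  exact isClosed_eq h2 continuous_const

/-- Properties near the critical points of `b₀` hold at the critical points of nearby maps. -/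
theorem eventually_crit {d : ℕ} (hd : 1 ≤ d) {b₀ : Par d} {P : Par d × (ℂ × ℂ) → Prop}
    (h : ∀ c, ‖c‖ = 1 → IsCrit d b₀ c → ∀ᶠ p in 𝓝 (b₀, c), P p) :
    ∀ᶠ b in 𝓝 b₀, ∀ c, ‖c‖ = 1 → IsCrit d b c → P (b, c) := by
  have hK : IsCompact (Metric.sphere (0 : ℂ × ℂ) 1) := isCompact_sphere _ _
  have hev : ∀ᶠ b in 𝓝 b₀, ∀ x ∈ Metric.sphere (0 : ℂ × ℂ) 1, IsCrit d b x → P (b, x) := by
    refine hK.eventually_forall_of_forall_eventually ?_
    intro x hx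
    have hx1 : ‖x‖ = 1 := mem_sphere_zero_iff_norm.1 hx
    have hx0 : x ≠ 0 := by
      rintro rfl
      simp at hx
    by_cases hj : jac d b₀ x = 0
    · filter_upwards [h x hx1 ((isCrit_iff hd).mpr ⟨hx0, hj⟩)] with p hp _
      exact hp
    · have h1 : ∀ᶠ p : Par d × (ℂ × ℂ) in 𝓝 (b₀, x), jac d p.1 p.2 ≠ 0 :=
        (continuous_jac_joint d).continuousAt.eventually_ne hj
      filter_upwards [h1] with p hp hpc
      exact absurd ((isCrit_iff hd).mp hpc).2 hp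
  filter_upwards [hev] with b hb c hc hcr
  exact hb c (mem_sphere_zero_iff_norm.2 hc) hcr

section

variable {d : ℕ} {f : Par d → ℂ × ℂ → ℝ} {b : Par d}

theorem continuousAt_snd25 {c : ℂ × ℂ}
    (h : ContinuousAt (fun p : Par d × (ℂ × ℂ) => f p.1 p.2) (b, c)) : ContinuousAt (f b) c := by
  have h1 : ContinuousAt (fun c : ℂ × ℂ => ((b, c) : Par d × (ℂ × ℂ))) c :=
    continuousAt_const.prodMk continuousAt_id
  exact ContinuousAt.comp (f := fun c : ℂ × ℂ => ((b, c) : Par d × (ℂ × ℂ)))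
    (g := fun p : Par d × (ℂ × ℂ) => f p.1 p.2) h h1

theorem bddAbove_crit (hd : 1 ≤ d)
    (hf : ∀ c, IsCrit d b c → ContinuousAt (fun p : Par d × (ℂ × ℂ) => f p.1 p.2) (b, c)) :
    BddAbove ((f b) '' {c | ‖c‖ = 1 ∧ IsCrit d b c}) := by
  refine (isCompact_crit hd b).bddAbove_image ?_
  exact fun c hc => (continuousAt_snd25 (hf c hc.2)).continuousWithinAt

theorem le_critSup1 (hd : 1 ≤ d)
    (hf : ∀ c, IsCrit d b c → ContinuousAt (fun p : Par d × (ℂ × ℂ) => f p.1 p.2) (b, c))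
    {c : ℂ × ℂ} (hc1 : ‖c‖ = 1) (hc : IsCrit d b c) : f b c ≤ critSup d f b :=
  le_csSup (bddAbove_crit hd hf) ⟨c, ⟨hc1, hc⟩, rfl⟩

theorem le_critSup (hd : 1 ≤ d)
    (hf : ∀ c, IsCrit d b c → ContinuousAt (fun p : Par d × (ℂ × ℂ) => f p.1 p.2) (b, c))
    (hs : ∀ c, IsCrit d b c → ∀ u : ℂ, u ≠ 0 → f b (u • c) = f b c)
    {c : ℂ × ℂ} (hc : IsCrit d b c) : f b c ≤ critSup d f b := by
  obtain ⟨t, ht, ht1⟩ := exists_unit hc.1
  rw [← hs c hc t ht]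
  exact le_critSup1 hd hf ht1 (isCrit_smul hd ht hc)

theorem exists_eq_critSup (hd : 2 ≤ d)
    (hf : ∀ c, IsCrit d b c → ContinuousAt (fun p : Par d × (ℂ × ℂ) => f p.1 p.2) (b, c)) :
    ∃ c, ‖c‖ = 1 ∧ IsCrit d b c ∧ f b c = critSup d f b := by
  have hd1 : 1 ≤ d := by omega
  obtain ⟨c, hc, hc1⟩ := (isCompact_crit hd1 b).exists_isMaxOn (exists_crit hd b) (f := f b)
    fun c hc => (continuousAt_snd25 (hf c hc.2)).continuousWithinAt
  refine ⟨c, hc.1, hc.2, le_antisymm (le_critSup1 hd1 hf hc.1 hc.2) ?_⟩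
  refine csSup_le ⟨_, c, hc, rfl⟩ ?_
  rintro _ ⟨x, hx, rfl⟩
  exact hc1 hx

theorem critSup_le (hd : 2 ≤ d) {t : ℝ} (h : ∀ c, ‖c‖ = 1 → IsCrit d b c → f b c ≤ t) :
    critSup d f b ≤ t := by
  obtain ⟨c, hc⟩ := exists_crit hd b
  refine csSup_le ⟨_, c, hc, rfl⟩ ?_
  rintro _ ⟨x, hx, rfl⟩
  exact h x hx.1 hx.2

theorem critSup_le_iff (hd : 2 ≤ d)
    (hf : ∀ c, IsCrit d b c → ContinuousAt (fun p : Par d × (ℂ × ℂ) => f p.1 p.2) (b, c)) {t : ℝ} :
    critSup d f b ≤ t ↔ ∀ c, ‖c‖ = 1 → IsCrit d b c → f b c ≤ t :=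
  ⟨fun h _ hc1 hc => (le_critSup1 (by omega) hf hc1 hc).trans h, critSup_le hd⟩

theorem critSup_lt_iff (hd : 2 ≤ d)
    (hf : ∀ c, IsCrit d b c → ContinuousAt (fun p : Par d × (ℂ × ℂ) => f p.1 p.2) (b, c)) {t : ℝ} :
    critSup d f b < t ↔ ∀ c, ‖c‖ = 1 → IsCrit d b c → f b c < t := by
  refine ⟨fun h _ hc1 hc => (le_critSup1 (by omega) hf hc1 hc).trans_lt h, fun h => ?_⟩
  obtain ⟨c, hc1, hc, he⟩ := exists_eq_critSup hd hf
  rw [← he]
  exact h c hc1 hc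

theorem critSup_nonneg (hd : 2 ≤ d)
    (hf : ∀ c, IsCrit d b c → ContinuousAt (fun p : Par d × (ℂ × ℂ) => f p.1 p.2) (b, c))
    (h0 : ∀ c, IsCrit d b c → 0 ≤ f b c) : 0 ≤ critSup d f b := by
  obtain ⟨c, hc1, hc⟩ := exists_crit hd b
  exact (h0 c hc).trans (le_critSup1 (by omega) hf hc1 hc)

/-- **Continuity of the supremum over the critical points.** -/
theorem continuousAt_critSup (hd : 2 ≤ d) (hb : Nondeg d b)
    (hf : ∀ c, IsCrit d b c → ContinuousAt (fun p : Par d × (ℂ × ℂ) => f p.1 p.2) (b, c)) :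
    ContinuousAt (critSup d f) b := by
  have hd1 : 1 ≤ d := by omega
  rw [ContinuousAt, Metric.tendsto_nhds]
  intro e he
  -- from above
  have h1 : ∀ᶠ a in 𝓝 b, ∀ c, ‖c‖ = 1 → IsCrit d a c → f a c < critSup d f b + e / 2 := by
    refine eventually_crit hd1 (P := fun p => f p.1 p.2 < critSup d f b + e / 2) ?_
    intro c hc1 hc
    refine (hf c hc).eventually_lt continuousAt_const ?_
    have := le_critSup1 hd1 hf hc1 hc
    simp only
    linarith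
  -- from below
  obtain ⟨c₀, hc1, hc, hmax⟩ := exists_eq_critSup hd hf
  have h2 : ∀ᶠ p : Par d × (ℂ × ℂ) in 𝓝 (b, c₀), critSup d f b - e / 2 < f p.1 p.2 := by
    refine continuousAt_const.eventually_lt (hf c₀ hc) ?_
    simp only
    linarith
  rw [nhds_prod_eq, eventually_prod_iff] at h2
  obtain ⟨pa, hpa, pb, hpb, hp⟩ := h2
  obtain ⟨δ, hδ, hδ1⟩ := Metric.eventually_nhds_iff.1 hpb
  filter_upwards [h1, hpa, Lim39.isCrit_persist hd1 hb hc hc1 hδ] with a ha1 ha2 ha3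
  obtain ⟨c, hca, hca1, hcd⟩ := ha3
  have h3 : critSup d f b - e / 2 < f a c := hp ha2 (hδ1 hcd)
  have hbdd : BddAbove ((f a) '' {c | ‖c‖ = 1 ∧ IsCrit d a c}) := by
    refine ⟨critSup d f b + e / 2, ?_⟩
    rintro _ ⟨x, hx, rfl⟩
    exact (ha1 x hx.1 hx.2).le
  have h4 : f a c ≤ critSup d f a := le_csSup hbdd ⟨c, ⟨hca1, hca⟩, rfl⟩
  have h5 : critSup d f a ≤ critSup d f b + e / 2 :=
    critSup_le hd fun x hx1 hx => (ha1 x hx1 hx).le
  rw [Real.dist_eq, abs_lt]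
  constructor <;> linarith

end

end HypRat
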