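import Pool.Agent.Lib.Hyp.Rat.Alg95
import Pool.Agent.Lib.Hyp.Rat.Chord25

/-!
The divided difference of the homogeneous map `F d b` (helper25):
`wedge (F x) (F y) = wedge x y * Q x y` with a continuous function `Q`.
-/

namespace HypRat

open Filter Topology

theorem exists_Qm_aux (d k n : ℕ) (h : k + n ≤ d) :
    ∃ q : (ℂ × ℂ) → (ℂ × ℂ) → ℂ, Continuous (fun p : (ℂ × ℂ) × (ℂ × ℂ) => q p.1 p.2) ∧
      ∀ x y : ℂ × ℂ, (x.1 ^ (k + n) * x.2 ^ (d - (k + n))) * (y.1 ^ k * y.2 ^ (d - k)) -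
        (x.1 ^ k * x.2 ^ (d - k)) * (y.1 ^ (k + n) * y.2 ^ (d - (k + n))) =
          wedge x y * q x y := by
  refine ⟨fun x y => (x.1 * y.1) ^ k * (x.2 * y.2) ^ (d - (k + n)) *
    ∑ i ∈ Finset.range n, (x.1 * y.2) ^ i * (x.2 * y.1) ^ (n - 1 - i), by fun_prop, ?_⟩
  intro x y
  have h1 := geom_sum₂_mul (x.1 * y.2) (x.2 * y.1) n
  have h2 : d - k = (d - (k + n)) + n := by omega
  rw [h2, pow_add, pow_add, pow_add, pow_add]
  simp only [wedge]
  have h3 : (x.1 * y.2 - x.2 * y.1) * ((x.1 * y.1) ^ k * (x.2 * y.2) ^ (d - (k + n)) *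
      ∑ i ∈ Finset.range n, (x.1 * y.2) ^ i * (x.2 * y.1) ^ (n - 1 - i)) =
      (x.1 * y.1) ^ k * (x.2 * y.2) ^ (d - (k + n)) *
        ((x.1 * y.2) ^ n - (x.2 * y.1) ^ n) := by rw [← h1]; ring
  rw [h3, mul_pow, mul_pow, mul_pow, mul_pow]
  ring

theorem exists_Qm (d i j : ℕ) (hi : i ≤ d) (hj : j ≤ d) :
    ∃ q : (ℂ × ℂ) → (ℂ × ℂ) → ℂ, Continuous (fun p : (ℂ × ℂ) × (ℂ × ℂ) => q p.1 p.2) ∧
      ∀ x y : ℂ × ℂ, (x.1 ^ i * x.2 ^ (d - i)) * (y.1 ^ j * y.2 ^ (d - j)) -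
        (x.1 ^ j * x.2 ^ (d - j)) * (y.1 ^ i * y.2 ^ (d - i)) = wedge x y * q x y := by
  rcases le_total j i with h | h
  · obtain ⟨n, rfl⟩ := Nat.exists_eq_add_of_le h
    exact exists_Qm_aux d j n hi
  · obtain ⟨n, rfl⟩ := Nat.exists_eq_add_of_le h
    obtain ⟨q, hq, h2⟩ := exists_Qm_aux d i n hj
    refine ⟨fun x y => - q x y, hq.neg, fun x y => ?_⟩
    have := h2 x y
    linear_combination -this

theorem exists_Q (d : ℕ) : ∃ Q : Par d → (ℂ × ℂ) → (ℂ × ℂ) → ℂ,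
    Continuous (fun p : Par d × ((ℂ × ℂ) × (ℂ × ℂ)) => Q p.1 p.2.1 p.2.2) ∧
      ∀ b x y, wedge (F d b x) (F d b y) = wedge x y * Q b x y := by
  have h : ∀ i j : Fin (d + 1), ∃ q : (ℂ × ℂ) → (ℂ × ℂ) → ℂ,
      Continuous (fun p : (ℂ × ℂ) × (ℂ × ℂ) => q p.1 p.2) ∧
      ∀ x y : ℂ × ℂ, (x.1 ^ (i : ℕ) * x.2 ^ (d - (i : ℕ))) * (y.1 ^ (j : ℕ) * y.2 ^ (d - (j : ℕ))) -
        (x.1 ^ (j : ℕ) * x.2 ^ (d - (j : ℕ))) * (y.1 ^ (i : ℕ) * y.2 ^ (d - (i : ℕ))) =
          wedge x y * q x y :=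
    fun i j => exists_Qm d i j (Nat.lt_succ_iff.mp i.2) (Nat.lt_succ_iff.mp j.2)
  choose q hq h2 using h
  refine ⟨fun b x y => ∑ i : Fin (d + 1), ∑ j : Fin (d + 1),
    b (Fin.castAdd (d + 1) i) * b (Fin.natAdd (d + 1) j) * q i j x y, ?_, ?_⟩
  · refine continuous_finsetSum _ fun i _ => continuous_finsetSum _ fun j _ => ?_
    refine Continuous.mul (by fun_prop) ?_
    exact (hq i j).comp continuous_snd
  · intro b x y
    simp only [F, wedge] at h2 ⊢
    rw [Finset.sum_mul_sum, Finset.sum_mul_sum, Finset.mul_sum, Finset.sum_comm (f := fun i j =>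
      b (Fin.natAdd (d + 1) i) * (x.1 ^ (i : ℕ) * x.2 ^ (d - (i : ℕ))) * _),
      ← Finset.sum_sub_distrib]
    apply Finset.sum_congr rfl
    intro i _
    rw [Finset.mul_sum, ← Finset.sum_sub_distrib]
    apply Finset.sum_congr rfl
    intro j _
    have := h2 i j x y
    linear_combination (b (Fin.castAdd (d + 1) i) * b (Fin.natAdd (d + 1) j)) * this

/-- The divided difference. -/
noncomputable def Q (d : ℕ) : Par d → (ℂ × ℂ) → (ℂ × ℂ) → ℂ := Classical.choose (exists_Q d)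

theorem continuous_Q (d : ℕ) :
    Continuous (fun p : Par d × ((ℂ × ℂ) × (ℂ × ℂ)) => Q d p.1 p.2.1 p.2.2) :=
  (Classical.choose_spec (exists_Q d)).1

theorem wedge_F (d : ℕ) (b : Par d) (x y : ℂ × ℂ) :
    wedge (F d b x) (F d b y) = wedge x y * Q d b x y :=
  (Classical.choose_spec (exists_Q d)).2 b x y

theorem Q_self {d : ℕ} (hd : 1 ≤ d) (b : Par d) {x : ℂ × ℂ} (hx : x ≠ 0) :
    Q d b x x = jac d b x := by
  obtain ⟨v, hv⟩ := exists_wedge_ne_zero hx
  have hline : HasDerivAt (fun t : ℂ => x + t • v) v 0 := by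
    have h1 : HasDerivAt (fun t : ℂ => t • v) ((1:ℂ) • v) 0 := (hasDerivAt_id (0:ℂ)).smul_const v
    rw [one_smul] at h1
    exact h1.const_add x
  have h1 : HasDerivAt (fun t : ℂ => F d b (x + t • v)) (fderiv ℂ (F d b) x v) 0 := by
    have hF : HasFDerivAt (F d b) (fderiv ℂ (F d b) x) (x + (0:ℂ) • v) := by
      rw [zero_smul, add_zero]
      exact (differentiable_F d b x).hasFDerivAt
    exact hF.comp_hasDerivAt 0 hline
  have h2 : HasDerivAt (fun t : ℂ => wedge (F d b x) (F d b (x + t • v)))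
      (jac d b x * wedge x v) 0 := by
    rw [← wedge_fderiv_F hd]
    unfold wedge
    have hs : HasDerivAt (fun t : ℂ => (F d b (x + t • v)).2) (fderiv ℂ (F d b) x v).2 0 :=
      h1.snd
    have hf : HasDerivAt (fun t : ℂ => (F d b (x + t • v)).1) (fderiv ℂ (F d b) x v).1 0 :=
      h1.fst
    exact (hs.const_mul _).sub (hf.const_mul _)
  have h3 : Tendsto (fun t : ℂ => wedge x v * Q d b x (x + t • v)) (𝓝[≠] 0)
      (𝓝 (jac d b x * wedge x v)) := by
    refine (hasDerivAt_iff_tendsto_slope.mp h2).congr' ?_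
    filter_upwards [self_mem_nhdsWithin] with t ht
    have ht0 : t ≠ 0 := ht
    rw [slope_def_field, zero_smul, add_zero, wedge_self, sub_zero, sub_zero, wedge_F,
      wedge_add_right, wedge_self, zero_add, wedge_smul_right]
    field_simp
  have h4 : Tendsto (fun t : ℂ => wedge x v * Q d b x (x + t • v)) (𝓝[≠] 0)
      (𝓝 (wedge x v * Q d b x x)) := by
    have hc : Continuous (fun t : ℂ => wedge x v * Q d b x (x + t • v)) := by
      refine continuous_const.mul ?_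
      have hm : Continuous (fun t : ℂ => ((b, (x, x + t • v)) : Par d × ((ℂ × ℂ) × (ℂ × ℂ)))) := by
        fun_prop
      exact (continuous_Q d).comp hm
    have h5 := hc.tendsto 0
    simp only [zero_smul, add_zero] at h5
    exact h5.mono_left nhdsWithin_le_nhds
  have h6 := tendsto_nhds_unique h3 h4
  have : (Q d b x x - jac d b x) * wedge x v = 0 := by linear_combination -h6
  exact sub_eq_zero.mp ((mul_eq_zero.mp this).resolve_right hv)

/-- The divided difference of the iterates. -/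
noncomputable def QN (d : ℕ) (b : Par d) (N : ℕ) (x y : ℂ × ℂ) : ℂ :=
  ∏ i ∈ Finset.range N, Q d b ((F d b)^[i] x) ((F d b)^[i] y)

theorem wedge_iter (d : ℕ) (b : Par d) (N : ℕ) (x y : ℂ × ℂ) :
    wedge ((F d b)^[N] x) ((F d b)^[N] y) = wedge x y * QN d b N x y := by
  induction N with
  | zero => simp [QN]
  | succ N ih =>
    rw [Function.iterate_succ_apply', Function.iterate_succ_apply', wedge_F, ih]
    simp only [QN, Finset.prod_range_succ]
    ring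

theorem continuous_QN (d N : ℕ) :
    Continuous (fun p : Par d × ((ℂ × ℂ) × (ℂ × ℂ)) => QN d p.1 N p.2.1 p.2.2) := by
  unfold QN
  refine continuous_finsetProd _ fun i _ => ?_
  have hm1 : Continuous (fun p : Par d × ((ℂ × ℂ) × (ℂ × ℂ)) => (F d p.1)^[i] p.2.1) :=
    (continuous_iter_joint d i).comp
      (continuous_fst.prodMk (continuous_fst.comp continuous_snd))
  have hm2 : Continuous (fun p : Par d × ((ℂ × ℂ) × (ℂ × ℂ)) => (F d p.1)^[i] p.2.2) :=
    (continuous_iter_joint d i).comp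
      (continuous_fst.prodMk (continuous_snd.comp continuous_snd))
  exact (continuous_Q d).comp (continuous_fst.prodMk (hm1.prodMk hm2))

theorem QN_self {d : ℕ} (hd : 1 ≤ d) {b : Par d} (hb : Nondeg d b) (N : ℕ) {x : ℂ × ℂ}
    (hx : x ≠ 0) : QN d b N x x = jacN d b N x := by
  unfold QN jacN
  exact Finset.prod_congr rfl fun i _ => Q_self hd b (iter_ne_zero hb hx i)

/-- The factor by which the `N`-th iterate changes the distance of two points. -/
noncomputable def SS (d : ℕ) (b : Par d) (N : ℕ) (x y : ℂ × ℂ) : ℝ :=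
  ‖QN d b N x y‖ * (‖x‖ * ‖y‖) / (‖(F d b)^[N] x‖ * ‖(F d b)^[N] y‖)

theorem chord_iter {d : ℕ} (b : Par d) (N : ℕ) {x y : ℂ × ℂ} (hx : x ≠ 0) (hy : y ≠ 0) :
    chord ((F d b)^[N] x) ((F d b)^[N] y) = SS d b N x y * chord x y := by
  unfold chord SS
  rw [wedge_iter, norm_mul]
  have hx' : ‖x‖ ≠ 0 := norm_ne_zero_iff.mpr hx
  have hy' : ‖y‖ ≠ 0 := norm_ne_zero_iff.mpr hy
  field_simp

theorem SS_self {d : ℕ} (hd : 1 ≤ d) {b : Par d} (hb : Nondeg d b) (N : ℕ) {x : ℂ × ℂ}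
    (hx : x ≠ 0) : SS d b N x x = sig d b N x := by
  unfold SS sig
  rw [QN_self hd hb N hx, pow_two, pow_two]

theorem continuousAt_SS {d : ℕ} {b : Par d} (hb : Nondeg d b) (N : ℕ) {x y : ℂ × ℂ}
    (hx : x ≠ 0) (hy : y ≠ 0) :
    ContinuousAt (fun p : Par d × ((ℂ × ℂ) × (ℂ × ℂ)) => SS d p.1 N p.2.1 p.2.2) (b, (x, y)) := by
  have hm1 : Continuous (fun p : Par d × ((ℂ × ℂ) × (ℂ × ℂ)) => (F d p.1)^[N] p.2.1) :=
    (continuous_iter_joint d N).comp
      (continuous_fst.prodMk (continuous_fst.comp continuous_snd))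
  have hm2 : Continuous (fun p : Par d × ((ℂ × ℂ) × (ℂ × ℂ)) => (F d p.1)^[N] p.2.2) :=
    (continuous_iter_joint d N).comp
      (continuous_fst.prodMk (continuous_snd.comp continuous_snd))
  have h1 : Continuous (fun p : Par d × ((ℂ × ℂ) × (ℂ × ℂ)) =>
      ‖QN d p.1 N p.2.1 p.2.2‖ * (‖p.2.1‖ * ‖p.2.2‖)) :=
    (continuous_QN d N).norm.mul (by fun_prop)
  have h2 : Continuous (fun p : Par d × ((ℂ × ℂ) × (ℂ × ℂ)) =>
      ‖(F d p.1)^[N] p.2.1‖ * ‖(F d p.1)^[N] p.2.2‖) := hm1.norm.mul hm2.norm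
  unfold SS
  refine h1.continuousAt.div h2.continuousAt ?_
  exact mul_ne_zero (norm_ne_zero_iff.mpr (iter_ne_zero hb hx N))
    (norm_ne_zero_iff.mpr (iter_ne_zero hb hy N))

end HypRat
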