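import Pool.Agent.Lib.Hyp.Stmt20

/-!
Definitions for the space of rational maps (MP_47150b_an, second half of Q2; helper95).

`Par d` is the space of coefficient vectors of pairs of binary forms of degree `d`. The vector
`b` gives the homogeneous map `F d b : ℂ² → ℂ²`, hence the map `[x] ↦ [F d b x]` of the
projective line. `b` is nondegenerate when the two forms have no common zero; the nondegenerate
`b` form the cone over `Rat_d ⊆ ℙ^(2d+1)`.
-/

namespace HypRat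

open Filter Topology

/-- Coefficient vectors of pairs of binary forms of degree `d`. -/
abbrev Par (d : ℕ) := Fin ((d + 1) + (d + 1)) → ℂ

/-- The homogeneous map of `ℂ²`. -/
noncomputable def F (d : ℕ) (b : Par d) (x : ℂ × ℂ) : ℂ × ℂ :=
  (∑ j : Fin (d + 1), b (Fin.castAdd (d + 1) j) * (x.1 ^ (j : ℕ) * x.2 ^ (d - (j : ℕ))),
   ∑ j : Fin (d + 1), b (Fin.natAdd (d + 1) j) * (x.1 ^ (j : ℕ) * x.2 ^ (d - (j : ℕ))))

/-- The area form: `wedge x y = 0` iff `x`, `y` are proportional. -/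
def wedge (x y : ℂ × ℂ) : ℂ := x.1 * y.2 - x.2 * y.1

/-- A distance on the projective line (equivalent to the chordal distance). -/
noncomputable def chord (x y : ℂ × ℂ) : ℝ := ‖wedge x y‖ / (‖x‖ * ‖y‖)

/-- The two forms have no common zero: `b` represents a rational map of degree `d`. -/
def Nondeg (d : ℕ) (b : Par d) : Prop := ∀ x : ℂ × ℂ, F d b x = 0 → x = 0

/-- `[x]` is a critical point of `[F d b]`: the derivative of the map of the projective line
vanishes at `[x]`. -/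
def IsCrit (d : ℕ) (b : Par d) (x : ℂ × ℂ) : Prop :=
  x ≠ 0 ∧ ∀ v : ℂ × ℂ, wedge (F d b x) (fderiv ℂ (F d b) x v) = 0

/-- `[α]` is fixed by the `q`-th iterate, with multiplier `μ`, `|μ| < 1`. -/
def IsAttracting (d : ℕ) (b : Par d) (q : ℕ) (α : ℂ × ℂ) : Prop :=
  α ≠ 0 ∧ ∃ l μ : ℂ, (F d b)^[q] α = l • α ∧
    (∀ v : ℂ × ℂ, wedge α (fderiv ℂ ((F d b)^[q]) α v) = μ * l * wedge α v) ∧ ‖μ‖ < 1

/-- The orbit of `[x]` tends to an attracting cycle. -/
def TendsToCycle (d : ℕ) (b : Par d) (x : ℂ × ℂ) : Prop :=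
  ∃ q : ℕ, 1 ≤ q ∧ ∃ α : ℂ × ℂ, IsAttracting d b q α ∧
    Tendsto (fun k : ℕ => chord ((F d b)^[q * k] x) α) atTop (𝓝 0)

/-- The expanding (hyperbolic) maps: the cone over the expanding locus of `Rat_d`. -/
def ExpandingRat (d : ℕ) : Set (Par d) :=
  {b | Nondeg d b ∧ ∀ x, IsCrit d b x → TendsToCycle d b x}

/-- The holomorphic functions on `Ω` which are constant on the lines through `0`, i.e. the
holomorphic functions on the image of `Ω` in projective space. -/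
def InvHol {d : ℕ} (Ω : Set (Par d)) : Set (Par d → ℂ) :=
  {g | DifferentiableOn ℂ g Ω ∧ ∀ t : ℂ, t ≠ 0 → ∀ b ∈ Ω, t • b ∈ Ω → g (t • b) = g b}

/-- The image of the open cone `Ω` in projective space is a Stein manifold: holomorphically
convex, holomorphically separable, with local coordinates given by global functions. -/
def IsSteinQuotient {d : ℕ} (Ω : Set (Par d)) : Prop :=
  IsOpen Ω ∧ (∀ t : ℂ, t ≠ 0 → ∀ b ∈ Ω, t • b ∈ Ω) ∧
    (∀ K : Set (Par d), IsCompact K → K ⊆ Ω →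
      IsCompact {b | b ∈ Ω ∧ ‖b‖ = 1 ∧
        ∀ g ∈ InvHol Ω, ∀ M : ℝ, (∀ x ∈ K, ‖g x‖ ≤ M) → ‖g b‖ ≤ M}) ∧
    (∀ b ∈ Ω, ∀ b' ∈ Ω, (∀ g ∈ InvHol Ω, g b = g b') → ∃ t : ℂ, t ≠ 0 ∧ b' = t • b) ∧
    (∀ b ∈ Ω, ∀ v : Par d, (∀ g ∈ InvHol Ω, fderiv ℂ g b v = 0) → ∃ t : ℂ, v = t • b)

end HypRat
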