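import Pool.Agent.Lib.Hyp.Rat.Ref11

/-!
MP_47150b_an, rational convexity in the space of rational maps (helper25): the reference points
given by a dynatomic form `G` of prime period are not met by critical orbits of expanding maps,
and the tails of the critical orbits stay away from them.
-/

namespace HypRat

open Filter Topology

attribute [local irreducible] jac F jacN

/-- The second preimages of the zeros of the dynatomic form `G`. -/
def TG {d : ℕ} (G : Par d → ℂ × ℂ → ℂ) (b : Par d) : Set (ℂ × ℂ) :=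
  {y | y ≠ 0 ∧ G b ((F d b)^[2] y) = 0}

namespace Dyn25

open Ref11

theorem wedge_iter_eq_zero {d : ℕ} {b : Par d} {x y : ℂ × ℂ} (hx : x ≠ 0)
    (h : wedge x y = 0) (k : ℕ) : wedge ((F d b)^[k] x) ((F d b)^[k] y) = 0 := by
  obtain ⟨t, ht⟩ := exists_smul_of_wedge_eq_zero hx h
  rw [ht, iter_smul, wedge_smul_right, wedge_self, mul_zero]

theorem wedge_symm {x y : ℂ × ℂ} (h : wedge x y = 0) : wedge y x = 0 := by
  rw [wedge_swap, h, neg_zero]

theorem wedge_trans {x y z : ℂ × ℂ} (hx : x ≠ 0) (hy : y ≠ 0) (h1 : wedge x y = 0)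
    (h2 : wedge y z = 0) : wedge x z = 0 := by
  obtain ⟨t, ht⟩ := exists_smul_of_wedge_eq_zero hx h1
  obtain ⟨s, hs⟩ := exists_smul_of_wedge_eq_zero hy h2
  rw [hs, ht, wedge_smul_right, wedge_smul_right, wedge_self, mul_zero, mul_zero]

/-- A point fixed by the `q`-th iterate is fixed by the `(q * m)`-th. -/
theorem periodic_mul {d : ℕ} {b : Par d} (hb : Nondeg d b) {z : ℂ × ℂ} (hz : z ≠ 0) {q : ℕ}
    (h : wedge z ((F d b)^[q] z) = 0) (m : ℕ) : wedge z ((F d b)^[q * m] z) = 0 := by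
  induction m with
  | zero => simp [wedge_self]
  | succ m ih =>
    have h1 := wedge_iter_eq_zero (b := b) hz h (q * m)
    rw [← Function.iterate_add_apply] at h1
    have e : q * m + q = q * (m + 1) := by ring
    rw [e] at h1
    exact wedge_trans hz (iter_ne_zero hb hz _) ih h1

/-- If a cycle of period dividing `q` and an attracting cycle of period dividing `N` meet, and
`N`, `q` are coprime, the point is an attracting fixed point. -/
theorem isAttracting_of_meet {d : ℕ} (hd : 1 ≤ d) {b : Par d} (hb : Nondeg d b) {N q : ℕ}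
    (hN : 1 ≤ N) (hq : 1 ≤ q) (hNq : Nat.Coprime N q) {ga z : ℂ × ℂ}
    (hga : IsAttracting d b N ga) (hz : z ≠ 0) (hzq : wedge z ((F d b)^[q] z) = 0) {i j : ℕ}
    (hij : wedge ((F d b)^[i] z) ((F d b)^[j] ga) = 0) : IsAttracting d b 1 z := by
  have hga0 : ga ≠ 0 := hga.1
  have hgaN : wedge ga ((F d b)^[N] ga) = 0 := by
    obtain ⟨-, l, μ, hl, -⟩ := hga
    rw [hl, wedge_smul_right, wedge_self, mul_zero]
  have hne : ∀ k, (F d b)^[k] z ≠ 0 := fun k => iter_ne_zero hb hz k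
  have hneg : ∀ k, (F d b)^[k] ga ≠ 0 := fun k => iter_ne_zero hb hga0 k
  -- `z` is on the cycle of `ga`
  obtain ⟨s, hs⟩ : ∃ s, wedge z ((F d b)^[s] ga) = 0 := by
    obtain ⟨t, ht⟩ : ∃ t, q * i = t + i :=
      ⟨q * i - i, by have := Nat.le_mul_of_pos_left i hq; omega⟩
    refine ⟨t + j, ?_⟩
    have h1 := periodic_mul hb hz hzq i
    rw [ht, Function.iterate_add_apply] at h1
    have h2 := wedge_iter_eq_zero (b := b) (hne i) hij t
    rw [← Function.iterate_add_apply _ t j] at h2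
    refine wedge_trans hz ?_ h1 h2
    rw [← Function.iterate_add_apply]
    exact hne _
  -- `z` is fixed by the `N`-th iterate
  have hzN : wedge z ((F d b)^[N] z) = 0 := by
    have h1 := wedge_iter_eq_zero (b := b) hga0 hgaN s
    rw [← Function.iterate_add_apply] at h1
    have h2 := wedge_iter_eq_zero (b := b) hz hs N
    rw [← Function.iterate_add_apply, Nat.add_comm] at h2
    exact wedge_trans hz (hneg _) (wedge_trans hz (hneg _) hs h1) (wedge_symm h2)
  -- `z` is a fixed point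
  have hz1 : wedge z (F d b z) = 0 := by
    obtain ⟨u, v, huv⟩ : ∃ u v, N * u = 1 + q * v := by
      rcases Nat.lt_or_ge 1 q with h | h
      · obtain ⟨u, -, hu⟩ := Nat.exists_mul_mod_eq_one_of_coprime hNq h
        refine ⟨u, N * u / q, ?_⟩
        have := Nat.mod_add_div (N * u) q
        omega
      · refine ⟨1, N - 1, ?_⟩
        have : q = 1 := by omega
        subst this
        omega
    have h1 := periodic_mul hb hz hzN u
    rw [huv, Nat.add_comm, Function.iterate_add_apply, Function.iterate_one] at h1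
    have h2 := periodic_mul hb hz hzq v
    have h3 := wedge_iter_eq_zero (b := b) hz h2 1
    rw [← Function.iterate_add_apply, Nat.add_comm, Function.iterate_add_apply,
      Function.iterate_one] at h3
    have hne1 : (F d b)^[q * v] (F d b z) ≠ 0 := by
      have := hne (q * v + 1)
      rwa [Function.iterate_add_apply, Function.iterate_one] at this
    exact wedge_trans hz hne1 h1 (wedge_symm h3)
  -- `ga` is proportional to `z`
  have hgz : wedge ga z = 0 := by
    obtain ⟨t, ht⟩ : ∃ t, N * s = t + s :=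
      ⟨N * s - s, by have := Nat.le_mul_of_pos_left s hN; omega⟩
    have h1 := periodic_mul hb hga0 hgaN s
    rw [ht, Function.iterate_add_apply] at h1
    have h2 := wedge_iter_eq_zero (b := b) hz hs t
    have h3 := periodic_mul hb hz (q := 1) hz1 t
    rw [Nat.one_mul] at h3
    have h4 := wedge_trans hz (hne t) h3 h2
    refine wedge_trans hga0 ?_ h1 (wedge_symm h4)
    rw [← Function.iterate_add_apply]
    exact hneg _
  exact isAttracting_one_of hd hb hz hz1 hga hgz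

/-- The tail of a critical orbit stays away from a point outside of its limit cycle. -/
theorem sep_of_ne {d : ℕ} (hd : 1 ≤ d) {b0 : Par d} (hb : Nondeg d b0) {c0 : ℂ × ℂ}
    (hc0 : c0 ≠ 0) {q : ℕ} (hq : 1 ≤ q) {ga : ℂ × ℂ} (hga : IsAttracting d b0 q ga)
    (hlim : Tendsto (fun k : ℕ => chord ((F d b0)^[q * k] c0) ga) atTop (𝓝 0)) {y0 : ℂ × ℂ}
    (hy0 : y0 ≠ 0) (hne : ∀ j : ℕ, wedge ((F d b0)^[j] ga) y0 ≠ 0) :
    ∃ δ > 0, ∃ k0 : ℕ, ∀ᶠ p : Par d × ((ℂ × ℂ) × (ℂ × ℂ)) in 𝓝 (b0, (c0, y0)),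
      ∀ k, k0 ≤ k → δ ≤ chord ((F d p.1)^[k] p.2.1) p.2.2 := by
  have hη : ∀ j : ℕ, 0 < chord ((F d b0)^[j] ga) y0 := fun j =>
    lt_of_le_of_ne (chord_nonneg _ _)
      (fun h => hne j ((chord_eq_zero_iff11 (iter_ne_zero hb hga.1 j) hy0).1 h.symm))
  -- a common lower bound
  obtain ⟨η, hη0, hη1⟩ : ∃ η : ℝ, 0 < η ∧ ∀ j ∈ Finset.range q,
      η ≤ chord ((F d b0)^[j] ga) y0 := by
    have hne' : (Finset.range q).Nonempty := Finset.nonempty_range_iff.2 (by omega)
    refine ⟨(Finset.range q).inf' hne' fun j => chord ((F d b0)^[j] ga) y0, ?_,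
      fun j hj => Finset.inf'_le _ hj⟩
    rw [Finset.lt_inf'_iff]
    exact fun j _ => hη j
  have hunif : ∃ ε : ℝ, 0 < ε ∧ ∀ᶠ b in 𝓝 b0, ∀ j ∈ Finset.range q, ∀ x : ℂ × ℂ, x ≠ 0 →
      chord x ga ≤ ε → chord ((F d b)^[j] x) ((F d b0)^[j] ga) < η / 4 := by
    choose ε hε hε1 using fun j => chord_iter_near hb hga.1 j (η := η / 4) (by positivity)
    have hne' : (Finset.range q).Nonempty := Finset.nonempty_range_iff.2 (by omega)
    refine ⟨(Finset.range q).inf' hne' ε, ?_, ?_⟩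
    · rw [Finset.lt_inf'_iff]
      exact fun j _ => hε j
    · rw [Filter.eventually_all_finset]
      intro j hj
      filter_upwards [hε1 j] with b hb' x hx hch
      exact hb' x hx (hch.trans (Finset.inf'_le _ hj))
  obtain ⟨ε, hε, hε1⟩ := hunif
  obtain ⟨k0, hk0⟩ := local_trap hd hb hc0 hga hlim hε
  refine ⟨η / 2, by positivity, q * k0, ?_⟩
  have t1 : Tendsto (fun p : Par d × ((ℂ × ℂ) × (ℂ × ℂ)) => (p.1, p.2.1)) (𝓝 (b0, (c0, y0)))
      (𝓝 (b0, c0)) :=
    (continuous_fst.prodMk (continuous_fst.comp continuous_snd)).tendsto _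
  have t2 : Tendsto (fun p : Par d × ((ℂ × ℂ) × (ℂ × ℂ)) => p.2.2) (𝓝 (b0, (c0, y0)))
      (𝓝 y0) := (continuous_snd.comp continuous_snd).tendsto _
  have t3 : Tendsto (fun p : Par d × ((ℂ × ℂ) × (ℂ × ℂ)) => p.2.1) (𝓝 (b0, (c0, y0)))
      (𝓝 c0) := (continuous_fst.comp continuous_snd).tendsto _
  have t4 : Tendsto (fun p : Par d × ((ℂ × ℂ) × (ℂ × ℂ)) => p.1) (𝓝 (b0, (c0, y0)))
      (𝓝 b0) := continuous_fst.tendsto _
  have hy : ∀ᶠ y in 𝓝 y0, chord y y0 < η / 4 := by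
    have h := Ch.tendsto_chord (l := 𝓝 y0) (u := fun y => y) (v := fun _ => y0) tendsto_id
      tendsto_const_nhds hy0 hy0
    refine h.eventually (gt_mem_nhds ?_)
    simpa [chord, wedge_self] using hη0
  filter_upwards [t1.eventually hk0, t2.eventually hy, t4.eventually hε1,
    t3.eventually (isOpen_ne.mem_nhds hc0), t2.eventually (isOpen_ne.mem_nhds hy0),
    t4.eventually ((isOpen_nondeg d).mem_nhds hb)] with p hp1 hp2 hp3 hp4 hp5 hp6 k hk
  have h3 : k0 ≤ k / q := by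
    rw [Nat.le_div_iff_mul_le (by omega), mul_comm]; exact hk
  have hj : k % q ∈ Finset.range q := Finset.mem_range.2 (Nat.mod_lt _ (by omega))
  have h4 := hp1 (k / q) h3
  have hx0 : (F d p.1)^[q * (k / q)] p.2.1 ≠ 0 := iter_ne_zero hp6 hp4 _
  have h5 := hp3 (k % q) hj _ hx0 h4
  rw [← Function.iterate_add_apply, Nat.mod_add_div] at h5
  have h6 := hη1 (k % q) hj
  have hx1 : (F d p.1)^[k] p.2.1 ≠ 0 := iter_ne_zero hp6 hp4 _
  have h7 := chord_triangle (iter_ne_zero hb hga.1 (k % q)) hx1 hy0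
  have h8 := chord_triangle hx1 hp5 hy0
  rw [chord_comm ((F d b0)^[k % q] ga) ((F d p.1)^[k] p.2.1)] at h7
  linarith

end Dyn25

open Ref11 Dyn25

variable {d : ℕ} {G : Par d → ℂ × ℂ → ℂ} {q : ℕ}

/-- The zeros of the dynatomic form are fixed by the `q`-th iterate. -/
theorem periodic_of_dyn (hG : ∀ b y, wedge ((F d b)^[q] y) y = wedge (F d b y) y * G b y)
    {b : Par d} {z : ℂ × ℂ} (hz : G b z = 0) : wedge z ((F d b)^[q] z) = 0 := by
  rw [wedge_swap, hG, hz, mul_zero, neg_zero]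

/-- The limit cycles of critical orbits do not meet the reference points. -/
theorem cycle_TG (hd : 1 ≤ d) (hq : 1 ≤ q)
    (hG : ∀ b y, wedge ((F d b)^[q] y) y = wedge (F d b y) y * G b y)
    (hG0 : ∀ b z, Nondeg d b → IsAttracting d b 1 z → G b z ≠ 0)
    {b0 : Par d} (hb : Nondeg d b0) {N : ℕ} (hN : 1 ≤ N) (hNq : Nat.Coprime N q) {ga : ℂ × ℂ}
    (hga : IsAttracting d b0 N ga) {y0 : ℂ × ℂ} (hy0 : y0 ∈ TG G b0) (j : ℕ) :
    wedge ((F d b0)^[j] ga) y0 ≠ 0 := by
  intro h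
  obtain ⟨hy00, hy1⟩ := hy0
  refine hG0 b0 _ hb ?_ hy1
  have h1 := wedge_iter_eq_zero (b := b0) (iter_ne_zero hb hga.1 j) h 2
  rw [← Function.iterate_add_apply] at h1
  exact isAttracting_of_meet hd hb hN hq hNq hga (iter_ne_zero hb hy00 2)
    (periodic_of_dyn hG hy1) (i := 0) (j := 2 + j) (wedge_symm h1)

/-- **never.** Critical orbits do not meet the reference points. -/
theorem never_TG (hd : 1 ≤ d) (hq : 1 ≤ q)
    (hG : ∀ b y, wedge ((F d b)^[q] y) y = wedge (F d b y) y * G b y)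
    (hG0 : ∀ b z, Nondeg d b → IsAttracting d b 1 z → G b z ≠ 0)
    {b0 : Par d} (hb : Nondeg d b0) {c0 : ℂ × ℂ} (hc0 : c0 ≠ 0) {N : ℕ} (hN : 1 ≤ N)
    (hNq : Nat.Coprime N q) {ga : ℂ × ℂ} (hga : IsAttracting d b0 N ga)
    (hlim : Tendsto (fun k : ℕ => chord ((F d b0)^[N * k] c0) ga) atTop (𝓝 0)) {y0 : ℂ × ℂ}
    (hy0 : y0 ∈ TG G b0) (k : ℕ) : wedge ((F d b0)^[k] c0) y0 ≠ 0 := by
  intro h
  obtain ⟨hy00, hy1⟩ := hy0
  refine hG0 b0 _ hb ?_ hy1
  set z := (F d b0)^[2] y0 with hz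
  have hz0 : z ≠ 0 := iter_ne_zero hb hy00 2
  have hzq := periodic_of_dyn hG hy1
  -- the orbit of `c0` arrives at `z`
  have h1 := wedge_iter_eq_zero (b := b0) (iter_ne_zero hb hc0 k) h 2
  rw [← Function.iterate_add_apply] at h1
  have h2 : ∀ i, wedge ((F d b0)^[q * i + (2 + k)] c0) z = 0 := by
    intro i
    have h3 := wedge_iter_eq_zero (b := b0) (iter_ne_zero hb hc0 _) h1 (q * i)
    rw [← Function.iterate_add_apply, ← hz] at h3
    exact wedge_trans (iter_ne_zero hb hc0 _) (iter_ne_zero hb hz0 _) h3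
      (wedge_symm (periodic_mul hb hz0 hzq i))
  obtain ⟨r, hr⟩ : ∃ r, N * (2 + k) = r + (2 + k) :=
    ⟨N * (2 + k) - (2 + k), by have := Nat.le_mul_of_pos_left (2 + k) hN; omega⟩
  have h3 : ∀ i, wedge ((F d b0)^[N * (2 + k + q * i)] c0) ((F d b0)^[r] z) = 0 := by
    intro i
    have h4 := wedge_iter_eq_zero (b := b0) (iter_ne_zero hb hc0 _) (h2 (N * i)) r
    rw [← Function.iterate_add_apply] at h4
    have e : r + (q * (N * i) + (2 + k)) = N * (2 + k + q * i) := by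
      rw [Nat.mul_add N, hr]
      ring
    rwa [e] at h4
  have hrz : (F d b0)^[r] z ≠ 0 := iter_ne_zero hb hz0 r
  have h4 : chord ((F d b0)^[r] z) ga = 0 := by
    have h5 : Tendsto (fun i : ℕ => chord ((F d b0)^[N * (2 + k + q * i)] c0) ga) atTop (𝓝 0) := by
      refine hlim.comp (tendsto_atTop_mono (fun i => ?_) tendsto_id)
      have := Nat.le_mul_of_pos_left i hq
      simp only [id]
      omega
    refine tendsto_nhds_unique (tendsto_const_nhds.congr fun i => ?_) h5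
    obtain ⟨t, ht⟩ := exists_smul_of_wedge_eq_zero hrz (wedge_symm (h3 i))
    have ht0 : t ≠ 0 := by
      rintro rfl
      rw [zero_smul] at ht
      exact iter_ne_zero hb hc0 _ ht
    rw [ht, chord_smul_left ht0]
  exact isAttracting_of_meet hd hb hN hq hNq hga hz0 hzq (i := r) (j := 0)
    ((chord_eq_zero_iff11 hrz hga.1).1 h4)

/-- **sep.** The tails of the critical orbits stay away from the reference points. -/
theorem sep_TG (hd : 1 ≤ d) (hq : 1 ≤ q)
    (hG : ∀ b y, wedge ((F d b)^[q] y) y = wedge (F d b y) y * G b y)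
    (hG0 : ∀ b z, Nondeg d b → IsAttracting d b 1 z → G b z ≠ 0)
    {b0 : Par d} (hb : Nondeg d b0) {c0 : ℂ × ℂ} (hc0 : c0 ≠ 0) {N : ℕ} (hN : 1 ≤ N)
    (hNq : Nat.Coprime N q) {ga : ℂ × ℂ} (hga : IsAttracting d b0 N ga)
    (hlim : Tendsto (fun k : ℕ => chord ((F d b0)^[N * k] c0) ga) atTop (𝓝 0)) {y0 : ℂ × ℂ}
    (hy0 : y0 ∈ TG G b0) :
    ∃ δ > 0, ∃ k0 : ℕ, ∀ᶠ p : Par d × ((ℂ × ℂ) × (ℂ × ℂ)) in 𝓝 (b0, (c0, y0)),
      ∀ k, k0 ≤ k → δ ≤ chord ((F d p.1)^[k] p.2.1) p.2.2 :=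
  sep_of_ne hd hb hc0 hN hga hlim hy0.1 (cycle_TG hd hq hG hG0 hb hN hNq hga hy0)

end HypRat
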