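import Pool.Agent.Lib.Hyp.Rat.HP95

/-!
Elimination of projective variables by resultants (helper95; rational convexity of the expanding
locus of rational maps).
-/

namespace HypRat

open Polynomial

/-- The coefficients of a binary form of degree `D`, from its values. -/
noncomputable def cf95 (D : ℕ) (f : ℂ × ℂ → ℂ) : Fin (D + 1) → ℂ :=
  coef24 D (fun _ : Unit => f) ()

theorem form_cf95 {D : ℕ} {f : ℂ × ℂ → ℂ} (h : IsForm24 D f) (x : ℂ × ℂ) :
    f x = form D (cf95 D f) x :=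
  form_coef24 (A := fun _ : Unit => f) () h x

/-- The resultant of two forms of degrees `p`, `r`. -/
noncomputable def res95 (p r : ℕ) (f g : ℂ × ℂ → ℂ) : ℂ :=
  resultant (pl24 (cf95 (p * r) fun y => f y ^ r)) (pl24 (cf95 (p * r) fun y => g y ^ p))
    (p * r) (p * r)

theorem F_append (D : ℕ) (u v : Fin (D + 1) → ℂ) (y : ℂ × ℂ) :
    F D (Fin.append u v) y = (form D u y, form D v y) := by
  unfold F form
  simp only [Fin.append_left, Fin.append_right]

theorem res95_eq_zero {p r : ℕ} (hp : 1 ≤ p) (hr : 1 ≤ r) {f g : ℂ × ℂ → ℂ}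
    (hf : IsForm24 p f) (hg : IsForm24 r g) :
    res95 p r f g = 0 ↔ ∃ y : ℂ × ℂ, y ≠ 0 ∧ f y = 0 ∧ g y = 0 := by
  have hD : 1 ≤ p * r := Nat.mul_pos hp hr
  have hf' : IsForm24 (p * r) fun y => f y ^ r := by
    have := hf.pow r
    rwa [Nat.mul_comm] at this
  have hg' : IsForm24 (p * r) fun y => g y ^ p := hg.pow p
  set b : Par (p * r) := Fin.append (cf95 (p * r) fun y => f y ^ r)
    (cf95 (p * r) fun y => g y ^ p) with hb
  have e : res95 p r f g = Res (p * r) b := by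
    have e1 : (fun j : Fin (p * r + 1) => b (Fin.castAdd (p * r + 1) j)) =
        cf95 (p * r) fun y => f y ^ r := by
      funext j
      rw [hb, Fin.append_left]
    have e2 : (fun j : Fin (p * r + 1) => b (Fin.natAdd (p * r + 1) j)) =
        cf95 (p * r) fun y => g y ^ p := by
      funext j
      rw [hb, Fin.append_right]
    rw [Res_eq, e1, e2]
    rfl
  have hF : ∀ y, F (p * r) b y = (f y ^ r, g y ^ p) := by
    intro y
    rw [hb, F_append, ← form_cf95 hf' y, ← form_cf95 hg' y]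
  rw [e, ← not_iff_not, ← Ne, Res_ne_zero_iff _ hD]
  constructor
  · rintro h ⟨y, hy, h1, h2⟩
    apply hy
    apply h y
    rw [hF, h1, h2, zero_pow (by omega), zero_pow (by omega)]
    rfl
  · intro h y hy
    by_contra hne
    rw [hF, Prod.mk_eq_zero, pow_eq_zero_iff (by omega), pow_eq_zero_iff (by omega)] at hy
    exact h ⟨y, hne, hy.1, hy.2⟩

theorem GradedC.cf95 {E : Type*} {Q : ℕ → (E → ℂ) → Prop} (h : GradedC Q) {D m : ℕ}
    {A : E → ℂ × ℂ → ℂ} (hA : ∀ y, Q m (fun e => A e y)) (j : Fin (D + 1)) :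
    Q m (fun e => HypRat.cf95 D (A e) j) := by
  unfold HypRat.cf95 coef24
  simp only [Matrix.mulVec, dotProduct]
  exact h.sum _ fun i _ => h.smul _ (hA _)

/-- The resultant of two families of a graded class. -/
theorem GradedC.res95 {E : Type*} {Q : ℕ → (E → ℂ) → Prop} (h : GradedC Q) {p r m k : ℕ}
    {A B : E → ℂ × ℂ → ℂ} (hA : ∀ y, Q m (fun e => A e y)) (hB : ∀ y, Q k (fun e => B e y)) :
    Q (p * r * (p * k) + p * r * (r * m)) (fun e => HypRat.res95 p r (A e) (B e)) := by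
  unfold HypRat.res95 resultant
  simp only [Matrix.det_apply']
  refine h.sum _ fun σ _ => ?_
  refine h.smul _ ?_
  have hf : ∀ j, Q (r * m) (fun e => HypRat.cf95 (p * r) (fun y => A e y ^ r) j) := fun j =>
    h.cf95 (fun y => h.pow (hA y) r) j
  have hg : ∀ j, Q (p * k) (fun e => HypRat.cf95 (p * r) (fun y => B e y ^ p) j) := fun j =>
    h.cf95 (fun y => h.pow (hB y) p) j
  simp only [Fin.prod_univ_add]
  have h1 : ∀ i : Fin (p * r), Q (p * k) (fun e => sylvester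
      (pl24 (HypRat.cf95 (p * r) fun y => A e y ^ r)) (pl24 (HypRat.cf95 (p * r) fun y => B e y ^ p))
      (p * r) (p * r) (σ (Fin.castAdd (p * r) i)) (Fin.castAdd (p * r) i)) := by
    intro j
    unfold sylvester
    simp only [Matrix.of_apply, Fin.addCases_left]
    split_ifs with h1
    · have h2 : ((σ (Fin.castAdd (p * r) j) : Fin (p * r + p * r)) : ℕ) - (j : ℕ) < p * r + 1 := by
        have := h1.2; omega
      have e1 : ∀ e : E, (pl24 (HypRat.cf95 (p * r) fun y => B e y ^ p)).coeff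
          (((σ (Fin.castAdd (p * r) j) : Fin (p * r + p * r)) : ℕ) - (j : ℕ)) =
          HypRat.cf95 (p * r) (fun y => B e y ^ p) ⟨_, h2⟩ := fun e => pl24_coeff _ ⟨_, h2⟩
      simp only [e1]
      exact hg _
    · exact h.zero _
  have h2 : ∀ i : Fin (p * r), Q (r * m) (fun e => sylvester
      (pl24 (HypRat.cf95 (p * r) fun y => A e y ^ r)) (pl24 (HypRat.cf95 (p * r) fun y => B e y ^ p))
      (p * r) (p * r) (σ (Fin.natAdd (p * r) i)) (Fin.natAdd (p * r) i)) := by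
    intro j
    unfold sylvester
    simp only [Matrix.of_apply, Fin.addCases_right]
    split_ifs with h1
    · have h2 : ((σ (Fin.natAdd (p * r) j) : Fin (p * r + p * r)) : ℕ) - (j : ℕ) < p * r + 1 := by
        have := h1.2; omega
      have e1 : ∀ e : E, (pl24 (HypRat.cf95 (p * r) fun y => A e y ^ r)).coeff
          (((σ (Fin.natAdd (p * r) j) : Fin (p * r + p * r)) : ℕ) - (j : ℕ)) =
          HypRat.cf95 (p * r) (fun y => A e y ^ r) ⟨_, h2⟩ := fun e => pl24_coeff _ ⟨_, h2⟩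
      simp only [e1]
      exact hf _
    · exact h.zero _
  have h3 := h.prod Finset.univ (m := fun _ => p * k) fun i _ => h1 i
  have h4 := h.prod Finset.univ (m := fun _ => r * m) fun i _ => h2 i
  simp only [Finset.sum_const, Finset.card_univ, Fintype.card_fin, smul_eq_mul] at h3 h4
  exact h.mul h3 h4

/-- Elimination of three projective variables. -/
theorem elim3 {d : ℕ} {pJ pP r1 r2 r3 mJ mP mZ : ℕ} (hJ : 1 ≤ pJ) (hP : 1 ≤ pP) (hr1 : 1 ≤ r1)
    (hr2 : 1 ≤ r2) (hr3 : 1 ≤ r3) {J Ψ : Par d → ℂ × ℂ → ℂ}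
    {Z : Par d → ℂ × ℂ → ℂ × ℂ → ℂ × ℂ → ℂ}
    (J1 : ∀ b, IsForm24 pJ (J b)) (J2 : ∀ y, HP d mJ (fun b => J b y))
    (P1 : ∀ b, IsForm24 pP (Ψ b)) (P2 : ∀ y, HP d mP (fun b => Ψ b y))
    (Z1 : ∀ b α β, IsForm24 r1 (fun c => Z b c α β)) (Z2 : ∀ b c β, IsForm24 r2 (fun α => Z b c α β))
    (Z3 : ∀ b c α, IsForm24 r3 (fun β => Z b c α β)) (Z4 : ∀ c α β, HP d mZ (fun b => Z b c α β)) :
    ∃ (m : ℕ) (f : Par d → ℂ), HP d m f ∧ ∀ b, f b = 0 ↔ ∃ c α β : ℂ × ℂ, c ≠ 0 ∧ α ≠ 0 ∧ β ≠ 0 ∧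
      J b c = 0 ∧ Ψ b α = 0 ∧ Ψ b β = 0 ∧ Z b c α β = 0 := by
  -- elimination of `β`
  let R1 : Par d → ℂ × ℂ → ℂ × ℂ → ℂ := fun b c α => res95 pP r3 (Ψ b) (Z b c α)
  have hR1 : ∀ b c α, R1 b c α = 0 ↔ ∃ β : ℂ × ℂ, β ≠ 0 ∧ Ψ b β = 0 ∧ Z b c α β = 0 := fun b c α =>
    res95_eq_zero hP hr3 (P1 b) (Z3 b c α)
  have R1a : ∀ b c, IsForm24 (pP * r3 * (pP * r2) + pP * r3 * (r3 * 0)) (fun α => R1 b c α) :=
    fun b c => gradedC_form.res95 (A := fun _ : ℂ × ℂ => Ψ b) (B := fun α => Z b c α)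
      (fun y => gradedC_form.const _) fun y => Z2 b c y
  have R1c : ∀ b α, IsForm24 (pP * r3 * (pP * r1) + pP * r3 * (r3 * 0)) (fun c => R1 b c α) :=
    fun b α => gradedC_form.res95 (A := fun _ : ℂ × ℂ => Ψ b) (B := fun c => Z b c α)
      (fun y => gradedC_form.const _) fun y => Z1 b α y
  have R1b : ∀ c α, HP d (pP * r3 * (pP * mZ) + pP * r3 * (r3 * mP)) (fun b => R1 b c α) :=
    fun c α => (gradedC_HP d).res95 (A := fun b => Ψ b) (B := fun b => Z b c α) P2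
      fun y => Z4 c α y
  set s2 := pP * r3 * (pP * r2) + pP * r3 * (r3 * 0) with hs2
  set s1 := pP * r3 * (pP * r1) + pP * r3 * (r3 * 0) with hs1
  have hs2' : 1 ≤ s2 := by
    have : 1 ≤ pP * r3 * (pP * r2) := Nat.mul_pos (Nat.mul_pos hP hr3) (Nat.mul_pos hP hr2)
    omega
  have hs1' : 1 ≤ s1 := by
    have : 1 ≤ pP * r3 * (pP * r1) := Nat.mul_pos (Nat.mul_pos hP hr3) (Nat.mul_pos hP hr1)
    omega
  -- elimination of `α`
  let R2 : Par d → ℂ × ℂ → ℂ := fun b c => res95 pP s2 (Ψ b) (R1 b c)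
  have hR2 : ∀ b c, R2 b c = 0 ↔ ∃ α : ℂ × ℂ, α ≠ 0 ∧ Ψ b α = 0 ∧ R1 b c α = 0 := fun b c =>
    res95_eq_zero hP hs2' (P1 b) (R1a b c)
  have R2c : ∀ b, IsForm24 (pP * s2 * (pP * s1) + pP * s2 * (s2 * 0)) (fun c => R2 b c) :=
    fun b => gradedC_form.res95 (A := fun _ : ℂ × ℂ => Ψ b) (B := fun c => R1 b c)
      (fun y => gradedC_form.const _) fun y => R1c b y
  have R2b : ∀ c, HP d (pP * s2 * (pP * (pP * r3 * (pP * mZ) + pP * r3 * (r3 * mP))) +
      pP * s2 * (s2 * mP)) (fun b => R2 b c) :=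
    fun c => (gradedC_HP d).res95 (A := fun b => Ψ b) (B := fun b => R1 b c) P2
      fun y => R1b c y
  set s := pP * s2 * (pP * s1) + pP * s2 * (s2 * 0) with hs
  have hs' : 1 ≤ s := by
    have : 1 ≤ pP * s2 * (pP * s1) := Nat.mul_pos (Nat.mul_pos hP hs2') (Nat.mul_pos hP hs1')
    omega
  -- elimination of `c`
  refine ⟨_, fun b => res95 pJ s (J b) (R2 b), (gradedC_HP d).res95 (A := fun b => J b)
    (B := fun b => R2 b) J2 R2b, fun b => ?_⟩
  rw [res95_eq_zero hJ hs' (J1 b) (R2c b)]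
  constructor
  · rintro ⟨c, hc, hJc, hR⟩
    obtain ⟨α, hα, h1, h2⟩ := (hR2 b c).mp hR
    obtain ⟨β, hβ, h3, h4⟩ := (hR1 b c α).mp h2
    exact ⟨c, α, β, hc, hα, hβ, hJc, h1, h3, h4⟩
  · rintro ⟨c, α, β, hc, hα, hβ, hJc, h1, h3, h4⟩
    exact ⟨c, hc, hJc, (hR2 b c).mpr ⟨α, hα, h1, (hR1 b c α).mpr ⟨β, hβ, h3, h4⟩⟩⟩

end HypRat
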