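import Pool.Agent.Lib.Hyp.Rat.TrFun11
import Pool.Agent.Lib.Hyp.Rat.Loc25
import Pool.Agent.Lib.Hyp.Rat.Inv95

/-!
MP_47150b_an, rational convexity in Rat_d (helper24): the bounds for the algebraic functions of
the trace form imply that the map is expanding.
-/

namespace HypRat

open Filter Topology

attribute [local irreducible] jac F jacN

theorem IsForm24.norm_le {D : ℕ} {f : ℂ × ℂ → ℂ} (hf : IsForm24 D f) :
    ∃ M : ℝ, 0 < M ∧ ∀ x, ‖f x‖ ≤ M * ‖x‖ ^ D := by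
  obtain ⟨a, ha⟩ := hf
  refine ⟨(∑ j, ‖a j‖) + 1, by positivity, fun x => ?_⟩
  rw [ha]
  unfold form
  have h1 : ‖x.1‖ ≤ ‖x‖ := norm_fst_le x
  have h2 : ‖x.2‖ ≤ ‖x‖ := norm_snd_le x
  calc ‖∑ j : Fin (D + 1), a j * (x.1 ^ (j : ℕ) * x.2 ^ (D - (j : ℕ)))‖
      ≤ ∑ j : Fin (D + 1), ‖a j * (x.1 ^ (j : ℕ) * x.2 ^ (D - (j : ℕ)))‖ := norm_sum_le _ _
    _ ≤ ∑ j : Fin (D + 1), ‖a j‖ * ‖x‖ ^ D := by
        refine Finset.sum_le_sum fun j _ => ?_
        rw [norm_mul, norm_mul, norm_pow, norm_pow]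
        refine mul_le_mul_of_nonneg_left ?_ (norm_nonneg _)
        have hj : (j : ℕ) ≤ D := Nat.lt_succ_iff.1 j.2
        calc ‖x.1‖ ^ (j : ℕ) * ‖x.2‖ ^ (D - (j : ℕ))
            ≤ ‖x‖ ^ (j : ℕ) * ‖x‖ ^ (D - (j : ℕ)) :=
              mul_le_mul (pow_le_pow_left₀ (norm_nonneg _) h1 _)
                (pow_le_pow_left₀ (norm_nonneg _) h2 _) (by positivity) (by positivity)
          _ = ‖x‖ ^ D := by rw [← pow_add, Nat.add_sub_cancel' hj]
    _ = (∑ j, ‖a j‖) * ‖x‖ ^ D := by rw [Finset.sum_mul]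
    _ ≤ ((∑ j, ‖a j‖) + 1) * ‖x‖ ^ D := by
        have : 0 ≤ ‖x‖ ^ D := by positivity
        linarith

/-- products which decay exponentially, from every starting index, force the limit below `1` -/
theorem lt_one_of_prod24 {s : ℕ → ℝ} {l ρ : ℝ} {D : ℕ} (hD : 1 ≤ D)
    (hl : Tendsto s atTop (𝓝 l)) (h0 : 0 ≤ ρ) (h1 : ρ < 1)
    (h : ∀ i, ∃ C : ℝ, ∀ j, (∏ m ∈ Finset.range j, s (i + m)) ^ D ≤ C * ρ ^ j) : l < 1 := by
  by_contra hc
  rw [not_lt] at hc
  have hDr : (1 : ℝ) ≤ D := by exact_mod_cast hD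
  obtain ⟨e, he⟩ : ∃ e, e = (1 - ρ) / (2 * D) := ⟨_, rfl⟩
  have he0 : 0 < e := by rw [he]; exact div_pos (by linarith) (by linarith)
  have heD : (D : ℝ) * e = (1 - ρ) / 2 := by rw [he]; field_simp
  have he1 : e ≤ 1 / 2 := by nlinarith
  have hr : ρ < (1 - e) ^ D := by
    have h2 := one_add_mul_le_pow (show (-2 : ℝ) ≤ -e by linarith) D
    have h3 : 1 + (D : ℝ) * -e = 1 - (1 - ρ) / 2 := by rw [← heD]; ring
    rw [h3] at h2
    have h4 : (1 : ℝ) + -e = 1 - e := by ring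
    rw [h4] at h2
    linarith
  obtain ⟨q, hq⟩ : ∃ q, q = (1 - e) ^ D := ⟨_, rfl⟩
  rw [← hq] at hr
  have hq0 : 0 < q := by linarith
  obtain ⟨i, hi⟩ := eventually_atTop.1 (hl.eventually (lt_mem_nhds (show 1 - e < l by linarith)))
  obtain ⟨C, hC⟩ := h i
  have hle : ∀ j, q ^ j ≤ C * ρ ^ j := by
    intro j
    refine le_trans ?_ (hC j)
    rw [hq, ← pow_mul, mul_comm D j, pow_mul]
    refine pow_le_pow_left₀ (pow_nonneg (by linarith) j) ?_ D
    rw [← Finset.card_range j, ← Finset.prod_const, Finset.card_range]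
    refine Finset.prod_le_prod (fun _ _ => by linarith) fun m _ => (hi (i + m) (by omega)).le
  have hlim : Tendsto (fun j : ℕ => C * (ρ / q) ^ j) atTop (𝓝 (C * 0)) :=
    (tendsto_pow_atTop_nhds_zero_of_lt_one (by positivity) ((div_lt_one hq0).2 hr)).const_mul C
  rw [mul_zero] at hlim
  obtain ⟨j, hj⟩ := (hlim.eventually (gt_mem_nhds (zero_lt_one' ℝ))).exists
  have h5 := hle j
  have h6 : C * (ρ / q) ^ j * q ^ j = C * ρ ^ j := by
    rw [mul_assoc, ← mul_pow, div_mul_cancel₀ _ hq0.ne']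
  have h7 : C * (ρ / q) ^ j * q ^ j < 1 * q ^ j := mul_lt_mul_of_pos_right hj (by positivity)
  linarith

theorem sig_mul_prod24 {d : ℕ} {a : Par d} (ha : Nondeg d a) {N : ℕ} {c : ℂ × ℂ} (hc : c ≠ 0)
    (k j : ℕ) : sig d a (j * N) (orb d N k a c) =
      ∏ m ∈ Finset.range j, sig d a N (orb d N (k + m) a c) := by
  induction j with
  | zero =>
    have hne : ‖orb d N k a c‖ ≠ 0 := norm_ne_zero_iff.2 (orb_ne_zero ha hc N k)
    simp only [zero_mul, Finset.range_zero, Finset.prod_empty]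
    unfold sig
    rw [jacN_zero, Function.iterate_zero, id]
    field_simp
    simp
  | succ j ih =>
    rw [Finset.prod_range_succ, ← ih, add_mul, one_mul, sig_add ha _ _ (orb_ne_zero ha hc N k)]
    congr 2
    unfold orb
    rw [← Function.iterate_add_apply]
    congr 2
    ring

theorem end_rc {d : ℕ} (hd : 2 ≤ d) {a : Par d} (ha : Nondeg d a) {N : ℕ} (hN : 1 ≤ N) {k : ℕ}
    {C ρ : ℝ} (hC : 0 ≤ C) (h0 : 0 ≤ ρ) (h1 : ρ < 1)
    (h : ∀ c, IsCrit d a c → ∀ i j : ℕ, trN d N a (orb d N (k + i) a c) ≠ 0 ∧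
      ‖numR d N (k + i) a c / denR d N (k + i) a c‖ ≤ C * ρ ^ i ∧
      ‖numL d N (k + i) j a c / denL d N (k + i) j a c‖ ≤ C * ρ ^ j) : a ∈ ExpandingRat d := by
  have hd1 : 1 ≤ d := by omega
  refine ⟨ha, fun c hc => ?_⟩
  have hc0 : c ≠ 0 := hc.1
  obtain ⟨M, hM, hMle⟩ := (isForm24_trN hd1 N a).norm_le
  have hD : 1 ≤ d ^ N - 1 := by
    have h2 : 2 ^ 1 ≤ 2 ^ N := Nat.pow_le_pow_right (by omega) hN
    have h3 : 2 ^ N ≤ d ^ N := Nat.pow_le_pow_left hd N
    omega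
  generalize hDD : d ^ N - 1 = D at hD hMle
  have hE : 1 ≤ D * d := Nat.mul_pos hD (by omega)
  have hne : ∀ i, orb d N (k + i) a c ≠ 0 := fun i => orb_ne_zero ha hc0 N _
  have hnp : ∀ i, 0 < ‖orb d N (k + i) a c‖ := fun i => norm_pos_iff.2 (hne i)
  have hT0 : ∀ i, 0 < ‖trN d N a (orb d N (k + i) a c)‖ := fun i =>
    norm_pos_iff.2 (h c hc i 0).1
  -- the resultant
  have hR : 0 < ‖Res d a ^ (∑ i ∈ Finset.range N, d ^ i)‖ :=
    norm_pos_iff.2 (pow_ne_zero _ ((Res_ne_zero_iff d hd1 a).2 ha))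
  obtain ⟨R0, hR0⟩ : ∃ R0, R0 = ‖Res d a ^ (∑ i ∈ Finset.range N, d ^ i)‖ := ⟨_, rfl⟩
  rw [← hR0] at hR
  -- the chord estimate
  obtain ⟨B, hB⟩ : ∃ B, B = C * M ^ (2 * d) / R0 := ⟨_, rfl⟩
  have hB0 : 0 ≤ B := by rw [hB]; positivity
  have hch : ∀ i, chord (orb d N (k + i) a c) (orb d N (k + (i + 1)) a c) ^ (D * d) ≤
      B * ρ ^ i := by
    intro i
    have h2 := (h c hc i 0).2.1
    unfold numR denR at h2
    rw [norm_div, norm_mul, norm_pow (wedge _ _), ← hR0, norm_pow, norm_mul, hDD,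
      add_assoc k i 1, norm_wedge_eq (hne i) (hne (i + 1))] at h2
    have hx := hnp i
    have hy := hnp (i + 1)
    have hTx := hT0 i
    have hTy := hT0 (i + 1)
    have hTx' := hMle (orb d N (k + i) a c)
    have hTy' := hMle (orb d N (k + (i + 1)) a c)
    have hcn := Ch.chord_nonneg (orb d N (k + i) a c) (orb d N (k + (i + 1)) a c)
    generalize chord (orb d N (k + i) a c) (orb d N (k + (i + 1)) a c) = ch at *
    generalize ‖orb d N (k + i) a c‖ = x at *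
    generalize ‖orb d N (k + (i + 1)) a c‖ = y at *
    generalize ‖trN d N a (orb d N (k + i) a c)‖ = Tx at *
    generalize ‖trN d N a (orb d N (k + (i + 1)) a c)‖ = Ty at *
    rw [div_le_iff₀ (by positivity)] at h2
    have h3 : (Tx * Ty) ^ d ≤ M ^ (2 * d) * (x * y) ^ (D * d) := by
      have e : M ^ (2 * d) * (x * y) ^ (D * d) = ((M * x ^ D) * (M * y ^ D)) ^ d := by
        rw [pow_mul, pow_mul, ← mul_pow, mul_pow x y]
        congr 1
        ring
      rw [e]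
      exact pow_le_pow_left₀ (by positivity)
        (mul_le_mul hTx' hTy' hTy.le (by positivity)) d
    have h4 : R0 * (ch * (x * y)) ^ (D * d) ≤
        C * ρ ^ i * (M ^ (2 * d) * (x * y) ^ (D * d)) :=
      h2.trans (mul_le_mul_of_nonneg_left h3 (by positivity))
    rw [mul_pow] at h4
    have h5 : 0 < (x * y) ^ (D * d) := by positivity
    have h6 : R0 * ch ^ (D * d) ≤ C * ρ ^ i * M ^ (2 * d) := by
      refine le_of_mul_le_mul_right ?_ h5
      linarith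
    rw [hB, div_mul_eq_mul_div, le_div_iff₀ hR]
    linarith
  obtain ⟨ρ', hρ'⟩ : ∃ ρ' : ℝ, ρ' = ρ ^ (((D * d : ℕ) : ℝ)⁻¹) := ⟨_, rfl⟩
  obtain ⟨C', hC'⟩ : ∃ C' : ℝ, C' = B ^ (((D * d : ℕ) : ℝ)⁻¹) := ⟨_, rfl⟩
  have hρ'0 : 0 ≤ ρ' := by rw [hρ']; exact Real.rpow_nonneg h0 _
  have hC'0 : 0 ≤ C' := by rw [hC']; exact Real.rpow_nonneg hB0 _
  have hρ'p : ρ' ^ (D * d) = ρ := by
    rw [hρ']; exact Real.rpow_inv_natCast_pow h0 (by omega)
  have hC'p : C' ^ (D * d) = B := by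
    rw [hC']; exact Real.rpow_inv_natCast_pow hB0 (by omega)
  have hρ'1 : ρ' < 1 := by
    by_contra hcc
    rw [not_lt] at hcc
    have := one_le_pow₀ hcc (n := D * d)
    rw [hρ'p] at this
    linarith
  have hch' : ∀ i, 0 ≤ i → chord (orb d N (k + i) a c) (orb d N (k + (i + 1)) a c) ≤
      C' * ρ' ^ i := by
    intro i _
    refine le_of_pow_le_pow_left₀ (n := D * d) (by omega) (by positivity) ?_
    have e : (C' * ρ' ^ i) ^ (D * d) = B * ρ ^ i := by
      rw [mul_pow, hC'p, ← pow_mul, mul_comm i (D * d), pow_mul, hρ'p]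
    rw [e]
    exact hch i
  obtain ⟨γ, hγ1, -, hγt⟩ := Ch.exists_limit (x := fun i => orb d N (k + i) a c) hne hC'0 hρ'0
    hρ'1 (k0 := 0) hch'
  have hγ0 : γ ≠ 0 := by
    rintro rfl
    simp at hγ1
  obtain ⟨t, ht0, ht⟩ := Ch.exists_smul_tendsto hne hγ0 hγt
  have h2 := tendsto_iter (tendsto_const_nhds (x := a)) ht N
  have h3 := Ch.tendsto_chord h2 (tendsto_const_nhds (x := γ)) (iter_ne_zero ha hγ0 N) hγ0
  have h4 : (fun i => chord ((F d a)^[N] (t i • orb d N (k + i) a c)) γ) =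
      fun i => chord (orb d N (k + (i + 1)) a c) γ := by
    funext i
    rw [iter_smul, Ch.chord_smul_left (pow_ne_zero _ (ht0 i)), ← add_assoc, orb_succ]
  rw [h4] at h3
  have h5 : Tendsto (fun i => chord (orb d N (k + (i + 1)) a c) γ) atTop (𝓝 0) :=
    (tendsto_add_atTop_iff_nat (f := fun i => chord (orb d N (k + i) a c) γ) 1).mpr hγt
  have hw : wedge ((F d a)^[N] γ) γ = 0 :=
    (Ch.chord_eq_zero_iff (iter_ne_zero ha hγ0 N) hγ0).mp (tendsto_nhds_unique h3 h5)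
  have h6 : Tendsto (fun i => sig d a N (orb d N (k + i) a c)) atTop (𝓝 (sig d a N γ)) := by
    have h7 := tendsto_sig ha hγ0 (tendsto_const_nhds (x := a)) ht N
    refine h7.congr fun i => ?_
    exact sig_smul_right hd1 a N (ht0 i) _
  -- the multiplier
  have hs : sig d a N γ < 1 := by
    refine lt_one_of_prod24 hD h6 h0 h1 fun i => ?_
    refine ⟨C * M ^ 2 * (‖orb d N (k + i) a c‖ ^ D) ^ 2 /
      ‖trN d N a (orb d N (k + i) a c)‖ ^ 2, fun j => ?_⟩
    have e1 : ∏ m ∈ Finset.range j, sig d a N (orb d N (k + (i + m)) a c) =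
        sig d a (j * N) (orb d N (k + i) a c) := by
      rw [sig_mul_prod24 ha hc0 (k + i) j]
      refine Finset.prod_congr rfl fun m _ => ?_
      rw [add_assoc]
    rw [e1]
    have h7 := (h c hc i j).2.2
    unfold numL denL at h7
    rw [norm_div, norm_mul, norm_pow, norm_pow, norm_pow, hDD, add_assoc k i j] at h7
    have e2 : (F d a)^[j * N] (orb d N (k + i) a c) = orb d N (k + (i + j)) a c := by
      unfold orb
      rw [← Function.iterate_add_apply]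
      congr 2
      ring
    unfold sig
    rw [e2]
    have hx := hnp i
    have hy := hnp (i + j)
    have hTx := hT0 i
    have hTy := hT0 (i + j)
    have hTy' := hMle (orb d N (k + (i + j)) a c)
    have hJ := norm_nonneg (jacN d a (j * N) (orb d N (k + i) a c))
    generalize ‖jacN d a (j * N) (orb d N (k + i) a c)‖ = J at *
    generalize ‖orb d N (k + i) a c‖ = x at *
    generalize ‖orb d N (k + (i + j)) a c‖ = y at *
    generalize ‖trN d N a (orb d N (k + i) a c)‖ = Tx at *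
    generalize ‖trN d N a (orb d N (k + (i + j)) a c)‖ = Ty at *
    rw [div_le_iff₀ (by positivity)] at h7
    have h8 : Ty ^ 2 ≤ (M * y ^ D) ^ 2 := pow_le_pow_left₀ hTy.le hTy' 2
    have h9 : J ^ D * Tx ^ 2 ≤ C * ρ ^ j * (M * y ^ D) ^ 2 :=
      h7.trans (mul_le_mul_of_nonneg_left h8 (by positivity))
    have e3 : (J * x ^ 2 / y ^ 2) ^ D = J ^ D * (x ^ D) ^ 2 / (y ^ D) ^ 2 := by
      rw [div_pow, mul_pow, ← pow_mul, ← pow_mul, ← pow_mul, ← pow_mul, mul_comm 2 D]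
    rw [e3, div_mul_eq_mul_div, div_le_div_iff₀ (by positivity) (by positivity)]
    have h10 := mul_le_mul_of_nonneg_right h9 (show 0 ≤ (x ^ D) ^ 2 by positivity)
    linarith
  refine ⟨N, hN, γ, (isAttracting_iff_sig hd1 ha hγ0).2 ⟨hw, hs⟩, ?_⟩
  have h8 : Tendsto (fun m => chord (orb d N m a c) γ) atTop (𝓝 0) := by
    rw [← tendsto_add_atTop_iff_nat k]
    refine hγt.congr fun i => ?_
    rw [add_comm]
  refine h8.congr fun m => ?_
  unfold orb
  rw [Nat.mul_comm]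

end HypRat
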