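import Pool.Agent.Lib.Hyp.Rat.Psh39
import Pool.Agent.Lib.Hyp.Rat.CritSup25

/-!
Sub-mean value property of the critical suprema of `om` and `mu` along holomorphic discs
(MP_47150b_an, helper20, over Psh39 and CritSup25).
-/

namespace HypRat

open Filter Topology Metric

attribute [local irreducible] jac F jacN

theorem continuousAt_om' {d : ℕ} (hd : 2 ≤ d) {b : Par d} (hb : Nondeg d b) (N k : ℕ) :
    ∀ c, IsCrit d b c → ContinuousAt (fun p : Par d × (ℂ × ℂ) => om d N k p.1 p.2) (b, c) :=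
  fun _ hc => continuousAt_om hd N k hb hc.1

theorem continuousAt_mu' {d N : ℕ} (hd : 2 ≤ d) {b : Par d} (hb : b ∈ Conv d N) :
    ∀ c, IsCrit d b c → ContinuousAt (fun p : Par d × (ℂ × ℂ) => mu d N p.1 p.2) (b, c) :=
  fun _ hc => continuousAt_mu (by omega) hb hc

theorem critSup_om_nonneg {d : ℕ} (hd : 2 ≤ d) {b : Par d} (hb : Nondeg d b) (N k : ℕ) :
    0 ≤ critSup d (om d N k) b :=
  critSup_nonneg hd (continuousAt_om' hd hb N k) fun _ _ => om_nonneg _ _ _ _ _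

theorem critSup_mu_nonneg {d N : ℕ} (hd : 2 ≤ d) {b : Par d} (hb : b ∈ Conv d N) :
    0 ≤ critSup d (mu d N) b :=
  critSup_nonneg hd (continuousAt_mu' hd hb) fun _ hc => mu_nonneg (by omega) hb hc

theorem om_le_critSup {d : ℕ} (hd : 2 ≤ d) {b : Par d} (hb : Nondeg d b) (N k : ℕ)
    {c : ℂ × ℂ} (hc : IsCrit d b c) : om d N k b c ≤ critSup d (om d N k) b :=
  le_critSup (by omega) (continuousAt_om' hd hb N k)
    (fun _ hx _ hu => om_smul hd N k hb hx.1 hu) hc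

theorem mu_le_critSup {d N : ℕ} (hd : 2 ≤ d) {b : Par d} (hb : b ∈ Conv d N)
    {c : ℂ × ℂ} (hc : IsCrit d b c) : mu d N b c ≤ critSup d (mu d N) b :=
  le_critSup (by omega) (continuousAt_mu' hd hb)
    (fun x _ _ hu => mu_smul (by omega) N b x hu) hc

theorem om_submean {d : ℕ} (hd : 2 ≤ d) {N : ℕ} (hN : 1 ≤ N) (k : ℕ) {h : ℂ → Par d} {R : ℝ}
    (hR : 1 < R) (hh : DifferentiableOn ℂ h (ball 0 R))
    (hm : ∀ τ ∈ ball (0:ℂ) R, h τ ∈ Conv d N) {p : ℝ} (hp : 0 < p) :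
    critSup d (om d N k) (h 0) ^ p ≤
      Real.circleAverage (fun τ => critSup d (om d N k) (h τ) ^ p) 0 1 := by
  have hsub : closedBall (0:ℂ) 1 ⊆ ball 0 R := closedBall_subset_ball hR
  have h0 : (0:ℂ) ∈ ball (0:ℂ) R := mem_ball_self (by linarith)
  obtain ⟨c, -, hc, he⟩ := exists_eq_critSup hd (continuousAt_om' hd (hm 0 h0).1 N k)
  rw [← he]
  refine om_submean_aux hd (Sharp25.Conv_subset hN) hN k hR hh hm
    (u := fun τ => critSup d (om d N k) (h τ)) ?_ ?_ ?_ hp hc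
  · intro τ hτ
    have h1 := continuousAt_critSup hd (hm τ (hsub hτ)).1
      (continuousAt_om' hd (hm τ (hsub hτ)).1 N k)
    have h2 : ContinuousAt h τ := hh.continuousOn.continuousAt (isOpen_ball.mem_nhds (hsub hτ))
    exact (ContinuousAt.comp (g := critSup d (om d N k)) h1 h2).continuousWithinAt
  · intro τ hτ
    exact critSup_om_nonneg hd (hm τ (hsub hτ)).1 N k
  · intro τ hτ c hc
    exact om_le_critSup hd (hm τ (hsub hτ)).1 N k hc

theorem mu_submean {d : ℕ} (hd : 2 ≤ d) {N : ℕ} (hN : 1 ≤ N) {h : ℂ → Par d} {R : ℝ}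
    (hR : 1 < R) (hh : DifferentiableOn ℂ h (ball 0 R))
    (hm : ∀ τ ∈ ball (0:ℂ) R, h τ ∈ Conv d N) {p : ℝ} (hp : 0 < p) :
    critSup d (mu d N) (h 0) ^ p ≤
      Real.circleAverage (fun τ => critSup d (mu d N) (h τ) ^ p) 0 1 := by
  have hsub : closedBall (0:ℂ) 1 ⊆ ball 0 R := closedBall_subset_ball hR
  have h0 : (0:ℂ) ∈ ball (0:ℂ) R := mem_ball_self (by linarith)
  obtain ⟨c, -, hc, he⟩ := exists_eq_critSup hd (continuousAt_mu' hd (hm 0 h0))
  rw [← he]
  refine mu_submean_aux hd (Sharp25.Conv_subset hN) hN (le_refl (Conv d N)) hR hh hm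
    (u := fun τ => critSup d (mu d N) (h τ)) ?_ ?_ ?_ hp hc
  · intro τ hτ
    have h1 := continuousAt_critSup hd (hm τ (hsub hτ)).1
      (continuousAt_mu' hd (hm τ (hsub hτ)))
    have h2 : ContinuousAt h τ := hh.continuousOn.continuousAt (isOpen_ball.mem_nhds (hsub hτ))
    exact (ContinuousAt.comp (g := critSup d (mu d N)) h1 h2).continuousWithinAt
  · intro τ hτ c hc
    exact mu_le_critSup hd (hm τ (hsub hτ)) hc
  · intro τ hτ
    exact critSup_mu_nonneg hd (hm τ (hsub hτ))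

end HypRat
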