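import Pool.Agent.Lib.Hyp.Abs20
import Pool.Agent.Lib.Hyp.Rat.Close20
import Pool.Agent.Lib.Hyp.Rat.Sub20

/-!
Hyperconvexity of hyperbolic components in holomorphic families of rational maps
(MP_47150b_an, helper20; modules by helpers 11, 15, 24, 25, 32, 39, 95).
-/

namespace HypRat

open Filter Topology Metric Set Hyp20

attribute [local irreducible] jac F jacN

/-- The sharp estimate for all critical points at once. -/
theorem sharp_unif {d N : ℕ} (hd : 2 ≤ d) {b₀ : Par d} (hb : b₀ ∈ Conv d N) {t : ℝ} (ht : 0 < t)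
    (hmt : critSup d (mu d N) b₀ < t) : ∃ (k0 : ℕ) (C : ℝ), 0 ≤ C ∧
      ∀ᶠ b in 𝓝 b₀, ∀ c, IsCrit d b c → EstPt d b c N k0 C t := by
  have hd1 : 1 ≤ d := by omega
  have hK : IsCompact (sphere (0 : ℂ × ℂ) 1) := isCompact_sphere _ _
  have key : ∃ (k0 : ℕ) (C : ℝ), 0 ≤ C ∧ ∀ᶠ b in 𝓝 b₀, ∀ c ∈ sphere (0 : ℂ × ℂ) 1,
      IsCrit d b c → EstPt d b c N k0 C t := by
    refine hK.induction_on (p := fun s => ∃ (k0 : ℕ) (C : ℝ), 0 ≤ C ∧ ∀ᶠ b in 𝓝 b₀, ∀ c ∈ s,
      IsCrit d b c → EstPt d b c N k0 C t) ?_ ?_ ?_ ?_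
    · exact ⟨0, 0, le_rfl, by simp⟩
    · rintro s s' hss ⟨k0, C, hC, h⟩
      exact ⟨k0, C, hC, h.mono fun b hb c hc => hb c (hss hc)⟩
    · rintro s s' ⟨k0, C, hC, h⟩ ⟨k0', C', hC', h'⟩
      refine ⟨max k0 k0', max C C', hC.trans (le_max_left _ _), ?_⟩
      filter_upwards [h, h'] with b hb hb' c hc hcr
      rcases hc with hc | hc
      · exact (hb c hc hcr).mono (le_max_left _ _) hC (le_max_left _ _) ht.le le_rfl
      · exact (hb' c hc hcr).mono (le_max_right _ _) hC' (le_max_right _ _) ht.le le_rfl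
    · intro x hx
      have hx0 : x ≠ 0 := by
        rintro rfl
        simp at hx
      by_cases hcr : IsCrit d b₀ x
      · have hmx : mu d N b₀ x < t :=
          (le_critSup hd1 (continuousAt_mu' hd hb)
            (fun c _ u hu => mu_smul hd1 N b₀ c hu) hcr).trans_lt hmt
        obtain ⟨k0, C, hC, hev⟩ := sharp_est hd1 hb hcr ht hmx
        obtain ⟨A, hA, B, hB, hAB⟩ := mem_nhds_prod_iff.mp hev
        refine ⟨B, mem_nhdsWithin_of_mem_nhds hB, k0, C, hC, ?_⟩
        filter_upwards [hA] with b hbA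
        intro c hcB _
        have hm : ((b, c) : Par d × (ℂ × ℂ)) ∈ A ×ˢ B := mk_mem_prod hbA hcB
        have h3 := hAB hm
        exact h3
      · have hj : jac d b₀ x ≠ 0 := fun h0 => hcr ((isCrit_iff hd1).mpr ⟨hx0, h0⟩)
        have hev : ∀ᶠ p : Par d × (ℂ × ℂ) in 𝓝 (b₀, x), jac d p.1 p.2 ≠ 0 :=
          (continuous_jac_joint d).continuousAt.eventually_ne hj
        obtain ⟨A, hA, B, hB, hAB⟩ := mem_nhds_prod_iff.mp hev
        refine ⟨B, mem_nhdsWithin_of_mem_nhds hB, 0, 0, le_rfl, ?_⟩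
        filter_upwards [hA] with b hbA
        intro c hcB hcc
        have hm : ((b, c) : Par d × (ℂ × ℂ)) ∈ A ×ˢ B := mk_mem_prod hbA hcB
        have h3 := hAB hm
        exact absurd ((isCrit_iff hd1).mp hcc).2 h3
  obtain ⟨k0, C, hC, h⟩ := key
  refine ⟨k0, C, hC, ?_⟩
  filter_upwards [h] with b hb' c hc
  obtain ⟨u, hu, huc⟩ := exists_unit hc.1
  have h1 := hb' (u • c) (mem_sphere_zero_iff_norm.mpr huc) (isCrit_smul hd1 hu hc)
  have h2 := h1.smul hd1 (inv_ne_zero hu)
  rwa [smul_smul, inv_mul_cancel₀ hu, one_smul] at h2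

theorem critSup_om_le {d N k : ℕ} (hd : 2 ≤ d) {b : Par d} (hb : Nondeg d b) {A : ℝ}
    (h : ∀ c, IsCrit d b c → om d N k b c ≤ A) : critSup d (om d N k) b ≤ A := by
  obtain ⟨c, -, hc, he⟩ := exists_eq_critSup hd (continuousAt_om' hd hb N k)
  rw [← he]
  exact h c hc

/-- Sharp geometric decay of the critical suprema, locally uniformly. -/
theorem om_tail {d N : ℕ} (hd : 2 ≤ d) {b₀ : Par d} (hb : b₀ ∈ Conv d N) {t : ℝ} (ht : 0 < t)
    (hmt : critSup d (mu d N) b₀ < t) : ∃ (k0 : ℕ) (C : ℝ), 0 ≤ C ∧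
      ∀ᶠ b in 𝓝 b₀, ∀ k, k0 ≤ k → critSup d (om d N k) b ≤ C * t ^ k := by
  obtain ⟨k0, C, hC, hev⟩ := sharp_unif hd hb ht hmt
  obtain ⟨r, hr, hrb⟩ := Metric.isOpen_iff.mp (isOpen_nondeg d) b₀ hb.1
  have hKn : ∀ b ∈ closedBall b₀ (r / 2), Nondeg d b := fun b hb' =>
    hrb (closedBall_subset_ball (by linarith) hb')
  obtain ⟨E, hE, hom⟩ := om_chord hd (isCompact_closedBall b₀ (r / 2)) hKn
  have hE0 : 0 ≤ E := zero_le_one.trans hE
  refine ⟨k0, E * C, by positivity, ?_⟩
  filter_upwards [hev, closedBall_mem_nhds b₀ (half_pos hr)] with b hb1 hb2 k hk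
  refine critSup_om_le hd (hKn b hb2) fun c hc => ?_
  refine (hom b hb2 c hc.1 N k).1.trans ?_
  rw [mul_assoc]
  exact mul_le_mul_of_nonneg_left ((hb1 c hc) k hk).1 hE0

theorem exists_disc {m : ℕ} {W : Set (Fin m → ℂ)} (hW : IsOpen W) {a v : Fin m → ℂ}
    (h : ∀ τ : ℂ, ‖τ‖ ≤ 1 → a + τ • v ∈ W) :
    ∃ R : ℝ, 1 < R ∧ ∀ τ ∈ ball (0:ℂ) R, a + τ • v ∈ W := by
  have ho : IsOpen {τ : ℂ | a + τ • v ∈ W} :=
    hW.preimage (AbsHyp.continuous_disc a v)
  have hsub : closedBall (0:ℂ) 1 ⊆ {τ : ℂ | a + τ • v ∈ W} := fun τ hτ =>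
    h τ (by simpa using hτ)
  obtain ⟨δ, hδ, hδs⟩ := (isCompact_closedBall (0:ℂ) 1).exists_thickening_subset_open ho hsub
  rw [thickening_closedBall hδ zero_le_one] at hδs
  exact ⟨δ + 1, by linarith, fun τ hτ => hδs hτ⟩

/-- **Hyperconvexity in holomorphic families.** Let `φ : V → Par d` be a holomorphic family of
rational maps of degree `d`, `U` a hyperconvex set with closure in `V`, and `W ⊆ U` an open set of
expanding parameters, relatively closed in the expanding parameters of `U`, such that the critical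
orbits over `W` converge under one and the same iterate. Then `W` is hyperconvex. -/
theorem isHyperconvex_family {d m : ℕ} (hd : 2 ≤ d) {U V W : Set (Fin m → ℂ)} (hV : IsOpen V)
    (hU : IsHyperconvex U) (hUV : closure U ⊆ V) {φ : (Fin m → ℂ) → Par d}
    (hφ : DifferentiableOn ℂ φ V) (hnd : ∀ a ∈ V, Nondeg d (φ a)) (hW : IsOpen W) (hWU : W ⊆ U)
    {N : ℕ} (hN : 1 ≤ N) (hWN : ∀ a ∈ W, φ a ∈ Conv d N)
    (hcl : closure W ∩ {a | a ∈ U ∧ φ a ∈ ExpandingRat d} ⊆ W) : IsHyperconvex W := by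
  have hd1 : 1 ≤ d := by omega
  obtain ⟨hUo, hUb, ρ, ⟨hρc, hρs⟩, hρn, hρk⟩ := hU
  have hUV' : U ⊆ V := subset_closure.trans hUV
  have hWV : W ⊆ V := hWU.trans hUV'
  have hφc : ∀ a ∈ V, ContinuousAt φ a := fun a ha =>
    hφ.continuousOn.continuousAt (hV.mem_nhds ha)
  have hKc : IsCompact (φ '' closure U) :=
    hUb.isCompact_closure.image_of_continuousOn (hφ.continuousOn.mono hUV)
  obtain ⟨E, hE, hom⟩ := om_chord hd hKc (by
    rintro _ ⟨a, ha, rfl⟩
    exact hnd a (hUV ha))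
  have hE0 : 0 ≤ E := zero_le_one.trans hE
  have homU : ∀ a ∈ U, ∀ c : ℂ × ℂ, c ≠ 0 → ∀ N k : ℕ,
      om d N k (φ a) c ≤ E * chord (orb d N k (φ a) c) (orb d N (k + 1) (φ a) c) ∧
        chord (orb d N k (φ a) c) (orb d N (k + 1) (φ a) c) ≤ E * om d N k (φ a) c :=
    fun a ha => hom _ ⟨a, subset_closure ha, rfl⟩
  have key : AbsHyp W (fun k a => critSup d (om d N k) (φ a))
      (fun a => critSup d (mu d N) (φ a)) ρ (2 * E + 1) := by
    refine
      { op := hW, bdd := hUb.subset hWU, hM := by linarith, fcont := ?_, gcont := ?_,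
        rcont := hρc.mono hWU, fnn := ?_, gnn := ?_, glt := ?_, flt := ?_,
        rlt := fun a ha => hρn a (hWU ha), tail := ?_, fsub := ?_, gsub := ?_, rsub := ?_,
        clos := ?_ }
    · intro k a ha
      have h1 := continuousAt_critSup hd (hWN a ha).1 (continuousAt_om' hd (hWN a ha).1 N k)
      exact (h1.comp (hφc a (hWV ha))).continuousWithinAt
    · intro a ha
      have h1 := continuousAt_critSup hd (hWN a ha).1 (continuousAt_mu' hd (hWN a ha))
      exact (h1.comp (hφc a (hWV ha))).continuousWithinAt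
    · intro k a ha
      exact critSup_om_nonneg hd (hWN a ha).1 N k
    · intro a ha
      exact critSup_mu_nonneg hd (hWN a ha)
    · intro a ha
      obtain ⟨c, -, hc, he⟩ := exists_eq_critSup hd (continuousAt_mu' hd (hWN a ha))
      show critSup d (mu d N) (φ a) < 1
      rw [← he]
      exact mu_lt_one hd1 (hWN a ha) hc
    · intro k a ha
      refine (critSup_om_le hd (hWN a ha).1 (A := 2 * E) fun c hc => ?_).trans_lt (by linarith)
      refine (homU a (hWU ha) c hc.1 N k).1.trans ?_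
      have := mul_le_mul_of_nonneg_left (chord_le_two (orb d N k (φ a) c)
        (orb d N (k + 1) (φ a) c)) hE0
      linarith
    · intro a ha t hat ht
      obtain ⟨k0, C, hC, hev⟩ := om_tail hd (hWN a ha) ht hat
      exact ⟨k0, C, hC, (hφc a (hWV ha)).eventually hev⟩
    · intro k p hp a v hdisc
      obtain ⟨R, hR, hRW⟩ := exists_disc hW hdisc
      have h1 := om_submean hd hN k
        (h := fun τ : ℂ => φ (a + τ • v)) hR ?_ (fun τ hτ => hWN _ (hRW τ hτ)) hp
      · show critSup d (om d N k) (φ a) ^ p ≤ _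
        simpa using h1
      · exact hφ.comp (by fun_prop) fun τ hτ => hWV (hRW τ hτ)
    · intro a v hdisc
      obtain ⟨R, hR, hRW⟩ := exists_disc hW hdisc
      have h1 := mu_submean hd hN
        (h := fun τ : ℂ => φ (a + τ • v)) hR ?_ (fun τ hτ => hWN _ (hRW τ hτ)) one_pos
      · show critSup d (mu d N) (φ a) ≤ _
        simpa using h1
      · exact hφ.comp (by fun_prop) fun τ hτ => hWV (hRW τ hτ)
    · intro a v hdisc
      have ha : a ∈ W := by simpa using hdisc 0 (by simp)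
      exact hρs a (hWU ha) v fun τ hτ => hWU (hdisc τ hτ)
    · intro u b hu hlim t ht0 ht1 hf hg hr
      -- the limit lies in `U`
      have hbU : b ∈ U := by
        have hc := hρk (1 - t) (by linarith)
        have h1 : b ∈ {a | a ∈ U ∧ ρ a ≤ -(1 - t)} :=
          hc.isClosed.mem_of_tendsto hlim (Eventually.of_forall fun i =>
            ⟨hWU (hu i), by have := hr i; linarith⟩)
        exact h1.1
      have hbV : b ∈ V := hUV' hbU
      have hlim' : Tendsto (fun i => φ (u i)) atTop (𝓝 (φ b)) := (hφc b hbV).tendsto.comp hlim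
      have hEx : φ b ∈ ExpandingRat d := by
        refine closing hd1 (hnd b hbV) (fun j => (hWN _ (hu j)).1) hlim' hN
          (C := E * ((2 * E + 1) * t)) (t := t) ?_ ht0 ht1 ?_ ?_
        · positivity
        · intro j c hc k
          have hj := hWN _ (hu j)
          refine (homU (u j) (hWU (hu j)) c hc.1 N k).2.trans ?_
          have h1 : om d N k (φ (u j)) c ≤ (2 * E + 1) * t ^ (k + 1) :=
            (om_le_critSup hd hj.1 N k hc).trans (hf j k)
          calc E * om d N k (φ (u j)) c ≤ E * ((2 * E + 1) * t ^ (k + 1)) :=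
                mul_le_mul_of_nonneg_left h1 hE0
            _ = E * ((2 * E + 1) * t) * t ^ k := by rw [pow_succ]; ring
        · intro j c hc e he
          have hj := hWN _ (hu j)
          have h1 : mu d N (φ (u j)) c ≤ t := (mu_le_critSup hd hj hc).trans (hg j)
          have h2 := (tendsto_mu hd1 hj hc).eventually_le_const (lt_of_le_of_lt h1
            (by linarith : t < t + e))
          exact h2
      exact hcl ⟨mem_closure_of_tendsto hlim (Eventually.of_forall hu), hbU, hEx⟩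
  exact key.isHyperconvex

end HypRat
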