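import Pool.Agent.Lib.Hyp.Rat.Final95
import Pool.Agent.Lib.Hyp.ThmB39

/-!
Polynomials as rational maps (helper95, module TR): the affine map `iota` from the space of
monic centred polynomials to `Par n` pulls the expanding locus back to the expanding locus.
-/

namespace HypRat

open Filter Topology Hyp20

variable {n : ℕ}

/-- The pair of forms `(x^n + Σ a_i x^i y^(n-i), y^n)`. -/
noncomputable def iota (n : ℕ) (a : Fin (n - 1) → ℂ) : Par n :=
  Fin.append (fun j : Fin (n + 1) => (pol n a).coeff j)
    (fun j : Fin (n + 1) => if (j : ℕ) = 0 then 1 else 0)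

theorem iota_left (a : Fin (n - 1) → ℂ) (j : Fin (n + 1)) :
    iota n a (Fin.castAdd (n + 1) j) = (pol n a).coeff j := by
  unfold iota
  rw [Fin.append_left]

theorem iota_right (a : Fin (n - 1) → ℂ) (j : Fin (n + 1)) :
    iota n a (Fin.natAdd (n + 1) j) = if (j : ℕ) = 0 then 1 else 0 := by
  unfold iota
  rw [Fin.append_right]

theorem coeff_pol (a : Fin (n - 1) → ℂ) (j : ℕ) : (pol n a).coeff j =
    (if j = n then 1 else 0) + ∑ i : Fin (n - 1), if j = (i : ℕ) then a i else 0 := by
  unfold pol
  rw [Polynomial.coeff_add, Polynomial.coeff_X_pow, Polynomial.finsetSum_coeff]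
  congr 1
  refine Finset.sum_congr rfl fun i _ => ?_
  rw [Polynomial.coeff_C_mul, Polynomial.coeff_X_pow]
  split_ifs <;> simp

/-- `iota` is holomorphic. -/
theorem differentiable_iota (n : ℕ) : Differentiable ℂ (iota n) := by
  rw [differentiable_pi]
  intro j
  refine Fin.addCases (fun j => ?_) (fun j => ?_) j
  · simp only [iota_left, coeff_pol]
    refine (differentiable_const _).add (Differentiable.fun_sum fun i _ => ?_)
    split_ifs
    · exact differentiable_apply i
    · exact differentiable_const _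
  · simp only [iota_right]
    exact differentiable_const _

theorem F_iota_snd (a : Fin (n - 1) → ℂ) (x : ℂ × ℂ) : (F n (iota n a) x).2 = x.2 ^ n := by
  unfold F
  simp only [iota_right]
  rw [Finset.sum_eq_single (0 : Fin (n + 1))]
  · simp
  · intro j _ hj
    have : (j : ℕ) ≠ 0 := fun h => hj (Fin.ext h)
    rw [if_neg this, zero_mul]
  · intro h
    exact absurd (Finset.mem_univ _) h

theorem F_iota_fst (hn : 2 ≤ n) (a : Fin (n - 1) → ℂ) (z : ℂ) :
    (F n (iota n a) (z, 1)).1 = pmap n a z := by
  unfold F Hyp20.pmap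
  simp only [iota_left, one_pow, mul_one]
  rw [Polynomial.eval_eq_sum_range' (n := n + 1)]
  · rw [Finset.sum_range]
  · rw [natDegree_pol n hn a]
    exact Nat.lt_succ_self n

theorem F_iota (hn : 2 ≤ n) (a : Fin (n - 1) → ℂ) (z : ℂ) :
    F n (iota n a) (z, 1) = (pmap n a z, 1) := by
  ext
  · exact F_iota_fst hn a z
  · rw [F_iota_snd, one_pow]

theorem iter_iota (hn : 2 ≤ n) (a : Fin (n - 1) → ℂ) (k : ℕ) (z : ℂ) :
    (F n (iota n a))^[k] (z, 1) = ((pmap n a)^[k] z, 1) := by
  induction k with
  | zero => rfl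
  | succ k ih => rw [Function.iterate_succ_apply', ih, F_iota hn, Function.iterate_succ_apply']

theorem F_iota_inf (hn : 2 ≤ n) (a : Fin (n - 1) → ℂ) :
    F n (iota n a) (1, 0) = (1, 0) := by
  ext
  · unfold F
    simp only [iota_left, one_pow, one_mul]
    rw [Finset.sum_eq_single (Fin.last n)]
    · have h1 : (pol n a).coeff n = 1 := by
        rw [coeff_pol, if_pos rfl, Finset.sum_eq_zero, add_zero]
        intro i _
        rw [if_neg]
        have := i.2
        omega
      rw [Fin.val_last, h1, Nat.sub_self, pow_zero, mul_one]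
    · intro j _ hj
      have h1 : n - (j : ℕ) ≠ 0 := by
        have h2 := j.2
        have h3 : (j : ℕ) ≠ n := fun h => hj (Fin.ext (by rw [h, Fin.val_last]))
        omega
      rw [zero_pow h1, mul_zero]
    · intro h
      exact absurd (Finset.mem_univ _) h
  · rw [F_iota_snd]
    exact zero_pow (by omega)

theorem nondeg_iota (hn : 2 ≤ n) (a : Fin (n - 1) → ℂ) : Nondeg n (iota n a) := by
  intro x hx
  have h2 : x.2 = 0 := by
    have := congrArg Prod.snd hx
    rw [F_iota_snd] at this
    exact pow_eq_zero_iff (by omega) |>.mp this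
  have e : x = x.1 • ((1, 0) : ℂ × ℂ) := by
    ext
    · simp
    · simp [h2]
  have h1 := congrArg Prod.fst hx
  rw [e, F_smul, F_iota_inf hn] at h1
  simp only [Prod.smul_mk, smul_eq_mul, mul_one, Prod.fst_zero, mul_zero] at h1
  have h3 : x.1 = 0 := pow_eq_zero_iff (by omega) |>.mp h1
  ext
  · exact h3
  · exact h2

/-- The Jacobian in the chart. -/
theorem jac_iota (hn : 2 ≤ n) (a : Fin (n - 1) → ℂ) (z : ℂ) :
    jac n (iota n a) (z, 1) = (Polynomial.derivative (pol n a)).eval z := by
  unfold jac
  simp only [iota_left, iota_right, one_pow, mul_one]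
  have h1 : ∀ i : Fin (n + 1), (∑ j : Fin (n + 1), (pol n a).coeff i *
      (if (j : ℕ) = 0 then (1 : ℂ) else 0) * (((i : ℕ) : ℂ) - ((j : ℕ) : ℂ)) *
        z ^ ((i : ℕ) + (j : ℕ) - 1)) = (pol n a).coeff i * (i : ℕ) * z ^ ((i : ℕ) - 1) := by
    intro i
    rw [Finset.sum_eq_single (0 : Fin (n + 1))]
    · simp
    · intro j _ hj
      have : (j : ℕ) ≠ 0 := fun h => hj (Fin.ext h)
      rw [if_neg this]
      ring
    · intro h
      exact absurd (Finset.mem_univ _) h
  rw [Finset.sum_congr rfl fun i _ => h1 i]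
  have h2 : Polynomial.derivative (pol n a) = Polynomial.derivative
      (∑ i ∈ Finset.range (n + 1), Polynomial.C ((pol n a).coeff i) * Polynomial.X ^ i) := by
    congr 1
    exact Polynomial.as_sum_range_C_mul_X_pow' _ (by rw [natDegree_pol n hn a]; omega)
  rw [h2, Polynomial.derivative_sum, Polynomial.eval_finsetSum, Finset.sum_range]
  refine Finset.sum_congr rfl fun i _ => ?_
  rw [Polynomial.derivative_C_mul_X_pow]
  simp

/-- The Jacobian at infinity. -/
theorem jac_iota_inf (hn : 2 ≤ n) (a : Fin (n - 1) → ℂ) : jac n (iota n a) (1, 0) = 0 := by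
  unfold jac
  refine Finset.sum_eq_zero fun i _ => Finset.sum_eq_zero fun j _ => ?_
  rw [iota_right]
  by_cases hj : (j : ℕ) = 0
  · have h1 : 2 * n - 1 - ((i : ℕ) + (j : ℕ)) ≠ 0 := by
      have := i.2
      omega
    simp only
    rw [zero_pow h1]
    ring
  · rw [if_neg hj]
    ring

theorem jacN_iota (hn : 2 ≤ n) (a : Fin (n - 1) → ℂ) (N : ℕ) (z : ℂ) :
    jacN n (iota n a) N (z, 1) = deriv ((pmap n a)^[N]) z := by
  induction N with
  | zero => simp [jacN_zero]
  | succ N ih =>
    rw [jacN_succ, ih, iter_iota hn, jac_iota hn, Function.iterate_succ']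
    rw [deriv_comp z ((Hyp95.differentiable_pmap n a) _) ((Hyp95.differentiable_iter n a N) z),
      Hyp95.deriv_pmap]
    ring

theorem pair_ne_zero (z : ℂ) : ((z, 1) : ℂ × ℂ) ≠ 0 := by
  intro h
  have := congrArg Prod.snd h
  exact one_ne_zero this

/-- Attracting cycles in the chart. -/
theorem isAttracting_iota (hn : 2 ≤ n) (a : Fin (n - 1) → ℂ) (q : ℕ) (z : ℂ) :
    IsAttracting n (iota n a) q (z, 1) ↔
      (pmap n a)^[q] z = z ∧ ‖deriv ((pmap n a)^[q]) z‖ < 1 := by
  rw [isAttracting_iff_sig (by omega) (nondeg_iota hn a) (pair_ne_zero z), iter_iota hn]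
  have h1 : wedge ((pmap n a)^[q] z, 1) (z, 1) = (pmap n a)^[q] z - z := by
    simp [wedge]
  rw [h1, sub_eq_zero]
  refine and_congr_right fun h2 => ?_
  unfold sig
  rw [iter_iota hn, h2, jacN_iota hn]
  have h3 : ‖((z, 1) : ℂ × ℂ)‖ ^ 2 ≠ 0 := pow_ne_zero _ (norm_ne_zero_iff.mpr (pair_ne_zero z))
  rw [mul_div_assoc, div_self h3, mul_one]

theorem isCrit_iota (hn : 2 ≤ n) (a : Fin (n - 1) → ℂ) (z : ℂ) :
    IsCrit n (iota n a) (z, 1) ↔ IsCritical n a z := by
  rw [isCrit_iff (by omega), jac_iota hn]
  exact ⟨fun h => h.2, fun h => ⟨pair_ne_zero z, h⟩⟩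

theorem chord_pair (z w : ℂ) : chord (z, 1) (w, 1) = ‖z - w‖ / (max ‖z‖ 1 * max ‖w‖ 1) := by
  unfold chord wedge
  simp [Prod.norm_def]

theorem tendsto_chord_pair {u : ℕ → ℂ} {w : ℂ} :
    Tendsto (fun k => chord (u k, 1) (w, 1)) atTop (𝓝 0) ↔ Tendsto u atTop (𝓝 w) := by
  constructor
  · intro h
    -- `|u - w| (1 - chord A) ≤ chord A (|w| + 1)`
    set A : ℝ := max ‖w‖ 1 with hA
    have hA1 : 1 ≤ A := le_max_right _ _
    have h1 : ∀ᶠ k in atTop, chord (u k, 1) (w, 1) < 1 / (2 * A) :=
      h.eventually_lt_const (by positivity)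
    rw [tendsto_iff_norm_sub_tendsto_zero]
    have h2 : ∀ᶠ k in atTop, ‖u k - w‖ ≤ 2 * A * (‖w‖ + 1) * chord (u k, 1) (w, 1) := by
      filter_upwards [h1] with k hk
      have e := chord_pair (u k) w
      have hB : 0 < max ‖u k‖ 1 := lt_of_lt_of_le one_pos (le_max_right _ _)
      rw [← hA, eq_div_iff (by positivity)] at e
      have h3 : max ‖u k‖ 1 ≤ ‖u k - w‖ + (‖w‖ + 1) := by
        refine max_le ?_ ?_
        · have := norm_add_le (u k - w) w
          rw [sub_add_cancel] at this
          linarith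
        · have := norm_nonneg (u k - w)
          have := norm_nonneg w
          linarith
      have hc := chord_nonneg (u k, 1) (w, 1)
      have h4 : chord (u k, 1) (w, 1) * A ≤ 1 / 2 := by
        rw [lt_div_iff₀ (by positivity)] at hk
        linarith
      have h5 : ‖u k - w‖ ≤ chord (u k, 1) (w, 1) * A * (‖u k - w‖ + (‖w‖ + 1)) := by
        rw [← e]
        have : 0 ≤ chord (u k, 1) (w, 1) * A := by positivity
        nlinarith
      have h6 : 0 ≤ ‖u k - w‖ := norm_nonneg _
      nlinarith
    have h3 : Tendsto (fun k => 2 * A * (‖w‖ + 1) * chord (u k, 1) (w, 1)) atTop (𝓝 0) := by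
      simpa using h.const_mul (2 * A * (‖w‖ + 1))
    exact squeeze_zero' (Eventually.of_forall fun k => norm_nonneg _) h2 h3
  · intro h
    have h1 : Tendsto (fun k => ‖u k - w‖) atTop (𝓝 0) :=
      tendsto_iff_norm_sub_tendsto_zero.mp h
    refine squeeze_zero (fun k => chord_nonneg _ _) (fun k => ?_) h1
    rw [chord_pair]
    refine div_le_self (norm_nonneg _) ?_
    have h2 : 1 ≤ max ‖u k‖ 1 := le_max_right _ _
    have h3 : 1 ≤ max ‖w‖ 1 := le_max_right _ _
    nlinarith

theorem chord_inf (z : ℂ) : chord (z, 1) (1, 0) = 1 / max ‖z‖ 1 := by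
  unfold chord wedge
  simp [Prod.norm_def]

/-- **Transfer.** -/
theorem mem_expandingRat_iota (hn : 2 ≤ n) (a : Fin (n - 1) → ℂ) :
    iota n a ∈ ExpandingRat n ↔ a ∈ Expanding n := by
  have hn1 : 1 ≤ n := by omega
  have hND := nondeg_iota hn a
  constructor
  · rintro ⟨-, h⟩ c hc
    obtain ⟨q, hq, α, hα, hlim⟩ := h (c, 1) ((isCrit_iota hn a c).mpr hc)
    simp only [iter_iota hn] at hlim
    by_cases h2 : α.2 = 0
    · right
      have hα1 : α.1 ≠ 0 := by
        intro h1
        exact hα.1 (Prod.ext h1 h2)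
      have e : α = α.1 • ((1, 0) : ℂ × ℂ) := by
        ext
        · simp
        · simp [h2]
      rw [e] at hlim
      simp only [chord_smul_right hα1, chord_inf] at hlim
      apply escapes_of_unbounded hn
      intro B
      have h3 : ∀ᶠ k in atTop, 1 / max ‖(pmap n a)^[q * k] c‖ 1 < 1 / (|B| + 1) :=
        hlim.eventually_lt_const (by positivity)
      obtain ⟨k, hk⟩ := h3.exists
      refine ⟨q * k, ?_⟩
      rw [one_div_lt_one_div (lt_of_lt_of_le one_pos (le_max_right _ _)) (by positivity)] at hk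
      have h4 := le_abs_self B
      rcases lt_max_iff.mp hk with h5 | h5
      · linarith
      · have := abs_nonneg B
        linarith
    · left
      have e : α = α.2 • ((α.1 / α.2, 1) : ℂ × ℂ) := by
        ext
        · simp [mul_div_cancel₀ _ h2]
        · simp
      have h3 : IsAttracting n (iota n a) q (α.1 / α.2, 1) := by
        rw [isAttracting_iff_sig hn1 hND hα.1] at hα
        rw [isAttracting_iff_sig hn1 hND (pair_ne_zero _)]
        obtain ⟨h4, h5⟩ := hα
        rw [e] at h4 h5
        rw [iter_smul, wedge_smul_left, wedge_smul_right] at h4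
        rw [Ref11.sig_smul' hn1 _ q h2] at h5
        refine ⟨?_, h5⟩
        rcases mul_eq_zero.mp h4 with h6 | h6
        · exact absurd h6 (pow_ne_zero _ h2)
        · exact (mul_eq_zero.mp h6).resolve_left h2
      obtain ⟨h4, h5⟩ := (isAttracting_iota hn a q _).mp h3
      refine ⟨q, hq, α.1 / α.2, h4, h5, ?_⟩
      rw [e] at hlim
      simp only [chord_smul_right h2] at hlim
      exact tendsto_chord_pair.mp hlim
  · intro h
    refine ⟨hND, ?_⟩
    intro x hx
    by_cases h2 : x.2 = 0
    · have hx1 : x.1 ≠ 0 := by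
        intro h1
        exact hx.1 (Prod.ext h1 h2)
      have e : x = x.1 • ((1, 0) : ℂ × ℂ) := by
        ext
        · simp
        · simp [h2]
      have h10 : ((1, 0) : ℂ × ℂ) ≠ 0 := by
        intro h
        exact one_ne_zero (congrArg Prod.fst h)
      have hit : ∀ k : ℕ, (F n (iota n a))^[k] (1, 0) = (1, 0) := by
        intro k
        induction k with
        | zero => rfl
        | succ k ih => rw [Function.iterate_succ_apply', ih, F_iota_inf hn]
      refine ⟨1, le_rfl, (1, 0), ?_, ?_⟩
      · rw [isAttracting_iff_sig hn1 hND h10]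
        constructor
        · rw [hit, wedge_self]
        · unfold sig
          rw [jacN_succ, Function.iterate_zero, id, jac_iota_inf hn]
          simp
      · refine tendsto_const_nhds.congr fun k => ?_
        rw [e, iter_smul, hit, chord_smul_left (pow_ne_zero _ hx1)]
        simp [chord, wedge_self]
    · obtain ⟨s, z, hs, rfl⟩ : ∃ (s z : ℂ), s ≠ 0 ∧ x = s • ((z, 1) : ℂ × ℂ) := by
        refine ⟨x.2, x.1 / x.2, h2, ?_⟩
        ext
        · simp [mul_div_cancel₀ _ h2]
        · simp
      have hc : IsCrit n (iota n a) (z, 1) := by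
        have h3 := isCrit_smul_right hn1 hx (inv_ne_zero hs)
        rwa [smul_smul, inv_mul_cancel₀ hs, one_smul] at h3
      have hc' := (isCrit_iota hn a _).mp hc
      rcases h _ hc' with ⟨q, hq, w, h4, h5, h6⟩ | hE
      · refine ⟨q, hq, (w, 1), (isAttracting_iota hn a q w).mpr ⟨h4, h5⟩, ?_⟩
        have h7 := tendsto_chord_pair.mpr h6
        refine h7.congr fun k => ?_
        rw [iter_smul, iter_iota hn, chord_smul_left (pow_ne_zero _ hs)]
      · have hit : ∀ k : ℕ, (F n (iota n a))^[k] (1, 0) = (1, 0) := by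
          intro k
          induction k with
          | zero => rfl
          | succ k ih => rw [Function.iterate_succ_apply', ih, F_iota_inf hn]
        have h10 : ((1, 0) : ℂ × ℂ) ≠ 0 := by
          intro h
          exact one_ne_zero (congrArg Prod.fst h)
        refine ⟨1, le_rfl, (1, 0), ?_, ?_⟩
        · rw [isAttracting_iff_sig hn1 hND h10]
          constructor
          · rw [hit, wedge_self]
          · unfold sig
            rw [jacN_succ, Function.iterate_zero, id, jac_iota_inf hn]
            simp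
        · have h8 : Tendsto (fun k : ℕ => max ‖(Hyp20.pmap n a)^[k] z‖ 1) atTop atTop :=
            tendsto_atTop_mono (fun k => le_max_left _ _) hE
          have h7 : Tendsto (fun k : ℕ => (max ‖(Hyp20.pmap n a)^[k] z‖ 1)⁻¹) atTop (𝓝 0) :=
            tendsto_inv_atTop_zero.comp h8
          refine h7.congr fun k => ?_
          rw [one_mul, iter_smul, iter_iota hn, chord_smul_left (pow_ne_zero _ hs), chord_inf,
            one_div]

theorem expanding_eq_preimage (hn : 2 ≤ n) : Expanding n = iota n ⁻¹' ExpandingRat n := by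
  ext a
  exact (mem_expandingRat_iota hn a).symm

end HypRat
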