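import Pool.Agent.Lib.Hyp.Rat.Fam20
import Pool.Agent.Lib.Hyp.Rat.Trans95
import Pool.Agent.Lib.Hyp.Abs95

/-!
Pull-backs of hyperbolic components to hyperconvex parameter sets are hyperconvex
(MP_47150b_an, helper20).
-/

namespace HypRat

open Filter Topology Metric Set Hyp20

/-- A component of the expanding locus of `Rat_d` is locally hyperconvex: its pull-back to any
hyperconvex set `U`, relatively compact in a holomorphic family `φ : V → Rat_d`, is
hyperconvex. -/
theorem pullback_rat {d : ℕ} (hd : 2 ≤ d) (b₀ : Par d) {m : ℕ} {U V : Set (Fin m → ℂ)}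
    {φ : (Fin m → ℂ) → Par d} (hV : IsOpen V) (hφ : DifferentiableOn ℂ φ V)
    (hnd : ∀ a ∈ V, Nondeg d (φ a)) (hU : IsHyperconvex U) (hUV : closure U ⊆ V) :
    IsHyperconvex {a | a ∈ U ∧ φ a ∈ connectedComponentIn (ExpandingRat d) b₀} := by
  have hd1 : 1 ≤ d := by omega
  obtain ⟨N, hN, hNc⟩ := component_subset_conv hd b₀
  have hUV' : U ⊆ V := subset_closure.trans hUV
  have hΩo : IsOpen (connectedComponentIn (ExpandingRat d) b₀) :=
    (isOpen_expandingRat hd1).connectedComponentIn
  have hW : IsOpen {a | a ∈ U ∧ φ a ∈ connectedComponentIn (ExpandingRat d) b₀} :=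
    (hφ.continuousOn.mono hUV').isOpen_inter_preimage hU.1 hΩo
  refine isHyperconvex_family hd hV hU hUV hφ hnd hW (fun a ha => ha.1) hN
    (fun a ha => hNc ha.2) ?_
  rintro a ⟨ha, haU, haE⟩
  have hc : ContinuousAt φ a := hφ.continuousOn.continuousAt (hV.mem_nhds (hUV' haU))
  have h1 : φ a ∈ closure (connectedComponentIn (ExpandingRat d) b₀) :=
    hc.continuousWithinAt.mem_closure ha fun x hx => hx.2
  exact ⟨haU, component_relClosed b₀ ⟨h1, haE⟩⟩

/-- The same in the space of monic centred polynomials. -/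
theorem pullback_poly {n : ℕ} (hn : 2 ≤ n) (a₀ : Fin (n - 1) → ℂ) {m : ℕ}
    {U V : Set (Fin m → ℂ)} {φ : (Fin m → ℂ) → (Fin (n - 1) → ℂ)} (hV : IsOpen V)
    (hφ : DifferentiableOn ℂ φ V) (hU : IsHyperconvex U) (hUV : closure U ⊆ V) :
    IsHyperconvex {a | a ∈ U ∧ φ a ∈ connectedComponentIn (Expanding n) a₀} := by
  have hn1 : 1 ≤ n := by omega
  have hUV' : U ⊆ V := subset_closure.trans hUV
  have hΩo : IsOpen (connectedComponentIn (Expanding n) a₀) :=
    (isOpen_expanding hn).connectedComponentIn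
  have hW : IsOpen {a | a ∈ U ∧ φ a ∈ connectedComponentIn (Expanding n) a₀} :=
    (hφ.continuousOn.mono hUV').isOpen_inter_preimage hU.1 hΩo
  -- the common iterate
  obtain ⟨N, hN, hNc⟩ : ∃ N, 1 ≤ N ∧ ∀ x ∈ connectedComponentIn (Expanding n) a₀,
      iota n x ∈ Conv n N := by
    obtain ⟨N, hN, hNc⟩ := component_subset_conv hn (iota n a₀)
    refine ⟨N, hN, fun x hx => hNc ?_⟩
    have ha₀ : a₀ ∈ Expanding n := by
      by_contra hcon
      rw [connectedComponentIn_eq_empty hcon] at hx
      exact hx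
    have hpre : IsPreconnected (iota n '' connectedComponentIn (Expanding n) a₀) :=
      isPreconnected_connectedComponentIn.image _ (differentiable_iota n).continuous.continuousOn
    refine hpre.subset_connectedComponentIn ⟨a₀, mem_connectedComponentIn ha₀, rfl⟩ ?_
      ⟨x, hx, rfl⟩
    rintro _ ⟨y, hy, rfl⟩
    exact (mem_expandingRat_iota hn y).mpr (connectedComponentIn_subset _ _ hy)
  have hcomp : DifferentiableOn ℂ (fun a => iota n (φ a)) V :=
    (differentiable_iota n).differentiableOn.comp hφ (mapsTo_univ _ _)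
  refine isHyperconvex_family (φ := fun a => iota n (φ a)) hn hV hU hUV hcomp
    (fun a _ => nondeg_iota hn _) hW (fun a ha => ha.1) hN (fun a ha => hNc _ ha.2) ?_
  rintro a ⟨ha, haU, haE⟩
  have hc : ContinuousAt φ a := hφ.continuousOn.continuousAt (hV.mem_nhds (hUV' haU))
  have h1 : φ a ∈ closure (connectedComponentIn (Expanding n) a₀) :=
    hc.continuousWithinAt.mem_closure ha fun x hx => hx.2
  have haE' : φ a ∈ Expanding n := (mem_expandingRat_iota hn _).mp haE
  exact ⟨haU, component_relClosed a₀ ⟨h1, haE'⟩⟩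

/-- Balls (polydiscs, in the sup norm) are hyperconvex. -/
theorem isHyperconvex_ball {m : ℕ} (c : Fin m → ℂ) (r : ℝ) : IsHyperconvex (ball c r) := by
  refine ⟨isOpen_ball, isBounded_ball, fun a => ‖a - c‖ - r, ⟨by fun_prop, ?_⟩, ?_, ?_⟩
  · intro a _ v _
    have h1 := Hyp95.Abs.norm_psh a v c
    have hint : CircleIntegrable (fun τ : ℂ => ‖a + τ • v - c‖) 0 1 := by
      apply ContinuousOn.circleIntegrable'
      fun_prop
    rw [Real.circleAverage_fun_sub hint (circleIntegrable_const _ _ _),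
      Real.circleAverage_const]
    linarith
  · intro a ha
    rw [mem_ball, dist_eq_norm] at ha
    linarith
  · intro ε hε
    have : {a | a ∈ ball c r ∧ ‖a - c‖ - r ≤ -ε} = closedBall c (r - ε) := by
      ext a
      simp only [mem_ofPred_eq, mem_ball, mem_closedBall, dist_eq_norm]
      constructor
      · rintro ⟨-, h⟩; linarith
      · intro h; exact ⟨by linarith, by linarith⟩
    rw [this]
    exact isCompact_closedBall _ _

/-- The definition used in the hand-in: every pull-back of `Ω` to a hyperconvex set is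
hyperconvex. `X` is the ambient space. -/
def PullbackHyperconvex {k : ℕ} (X Ω : Set (Fin k → ℂ)) : Prop :=
  ∀ (m : ℕ) (V U : Set (Fin m → ℂ)) (φ : (Fin m → ℂ) → (Fin k → ℂ)), IsOpen V →
    DifferentiableOn ℂ φ V → (∀ a ∈ V, φ a ∈ X) → IsHyperconvex U → closure U ⊆ V →
      IsHyperconvex {a | a ∈ U ∧ φ a ∈ Ω}

theorem pullbackHyperconvex_rat {d : ℕ} (hd : 2 ≤ d) (b₀ : Par d) :
    PullbackHyperconvex {b | Nondeg d b} (connectedComponentIn (ExpandingRat d) b₀) :=
  fun _ _ _ _ hV hφ hnd hU hUV => pullback_rat hd b₀ hV hφ hnd hU hUV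

theorem pullbackHyperconvex_poly {n : ℕ} (hn : 2 ≤ n) (a₀ : Fin (n - 1) → ℂ) :
    PullbackHyperconvex univ (connectedComponentIn (Expanding n) a₀) :=
  fun _ _ _ _ hV hφ _ hU hUV => pullback_poly hn a₀ hV hφ hU hUV

end HypRat
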