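import Pool.Agent.Lib.Hyp.Rat.TrFun11
import Pool.Agent.Lib.Hyp.Rat.Loc25

/-!
Uniform bounds for the functions `numR / denR` and `numL / denL` on compact sets of expanding
maps (helper11).
-/

namespace HypRat

open Filter Topology

attribute [local irreducible] jac F jacN trN

theorem form_smul11 {D : ℕ} {f : ℂ × ℂ → ℂ} (hf : IsForm24 D f) (t : ℂ) (x : ℂ × ℂ) :
    f (t • x) = t ^ D * f x := by
  obtain ⟨a, ha⟩ := hf
  rw [ha, ha]
  unfold form
  rw [Finset.mul_sum]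
  refine Finset.sum_congr rfl fun j _ => ?_
  have hj : (j : ℕ) ≤ D := Nat.lt_succ_iff.mp j.2
  have e : t ^ D = t ^ (j : ℕ) * t ^ (D - (j : ℕ)) := by
    rw [← pow_add]; congr 1; omega
  simp only [Prod.smul_fst, Prod.smul_snd, smul_eq_mul, mul_pow]
  rw [e]
  ring

/-- The unit vector. -/
theorem unit11 {x : ℂ × ℂ} (hx : x ≠ 0) : ‖((‖x‖ : ℂ))⁻¹ • x‖ = 1 := by
  rw [norm_smul, norm_inv, Complex.norm_real, norm_norm]
  exact inv_mul_cancel₀ (norm_ne_zero_iff.mpr hx)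

/-- Bounds for the norm of a form in terms of its values on the unit sphere. -/
theorem norm_form11 {D : ℕ} {f : ℂ × ℂ → ℂ} (hf : IsForm24 D f) {x : ℂ × ℂ} (hx : x ≠ 0) :
    ‖f x‖ = ‖f (((‖x‖ : ℂ))⁻¹ • x)‖ * ‖x‖ ^ D := by
  have hx' : ‖x‖ ≠ 0 := norm_ne_zero_iff.mpr hx
  rw [form_smul11 hf, norm_mul, norm_pow, norm_inv, Complex.norm_real, norm_norm, inv_pow,
    mul_comm (‖x‖ ^ D)⁻¹, mul_assoc, inv_mul_cancel₀ (pow_ne_zero _ hx'), mul_one]

/-- Near the attracting fixed points of the `N`-th iterate the trace is bounded from below. -/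
theorem lower11 {d : ℕ} (hd : 1 ≤ d) {K : Set (Par d)} (hK : IsCompact K)
    (hKn : ∀ b ∈ K, Nondeg d b) (N : ℕ) {ρ : ℝ} (hρ : ρ < 1) :
    ∃ δ > 0, ∀ b ∈ K, ∀ y : ℂ × ℂ, ‖y‖ = 1 → sig d b N y ≤ ρ →
      ‖wedge y ((F d b)^[N] y)‖ < δ → δ ≤ ‖trN d N b y‖ := by
  set S : Set (Par d × (ℂ × ℂ)) := K ×ˢ Metric.sphere (0 : ℂ × ℂ) 1 with hS
  have hSc : IsCompact S := hK.prod (isCompact_sphere _ _)
  have hmem : ∀ p ∈ S, Nondeg d p.1 ∧ p.2 ≠ 0 := by
    rintro ⟨b, y⟩ ⟨hb, hy⟩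
    refine ⟨hKn b hb, ?_⟩
    rintro rfl
    simp at hy
  set g : Par d × (ℂ × ℂ) → ℝ := fun p => max ‖trN d N p.1 p.2‖
    (max ‖wedge p.2 ((F d p.1)^[N] p.2)‖ (sig d p.1 N p.2 - ρ)) with hg
  have hiter := continuous_iter_joint d N
  have hgc : ContinuousOn g S := by
    have hmax : ∀ {u v : Par d × (ℂ × ℂ) → ℝ}, ContinuousOn u S → ContinuousOn v S →
        ContinuousOn (fun p => max (u p) (v p)) S := fun hu hv =>
      (continuous_fst.max continuous_snd).comp_continuousOn (hu.prodMk hv)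
    refine hmax (continuous_trN_joint d N).norm.continuousOn
      (hmax ?_ (ContinuousOn.sub ?_ continuousOn_const))
    · exact (continuous_wedge.comp (continuous_snd.prodMk hiter)).norm.continuousOn
    · unfold sig
      refine ContinuousOn.div ?_ ?_ ?_
      · exact ((continuous_jacN_joint d N).norm.mul
          ((continuous_snd.norm).pow 2)).continuousOn
      · exact (hiter.norm.pow 2).continuousOn
      · intro p hp
        obtain ⟨h1, h2⟩ := hmem p hp
        have := norm_ne_zero_iff.mpr (iter_ne_zero h1 h2 N)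
        exact pow_ne_zero _ this
  rcases S.eq_empty_or_nonempty with he | hne
  · refine ⟨1, one_pos, fun b hb y hy _ _ => ?_⟩
    have : (b, y) ∈ S := ⟨hb, mem_sphere_zero_iff_norm.mpr hy⟩
    rw [he] at this
    exact absurd this (Set.notMem_empty _)
  · obtain ⟨p, hp, hmin⟩ := hSc.exists_isMinOn hne hgc
    obtain ⟨h1, h2⟩ := hmem p hp
    have hpos : 0 < g p := by
      rw [hg]
      by_contra hcon
      push Not at hcon
      obtain ⟨a1, a2⟩ := max_le_iff.mp hcon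
      obtain ⟨a3, a4⟩ := max_le_iff.mp a2
      have b1 : trN d N p.1 p.2 = 0 := norm_le_zero_iff.mp a1
      have b2 : wedge p.2 ((F d p.1)^[N] p.2) = 0 := norm_le_zero_iff.mp a3
      exact trN_ne_zero hd h1 h2 b2 (by linarith) b1
    refine ⟨g p, hpos, fun b hb y hy hs hw => ?_⟩
    have hin : (b, y) ∈ S := ⟨hb, mem_sphere_zero_iff_norm.mpr hy⟩
    have h3 : g p ≤ g (b, y) := hmin hin
    have h4 : g (b, y) = max ‖trN d N b y‖
      (max ‖wedge y ((F d b)^[N] y)‖ (sig d b N y - ρ)) := rfl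
    rw [h4] at h3
    rcases le_max_iff.mp h3 with h5 | h5
    · exact h5
    · rcases le_max_iff.mp h5 with h6 | h6
      · linarith
      · linarith

theorem orb_add11 (d N k j : ℕ) (b : Par d) (c : ℂ × ℂ) :
    orb d N (k + j) b c = (F d b)^[j * N] (orb d N k b c) := by
  unfold orb
  rw [← Function.iterate_add_apply]
  congr 2
  ring

/-- The multiplicativity of `sig` along the orbit. -/
theorem sig_orb11 {d : ℕ} {b : Par d} (hb : Nondeg d b) {c : ℂ × ℂ} (hc : c ≠ 0) (N k : ℕ)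
    {ρ : ℝ} (h : ∀ j, sig d b N (orb d N (k + j) b c) ≤ ρ) (j : ℕ) :
    sig d b (j * N) (orb d N k b c) ≤ ρ ^ j := by
  have hρ : 0 ≤ ρ := (sig_nonneg _ _ _ _).trans (h 0)
  induction j with
  | zero =>
    have h1 := orb_ne_zero hb hc N k
    have h2 : ‖orb d N k b c‖ ≠ 0 := norm_ne_zero_iff.mpr h1
    unfold sig
    rw [Nat.zero_mul, jacN_zero, Function.iterate_zero, id, norm_one, one_mul,
      div_self (pow_ne_zero _ h2), pow_zero]
  | succ j ih =>
    rw [Nat.succ_mul, sig_add hb _ _ (orb_ne_zero hb hc N k), ← orb_add11, pow_succ]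
    exact mul_le_mul ih (h j) (sig_nonneg _ _ _ _) (pow_nonneg hρ _)

/-- **The bounds on a compact set of expanding maps.** -/
theorem bounds11 {d : ℕ} (hd : 2 ≤ d) {K : Set (Par d)} (hK : IsCompact K)
    (hKE : K ⊆ ExpandingRat d) :
    ∃ N : ℕ, 1 ≤ N ∧ ∃ (k : ℕ) (C ρ : ℝ), 0 ≤ C ∧ 0 ≤ ρ ∧ ρ < 1 ∧ ∀ b ∈ K, ∀ c, IsCrit d b c →
      ∀ j i : ℕ, trN d N b (orb d N (k + j) b c) ≠ 0 ∧
        ‖numR d N (k + j) b c / denR d N (k + j) b c‖ ≤ C * ρ ^ j ∧
        ‖numL d N (k + j) i b c / denL d N (k + j) i b c‖ ≤ C * ρ ^ i := by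
  have hd1 : 1 ≤ d := by omega
  obtain ⟨N, k0, C, ρ, hN, hC, hρ0, hρ1, hcert⟩ := cert hd1 hK hKE
  have hKn : ∀ b ∈ K, Nondeg d b := fun b hb => (hKE hb).1
  obtain ⟨δ, hδ, hlow⟩ := lower11 hd1 hK hKn N hρ1
  -- upper bounds on `K × sphere`
  have hSc : IsCompact (K ×ˢ Metric.sphere (0 : ℂ × ℂ) 1) := hK.prod (isCompact_sphere _ _)
  obtain ⟨MF, hMF⟩ := hSc.exists_bound_of_continuousOn
    (continuous_iter_joint d N).continuousOn
  obtain ⟨MT, hMT⟩ := hSc.exists_bound_of_continuousOn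
    (continuous_trN_joint d N).continuousOn
  obtain ⟨MR, hMR⟩ := hK.exists_bound_of_continuousOn (f := fun b => Res d b)
    (Res_differentiable d).continuous.continuousOn
  set D : ℕ := d ^ N - 1 with hD
  have hD1 : 1 ≤ D := by
    have : 2 ≤ d ^ N := by
      calc 2 ≤ d := hd
        _ = d ^ 1 := (pow_one d).symm
        _ ≤ d ^ N := Nat.pow_le_pow_right (by omega) hN
    omega
  -- choice of `k`
  have hlim : Tendsto (fun k : ℕ => C * ρ ^ k * (|MF| + 1)) atTop (𝓝 (C * 0 * (|MF| + 1))) :=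
    ((tendsto_pow_atTop_nhds_zero_of_lt_one hρ0 hρ1).const_mul C).mul_const _
  rw [mul_zero, zero_mul] at hlim
  obtain ⟨k1, hk1⟩ := eventually_atTop.mp (hlim.eventually_lt_const hδ)
  set k : ℕ := max k0 k1 with hk
  have htail : ∀ b ∈ K, ∀ c, IsCrit d b c → ∀ j,
      δ * ‖orb d N (k + j) b c‖ ^ D ≤ ‖trN d N b (orb d N (k + j) b c)‖ ∧
      ‖trN d N b (orb d N (k + j) b c)‖ ≤ |MT| * ‖orb d N (k + j) b c‖ ^ D := by
    intro b hb c hc j
    have hbn := hKn b hb
    have hx0 := orb_ne_zero hbn hc.1 N (k + j)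
    set x := orb d N (k + j) b c with hx
    have hxn : 0 < ‖x‖ := norm_pos_iff.mpr hx0
    have hu := unit11 hx0
    have hu0 : ((‖x‖ : ℂ))⁻¹ ≠ 0 := inv_ne_zero (by
      rw [Ne, Complex.ofReal_eq_zero]; exact hxn.ne')
    have hin : (b, ((‖x‖ : ℂ))⁻¹ • x) ∈ K ×ˢ Metric.sphere (0 : ℂ × ℂ) 1 :=
      ⟨hb, mem_sphere_zero_iff_norm.mpr hu⟩
    rw [norm_form11 (isForm24_trN hd1 N b) hx0]
    have hpow : 0 < ‖x‖ ^ D := by positivity
    obtain ⟨c1, c2⟩ := hcert b hb c hc (k + j) (by omega)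
    change chord x ((F d b)^[(k + j + 1) * N] c) ≤ _ at c1
    change sig d b N x ≤ ρ at c2
    rw [iter_step] at c1
    change chord x ((F d b)^[N] x) ≤ _ at c1
    constructor
    · refine mul_le_mul_of_nonneg_right ?_ hpow.le
      apply hlow b hb _ hu
      · have := sig_smul hd1 b N one_ne_zero hu0 x
        rw [one_smul] at this
        rw [this]
        exact c2
      · have e1 : ‖wedge (((‖x‖ : ℂ))⁻¹ • x) ((F d b)^[N] (((‖x‖ : ℂ))⁻¹ • x))‖ =
            chord x ((F d b)^[N] x) * ‖(F d b)^[N] (((‖x‖ : ℂ))⁻¹ • x)‖ := by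
          have h1 : chord (((‖x‖ : ℂ))⁻¹ • x) ((F d b)^[N] (((‖x‖ : ℂ))⁻¹ • x)) =
              chord x ((F d b)^[N] x) := by
            rw [iter_smul, chord_smul_left hu0, chord_smul_right (pow_ne_zero _ hu0)]
          rw [← h1]
          have h2 : (((‖x‖ : ℂ))⁻¹ • x) ≠ 0 := smul_ne_zero hu0 hx0
          have h3 := iter_ne_zero hbn h2 N
          unfold chord
          have h4 : ‖(F d b)^[N] (((‖x‖ : ℂ))⁻¹ • x)‖ ≠ 0 := norm_ne_zero_iff.mpr h3
          rw [hu, one_mul, div_mul_cancel₀ _ h4]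
        rw [e1]
        have h5 : ‖(F d b)^[N] (((‖x‖ : ℂ))⁻¹ • x)‖ ≤ |MF| + 1 := by
          have := hMF _ hin
          have := le_abs_self MF
          linarith
        have h6 := hk1 (k + j) (by omega)
        calc chord x ((F d b)^[N] x) * ‖(F d b)^[N] (((‖x‖ : ℂ))⁻¹ • x)‖
            ≤ C * ρ ^ (k + j) * (|MF| + 1) :=
              mul_le_mul c1 h5 (norm_nonneg _) (by positivity)
          _ < δ := h6
    · refine mul_le_mul_of_nonneg_right ?_ hpow.le
      exact (hMT _ hin).trans (le_abs_self _)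
  set S : ℕ := ∑ i ∈ Finset.range N, d ^ i with hSdef
  set C1 : ℝ := |MR| ^ S * C ^ (D * d) / (δ * δ) ^ d with hC1
  set C2 : ℝ := |MT| ^ 2 / δ ^ 2 with hC2
  refine ⟨N, hN, k, C1 + C2, ρ, by positivity, hρ0, hρ1, fun b hb c hc j i => ?_⟩
  have hbn := hKn b hb
  have hx0 := orb_ne_zero hbn hc.1 N (k + j)
  have hy0 := orb_ne_zero hbn hc.1 N (k + j + 1)
  obtain ⟨t1, t2⟩ := htail b hb c hc j
  have hxn : 0 < ‖orb d N (k + j) b c‖ := norm_pos_iff.mpr hx0
  have hyn : 0 < ‖orb d N (k + j + 1) b c‖ := norm_pos_iff.mpr hy0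
  have hTpos : 0 < ‖trN d N b (orb d N (k + j) b c)‖ := lt_of_lt_of_le (by positivity) t1
  have hρj : ρ ^ j ≤ 1 := pow_le_one₀ hρ0 hρ1.le
  refine ⟨norm_pos_iff.mp hTpos, ?_, ?_⟩
  · -- the first function
    have t3 := (htail b hb c hc (j + 1)).1
    rw [← Nat.add_assoc] at t3
    obtain ⟨c1, -⟩ := hcert b hb c hc (k + j) (by omega)
    change chord (orb d N (k + j) b c) (orb d N (k + j + 1) b c) ≤ _ at c1
    have hw : ‖wedge (orb d N (k + j) b c) (orb d N (k + j + 1) b c)‖ ≤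
        C * ρ ^ j * (‖orb d N (k + j) b c‖ * ‖orb d N (k + j + 1) b c‖) := by
      rw [norm_wedge_eq hx0 hy0]
      refine mul_le_mul_of_nonneg_right (c1.trans ?_) (by positivity)
      refine mul_le_mul_of_nonneg_left ?_ hC
      exact pow_le_pow_of_le_one hρ0 hρ1.le (by omega)
    have hR : ‖Res d b‖ ≤ |MR| := (hMR b hb).trans (le_abs_self _)
    unfold numR denR
    rw [norm_div, norm_mul, norm_pow, norm_pow, norm_pow, norm_mul]
    have hden : 0 < ((δ * ‖orb d N (k + j) b c‖ ^ D) *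
        (δ * ‖orb d N (k + j + 1) b c‖ ^ D)) ^ d := by positivity
    have hden2 : ((δ * ‖orb d N (k + j) b c‖ ^ D) *
        (δ * ‖orb d N (k + j + 1) b c‖ ^ D)) ^ d ≤
        (‖trN d N b (orb d N (k + j) b c)‖ * ‖trN d N b (orb d N (k + j + 1) b c)‖) ^ d :=
      pow_le_pow_left₀ (by positivity) (mul_le_mul t1 t3 (by positivity) (norm_nonneg _)) _
    have hnum : ‖Res d b‖ ^ S * ‖wedge (orb d N (k + j) b c) (orb d N (k + j + 1) b c)‖ ^ (D * d) ≤
        |MR| ^ S * (C * ρ ^ j * (‖orb d N (k + j) b c‖ * ‖orb d N (k + j + 1) b c‖)) ^ (D * d) :=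
      mul_le_mul (pow_le_pow_left₀ (norm_nonneg _) hR _)
        (pow_le_pow_left₀ (norm_nonneg _) hw _) (by positivity) (by positivity)
    calc ‖Res d b‖ ^ S * ‖wedge (orb d N (k + j) b c) (orb d N (k + j + 1) b c)‖ ^ (D * d) /
          (‖trN d N b (orb d N (k + j) b c)‖ * ‖trN d N b (orb d N (k + j + 1) b c)‖) ^ d
        ≤ |MR| ^ S * (C * ρ ^ j * (‖orb d N (k + j) b c‖ * ‖orb d N (k + j + 1) b c‖)) ^ (D * d) /
          ((δ * ‖orb d N (k + j) b c‖ ^ D) * (δ * ‖orb d N (k + j + 1) b c‖ ^ D)) ^ d :=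
          div_le_div₀ (by positivity) hnum hden hden2
      _ = C1 * (ρ ^ j) ^ (D * d) := by
          rw [hC1]
          have e1 : (C * ρ ^ j * (‖orb d N (k + j) b c‖ * ‖orb d N (k + j + 1) b c‖)) ^ (D * d) =
              C ^ (D * d) * (ρ ^ j) ^ (D * d) *
                (‖orb d N (k + j) b c‖ ^ D * ‖orb d N (k + j + 1) b c‖ ^ D) ^ d := by
            rw [mul_pow, mul_pow, pow_mul (‖orb d N (k + j) b c‖ * ‖orb d N (k + j + 1) b c‖) D d,
              mul_pow ‖orb d N (k + j) b c‖]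
          have e2 : ((δ * ‖orb d N (k + j) b c‖ ^ D) * (δ * ‖orb d N (k + j + 1) b c‖ ^ D)) ^ d =
              (δ * δ) ^ d * (‖orb d N (k + j) b c‖ ^ D * ‖orb d N (k + j + 1) b c‖ ^ D) ^ d := by
            rw [← mul_pow]
            congr 1
            ring
          rw [e1, e2]
          have h7 : (‖orb d N (k + j) b c‖ ^ D * ‖orb d N (k + j + 1) b c‖ ^ D) ^ d ≠ 0 := by
            positivity
          have h8 : (δ * δ) ^ d ≠ 0 := by positivity
          field_simp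
      _ ≤ (C1 + C2) * ρ ^ j := by
          have h9 : (ρ ^ j) ^ (D * d) ≤ ρ ^ j := by
            have h10 : 1 ≤ D * d := Nat.mul_pos hD1 (by omega)
            calc (ρ ^ j) ^ (D * d) ≤ (ρ ^ j) ^ 1 :=
                  pow_le_pow_of_le_one (by positivity) hρj h10
              _ = ρ ^ j := pow_one _
          have hC1' : 0 ≤ C1 := by positivity
          have hC2' : 0 ≤ C2 := by positivity
          have h11 : 0 ≤ ρ ^ j := by positivity
          nlinarith
  · -- the second function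
    have t4 := (htail b hb c hc (j + i)).1
    rw [← Nat.add_assoc] at t4
    have hz0 := orb_ne_zero hbn hc.1 N (k + j + i)
    have hzn : 0 < ‖orb d N (k + j + i) b c‖ := norm_pos_iff.mpr hz0
    have hρi : ρ ^ i ≤ 1 := pow_le_one₀ hρ0 hρ1.le
    have hsig : sig d b (i * N) (orb d N (k + j) b c) ≤ ρ ^ i :=
      sig_orb11 hbn hc.1 N (k + j) (fun l => (hcert b hb c hc (k + j + l) (by omega)).2) i
    have hs0 := sig_nonneg d b (i * N) (orb d N (k + j) b c)
    have hjac : ‖jacN d b (i * N) (orb d N (k + j) b c)‖ =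
        sig d b (i * N) (orb d N (k + j) b c) *
          (‖orb d N (k + j + i) b c‖ ^ 2 / ‖orb d N (k + j) b c‖ ^ 2) := by
      unfold sig
      rw [← orb_add11]
      field_simp
    unfold numL denL
    rw [norm_div, norm_mul, norm_pow, norm_pow, norm_pow, hjac]
    have hsD : sig d b (i * N) (orb d N (k + j) b c) ^ D ≤ ρ ^ i := by
      calc sig d b (i * N) (orb d N (k + j) b c) ^ D ≤ (ρ ^ i) ^ D := pow_le_pow_left₀ hs0 hsig _
        _ ≤ (ρ ^ i) ^ 1 := pow_le_pow_of_le_one (by positivity) hρi hD1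
        _ = ρ ^ i := pow_one _
    have hnum : (sig d b (i * N) (orb d N (k + j) b c) *
        (‖orb d N (k + j + i) b c‖ ^ 2 / ‖orb d N (k + j) b c‖ ^ 2)) ^ D *
          ‖trN d N b (orb d N (k + j) b c)‖ ^ 2 ≤
        ρ ^ i * (‖orb d N (k + j + i) b c‖ ^ 2 / ‖orb d N (k + j) b c‖ ^ 2) ^ D *
          (|MT| * ‖orb d N (k + j) b c‖ ^ D) ^ 2 := by
      rw [mul_pow]
      refine mul_le_mul (mul_le_mul_of_nonneg_right hsD (by positivity))
        (pow_le_pow_left₀ (norm_nonneg _) t2 2) (by positivity) (by positivity)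
    have hden : 0 < (δ * ‖orb d N (k + j + i) b c‖ ^ D) ^ 2 := by positivity
    have hden2 : (δ * ‖orb d N (k + j + i) b c‖ ^ D) ^ 2 ≤
        ‖trN d N b (orb d N (k + j + i) b c)‖ ^ 2 :=
      pow_le_pow_left₀ (by positivity) t4 2
    calc (sig d b (i * N) (orb d N (k + j) b c) *
          (‖orb d N (k + j + i) b c‖ ^ 2 / ‖orb d N (k + j) b c‖ ^ 2)) ^ D *
            ‖trN d N b (orb d N (k + j) b c)‖ ^ 2 / ‖trN d N b (orb d N (k + j + i) b c)‖ ^ 2
        ≤ (ρ ^ i * (‖orb d N (k + j + i) b c‖ ^ 2 / ‖orb d N (k + j) b c‖ ^ 2) ^ D *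
          (|MT| * ‖orb d N (k + j) b c‖ ^ D) ^ 2) / (δ * ‖orb d N (k + j + i) b c‖ ^ D) ^ 2 :=
          div_le_div₀ (by positivity) hnum hden hden2
      _ = C2 * ρ ^ i := by
          rw [hC2, div_pow, ← pow_mul, ← pow_mul, mul_pow, mul_pow, ← pow_mul, ← pow_mul,
            mul_comm D 2]
          have h7 : ‖orb d N (k + j + i) b c‖ ^ (2 * D) ≠ 0 := by positivity
          have h8 : ‖orb d N (k + j) b c‖ ^ (2 * D) ≠ 0 := by positivity
          field_simp
      _ ≤ (C1 + C2) * ρ ^ i := by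
          have hC1' : 0 ≤ C1 := by positivity
          have h11 : 0 ≤ ρ ^ i := by positivity
          nlinarith

end HypRat
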