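import Pool.Agent.Lib.Hyp.Rat.TrDeg11
import Pool.Agent.Lib.Hyp.Rat.TrBound11
import Pool.Agent.Lib.Hyp.Rat.EndRC24

/-!
MP_47150b_an, rational convexity in `Rat_d` (helper95, helper11, helper24): every compact set of
expanding rational maps of degree `d` is separated by algebraic hypersurfaces of projective space
from each map which is not expanding and from each degenerate point; and the hull of a compact
subset of a component with respect to the algebraic hypersurfaces meets the component in a
compact subset of projective space.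
-/

namespace HypRat

/-- **The hull of a compact set of expanding maps with respect to algebraic hypersurfaces of
projective space consists of expanding maps.** -/
theorem projHull_subset {d : ℕ} (hd : 2 ≤ d) {K : Set (Par d)} (hK : IsCompact K)
    (hKE : K ⊆ ExpandingRat d) : projHull K ⊆ ExpandingRat d := by
  intro a ha
  have hnd : Nondeg d a := projHull_nondeg (by omega) (fun b hb => (hKE hb).1) ha
  obtain ⟨N, hN, k, C, ρ, hC, h0, h1, hB⟩ := bounds11 hd hK hKE
  refine end_rc hd hnd hN (k := k) hC h0 h1 fun c hc i j => ?_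
  obtain ⟨m, e, hm, r1, r2, r3, r4⟩ := deg_R hd hN (k + i)
  obtain ⟨m', e', hm', l1, l2, l3, l4⟩ := deg_L hd hN (k + i) j
  have hR : ∀ b ∈ K, ∀ c, IsCrit d b c → denR d N (k + i) b c ≠ 0 := by
    intro b hb c hc
    have t1 := (hB b hb c hc i 0).1
    have t2 := (hB b hb c hc (i + 1) 0).1
    exact pow_ne_zero _ (mul_ne_zero t1 t2)
  have hL : ∀ b ∈ K, ∀ c, IsCrit d b c → denL d N (k + i) j b c ≠ 0 := by
    intro b hb c hc
    have t1 := (hB b hb c hc (i + j) 0).1
    rw [← add_assoc] at t1
    exact pow_ne_zero _ t1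
  obtain ⟨hR0, b, hb, c', hc', hv⟩ := projHull_value hd ha hm r1 r2 r3 r4 hR hc
  obtain ⟨hL0, b', hb', c'', hc'', hv'⟩ := projHull_value hd ha hm' l1 l2 l3 l4 hL hc
  refine ⟨?_, ?_, ?_⟩
  · intro h2
    apply hR0
    unfold denR
    rw [h2, zero_mul, zero_pow (by omega)]
  · rw [← hv]
    exact (hB b hb c' hc' i 0).2.1
  · rw [← hv']
    exact (hB b' hb' c'' hc'' i j).2.2

/-- **Separation by hypersurfaces**: a point of projective space which is not an expanding map of
degree `d` lies on an algebraic hypersurface which avoids the given compact set of expanding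
maps. -/
theorem exists_hypersurface_rat {d : ℕ} (hd : 2 ≤ d) {K : Set (Par d)} (hK : IsCompact K)
    (hKE : K ⊆ ExpandingRat d) {a : Par d} (ha0 : a ≠ 0) (ha : a ∉ ExpandingRat d) :
    ∃ (k : ℕ) (P : MvPolynomial (Fin ((d + 1) + (d + 1))) ℂ), P.IsHomogeneous k ∧
      MvPolynomial.eval a P = 0 ∧ ∀ b ∈ K, MvPolynomial.eval b P ≠ 0 := by
  by_contra hne
  push Not at hne
  exact ha (projHull_subset hd hK hKE ⟨ha0, fun k P hP h0 => hne k P hP h0⟩)

end HypRat
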