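import Pool.Agent.Lib.Hyp.Rat.Defs

/-!
Binary forms given by coefficient vectors (MP_47150b_an, second half of Q2; helper24).
-/

namespace HypRat

/-- the binary form of degree `D` with the coefficients `a 0, ..., a D` -/
noncomputable def form (D : ℕ) (a : Fin (D + 1) → ℂ) (x : ℂ × ℂ) : ℂ :=
  ∑ j : Fin (D + 1), a j * (x.1 ^ (j : ℕ) * x.2 ^ (D - (j : ℕ)))

end HypRat
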