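import Pool.Agent.Lib.Hyp.Rat.Ref11

/-!
MP_47150b_an, local hyperconvexity, module GR (helper39): the Green function of the homogeneous
map and the normalised step `om` of a critical orbit.
-/

namespace HypRat

open Filter Topology Metric

attribute [local irreducible] jac F jacN

/-- The Green function of the homogeneous map `F d b`. -/
noncomputable def gr (d : ℕ) (b : Par d) (x : ℂ × ℂ) : ℝ :=
  limUnder atTop (fun k : ℕ => Real.log ‖(F d b)^[k] x‖ / (d:ℝ) ^ k)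

/-- The step of the orbit, normalised by the Green function. -/
noncomputable def om (d N k : ℕ) (b : Par d) (c : ℂ × ℂ) : ℝ :=
  ‖wedge (orb d N k b c) (orb d N (k + 1) b c)‖ *
    Real.exp (-(((d:ℝ) ^ (k * N) + (d:ℝ) ^ ((k + 1) * N)) * gr d b c))

namespace Green39

/-- Uniform comparison of `‖F x‖` and `‖x‖ ^ d` on compact sets. -/
theorem exists_log_bound {d : ℕ} {K : Set (Par d)} (hK : IsCompact K)
    (hKn : ∀ b ∈ K, Nondeg d b) : ∃ L, 0 ≤ L ∧ ∀ b ∈ K, ∀ x : ℂ × ℂ, x ≠ 0 →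
      |Real.log ‖F d b x‖ - d * Real.log ‖x‖| ≤ L := by
  have hcomp : IsCompact (K ×ˢ (sphere (0 : ℂ × ℂ) 1)) := hK.prod (isCompact_sphere _ _)
  have hne : ∀ p ∈ K ×ˢ (sphere (0 : ℂ × ℂ) 1), ‖F d p.1 p.2‖ ≠ 0 := by
    rintro ⟨b, x⟩ ⟨hb, hx⟩
    have hx1 : ‖x‖ = 1 := mem_sphere_zero_iff_norm.mp hx
    rw [norm_ne_zero_iff]
    intro h0
    have := hKn b hb x h0
    rw [this, norm_zero] at hx1
    exact zero_ne_one hx1
  have hcont : ContinuousOn (fun p : Par d × (ℂ × ℂ) => Real.log ‖F d p.1 p.2‖)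
      (K ×ˢ (sphere (0 : ℂ × ℂ) 1)) := by
    have h1 : Continuous fun p : Par d × (ℂ × ℂ) => ‖F d p.1 p.2‖ :=
      (continuous_iter_joint d 1).norm
    exact h1.continuousOn.log hne
  obtain ⟨C, hC⟩ := hcomp.exists_bound_of_continuousOn hcont
  refine ⟨max C 0, le_max_right _ _, fun b hb x hx => ?_⟩
  have hn : 0 < ‖x‖ := norm_pos_iff.mpr hx
  obtain ⟨u, hu, hux⟩ : ∃ u : ℂ × ℂ, ‖u‖ = 1 ∧ x = (‖x‖ : ℂ) • u := by
    refine ⟨((‖x‖ : ℂ))⁻¹ • x, ?_, ?_⟩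
    · rw [norm_smul, norm_inv, Complex.norm_real, norm_norm, inv_mul_cancel₀ hn.ne']
    · rw [smul_smul, mul_inv_cancel₀ (by exact_mod_cast hn.ne'), one_smul]
  have h1 : F d b x = ((‖x‖ : ℂ)) ^ d • F d b u := by
    conv_lhs => rw [hux]
    rw [F_smul]
  have h2 := hC (b, u) ⟨hb, mem_sphere_zero_iff_norm.mpr hu⟩
  have h3 := hne (b, u) ⟨hb, mem_sphere_zero_iff_norm.mpr hu⟩
  rw [Real.norm_eq_abs] at h2
  have e : Real.log ‖F d b x‖ - d * Real.log ‖x‖ = Real.log ‖F d b u‖ := by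
    rw [h1, norm_smul, norm_pow, Complex.norm_real, norm_norm, Real.log_mul (by positivity) h3,
      Real.log_pow]
    ring
  rw [e]
  exact h2.trans (le_max_left _ _)

theorem dist_succ {d : ℕ} (hd : 2 ≤ d) {b : Par d} (hb : Nondeg d b) {L : ℝ}
    (hL : ∀ x : ℂ × ℂ, x ≠ 0 → |Real.log ‖F d b x‖ - d * Real.log ‖x‖| ≤ L) {x : ℂ × ℂ}
    (hx : x ≠ 0) (k : ℕ) :
    dist (Real.log ‖(F d b)^[k] x‖ / (d:ℝ) ^ k) (Real.log ‖(F d b)^[k + 1] x‖ / (d:ℝ) ^ (k + 1)) ≤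
      L / d * (1 / (d:ℝ)) ^ k := by
  have hd0 : (0:ℝ) < d := by exact_mod_cast (by omega : 0 < d)
  have h1 := hL _ (iter_ne_zero hb hx k)
  rw [← Function.iterate_succ_apply' (F d b) k x] at h1
  rw [dist_comm, Real.dist_eq]
  have e : Real.log ‖(F d b)^[k + 1] x‖ / (d:ℝ) ^ (k + 1) - Real.log ‖(F d b)^[k] x‖ / (d:ℝ) ^ k =
      (Real.log ‖(F d b)^[k + 1] x‖ - d * Real.log ‖(F d b)^[k] x‖) / (d:ℝ) ^ (k + 1) := by
    rw [pow_succ]
    field_simp
  rw [e, abs_div, abs_of_pos (by positivity : (0:ℝ) < (d:ℝ) ^ (k + 1)), div_le_iff₀ (by positivity)]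
  refine h1.trans (le_of_eq ?_)
  rw [pow_succ, one_div, inv_pow]
  field_simp

theorem tendsto_gr {d : ℕ} (hd : 2 ≤ d) {b : Par d} (hb : Nondeg d b) {x : ℂ × ℂ} (hx : x ≠ 0) :
    Tendsto (fun k : ℕ => Real.log ‖(F d b)^[k] x‖ / (d:ℝ) ^ k) atTop (𝓝 (gr d b x)) := by
  obtain ⟨L, hL0, hL⟩ := exists_log_bound (isCompact_singleton (x := b))
    (fun b' hb' => by rw [Set.mem_singleton_iff.mp hb']; exact hb)
  have hd1 : (1:ℝ) / d < 1 := by
    rw [div_lt_one (by positivity)]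
    exact_mod_cast (by omega : 1 < d)
  have h1 := cauchySeq_of_le_geometric _ _ hd1
    (fun k => dist_succ hd hb (hL b rfl) hx k)
  exact h1.tendsto_limUnder

theorem gr_bound_of {d : ℕ} (hd : 2 ≤ d) {b : Par d} (hb : Nondeg d b) {L : ℝ}
    (hL : ∀ x : ℂ × ℂ, x ≠ 0 → |Real.log ‖F d b x‖ - d * Real.log ‖x‖| ≤ L) {x : ℂ × ℂ}
    (hx : x ≠ 0) (k : ℕ) : |Real.log ‖(F d b)^[k] x‖ / (d:ℝ) ^ k - gr d b x| ≤ L / (d:ℝ) ^ k := by
  have hd2 : (2:ℝ) ≤ d := by exact_mod_cast hd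
  have hd1 : (1:ℝ) / d < 1 := by
    rw [div_lt_one (by positivity)]
    linarith
  have h1 := dist_le_of_le_geometric_of_tendsto _ _ hd1
    (fun k => dist_succ hd hb hL hx k) (tendsto_gr hd hb hx) k
  rw [Real.dist_eq] at h1
  refine h1.trans ?_
  have hL0 : 0 ≤ L := (abs_nonneg _).trans (hL x hx)
  have e : L / d * (1 / (d:ℝ)) ^ k / (1 - 1 / d) = L / (d:ℝ) ^ k / (d - 1) := by
    have : (d:ℝ) - 1 ≠ 0 := by linarith
    rw [one_div, inv_pow]
    field_simp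
  rw [e]
  exact div_le_self (by positivity) (by linarith)

end Green39

open Green39

theorem gr_bound {d : ℕ} (hd : 2 ≤ d) {K : Set (Par d)} (hK : IsCompact K)
    (hKn : ∀ b ∈ K, Nondeg d b) : ∃ L, 0 ≤ L ∧ ∀ b ∈ K, ∀ x : ℂ × ℂ, x ≠ 0 → ∀ k : ℕ,
      |Real.log ‖(F d b)^[k] x‖ - (d:ℝ) ^ k * gr d b x| ≤ L := by
  obtain ⟨L, hL0, hL⟩ := exists_log_bound hK hKn
  refine ⟨L, hL0, fun b hb x hx k => ?_⟩
  have h1 := gr_bound_of hd (hKn b hb) (hL b hb) hx k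
  have hd0 : (0:ℝ) < d := by exact_mod_cast (by omega : 0 < d)
  have hp : (0:ℝ) < (d:ℝ) ^ k := by positivity
  have e : Real.log ‖(F d b)^[k] x‖ - (d:ℝ) ^ k * gr d b x =
      (d:ℝ) ^ k * (Real.log ‖(F d b)^[k] x‖ / (d:ℝ) ^ k - gr d b x) := by
    field_simp
  rw [e, abs_mul, abs_of_pos hp]
  calc (d:ℝ) ^ k * |Real.log ‖(F d b)^[k] x‖ / (d:ℝ) ^ k - gr d b x| ≤ (d:ℝ) ^ k * (L / (d:ℝ) ^ k) :=
        mul_le_mul_of_nonneg_left h1 hp.le
    _ = L := by field_simp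

theorem continuousAt_gr {d : ℕ} (hd : 2 ≤ d) {b : Par d} (hb : Nondeg d b) {x : ℂ × ℂ}
    (hx : x ≠ 0) : ContinuousAt (fun p : Par d × (ℂ × ℂ) => gr d p.1 p.2) (b, x) := by
  obtain ⟨r, hr, hrK⟩ := Metric.nhds_basis_closedBall.mem_iff.mp ((isOpen_nondeg d).mem_nhds hb)
  obtain ⟨L, hL0, hL⟩ := exists_log_bound (isCompact_closedBall b r) (fun b' hb' => hrK hb')
  rw [Metric.continuousAt_iff']
  intro ε hε
  have hd2 : (2:ℝ) ≤ d := by exact_mod_cast hd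
  have hlim : Tendsto (fun k : ℕ => L / (d:ℝ) ^ k) atTop (𝓝 0) :=
    tendsto_const_nhds.div_atTop (tendsto_pow_atTop_atTop_of_one_lt (by linarith))
  obtain ⟨k, hk⟩ := (hlim.eventually (gt_mem_nhds (by positivity : 0 < ε / 3))).exists
  have hck : ContinuousAt (fun p : Par d × (ℂ × ℂ) => Real.log ‖(F d p.1)^[k] p.2‖ / (d:ℝ) ^ k)
      (b, x) := by
    refine ContinuousAt.div_const (ContinuousAt.log ?_ ?_) _
    · exact (continuous_iter_joint d k).norm.continuousAt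
    · exact norm_ne_zero_iff.mpr (iter_ne_zero hb hx k)
  have h1 := Metric.continuousAt_iff'.mp hck (ε / 3) (by positivity)
  have h2 : ∀ᶠ p : Par d × (ℂ × ℂ) in 𝓝 (b, x), p.1 ∈ closedBall b r :=
    (continuous_fst.tendsto (b, x)).eventually (closedBall_mem_nhds b hr)
  have h3 : ∀ᶠ p : Par d × (ℂ × ℂ) in 𝓝 (b, x), p.2 ≠ 0 :=
    (continuous_snd.tendsto (b, x)).eventually (isOpen_ne.mem_nhds hx)
  filter_upwards [h1, h2, h3] with p hp1 hp2 hp3
  have a1 := gr_bound_of hd (hrK hp2) (hL p.1 hp2) hp3 k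
  have a2 := gr_bound_of hd hb (hL b (mem_closedBall_self hr.le)) hx k
  rw [Real.dist_eq] at hp1 ⊢
  rw [abs_le] at a1 a2
  rw [abs_lt] at hp1 ⊢
  constructor <;> linarith [a1.1, a1.2, a2.1, a2.2, hp1.1, hp1.2]

theorem gr_smul {d : ℕ} (hd : 2 ≤ d) {b : Par d} (hb : Nondeg d b) {x : ℂ × ℂ} (hx : x ≠ 0)
    {t : ℂ} (ht : t ≠ 0) : gr d b (t • x) = gr d b x + Real.log ‖t‖ := by
  have h1 := tendsto_gr hd hb (smul_ne_zero ht hx)
  have h2 := (tendsto_gr hd hb hx).add_const (Real.log ‖t‖)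
  refine tendsto_nhds_unique h1 (h2.congr fun k => ?_)
  have hd0 : (0:ℝ) < d := by exact_mod_cast (by omega : 0 < d)
  rw [iter_smul, norm_smul, norm_pow, Real.log_mul (by positivity)
    (norm_ne_zero_iff.mpr (iter_ne_zero hb hx k)), Real.log_pow]
  push_cast
  field_simp
  ring

theorem om_nonneg (d N k : ℕ) (b : Par d) (c : ℂ × ℂ) : 0 ≤ om d N k b c :=
  mul_nonneg (norm_nonneg _) (Real.exp_nonneg _)

theorem om_smul {d : ℕ} (hd : 2 ≤ d) (N k : ℕ) {b : Par d} (hb : Nondeg d b) {c : ℂ × ℂ}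
    (hc : c ≠ 0) {u : ℂ} (hu : u ≠ 0) : om d N k b (u • c) = om d N k b c := by
  unfold om orb
  rw [gr_smul hd hb hc hu, iter_smul, iter_smul, wedge_smul_smul, norm_mul, norm_mul, norm_pow,
    norm_pow]
  have hn : 0 < ‖u‖ := norm_pos_iff.mpr hu
  have e : ‖u‖ ^ d ^ (k * N) * ‖u‖ ^ d ^ ((k + 1) * N) =
      Real.exp (((d:ℝ) ^ (k * N) + (d:ℝ) ^ ((k + 1) * N)) * Real.log ‖u‖) := by
    rw [← pow_add, ← Real.rpow_natCast, Real.rpow_def_of_pos hn]
    congr 1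
    push_cast
    ring
  rw [e, mul_right_comm, ← Real.exp_add, mul_comm]
  congr 2
  ring

theorem continuousAt_om {d : ℕ} (hd : 2 ≤ d) (N k : ℕ) {b : Par d} (hb : Nondeg d b) {c : ℂ × ℂ}
    (hc : c ≠ 0) : ContinuousAt (fun p : Par d × (ℂ × ℂ) => om d N k p.1 p.2) (b, c) := by
  unfold om
  refine ContinuousAt.mul ?_ ?_
  · have h1 : Continuous fun p : Par d × (ℂ × ℂ) =>
        wedge (orb d N k p.1 p.2) (orb d N (k + 1) p.1 p.2) :=
      continuous_wedge.comp ((differentiable_orb_joint d N k).continuous.prodMk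
        (differentiable_orb_joint d N (k + 1)).continuous)
    exact h1.norm.continuousAt
  · exact Real.continuous_exp.continuousAt.comp
      (((continuousAt_const.mul (continuousAt_gr hd hb hc))).neg)

/-- `om` is comparable with the distance of two consecutive points. -/
theorem om_chord {d : ℕ} (hd : 2 ≤ d) {K : Set (Par d)} (hK : IsCompact K)
    (hKn : ∀ b ∈ K, Nondeg d b) : ∃ E : ℝ, 1 ≤ E ∧ ∀ b ∈ K, ∀ c : ℂ × ℂ, c ≠ 0 → ∀ N k : ℕ,
      om d N k b c ≤ E * chord (orb d N k b c) (orb d N (k + 1) b c) ∧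
      chord (orb d N k b c) (orb d N (k + 1) b c) ≤ E * om d N k b c := by
  obtain ⟨L, hL0, hL⟩ := gr_bound hd hK hKn
  refine ⟨Real.exp (2 * L), Real.one_le_exp (by linarith), fun b hb c hc N k => ?_⟩
  have hx := orb_ne_zero (hKn b hb) hc N k
  have hy := orb_ne_zero (hKn b hb) hc N (k + 1)
  have nx : 0 < ‖orb d N k b c‖ := norm_pos_iff.mpr hx
  have ny : 0 < ‖orb d N (k + 1) b c‖ := norm_pos_iff.mpr hy
  have h1 : |Real.log ‖orb d N k b c‖ - (d:ℝ) ^ (k * N) * gr d b c| ≤ L := hL b hb c hc (k * N)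
  have h2 : |Real.log ‖orb d N (k + 1) b c‖ - (d:ℝ) ^ ((k + 1) * N) * gr d b c| ≤ L :=
    hL b hb c hc ((k + 1) * N)
  have hch := chord_nonneg (orb d N k b c) (orb d N (k + 1) b c)
  set s : ℝ := Real.log ‖orb d N k b c‖ - (d:ℝ) ^ (k * N) * gr d b c with hs
  set t : ℝ := Real.log ‖orb d N (k + 1) b c‖ - (d:ℝ) ^ ((k + 1) * N) * gr d b c with ht
  have e : om d N k b c = chord (orb d N k b c) (orb d N (k + 1) b c) * Real.exp (s + t) := by
    have e1 : Real.exp (s + t) = ‖orb d N k b c‖ * ‖orb d N (k + 1) b c‖ *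
        Real.exp (-(((d:ℝ) ^ (k * N) + (d:ℝ) ^ ((k + 1) * N)) * gr d b c)) := by
      have : s + t = Real.log ‖orb d N k b c‖ + Real.log ‖orb d N (k + 1) b c‖ +
          -(((d:ℝ) ^ (k * N) + (d:ℝ) ^ ((k + 1) * N)) * gr d b c) := by
        rw [hs, ht]; ring
      rw [this, Real.exp_add, Real.exp_add, Real.exp_log nx, Real.exp_log ny]
    rw [e1]
    unfold om
    rw [norm_wedge_eq hx hy]
    ring
  rw [abs_le] at h1 h2
  rw [e]
  constructor
  · rw [mul_comm]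
    refine mul_le_mul_of_nonneg_right (Real.exp_le_exp.mpr ?_) hch
    linarith [h1.1, h1.2, h2.1, h2.2]
  · have h3 : 1 ≤ Real.exp (2 * L) * Real.exp (s + t) := by
      rw [← Real.exp_add]
      apply Real.one_le_exp
      linarith [h1.1, h1.2, h2.1, h2.2]
    calc chord (orb d N k b c) (orb d N (k + 1) b c) =
          chord (orb d N k b c) (orb d N (k + 1) b c) * 1 := (mul_one _).symm
      _ ≤ chord (orb d N k b c) (orb d N (k + 1) b c) * (Real.exp (2 * L) * Real.exp (s + t)) :=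
          mul_le_mul_of_nonneg_left h3 hch
      _ = _ := by ring

end HypRat
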