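import Pool.Agent.Lib.Hyp.Rat.Form24
import Pool.Agent.Lib.Hyp.Rat.Res24

/-!
Homogeneous polynomial functions on `Par d`, graded classes of functions, elimination by
resultants (helper95; rational convexity of the expanding locus of rational maps).
-/

namespace HypRat

open Polynomial

attribute [local irreducible] F

/-- `f` is a homogeneous polynomial of degree `m` in the coefficients. -/
def HP (d m : ℕ) (f : Par d → ℂ) : Prop :=
  ∃ P : MvPolynomial (Fin ((d + 1) + (d + 1))) ℂ, P.IsHomogeneous m ∧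
    ∀ b, f b = MvPolynomial.eval b P

/-- A graded class of functions. -/
structure GradedC {E : Type*} (Q : ℕ → (E → ℂ) → Prop) : Prop where
  zero : ∀ m, Q m (fun _ => 0)
  one : Q 0 (fun _ => 1)
  smul : ∀ {m : ℕ} (c : ℂ) {f : E → ℂ}, Q m f → Q m (fun e => c * f e)
  add : ∀ {m : ℕ} {f g : E → ℂ}, Q m f → Q m g → Q m (fun e => f e + g e)
  mul : ∀ {m k : ℕ} {f g : E → ℂ}, Q m f → Q k g → Q (m + k) (fun e => f e * g e)

namespace GradedC

variable {E : Type*} {Q : ℕ → (E → ℂ) → Prop} (h : GradedC Q)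

include h

theorem const (c : ℂ) : Q 0 (fun _ => c) := by
  simpa using h.smul c h.one

theorem neg {m : ℕ} {f : E → ℂ} (hf : Q m f) : Q m (fun e => -f e) := by
  simpa using h.smul (-1) hf

theorem sub {m : ℕ} {f g : E → ℂ} (hf : Q m f) (hg : Q m g) : Q m (fun e => f e - g e) := by
  simpa [sub_eq_add_neg] using h.add hf (h.neg hg)

theorem sum {ι : Type*} (s : Finset ι) {m : ℕ} {f : ι → E → ℂ} (hf : ∀ i ∈ s, Q m (f i)) :
    Q m (fun e => ∑ i ∈ s, f i e) := by
  classical
  induction s using Finset.induction_on with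
  | empty => simpa using h.zero m
  | insert i s hi ih =>
    have h1 := h.add (hf i (Finset.mem_insert_self i s))
      (ih fun j hj => hf j (Finset.mem_insert_of_mem hj))
    simpa only [Finset.sum_insert hi] using h1

theorem prod {ι : Type*} (s : Finset ι) {m : ι → ℕ} {f : ι → E → ℂ}
    (hf : ∀ i ∈ s, Q (m i) (f i)) : Q (∑ i ∈ s, m i) (fun e => ∏ i ∈ s, f i e) := by
  classical
  induction s using Finset.induction_on with
  | empty => simpa using h.one
  | insert i s hi ih =>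
    have h1 := h.mul (hf i (Finset.mem_insert_self i s))
      (ih fun j hj => hf j (Finset.mem_insert_of_mem hj))
    simpa only [Finset.prod_insert hi, Finset.sum_insert hi] using h1

theorem pow {m : ℕ} {f : E → ℂ} (hf : Q m f) (k : ℕ) : Q (k * m) (fun e => f e ^ k) := by
  have h1 := h.prod (Finset.range k) (m := fun _ => m) (f := fun _ => f) fun _ _ => hf
  simpa using h1

omit h in
theorem congr_deg {m k : ℕ} {f : E → ℂ} (hf : Q m f) (e : m = k) : Q k f := e ▸ hf

theorem wedge {m k : ℕ} {u v : E → ℂ × ℂ} (hu1 : Q m (fun e => (u e).1))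
    (hu2 : Q m (fun e => (u e).2)) (hv1 : Q k (fun e => (v e).1)) (hv2 : Q k (fun e => (v e).2)) :
    Q (m + k) (fun e => HypRat.wedge (u e) (v e)) :=
  h.sub (h.mul hu1 hv2) (h.mul hu2 hv1)

/-- `F d b` at functions of the class, when the coefficients of `b` are in the class. -/
theorem F {d n m : ℕ} {b : E → Par d} {u : E → ℂ × ℂ} (hb : ∀ j, Q n (fun e => b e j))
    (hu1 : Q m (fun e => (u e).1)) (hu2 : Q m (fun e => (u e).2)) :
    Q (n + d * m) (fun e => (HypRat.F d (b e) (u e)).1) ∧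
      Q (n + d * m) (fun e => (HypRat.F d (b e) (u e)).2) := by
  have key : ∀ (a : Fin (d + 1) → E → ℂ), (∀ j, Q n (a j)) → Q (n + d * m) (fun e =>
      ∑ j : Fin (d + 1), a j e * ((u e).1 ^ (j : ℕ) * (u e).2 ^ (d - (j : ℕ)))) := by
    intro a ha
    refine h.sum _ fun j _ => h.mul (ha j) ?_
    have h1 := h.mul (h.pow hu1 (j : ℕ)) (h.pow hu2 (d - (j : ℕ)))
    refine congr_deg h1 ?_
    rw [← Nat.add_mul]
    congr 1
    have := j.2
    omega
  constructor
  · have h1 := key (fun j e => b e (Fin.castAdd (d + 1) j)) fun j => hb _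
    simpa only [HypRat.F] using h1
  · have h1 := key (fun j e => b e (Fin.natAdd (d + 1) j)) fun j => hb _
    simpa only [HypRat.F] using h1

end GradedC

theorem gradedC_form : GradedC (fun D f => IsForm24 D f) where
  zero := IsForm24.zero
  one := IsForm24.one
  smul := fun c _ hf => hf.const_mul c
  add := fun hf hg => hf.add hg
  mul := fun hf hg => hf.mul hg

theorem gradedC_HP (d : ℕ) : GradedC (HP d) where
  zero := fun m => ⟨0, MvPolynomial.isHomogeneous_zero _ _ _, fun b => by simp⟩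
  one := ⟨1, MvPolynomial.isHomogeneous_one _ _, fun b => by simp⟩
  smul := by
    rintro m c f ⟨P, hP, hf⟩
    refine ⟨MvPolynomial.C c * P, ?_, fun b => by simp [hf]⟩
    have h1 := (MvPolynomial.isHomogeneous_C (Fin ((d + 1) + (d + 1))) c).mul hP
    rwa [zero_add] at h1
  add := by
    rintro m f g ⟨P, hP, hf⟩ ⟨R, hR, hg⟩
    exact ⟨P + R, hP.add hR, fun b => by simp [hf, hg]⟩
  mul := by
    rintro m k f g ⟨P, hP, hf⟩ ⟨R, hR, hg⟩
    exact ⟨P * R, hP.mul hR, fun b => by simp [hf, hg]⟩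

theorem HP.coord {d : ℕ} (i : Fin ((d + 1) + (d + 1))) : HP d 1 (fun b => b i) :=
  ⟨MvPolynomial.X i, MvPolynomial.isHomogeneous_X _ _, fun b => by simp⟩

/-- The degree in `b` of the `k`-th iterate. -/
def itDeg (d : ℕ) : ℕ → ℕ
  | 0 => 0
  | k + 1 => 1 + d * itDeg d k

theorem HP_iter (d : ℕ) (k : ℕ) (x : ℂ × ℂ) :
    HP d (itDeg d k) (fun b => ((HypRat.F d b)^[k] x).1) ∧
      HP d (itDeg d k) (fun b => ((HypRat.F d b)^[k] x).2) := by
  induction k with
  | zero =>
    simp only [Function.iterate_zero, id, itDeg]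
    exact ⟨(gradedC_HP d).const _, (gradedC_HP d).const _⟩
  | succ k ih =>
    simp only [Function.iterate_succ_apply', itDeg]
    exact (gradedC_HP d).F (b := fun b => b) (fun j => HP.coord j) ih.1 ih.2

/-- The Jacobian at functions of a graded class. -/
theorem GradedC.jac {E : Type*} {Q : ℕ → (E → ℂ) → Prop} (h : GradedC Q) {d n m : ℕ}
    {b : E → Par d} {u : E → ℂ × ℂ} (hb : ∀ j, Q n (fun e => b e j))
    (hu1 : Q m (fun e => (u e).1)) (hu2 : Q m (fun e => (u e).2)) :
    Q (n + n + (2 * d - 2) * m) (fun e => HypRat.jac d (b e) (u e)) := by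
  unfold HypRat.jac
  refine h.sum _ fun i _ => h.sum _ fun j _ => ?_
  by_cases hij : (i : ℕ) = (j : ℕ)
  · have e : (fun e : E => b e (Fin.castAdd (d + 1) i) * b e (Fin.natAdd (d + 1) j) *
        (((i : ℕ) : ℂ) - ((j : ℕ) : ℂ)) *
        ((u e).1 ^ ((i : ℕ) + (j : ℕ) - 1) * (u e).2 ^ (2 * d - 1 - ((i : ℕ) + (j : ℕ))))) =
        fun _ => 0 := by
      funext e
      rw [hij, sub_self]
      ring
    rw [e]
    exact h.zero _
  · have h1 := h.mul (h.smul (((i : ℕ) : ℂ) - ((j : ℕ) : ℂ))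
      (h.mul (hb (Fin.castAdd (d + 1) i)) (hb (Fin.natAdd (d + 1) j))))
      (h.mul (h.pow hu1 ((i : ℕ) + (j : ℕ) - 1)) (h.pow hu2 (2 * d - 1 - ((i : ℕ) + (j : ℕ)))))
    have e : (fun e : E => b e (Fin.castAdd (d + 1) i) * b e (Fin.natAdd (d + 1) j) *
        (((i : ℕ) : ℂ) - ((j : ℕ) : ℂ)) *
        ((u e).1 ^ ((i : ℕ) + (j : ℕ) - 1) * (u e).2 ^ (2 * d - 1 - ((i : ℕ) + (j : ℕ))))) =
        fun e : E => (((i : ℕ) : ℂ) - ((j : ℕ) : ℂ)) *
          (b e (Fin.castAdd (d + 1) i) * b e (Fin.natAdd (d + 1) j)) *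
        ((u e).1 ^ ((i : ℕ) + (j : ℕ) - 1) * (u e).2 ^ (2 * d - 1 - ((i : ℕ) + (j : ℕ)))) := by
      funext e
      ring
    rw [e]
    refine congr_deg h1 ?_
    rw [← Nat.add_mul]
    congr 2
    have h1 := i.2
    have h2 := j.2
    omega

/-- The Jacobian of the `N`-th iterate at functions of a graded class. -/
theorem GradedC.jacN {E : Type*} {Q : ℕ → (E → ℂ) → Prop} (h : GradedC Q) {d : ℕ}
    {b : E → Par d} {u : E → ℂ × ℂ} (N : ℕ) {m : ℕ → ℕ}
    (hit : ∀ i, Q (m i) (fun e => ((HypRat.F d (b e))^[i] (u e)).1) ∧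
      Q (m i) (fun e => ((HypRat.F d (b e))^[i] (u e)).2)) {n : ℕ} (hb : ∀ j, Q n (fun e => b e j)) :
    Q (∑ i ∈ Finset.range N, (n + n + (2 * d - 2) * m i))
      (fun e => HypRat.jacN d (b e) N (u e)) :=
  h.prod (Finset.range N) fun i _ => h.jac hb (hit i).1 (hit i).2

end HypRat
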