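import Pool.Agent.Lib.Hyp.Rat.Elim95

/-!
The hull with respect to algebraic hypersurfaces of projective space, and elimination of the
critical point (helper95; rational convexity of the expanding locus of rational maps).
-/

namespace HypRat

open Polynomial

attribute [local irreducible] jac F jacN

/-- Elimination of the critical point. -/
theorem elim1 {d : ℕ} (hd : 2 ≤ d) {m e : ℕ} (hm : 1 ≤ m) {Z : Par d → ℂ × ℂ → ℂ}
    (Z1 : ∀ b, IsForm24 m (Z b)) (Z2 : ∀ y, HP d e (fun b => Z b y)) :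
    ∃ (k : ℕ) (P : MvPolynomial (Fin ((d + 1) + (d + 1))) ℂ), P.IsHomogeneous k ∧
      ∀ b, MvPolynomial.eval b P = 0 ↔ ∃ c, IsCrit d b c ∧ Z b c = 0 := by
  have hJ : ∀ y : ℂ × ℂ, HP d (1 + 1 + (2 * d - 2) * 0) (fun b => jac d b y) := fun y =>
    (gradedC_HP d).jac (b := fun b => b) (u := fun _ => y) (fun j => HP.coord j)
      ((gradedC_HP d).const _) ((gradedC_HP d).const _)
  obtain ⟨P, hP, hPf⟩ := (gradedC_HP d).res95 (p := 2 * d - 2) (r := m)
    (A := fun b => jac d b) (B := fun b => Z b) hJ Z2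
  refine ⟨_, P, hP, fun b => ?_⟩
  have h1 := res95_eq_zero (by omega : 1 ≤ 2 * d - 2) hm (isForm24_jac b) (Z1 b)
  rw [← hPf b]
  refine h1.trans ?_
  constructor
  · rintro ⟨c, hc, h2, h3⟩
    exact ⟨c, (isCrit_iff (by omega)).mpr ⟨hc, h2⟩, h3⟩
  · rintro ⟨c, hc, h3⟩
    obtain ⟨hc0, h2⟩ := (isCrit_iff (by omega)).mp hc
    exact ⟨c, hc0, h2, h3⟩

/-- The points `b` of projective space (given by nonzero vectors) such that every algebraic
hypersurface through `b` meets `K`. -/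
def projHull {m : ℕ} (K : Set (Fin m → ℂ)) : Set (Fin m → ℂ) :=
  {b | b ≠ 0 ∧ ∀ (k : ℕ) (P : MvPolynomial (Fin m) ℂ), P.IsHomogeneous k →
    MvPolynomial.eval b P = 0 → ∃ x ∈ K, MvPolynomial.eval x P = 0}

/-- Zeros of multiforms at critical points over the hull come from zeros over `K`. -/
theorem projHull_zero {d : ℕ} (hd : 2 ≤ d) {K : Set (Par d)} {a : Par d} (ha : a ∈ projHull K)
    {m e : ℕ} (hm : 1 ≤ m) {Z : Par d → ℂ × ℂ → ℂ}
    (Z1 : ∀ b, IsForm24 m (Z b)) (Z2 : ∀ y, HP d e (fun b => Z b y)) {c : ℂ × ℂ}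
    (hc : IsCrit d a c) (hZ : Z a c = 0) : ∃ b ∈ K, ∃ c', IsCrit d b c' ∧ Z b c' = 0 := by
  obtain ⟨k, P, hP, h⟩ := elim1 hd hm Z1 Z2
  obtain ⟨b, hb, hb0⟩ := ha.2 k P hP ((h a).mpr ⟨c, hc, hZ⟩)
  exact ⟨b, hb, (h b).mp hb0⟩

/-- Values of quotients of multiforms of the same degrees at critical points over the hull are
values over `K`, when the denominator has no zeros over `K`. -/
theorem projHull_value {d : ℕ} (hd : 2 ≤ d) {K : Set (Par d)} {a : Par d} (ha : a ∈ projHull K)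
    {m e : ℕ} (hm : 1 ≤ m) {A B : Par d → ℂ × ℂ → ℂ}
    (A1 : ∀ b, IsForm24 m (A b)) (A2 : ∀ y, HP d e (fun b => A b y))
    (B1 : ∀ b, IsForm24 m (B b)) (B2 : ∀ y, HP d e (fun b => B b y))
    (hB : ∀ b ∈ K, ∀ c, IsCrit d b c → B b c ≠ 0) {c : ℂ × ℂ} (hc : IsCrit d a c) :
    B a c ≠ 0 ∧ ∃ b ∈ K, ∃ c', IsCrit d b c' ∧ A b c' / B b c' = A a c / B a c := by
  have h0 : B a c ≠ 0 := by
    intro h0
    obtain ⟨b, hb, c', hc', h1⟩ := projHull_zero hd ha hm B1 B2 hc h0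
    exact hB b hb c' hc' h1
  refine ⟨h0, ?_⟩
  obtain ⟨b, hb, c', hc', h1⟩ := projHull_zero hd ha hm
    (Z := fun b y => A b y - (A a c / B a c) * B b y)
    (fun b => (A1 b).sub ((B1 b).const_mul _))
    (fun y => (gradedC_HP d).sub (A2 y) ((gradedC_HP d).smul _ (B2 y))) hc
    (by
      have h1 : A a c / B a c * B a c = A a c := div_mul_cancel₀ _ h0
      show A a c - A a c / B a c * B a c = 0
      rw [h1, sub_self])
  refine ⟨b, hb, c', hc', ?_⟩
  rw [div_eq_iff (hB b hb c' hc')]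
  exact sub_eq_zero.mp h1

/-- Points of the hull of nondegenerate maps are nondegenerate. -/
theorem projHull_nondeg {d : ℕ} (hd : 1 ≤ d) {K : Set (Par d)} (hK : ∀ b ∈ K, Nondeg d b)
    {a : Par d} (ha : a ∈ projHull K) : Nondeg d a := by
  rw [← Res_ne_zero_iff d hd]
  intro h0
  obtain ⟨b, hb, h1⟩ := ha.2 _ (ResP d) (ResP_isHomogeneous d) h0
  exact (Res_ne_zero_iff d hd b).mpr (hK b hb) h1

theorem HP_Res (d : ℕ) : HP d (2 * d) (Res d) := ⟨ResP d, ResP_isHomogeneous d, fun _ => rfl⟩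

end HypRat
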