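import Pool.Agent.Lib.Hyp.Rat.FinalRC95
import Pool.Agent.Lib.Hyp.FinalQ2_95

/-!
The hull with respect to algebraic hypersurfaces is closed, and the component form of rational
convexity in `Rat_d` (helper95).
-/

namespace HypRat

open Filter Topology MvPolynomial

/-- The hull of a compact set meets the unit sphere in a compact set, i.e. it is a compact subset
of projective space. -/
theorem isCompact_projHull_sphere {m : ℕ} {K : Set (Fin m → ℂ)} (hK : IsCompact K) :
    IsCompact (projHull K ∩ Metric.sphere 0 1) := by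
  refine (isCompact_sphere (0 : Fin m → ℂ) 1).of_isClosed_subset ?_ Set.inter_subset_right
  rw [← isSeqClosed_iff_isClosed]
  intro u b hu hb
  have hb1 : b ∈ Metric.sphere (0 : Fin m → ℂ) 1 :=
    Metric.isClosed_sphere.mem_of_tendsto hb (Eventually.of_forall fun n => (hu n).2)
  have hb0 : b ≠ 0 := by
    rintro rfl
    simp at hb1
  refine ⟨⟨hb0, fun k P hP h0 => ?_⟩, hb1⟩
  obtain ⟨i, hi⟩ := Function.ne_iff.mp hb0
  rw [Pi.zero_apply] at hi
  by_contra hne
  push Not at hne
  -- the quotients tend to `0`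
  have hbi : Tendsto (fun n => u n i) atTop (𝓝 (b i)) := (continuous_apply i).continuousAt.tendsto.comp hb
  have hPn : Tendsto (fun n => eval (u n) P) atTop (𝓝 0) := by
    rw [← h0]
    exact (MvPolynomial.continuous_eval P).continuousAt.tendsto.comp hb
  have hq : Tendsto (fun n => eval (u n) P / (u n i) ^ k) atTop (𝓝 0) := by
    have := hPn.div (hbi.pow k) (pow_ne_zero k hi)
    rwa [zero_div] at this
  obtain ⟨R, hR⟩ := hK.exists_bound_of_continuousOn (f := fun x => x i)
    (continuous_apply i).continuousOn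
  -- `K` is nonempty
  have hKne : K.Nonempty := by
    obtain ⟨x, hx, _⟩ := (hu 0).1.2 0 0 (MvPolynomial.isHomogeneous_zero _ _ _) (map_zero _)
    exact ⟨x, hx⟩
  obtain ⟨x0, hx0, hmin⟩ := hK.exists_isMinOn hKne
    (f := fun x => ‖eval x P‖) (MvPolynomial.continuous_eval P).norm.continuousOn
  have hδ : 0 < ‖eval x0 P‖ := norm_pos_iff.mpr (hne x0 hx0)
  have hR0 : 0 ≤ R := (norm_nonneg _).trans (hR x0 hx0)
  have hlim : Tendsto (fun n => ‖eval (u n) P / (u n i) ^ k‖ * R ^ k) atTop (𝓝 0) := by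
    have := (hq.norm).mul_const (R ^ k)
    rwa [norm_zero, zero_mul] at this
  obtain ⟨n, hn1, hn2⟩ := ((hlim.eventually (gt_mem_nhds hδ)).and
    (hbi.eventually_ne hi)).exists
  obtain ⟨x, hx, hx2⟩ := (hu n).1.2 k (P - C (eval (u n) P / (u n i) ^ k) * X i ^ k)
    (hP.sub (by
      have h1 := (MvPolynomial.isHomogeneous_C (Fin m) (eval (u n) P / (u n i) ^ k)).mul
        ((MvPolynomial.isHomogeneous_X ℂ i).pow k)
      simpa using h1))
    (by
      rw [map_sub, map_mul, eval_C, map_pow, eval_X, div_mul_cancel₀ _ (pow_ne_zero k hn2), sub_self])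
  rw [map_sub, map_mul, eval_C, map_pow, eval_X, sub_eq_zero] at hx2
  have h3 : ‖eval x P‖ ≤ ‖eval (u n) P / (u n i) ^ k‖ * R ^ k := by
    rw [hx2, norm_mul, norm_pow]
    exact mul_le_mul_of_nonneg_left (pow_le_pow_left₀ (norm_nonneg _) (hR x hx) k) (norm_nonneg _)
  have h4 : ‖eval x0 P‖ ≤ ‖eval x P‖ := hmin hx
  linarith

/-- **Rational convexity of the components in `Rat_d`.** -/
theorem isCompact_projHull_inter {d : ℕ} (hd : 2 ≤ d) (b₀ : Par d) {K : Set (Par d)}
    (hK : IsCompact K) (hKΩ : K ⊆ connectedComponentIn (ExpandingRat d) b₀) :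
    projHull K ⊆ ExpandingRat d ∧
      IsCompact (projHull K ∩ connectedComponentIn (ExpandingRat d) b₀ ∩ Metric.sphere 0 1) := by
  have h1 := projHull_subset hd hK (hKΩ.trans (connectedComponentIn_subset _ _))
  refine ⟨h1, ?_⟩
  have e : projHull K ∩ connectedComponentIn (ExpandingRat d) b₀ ∩ Metric.sphere 0 1 =
      (projHull K ∩ Metric.sphere 0 1) ∩ closure (connectedComponentIn (ExpandingRat d) b₀) := by
    ext a
    constructor
    · rintro ⟨⟨h2, h3⟩, h4⟩
      exact ⟨⟨h2, h4⟩, subset_closure h3⟩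
    · rintro ⟨⟨h2, h4⟩, h3⟩
      exact ⟨⟨h2, Hyp20.relClosed_component (ExpandingRat d) b₀ a (h1 h2) h3⟩, h4⟩
  rw [e]
  exact (isCompact_projHull_sphere hK).inter_right isClosed_closure

end HypRat
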