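import Pool.Agent.Lib.Hyp.Rat.Alg95

/-!
The invariant functions `Rf` (cross ratio minus one) and `Lf` (logarithmic derivative) of a
critical point and two reference points (helper95).
-/

namespace HypRat

open Filter Topology

/-- `k`-th point of the orbit under the `N`-th iterate. -/
noncomputable def orb (d N k : ℕ) (b : Par d) (c : ℂ × ℂ) : ℂ × ℂ := (F d b)^[k * N] c

/-- Cross ratio minus one. -/
noncomputable def Rf (d N k : ℕ) (b : Par d) (c α β : ℂ × ℂ) : ℂ :=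
  wedge (orb d N k b c) (orb d N (k + 1) b c) * wedge α β /
    (wedge (orb d N k b c) β * wedge (orb d N (k + 1) b c) α)

/-- Logarithmic derivative of the `N`-th iterate at the `k`-th point. -/
noncomputable def Lf (d N k : ℕ) (b : Par d) (c α β : ℂ × ℂ) : ℂ :=
  jacN d b N (orb d N k b c) * (wedge (orb d N k b c) α * wedge (orb d N k b c) β) /
    (wedge (orb d N (k + 1) b c) α * wedge (orb d N (k + 1) b c) β)

theorem orb_succ (d N k : ℕ) (b : Par d) (c : ℂ × ℂ) :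
    orb d N (k + 1) b c = (F d b)^[N] (orb d N k b c) := by
  unfold orb
  rw [← Function.iterate_add_apply]
  congr 2
  ring

theorem orb_ne_zero {d : ℕ} {b : Par d} (hb : Nondeg d b) {c : ℂ × ℂ} (hc : c ≠ 0) (N k : ℕ) :
    orb d N k b c ≠ 0 := iter_ne_zero hb hc _

theorem differentiable_orb_joint (d N k : ℕ) :
    Differentiable ℂ (fun p : Par d × (ℂ × ℂ) => orb d N k p.1 p.2) :=
  differentiable_iter_joint d (k * N)

theorem wedge_smul_smul (s p : ℂ) (x α : ℂ × ℂ) :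
    wedge (s • x) (p • α) = s * p * wedge x α := by
  rw [wedge_smul_left, wedge_smul_right, mul_assoc]

/-- Scaling of the orbit. -/
theorem orb_scaling {d : ℕ} (hd : 1 ≤ d) (b : Par d) (N k : ℕ) {t u : ℂ} (ht : t ≠ 0)
    (hu : u ≠ 0) (c : ℂ × ℂ) : ∃ s s' : ℂ, s ≠ 0 ∧ s' ≠ 0 ∧
      orb d N k (t • b) (u • c) = s • orb d N k b c ∧
      orb d N (k + 1) (t • b) (u • c) = s' • orb d N (k + 1) b c ∧
      jacN d (t • b) N (s • orb d N k b c) * s ^ 2 = s' ^ 2 * jacN d b N (orb d N k b c) := by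
  obtain ⟨s, hs, h1, -⟩ := scaling hd b (k * N) ht hu c
  obtain ⟨s', hs', h1', h2'⟩ := scaling hd b N ht hs (orb d N k b c)
  refine ⟨s, s', hs, hs', h1, ?_, h2'⟩
  rw [orb_succ, orb_succ]
  have : orb d N k (t • b) (u • c) = s • orb d N k b c := h1
  rw [this]
  exact h1'

theorem Rf_scaling {d : ℕ} (hd : 1 ≤ d) (N k : ℕ) (b : Par d) {t u p q : ℂ} (ht : t ≠ 0)
    (hu : u ≠ 0) (hp : p ≠ 0) (hq : q ≠ 0) (c α β : ℂ × ℂ) :
    Rf d N k (t • b) (u • c) (p • α) (q • β) = Rf d N k b c α β := by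
  obtain ⟨s, s', hs, hs', h1, h2, -⟩ := orb_scaling hd b N k ht hu c
  unfold Rf
  rw [h1, h2, wedge_smul_smul, wedge_smul_smul, wedge_smul_smul, wedge_smul_smul]
  have e1 : s * s' * wedge (orb d N k b c) (orb d N (k + 1) b c) * (p * q * wedge α β) =
      (s * s' * p * q) * (wedge (orb d N k b c) (orb d N (k + 1) b c) * wedge α β) := by ring
  have e2 : s * q * wedge (orb d N k b c) β * (s' * p * wedge (orb d N (k + 1) b c) α) =
      (s * s' * p * q) * (wedge (orb d N k b c) β * wedge (orb d N (k + 1) b c) α) := by ring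
  have e3 : s * s' * p * q ≠ 0 := by positivity
  rw [e1, e2, mul_div_mul_left _ _ e3]

theorem Lf_scaling {d : ℕ} (hd : 1 ≤ d) (N k : ℕ) (b : Par d) {t u p q : ℂ} (ht : t ≠ 0)
    (hu : u ≠ 0) (hp : p ≠ 0) (hq : q ≠ 0) (c α β : ℂ × ℂ) :
    Lf d N k (t • b) (u • c) (p • α) (q • β) = Lf d N k b c α β := by
  obtain ⟨s, s', hs, hs', h1, h2, h3⟩ := orb_scaling hd b N k ht hu c
  unfold Lf
  rw [h1, h2, wedge_smul_smul, wedge_smul_smul, wedge_smul_smul, wedge_smul_smul]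
  have e1 : jacN d (t • b) N (s • orb d N k b c) *
      (s * p * wedge (orb d N k b c) α * (s * q * wedge (orb d N k b c) β)) =
      (s' ^ 2 * p * q) * (jacN d b N (orb d N k b c) *
        (wedge (orb d N k b c) α * wedge (orb d N k b c) β)) := by
    linear_combination (p * q * wedge (orb d N k b c) α * wedge (orb d N k b c) β) * h3
  have e2 : s' * p * wedge (orb d N (k + 1) b c) α *
      (s' * q * wedge (orb d N (k + 1) b c) β) =
      (s' ^ 2 * p * q) * (wedge (orb d N (k + 1) b c) α * wedge (orb d N (k + 1) b c) β) := by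
    ring
  have e3 : s' ^ 2 * p * q ≠ 0 := by positivity
  rw [e1, e2, mul_div_mul_left _ _ e3]

theorem norm_wedge_eq {x y : ℂ × ℂ} (hx : x ≠ 0) (hy : y ≠ 0) :
    ‖wedge x y‖ = chord x y * (‖x‖ * ‖y‖) := by
  unfold chord
  have h1 : ‖x‖ ≠ 0 := norm_ne_zero_iff.mpr hx
  have h2 : ‖y‖ ≠ 0 := norm_ne_zero_iff.mpr hy
  field_simp

theorem norm_Rf {d : ℕ} {b : Par d} (hb : Nondeg d b) {c α β : ℂ × ℂ} (hc : c ≠ 0) (hα : α ≠ 0)
    (hβ : β ≠ 0) (N k : ℕ) :
    ‖Rf d N k b c α β‖ = chord (orb d N k b c) (orb d N (k + 1) b c) * chord α β /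
      (chord (orb d N k b c) β * chord (orb d N (k + 1) b c) α) := by
  have h1 := orb_ne_zero hb hc N k
  have h2 := orb_ne_zero hb hc N (k + 1)
  unfold Rf
  rw [norm_div, norm_mul, norm_mul, norm_wedge_eq h1 h2, norm_wedge_eq hα hβ,
    norm_wedge_eq h1 hβ, norm_wedge_eq h2 hα]
  have n1 : 0 < ‖orb d N k b c‖ := norm_pos_iff.mpr h1
  have n2 : 0 < ‖orb d N (k + 1) b c‖ := norm_pos_iff.mpr h2
  have n3 : 0 < ‖α‖ := norm_pos_iff.mpr hα
  have n4 : 0 < ‖β‖ := norm_pos_iff.mpr hβ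
  rw [show chord (orb d N k b c) (orb d N (k + 1) b c) *
        (‖orb d N k b c‖ * ‖orb d N (k + 1) b c‖) * (chord α β * (‖α‖ * ‖β‖)) =
      (‖orb d N k b c‖ * ‖orb d N (k + 1) b c‖ * ‖α‖ * ‖β‖) *
        (chord (orb d N k b c) (orb d N (k + 1) b c) * chord α β) by ring,
    show chord (orb d N k b c) β * (‖orb d N k b c‖ * ‖β‖) *
        (chord (orb d N (k + 1) b c) α * (‖orb d N (k + 1) b c‖ * ‖α‖)) =
      (‖orb d N k b c‖ * ‖orb d N (k + 1) b c‖ * ‖α‖ * ‖β‖) *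
        (chord (orb d N k b c) β * chord (orb d N (k + 1) b c) α) by ring]
  exact mul_div_mul_left _ _ (by positivity)

theorem norm_Lf {d : ℕ} {b : Par d} (hb : Nondeg d b) {c α β : ℂ × ℂ} (hc : c ≠ 0) (hα : α ≠ 0)
    (hβ : β ≠ 0) (N k : ℕ) :
    ‖Lf d N k b c α β‖ = sig d b N (orb d N k b c) *
      (chord (orb d N k b c) α * chord (orb d N k b c) β) /
      (chord (orb d N (k + 1) b c) α * chord (orb d N (k + 1) b c) β) := by
  have h1 := orb_ne_zero hb hc N k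
  have h2 := orb_ne_zero hb hc N (k + 1)
  unfold Lf sig
  rw [norm_div, norm_mul, norm_mul, norm_mul, norm_wedge_eq h1 hα, norm_wedge_eq h1 hβ,
    norm_wedge_eq h2 hα, norm_wedge_eq h2 hβ, ← orb_succ]
  have n1 : 0 < ‖orb d N k b c‖ := norm_pos_iff.mpr h1
  have n2 : 0 < ‖orb d N (k + 1) b c‖ := norm_pos_iff.mpr h2
  have n3 : 0 < ‖α‖ := norm_pos_iff.mpr hα
  have n4 : 0 < ‖β‖ := norm_pos_iff.mpr hβ
  rw [show chord (orb d N (k + 1) b c) α * (‖orb d N (k + 1) b c‖ * ‖α‖) *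
        (chord (orb d N (k + 1) b c) β * (‖orb d N (k + 1) b c‖ * ‖β‖)) =
      (‖orb d N (k + 1) b c‖ ^ 2 * (‖α‖ * ‖β‖)) *
        (chord (orb d N (k + 1) b c) α * chord (orb d N (k + 1) b c) β) by ring,
    ← div_div]
  congr 1
  field_simp

/-- Bound for `Rf`. -/
theorem norm_Rf_le {d : ℕ} {b : Par d} (hb : Nondeg d b) {c α β : ℂ × ℂ} (hc : c ≠ 0)
    (hα : α ≠ 0) (hβ : β ≠ 0) {N k : ℕ} {A δ : ℝ} (hδ : 0 < δ) (hA0 : 0 ≤ A)
    (hA : chord (orb d N k b c) (orb d N (k + 1) b c) ≤ A)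
    (h1 : δ ≤ chord (orb d N k b c) β) (h2 : δ ≤ chord (orb d N (k + 1) b c) α) :
    ‖Rf d N k b c α β‖ ≤ 2 * A / δ ^ 2 := by
  rw [norm_Rf hb hc hα hβ]
  have h3 := chord_le_two α β
  have h4 := chord_nonneg α β
  have h5 := chord_nonneg (orb d N k b c) (orb d N (k + 1) b c)
  apply div_le_div₀ (by positivity)
  · nlinarith
  · positivity
  · nlinarith

/-- Bound for `Lf`. -/
theorem norm_Lf_le {d : ℕ} {b : Par d} (hb : Nondeg d b) {c α β : ℂ × ℂ} (hc : c ≠ 0)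
    (hα : α ≠ 0) (hβ : β ≠ 0) {N k : ℕ} {A δ ρ : ℝ} (hδ : 0 < δ) (hA0 : 0 ≤ A)
    (hA : chord (orb d N k b c) (orb d N (k + 1) b c) ≤ A)
    (hρ : sig d b N (orb d N k b c) ≤ ρ)
    (h1 : δ ≤ chord (orb d N (k + 1) b c) α) (h2 : δ ≤ chord (orb d N (k + 1) b c) β) :
    ‖Lf d N k b c α β‖ ≤ ρ * (1 + A / δ) ^ 2 := by
  rw [norm_Lf hb hc hα hβ]
  have n1 := orb_ne_zero hb hc N k
  have n2 := orb_ne_zero hb hc N (k + 1)
  have key : ∀ γ : ℂ × ℂ, γ ≠ 0 → δ ≤ chord (orb d N (k + 1) b c) γ →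
      chord (orb d N k b c) γ ≤ (1 + A / δ) * chord (orb d N (k + 1) b c) γ := by
    intro γ hγ h
    have h3 := chord_triangle n1 n2 hγ
    have h4 : A ≤ A / δ * chord (orb d N (k + 1) b c) γ := by
      calc A = A / δ * δ := by field_simp
        _ ≤ A / δ * chord (orb d N (k + 1) b c) γ := mul_le_mul_of_nonneg_left h (by positivity)
    linarith
  have k1 := key α hα h1
  have k2 := key β hβ h2
  have p1 : 0 < chord (orb d N (k + 1) b c) α := lt_of_lt_of_le hδ h1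
  have p2 : 0 < chord (orb d N (k + 1) b c) β := lt_of_lt_of_le hδ h2
  rw [div_le_iff₀ (by positivity)]
  have hs := sig_nonneg d b N (orb d N k b c)
  have hρ0 : 0 ≤ ρ := hs.trans hρ
  calc sig d b N (orb d N k b c) * (chord (orb d N k b c) α * chord (orb d N k b c) β)
      ≤ ρ * (((1 + A / δ) * chord (orb d N (k + 1) b c) α) *
          ((1 + A / δ) * chord (orb d N (k + 1) b c) β)) := by
        apply mul_le_mul hρ _ (by have := chord_nonneg (orb d N k b c) α; have := chord_nonneg (orb d N k b c) β; positivity) hρ0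
        exact mul_le_mul k1 k2 (chord_nonneg _ _) (by positivity)
    _ = ρ * (1 + A / δ) ^ 2 *
          (chord (orb d N (k + 1) b c) α * chord (orb d N (k + 1) b c) β) := by ring

end HypRat
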