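import Pool.Agent.Lib.Hyp.Rat.DynSep25
import Pool.Agent.Lib.Hyp.Rat.RL95

/-!
MP_47150b_an, module LO of the local hyperconvexity (helper25): common period on the components
of `ExpandingRat d`, multipliers of the limit cycles of critical orbits, sharp local rates.
-/

namespace HypRat

open Filter Topology

attribute [local irreducible] jac F jacN

/-- All critical orbits converge under the `N`-th iterate to attracting points. -/
def Conv (d N : ℕ) : Set (Par d) :=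
  {b | Nondeg d b ∧ ∀ c, IsCrit d b c → ∃ al, IsAttracting d b N al ∧
    Tendsto (fun k : ℕ => chord ((F d b)^[N * k] c) al) atTop (𝓝 0)}

/-- The orbit of `[c]` converges under the `N`-th iterate to the attracting point `[al]`. -/
def ToCyc (d : ℕ) (b : Par d) (N : ℕ) (c al : ℂ × ℂ) : Prop :=
  IsAttracting d b N al ∧ Tendsto (fun k : ℕ => chord ((F d b)^[N * k] c) al) atTop (𝓝 0)

/-- The size of the multiplier of the limit cycle. -/
noncomputable def mu (d N : ℕ) (b : Par d) (c : ℂ × ℂ) : ℝ :=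
  limUnder atTop (fun k : ℕ => sig d b N (orb d N k b c))

namespace Sharp25

open Ref11 Dyn25

theorem mem_Conv_iff {d N : ℕ} {b : Par d} : b ∈ Conv d N ↔
    Nondeg d b ∧ ∀ c, IsCrit d b c → ∃ al, ToCyc d b N c al := Iff.rfl

theorem fixed_of_attracting {d : ℕ} {b : Par d} {N : ℕ} {al : ℂ × ℂ}
    (h : IsAttracting d b N al) : wedge al ((F d b)^[N] al) = 0 := by
  obtain ⟨-, l, μ, hl, -⟩ := h
  rw [hl, wedge_smul_right, wedge_self, mul_zero]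

/-- Multiplier of a multiple of the period. -/
theorem sig_mul {d : ℕ} (hd : 1 ≤ d) {b : Par d} (hb : Nondeg d b) {al : ℂ × ℂ} (hal : al ≠ 0)
    {N : ℕ} (h : wedge al ((F d b)^[N] al) = 0) (m : ℕ) :
    sig d b (N * m) al = sig d b N al ^ m := by
  induction m with
  | zero =>
    have hn : ‖al‖ ≠ 0 := norm_ne_zero_iff.2 hal
    simp only [Nat.mul_zero, sig, jacN_zero, norm_one, one_mul, Function.iterate_zero, id, pow_zero]
    exact div_self (pow_ne_zero _ hn)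
  | succ m ih =>
    obtain ⟨s, hs⟩ := exists_smul_of_wedge_eq_zero hal (periodic_mul hb hal h m)
    have hs0 : s ≠ 0 := by
      rintro rfl
      rw [zero_smul] at hs
      exact iter_ne_zero hb hal _ hs
    rw [Nat.mul_succ, sig_add hb _ _ hal, ih, hs, sig_smul' hd b N hs0, pow_succ]

theorem attracting_mul {d : ℕ} (hd : 1 ≤ d) {b : Par d} (hb : Nondeg d b) {al : ℂ × ℂ} {N : ℕ}
    (h : IsAttracting d b N al) {m : ℕ} (hm : 1 ≤ m) : IsAttracting d b (N * m) al := by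
  have hal : al ≠ 0 := h.1
  have hfix := fixed_of_attracting h
  rw [isAttracting_iff_sig hd hb hal] at h ⊢
  refine ⟨wedge_symm (periodic_mul hb hal hfix m), ?_⟩
  rw [sig_mul hd hb hal hfix]
  exact pow_lt_one₀ (sig_nonneg _ _ _ _) h.2 (by omega)

theorem toCyc_mul {d : ℕ} (hd : 1 ≤ d) {b : Par d} (hb : Nondeg d b) {N : ℕ} {c al : ℂ × ℂ}
    (h : ToCyc d b N c al) {m : ℕ} (hm : 1 ≤ m) : ToCyc d b (N * m) c al := by
  refine ⟨attracting_mul hd hb h.1 hm, ?_⟩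
  have e : (fun k : ℕ => chord ((F d b)^[N * m * k] c) al) =
      (fun k : ℕ => chord ((F d b)^[N * k] c) al) ∘ fun k => m * k := by
    funext k
    rw [Function.comp_apply, Nat.mul_assoc]
  rw [e]
  refine h.2.comp (tendsto_atTop_mono (fun k => ?_) tendsto_id)
  exact Nat.le_mul_of_pos_left k hm

/-- Change of period. -/
theorem toCyc_change {d : ℕ} (hd : 1 ≤ d) {b : Par d} (hb : Nondeg d b) {N₀ N : ℕ}
    {c al : ℂ × ℂ} (hc : c ≠ 0) (h : ToCyc d b N₀ c al) (hN₀ : 1 ≤ N₀) (hN : 1 ≤ N)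
    (hfix : wedge al ((F d b)^[N] al) = 0) : ToCyc d b N c al := by
  have hal : al ≠ 0 := h.1.1
  obtain ⟨h1, h2⟩ := toCyc_mul hd hb h hN
  refine ⟨?_, ?_⟩
  · rw [isAttracting_iff_sig hd hb hal] at h1 ⊢
    refine ⟨wedge_symm hfix, ?_⟩
    have h3 := h1.2
    rw [Nat.mul_comm, sig_mul hd hb hal hfix] at h3
    by_contra hc'
    push Not at hc'
    exact absurd h3 (not_lt.mpr (one_le_pow₀ hc'))
  · rw [Metric.tendsto_atTop]
    intro η hη
    have hj : ∀ j : ℕ, ∀ᶠ m : ℕ in atTop, chord ((F d b)^[N * (j + N₀ * m)] c) al < η := by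
      intro j
      obtain ⟨ε, hε, hε1⟩ := chord_iter_near hb hal (N * j) hη
      obtain ⟨s, hs⟩ := exists_smul_of_wedge_eq_zero hal (periodic_mul hb hal hfix j)
      have hs0 : s ≠ 0 := by
        rintro rfl
        rw [zero_smul] at hs
        exact iter_ne_zero hb hal _ hs
      have h3 := hε1.self_of_nhds
      filter_upwards [h2.eventually (gt_mem_nhds hε)] with m hm
      have h4 := h3 _ (iter_ne_zero hb hc _) hm.le
      rw [hs, chord_smul_right hs0, ← Function.iterate_add_apply] at h4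
      have e : N * (j + N₀ * m) = N * j + N₀ * N * m := by ring
      rw [e]
      exact h4
    have h3 : ∀ᶠ m : ℕ in atTop, ∀ j ∈ Finset.range N₀,
        chord ((F d b)^[N * (j + N₀ * m)] c) al < η := by
      rw [Filter.eventually_all_finset]
      exact fun j _ => hj j
    obtain ⟨M, hM⟩ := eventually_atTop.1 h3
    refine ⟨N₀ * M, fun k hk => ?_⟩
    have h4 : M ≤ k / N₀ := by
      rw [Nat.le_div_iff_mul_le (by omega), Nat.mul_comm]; exact hk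
    have h5 := hM (k / N₀) h4 (k % N₀) (Finset.mem_range.2 (Nat.mod_lt _ (by omega)))
    rw [Nat.mod_add_div] at h5
    rw [Real.dist_eq, sub_zero, abs_of_nonneg (chord_nonneg _ _)]
    exact h5

/-- The limit points agree up to scaling. -/
theorem toCyc_wedge_eq {d : ℕ} (hd : 1 ≤ d) {b : Par d} (hb : Nondeg d b) {N M : ℕ}
    {c al be : ℂ × ℂ} (hc : c ≠ 0) (hN : 1 ≤ N) (hM : 1 ≤ M) (h1 : ToCyc d b N c al)
    (h2 : ToCyc d b M c be) : wedge al be = 0 := by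
  have e1 := (toCyc_mul hd hb h1 hM).2
  have e2 := (toCyc_mul hd hb h2 hN).2
  rw [Nat.mul_comm M N] at e2
  exact wedge_eq_zero_of_chord_tendsto (fun k => iter_ne_zero hb hc _) h1.1.1 h2.1.1 e1 e2

theorem exists_mem_Conv {d : ℕ} (hd : 1 ≤ d) {b : Par d} (hb : b ∈ ExpandingRat d) :
    ∃ N, 1 ≤ N ∧ b ∈ Conv d N := by
  obtain ⟨N, k0, C, ρ, hN, hC, hρ0, hρ1, h⟩ := cert hd (isCompact_singleton (x := b))
    (Set.singleton_subset_iff.2 hb)
  refine ⟨N, hN, hb.1, fun c hc => ?_⟩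
  obtain ⟨γ, -, h1, -, -, h2⟩ := exists_attracting_of_estPt hd hb.1 hc.1 hC hρ0 hρ1
    (h b rfl c hc)
  exact ⟨γ, h1, h2⟩

theorem Conv_subset {d N : ℕ} (hN : 1 ≤ N) : Conv d N ⊆ ExpandingRat d := by
  rintro b ⟨hb, h⟩
  refine ⟨hb, fun c hc => ?_⟩
  obtain ⟨al, h1, h2⟩ := h c hc
  exact ⟨N, hN, al, h1, h2⟩

theorem toCyc_of_smul {d : ℕ} {b : Par d} {N : ℕ} {c al : ℂ × ℂ} {t : ℂ} (ht : t ≠ 0)
    (h : ToCyc d b N (t • c) al) : ToCyc d b N c al := by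
  refine ⟨h.1, h.2.congr fun k => ?_⟩
  rw [iter_smul, chord_smul_left (pow_ne_zero _ ht)]

theorem isOpen_Conv {d : ℕ} (hd : 1 ≤ d) (N : ℕ) : IsOpen (Conv d N) := by
  rw [isOpen_iff_mem_nhds]
  rintro b₀ ⟨hn, hcyc⟩
  have hK : IsCompact (Metric.sphere (0 : ℂ × ℂ) 1) := isCompact_sphere _ _
  have hev : ∀ᶠ b in 𝓝 b₀, ∀ x ∈ Metric.sphere (0 : ℂ × ℂ) 1,
      Nondeg d b → IsCrit d b x → ∃ al, ToCyc d b N x al := by
    refine hK.eventually_forall_of_forall_eventually ?_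
    intro x hx
    have hx0 : x ≠ 0 := by
      rintro rfl
      simp at hx
    by_cases hj : jac d b₀ x = 0
    · obtain ⟨al, hal, hlim⟩ := hcyc x ((isCrit_iff hd).mpr ⟨hx0, hj⟩)
      obtain ⟨ρ, k0, hρ0, hρ1, hev⟩ := local_orbit hd hn hx0 hal hlim one_pos
      filter_upwards [hev] with p hp hpn hpc
      have hest : EstPt d p.1 p.2 N k0 (2 * (ρ ^ k0)⁻¹) ρ := by
        intro k hk
        obtain ⟨-, h2, h3⟩ := hp.2.2 k hk
        refine ⟨h2.trans (le_of_eq ?_), h3⟩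
        obtain ⟨j, rfl⟩ := Nat.exists_eq_add_of_le hk
        rw [Nat.add_sub_cancel_left, pow_add]
        have : ρ ^ k0 ≠ 0 := pow_ne_zero _ hρ0.ne'
        field_simp
      obtain ⟨γ, -, h1, -, -, h2⟩ := exists_attracting_of_estPt hd hpn hpc.1 (by positivity)
        hρ0.le hρ1 hest
      exact ⟨γ, h1, h2⟩
    · have h1 : ∀ᶠ p : Par d × (ℂ × ℂ) in 𝓝 (b₀, x), jac d p.1 p.2 ≠ 0 :=
        (continuous_jac_joint d).continuousAt.eventually_ne hj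
      filter_upwards [h1] with p hp _ hpc
      exact absurd ((isCrit_iff hd).mp hpc).2 hp
  filter_upwards [hev, (isOpen_nondeg d).mem_nhds hn] with b hb hbn
  have hbn' : Nondeg d b := hbn
  refine ⟨hbn', fun x hx => ?_⟩
  obtain ⟨t, ht, ht1⟩ := exists_unit hx.1
  obtain ⟨al, hal⟩ := hb _ (mem_sphere_zero_iff_norm.mpr ht1) hbn' (isCrit_smul hd ht hx)
  exact ⟨al, toCyc_of_smul ht hal⟩

theorem closure_Conv {d N : ℕ} (hd : 1 ≤ d) (hN : 1 ≤ N) :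
    closure (Conv d N) ∩ ExpandingRat d ⊆ Conv d N := by
  rintro b ⟨hb, hbE⟩
  obtain ⟨N₀, hN₀, hbN₀⟩ := exists_mem_Conv hd hbE
  have hbn : Nondeg d b := hbE.1
  refine ⟨hbn, fun c₀ hc₀ => ?_⟩
  obtain ⟨al, hal⟩ : ∃ al, ToCyc d b N₀ c₀ al := hbN₀.2 c₀ hc₀
  have hal0 : al ≠ 0 := hal.1.1
  refine ⟨al, toCyc_change hd hbn hc₀.1 hal hN₀ hN ?_⟩
  by_contra hne
  -- the defect
  have hpos : 0 < chord al ((F d b)^[N] al) := by
    refine lt_of_le_of_ne (chord_nonneg _ _) fun h => hne ?_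
    exact (chord_eq_zero_iff11 hal0 (iter_ne_zero hbn hal0 N)).1 h.symm
  set η := chord al ((F d b)^[N] al) / 3 with hη
  have hη0 : 0 < η := by positivity
  obtain ⟨ε, hε, hε1⟩ := chord_iter_near hbn hal0 N hη0
  obtain ⟨k0, hk0⟩ := local_trap hd hbn hc₀.1 hal.1 hal.2 (ε := min ε η) (by positivity)
  rw [nhds_prod_eq, eventually_prod_iff] at hk0
  obtain ⟨pa, hpa, pb, hpb, hp⟩ := hk0
  obtain ⟨δ, hδ, hδ1⟩ := Metric.eventually_nhds_iff.1 hpb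
  have hev : ∀ᶠ a in 𝓝 b, pa a ∧ (∃ c, IsCrit d a c ∧ ‖c - c₀‖ < δ) ∧ a ∈ Conv d N₀ ∧
      (∀ x : ℂ × ℂ, x ≠ 0 → chord x al ≤ ε →
        chord ((F d a)^[N] x) ((F d b)^[N] al) < η) := by
    filter_upwards [hpa, exists_crit_near hd hbn hc₀ hδ, (isOpen_Conv hd N₀).mem_nhds hbN₀, hε1]
      with a h1 h2 h3 h4
    exact ⟨h1, h2, h3, h4⟩
  obtain ⟨a, ⟨ha1, ⟨c, hc, hcc⟩, ha3, ha4⟩, haN⟩ := mem_closure_iff_nhds.mp hb _ hev
  have han : Nondeg d a := ha3.1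
  obtain ⟨α', hα'⟩ : ∃ al, ToCyc d a N₀ c al := ha3.2 c hc
  obtain ⟨β', hβ'⟩ : ∃ al, ToCyc d a N c al := haN.2 c hc
  have hα0 : α' ≠ 0 := hα'.1.1
  have hβ0 : β' ≠ 0 := hβ'.1.1
  have hab : wedge α' β' = 0 := toCyc_wedge_eq hd han hc.1 hN₀ hN hα' hβ'
  have hfix : wedge α' ((F d a)^[N] α') = 0 := by
    have h1 := fixed_of_attracting hβ'.1
    have h2 := wedge_iter_eq_zero (b := a) hα0 hab N
    exact wedge_trans hα0 (iter_ne_zero han hβ0 N) (wedge_trans hα0 hβ0 hab h1) (wedge_symm h2)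
  have hnear : chord α' al ≤ min ε η := by
    have h1 : ∀ᶠ k : ℕ in atTop, chord ((F d a)^[N₀ * k] c) al ≤ min ε η := by
      filter_upwards [eventually_ge_atTop k0] with k hk
      exact hp ha1 (hδ1 (y := c) (by rwa [dist_eq_norm])) k hk
    have h2 : ∀ᶠ k : ℕ in atTop, chord α' al ≤ chord ((F d a)^[N₀ * k] c) α' + min ε η := by
      filter_upwards [h1] with k hk
      have h3 := chord_triangle hα0 (iter_ne_zero han hc.1 (N₀ * k)) hal0
      rw [chord_comm α' ((F d a)^[N₀ * k] c)] at h3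
      linarith
    have h3 := ge_of_tendsto (hα'.2.add_const (min ε η)) h2
    rwa [zero_add] at h3
  have h1 := ha4 α' hα0 (hnear.trans (min_le_left _ _))
  have h2 : chord α' al ≤ η := hnear.trans (min_le_right _ _)
  have h3 : chord α' ((F d a)^[N] α') = 0 :=
    (chord_eq_zero_iff11 hα0 (iter_ne_zero han hα0 N)).2 hfix
  have h4 := chord_triangle hal0 hα0 (iter_ne_zero hbn hal0 N)
  have h5 := chord_triangle hα0 (iter_ne_zero han hα0 N) (iter_ne_zero hbn hal0 N)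
  rw [chord_comm al α'] at h4
  have h6 : chord al ((F d b)^[N] al) = 3 * η := by rw [hη]; ring
  linarith

/-- The local trap with a given rate. -/
theorem trap_sharp {d : ℕ} (hd : 1 ≤ d) {b₀ : Par d} (hb : Nondeg d b₀) {q : ℕ} {α : ℂ × ℂ}
    (h : IsAttracting d b₀ q α) {ρ : ℝ} (hρ0 : 0 < ρ) (hρ1 : ρ < 1)
    (hρs : sig d b₀ q α < ρ) {ε : ℝ} (hε : 0 < ε) :
    ∃ δ : ℝ, 0 < δ ∧ δ ≤ ε ∧ ∀ᶠ b in 𝓝 b₀, Nondeg d b ∧
      (∀ x y : ℂ × ℂ, x ≠ 0 → y ≠ 0 → chord x α ≤ δ → chord y α ≤ δ →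
        chord ((F d b)^[q] x) ((F d b)^[q] y) ≤ ρ * chord x y) ∧
      (∀ x : ℂ × ℂ, x ≠ 0 → chord x α ≤ δ → sig d b q x ≤ ρ) ∧
      (∀ x : ℂ × ℂ, x ≠ 0 → chord x α ≤ δ → chord ((F d b)^[q] x) α ≤ δ) := by
  have hα : α ≠ 0 := h.1
  have hα' : 0 < ‖α‖ := norm_pos_iff.mpr hα
  obtain ⟨hw, -⟩ := (isAttracting_iff_sig hd hb hα).mp h
  have hSS : SS d b₀ q α α < ρ := by rwa [SS_self hd hb q hα]
  have hev : ∀ᶠ p : Par d × ((ℂ × ℂ) × (ℂ × ℂ)) in 𝓝 (b₀, (α, α)), SS d p.1 q p.2.1 p.2.2 < ρ :=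
    (continuousAt_SS hb q hα hα).eventually (gt_mem_nhds hSS)
  obtain ⟨U, hU, W, hW, hUW⟩ := mem_nhds_prod_iff.mp hev
  obtain ⟨η, hη, hηW⟩ := Metric.mem_nhds_iff.mp hW
  -- the radius
  obtain ⟨δ, hδ0, hδ⟩ : ∃ δ : ℝ, 0 < δ ∧ δ < min (min ε (1 / 2)) (η / (2 * ‖α‖)) :=
    exists_between (by positivity)
  have hδε : δ < ε := hδ.trans_le ((min_le_left _ _).trans (min_le_left _ _))
  have hδ1 : δ < 1 / 2 := hδ.trans_le ((min_le_left _ _).trans (min_le_right _ _))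
  have hδη : δ * ‖α‖ < η := by
    have h1 : δ < η / (2 * ‖α‖) := hδ.trans_le (min_le_right _ _)
    have h2 : δ * ‖α‖ < η / (2 * ‖α‖) * ‖α‖ := mul_lt_mul_of_pos_right h1 hα'
    have h3 : η / (2 * ‖α‖) * ‖α‖ = η / 2 := by field_simp
    linarith
  have hball : ∀ x : ℂ × ℂ, x ≠ 0 → chord x α ≤ δ → ∃ t : ℂ, t ≠ 0 ∧ ‖t • x - α‖ < η := by
    intro x hx hxδ
    obtain ⟨t, ht, h1⟩ := Ch.exists_smul_near' hx hα (by linarith)
    refine ⟨t, ht, h1.trans_lt ?_⟩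
    exact (mul_le_mul_of_nonneg_right hxδ hα'.le).trans_lt hδη
  have hmem : ∀ b ∈ U, ∀ x y : ℂ × ℂ, ‖x - α‖ < η → ‖y - α‖ < η → SS d b q x y < ρ := by
    intro b hbU x y hx hy
    have h1 : ((x, y) : (ℂ × ℂ) × (ℂ × ℂ)) ∈ W := by
      apply hηW
      rw [Metric.mem_ball, Prod.dist_eq, dist_eq_norm, dist_eq_norm]
      exact max_lt hx hy
    exact hUW (Set.mk_mem_prod hbU h1)
  -- invariance at the centre
  have hcen : ∀ᶠ b in 𝓝 b₀, chord ((F d b)^[q] α) α < (1 - ρ) * δ := by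
    have h1 : Tendsto (fun b : Par d => (F d b)^[q] α) (𝓝 b₀) (𝓝 ((F d b₀)^[q] α)) :=
      tendsto_iter tendsto_id tendsto_const_nhds q
    have h2 := Ch.tendsto_chord h1 tendsto_const_nhds (iter_ne_zero hb hα q) hα
    rw [(Ch.chord_eq_zero_iff (iter_ne_zero hb hα q) hα).mpr hw] at h2
    exact h2.eventually (gt_mem_nhds (mul_pos (by linarith) hδ0))
  refine ⟨δ, hδ0, hδε.le, ?_⟩
  filter_upwards [hU, hcen, (isOpen_nondeg d).mem_nhds hb] with b hbU hbc hbn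
  have hbn' : Nondeg d b := hbn
  have hcontr : ∀ x y : ℂ × ℂ, x ≠ 0 → y ≠ 0 → chord x α ≤ δ → chord y α ≤ δ →
        chord ((F d b)^[q] x) ((F d b)^[q] y) ≤ ρ * chord x y := by
    intro x y hx hy hxδ hyδ
    obtain ⟨t, ht, h1⟩ := hball x hx hxδ
    obtain ⟨s, hs, h2⟩ := hball y hy hyδ
    rw [← chord_iter_smul b q ht hs, chord_iter b q (smul_ne_zero ht hx) (smul_ne_zero hs hy),
      chord_smul_left ht, chord_smul_right hs]
    exact mul_le_mul_of_nonneg_right (hmem b hbU _ _ h1 h2).le (chord_nonneg _ _)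
  refine ⟨hbn', hcontr, ?_, ?_⟩
  · intro x hx hxδ
    obtain ⟨t, ht, h1⟩ := hball x hx hxδ
    rw [← sig_smul_right hd b q ht, ← SS_self hd hbn' q (smul_ne_zero ht hx)]
    exact (hmem b hbU _ _ h1 h1).le
  · intro x hx hxδ
    have h1 := hcontr x α hx hα hxδ (by rw [Ch.chord_self]; exact hδ0.le)
    have h2 := chord_triangle (iter_ne_zero hbn' hx q) (iter_ne_zero hbn' hα q) hα
    have h3 : ρ * chord x α ≤ ρ * δ := mul_le_mul_of_nonneg_left hxδ hρ0.le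
    linarith

/-- Uniform attraction with a given rate near an orbit which tends to an attracting cycle. -/
theorem local_orbit_sharp {d : ℕ} (hd : 1 ≤ d) {b₀ : Par d} (hb : Nondeg d b₀) {c₀ : ℂ × ℂ}
    (hc : c₀ ≠ 0) {q : ℕ} {α : ℂ × ℂ} (h : IsAttracting d b₀ q α)
    (ht : Tendsto (fun k : ℕ => chord ((F d b₀)^[q * k] c₀) α) atTop (𝓝 0)) {ρ : ℝ}
    (hρ0 : 0 < ρ) (hρ1 : ρ < 1) (hρs : sig d b₀ q α < ρ) {ε : ℝ}
    (hε : 0 < ε) : ∃ k0 : ℕ, ∀ᶠ p : Par d × (ℂ × ℂ) in 𝓝 (b₀, c₀),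
      Nondeg d p.1 ∧ p.2 ≠ 0 ∧ ∀ k, k0 ≤ k → chord ((F d p.1)^[k * q] p.2) α ≤ ε ∧
        chord ((F d p.1)^[k * q] p.2) ((F d p.1)^[(k + 1) * q] p.2) ≤ 2 * ρ ^ (k - k0) ∧
          sig d p.1 q ((F d p.1)^[k * q] p.2) ≤ ρ := by
  obtain ⟨δ, hδ0, hδε, hev⟩ := trap_sharp hd hb h hρ0 hρ1 hρs hε
  have hα : α ≠ 0 := h.1
  obtain ⟨k0, hk0⟩ := (ht.eventually (gt_mem_nhds hδ0)).exists
  rw [Nat.mul_comm] at hk0
  refine ⟨k0, ?_⟩
  have h1 : Tendsto (fun p : Par d × (ℂ × ℂ) => (F d p.1)^[k0 * q] p.2) (𝓝 (b₀, c₀))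
      (𝓝 ((F d b₀)^[k0 * q] c₀)) := (continuous_iter_joint d (k0 * q)).tendsto (b₀, c₀)
  have h2 := (Ch.tendsto_chord h1 tendsto_const_nhds (iter_ne_zero hb hc _) hα).eventually
    (gt_mem_nhds hk0)
  have h3 : ∀ᶠ p : Par d × (ℂ × ℂ) in 𝓝 (b₀, c₀), p.2 ≠ 0 :=
    continuous_snd.continuousAt.eventually_ne hc
  have h4 : Tendsto (fun p : Par d × (ℂ × ℂ) => p.1) (𝓝 (b₀, c₀)) (𝓝 b₀) :=
    continuous_fst.tendsto (b₀, c₀)
  filter_upwards [h2, h3, h4.eventually hev] with p hp2 hp3 hp4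
  obtain ⟨hn, hcon, hsig, hinv⟩ := hp4
  refine ⟨hn, hp3, ?_⟩
  have hne : ∀ k, (F d p.1)^[k * q] p.2 ≠ 0 := fun k => iter_ne_zero hn hp3 _
  have hδk : ∀ j, chord ((F d p.1)^[(k0 + j) * q] p.2) α ≤ δ := by
    intro j
    induction j with
    | zero => exact hp2.le
    | succ j ih =>
      rw [← add_assoc, iter_step]
      exact hinv _ (hne _) ih
  have hch : ∀ j, chord ((F d p.1)^[(k0 + j) * q] p.2) ((F d p.1)^[(k0 + j + 1) * q] p.2) ≤
      2 * ρ ^ j := by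
    intro j
    induction j with
    | zero =>
      rw [pow_zero, mul_one]
      exact chord_le_two _ _
    | succ j ih =>
      have h5 := hcon _ _ (hne (k0 + j)) (hne (k0 + j + 1)) (hδk j) (hδk (j + 1))
      rw [← iter_step, ← iter_step] at h5
      rw [← add_assoc]
      refine h5.trans ?_
      rw [pow_succ]
      have := mul_le_mul_of_nonneg_left ih hρ0.le
      linarith
  intro k hk
  obtain ⟨j, rfl⟩ := Nat.exists_eq_add_of_le hk
  refine ⟨(hδk j).trans hδε, ?_, hsig _ (hne _) (hδk j)⟩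
  rw [Nat.add_sub_cancel_left]
  exact hch j

/-- The spherical derivative near a point of the projective line. -/
theorem sig_near {d : ℕ} {b₀ : Par d} (hb : Nondeg d b₀) (hd : 1 ≤ d) (N : ℕ) {al : ℂ × ℂ}
    (hal : al ≠ 0) {e : ℝ} (he : 0 < e) : ∃ δ : ℝ, 0 < δ ∧ ∀ᶠ b in 𝓝 b₀, ∀ x : ℂ × ℂ, x ≠ 0 →
      chord x al ≤ δ → |sig d b N x - sig d b₀ N al| < e := by
  have h1 : Tendsto (fun p : Par d × (ℂ × ℂ) => sig d p.1 N p.2) (𝓝 (b₀, al))
      (𝓝 (sig d b₀ N al)) :=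
    tendsto_sig hb hal (continuous_fst.tendsto (b₀, al)) (continuous_snd.tendsto (b₀, al)) N
  have h2 : ∀ᶠ p : Par d × (ℂ × ℂ) in 𝓝 (b₀, al),
      |sig d p.1 N p.2 - sig d b₀ N al| < e := by
    have := (Metric.tendsto_nhds.1 h1) e he
    simpa only [Real.dist_eq] using this
  rw [nhds_prod_eq, eventually_prod_iff] at h2
  obtain ⟨pa, hpa, pb, hpb, hp⟩ := h2
  obtain ⟨δ, hδ, hδ1⟩ := Metric.eventually_nhds_iff.1 hpb
  obtain ⟨ε, hε, hε1⟩ := proj_near hal hδ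
  refine ⟨ε, hε, ?_⟩
  filter_upwards [hpa] with b hb' x hx hch
  obtain ⟨s, hs, hs1⟩ := hε1 x hx hch
  have h3 := hp hb' (hδ1 (y := s • x) (by rwa [dist_eq_norm]))
  simp only at h3
  rwa [sig_smul_right hd b N hs] at h3

/-- Along an orbit which tends to an attracting cycle the spherical derivatives converge,
locally uniformly. -/
theorem local_sig {d : ℕ} (hd : 1 ≤ d) {b₀ : Par d} (hb : Nondeg d b₀) {c₀ : ℂ × ℂ}
    (hc : c₀ ≠ 0) {N : ℕ} {al : ℂ × ℂ} (h : ToCyc d b₀ N c₀ al) {e : ℝ} (he : 0 < e) :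
    ∃ k0 : ℕ, ∀ᶠ p : Par d × (ℂ × ℂ) in 𝓝 (b₀, c₀), ∀ k, k0 ≤ k →
      |sig d p.1 N (orb d N k p.1 p.2) - sig d b₀ N al| < e := by
  obtain ⟨δ, hδ, hev⟩ := sig_near hb hd N h.1.1 he
  obtain ⟨k0, hk0⟩ := local_trap hd hb hc h.1 h.2 hδ
  refine ⟨k0, ?_⟩
  have h3 : ∀ᶠ p : Par d × (ℂ × ℂ) in 𝓝 (b₀, c₀), p.2 ≠ 0 :=
    continuous_snd.continuousAt.eventually_ne hc
  have h4 : Tendsto (fun p : Par d × (ℂ × ℂ) => p.1) (𝓝 (b₀, c₀)) (𝓝 b₀) :=
    continuous_fst.tendsto (b₀, c₀)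
  filter_upwards [hk0, h3, h4.eventually hev, h4.eventually ((isOpen_nondeg d).mem_nhds hb)]
    with p h1 h2 h5 h6 k hk
  have h6' : Nondeg d p.1 := h6
  have h7 := h1 k hk
  rw [Nat.mul_comm] at h7
  exact h5 _ (iter_ne_zero h6' h2 _) h7

/-- The multiplier of the limit. -/
theorem tendsto_mu_of {d : ℕ} (hd : 1 ≤ d) {b : Par d} (hb : Nondeg d b) {c : ℂ × ℂ}
    (hc : c ≠ 0) {N : ℕ} {al : ℂ × ℂ} (h : ToCyc d b N c al) :
    Tendsto (fun k : ℕ => sig d b N (orb d N k b c)) atTop (𝓝 (sig d b N al)) := by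
  rw [Metric.tendsto_atTop]
  intro e he
  obtain ⟨k0, hk0⟩ := local_sig hd hb hc h he
  refine ⟨k0, fun k hk => ?_⟩
  rw [Real.dist_eq]
  exact hk0.self_of_nhds k hk

theorem mu_eq {d : ℕ} (hd : 1 ≤ d) {b : Par d} (hb : Nondeg d b) {c : ℂ × ℂ}
    (hc : c ≠ 0) {N : ℕ} {al : ℂ × ℂ} (h : ToCyc d b N c al) : mu d N b c = sig d b N al :=
  (tendsto_mu_of hd hb hc h).limUnder_eq

end Sharp25

open Ref11 Dyn25 Sharp25

/-- **Common period.** -/
theorem component_subset_conv {d : ℕ} (hd : 2 ≤ d) (b₀ : Par d) :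
    ∃ N, 1 ≤ N ∧ connectedComponentIn (ExpandingRat d) b₀ ⊆ Conv d N := by
  have hd1 : 1 ≤ d := by omega
  by_cases hb₀ : b₀ ∈ ExpandingRat d
  · obtain ⟨N, hN, hbN⟩ := exists_mem_Conv hd1 hb₀
    refine ⟨N, hN, ?_⟩
    refine IsPreconnected.subset_of_closure_inter_subset isPreconnected_connectedComponentIn
      (isOpen_Conv hd1 N) ⟨b₀, mem_connectedComponentIn hb₀, hbN⟩ ?_
    exact (Set.inter_subset_inter_right _ (connectedComponentIn_subset _ _)).trans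
      (closure_Conv hd1 hN)
  · refine ⟨1, le_rfl, ?_⟩
    rw [connectedComponentIn_eq_empty hb₀]
    exact Set.empty_subset _

variable {d N : ℕ} {b b₀ : Par d} {c c₀ : ℂ × ℂ}

theorem exists_toCyc (hb : b ∈ Conv d N) (hc : IsCrit d b c) : ∃ al, ToCyc d b N c al := hb.2 c hc

theorem tendsto_mu (hd : 1 ≤ d) (hb : b ∈ Conv d N) (hc : IsCrit d b c) :
    Tendsto (fun k : ℕ => sig d b N (orb d N k b c)) atTop (𝓝 (mu d N b c)) := by
  obtain ⟨al, h⟩ := exists_toCyc hb hc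
  rw [mu_eq hd hb.1 hc.1 h]
  exact tendsto_mu_of hd hb.1 hc.1 h

theorem mu_nonneg (hd : 1 ≤ d) (hb : b ∈ Conv d N) (hc : IsCrit d b c) : 0 ≤ mu d N b c := by
  obtain ⟨al, h⟩ := exists_toCyc hb hc
  rw [mu_eq hd hb.1 hc.1 h]
  exact sig_nonneg _ _ _ _

theorem mu_lt_one (hd : 1 ≤ d) (hb : b ∈ Conv d N) (hc : IsCrit d b c) : mu d N b c < 1 := by
  obtain ⟨al, h⟩ := exists_toCyc hb hc
  rw [mu_eq hd hb.1 hc.1 h]
  exact ((isAttracting_iff_sig hd hb.1 h.1.1).1 h.1).2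

theorem mu_smul (hd : 1 ≤ d) (N : ℕ) (b : Par d) (c : ℂ × ℂ) {u : ℂ} (hu : u ≠ 0) :
    mu d N b (u • c) = mu d N b c := by
  unfold mu
  congr 1
  funext k
  unfold orb
  rw [iter_smul, sig_smul_right hd b N (pow_ne_zero _ hu)]

/-- The spherical derivatives along the orbits converge to the multiplier, locally uniformly. -/
theorem local_mu (hd : 1 ≤ d) (hb : b₀ ∈ Conv d N) (hc : IsCrit d b₀ c₀) {e : ℝ} (he : 0 < e) :
    ∃ k0 : ℕ, ∀ᶠ p : Par d × (ℂ × ℂ) in 𝓝 (b₀, c₀), ∀ k, k0 ≤ k →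
      |sig d p.1 N (orb d N k p.1 p.2) - mu d N b₀ c₀| < e := by
  obtain ⟨al, h⟩ := exists_toCyc hb hc
  rw [mu_eq hd hb.1 hc.1 h]
  exact local_sig hd hb.1 hc.1 h he

/-- Continuity of the multiplier (at critical points, along all nearby points). -/
theorem continuousAt_mu (hd : 1 ≤ d) (hb : b₀ ∈ Conv d N) (hc : IsCrit d b₀ c₀) :
    ContinuousAt (fun p : Par d × (ℂ × ℂ) => mu d N p.1 p.2) (b₀, c₀) := by
  obtain ⟨al, h⟩ := exists_toCyc hb hc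
  rw [ContinuousAt, Metric.tendsto_nhds]
  intro e he
  have h1 : sig d b₀ N al < 1 := ((isAttracting_iff_sig hd hb.1 h.1.1).1 h.1).2
  obtain ⟨ρ, hρa, hρ1⟩ := exists_between (max_lt one_pos h1)
  have hρ0 : 0 < ρ := (le_max_left _ _).trans_lt hρa
  obtain ⟨k1, hk1⟩ := local_orbit_sharp hd hb.1 hc.1 h.1 h.2 hρ0 hρ1
    ((le_max_right _ _).trans_lt hρa) one_pos
  obtain ⟨k0, hk0⟩ := local_mu hd hb hc (half_pos he)
  filter_upwards [hk0, hk1] with p hp hp1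
  -- the orbit of `p.2` converges
  have hest : EstPt d p.1 p.2 N k1 (2 * (ρ ^ k1)⁻¹) ρ := by
    intro k hk
    obtain ⟨-, h2, h3⟩ := hp1.2.2 k hk
    refine ⟨h2.trans (le_of_eq ?_), h3⟩
    obtain ⟨j, rfl⟩ := Nat.exists_eq_add_of_le hk
    rw [Nat.add_sub_cancel_left, pow_add]
    have : ρ ^ k1 ≠ 0 := pow_ne_zero _ hρ0.ne'
    field_simp
  obtain ⟨γ, -, h3, -, -, h4⟩ := exists_attracting_of_estPt hd hp1.1 hp1.2.1 (by positivity)
    hρ0.le hρ1 hest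
  have h5 : ToCyc d p.1 N p.2 γ := ⟨h3, h4⟩
  have h6 := tendsto_mu_of hd hp1.1 hp1.2.1 h5
  rw [← mu_eq hd hp1.1 hp1.2.1 h5] at h6
  have h7 : |mu d N p.1 p.2 - mu d N b₀ c₀| ≤ e / 2 := by
    refine le_of_tendsto (h6.sub_const _).abs ?_
    filter_upwards [eventually_ge_atTop k0] with k hk
    exact (hp k hk).le
  rw [Real.dist_eq]
  linarith

/-- **The sharp local rate.** -/
theorem sharp_est (hd : 1 ≤ d) (hb : b₀ ∈ Conv d N) (hc : IsCrit d b₀ c₀) {t : ℝ} (ht : 0 < t)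
    (hmt : mu d N b₀ c₀ < t) : ∃ (k0 : ℕ) (C : ℝ), 0 ≤ C ∧
      ∀ᶠ p : Par d × (ℂ × ℂ) in 𝓝 (b₀, c₀), EstPt d p.1 p.2 N k0 C t := by
  obtain ⟨al, h⟩ := exists_toCyc hb hc
  have h1 : sig d b₀ N al < 1 := ((isAttracting_iff_sig hd hb.1 h.1.1).1 h.1).2
  rw [mu_eq hd hb.1 hc.1 h] at hmt
  obtain ⟨ρ, hρa, hρb⟩ := exists_between (max_lt (lt_min one_pos ht) (lt_min h1 hmt))
  have hρ0 : 0 < ρ := (le_max_left _ _).trans_lt hρa
  have hρ1 : ρ < 1 := hρb.trans_le (min_le_left _ _)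
  have hρt : ρ < t := hρb.trans_le (min_le_right _ _)
  obtain ⟨k0, hk0⟩ := local_orbit_sharp hd hb.1 hc.1 h.1 h.2 hρ0 hρ1
    ((le_max_right _ _).trans_lt hρa) one_pos
  refine ⟨k0, 2 * (ρ ^ k0)⁻¹, by positivity, ?_⟩
  filter_upwards [hk0] with p hp
  have hest : EstPt d p.1 p.2 N k0 (2 * (ρ ^ k0)⁻¹) ρ := by
    intro k hk
    obtain ⟨-, h2, h3⟩ := hp.2.2 k hk
    refine ⟨h2.trans (le_of_eq ?_), h3⟩
    obtain ⟨j, rfl⟩ := Nat.exists_eq_add_of_le hk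
    rw [Nat.add_sub_cancel_left, pow_add]
    have : ρ ^ k0 ≠ 0 := pow_ne_zero _ hρ0.ne'
    field_simp
  exact hest.mono le_rfl (by positivity) le_rfl hρ0.le hρt.le

end HypRat
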