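import Pool.Agent.Lib.Hyp.Rat.RL95

/-!
Sums over the triples (critical point, two reference points), without invariance in the
parameter: definitions (MP_47150b_an, local hyperconvexity, module SU; helper24).
-/

namespace HypRat

open Filter Topology

/-- The sums of the powers of `H` over the triples control `H`. -/
def SumD (d : ℕ) (T : Par d → Set (ℂ × ℂ)) (Ω : Set (Par d))
    (H : Par d → ℂ × ℂ → ℂ × ℂ → ℂ × ℂ → ℂ) : Prop :=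
  ∃ C : ℝ, 0 ≤ C ∧ ∃ f : ℕ → Par d → ℂ, (∀ m, DifferentiableOn ℂ (f m) Ω) ∧
    (∀ b ∈ Ω, ∀ M : ℝ, 0 ≤ M → (∀ c, IsCrit d b c → ∀ α ∈ T b, ∀ β ∈ T b, ‖H b c α β‖ ≤ M) →
      ∀ m, 1 ≤ m → ‖f m b‖ ≤ C * M ^ m) ∧
    (∀ b ∈ Ω, ∀ M C' : ℝ, 0 ≤ M → (∀ m, 1 ≤ m → ‖f m b‖ ≤ C' * M ^ m) →
      ∀ c, IsCrit d b c → ∀ α ∈ T b, ∀ β ∈ T b, ‖H b c α β‖ ≤ M)

/-- what is needed of `H` -/
structure HGood1 (d : ℕ) (T : Par d → Set (ℂ × ℂ)) (Ω : Set (Par d))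
    (H : Par d → ℂ × ℂ → ℂ × ℂ → ℂ × ℂ → ℂ) : Prop where
  inv : ∀ (b : Par d) (c α β : ℂ × ℂ) (u p q : ℂ), u ≠ 0 → p ≠ 0 → q ≠ 0 →
    H b (u • c) (p • α) (q • β) = H b c α β
  hol : ∀ b ∈ Ω, ∀ c, IsCrit d b c → ∀ α ∈ T b, ∀ β ∈ T b,
    ∀ᶠ q : ((Par d × (ℂ × ℂ)) × (ℂ × ℂ)) × (ℂ × ℂ) in 𝓝 (((b, c), α), β),
      DifferentiableAt ℂ (fun q : ((Par d × (ℂ × ℂ)) × (ℂ × ℂ)) × (ℂ × ℂ) =>
        H q.1.1.1 q.1.1.2 q.1.2 q.2) q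

/-- the function which tends, for `m → ∞` and after taking roots, to `om` -/
noncomputable def Phi (d N k m : ℕ) (b : Par d) (c α β : ℂ × ℂ) : ℂ :=
  wedge (orb d N k b c) (orb d N (k + 1) b c) ^ (2 * (d ^ N) ^ (m - k)) *
      wedge α β ^ (1 + d ^ N) /
    (wedge (orb d N m b c) α * wedge (orb d N m b c) β) ^ (1 + d ^ N)

end HypRat
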