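import Pool.Agent.Lib.Hyp.Psh32
import Pool.Agent.Lib.Hyp.Rat.SumDDef24

/-!
MP_47150b_an, module SM (helper32): sub-mean value properties along holomorphic discs.
-/

namespace HypRat

open Filter Topology Set Metric

/-- the radial retraction of the plane to the closed unit disc -/
noncomputable def retr (τ : ℂ) : ℂ := (((max 1 ‖τ‖)⁻¹ : ℝ) : ℂ) * τ

theorem retr_eq {τ : ℂ} (h : ‖τ‖ ≤ 1) : retr τ = τ := by
  unfold retr; rw [max_eq_left h]; simp

theorem norm_retr_le (τ : ℂ) : ‖retr τ‖ ≤ 1 := by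
  unfold retr
  have h1 : 0 < max 1 ‖τ‖ := lt_of_lt_of_le one_pos (le_max_left _ _)
  rw [norm_mul, Complex.norm_real, Real.norm_of_nonneg (by positivity), inv_mul_le_iff₀ h1,
    mul_one]
  exact le_max_right _ _

theorem continuous_retr : Continuous retr := by
  unfold retr
  refine (Complex.continuous_ofReal.comp ?_).mul continuous_id
  refine (continuous_const.max continuous_norm).inv₀ fun τ => ?_
  exact (lt_of_lt_of_le one_pos (le_max_left _ _)).ne'

theorem continuous_comp_retr {u : ℂ → ℝ} (hu : ContinuousOn u (closedBall 0 1)) :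
    Continuous fun τ => u (retr τ) :=
  hu.comp_continuous continuous_retr fun τ => by
    rw [mem_closedBall_zero_iff]; exact norm_retr_le τ

theorem circleAverage_retr (F : ℂ → ℝ) :
    Real.circleAverage (fun τ => F (retr τ)) 0 1 = Real.circleAverage F 0 1 := by
  refine Real.circleAverage_congr_sphere fun τ hτ => ?_
  have h1 : ‖τ‖ = 1 := by simpa using hτ
  rw [retr_eq h1.le]

/-- Jensen's inequality, continuity on the closed disc only. -/
theorem pow_le_circleAverage_disc {u : ℂ → ℝ} (hu : ContinuousOn u (closedBall 0 1))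
    (hu0 : ∀ τ ∈ closedBall (0 : ℂ) 1, 0 ≤ u τ) {p : ℝ} (hp : 0 < p) {x : ℝ} (hx : 0 ≤ x)
    (h : ∀ ε : ℝ, 0 < ε → x ≤ Real.exp (Real.circleAverage (fun τ => Real.log (u τ + ε)) 0 1)) :
    x ^ p ≤ Real.circleAverage (fun τ => u τ ^ p) 0 1 := by
  have h1 := Hyp95.pow_le_circleAverage (u := fun τ => u (retr τ)) (continuous_comp_retr hu)
    (fun τ => hu0 _ (by rw [mem_closedBall_zero_iff]; exact norm_retr_le τ)) hp hx
    (fun ε hε => by
      rw [circleAverage_retr (fun τ => Real.log (u τ + ε))]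
      exact h ε hε)
  rwa [circleAverage_retr (fun τ => u τ ^ p)] at h1

/-- Sub-mean value property of `log ‖f‖` for `f` holomorphic near the closed disc. -/
theorem log_norm_le_circleAverage_disc {f : ℂ → ℂ} (ha : AnalyticOnNhd ℂ f (closedBall 0 1))
    (h0 : f 0 ≠ 0) :
    Real.log ‖f 0‖ ≤ Real.circleAverage (fun z => Real.log ‖f z‖) 0 1 := by
  have ha : AnalyticOnNhd ℂ f (closedBall 0 |(1 : ℝ)|) := by rwa [abs_one]
  rw [ha.circleAverage_log_norm one_ne_zero h0]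
  have hnn : 0 ≤ ∑ᶠ u, (MeromorphicOn.divisor f (closedBall 0 |(1 : ℝ)|)) u *
      Real.log (1 * ‖(0 : ℂ) - u‖⁻¹) := by
    refine finsum_nonneg fun u => ?_
    by_cases hu : u ∈ closedBall (0 : ℂ) |(1 : ℝ)|
    · have h1 : (0 : ℤ) ≤ (MeromorphicOn.divisor f (closedBall 0 |(1 : ℝ)|)) u := by
        rw [MeromorphicOn.AnalyticOnNhd.divisor_apply ha hu]
        cases analyticOrderAt f u with
        | top => simp
        | coe k => simp
      have h2 : 0 ≤ Real.log (1 * ‖(0 : ℂ) - u‖⁻¹) := by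
        rw [one_mul, zero_sub, norm_neg, Real.log_inv]
        have : ‖u‖ ≤ 1 := by simpa using hu
        linarith [Real.log_nonpos (norm_nonneg u) this]
      exact mul_nonneg (by exact_mod_cast h1) h2
    · rw [Function.locallyFinsuppWithin.apply_eq_zero_of_notMem _ hu]
      simp
  linarith

/-- From a bound on the circle to a bound at the centre. -/
theorem norm_le_of_bound_disc {φ : ℂ → ℂ} (ha : AnalyticOnNhd ℂ φ (closedBall 0 1)) {w : ℂ → ℝ}
    (hw : ContinuousOn w (closedBall 0 1)) (hw0 : ∀ τ ∈ closedBall (0 : ℂ) 1, 0 < w τ) {r : ℝ}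
    (hr : 0 < r) (j : ℕ) (hb : ∀ τ ∈ sphere (0 : ℂ) 1, ‖φ τ‖ ≤ r * w τ ^ j) :
    ‖φ 0‖ ≤ r * Real.exp (Real.circleAverage (fun τ => Real.log (w τ)) 0 1) ^ j := by
  set W : ℂ → ℝ := fun τ => w (retr τ) with hW
  have hWc : Continuous W := continuous_comp_retr hw
  have hWpos : ∀ τ, 0 < W τ := fun τ => hw0 _ (by
    rw [mem_closedBall_zero_iff]; exact norm_retr_le τ)
  have hWeq : ∀ τ ∈ sphere (0 : ℂ) 1, W τ = w τ := by
    intro τ hτ
    have h1 : ‖τ‖ = 1 := by simpa using hτ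
    rw [hW]
    simp only
    rw [retr_eq h1.le]
  rw [← circleAverage_retr (fun τ => Real.log (w τ))]
  have hlogc : Continuous fun τ : ℂ => Real.log (W τ) := hWc.log fun τ => (hWpos τ).ne'
  by_cases hz : φ 0 = 0
  · rw [hz, norm_zero]; positivity
  obtain ⟨ε, hε, hεW⟩ : ∃ ε : ℝ, 0 < ε ∧ ∀ τ ∈ closedBall (0 : ℂ) 1, ε ≤ W τ := by
    obtain ⟨τ0, -, hτ0⟩ := (isCompact_closedBall (0 : ℂ) 1).exists_isMinOn
      ⟨0, by simp⟩ hWc.continuousOn
    exact ⟨W τ0, hWpos τ0, fun τ hτ => hτ0 hτ⟩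
  obtain ⟨K, hK0, hK⟩ : ∃ K : ℝ, 0 < K ∧ 1 ≤ K * (r * ε ^ j) := by
    refine ⟨(r * ε ^ j)⁻¹, by positivity, ?_⟩
    rw [inv_mul_cancel₀ (by positivity)]
  have hfd : AnalyticOnNhd ℂ (fun z => (K : ℂ) * φ z) (closedBall 0 1) := by
    intro z hz
    exact analyticAt_const.mul (ha z hz)
  have hf0 : (K : ℂ) * φ 0 ≠ 0 := mul_ne_zero (by exact_mod_cast hK0.ne') hz
  have hnf : ∀ z, ‖(K : ℂ) * φ z‖ = K * ‖φ z‖ := by
    intro z
    rw [norm_mul, Complex.norm_real, Real.norm_of_nonneg hK0.le]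
  have h1 := log_norm_le_circleAverage_disc hfd hf0
  have e1 := Hyp95.circleAverage_affine hlogc (Real.log (K * r)) (j : ℝ)
  have h2 : Real.circleAverage (fun z => Real.log ‖(K : ℂ) * φ z‖) 0 1 ≤
      Real.circleAverage (fun z => Real.log (K * r) + (j : ℝ) * Real.log (W z)) 0 1 := by
    refine Real.circleAverage_mono ?_ ?_ ?_
    · refine MeromorphicOn.circleIntegrable_log_norm fun z hz => ?_
      refine (hfd z ?_).meromorphicAt
      rw [abs_one] at hz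
      exact sphere_subset_closedBall hz
    · exact (continuous_const.add (continuous_const.mul hlogc)).continuousOn.circleIntegrable
        zero_le_one
    · intro z hz
      rw [abs_one] at hz
      have h3 : (0 : ℝ) < W z ^ j := pow_pos (hWpos z) j
      have e : Real.log (K * r) + (j : ℝ) * Real.log (W z) =
          Real.log (K * (r * W z ^ j)) := by
        rw [← Real.log_pow, ← Real.log_mul (by positivity) h3.ne', mul_assoc]
      rw [e]
      have h4 : 1 ≤ K * (r * W z ^ j) := by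
        refine hK.trans ?_
        refine mul_le_mul_of_nonneg_left ?_ hK0.le
        refine mul_le_mul_of_nonneg_left ?_ hr.le
        exact pow_le_pow_left₀ hε.le (hεW z (sphere_subset_closedBall hz)) j
      rcases eq_or_ne ((K : ℂ) * φ z) 0 with hfz | hfz
      · rw [hfz, norm_zero, Real.log_zero]
        exact Real.log_nonneg h4
      · refine Real.log_le_log (norm_pos_iff.mpr hfz) ?_
        rw [hnf]
        refine mul_le_mul_of_nonneg_left ?_ hK0.le
        rw [hWeq z hz]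
        exact hb z hz
  rw [e1] at h2
  have h5 := h1.trans h2
  generalize Real.circleAverage (fun τ : ℂ => Real.log (W τ)) 0 1 = L at h5
  have h6 : ‖(K : ℂ) * φ 0‖ ≤ K * r * Real.exp L ^ j := by
    rw [← Real.log_le_log_iff (norm_pos_iff.mpr hf0) (by positivity),
      Real.log_mul (by positivity) (by positivity), Real.log_pow, Real.log_exp]
    exact h5
  rw [hnf, mul_assoc] at h6
  exact le_of_mul_le_mul_left h6 hK0

/-- A function differentiable on a larger disc is analytic near the closed unit disc. -/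
theorem analyticOnNhd_of_disc {E : Type*} [NormedAddCommGroup E] [NormedSpace ℂ E]
    [CompleteSpace E] {φ : ℂ → E} {R : ℝ} (hR : 1 < R) (h : DifferentiableOn ℂ φ (ball 0 R)) :
    AnalyticOnNhd ℂ φ (closedBall 0 1) := by
  intro z hz
  refine h.analyticAt (isOpen_ball.mem_nhds ?_)
  rw [mem_ball_zero_iff]
  rw [mem_closedBall_zero_iff] at hz
  linarith

/-- **Sub-mean value property for power sums along holomorphic discs.** -/
theorem submean_sum_of {d : ℕ} {Ω : Set (Par d)} {T : Par d → Set (ℂ × ℂ)}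
    {H : Par d → ℂ × ℂ → ℂ × ℂ → ℂ × ℂ → ℂ} {C : ℝ} (hC : 0 ≤ C) {f : ℕ → Par d → ℂ}
    (hf : ∀ m, DifferentiableOn ℂ (f m) Ω)
    (h1 : ∀ b ∈ Ω, ∀ M : ℝ, 0 ≤ M →
      (∀ c, IsCrit d b c → ∀ al ∈ T b, ∀ be ∈ T b, ‖H b c al be‖ ≤ M) →
      ∀ m : ℕ, 1 ≤ m → ‖f m b‖ ≤ C * M ^ m)
    (h2 : ∀ b ∈ Ω, ∀ M C' : ℝ, 0 ≤ M → (∀ m : ℕ, 1 ≤ m → ‖f m b‖ ≤ C' * M ^ m) →
      ∀ c, IsCrit d b c → ∀ al ∈ T b, ∀ be ∈ T b, ‖H b c al be‖ ≤ M)
    {h : ℂ → Par d} {R : ℝ} (hR : 1 < R) (hh : DifferentiableOn ℂ h (ball 0 R))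
    (hΩ : ∀ τ ∈ ball (0 : ℂ) R, h τ ∈ Ω) {w : ℂ → ℝ} (hw : ContinuousOn w (closedBall 0 1))
    (hw0 : ∀ τ ∈ closedBall (0 : ℂ) 1, 0 < w τ) (q : ℕ)
    (hb : ∀ τ : ℂ, ‖τ‖ ≤ 1 → ∀ c, IsCrit d (h τ) c → ∀ al ∈ T (h τ), ∀ be ∈ T (h τ),
      ‖H (h τ) c al be‖ ≤ w τ ^ q) :
    ∀ c, IsCrit d (h 0) c → ∀ al ∈ T (h 0), ∀ be ∈ T (h 0), ‖H (h 0) c al be‖ ≤
      Real.exp (Real.circleAverage (fun τ => Real.log (w τ)) 0 1) ^ q := by
  have hin : ∀ τ : ℂ, ‖τ‖ ≤ 1 → h τ ∈ Ω := by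
    intro τ hτ
    refine hΩ τ ?_
    rw [mem_ball_zero_iff]
    linarith
  refine h2 (h 0) (hin 0 (by simp)) _ (C + 1) (by positivity) ?_
  intro m hm
  have hφ : DifferentiableOn ℂ (fun τ => f m (h τ)) (ball 0 R) := (hf m).comp hh hΩ
  have h3 := norm_le_of_bound_disc (analyticOnNhd_of_disc hR hφ) hw hw0
    (by linarith : 0 < C + 1) (q * m) (fun τ hτ => by
      have hτ1 : ‖τ‖ ≤ 1 := by
        have : ‖τ‖ = 1 := by simpa using hτ
        exact this.le
      have hwτ : 0 < w τ := hw0 τ (sphere_subset_closedBall hτ)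
      have h4 := h1 (h τ) (hin τ hτ1) (w τ ^ q) (by positivity) (hb τ hτ1) m hm
      rw [pow_mul]
      refine h4.trans ?_
      exact mul_le_mul_of_nonneg_right (by linarith) (by positivity))
  rw [pow_mul] at h3
  exact h3

/-- `submean_sum_of` for `SumD`. -/
theorem submean_sum {d : ℕ} {Ω : Set (Par d)} {T : Par d → Set (ℂ × ℂ)}
    {H : Par d → ℂ × ℂ → ℂ × ℂ → ℂ × ℂ → ℂ} (hS : SumD d T Ω H)
    {h : ℂ → Par d} {R : ℝ} (hR : 1 < R) (hh : DifferentiableOn ℂ h (ball 0 R))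
    (hΩ : ∀ τ ∈ ball (0 : ℂ) R, h τ ∈ Ω) {w : ℂ → ℝ} (hw : ContinuousOn w (closedBall 0 1))
    (hw0 : ∀ τ ∈ closedBall (0 : ℂ) 1, 0 < w τ) (q : ℕ)
    (hb : ∀ τ : ℂ, ‖τ‖ ≤ 1 → ∀ c, IsCrit d (h τ) c → ∀ al ∈ T (h τ), ∀ be ∈ T (h τ),
      ‖H (h τ) c al be‖ ≤ w τ ^ q) :
    ∀ c, IsCrit d (h 0) c → ∀ al ∈ T (h 0), ∀ be ∈ T (h 0), ‖H (h 0) c al be‖ ≤
      Real.exp (Real.circleAverage (fun τ => Real.log (w τ)) 0 1) ^ q := by
  obtain ⟨C, hC, f, hf, h1, h2⟩ := hS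
  exact submean_sum_of hC hf h1 h2 hR hh hΩ hw hw0 q hb

end HypRat
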