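import Pool.Agent.Lib.Hyp.Rat.SumDDef24
import Pool.Agent.Lib.Hyp.Rat.SumB15

/-!
Sums over the triples (critical point, two reference points), without invariance in the
parameter (MP_47150b_an, local hyperconvexity, module SU; helper24).
-/

namespace HypRat

open Filter Topology

attribute [local irreducible] jac F jacN

section main

variable {d : ℕ} {T : Par d → Set (ℂ × ℂ)} {Ω : Set (Par d)}
  {H : Par d → ℂ × ℂ → ℂ × ℂ → ℂ × ℂ → ℂ}

theorem I2_diffD (hd : 2 ≤ d) (hT : RefSet d (Psi d) T) (B : TheoremB24)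
    (hΩE : Ω ⊆ ExpandingRat d) (hH : HGood1 d T Ω H) (m : ℕ) {b : Par d} (hb : b ∈ Ω)
    {c : ℂ × ℂ} (hc : IsCrit d b c) {α : ℂ × ℂ} (hα : α ∈ T b) :
    ∀ᶠ e in 𝓝 ((b, c), α), DifferentiableAt ℂ (I2 T H m) e := by
  have := B ((Par d × (ℂ × ℂ)) × (ℂ × ℂ)) (d ^ 2 + d ^ 3) (fun e => PsiC d e.1.1)
    ((differentiable_PsiC d).comp (differentiable_fst.comp differentiable_fst)) ((b, c), α)
    (PsiC_ne_zero hd (hΩE hb).1) {q | q.2 ∈ T q.1.1.1}
    (fun q => H q.1.1.1 q.1.1.2 q.1.2 q.2 ^ m)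
    (fun e v t ht => hT.smul_iff _ _ ht) ?_ ?_ ?_
  · exact this
  · intro e v t ht
    have := hH.inv e.1.1 e.1.2 e.2 v 1 1 t one_ne_zero one_ne_zero ht
    simp only [one_smul] at this
    simp only [this]
  · intro v hv h0
    rw [← Psi_eq_form] at h0
    have hc : Continuous fun q : ((Par d × (ℂ × ℂ)) × (ℂ × ℂ)) × (ℂ × ℂ) => (q.1.1.1, q.2) := by
      fun_prop
    have hp := hc.tendsto (((b, c), α), v)
    rcases hT.clopen b (hΩE hb) v hv h0 with h | h
    · left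
      filter_upwards [hp.eventually h] with q hq h1
      exact hq (by rw [Psi_eq_form]; exact h1)
    · right
      filter_upwards [hp.eventually h] with q hq h1
      exact hq (by rw [Psi_eq_form]; exact h1)
  · intro v _ _ hvS
    filter_upwards [hH.hol b hb c hc α hα v hvS] with q hq
    exact hq.pow m

theorem I2_smulD (hH : HGood1 d T Ω H) (m : ℕ) (b : Par d) (c α : ℂ × ℂ) {u p : ℂ} (hu : u ≠ 0)
    (hp : p ≠ 0) : I2 T H m ((b, u • c), p • α) = I2 T H m ((b, c), α) := by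
  unfold I2
  refine symSum24_congr _ (fun _ _ _ => Iff.rfl) fun β _ _ _ => ?_
  have := hH.inv b c α β u p 1 hu hp one_ne_zero
  simp only [one_smul] at this
  simp only [this]

theorem I1_diffD (hd : 2 ≤ d) (hT : RefSet d (Psi d) T) (B : TheoremB24)
    (hΩE : Ω ⊆ ExpandingRat d) (hH : HGood1 d T Ω H) (m : ℕ) {b : Par d} (hb : b ∈ Ω)
    {c : ℂ × ℂ} (hc : IsCrit d b c) :
    ∀ᶠ e in 𝓝 (b, c), DifferentiableAt ℂ (I1 T H m) e := by
  have := B (Par d × (ℂ × ℂ)) (d ^ 2 + d ^ 3) (fun e => PsiC d e.1)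
    ((differentiable_PsiC d).comp differentiable_fst) (b, c)
    (PsiC_ne_zero hd (hΩE hb).1) {q | q.2 ∈ T q.1.1} (I2 T H m)
    (fun e v t ht => hT.smul_iff _ _ ht) ?_ ?_ ?_
  · exact this
  · intro e v t ht
    have := I2_smulD hH m e.1 e.2 v one_ne_zero ht
    simpa only [one_smul] using this
  · intro v hv h0
    rw [← Psi_eq_form] at h0
    have hc : Continuous fun q : (Par d × (ℂ × ℂ)) × (ℂ × ℂ) => (q.1.1, q.2) := by
      fun_prop
    have hp := hc.tendsto ((b, c), v)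
    rcases hT.clopen b (hΩE hb) v hv h0 with h | h
    · left
      filter_upwards [hp.eventually h] with q hq h1
      exact hq (by rw [Psi_eq_form]; exact h1)
    · right
      filter_upwards [hp.eventually h] with q hq h1
      exact hq (by rw [Psi_eq_form]; exact h1)
  · intro v _ _ hvS
    exact I2_diffD hd hT B hΩE hH m hb hc hvS

theorem I1_smulD (hH : HGood1 d T Ω H) (m : ℕ) (b : Par d) (c : ℂ × ℂ) {u : ℂ} (hu : u ≠ 0) :
    I1 T H m (b, u • c) = I1 T H m (b, c) := by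
  unfold I1
  refine symSum24_congr _ (fun _ _ _ => Iff.rfl) fun α _ _ _ => ?_
  have := I2_smulD hH m b c α hu one_ne_zero
  simpa only [one_smul] using this

theorem I0_diffD (hd : 2 ≤ d) (hT : RefSet d (Psi d) T) (B : TheoremB24)
    (hΩE : Ω ⊆ ExpandingRat d) (hH : HGood1 d T Ω H) (m : ℕ) {b : Par d} (hb : b ∈ Ω) :
    DifferentiableAt ℂ (I0 T H m) b := by
  have := B (Par d) (2 * d - 2) (jacC d) (differentiable_jacC d) b
    (jacC_ne_zero (by omega) (hΩE hb).1) Set.univ (I1 T H m)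
    (fun e v t ht => Iff.rfl) (fun e v t ht => I1_smulD hH m e v ht)
    (fun v hv h0 => Or.inl (Eventually.of_forall fun q _ => Set.mem_univ q)) ?_
  · exact this.self_of_nhds
  · intro v hv h0 _
    refine I1_diffD hd hT B hΩE hH m hb ((isCrit_iff (by omega)).2 ⟨hv, ?_⟩)
    rw [jac_eq_form]
    exact h0

theorem norm_le_of_I0D (hd : 2 ≤ d) (hT : RefSet d (Psi d) T) (hΩE : Ω ⊆ ExpandingRat d)
    (hH : HGood1 d T Ω H) {b : Par d} (hb : b ∈ Ω) {C M : ℝ} (hM : 0 ≤ M)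
    (h : ∀ m, 1 ≤ m → ‖I0 T H m b‖ ≤ C * M ^ m) {c α β : ℂ × ℂ} (hc : IsCrit d b c)
    (hα : α ∈ T b) (hβ : β ∈ T b) : ‖H b c α β‖ ≤ M := by
  classical
  obtain ⟨hc0, hcj⟩ := (isCrit_iff (by omega)).1 hc
  obtain ⟨c', hc', t, ht, rfl⟩ := exists_mem_zeros24
    (jacC_ne_zero (by omega) (hΩE hb).1) hc0 (by rw [← jac_eq_form]; exact hcj)
  obtain ⟨α', hα', p, hp, rfl⟩ := exists_mem_zeros24 (PsiC_ne_zero hd (hΩE hb).1)
    (hT.ne_zero b α hα) (by rw [← Psi_eq_form]; exact hT.zero b α hα)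
  obtain ⟨β', hβ', q, hq, rfl⟩ := exists_mem_zeros24 (PsiC_ne_zero hd (hΩE hb).1)
    (hT.ne_zero b β hβ) (by rw [← Psi_eq_form]; exact hT.zero b β hβ)
  rw [hT.smul_iff b _ hp] at hα
  rw [hT.smul_iff b _ hq] at hβ
  have e := hH.inv b c' α' β' t p q ht hp hq
  rw [e]
  obtain ⟨w, hw⟩ : ∃ w : ℂ × ℂ → ℂ × ℂ → ℂ × ℂ → ℂ, w = fun c α β =>
    if α ∈ T b then (if β ∈ T b then H b c α β else 0) else 0 := ⟨_, rfl⟩
  have hsum : ∀ m : ℕ, 1 ≤ m → ((((zeros24 (2 * d - 2) (jacC d b)).bind fun c =>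
      (zeros24 (d ^ 2 + d ^ 3) (PsiC d b)).bind fun α =>
        (zeros24 (d ^ 2 + d ^ 3) (PsiC d b)).map fun β => w c α β)).map fun x => x ^ m).sum
      = I0 T H m b := by
    intro m hm
    have h0 : (0 : ℂ) ^ m = 0 := zero_pow (by omega)
    rw [Multiset.map_bind, Multiset.sum_bind]
    unfold I0 symSum24
    congr 1
    refine Multiset.map_congr rfl fun c _ => ?_
    rw [if_pos (Set.mem_univ c), Multiset.map_bind, Multiset.sum_bind]
    unfold I1 symSum24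
    congr 1
    refine Multiset.map_congr rfl fun α _ => ?_
    rw [Multiset.map_map]
    show ((zeros24 (d ^ 2 + d ^ 3) (PsiC d b)).map fun β => w c α β ^ m).sum
      = if α ∈ T b then I2 T H m ((b, c), α) else 0
    by_cases hα2 : α ∈ T b
    · rw [if_pos hα2]
      unfold I2 symSum24
      congr 1
      refine Multiset.map_congr rfl fun β _ => ?_
      rw [hw]
      simp only [hα2, if_true]
      by_cases hβ2 : β ∈ T b
      · simp only [hβ2, if_true]
      · simp only [hβ2, if_false, h0]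
    · rw [if_neg hα2]
      have : ((zeros24 (d ^ 2 + d ^ 3) (PsiC d b)).map fun β => w c α β ^ m)
          = (zeros24 (d ^ 2 + d ^ 3) (PsiC d b)).map fun _ => 0 := by
        refine Multiset.map_congr rfl fun β _ => ?_
        rw [hw]
        simp only [hα2, if_false, h0]
      rw [this]
      simp
  have hfin := Hyp20.norm_le_of_power_sums_multiset _ C M hM (fun m hm => by
    rw [hsum m hm]; exact h m hm) (w c' α' β') (by
      rw [Multiset.mem_bind]
      refine ⟨c', hc', ?_⟩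
      rw [Multiset.mem_bind]
      exact ⟨α', hα', Multiset.mem_map.2 ⟨β', hβ', rfl⟩⟩)
  rw [hw] at hfin
  simpa only [hα, hβ, if_true] using hfin

theorem sumD24 (hd : 2 ≤ d) (hT : RefSet d (Psi d) T)
    (hΩE : Ω ⊆ ExpandingRat d) (hH : HGood1 d T Ω H) : SumD d T Ω H := by
  refine ⟨((2 * d - 2 : ℕ) : ℝ) * (((d ^ 2 + d ^ 3 : ℕ) : ℝ) * ((d ^ 2 + d ^ 3 : ℕ) : ℝ)),
    by positivity, fun m => I0 T H m, fun m b hb =>
      (I0_diffD hd hT theoremB24 hΩE hH m hb).differentiableWithinAt, ?_, ?_⟩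
  · intro b _ M hM h m _
    exact norm_I0_le hd m hM h
  · intro b hb M C' hM h c hc α hα β hβ
    exact norm_le_of_I0D hd hT hΩE hH hb hM h hc hα hβ

end main

theorem HGood.toHGood1 {d : ℕ} {T : Par d → Set (ℂ × ℂ)} {Ω : Set (Par d)}
    {H : Par d → ℂ × ℂ → ℂ × ℂ → ℂ × ℂ → ℂ} (hH : HGood d T Ω H) : HGood1 d T Ω H where
  inv := by
    intro b c α β u p q hu hp hq
    have := hH.inv b c α β 1 u p q one_ne_zero hu hp hq
    rwa [one_smul] at this
  hol := hH.hol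

theorem sumLfD {d : ℕ} {T : Par d → Set (ℂ × ℂ)} {Ω : Set (Par d)} (hd : 2 ≤ d)
    (hT : RefSet d (Psi d) T) (hΩE : Ω ⊆ ExpandingRat d) (N k : ℕ) :
    SumD d T Ω (Lf d N k) :=
  sumD24 hd hT hΩE (hol_Lf24 hT hΩE (by omega) N k).toHGood1

/-- `Phi` has degree `0` in the three points -/
theorem Phi_scaling {d : ℕ} {N k m : ℕ} (hk : k ≤ m) (b : Par d) {u p q : ℂ} (hu : u ≠ 0)
    (hp : p ≠ 0) (hq : q ≠ 0) (c α β : ℂ × ℂ) :
    Phi d N k m b (u • c) (p • α) (q • β) = Phi d N k m b c α β := by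
  have o : ∀ j, orb d N j b (u • c) = u ^ (d ^ (j * N)) • orb d N j b c := fun j =>
    iter_smul d b (j * N) u c
  unfold Phi
  rw [o k, o (k + 1), o m]
  rw [wedge_smul_smul, wedge_smul_smul, wedge_smul_smul, wedge_smul_smul]
  have hm : (d ^ N) ^ (m - k) * d ^ (k * N) = d ^ (m * N) := by
    rw [← pow_mul, ← pow_add]
    congr 1
    have : N * (m - k) + k * N = m * N := by
      obtain ⟨r, rfl⟩ := Nat.exists_eq_add_of_le hk
      rw [Nat.add_sub_cancel_left]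
      ring
    exact this
  have hk1 : d ^ ((k + 1) * N) = d ^ (k * N) * d ^ N := by rw [add_mul, one_mul, pow_add]
  have e1 : (u ^ d ^ (k * N) * u ^ d ^ ((k + 1) * N) *
      wedge (orb d N k b c) (orb d N (k + 1) b c)) ^ (2 * (d ^ N) ^ (m - k)) *
      (p * q * wedge α β) ^ (1 + d ^ N) =
      (u ^ (2 * (d ^ (m * N)) * (1 + d ^ N)) * p ^ (1 + d ^ N) * q ^ (1 + d ^ N)) *
      (wedge (orb d N k b c) (orb d N (k + 1) b c) ^ (2 * (d ^ N) ^ (m - k)) *
      wedge α β ^ (1 + d ^ N)) := by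
    rw [hk1, ← pow_add, mul_pow, mul_pow, mul_pow, ← pow_mul]
    have e : (d ^ (k * N) + d ^ (k * N) * d ^ N) * (2 * (d ^ N) ^ (m - k)) =
        2 * (d ^ (m * N)) * (1 + d ^ N) := by
      rw [← hm]; ring
    rw [e]
    ring
  have e2 : (u ^ d ^ (m * N) * p * wedge (orb d N m b c) α *
      (u ^ d ^ (m * N) * q * wedge (orb d N m b c) β)) ^ (1 + d ^ N) =
      (u ^ (2 * (d ^ (m * N)) * (1 + d ^ N)) * p ^ (1 + d ^ N) * q ^ (1 + d ^ N)) *
      (wedge (orb d N m b c) α * wedge (orb d N m b c) β) ^ (1 + d ^ N) := by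
    have e : u ^ (2 * (d ^ (m * N)) * (1 + d ^ N)) =
        (u ^ d ^ (m * N) * u ^ d ^ (m * N)) ^ (1 + d ^ N) := by
      rw [← pow_add, ← pow_mul]
      congr 1
      ring
    rw [e, ← mul_pow, ← mul_pow, ← mul_pow]
    congr 1
    ring
  have e3 : u ^ (2 * (d ^ (m * N)) * (1 + d ^ N)) * p ^ (1 + d ^ N) * q ^ (1 + d ^ N) ≠ 0 := by
    positivity
  rw [e1, e2, mul_div_mul_left _ _ e3]

theorem hol_Phi24 {d : ℕ} {T : Par d → Set (ℂ × ℂ)} {Ω : Set (Par d)} (hT : RefSet d (Psi d) T)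
    (hΩE : Ω ⊆ ExpandingRat d) {N k m : ℕ} (hk : k ≤ m) : HGood1 d T Ω (Phi d N k m) := by
  refine ⟨fun b c α β u p q hu hp hq => Phi_scaling hk b hu hp hq c α β, ?_⟩
  intro b hb c hc α hα β hβ
  have dbc : Differentiable ℂ (fun q : ((Par d × (ℂ × ℂ)) × (ℂ × ℂ)) × (ℂ × ℂ) =>
      (q.1.1.1, q.1.1.2)) := by fun_prop
  have dα : Differentiable ℂ (fun q : ((Par d × (ℂ × ℂ)) × (ℂ × ℂ)) × (ℂ × ℂ) => q.1.2) := by
    fun_prop
  have dβ : Differentiable ℂ (fun q : ((Par d × (ℂ × ℂ)) × (ℂ × ℂ)) × (ℂ × ℂ) => q.2) := by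
    fun_prop
  have o1 := (differentiable_orb_joint d N k).comp dbc
  have o2 := (differentiable_orb_joint d N (k + 1)).comp dbc
  have o3 := (differentiable_orb_joint d N m).comp dbc
  have w1 := differentiable_wedge.comp (o1.prodMk o2)
  have w2 := differentiable_wedge.comp (dα.prodMk dβ)
  have w3 := differentiable_wedge.comp (o3.prodMk dα)
  have w4 := differentiable_wedge.comp (o3.prodMk dβ)
  have den := (w3.mul w4).pow (1 + d ^ N)
  have hne : (wedge (orb d N m b c) α * wedge (orb d N m b c) β) ^ (1 + d ^ N) ≠ 0 :=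
    pow_ne_zero _ (mul_ne_zero (hT.never b (hΩE hb) c hc α hα _)
      (hT.never b (hΩE hb) c hc β hβ _))
  have hev := den.continuous.continuousAt.eventually_ne (x := (((b, c), α), β)) hne
  filter_upwards [hev] with q hq
  have h1 := (((w1.pow (2 * (d ^ N) ^ (m - k))).mul (w2.pow (1 + d ^ N))) q).mul
    ((den q).inv hq)
  refine (DifferentiableAt.congr_of_eventuallyEq h1 ?_)
  refine Eventually.of_forall fun r => ?_
  show Phi d N k m r.1.1.1 r.1.1.2 r.1.2 r.2 = _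
  unfold Phi
  rw [div_eq_mul_inv]
  rfl

theorem sumPhi {d : ℕ} {T : Par d → Set (ℂ × ℂ)} {Ω : Set (Par d)} (hd : 2 ≤ d)
    (hT : RefSet d (Psi d) T) (hΩE : Ω ⊆ ExpandingRat d) {N k m : ℕ} (hk : k ≤ m) :
    SumD d T Ω (Phi d N k m) :=
  sumD24 hd hT hΩE (hol_Phi24 hT hΩE hk)

end HypRat
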