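import Pool.Agent.Lib.Hyp.Rat.Green39
import Pool.Agent.Lib.Hyp.Rat.Three11
import Pool.Agent.Lib.Hyp.Rat.SumD24
import Pool.Agent.Lib.Hyp.Rat.SubMean32
import Pool.Agent.Lib.Hyp.Rat.Sharp25

/-!
MP_47150b_an, local hyperconvexity, module PS (helper39): the sub-mean value property of `om` and
`mu` along holomorphic discs.
-/

namespace HypRat

open Filter Topology Metric

attribute [local irreducible] jac F jacN

namespace Ps39

/-! ### the retraction onto the closed disc -/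

/-- retraction onto the closed unit disc -/
noncomputable def ret (τ : ℂ) : ℂ := ((max 1 ‖τ‖ : ℝ) : ℂ)⁻¹ * τ

theorem ret_cont : Continuous ret := by
  have h1 : ∀ τ : ℂ, ((max 1 ‖τ‖ : ℝ) : ℂ) ≠ 0 := by
    intro τ
    have : (0:ℝ) < max 1 ‖τ‖ := lt_of_lt_of_le one_pos (le_max_left _ _)
    exact_mod_cast this.ne'
  unfold ret
  refine Continuous.mul (Continuous.inv₀ ?_ h1) continuous_id
  exact Complex.continuous_ofReal.comp (continuous_const.max continuous_norm)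

theorem ret_mem (τ : ℂ) : ret τ ∈ closedBall (0:ℂ) 1 := by
  rw [mem_closedBall_zero_iff]
  unfold ret
  have h0 : (0:ℝ) < max 1 ‖τ‖ := lt_of_lt_of_le one_pos (le_max_left _ _)
  rw [norm_mul, norm_inv, Complex.norm_real, Real.norm_of_nonneg h0.le, inv_mul_le_iff₀ h0, mul_one]
  exact le_max_right _ _

theorem ret_eq {τ : ℂ} (h : ‖τ‖ ≤ 1) : ret τ = τ := by
  unfold ret
  rw [max_eq_left h]
  simp

theorem comp_ret_cont {u : ℂ → ℝ} (hu : ContinuousOn u (closedBall 0 1)) :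
    Continuous fun τ => u (ret τ) :=
  hu.comp_continuous ret_cont ret_mem

theorem avg_ret (f : ℂ → ℝ) :
    Real.circleAverage (fun τ => f (ret τ)) 0 1 = Real.circleAverage f 0 1 := by
  apply Real.circleAverage_congr_sphere
  intro τ hτ
  have h1 : ‖τ‖ ≤ 1 := by
    have : ‖τ‖ = |(1:ℝ)| := by simpa using hτ
    rw [this]; simp
  show f (ret τ) = f τ
  rw [ret_eq h1]

/-- `Hyp95.pow_le_circleAverage` for functions on the closed disc. -/
theorem pow_le_avg {u : ℂ → ℝ} (hu : ContinuousOn u (closedBall 0 1))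
    (hu0 : ∀ τ ∈ closedBall (0:ℂ) 1, 0 ≤ u τ) {p : ℝ} (hp : 0 < p) {x : ℝ} (hx : 0 ≤ x)
    (h : ∀ ε : ℝ, 0 < ε →
      x ≤ Real.exp (Real.circleAverage (fun τ => Real.log (u τ + ε)) 0 1)) :
    x ^ p ≤ Real.circleAverage (fun τ => u τ ^ p) 0 1 := by
  have h1 := Hyp95.pow_le_circleAverage (comp_ret_cont hu) (fun τ => hu0 _ (ret_mem τ)) hp hx
    (fun ε hε => by
      have h2 := avg_ret (fun τ => Real.log (u τ + ε))
      rw [h2]
      exact h ε hε)
  have h2 := avg_ret (fun τ => u τ ^ p)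
  rwa [h2] at h1

/-- the average of the logarithm of a multiple -/
theorem avg_log_mul {v : ℂ → ℝ} (hv : ContinuousOn v (closedBall 0 1))
    (hv0 : ∀ τ ∈ closedBall (0:ℂ) 1, 0 < v τ) {a : ℝ} (ha : 0 < a) :
    Real.circleAverage (fun τ => Real.log (a * v τ)) 0 1 =
      Real.log a + Real.circleAverage (fun τ => Real.log (v τ)) 0 1 := by
  have hc : Continuous fun τ => Real.log (v (ret τ)) :=
    (comp_ret_cont hv).log fun τ => (hv0 _ (ret_mem τ)).ne'
  have h1 := Hyp95.circleAverage_affine hc (Real.log a) 1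
  have h2 := avg_ret (fun τ => Real.log (a * v τ))
  have h3 := avg_ret (fun τ => Real.log (v τ))
  rw [← h2, ← h3]
  rw [one_mul] at h1
  rw [← h1]
  congr 1
  funext τ
  rw [Real.log_mul ha.ne' (hv0 _ (ret_mem τ)).ne', one_mul]

theorem le_of_pow_bound {x X C1 C2 : ℝ} (hx : 0 ≤ x) (hX : 0 < X) (hC2 : 0 < C2) {D : ℕ → ℕ}
    (hD : Tendsto D atTop atTop)
    (h : ∀ᶠ m in atTop, x ^ (2 * D m) * C2 ≤ C1 * X ^ (2 * D m)) : x ≤ X := by
  by_contra hcon
  push Not at hcon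
  have h1 : 1 < x / X := by rwa [one_lt_div hX]
  have h2 : Tendsto (fun m => (x / X) ^ (2 * D m)) atTop atTop :=
    (tendsto_pow_atTop_atTop_of_one_lt h1).comp (hD.const_mul_atTop' (by norm_num))
  obtain ⟨m, hm1, hm2⟩ := (h.and (h2.eventually (eventually_gt_atTop (C1 / C2)))).exists
  have h3 : (x / X) ^ (2 * D m) ≤ C1 / C2 := by
    rw [div_pow, div_le_div_iff₀ (pow_pos hX _) hC2]
    exact hm1
  linarith

/-! ### the size of `Phi` -/

theorem norm_wedge_eq' {x y : ℂ × ℂ} (hx : x ≠ 0) (hy : y ≠ 0) :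
    ‖wedge x y‖ = chord x y * (‖x‖ * ‖y‖) := norm_wedge_eq hx hy

/-- Exact size of `Phi`. -/
theorem norm_Phi {d : ℕ} {b : Par d} (hb : Nondeg d b) {c α β : ℂ × ℂ} (hc : c ≠ 0)
    (hα : α ≠ 0) (hβ : β ≠ 0) {N k m : ℕ} (hkm : k ≤ m) :
    ‖Phi d N k m b c α β‖ = om d N k b c ^ (2 * (d ^ N) ^ (m - k)) *
      Real.exp (2 * (1 + (d:ℝ) ^ N) * ((d:ℝ) ^ (m * N) * gr d b c - Real.log ‖orb d N m b c‖)) *
      (chord α β / (chord (orb d N m b c) α * chord (orb d N m b c) β)) ^ (1 + d ^ N) := by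
  have hx := orb_ne_zero hb hc N m
  have nx : 0 < ‖orb d N m b c‖ := norm_pos_iff.mpr hx
  have nα : 0 < ‖α‖ := norm_pos_iff.mpr hα
  have nβ : 0 < ‖β‖ := norm_pos_iff.mpr hβ
  set D : ℕ := (d ^ N) ^ (m - k) with hD
  set g : ℝ := gr d b c with hg
  set W : ℝ := ‖wedge (orb d N k b c) (orb d N (k + 1) b c)‖ with hW
  set n : ℝ := ‖orb d N m b c‖ with hn
  set S : ℝ := (d:ℝ) ^ (k * N) + (d:ℝ) ^ ((k + 1) * N) with hS
  have hom : om d N k b c = W * Real.exp (-(S * g)) := rfl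
  have hexp : ((2 * D : ℕ) : ℝ) * S = 2 * (1 + (d:ℝ) ^ N) * (d:ℝ) ^ (m * N) := by
    rw [hD, hS]
    push_cast
    obtain ⟨i, rfl⟩ := Nat.exists_eq_add_of_le hkm
    rw [Nat.add_sub_cancel_left]
    have e1 : (k + i) * N = k * N + i * N := by ring
    have e2 : (k + 1) * N = k * N + N := by ring
    rw [e1, e2, pow_add, pow_add, ← pow_mul, mul_comm N i]
    ring
  have e1 : W ^ (2 * D) = om d N k b c ^ (2 * D) *
      Real.exp (2 * (1 + (d:ℝ) ^ N) * ((d:ℝ) ^ (m * N) * g)) := by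
    rw [hom, mul_pow, ← Real.exp_nat_mul, mul_assoc, ← Real.exp_add]
    have : ((2 * D : ℕ) : ℝ) * -(S * g) + 2 * (1 + (d:ℝ) ^ N) * ((d:ℝ) ^ (m * N) * g) = 0 := by
      linear_combination (-g) * hexp
    rw [this, Real.exp_zero, mul_one]
  have e2 : (n ^ 2) ^ (1 + d ^ N) = Real.exp (2 * (1 + (d:ℝ) ^ N) * Real.log n) := by
    rw [← pow_mul, ← Real.rpow_natCast, Real.rpow_def_of_pos nx]
    congr 1
    push_cast
    ring
  have e3 : Real.exp (2 * (1 + (d:ℝ) ^ N) * ((d:ℝ) ^ (m * N) * g - Real.log n)) =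
      Real.exp (2 * (1 + (d:ℝ) ^ N) * ((d:ℝ) ^ (m * N) * g)) / (n ^ 2) ^ (1 + d ^ N) := by
    rw [e2, ← Real.exp_sub]
    congr 1
    ring
  unfold Phi
  rw [norm_div, norm_mul, norm_pow, norm_pow, norm_pow, norm_mul, norm_wedge_eq' hα hβ,
    norm_wedge_eq' hx hα, norm_wedge_eq' hx hβ, ← hW, ← hn, e3, e1]
  have e4 : (chord (orb d N m b c) α * (n * ‖α‖) * (chord (orb d N m b c) β * (n * ‖β‖))) =
      (n ^ 2) * ((‖α‖ * ‖β‖) * (chord (orb d N m b c) α * chord (orb d N m b c) β)) := by ring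
  rw [e4]
  set Y : ℝ := chord (orb d N m b c) α * chord (orb d N m b c) β
  set Q : ℝ := n ^ 2 with hQ
  have hQ0 : 0 < Q := by positivity
  have hP0 : 0 < ‖α‖ * ‖β‖ := by positivity
  set P : ℝ := ‖α‖ * ‖β‖
  set E : ℝ := Real.exp (2 * (1 + (d:ℝ) ^ N) * ((d:ℝ) ^ (m * N) * g))
  set A : ℝ := om d N k b c ^ (2 * D)
  have e5 : (chord α β * P) ^ (1 + d ^ N) = chord α β ^ (1 + d ^ N) * P ^ (1 + d ^ N) :=
    mul_pow _ _ _
  have e6 : (Q * (P * Y)) ^ (1 + d ^ N) =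
      Q ^ (1 + d ^ N) * (P ^ (1 + d ^ N) * Y ^ (1 + d ^ N)) := by rw [mul_pow, mul_pow]
  rw [e5, e6, div_pow]
  have h5 : P ^ (1 + d ^ N) ≠ 0 := by positivity
  have h6 : Q ^ (1 + d ^ N) ≠ 0 := by positivity
  generalize P ^ (1 + d ^ N) = P' at *
  generalize Q ^ (1 + d ^ N) = Q' at *
  generalize Y ^ (1 + d ^ N) = Y' at *
  generalize chord α β ^ (1 + d ^ N) = X' at *
  have e7 : A * E * (X' * P') / (Q' * (P' * Y')) = (P' * (A * E * X')) / (P' * (Q' * Y')) := by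
    congr 1 <;> ring
  have e8 : A * (E / Q') * (X' / Y') = A * E * X' / Q' / Y' := by ring
  rw [e7, mul_div_mul_left _ _ h5, e8, div_div]

/-! ### compactness -/

theorem isCompact_crit {d : ℕ} {K : Set (Par d)} (hK : IsCompact K) :
    IsCompact {p : Par d × (ℂ × ℂ) | p.1 ∈ K ∧ ‖p.2‖ = 1 ∧ jac d p.1 p.2 = 0} := by
  refine (hK.prod (isCompact_sphere (0 : ℂ × ℂ) 1)).of_isClosed_subset ?_ ?_
  · refine (hK.isClosed.preimage continuous_fst).inter (IsClosed.inter ?_ ?_)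
    · exact isClosed_eq continuous_snd.norm continuous_const
    · exact isClosed_eq (continuous_jac_joint d) continuous_const
  · rintro ⟨b, x⟩ ⟨h1, h2, -⟩
    exact ⟨h1, mem_sphere_zero_iff_norm.mpr h2⟩

/-- A property which holds eventually, locally uniformly, holds eventually, uniformly. -/
theorem unif_of_local {d : ℕ} (hd : 1 ≤ d) {K : Set (Par d)} (hK : IsCompact K)
    {Q : ℕ → Par d → ℂ × ℂ → Prop}
    (hmono : ∀ k0 k1, k0 ≤ k1 → ∀ b c, Q k0 b c → Q k1 b c)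
    (hsmul : ∀ k, ∀ b ∈ K, ∀ c, IsCrit d b c → ∀ t : ℂ, t ≠ 0 → Q k b (t • c) → Q k b c)
    (hloc : ∀ b ∈ K, ∀ c, IsCrit d b c → ∃ k0, ∀ᶠ p : Par d × (ℂ × ℂ) in 𝓝 (b, c),
      p.1 ∈ K → IsCrit d p.1 p.2 → Q k0 p.1 p.2) :
    ∃ k0, ∀ b ∈ K, ∀ c, IsCrit d b c → Q k0 b c := by
  have key : ∃ k0, ∀ p ∈ {p : Par d × (ℂ × ℂ) | p.1 ∈ K ∧ ‖p.2‖ = 1 ∧ jac d p.1 p.2 = 0},
      p.1 ∈ K → IsCrit d p.1 p.2 → Q k0 p.1 p.2 := by
    refine (isCompact_crit hK).induction_on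
      (p := fun s => ∃ k0, ∀ p ∈ s, p.1 ∈ K → IsCrit d p.1 p.2 → Q k0 p.1 p.2) ?_ ?_ ?_ ?_
    · exact ⟨0, fun p hp => absurd hp (Set.notMem_empty p)⟩
    · rintro s t hst ⟨k0, h⟩
      exact ⟨k0, fun p hp => h p (hst hp)⟩
    · rintro s t ⟨k0, h⟩ ⟨k1, h'⟩
      refine ⟨max k0 k1, ?_⟩
      rintro p (hp | hp) h1 h2
      · exact hmono _ _ (le_max_left _ _) _ _ (h p hp h1 h2)
      · exact hmono _ _ (le_max_right _ _) _ _ (h' p hp h1 h2)
    · rintro ⟨b, x⟩ ⟨hb, hx, hj⟩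
      have hx0 : x ≠ 0 := by
        rintro rfl
        simp at hx
      obtain ⟨k0, h⟩ := hloc b hb x ((isCrit_iff hd).mpr ⟨hx0, hj⟩)
      exact ⟨_, mem_nhdsWithin_of_mem_nhds h, k0, fun p hp => hp⟩
  obtain ⟨k0, h⟩ := key
  refine ⟨k0, fun b hb c hc => ?_⟩
  obtain ⟨t, ht, ht1⟩ := exists_unit hc.1
  have hc' := isCrit_smul hd ht hc
  exact hsmul k0 b hb c hc t ht
    (h (b, t • c) ⟨hb, ht1, ((isCrit_iff hd).mp hc').2⟩ hb hc')

/-- Two reference points of an expanding map which are not proportional. -/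
theorem exists_two_ref {d : ℕ} (hd : 2 ≤ d) {b : Par d} (hb : b ∈ ExpandingRat d) :
    ∃ α ∈ Tset d b, ∃ β ∈ Tset d b, wedge α β ≠ 0 := by
  obtain ⟨φ, hφ, y, z, h1, h2, h3⟩ := hasThree hd (fun _ => b) b (fun _ => hb)
    tendsto_const_nhds hb.1
  have h4 : Tendsto (fun i => wedge (y 0 i) (y 1 i)) atTop (𝓝 (wedge (z 0) (z 1))) := by
    have h5 : Continuous fun p : (ℂ × ℂ) × (ℂ × ℂ) => wedge p.1 p.2 := continuous_wedge
    exact (h5.tendsto (z 0, z 1)).comp ((h2 0).prodMk_nhds (h2 1))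
  have h5 := h3 0 1 (by decide)
  obtain ⟨i, hi⟩ := (h4.eventually (isOpen_ne.mem_nhds h5)).exists
  exact ⟨y 0 i, h1 0 i, y 1 i, h1 1 i, hi⟩

/-- the closed disc is mapped to a compact set -/
theorem isCompact_image {d : ℕ} {h : ℂ → Par d} {R : ℝ} (hR : 1 < R)
    (hh : DifferentiableOn ℂ h (ball 0 R)) : IsCompact (h '' closedBall 0 1) :=
  (isCompact_closedBall (0:ℂ) 1).image_of_continuousOn
    (hh.continuousOn.mono (closedBall_subset_ball hR))

end Ps39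

open Ps39 in
/-- Sub-mean value property of `om`, with a continuous majorant. -/
theorem om_submean_aux {d : ℕ} (hd : 2 ≤ d) {Ω : Set (Par d)} (hΩE : Ω ⊆ ExpandingRat d) {N : ℕ}
    (hN : 1 ≤ N) (k : ℕ) {h : ℂ → Par d} {R : ℝ} (hR : 1 < R)
    (hh : DifferentiableOn ℂ h (ball 0 R)) (hmem : ∀ τ ∈ ball (0:ℂ) R, h τ ∈ Ω) {u : ℂ → ℝ}
    (hu : ContinuousOn u (closedBall 0 1)) (hu0 : ∀ τ ∈ closedBall (0:ℂ) 1, 0 ≤ u τ)
    (hu1 : ∀ τ ∈ closedBall (0:ℂ) 1, ∀ c, IsCrit d (h τ) c → om d N k (h τ) c ≤ u τ)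
    {p : ℝ} (hp : 0 < p) {c : ℂ × ℂ} (hc : IsCrit d (h 0) c) :
    om d N k (h 0) c ^ p ≤ Real.circleAverage (fun τ => u τ ^ p) 0 1 := by
  have hT := refSet hd
  have hsubR : closedBall (0:ℂ) 1 ⊆ ball 0 R := closedBall_subset_ball hR
  have hK := isCompact_image hR hh
  have hKE : h '' closedBall 0 1 ⊆ ExpandingRat d := by
    rintro _ ⟨τ, hτ, rfl⟩
    exact hΩE (hmem τ (hsubR hτ))
  have h0mem : (0:ℂ) ∈ closedBall (0:ℂ) 1 := by simp
  have h0E : h 0 ∈ ExpandingRat d := hKE ⟨0, h0mem, rfl⟩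
  obtain ⟨L, hL0, hL⟩ := gr_bound hd hK (fun b hb => (hKE hb).1)
  obtain ⟨δ, hδ, k₀, hsep⟩ := sep_compact (by omega) hT hK hKE hN
  obtain ⟨α, hα, β, hβ, hαβ⟩ := exists_two_ref hd h0E
  have hα0 := hT.ne_zero _ α hα
  have hβ0 := hT.ne_zero _ β hβ
  have hchord : 0 < chord α β := by
    have h1 : 0 < ‖wedge α β‖ := norm_pos_iff.mpr hαβ
    have h2 : 0 < ‖α‖ := norm_pos_iff.mpr hα0
    have h3 : 0 < ‖β‖ := norm_pos_iff.mpr hβ0
    unfold chord
    positivity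
  set B : ℝ := 2 * (1 + (d:ℝ) ^ N) with hB
  have hB0 : 0 ≤ B := by positivity
  set C1 : ℝ := Real.exp (B * L) * (2 / δ ^ 2) ^ (1 + d ^ N) with hC1
  have hC1pos : 0 < C1 := by positivity
  set C2 : ℝ := Real.exp (-(B * L)) * (chord α β / 4) ^ (1 + d ^ N) with hC2
  have hC2pos : 0 < C2 := by positivity
  refine pow_le_avg hu hu0 hp (om_nonneg _ _ _ _ _) fun ε hε => ?_
  have hD : Tendsto (fun m : ℕ => (d ^ N) ^ (m - k)) atTop atTop := by
    have h1 : 1 < d ^ N := Nat.one_lt_pow (by omega) (by omega)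
    exact (tendsto_pow_atTop_atTop_of_one_lt h1).comp (tendsto_sub_atTop_nat k)
  refine le_of_pow_bound (C1 := C1) (om_nonneg _ _ _ _ _) (Real.exp_pos _) hC2pos hD ?_
  filter_upwards [eventually_ge_atTop (max k k₀)] with m hm
  have hkm : k ≤ m := (le_max_left _ _).trans hm
  have hkm0 : k₀ ≤ m := (le_max_right _ _).trans hm
  have hDpos : 0 < (d ^ N) ^ (m - k) := by
    have : 0 < d := by omega
    positivity
  set D : ℕ := (d ^ N) ^ (m - k) with hDdef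
  set a : ℝ := C1 ^ (((2 * D : ℕ) : ℝ)⁻¹) with ha
  have ha0 : 0 < a := Real.rpow_pos_of_pos hC1pos _
  have haD : a ^ (2 * D) = C1 := Real.rpow_inv_natCast_pow hC1pos.le (by omega)
  have hv0 : ∀ τ ∈ closedBall (0:ℂ) 1, 0 < u τ + ε := fun τ hτ => by
    have := hu0 τ hτ
    linarith
  have hvc : ContinuousOn (fun τ => u τ + ε) (closedBall 0 1) := hu.add continuousOn_const
  have key := submean_sum (sumPhi hd hT hΩE (N := N) hkm) hR hh hmem
    (w := fun τ => a * (u τ + ε)) (continuousOn_const.mul hvc)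
    (fun τ hτ => mul_pos ha0 (hv0 τ hτ)) (2 * D) ?_ c hc α hα β hβ
  · rw [avg_log_mul hvc hv0 ha0, Real.exp_add, Real.exp_log ha0, mul_pow, haD,
      norm_Phi h0E.1 hc.1 hα0 hβ0 hkm, ← hDdef, ← hB] at key
    refine le_trans ?_ key
    rw [mul_assoc]
    refine mul_le_mul_of_nonneg_left ?_ (pow_nonneg (om_nonneg _ _ _ _ _) _)
    rw [hC2]
    have hx := orb_ne_zero h0E.1 hc.1 N m
    have hgr := hL (h 0) ⟨0, h0mem, rfl⟩ c hc.1 (m * N)
    refine mul_le_mul ?_ ?_ (by positivity) (Real.exp_nonneg _)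
    · apply Real.exp_le_exp.mpr
      have h1 := (abs_le.mp hgr).2
      have h2 : -L ≤ (d:ℝ) ^ (m * N) * gr d (h 0) c - Real.log ‖orb d N m (h 0) c‖ := by
        unfold orb
        linarith
      have := mul_le_mul_of_nonneg_left h2 hB0
      linarith
    · refine pow_le_pow_left₀ (by positivity) ?_ _
      have s1 := hsep (h 0) ⟨0, h0mem, rfl⟩ c hc α hα m hkm0
      have s2 := hsep (h 0) ⟨0, h0mem, rfl⟩ c hc β hβ m hkm0
      have s3 := chord_le_two (orb d N m (h 0) c) α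
      have s4 := chord_le_two (orb d N m (h 0) c) β
      refine div_le_div_of_nonneg_left hchord.le (mul_pos (by linarith) (by linarith)) ?_
      nlinarith
  · intro τ hτ c' hc' α' hα' β' hβ'
    have hτ' : τ ∈ closedBall (0:ℂ) 1 := by simpa using hτ
    have hE : h τ ∈ ExpandingRat d := hKE ⟨τ, hτ', rfl⟩
    have hα'0 := hT.ne_zero _ α' hα'
    have hβ'0 := hT.ne_zero _ β' hβ'
    show ‖Phi d N k m (h τ) c' α' β'‖ ≤ (a * (u τ + ε)) ^ (2 * D)
    rw [mul_pow, haD, norm_Phi hE.1 hc'.1 hα'0 hβ'0 hkm, ← hDdef, ← hB, hC1]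
    have hgr := hL (h τ) ⟨τ, hτ', rfl⟩ c' hc'.1 (m * N)
    have t1 : om d N k (h τ) c' ^ (2 * D) ≤ (u τ + ε) ^ (2 * D) := by
      refine pow_le_pow_left₀ (om_nonneg _ _ _ _ _) ?_ _
      have := hu1 τ hτ' c' hc'
      linarith
    have t2 : Real.exp (B * ((d:ℝ) ^ (m * N) * gr d (h τ) c' -
        Real.log ‖orb d N m (h τ) c'‖)) ≤ Real.exp (B * L) := by
      apply Real.exp_le_exp.mpr
      have h1 := (abs_le.mp hgr).1
      have h2 : (d:ℝ) ^ (m * N) * gr d (h τ) c' - Real.log ‖orb d N m (h τ) c'‖ ≤ L := by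
        unfold orb
        linarith
      exact mul_le_mul_of_nonneg_left h2 hB0
    have t3 : (chord α' β' / (chord (orb d N m (h τ) c') α' * chord (orb d N m (h τ) c') β')) ^
        (1 + d ^ N) ≤ (2 / δ ^ 2) ^ (1 + d ^ N) := by
      have s1 := hsep (h τ) ⟨τ, hτ', rfl⟩ c' hc' α' hα' m hkm0
      have s2 := hsep (h τ) ⟨τ, hτ', rfl⟩ c' hc' β' hβ' m hkm0
      have s3 := chord_nonneg α' β'
      refine pow_le_pow_left₀ (div_nonneg s3 (mul_nonneg (by linarith) (by linarith))) ?_ _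
      refine div_le_div₀ (by norm_num) (chord_le_two _ _) (by positivity) ?_
      nlinarith
    have q1 : 0 ≤ (chord α' β' / (chord (orb d N m (h τ) c') α' *
        chord (orb d N m (h τ) c') β')) ^ (1 + d ^ N) :=
      pow_nonneg (div_nonneg (chord_nonneg _ _) (mul_nonneg (chord_nonneg _ _)
        (chord_nonneg _ _))) _
    calc _ ≤ (u τ + ε) ^ (2 * D) * Real.exp (B * L) * (2 / δ ^ 2) ^ (1 + d ^ N) := by
          refine mul_le_mul (mul_le_mul t1 t2 (Real.exp_nonneg _) ?_) t3 q1 ?_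
          · exact pow_nonneg (hv0 τ hτ').le _
          · exact mul_nonneg (pow_nonneg (hv0 τ hτ').le _) (Real.exp_nonneg _)
      _ = _ := by ring

namespace Ps39

theorem orb_smul' (d N k : ℕ) (b : Par d) (t : ℂ) (c : ℂ × ℂ) :
    orb d N k b (t • c) = t ^ (d ^ (k * N)) • orb d N k b c := iter_smul d b (k * N) t c

theorem sig_orb_smul {d : ℕ} (hd : 1 ≤ d) (N k : ℕ) (b : Par d) {t : ℂ} (ht : t ≠ 0)
    (c : ℂ × ℂ) : sig d b N (orb d N k b (t • c)) = sig d b N (orb d N k b c) := by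
  rw [orb_smul', Ref11.sig_smul' hd b N (pow_ne_zero _ ht)]

/-- Uniform convergence of `sig` along the critical orbits. -/
theorem unif_sig {d : ℕ} (hd : 2 ≤ d) {N : ℕ} (hN : 1 ≤ N) {K : Set (Par d)} (hK : IsCompact K)
    (hKC : K ⊆ Conv d N) {e : ℝ} (he : 0 < e) : ∃ k0 : ℕ, ∀ b ∈ K, ∀ c, IsCrit d b c →
      ∀ k, k0 ≤ k → |sig d b N (orb d N k b c) - mu d N b c| ≤ e := by
  refine unif_of_local (by omega) hK
    (Q := fun k0 b c => ∀ k, k0 ≤ k → |sig d b N (orb d N k b c) - mu d N b c| ≤ e) ?_ ?_ ?_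
  · intro k0 k1 h01 b c h k hk
    exact h k (h01.trans hk)
  · intro k0 b _ c _ t ht h k hk
    have h1 := h k hk
    rwa [sig_orb_smul (by omega) N k b ht, mu_smul (by omega) N b c ht] at h1
  · intro b hb c hc
    obtain ⟨k0, h⟩ := local_mu (by omega) (hKC hb) hc (half_pos he)
    refine ⟨k0, ?_⟩
    filter_upwards [h] with p hp hpK hpc k hk
    have h1 := tendsto_mu (by omega) (hKC hpK) hpc
    have h2 : |mu d N p.1 p.2 - mu d N b c| ≤ e / 2 := by
      refine le_of_tendsto (h1.sub_const (mu d N b c)).abs ?_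
      filter_upwards [eventually_ge_atTop k0] with j hj
      exact (hp j hj).le
    have h3 := (hp k hk).le
    rw [abs_le] at h2 h3 ⊢
    constructor <;> linarith [h2.1, h2.2, h3.1, h3.2]

/-- Uniform smallness of the steps of the critical orbits. -/
theorem unif_chord {d : ℕ} (hd : 2 ≤ d) {N : ℕ} (hN : 1 ≤ N) {K : Set (Par d)} (hK : IsCompact K)
    (hKC : K ⊆ Conv d N) {e : ℝ} (he : 0 < e) : ∃ k0 : ℕ, ∀ b ∈ K, ∀ c, IsCrit d b c →
      ∀ k, k0 ≤ k → chord (orb d N k b c) (orb d N (k + 1) b c) ≤ e := by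
  refine unif_of_local (by omega) hK
    (Q := fun k0 b c => ∀ k, k0 ≤ k → chord (orb d N k b c) (orb d N (k + 1) b c) ≤ e) ?_ ?_ ?_
  · intro k0 k1 h01 b c h k hk
    exact h k (h01.trans hk)
  · intro k0 b _ c _ t ht h k hk
    have h1 := h k hk
    rwa [orb_smul', orb_smul', chord_smul_left (pow_ne_zero _ ht),
      chord_smul_right (pow_ne_zero _ ht)] at h1
  · intro b hb c hc
    have hm0 := mu_nonneg (by omega) (hKC hb) hc
    have hm1 := mu_lt_one (by omega) (hKC hb) hc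
    set t : ℝ := (1 + mu d N b c) / 2 with ht
    obtain ⟨k0, C, hC, h⟩ := sharp_est (by omega) (hKC hb) hc (t := t) (by rw [ht]; linarith)
      (by rw [ht]; linarith)
    have hlim : Tendsto (fun k : ℕ => C * t ^ k) atTop (𝓝 (C * 0)) :=
      (tendsto_pow_atTop_nhds_zero_of_lt_one (by rw [ht]; linarith)
        (by rw [ht]; linarith)).const_mul C
    rw [mul_zero] at hlim
    obtain ⟨k1, hk1⟩ := eventually_atTop.mp (hlim.eventually (gt_mem_nhds he))
    refine ⟨max k0 k1, ?_⟩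
    filter_upwards [h] with p hp _ _ k hk
    exact ((hp k ((le_max_left _ _).trans hk)).1).trans (hk1 k ((le_max_right _ _).trans hk)).le

theorem ratio_tendsto {d : ℕ} {N : ℕ} {b : Par d} (hb : Nondeg d b) {c γ : ℂ × ℂ} (hc : c ≠ 0)
    (hγ : γ ≠ 0) {δ : ℝ} (hδ : 0 < δ) {k₀ : ℕ} (hsep : ∀ k, k₀ ≤ k → δ ≤ chord (orb d N k b c) γ)
    (hch : Tendsto (fun k => chord (orb d N k b c) (orb d N (k + 1) b c)) atTop (𝓝 0)) :
    Tendsto (fun k => chord (orb d N k b c) γ / chord (orb d N (k + 1) b c) γ) atTop (𝓝 1) := by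
  rw [tendsto_iff_norm_sub_tendsto_zero]
  have h1 : Tendsto (fun k => chord (orb d N k b c) (orb d N (k + 1) b c) / δ) atTop (𝓝 (0 / δ)) :=
    hch.div_const δ
  rw [zero_div] at h1
  refine squeeze_zero' (Eventually.of_forall fun k => norm_nonneg _) ?_ h1
  filter_upwards [eventually_ge_atTop k₀] with k hk
  have n1 := orb_ne_zero hb hc N k
  have n2 := orb_ne_zero hb hc N (k + 1)
  have s1 := hsep (k + 1) (by omega)
  have p1 : 0 < chord (orb d N (k + 1) b c) γ := lt_of_lt_of_le hδ s1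
  have t1 := chord_triangle n1 n2 hγ
  have t2 := chord_triangle n2 n1 hγ
  rw [chord_comm (orb d N (k + 1) b c) (orb d N k b c)] at t2
  have e : chord (orb d N k b c) γ / chord (orb d N (k + 1) b c) γ - 1 =
      (chord (orb d N k b c) γ - chord (orb d N (k + 1) b c) γ) /
        chord (orb d N (k + 1) b c) γ := by
    field_simp
  rw [e, norm_div, Real.norm_eq_abs, Real.norm_eq_abs, abs_of_pos p1]
  refine div_le_div₀ (chord_nonneg _ _) ?_ hδ s1
  rw [abs_le]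
  constructor <;> linarith

end Ps39

open Ps39 in
/-- Sub-mean value property of `mu`, with a continuous majorant. -/
theorem mu_submean_aux {d : ℕ} (hd : 2 ≤ d) {Ω : Set (Par d)} (hΩE : Ω ⊆ ExpandingRat d) {N : ℕ}
    (hN : 1 ≤ N) (hΩC : Ω ⊆ Conv d N) {h : ℂ → Par d} {R : ℝ} (hR : 1 < R)
    (hh : DifferentiableOn ℂ h (ball 0 R)) (hmem : ∀ τ ∈ ball (0:ℂ) R, h τ ∈ Ω) {u : ℂ → ℝ}
    (hu : ContinuousOn u (closedBall 0 1))
    (hu1 : ∀ τ ∈ closedBall (0:ℂ) 1, ∀ c, IsCrit d (h τ) c → mu d N (h τ) c ≤ u τ)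
    (hu0 : ∀ τ ∈ closedBall (0:ℂ) 1, 0 ≤ u τ)
    {p : ℝ} (hp : 0 < p) {c : ℂ × ℂ} (hc : IsCrit d (h 0) c) :
    mu d N (h 0) c ^ p ≤ Real.circleAverage (fun τ => u τ ^ p) 0 1 := by
  have hT := refSet hd
  have hsubR : closedBall (0:ℂ) 1 ⊆ ball 0 R := closedBall_subset_ball hR
  have hK := isCompact_image hR hh
  have hKΩ : h '' closedBall 0 1 ⊆ Ω := by
    rintro _ ⟨τ, hτ, rfl⟩
    exact hmem τ (hsubR hτ)
  have hKE := hKΩ.trans hΩE
  have hKC := hKΩ.trans hΩC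
  have h0mem : (0:ℂ) ∈ closedBall (0:ℂ) 1 := by simp
  have h0K : h 0 ∈ h '' closedBall 0 1 := ⟨0, h0mem, rfl⟩
  have h0E : h 0 ∈ ExpandingRat d := hKE h0K
  obtain ⟨δ, hδ, k₀, hsep⟩ := sep_compact (by omega) hT hK hKE hN
  obtain ⟨α, hα, β, hβ, -⟩ := exists_two_ref hd h0E
  have hα0 := hT.ne_zero _ α hα
  have hβ0 := hT.ne_zero _ β hβ
  refine pow_le_avg hu hu0 hp (mu_nonneg (by omega) (hKC h0K) hc) fun ε hε => ?_
  set e : ℝ := min 1 (ε / 2) with he
  have he0 : 0 < e := lt_min one_pos (by linarith)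
  set x : ℝ := min 1 (ε / 12) with hx
  have hx0 : 0 < x := lt_min one_pos (by linarith)
  obtain ⟨k1, hk1⟩ := unif_sig hd hN hK hKC he0
  obtain ⟨k2, hk2⟩ := unif_chord hd hN hK hKC (mul_pos hx0 hδ)
  -- the norm of `Lf` tends to `mu` at the centre
  have hch : Tendsto (fun k => chord (orb d N k (h 0) c) (orb d N (k + 1) (h 0) c)) atTop
      (𝓝 0) := by
    rw [Metric.tendsto_atTop]
    intro η hη
    obtain ⟨k3, hk3⟩ := unif_chord hd hN hK hKC (half_pos hη)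
    refine ⟨k3, fun k hk => ?_⟩
    rw [Real.dist_eq, sub_zero, abs_of_nonneg (chord_nonneg _ _)]
    have := hk3 _ h0K c hc k hk
    linarith
  have hlim : Tendsto (fun k => ‖Lf d N k (h 0) c α β‖) atTop (𝓝 (mu d N (h 0) c)) := by
    have r1 := ratio_tendsto h0E.1 hc.1 hα0 hδ (fun k hk => hsep _ h0K c hc α hα k hk) hch
    have r2 := ratio_tendsto h0E.1 hc.1 hβ0 hδ (fun k hk => hsep _ h0K c hc β hβ k hk) hch
    have r3 := (tendsto_mu (by omega) (hKC h0K) hc).mul (r1.mul r2)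
    rw [mul_one, mul_one] at r3
    refine r3.congr fun k => ?_
    rw [norm_Lf h0E.1 hc.1 hα0 hβ0, div_mul_div_comm, ← mul_div_assoc]
  refine le_of_tendsto hlim ?_
  filter_upwards [eventually_ge_atTop (max k₀ (max k1 k2))] with k hk
  have hka : k₀ ≤ k := (le_max_left _ _).trans hk
  have hkb : k1 ≤ k := (le_max_left _ _).trans ((le_max_right _ _).trans hk)
  have hkc : k2 ≤ k := (le_max_right _ _).trans ((le_max_right _ _).trans hk)
  have hv0 : ∀ τ ∈ closedBall (0:ℂ) 1, 0 < u τ + ε := fun τ hτ => by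
    have := hu0 τ hτ
    linarith
  have key := submean_sum (sumLfD hd hT hΩE N k) hR hh hmem
    (w := fun τ => u τ + ε) (hu.add continuousOn_const) hv0 1 ?_ c hc α hα β hβ
  · rwa [pow_one] at key
  · intro τ hτ c' hc' α' hα' β' hβ'
    have hτ' : τ ∈ closedBall (0:ℂ) 1 := by simpa using hτ
    have hτK : h τ ∈ h '' closedBall 0 1 := ⟨τ, hτ', rfl⟩
    have hE : h τ ∈ ExpandingRat d := hKE hτK
    show ‖Lf d N k (h τ) c' α' β'‖ ≤ (u τ + ε) ^ 1
    rw [pow_one]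
    have a1 := hk1 _ hτK c' hc' k hkb
    have a2 := hk2 _ hτK c' hc' k hkc
    have a3 := hsep _ hτK c' hc' α' hα' (k + 1) (by omega)
    have a4 := hsep _ hτK c' hc' β' hβ' (k + 1) (by omega)
    have a5 := hu1 τ hτ' c' hc'
    have a6 := mu_lt_one (by omega) (hKC hτK) hc'
    have a7 := mu_nonneg (by omega) (hKC hτK) hc'
    have b1 : sig d (h τ) N (orb d N k (h τ) c') ≤ mu d N (h τ) c' + e := by
      have := (abs_le.mp a1).2
      linarith
    refine (norm_Lf_le hE.1 hc'.1 (hT.ne_zero _ α' hα') (hT.ne_zero _ β' hβ') hδ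
      (mul_pos hx0 hδ).le a2 b1 a3 a4).trans ?_
    rw [mul_div_cancel_right₀ _ hδ.ne']
    have e1 : e ≤ 1 := min_le_left _ _
    have e2 : e ≤ ε / 2 := min_le_right _ _
    have x1 : x ≤ 1 := min_le_left _ _
    have x2 : x ≤ ε / 12 := min_le_right _ _
    have c1 : (mu d N (h τ) c' + e) * (1 + x) ^ 2 ≤ mu d N (h τ) c' + e + 6 * x := by
      have d1 : (1 + x) ^ 2 ≤ 1 + 3 * x := by nlinarith
      have d2 : mu d N (h τ) c' + e ≤ 2 := by linarith
      have d3 : 0 ≤ mu d N (h τ) c' + e := by linarith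
      calc (mu d N (h τ) c' + e) * (1 + x) ^ 2 ≤ (mu d N (h τ) c' + e) * (1 + 3 * x) :=
            mul_le_mul_of_nonneg_left d1 d3
        _ = mu d N (h τ) c' + e + 3 * ((mu d N (h τ) c' + e) * x) := by ring
        _ ≤ mu d N (h τ) c' + e + 3 * (2 * x) := by
            have := mul_le_mul_of_nonneg_right d2 hx0.le
            linarith
        _ = _ := by ring
    linarith

end HypRat
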