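import Pool.Agent.Lib.Hyp.Rat.Line11
import Pool.Agent.Lib.Hyp.Rat.Loc25
import Pool.Agent.Lib.Hyp.Rat.Bound95
import Pool.Agent.Lib.Hyp.Rat.Form24

/-!
MP_47150b_an, Theorem C, module D (helper11), part 2: reference points.
-/

namespace HypRat

open Filter Topology

attribute [local irreducible] jac F jacN

/-- `[al]` is the limit of a critical orbit. -/
def Att (d : ℕ) (b : Par d) (al : ℂ × ℂ) : Prop :=
  ∃ c, IsCrit d b c ∧ Tendsto (fun k : ℕ => chord ((F d b)^[k] c) al) atTop (𝓝 0)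

/-- The second preimages of the fixed points which are not limits of critical orbits. -/
def Tset (d : ℕ) (b : Par d) : Set (ℂ × ℂ) :=
  {y | y ≠ 0 ∧ wedge ((F d b)^[2] y) ((F d b)^[3] y) = 0 ∧ ¬ Att d b ((F d b)^[2] y)}

namespace Ref11

/-! ### Basic facts on `chord` -/

theorem chord_eq_zero_iff11 {x y : ℂ × ℂ} (hx : x ≠ 0) (hy : y ≠ 0) :
    chord x y = 0 ↔ wedge x y = 0 := by
  have hx' : ‖x‖ ≠ 0 := norm_ne_zero_iff.2 hx
  have hy' : ‖y‖ ≠ 0 := norm_ne_zero_iff.2 hy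
  unfold chord
  rw [div_eq_zero_iff, norm_eq_zero]
  constructor
  · rintro (h | h)
    · exact h
    · exact absurd h (mul_ne_zero hx' hy')
  · exact Or.inl

theorem continuousAt_chord11 {x y : ℂ × ℂ} (hx : x ≠ 0) (hy : y ≠ 0) :
    ContinuousAt (fun p : (ℂ × ℂ) × (ℂ × ℂ) => chord p.1 p.2) (x, y) := by
  unfold chord
  refine ContinuousAt.div ?_ ?_ ?_
  · exact continuous_wedge.norm.continuousAt
  · exact (continuous_fst.norm.mul continuous_snd.norm).continuousAt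
  · exact mul_ne_zero (norm_ne_zero_iff.2 hx) (norm_ne_zero_iff.2 hy)

/-- A point of the projective line close to `[al]` has a representative close to `al`. -/
theorem proj_near {al : ℂ × ℂ} (hal : al ≠ 0) {δ : ℝ} (hδ : 0 < δ) :
    ∃ ε : ℝ, 0 < ε ∧ ∀ x : ℂ × ℂ, x ≠ 0 → chord x al ≤ ε → ∃ s : ℂ, s ≠ 0 ∧ ‖s • x - al‖ < δ := by
  obtain ⟨w, hw⟩ := exists_wedge_ne_zero hal
  have hal' : 0 < ‖al‖ := norm_pos_iff.2 hal
  have hw0 : w ≠ 0 := by
    rintro rfl
    exact hw (wedge_zero_right _)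
  have hw' : 0 < ‖w‖ := norm_pos_iff.2 hw0
  have hW : 0 < ‖wedge al w‖ := norm_pos_iff.2 hw
  refine ⟨min (‖wedge al w‖ / (2 * (‖al‖ * ‖w‖))) (δ * ‖wedge al w‖ / (4 * (‖al‖ ^ 2 * ‖w‖))),
    by positivity, fun x hx hch => ?_⟩
  have hx' : 0 < ‖x‖ := norm_pos_iff.2 hx
  set A : ℂ := wedge x w / wedge al w with hA
  set B : ℂ := wedge al x / wedge al w with hB
  have hdec : x = A • al + B • w := by
    have h1 := wedge_identity al x w
    rw [wedge_swap al w] at h1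
    have h2 : wedge al w • x = wedge x w • al + wedge al x • w := by
      have h3 : wedge al x • w + wedge x w • al + -wedge al w • x = 0 := h1
      rw [neg_smul, ← sub_eq_add_neg, sub_eq_zero] at h3
      rw [← h3, add_comm]
    have h4 : x = (wedge al w)⁻¹ • (wedge al w • x) := by
      rw [smul_smul, inv_mul_cancel₀ hw, one_smul]
    rw [h4, h2, smul_add, smul_smul, smul_smul, hA, hB]
    congr 2 <;> ring
  have hch' : ‖wedge al x‖ ≤ chord x al * (‖x‖ * ‖al‖) := by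
    unfold chord
    rw [wedge_swap al x, norm_neg] at *
    rw [div_mul_cancel₀ _ (by positivity)]
  have hBle : ‖B‖ * ‖wedge al w‖ ≤ chord x al * (‖x‖ * ‖al‖) := by
    rw [hB, norm_div, div_mul_cancel₀ _ hW.ne']
    exact hch'
  have hc1 : chord x al * (2 * (‖al‖ * ‖w‖)) ≤ ‖wedge al w‖ := by
    have := hch.trans (min_le_left _ _)
    rwa [le_div_iff₀ (by positivity)] at this
  have hc2 : chord x al * (4 * (‖al‖ ^ 2 * ‖w‖)) ≤ δ * ‖wedge al w‖ := by
    have := hch.trans (min_le_right _ _)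
    rwa [le_div_iff₀ (by positivity)] at this
  have hcn := chord_nonneg x al
  have hxle : ‖x‖ ≤ ‖A‖ * ‖al‖ + ‖B‖ * ‖w‖ := by
    conv_lhs => rw [hdec]
    refine (norm_add_le _ _).trans ?_
    rw [norm_smul, norm_smul]
  have hBw : ‖B‖ * ‖w‖ ≤ ‖x‖ / 2 := by
    have h1 : ‖B‖ * ‖w‖ * ‖wedge al w‖ ≤ ‖x‖ / 2 * ‖wedge al w‖ := by
      calc ‖B‖ * ‖w‖ * ‖wedge al w‖ = (‖B‖ * ‖wedge al w‖) * ‖w‖ := by ring
        _ ≤ chord x al * (‖x‖ * ‖al‖) * ‖w‖ := mul_le_mul_of_nonneg_right hBle hw'.le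
        _ = ‖x‖ / 2 * (chord x al * (2 * (‖al‖ * ‖w‖))) := by ring
        _ ≤ ‖x‖ / 2 * ‖wedge al w‖ := mul_le_mul_of_nonneg_left hc1 (by positivity)
    exact le_of_mul_le_mul_right h1 hW
  have hxA : ‖x‖ ≤ 2 * (‖A‖ * ‖al‖) := by linarith
  have hA0 : A ≠ 0 := by
    intro h0
    rw [h0, norm_zero, zero_mul, mul_zero] at hxA
    linarith
  have hA' : 0 < ‖A‖ := norm_pos_iff.2 hA0
  refine ⟨A⁻¹, inv_ne_zero hA0, ?_⟩
  have e : A⁻¹ • x - al = (A⁻¹ * B) • w := by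
    conv_lhs => rw [hdec]
    rw [smul_add, smul_smul, smul_smul, inv_mul_cancel₀ hA0, one_smul, add_sub_cancel_left]
  rw [e, norm_smul, norm_mul, norm_inv, mul_assoc, inv_mul_lt_iff₀ hA']
  have h2 : ‖B‖ * ‖w‖ * ‖wedge al w‖ ≤ (‖A‖ * δ / 2) * ‖wedge al w‖ := by
    calc ‖B‖ * ‖w‖ * ‖wedge al w‖ = (‖B‖ * ‖wedge al w‖) * ‖w‖ := by ring
      _ ≤ chord x al * (‖x‖ * ‖al‖) * ‖w‖ := mul_le_mul_of_nonneg_right hBle hw'.le
      _ ≤ chord x al * (2 * (‖A‖ * ‖al‖) * ‖al‖) * ‖w‖ := by gcongr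
      _ = ‖A‖ / 2 * (chord x al * (4 * (‖al‖ ^ 2 * ‖w‖))) := by ring
      _ ≤ ‖A‖ / 2 * (δ * ‖wedge al w‖) := mul_le_mul_of_nonneg_left hc2 (by positivity)
      _ = (‖A‖ * δ / 2) * ‖wedge al w‖ := by ring
  have h3 := le_of_mul_le_mul_right h2 hW
  have h4 : 0 < ‖A‖ * δ := by positivity
  linarith

/-- Continuity of the iterates on the projective line, uniform in the parameter. -/
theorem chord_iter_near {d : ℕ} {b0 : Par d} (hb : Nondeg d b0) {al : ℂ × ℂ} (hal : al ≠ 0)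
    (j : ℕ) {η : ℝ} (hη : 0 < η) :
    ∃ ε : ℝ, 0 < ε ∧ ∀ᶠ b in 𝓝 b0, ∀ x : ℂ × ℂ, x ≠ 0 → chord x al ≤ ε →
      chord ((F d b)^[j] x) ((F d b0)^[j] al) < η := by
  have h1 : ContinuousAt (fun p : Par d × (ℂ × ℂ) =>
      chord ((F d p.1)^[j] p.2) ((F d b0)^[j] al)) (b0, al) := by
    have h2 := continuousAt_chord11 (iter_ne_zero hb hal j) (iter_ne_zero hb hal j)
    exact ContinuousAt.comp (f := fun p : Par d × (ℂ × ℂ) =>
      ((F d p.1)^[j] p.2, (F d b0)^[j] al)) (x := (b0, al)) h2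
      ((continuous_iter_joint d j).prodMk continuous_const).continuousAt
  have h0 : chord ((F d b0)^[j] al) ((F d b0)^[j] al) = 0 := by simp [chord, wedge_self]
  have h2 : ∀ᶠ p : Par d × (ℂ × ℂ) in 𝓝 (b0, al),
      chord ((F d p.1)^[j] p.2) ((F d b0)^[j] al) < η := by
    refine h1.eventually_lt continuousAt_const ?_
    simp only
    rw [h0]; exact hη
  rw [nhds_prod_eq, eventually_prod_iff] at h2
  obtain ⟨pa, hpa, pb, hpb, hp⟩ := h2
  obtain ⟨δ, hδ, hδ1⟩ := Metric.eventually_nhds_iff.1 hpb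
  obtain ⟨ε, hε, hε1⟩ := proj_near hal hδ
  refine ⟨ε, hε, ?_⟩
  filter_upwards [hpa] with b hb' x hx hch
  obtain ⟨s, hs, hs1⟩ := hε1 x hx hch
  have h3 := hp hb' (hδ1 (y := s • x) (by rwa [dist_eq_norm]))
  simp only [iter_smul] at h3
  rwa [chord_smul_left (pow_ne_zero _ hs)] at h3

/-- `chord ((F d b)^[k] x) z` is continuous in `(b, x)`. -/
theorem eventually_chord_lt {d : ℕ} {b0 : Par d} (hb : Nondeg d b0) {x0 z : ℂ × ℂ} (hx0 : x0 ≠ 0)
    (hz : z ≠ 0) (k : ℕ) {η : ℝ} (h : chord ((F d b0)^[k] x0) z < η) :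
    ∀ᶠ p : Par d × (ℂ × ℂ) in 𝓝 (b0, x0), chord ((F d p.1)^[k] p.2) z < η := by
  have h2 := continuousAt_chord11 (iter_ne_zero hb hx0 k) hz
  have h1 : ContinuousAt (fun p : Par d × (ℂ × ℂ) => chord ((F d p.1)^[k] p.2) z) (b0, x0) :=
    ContinuousAt.comp (f := fun p : Par d × (ℂ × ℂ) =>
      ((F d p.1)^[k] p.2, z)) (x := (b0, x0)) h2
      ((continuous_iter_joint d k).prodMk continuous_const).continuousAt
  exact h1.eventually_lt continuousAt_const h

theorem wedge_eq_zero_of_chord_tendsto {x : ℕ → ℂ × ℂ} (hx : ∀ k, x k ≠ 0) {al be : ℂ × ℂ}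
    (hal : al ≠ 0) (hbe : be ≠ 0) (h1 : Tendsto (fun k => chord (x k) al) atTop (𝓝 0))
    (h2 : Tendsto (fun k => chord (x k) be) atTop (𝓝 0)) : wedge al be = 0 := by
  rw [← chord_eq_zero_iff11 hal hbe]
  have h3 : Tendsto (fun k => chord (x k) al + chord (x k) be) atTop (𝓝 (0 + 0)) := h1.add h2
  have h4 : ∀ k, chord al be ≤ chord (x k) al + chord (x k) be := by
    intro k
    have h5 := chord_triangle hal (hx k) hbe
    rwa [chord_comm al (x k)] at h5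
  have h5 := ge_of_tendsto h3 (Eventually.of_forall h4)
  exact le_antisymm (by linarith) (chord_nonneg _ _)

theorem att_smul {d : ℕ} {b : Par d} {al : ℂ × ℂ} {t : ℂ} (ht : t ≠ 0) :
    Att d b (t • al) ↔ Att d b al := by
  unfold Att
  simp only [chord_smul_right ht]

/-- The orbit of a fixed point. -/
theorem iter_fixed {d : ℕ} {b : Par d} (hb : Nondeg d b) {al : ℂ × ℂ} (hal : al ≠ 0)
    (h : wedge al (F d b al) = 0) (k : ℕ) : ∃ s : ℂ, s ≠ 0 ∧ (F d b)^[k] al = s • al := by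
  obtain ⟨l, hl⟩ := exists_smul_of_wedge_eq_zero hal h
  have hl0 : l ≠ 0 := by
    rintro rfl
    rw [zero_smul] at hl
    exact hal (hb _ hl)
  induction k with
  | zero => exact ⟨1, one_ne_zero, by simp⟩
  | succ k ih =>
    obtain ⟨s, hs, hs1⟩ := ih
    refine ⟨s ^ d * l, mul_ne_zero (pow_ne_zero _ hs) hl0, ?_⟩
    rw [Function.iterate_succ_apply', hs1, F_smul, hl, smul_smul]

/-- Convergence along multiples of `q` to a fixed point. -/
theorem tendsto_of_tendsto_mul {d : ℕ} {b : Par d} (hb : Nondeg d b) {c al : ℂ × ℂ} (hc : c ≠ 0)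
    (hal : al ≠ 0) (hfix : wedge al (F d b al) = 0) {q : ℕ} (hq : 1 ≤ q)
    (h : Tendsto (fun k : ℕ => chord ((F d b)^[q * k] c) al) atTop (𝓝 0)) :
    Tendsto (fun k : ℕ => chord ((F d b)^[k] c) al) atTop (𝓝 0) := by
  rw [Metric.tendsto_atTop]
  intro η hη
  have h1 : ∀ j : ℕ, ∀ᶠ m : ℕ in atTop, chord ((F d b)^[j] ((F d b)^[q * m] c)) al < η := by
    intro j
    obtain ⟨ε, hε, hε1⟩ := chord_iter_near hb hal j hη
    obtain ⟨s, hs, hs1⟩ := iter_fixed hb hal hfix j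
    have h2 := hε1.self_of_nhds
    filter_upwards [h.eventually (gt_mem_nhds hε)] with m hm
    have h3 := h2 _ (iter_ne_zero hb hc _) hm.le
    rwa [hs1, chord_smul_right hs] at h3
  have h2 : ∀ᶠ m : ℕ in atTop, ∀ j ∈ Finset.range q,
      chord ((F d b)^[j] ((F d b)^[q * m] c)) al < η := by
    rw [Filter.eventually_all_finset]
    exact fun j _ => h1 j
  obtain ⟨M, hM⟩ := eventually_atTop.1 h2
  refine ⟨q * M, fun k hk => ?_⟩
  have h3 : M ≤ k / q := by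
    rw [Nat.le_div_iff_mul_le (by omega), mul_comm]; exact hk
  have h4 := hM (k / q) h3 (k % q) (Finset.mem_range.2 (Nat.mod_lt _ (by omega)))
  rw [← Function.iterate_add_apply, Nat.mod_add_div] at h4
  rw [Real.dist_eq, sub_zero, abs_of_nonneg (chord_nonneg _ _)]
  exact h4

theorem sig_smul' {d : ℕ} (hd : 1 ≤ d) (b : Par d) (N : ℕ) {u : ℂ} (hu : u ≠ 0) (x : ℂ × ℂ) :
    sig d b N (u • x) = sig d b N x := by
  have h := sig_smul hd b N one_ne_zero hu x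
  rwa [one_smul] at h

/-- A fixed point which is attracting for an iterate is attracting. -/
theorem isAttracting_one_of {d : ℕ} (hd : 1 ≤ d) {b : Par d} (hb : Nondeg d b) {al : ℂ × ℂ}
    (hal : al ≠ 0) (hfix : wedge al (F d b al) = 0) {q : ℕ} {ga : ℂ × ℂ}
    (h : IsAttracting d b q ga) (hga : wedge ga al = 0) : IsAttracting d b 1 al := by
  have hga0 : ga ≠ 0 := h.1
  obtain ⟨t, ht⟩ := exists_smul_of_wedge_eq_zero hga0 hga
  have ht0 : t ≠ 0 := by
    rintro rfl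
    rw [zero_smul] at ht
    exact hal ht
  rw [isAttracting_iff_sig hd hb hga0] at h
  rw [isAttracting_iff_sig hd hb hal]
  have h1 : sig d b q al < 1 := by
    rw [ht, sig_smul' hd b q ht0]
    exact h.2
  have h2 : ∀ k : ℕ, sig d b k al = sig d b 1 al ^ k := by
    intro k
    induction k with
    | zero =>
      have hn : ‖al‖ ≠ 0 := norm_ne_zero_iff.2 hal
      simp only [sig, jacN_zero, norm_one, one_mul, Function.iterate_zero, id, pow_zero]
      exact div_self (pow_ne_zero _ hn)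
    | succ k ih =>
      obtain ⟨s, hs, hs1⟩ := iter_fixed hb hal hfix k
      rw [sig_add hb k 1 hal, ih, hs1, sig_smul' hd b 1 hs, pow_succ]
  refine ⟨?_, ?_⟩
  · rw [Function.iterate_one, wedge_swap, hfix, neg_zero]
  · by_contra hcon
    push Not at hcon
    rw [h2 q] at h1
    exact absurd (one_le_pow₀ hcon) (not_le.2 h1)

/-- Limits of critical orbits of expanding maps are attracting. -/
theorem isAttracting_of_att {d : ℕ} (hd : 1 ≤ d) {b : Par d} (hb : b ∈ ExpandingRat d)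
    {al : ℂ × ℂ} (hal : al ≠ 0) (hfix : wedge al (F d b al) = 0) (h : Att d b al) :
    IsAttracting d b 1 al := by
  obtain ⟨c, hc, hlim⟩ := h
  obtain ⟨q, hq, ga, hga, hlim'⟩ := hb.2 c hc
  refine isAttracting_one_of hd hb.1 hal hfix hga ?_
  refine wedge_eq_zero_of_chord_tendsto (x := fun k => (F d b)^[q * k] c)
    (fun k => iter_ne_zero hb.1 hc.1 _) hga.1 hal hlim' ?_
  have h2 : Tendsto (fun k : ℕ => q * k) atTop atTop :=
    tendsto_id.const_mul_atTop' (by omega)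
  exact hlim.comp h2

/-- **D1.** Critical orbits do not meet the reference points. -/
theorem wedge_iter_ne_zero_of_mem_Tset {d : ℕ} {b : Par d} (hb : Nondeg d b) {c : ℂ × ℂ}
    (hc : IsCrit d b c) {y : ℂ × ℂ} (hy : y ∈ Tset d b) (k : ℕ) :
    wedge ((F d b)^[k] c) y ≠ 0 := by
  intro h
  obtain ⟨hy0, hfix, hnot⟩ := hy
  apply hnot
  obtain ⟨t, ht⟩ := exists_smul_of_wedge_eq_zero (iter_ne_zero hb hc.1 k) h
  have ht0 : t ≠ 0 := by
    rintro rfl
    rw [zero_smul] at ht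
    exact hy0 ht
  set al := (F d b)^[2] y with hal
  have hal0 : al ≠ 0 := iter_ne_zero hb hy0 2
  have hfix' : wedge al (F d b al) = 0 := by
    have e : (F d b)^[3] y = F d b al := by
      rw [hal, ← Function.iterate_succ_apply' (F d b) 2 y]
    rwa [e] at hfix
  refine ⟨c, hc, tendsto_const_nhds.congr' ?_⟩
  filter_upwards [eventually_ge_atTop (k + 2)] with j hj
  obtain ⟨i, rfl⟩ : ∃ i, j = i + (2 + k) := ⟨j - (2 + k), by omega⟩
  obtain ⟨s, hs, hs1⟩ := iter_fixed hb hal0 hfix' i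
  have e1 : al = t ^ (d ^ 2) • (F d b)^[2 + k] c := by
    rw [hal, ht, iter_smul, ← Function.iterate_add_apply]
  have ht2 : t ^ (d ^ 2) ≠ 0 := pow_ne_zero _ ht0
  have e2 : (F d b)^[2 + k] c = (t ^ (d ^ 2))⁻¹ • al := by
    rw [e1, smul_smul, inv_mul_cancel₀ ht2, one_smul]
  have e3 : (F d b)^[i + (2 + k)] c = ((t ^ (d ^ 2))⁻¹ ^ (d ^ i) * s) • al := by
    rw [Function.iterate_add_apply, e2, iter_smul, hs1, smul_smul]
  rw [e3, chord_smul_left (mul_ne_zero (pow_ne_zero _ (inv_ne_zero ht2)) hs)]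
  simp [chord, wedge_self]

/-- The second iterate of a point of `Ψ = 0` is fixed. -/
theorem fixed_of_Psi {d : ℕ} {b : Par d} {y : ℂ × ℂ} (h : Psi d b y = 0) :
    wedge ((F d b)^[2] y) (F d b ((F d b)^[2] y)) = 0 := by
  rw [← Function.iterate_succ_apply' (F d b) 2 y]
  exact h

/-- An attracting fixed point which attracts a critical point persists (case 1 of D2). -/
theorem att_near {d : ℕ} (hd : 1 ≤ d) {b0 : Par d} (hb : Nondeg d b0) {al0 : ℂ × ℂ}
    (hal0 : al0 ≠ 0) (hatt : IsAttracting d b0 1 al0) {c0 : ℂ × ℂ} (hc0 : IsCrit d b0 c0)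
    (hlim : Tendsto (fun k : ℕ => chord ((F d b0)^[k] c0) al0) atTop (𝓝 0)) :
    ∃ ε : ℝ, 0 < ε ∧ ∀ᶠ b in 𝓝 b0, ∀ al : ℂ × ℂ, al ≠ 0 → wedge al (F d b al) = 0 →
      chord al al0 ≤ ε → Att d b al := by
  obtain ⟨δ, ρ, hδ, -, hρ0, hρ1, hev⟩ := trap hd hb hatt one_pos
  obtain ⟨k1, hk1⟩ := (hlim.eventually (gt_mem_nhds hδ)).exists
  have h1 := eventually_chord_lt hb hc0.1 hal0 k1 hk1
  rw [nhds_prod_eq, eventually_prod_iff] at h1
  obtain ⟨pa, hpa, pb, hpb, hp⟩ := h1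
  obtain ⟨η, hη, hη1⟩ := Metric.eventually_nhds_iff.1 hpb
  refine ⟨δ, hδ, ?_⟩
  filter_upwards [hev, hpa, exists_crit_near hd hb hc0 hη] with b hb1 hb2 hb3 al hal hfix hch
  obtain ⟨hnd, hcontr, -, hinv⟩ := hb1
  obtain ⟨c, hc, hcc⟩ := hb3
  have hk : chord ((F d b)^[k1] c) al0 < δ := hp hb2 (hη1 (y := c) (by rwa [dist_eq_norm]))
  obtain ⟨s, hs, hs1⟩ := iter_fixed hnd hal hfix 1
  rw [Function.iterate_one] at hs1
  have hstep : ∀ m : ℕ, chord ((F d b)^[m + k1] c) al0 ≤ δ ∧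
      chord ((F d b)^[m + k1] c) al ≤ ρ ^ m * chord ((F d b)^[k1] c) al := by
    intro m
    induction m with
    | zero => simpa using hk.le
    | succ m ih =>
      have hne : (F d b)^[m + k1] c ≠ 0 := iter_ne_zero hnd hc.1 _
      have e : (F d b)^[m + 1 + k1] c = (F d b)^[1] ((F d b)^[m + k1] c) := by
        rw [← Function.iterate_add_apply]
        congr 1
        omega
      refine ⟨?_, ?_⟩
      · rw [e]
        exact hinv _ hne ih.1
      · have h2 := hcontr _ al hne hal ih.1 hch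
        rw [Function.iterate_one, hs1, chord_smul_right hs] at h2
        rw [e, Function.iterate_one, pow_succ']
        calc chord (F d b ((F d b)^[m + k1] c)) al ≤ ρ * chord ((F d b)^[m + k1] c) al := h2
          _ ≤ ρ * (ρ ^ m * chord ((F d b)^[k1] c) al) := mul_le_mul_of_nonneg_left ih.2 hρ0.le
          _ = ρ * ρ ^ m * chord ((F d b)^[k1] c) al := by ring
  refine ⟨c, hc, ?_⟩
  rw [← tendsto_add_atTop_iff_nat k1]
  have h3 : Tendsto (fun m : ℕ => ρ ^ m * chord ((F d b)^[k1] c) al) atTop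
      (𝓝 (0 * chord ((F d b)^[k1] c) al)) :=
    (tendsto_pow_atTop_nhds_zero_of_lt_one hρ0.le hρ1).mul_const _
  rw [zero_mul] at h3
  exact squeeze_zero (fun m => chord_nonneg _ _) (fun m => (hstep m).2) h3

/-- Away from the limits of the critical orbits (case 2 of D2). -/
theorem not_att_near {d : ℕ} (hd : 1 ≤ d) {b0 : Par d} (hb : b0 ∈ ExpandingRat d)
    {al0 : ℂ × ℂ} (hal0 : al0 ≠ 0) (hfix : wedge al0 (F d b0 al0) = 0)
    (hnot : ¬ Att d b0 al0) :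
    ∃ ε : ℝ, 0 < ε ∧ ∀ᶠ b in 𝓝 b0, ∀ al : ℂ × ℂ, al ≠ 0 → chord al al0 ≤ ε →
      ¬ Att d b al := by
  -- for each unit vector `c0` there is a radius which works near `(b0, c0)`
  have key : ∃ ε : ℝ, 0 < ε ∧ ∀ᶠ b in 𝓝 b0, ∀ c ∈ Metric.sphere (0 : ℂ × ℂ) 1,
      ∀ al : ℂ × ℂ, al ≠ 0 → chord al al0 ≤ ε →
      ¬ (IsCrit d b c ∧ Tendsto (fun k : ℕ => chord ((F d b)^[k] c) al) atTop (𝓝 0)) := by
    have hloc : ∀ c0 ∈ Metric.sphere (0 : ℂ × ℂ) 1, ∃ ε : ℝ, 0 < ε ∧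
        ∀ᶠ p : Par d × (ℂ × ℂ) in 𝓝 (b0, c0), ∀ al : ℂ × ℂ, al ≠ 0 → chord al al0 ≤ ε →
        ¬ (IsCrit d p.1 p.2 ∧
          Tendsto (fun k : ℕ => chord ((F d p.1)^[k] p.2) al) atTop (𝓝 0)) := by
      intro c0 hc0
      have hc0' : c0 ≠ 0 := by
        rintro rfl
        simp at hc0
      by_cases hcrit : IsCrit d b0 c0
      · obtain ⟨q, hq, ga, hga, hlim⟩ := hb.2 c0 hcrit
        have hne : wedge ga al0 ≠ 0 := by
          intro h0
          obtain ⟨t, ht⟩ := exists_smul_of_wedge_eq_zero hga.1 h0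
          have ht0 : t ≠ 0 := by
            rintro rfl
            rw [zero_smul] at ht
            exact hal0 ht
          refine hnot ⟨c0, hcrit, tendsto_of_tendsto_mul hb.1 hc0' hal0 hfix hq ?_⟩
          rw [ht]
          simpa only [chord_smul_right ht0] using hlim
        have hη : 0 < chord ga al0 :=
          lt_of_le_of_ne (chord_nonneg _ _)
            (fun h => hne ((chord_eq_zero_iff11 hga.1 hal0).1 h.symm))
        obtain ⟨k0, hk0⟩ := local_trap hd hb.1 hc0' hga hlim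
          (ε := chord ga al0 / 4) (by positivity)
        refine ⟨chord ga al0 / 4, by positivity, ?_⟩
        have h3 : ∀ᶠ p : Par d × (ℂ × ℂ) in 𝓝 (b0, c0), p.2 ≠ 0 :=
          continuous_snd.continuousAt.eventually_ne hc0'
        have h4 : ∀ᶠ p : Par d × (ℂ × ℂ) in 𝓝 (b0, c0), Nondeg d p.1 :=
          (continuous_fst.tendsto (b0, c0)).eventually ((isOpen_nondeg d).mem_nhds hb.1)
        filter_upwards [hk0, h3, h4] with p hp hp3 hp4 al hal hch
        rintro ⟨-, hlim'⟩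
        have h5 : Tendsto (fun k : ℕ => chord ((F d p.1)^[q * k] p.2) al) atTop (𝓝 0) :=
          hlim'.comp (tendsto_id.const_mul_atTop' (by omega))
        have h6 : ∀ᶠ k : ℕ in atTop, chord ga al0 / 2 ≤ chord ((F d p.1)^[q * k] p.2) al := by
          filter_upwards [eventually_ge_atTop k0] with k hk
          have h7 := hp k hk
          have hx : (F d p.1)^[q * k] p.2 ≠ 0 := iter_ne_zero hp4 hp3 _
          have h8 := chord_triangle hga.1 hx hal0
          have h9 := chord_triangle hx hal hal0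
          rw [chord_comm ga ((F d p.1)^[q * k] p.2)] at h8
          linarith
        have h7 := ge_of_tendsto h5 h6
        linarith
      · refine ⟨1, one_pos, ?_⟩
        have hj : jac d b0 c0 ≠ 0 := fun h => hcrit ((isCrit_iff hd).2 ⟨hc0', h⟩)
        have h2 : ∀ᶠ p : Par d × (ℂ × ℂ) in 𝓝 (b0, c0), jac d p.1 p.2 ≠ 0 :=
          ((continuous_jac_joint d).tendsto (b0, c0)).eventually (isOpen_ne.mem_nhds hj)
        filter_upwards [h2] with p hp al _ _
        rintro ⟨hcr, -⟩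
        exact hp ((isCrit_iff hd).1 hcr).2
    choose! E hE hE1 using hloc
    -- compactness of the sphere
    have hcpt := (isCompact_sphere (0 : ℂ × ℂ) 1)
    have hloc2 : ∀ c0 ∈ Metric.sphere (0 : ℂ × ℂ) 1, ∃ U ∈ 𝓝 c0, ∃ W ∈ 𝓝 b0,
        ∀ b ∈ W, ∀ c ∈ U, ∀ al : ℂ × ℂ, al ≠ 0 → chord al al0 ≤ E c0 →
        ¬ (IsCrit d b c ∧ Tendsto (fun k : ℕ => chord ((F d b)^[k] c) al) atTop (𝓝 0)) := by
      intro c0 hc0
      have h := hE1 c0 hc0
      rw [nhds_prod_eq, eventually_prod_iff] at h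
      obtain ⟨pa, hpa, pb, hpb, hp⟩ := h
      exact ⟨{c | pb c}, hpb, {b | pa b}, hpa, fun b hb' c hc' => hp hb' hc'⟩
    choose! U hU W hW hUW using hloc2
    obtain ⟨t, ht, hcov⟩ := hcpt.elim_nhds_subcover U (fun c hc => hU c hc)
    have hmin : ∃ ε : ℝ, 0 < ε ∧ ∀ c ∈ t, ε ≤ E c := by
      rcases t.eq_empty_or_nonempty with h | h
      · exact ⟨1, one_pos, by simp [h]⟩
      · refine ⟨t.inf' h E, ?_, fun c hc => Finset.inf'_le _ hc⟩
        rw [Finset.lt_inf'_iff]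
        exact fun c hc => hE c (ht c hc)
    obtain ⟨ε, hε, hεt⟩ := hmin
    refine ⟨ε, hε, ?_⟩
    have hWt : ∀ᶠ b in 𝓝 b0, ∀ c ∈ t, b ∈ W c := by
      rw [Filter.eventually_all_finset]
      exact fun c hc => hW c (ht c hc)
    filter_upwards [hWt] with b hbW c hc al hal hch
    have hc' := hcov hc
    simp only [Set.mem_iUnion] at hc'
    obtain ⟨c1, hc1, hcU⟩ := hc'
    exact hUW c1 (ht c1 hc1) b (hbW c1 hc1) c hcU al hal (hch.trans (hεt c1 hc1))
  obtain ⟨ε, hε, hev⟩ := key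
  refine ⟨ε, hε, ?_⟩
  filter_upwards [hev] with b hb' al hal hch
  rintro ⟨c, hc, hlim⟩
  obtain ⟨t, ht, ht1⟩ := exists_unit hc.1
  refine hb' (t • c) (mem_sphere_zero_iff_norm.2 ht1) al hal hch ⟨(isCrit_smul_right hd hc ht), ?_⟩
  refine hlim.congr fun k => ?_
  rw [iter_smul, chord_smul_left (pow_ne_zero _ ht)]

/-- **D2.** -/
theorem clopen {d : ℕ} (hd : 1 ≤ d) {b0 : Par d} (hb : b0 ∈ ExpandingRat d) {y0 : ℂ × ℂ}
    (hy0 : y0 ≠ 0) (hPsi : Psi d b0 y0 = 0) :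
    (∀ᶠ p : Par d × (ℂ × ℂ) in 𝓝 (b0, y0), Psi d p.1 p.2 = 0 → p.2 ∈ Tset d p.1) ∨
    (∀ᶠ p : Par d × (ℂ × ℂ) in 𝓝 (b0, y0), Psi d p.1 p.2 = 0 → p.2 ∉ Tset d p.1) := by
  have hfix0 := fixed_of_Psi hPsi
  set al0 := (F d b0)^[2] y0 with hal0
  have hal00 : al0 ≠ 0 := iter_ne_zero hb.1 hy0 2
  have hnd : ∀ᶠ p : Par d × (ℂ × ℂ) in 𝓝 (b0, y0), Nondeg d p.1 :=
    (continuous_fst.tendsto (b0, y0)).eventually ((isOpen_nondeg d).mem_nhds hb.1)
  have hne : ∀ᶠ p : Par d × (ℂ × ℂ) in 𝓝 (b0, y0), p.2 ≠ 0 :=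
    continuous_snd.continuousAt.eventually_ne hy0
  have hnear : ∀ ε : ℝ, 0 < ε → ∀ᶠ p : Par d × (ℂ × ℂ) in 𝓝 (b0, y0),
      chord ((F d p.1)^[2] p.2) al0 < ε := by
    intro ε hε
    refine eventually_chord_lt hb.1 hy0 hal00 2 ?_
    rw [← hal0]
    simpa [chord, wedge_self] using hε
  by_cases hA : Att d b0 al0
  · right
    obtain ⟨c0, hc0, hlim⟩ := hA
    obtain ⟨ε, hε, hev⟩ := att_near hd hb.1 hal00
      (isAttracting_of_att hd hb hal00 hfix0 ⟨c0, hc0, hlim⟩) hc0 hlim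
    filter_upwards [(continuous_fst.tendsto (b0, y0)).eventually hev, hnd, hne, hnear ε hε]
      with p hp1 hp2 hp3 hp4 hp5
    rintro ⟨-, -, hnot⟩
    exact hnot (hp1 _ (iter_ne_zero hp2 hp3 2) (fixed_of_Psi hp5) hp4.le)
  · left
    obtain ⟨ε, hε, hev⟩ := not_att_near hd hb hal00 hfix0 hA
    filter_upwards [(continuous_fst.tendsto (b0, y0)).eventually hev, hnd, hne, hnear ε hε]
      with p hp1 hp2 hp3 hp4 hp5
    exact ⟨hp3, hp5, hp1 _ (iter_ne_zero hp2 hp3 2) hp4.le⟩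

/-- **D4.** The tails of the critical orbits stay away from the reference points. -/
theorem sep {d : ℕ} (hd : 1 ≤ d) {b0 : Par d} (hb : b0 ∈ ExpandingRat d) {c0 : ℂ × ℂ}
    (hc0 : IsCrit d b0 c0) {y0 : ℂ × ℂ} (hy0 : y0 ∈ Tset d b0) :
    ∃ δ > 0, ∃ k0 : ℕ, ∀ᶠ p : Par d × ((ℂ × ℂ) × (ℂ × ℂ)) in 𝓝 (b0, (c0, y0)),
      ∀ k, k0 ≤ k → δ ≤ chord ((F d p.1)^[k] p.2.1) p.2.2 := by
  obtain ⟨q, hq, ga, hga, hlim⟩ := hb.2 c0 hc0
  have hfix0 := fixed_of_Psi hy0.2.1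
  have hal00 : (F d b0)^[2] y0 ≠ 0 := iter_ne_zero hb.1 hy0.1 2
  -- the points of the cycle are different from `y0`
  have hne : ∀ j : ℕ, wedge ((F d b0)^[j] ga) y0 ≠ 0 := by
    intro j h0
    obtain ⟨t, ht⟩ := exists_smul_of_wedge_eq_zero (iter_ne_zero hb.1 hga.1 j) h0
    have ht0 : t ≠ 0 := by
      rintro rfl
      rw [zero_smul] at ht
      exact hy0.1 ht
    -- `F^(j+2) ga` is proportional to `al0`, hence so is `ga`
    have hcyc : ∀ m : ℕ, ∃ s : ℂ, s ≠ 0 ∧ (F d b0)^[q * m] ga = s • ga := by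
      intro m
      have hga' := hga
      obtain ⟨-, l, μ, hl, -⟩ := hga'
      have hl0 : l ≠ 0 := by
        rintro rfl
        rw [zero_smul] at hl
        exact iter_ne_zero hb.1 hga.1 q hl
      induction m with
      | zero => exact ⟨1, one_ne_zero, by simp⟩
      | succ m ih =>
        obtain ⟨s, hs, hs1⟩ := ih
        refine ⟨s ^ (d ^ q) * l, mul_ne_zero (pow_ne_zero _ hs) hl0, ?_⟩
        rw [Nat.mul_succ, Nat.add_comm, Function.iterate_add_apply, hs1, iter_smul, hl, smul_smul]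
    obtain ⟨s, hs, hs1⟩ := hcyc (j + 2)
    have h1 : j + 2 ≤ q * (j + 2) := Nat.le_mul_of_pos_left _ (by omega)
    obtain ⟨i, hi⟩ : ∃ i, q * (j + 2) = i + (2 + j) := ⟨q * (j + 2) - (2 + j), by omega⟩
    obtain ⟨r, hr, hr1⟩ := iter_fixed hb.1 hal00 hfix0 i
    have e1 : (F d b0)^[2] y0 = t ^ (d ^ 2) • (F d b0)^[2 + j] ga := by
      rw [ht, iter_smul, ← Function.iterate_add_apply]
    have ht2 : t ^ (d ^ 2) ≠ 0 := pow_ne_zero _ ht0
    have e2 : (F d b0)^[2 + j] ga = (t ^ (d ^ 2))⁻¹ • (F d b0)^[2] y0 := by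
      rw [e1, smul_smul, inv_mul_cancel₀ ht2, one_smul]
    have e3 : s • ga = ((t ^ (d ^ 2))⁻¹ ^ (d ^ i) * r) • (F d b0)^[2] y0 := by
      rw [← hs1, hi, Function.iterate_add_apply, e2, iter_smul, hr1, smul_smul]
    apply hy0.2.2
    refine ⟨c0, hc0, tendsto_of_tendsto_mul hb.1 hc0.1 hal00 hfix0 hq ?_⟩
    have h4 : (t ^ (d ^ 2))⁻¹ ^ (d ^ i) * r ≠ 0 :=
      mul_ne_zero (pow_ne_zero _ (inv_ne_zero ht2)) hr
    refine hlim.congr fun k => ?_
    rw [← chord_smul_right hs, e3, chord_smul_right h4]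
  have hη : ∀ j : ℕ, 0 < chord ((F d b0)^[j] ga) y0 := fun j =>
    lt_of_le_of_ne (chord_nonneg _ _)
      (fun h => hne j ((chord_eq_zero_iff11 (iter_ne_zero hb.1 hga.1 j) hy0.1).1 h.symm))
  -- a common lower bound
  obtain ⟨η, hη0, hη1⟩ : ∃ η : ℝ, 0 < η ∧ ∀ j ∈ Finset.range q,
      η ≤ chord ((F d b0)^[j] ga) y0 := by
    have hne' : (Finset.range q).Nonempty := Finset.nonempty_range_iff.2 (by omega)
    refine ⟨(Finset.range q).inf' hne' fun j => chord ((F d b0)^[j] ga) y0, ?_,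
      fun j hj => Finset.inf'_le _ hj⟩
    rw [Finset.lt_inf'_iff]
    exact fun j _ => hη j
  have hunif : ∃ ε : ℝ, 0 < ε ∧ ∀ᶠ b in 𝓝 b0, ∀ j ∈ Finset.range q, ∀ x : ℂ × ℂ, x ≠ 0 →
      chord x ga ≤ ε → chord ((F d b)^[j] x) ((F d b0)^[j] ga) < η / 4 := by
    choose ε hε hε1 using fun j => chord_iter_near hb.1 hga.1 j (η := η / 4) (by positivity)
    have hne' : (Finset.range q).Nonempty := Finset.nonempty_range_iff.2 (by omega)
    refine ⟨(Finset.range q).inf' hne' ε, ?_, ?_⟩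
    · rw [Finset.lt_inf'_iff]
      exact fun j _ => hε j
    · rw [Filter.eventually_all_finset]
      intro j hj
      filter_upwards [hε1 j] with b hb' x hx hch
      exact hb' x hx (hch.trans (Finset.inf'_le _ hj))
  obtain ⟨ε, hε, hε1⟩ := hunif
  obtain ⟨k0, hk0⟩ := local_trap hd hb.1 hc0.1 hga hlim hε
  refine ⟨η / 2, by positivity, q * k0, ?_⟩
  have t1 : Tendsto (fun p : Par d × ((ℂ × ℂ) × (ℂ × ℂ)) => (p.1, p.2.1)) (𝓝 (b0, (c0, y0)))
      (𝓝 (b0, c0)) :=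
    (continuous_fst.prodMk (continuous_fst.comp continuous_snd)).tendsto _
  have t2 : Tendsto (fun p : Par d × ((ℂ × ℂ) × (ℂ × ℂ)) => p.2.2) (𝓝 (b0, (c0, y0)))
      (𝓝 y0) := (continuous_snd.comp continuous_snd).tendsto _
  have t3 : Tendsto (fun p : Par d × ((ℂ × ℂ) × (ℂ × ℂ)) => p.2.1) (𝓝 (b0, (c0, y0)))
      (𝓝 c0) := (continuous_fst.comp continuous_snd).tendsto _
  have t4 : Tendsto (fun p : Par d × ((ℂ × ℂ) × (ℂ × ℂ)) => p.1) (𝓝 (b0, (c0, y0)))
      (𝓝 b0) := continuous_fst.tendsto _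
  have hy : ∀ᶠ y in 𝓝 y0, chord y y0 < η / 4 := by
    have h := Ch.tendsto_chord (l := 𝓝 y0) (u := fun y => y) (v := fun _ => y0) tendsto_id
      tendsto_const_nhds hy0.1 hy0.1
    refine h.eventually (gt_mem_nhds ?_)
    simpa [chord, wedge_self] using hη0
  filter_upwards [t1.eventually hk0, t2.eventually hy, t4.eventually hε1,
    t3.eventually (isOpen_ne.mem_nhds hc0.1), t2.eventually (isOpen_ne.mem_nhds hy0.1),
    t4.eventually ((isOpen_nondeg d).mem_nhds hb.1)] with p hp1 hp2 hp3 hp4 hp5 hp6 k hk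
  have h3 : k0 ≤ k / q := by
    rw [Nat.le_div_iff_mul_le (by omega), mul_comm]; exact hk
  have hj : k % q ∈ Finset.range q := Finset.mem_range.2 (Nat.mod_lt _ (by omega))
  have h4 := hp1 (k / q) h3
  have hx0 : (F d p.1)^[q * (k / q)] p.2.1 ≠ 0 := iter_ne_zero hp6 hp4 _
  have h5 := hp3 (k % q) hj _ hx0 h4
  rw [← Function.iterate_add_apply, Nat.mod_add_div] at h5
  have h6 := hη1 (k % q) hj
  have hx1 : (F d p.1)^[k] p.2.1 ≠ 0 := iter_ne_zero hp6 hp4 _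
  have h7 := chord_triangle (iter_ne_zero hb.1 hga.1 (k % q)) hx1 hy0.1
  have h8 := chord_triangle hx1 hp5 hy0.1
  rw [chord_comm ((F d b0)^[k % q] ga) ((F d p.1)^[k] p.2.1)] at h7
  linarith

end Ref11

theorem att_smul_par24 {d : ℕ} (hd : 1 ≤ d) {b : Par d} {al : ℂ × ℂ} {t s : ℂ} (ht : t ≠ 0)
    (hs : s ≠ 0) (h : Att d b al) : Att d (t • b) (s • al) := by
  obtain ⟨c, hc, hl⟩ := h
  refine ⟨c, (isCrit_smul_par hd ht).2 hc, hl.congr fun k => ?_⟩
  have := chord_iter_scaling hd b k ht one_ne_zero c (s • al)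
  rw [one_smul] at this
  rw [this, chord_smul_right hs]

theorem mem_Tset_of_smul24 {d : ℕ} (hd : 1 ≤ d) {b : Par d} {y : ℂ × ℂ} {t : ℂ} (ht : t ≠ 0)
    (h : y ∈ Tset d b) : y ∈ Tset d (t • b) := by
  obtain ⟨h1, h2, h3⟩ := h
  obtain ⟨s2, hs2, e2, -⟩ := scaling hd b 2 ht one_ne_zero y
  obtain ⟨s3, hs3, e3, -⟩ := scaling hd b 3 ht one_ne_zero y
  rw [one_smul] at e2 e3
  refine ⟨h1, ?_, ?_⟩
  · rw [e2, e3, wedge_smul_left, wedge_smul_right, h2, mul_zero, mul_zero]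
  · rw [e2]
    intro hA
    apply h3
    have := att_smul_par24 hd (inv_ne_zero ht) (inv_ne_zero hs2) hA
    rwa [smul_smul, smul_smul, inv_mul_cancel₀ ht, inv_mul_cancel₀ hs2, one_smul, one_smul] at this

theorem mem_Tset_smul_par {d : ℕ} (hd : 1 ≤ d) (b : Par d) (y : ℂ × ℂ) (t : ℂ) (ht : t ≠ 0) :
    y ∈ Tset d (t • b) ↔ y ∈ Tset d b := by
  refine ⟨fun h => ?_, mem_Tset_of_smul24 hd ht⟩
  have := mem_Tset_of_smul24 hd (inv_ne_zero ht) h
  rwa [smul_smul, inv_mul_cancel₀ ht, one_smul] at this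

open Ref11 in
/-- The reference points form a reference set. -/
theorem refSet {d : ℕ} (hd : 2 ≤ d) : RefSet d (Psi d) (Tset d) where
  ne_zero := fun b y hy => hy.1
  zero := fun b y hy => hy.2.1
  smul := by
    intro b y u hu hy
    refine ⟨smul_ne_zero hu hy.1, ?_, ?_⟩
    · rw [iter_smul, iter_smul, wedge_smul_left, wedge_smul_right, hy.2.1, mul_zero, mul_zero]
    · rw [iter_smul, att_smul (pow_ne_zero _ hu)]
      exact hy.2.2
  smul_par := mem_Tset_smul_par (by omega)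
  cont := (differentiable_Psi_joint d).continuous
  never := fun b hb c hc y hy k => wedge_iter_ne_zero_of_mem_Tset hb.1 hc hy k
  clopen := fun b hb y hy hPsi => Ref11.clopen (by omega) hb hy hPsi
  sep := by
    intro b hb c hc y hy N hN
    obtain ⟨δ, hδ, k0, hev⟩ := Ref11.sep (by omega) hb hc hy
    refine ⟨δ, hδ, k0, ?_⟩
    filter_upwards [hev] with p hp k hk
    exact hp (k * N) (hk.trans (Nat.le_mul_of_pos_right _ hN))

end HypRat
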