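import Pool.Agent.Lib.Hyp.Sym15
import Pool.Agent.Lib.Hyp.Rat.Alg95
import Pool.Agent.Lib.Hyp.Rat.FormDef24

/-!
Holomorphic symmetric sums over selected zeros of binary forms (module B of Theorem C for
MP_47150b_an, helper15).
-/

namespace Hyp20
namespace Sym

open Filter Topology Set Metric MeasureTheory Polynomial

variable {E : Type*} [NormedAddCommGroup E] [NormedSpace ℂ E] [ProperSpace E]

/-- **Local version.** Sums over selected roots are holomorphic near a point. -/
theorem eventually_differentiableAt_sum_roots (a0 : E) (Q : E → ℂ[X])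
    (hQe : ∀ᶠ a in 𝓝 a0, Q a ≠ 0)
    (hq : Differentiable ℂ (fun x : E × ℂ => (Q x.1).eval x.2))
    (hq' : Differentiable ℂ (fun x : E × ℂ => (Q x.1).derivative.eval x.2))
    (hbd : ∃ R : ℝ, ∀ᶠ a in 𝓝 a0, ∀ z, (Q a).eval z = 0 → ‖z‖ ≤ R)
    (S : Set (E × ℂ)) (H : E × ℂ → ℂ)
    (hS : ∀ c, (Q a0).eval c = 0 →
      (∀ᶠ q : E × ℂ in 𝓝 (a0, c), (Q q.1).eval q.2 = 0 → q ∈ S) ∨
      (∀ᶠ q : E × ℂ in 𝓝 (a0, c), (Q q.1).eval q.2 = 0 → q ∉ S))
    (hH : ∀ c, (Q a0).eval c = 0 → (a0, c) ∈ S →
      ∀ᶠ q : E × ℂ in 𝓝 (a0, c), DifferentiableAt ℂ H q) :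
    ∀ᶠ a in 𝓝 a0, DifferentiableAt ℂ (fun a => ((Q a).roots.map fun c =>
      @ite ℂ ((a, c) ∈ S) (Classical.propDecidable _) (H (a, c)) 0).sum) a := by
  classical
  have hQ00 : Q a0 ≠ 0 := hQe.self_of_nhds
  set R0 : Finset ℂ := (Q a0).roots.toFinset with hR0
  have hmem0 : ∀ c, c ∈ R0 ↔ (Q a0).eval c = 0 := by
    intro c
    rw [hR0, Multiset.mem_toFinset, Polynomial.mem_roots hQ00, Polynomial.IsRoot.def]
  -- the radius
  have hrad : ∃ ε > 0, (∀ c ∈ R0, ∀ c' ∈ R0, c ≠ c' → 2 * ε < dist c c') ∧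
      ∀ c ∈ R0, ((∀ a ∈ closedBall a0 ε, ∀ z ∈ closedBall c ε, (Q a).eval z = 0 → (a, z) ∈ S) ∧
          (∀ a ∈ closedBall a0 ε, ∀ z ∈ closedBall c ε, DifferentiableAt ℂ H (a, z)) ∧
          (a0, c) ∈ S) ∨
        ((∀ a ∈ closedBall a0 ε, ∀ z ∈ closedBall c ε, (Q a).eval z = 0 → (a, z) ∉ S) ∧
          (a0, c) ∉ S) := by
    have h1 : ∀ᶠ ε : ℝ in 𝓝[>] 0, ∀ c ∈ R0, ∀ c' ∈ R0, c ≠ c' → 2 * ε < dist c c' := by
      rw [Filter.eventually_all_finset]
      intro c hc
      rw [Filter.eventually_all_finset]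
      intro c' hc'
      by_cases hcc : c = c'
      · exact Eventually.of_forall fun ε h => absurd hcc h
      · have hpos : 0 < dist c c' := dist_pos.2 hcc
        have : ∀ᶠ ε : ℝ in 𝓝[>] 0, ε < dist c c' / 2 :=
          eventually_nhdsWithin_of_eventually_nhds (gt_mem_nhds (by positivity))
        filter_upwards [this] with ε hε _
        linarith
    have h2 : ∀ᶠ ε : ℝ in 𝓝[>] 0, ∀ c ∈ R0,
        ((∀ a ∈ closedBall a0 ε, ∀ z ∈ closedBall c ε, (Q a).eval z = 0 → (a, z) ∈ S) ∧
          (∀ a ∈ closedBall a0 ε, ∀ z ∈ closedBall c ε, DifferentiableAt ℂ H (a, z)) ∧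
          (a0, c) ∈ S) ∨
        ((∀ a ∈ closedBall a0 ε, ∀ z ∈ closedBall c ε, (Q a).eval z = 0 → (a, z) ∉ S) ∧
          (a0, c) ∉ S) := by
      rw [Filter.eventually_all_finset]
      intro c hc
      have hc0 := (hmem0 c).1 hc
      rcases hS c hc0 with hin | hout
      · have hcS : (a0, c) ∈ S := hin.self_of_nhds hc0
        have hev := hin.and (hH c hc0 hcS)
        obtain ⟨r, hr, hball⟩ := Metric.eventually_nhds_iff_ball.1 hev
        have : ∀ᶠ ε : ℝ in 𝓝[>] 0, ε < r :=
          eventually_nhdsWithin_of_eventually_nhds (gt_mem_nhds hr)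
        filter_upwards [this] with ε hε
        left
        have hin' : ∀ a ∈ closedBall a0 ε, ∀ z ∈ closedBall c ε, (a, z) ∈ ball (a0, c) r := by
          intro a ha z hz
          rw [mem_closedBall] at ha hz
          rw [mem_ball, Prod.dist_eq, max_lt_iff]
          exact ⟨by linarith, by linarith⟩
        exact ⟨fun a ha z hz => (hball _ (hin' a ha z hz)).1,
          fun a ha z hz => (hball _ (hin' a ha z hz)).2, hcS⟩
      · have hcS : (a0, c) ∉ S := hout.self_of_nhds hc0
        obtain ⟨r, hr, hball⟩ := Metric.eventually_nhds_iff_ball.1 hout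
        have : ∀ᶠ ε : ℝ in 𝓝[>] 0, ε < r :=
          eventually_nhdsWithin_of_eventually_nhds (gt_mem_nhds hr)
        filter_upwards [this] with ε hε
        right
        have hin' : ∀ a ∈ closedBall a0 ε, ∀ z ∈ closedBall c ε, (a, z) ∈ ball (a0, c) r := by
          intro a ha z hz
          rw [mem_closedBall] at ha hz
          rw [mem_ball, Prod.dist_eq, max_lt_iff]
          exact ⟨by linarith, by linarith⟩
        exact ⟨fun a ha z hz => hball _ (hin' a ha z hz), hcS⟩
    have h3 : ∀ᶠ ε : ℝ in 𝓝[>] 0, 0 < ε := self_mem_nhdsWithin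
    obtain ⟨ε, hε1, hε2, hε3⟩ := (h1.and (h2.and h3)).exists
    exact ⟨ε, hε3, hε1, hε2⟩
  obtain ⟨ε, hε, hdist, hgood⟩ := hrad
  obtain ⟨R, hR⟩ := hbd
  -- no zeros outside the discs
  set T : Set ℂ := (closedBall 0 R ∪ ⋃ c ∈ R0, closedBall c ε) \ ⋃ c ∈ R0, ball c ε with hT
  have hTc : IsCompact T := by
    refine IsCompact.diff ((isCompact_closedBall _ _).union ?_) ?_
    · exact R0.isCompact_biUnion fun c _ => isCompact_closedBall c ε
    · exact isOpen_biUnion fun c _ => isOpen_ball
  have hTz : ∀ᶠ a in 𝓝 a0, ∀ z ∈ T, (Q a).eval z ≠ 0 := by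
    refine hTc.eventually_forall_of_forall_eventually fun z hz => ?_
    have hne : (Q a0).eval z ≠ 0 := by
      intro h0
      have : z ∈ R0 := (hmem0 z).2 h0
      exact hz.2 (mem_biUnion this (mem_ball_self hε))
    exact hq.continuous.continuousAt.eventually_ne hne
  obtain ⟨δ, hδ, hδball⟩ := Metric.eventually_nhds_iff_ball.1 (hR.and (hTz.and hQe))
  set δ' : ℝ := min δ ε with hδ'
  have hδ'0 : 0 < δ' := lt_min hδ hε
  have hbδ : ∀ a ∈ ball a0 δ', a ∈ ball a0 δ := fun a ha => ball_subset_ball (min_le_left _ _) ha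
  have hbε : ∀ a ∈ ball a0 δ', a ∈ closedBall a0 ε := fun a ha =>
    ball_subset_closedBall (ball_subset_ball (min_le_right _ _) ha)
  have hsphT : ∀ c ∈ R0, sphere c ε ⊆ T := by
    intro c hc z hz
    refine ⟨Or.inr (mem_biUnion hc (sphere_subset_closedBall hz)), ?_⟩
    intro hmem
    obtain ⟨c', hc', hzc'⟩ := mem_iUnion₂.1 hmem
    rw [mem_sphere] at hz
    rw [mem_ball] at hzc'
    by_cases hcc : c = c'
    · subst hcc; linarith
    · have h1 := hdist c hc c' hc' hcc
      have h2 := dist_triangle c z c'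
      rw [dist_comm c z] at h2
      linarith
  have hroots : ∀ a ∈ ball a0 δ', ∀ z, (Q a).eval z = 0 → ∃ c ∈ R0, z ∈ ball c ε := by
    intro a ha z hz
    by_contra hcon
    push Not at hcon
    have hzR := (hδball a (hbδ a ha)).1 z hz
    refine (hδball a (hbδ a ha)).2.1 z ⟨Or.inl ?_, ?_⟩ hz
    · rw [mem_closedBall_zero_iff]; exact hzR
    · intro hmem
      obtain ⟨c', hc', hzc'⟩ := mem_iUnion₂.1 hmem
      exact hcon c' hc' hzc'
  -- the integral representation
  have hrep : ∀ a ∈ ball a0 δ', ((Q a).roots.map fun c =>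
      if (a, c) ∈ S then H (a, c) else 0).sum =
      ∑ c ∈ R0.filter (fun c => (a0, c) ∈ S), (2 * Real.pi * Complex.I)⁻¹ *
        ∮ z in C(c, ε), (Q a).derivative.eval z / (Q a).eval z * H (a, z) := by
    intro a ha
    have h1 : ∀ c ∈ R0.filter (fun c => (a0, c) ∈ S), (2 * Real.pi * Complex.I)⁻¹ *
        (∮ z in C(c, ε), (Q a).derivative.eval z / (Q a).eval z * H (a, z)) =
        ((Q a).roots.map fun w => if w ∈ ball c ε then H (a, w) else 0).sum := by
      intro c hc
      obtain ⟨hcR, hcS⟩ := Finset.mem_filter.1 hc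
      have hdiff : ∀ z ∈ closedBall c ε, DifferentiableAt ℂ H (a, z) := by
        rcases hgood c hcR with hg | hg
        · exact fun z hz => hg.2.1 a (hbε a ha) z hz
        · exact absurd hcS hg.2
      have hh : DiffContOnCl ℂ (fun z => H (a, z)) (ball c ε) := by
        apply DifferentiableOn.diffContOnCl
        rw [closure_ball c hε.ne']
        intro z hz
        have h2 : DifferentiableAt ℂ (fun z : ℂ => (a, z)) z := by fun_prop
        exact ((hdiff z hz).comp z h2).differentiableWithinAt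
      rw [circleIntegral_logDeriv hε hh (Q a) fun z hz =>
        (hδball a (hbδ a ha)).2.1 z (hsphT c hcR hz)]
      have h2pi : (2 * Real.pi * Complex.I : ℂ) ≠ 0 := Complex.two_pi_I_ne_zero
      rw [← mul_assoc, inv_mul_cancel₀ h2pi, one_mul]
    rw [Finset.sum_congr rfl h1]
    have h2 : ∀ (s : Multiset ℂ) (t : Finset ℂ) (w : ℂ → ℂ → ℂ),
        ∑ c ∈ t, (s.map fun x => w c x).sum = (s.map fun x => ∑ c ∈ t, w c x).sum := by
      intro s t w
      induction s using Multiset.induction_on with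
      | empty => simp
      | cons x s ih => simp [Finset.sum_add_distrib, ih]
    rw [h2]
    congr 1
    refine Multiset.map_congr rfl fun w hw => ?_
    have hw0 : (Q a).eval w = 0 := (Polynomial.mem_roots (hδball a (hbδ a ha)).2.2).1 hw
    obtain ⟨c, hc, hwc⟩ := hroots a ha w hw0
    have huniq : ∀ c' ∈ R0, w ∈ ball c' ε → c' = c := by
      intro c' hc' hwc'
      by_contra hne
      have h3 := hdist c' hc' c hc hne
      rw [mem_ball] at hwc hwc'
      have h4 := dist_triangle c' w c
      rw [dist_comm c' w] at h4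
      linarith
    rcases hgood c hc with hg | hg
    · rw [if_pos (hg.1 a (hbε a ha) w (ball_subset_closedBall hwc) hw0)]
      rw [Finset.sum_eq_single c]
      · rw [if_pos hwc]
      · intro c' hc' hne
        rw [if_neg]
        intro hmem
        exact hne (huniq c' (Finset.mem_filter.1 hc').1 hmem)
      · intro hnot
        exact absurd (Finset.mem_filter.2 ⟨hc, hg.2.2⟩) hnot
    · rw [if_neg (hg.1 a (hbε a ha) w (ball_subset_closedBall hwc) hw0)]
      symm
      apply Finset.sum_eq_zero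
      intro c' hc'
      rw [if_neg]
      intro hmem
      have := huniq c' (Finset.mem_filter.1 hc').1 hmem
      subst this
      exact hg.2 (Finset.mem_filter.1 hc').2
  -- each integral is holomorphic
  have hint : ∀ c ∈ R0.filter (fun c => (a0, c) ∈ S), DifferentiableOn ℂ (fun a =>
      ∮ z in C(c, ε), (Q a).derivative.eval z / (Q a).eval z * H (a, z)) (ball a0 δ') := by
    intro c hc
    obtain ⟨hcR, hcS⟩ := Finset.mem_filter.1 hc
    have hdiff : ∀ a ∈ ball a0 δ', ∀ z ∈ closedBall c ε, DifferentiableAt ℂ H (a, z) := by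
      rcases hgood c hcR with hg | hg
      · exact fun a ha z hz => hg.2.1 a (hbε a ha) z hz
      · exact absurd hcS hg.2
    have hne : ∀ a ∈ ball a0 δ', ∀ z ∈ sphere c ε, (Q a).eval z ≠ 0 := fun a ha z hz =>
      (hδball a (hbδ a ha)).2.1 z (hsphT c hcR hz)
    have hGd : ∀ a ∈ ball a0 δ', ∀ z ∈ sphere c ε, DifferentiableAt ℂ
        (fun x : E × ℂ => (Q x.1).derivative.eval x.2 / (Q x.1).eval x.2 * H x) (a, z) := by
      intro a ha z hz
      have e1 : DifferentiableAt ℂ (fun x : E × ℂ => (Q x.1).derivative.eval x.2) (a, z) :=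
        hq' (a, z)
      have e2 : DifferentiableAt ℂ (fun x : E × ℂ => ((Q x.1).eval x.2)⁻¹) (a, z) :=
        DifferentiableAt.fun_inv (hq (a, z)) (hne a ha z hz)
      have e3 := (e1.mul e2).mul (hdiff a ha z (sphere_subset_closedBall hz))
      refine e3.congr_of_eventuallyEq (Eventually.of_forall fun x => ?_)
      show (Q x.1).derivative.eval x.2 / (Q x.1).eval x.2 * H x =
        ((Q x.1).derivative.eval x.2 * ((Q x.1).eval x.2)⁻¹) * H x
      rw [div_eq_mul_inv]
    simp only [circleIntegral]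
    refine differentiableOn_integral isOpen_ball Real.two_pi_pos.le ?_ ?_
    · intro p hp
      have hz : circleMap c ε p.2 ∈ sphere c ε := circleMap_mem_sphere c hε.le p.2
      have h1 := (hGd p.1 hp.1 _ hz).continuousAt
      have h2 : ContinuousAt (fun p : E × ℝ => (p.1, circleMap c ε p.2)) p := by
        have := (continuous_circleMap c ε)
        fun_prop
      have h3 : ContinuousAt (fun p : E × ℝ => deriv (circleMap c ε) p.2) p := by
        simp only [deriv_circleMap]
        have := (continuous_circleMap 0 ε)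
        fun_prop
      have h4 := ContinuousAt.comp (f := fun p : E × ℝ => (p.1, circleMap c ε p.2)) h1 h2
      exact (h3.smul h4).continuousWithinAt
    · intro t _ a ha
      have hz : circleMap c ε t ∈ sphere c ε := circleMap_mem_sphere c hε.le t
      have h1 := hGd a ha _ hz
      have h2 : DifferentiableAt ℂ (fun a : E => (a, circleMap c ε t)) a := by fun_prop
      have h3 := h1.comp a h2
      exact (h3.const_smul (deriv (circleMap c ε) t)).differentiableWithinAt
  have hsum : DifferentiableOn ℂ (fun a => ∑ c ∈ R0.filter (fun c => (a0, c) ∈ S),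
      (2 * Real.pi * Complex.I)⁻¹ *
        ∮ z in C(c, ε), (Q a).derivative.eval z / (Q a).eval z * H (a, z)) (ball a0 δ') := by
    apply DifferentiableOn.fun_sum
    intro c hc
    exact (hint c hc).const_mul _
  filter_upwards [isOpen_ball.mem_nhds (mem_ball_self hδ'0)] with b hb
  have h1 := (hsum b hb).differentiableAt (isOpen_ball.mem_nhds hb)
  refine h1.congr_of_eventuallyEq ?_
  filter_upwards [isOpen_ball.mem_nhds hb] with a ha
  exact hrep a ha

end Sym
end Hyp20
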