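import Pool.Agent.Lib.Hyp.Rat.FormDef24
import Pool.Agent.Lib.Hyp.Rat.Alg95
import Pool.Agent.Lib.Hyp.Rat.Res24
import Pool.Agent.Lib.Hyp.PSum25

/-!
Zeros of binary forms with multiplicity, sums over selected zeros (algebraic part of module B,
MP_47150b_an, second half of Q2; helper24).
-/

namespace HypRat

open Polynomial

/-- a form in the affine chart -/
theorem form_chart24 {D : ℕ} (a : Fin (D + 1) → ℂ) (x : ℂ × ℂ) (hx : x.2 ≠ 0) :
    form D a x = x.2 ^ D * (pl24 a).eval (x.1 / x.2) := by
  unfold form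
  rw [pl24_eval, Finset.mul_sum]
  refine Finset.sum_congr rfl ?_
  intro j _
  have h1 : x.2 ^ D = x.2 ^ (D - (j : ℕ)) * x.2 ^ (j : ℕ) := by
    rw [← pow_add]; congr 1; omega
  rw [div_pow, h1]
  field_simp

/-- a form at infinity -/
theorem form_infty24 {D : ℕ} (a : Fin (D + 1) → ℂ) (x : ℂ × ℂ) (hx : x.2 = 0) :
    form D a x = x.1 ^ D * (pl24 a).coeff D := by
  unfold form
  have := pl24_coeff a (Fin.last D)
  rw [Fin.val_last] at this
  rw [this, Finset.sum_eq_single (Fin.last D)]
  · simp [mul_comm]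
  · intro j _ hj
    have : (j : ℕ) < D := Fin.val_lt_last hj
    rw [hx, zero_pow (by omega), mul_zero, mul_zero]
  · intro h
    exact absurd (Finset.mem_univ _) h

theorem pl24_ne_zero {D : ℕ} {a : Fin (D + 1) → ℂ} (ha : a ≠ 0) : pl24 a ≠ 0 := by
  intro h
  apply ha
  funext j
  rw [← pl24_coeff a j, h, coeff_zero]
  rfl

/-- factorisation of a binary form into linear forms -/
theorem exists_zeros24 {D : ℕ} {a : Fin (D + 1) → ℂ} (ha : a ≠ 0) :
    ∃ s : Multiset (ℂ × ℂ), Multiset.card s = D ∧ (∀ v ∈ s, v ≠ 0) ∧ ∃ k : ℂ, k ≠ 0 ∧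
      ∀ x, form D a x = k * (s.map fun v => wedge v x).prod := by
  obtain ⟨p, hp⟩ : ∃ p : ℂ[X], p = pl24 a := ⟨_, rfl⟩
  have hp0 : p ≠ 0 := hp ▸ pl24_ne_zero ha
  have hdeg : p.natDegree ≤ D := hp ▸ pl24_natDegree a
  have hsp : p.Splits := IsAlgClosed.splits p
  have hcard : Multiset.card p.roots = p.natDegree := hsp.natDegree_eq_card_roots.symm
  have hev : ∀ z, p.eval z = p.leadingCoeff * (p.roots.map fun r => z - r).prod := by
    intro z
    conv_lhs => rw [hsp.eq_prod_roots]
    rw [eval_mul, eval_C, eval_multiset_prod, Multiset.map_map]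
    simp
  refine ⟨p.roots.map (fun r => (r, (1 : ℂ))) + Multiset.replicate (D - p.natDegree) (1, 0),
    ?_, ?_, p.leadingCoeff * (-1) ^ p.natDegree,
    mul_ne_zero (leadingCoeff_ne_zero.2 hp0) (pow_ne_zero _ (by norm_num)), ?_⟩
  · rw [Multiset.card_add, Multiset.card_map, hcard, Multiset.card_replicate]
    omega
  · intro v hv
    rcases Multiset.mem_add.1 hv with h | h
    · obtain ⟨r, _, rfl⟩ := Multiset.mem_map.1 h
      simp
    · rw [Multiset.eq_of_mem_replicate h]
      simp
  · intro x
    have e1 : ((p.roots.map (fun r => (r, (1 : ℂ)))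
        + Multiset.replicate (D - p.natDegree) (1, 0)).map fun v => wedge v x).prod
        = (p.roots.map fun r => wedge (r, (1 : ℂ)) x).prod * x.2 ^ (D - p.natDegree) := by
      rw [Multiset.map_add, Multiset.prod_add, Multiset.map_map, Multiset.map_replicate,
        Multiset.prod_replicate]
      have : wedge ((1 : ℂ), (0 : ℂ)) x = x.2 := by simp [wedge]
      rw [this]
      rfl
    have e2 : (p.roots.map fun r => wedge (r, (1 : ℂ)) x).prod
        = (-1) ^ p.natDegree * (p.roots.map fun r => x.1 - r * x.2).prod := by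
      rw [← hcard]
      have : (p.roots.map fun r => wedge (r, (1 : ℂ)) x)
          = p.roots.map fun r => (-1) * (x.1 - r * x.2) := by
        refine Multiset.map_congr rfl fun r _ => ?_
        simp only [wedge]; ring
      rw [this, Multiset.prod_map_mul]
      simp
    have hm : ((-1 : ℂ) ^ p.natDegree) * (-1) ^ p.natDegree = 1 := by
      rw [← mul_pow]; simp
    rw [e1, e2]
    have e3 : p.leadingCoeff * (-1) ^ p.natDegree * ((-1) ^ p.natDegree *
        (p.roots.map fun r => x.1 - r * x.2).prod * x.2 ^ (D - p.natDegree))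
        = p.leadingCoeff * (p.roots.map fun r => x.1 - r * x.2).prod
          * x.2 ^ (D - p.natDegree) := by
      linear_combination (p.leadingCoeff * (p.roots.map fun r => x.1 - r * x.2).prod
          * x.2 ^ (D - p.natDegree)) * hm
    rw [e3]
    by_cases h0 : x.2 = 0
    · rw [form_infty24 a x h0, ← hp, h0]
      rcases lt_or_eq_of_le hdeg with h | h
      · rw [coeff_eq_zero_of_natDegree_lt h, zero_pow (by omega)]
        ring
      · have e4 : (p.roots.map fun r => x.1 - r * 0).prod = x.1 ^ D := by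
          have : (p.roots.map fun r => x.1 - r * 0) = Multiset.replicate D x.1 := by
            rw [← h, ← hcard, ← Multiset.map_const']
            refine Multiset.map_congr rfl fun r _ => by ring
          rw [this, Multiset.prod_replicate]
        rw [e4, h, Nat.sub_self, pow_zero, mul_one, ← h, coeff_natDegree]
        ring
    · rw [form_chart24 a x h0, ← hp, hev]
      have e4 : (p.roots.map fun r => x.1 - r * x.2).prod
          = x.2 ^ p.natDegree * (p.roots.map fun r => x.1 / x.2 - r).prod := by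
        have : (p.roots.map fun r => x.1 - r * x.2)
            = p.roots.map fun r => x.2 * (x.1 / x.2 - r) := by
          refine Multiset.map_congr rfl fun r _ => ?_
          field_simp
        rw [this, Multiset.prod_map_mul, ← hcard]
        simp
      have e5 : x.2 ^ D = x.2 ^ p.natDegree * x.2 ^ (D - p.natDegree) := by
        rw [← pow_add]; congr 1; omega
      rw [e4, e5]
      ring

open Classical in
/-- the zeros of a form, with multiplicity, one representative on each line -/
noncomputable def zeros24 (D : ℕ) (a : Fin (D + 1) → ℂ) : Multiset (ℂ × ℂ) :=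
  if h : a ≠ 0 then (exists_zeros24 h).choose else 0

theorem zeros24_card {D : ℕ} {a : Fin (D + 1) → ℂ} (ha : a ≠ 0) :
    Multiset.card (zeros24 D a) = D := by
  unfold zeros24
  rw [dif_pos ha]
  exact (exists_zeros24 ha).choose_spec.1

theorem zeros24_card_le {D : ℕ} (a : Fin (D + 1) → ℂ) : Multiset.card (zeros24 D a) ≤ D := by
  by_cases ha : a ≠ 0
  · exact (zeros24_card ha).le
  · unfold zeros24
    rw [dif_neg ha]
    simp

theorem zeros24_ne_zero {D : ℕ} {a : Fin (D + 1) → ℂ} {v : ℂ × ℂ} (hv : v ∈ zeros24 D a) :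
    v ≠ 0 := by
  by_cases ha : a ≠ 0
  · unfold zeros24 at hv
    rw [dif_pos ha] at hv
    exact (exists_zeros24 ha).choose_spec.2.1 v hv
  · unfold zeros24 at hv
    rw [dif_neg ha] at hv
    simp at hv

theorem form_eq_prod24 {D : ℕ} {a : Fin (D + 1) → ℂ} (ha : a ≠ 0) :
    ∃ k : ℂ, k ≠ 0 ∧ ∀ x, form D a x = k * ((zeros24 D a).map fun v => wedge v x).prod := by
  unfold zeros24
  rw [dif_pos ha]
  exact (exists_zeros24 ha).choose_spec.2.2

theorem form_zero_of_mem24 {D : ℕ} {a : Fin (D + 1) → ℂ} {v : ℂ × ℂ} (hv : v ∈ zeros24 D a) :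
    form D a v = 0 := by
  by_cases ha : a ≠ 0
  · obtain ⟨k, _, h⟩ := form_eq_prod24 ha
    rw [h, Multiset.prod_eq_zero, mul_zero]
    exact Multiset.mem_map.2 ⟨v, hv, wedge_self v⟩
  · push Not at ha
    rw [ha]
    simp [form]

/-- every zero is proportional to one of the representatives -/
theorem exists_mem_zeros24 {D : ℕ} {a : Fin (D + 1) → ℂ} (ha : a ≠ 0) {x : ℂ × ℂ} (hx : x ≠ 0)
    (h0 : form D a x = 0) : ∃ v ∈ zeros24 D a, ∃ t : ℂ, t ≠ 0 ∧ x = t • v := by
  obtain ⟨k, hk, h⟩ := form_eq_prod24 ha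
  rw [h, mul_eq_zero, or_iff_right hk, Multiset.prod_eq_zero_iff, Multiset.mem_map] at h0
  obtain ⟨v, hv, hw⟩ := h0
  obtain ⟨t, ht⟩ := exists_smul_of_wedge_eq_zero (zeros24_ne_zero hv) hw
  refine ⟨v, hv, t, ?_, ht⟩
  rintro rfl
  rw [zero_smul] at ht
  exact hx ht

theorem continuous_prod_wedge24 (s : Multiset (ℂ × ℂ)) :
    Continuous fun x : ℂ × ℂ => (s.map fun v => wedge v x).prod := by
  induction s using Multiset.induction_on with
  | empty => simpa using continuous_const
  | cons v s ih =>
    simp only [Multiset.map_cons, Multiset.prod_cons]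
    refine Continuous.mul ?_ ih
    exact continuous_wedge.comp (continuous_const.prodMk continuous_id)

/-- the multiset of the linear factors is unique up to scaling -/
theorem sum_congr24 (f : ℂ × ℂ → ℂ) (hf : ∀ (v : ℂ × ℂ) (t : ℂ), t ≠ 0 → f (t • v) = f v)
    (s : Multiset (ℂ × ℂ)) : ∀ (s' : Multiset (ℂ × ℂ)) (k k' : ℂ), (∀ v ∈ s, v ≠ 0) →
      (∀ v ∈ s', v ≠ 0) → k ≠ 0 → k' ≠ 0 →
      (∀ x : ℂ × ℂ, k * (s.map fun v => wedge v x).prod = k' * (s'.map fun v => wedge v x).prod) →
      (s.map f).sum = (s'.map f).sum := by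
  induction s using Multiset.induction_on with
  | empty =>
    intro s' k k' _ hs' hk hk' h
    rcases Multiset.empty_or_exists_mem s' with he | ⟨v, hv⟩
    · rw [he]
    · exfalso
      have := h v
      rw [Multiset.prod_eq_zero (s := s'.map fun w => wedge w v)
        (Multiset.mem_map.2 ⟨v, hv, wedge_self v⟩)] at this
      simp at this
      exact hk this
  | cons v s ih =>
    intro s' k k' hs hs' hk hk' h
    have hv0 : v ≠ 0 := hs v (Multiset.mem_cons_self v s)
    have h1 := h v
    rw [Multiset.map_cons, Multiset.prod_cons, wedge_self, zero_mul, mul_zero, eq_comm,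
      mul_eq_zero, or_iff_right hk', Multiset.prod_eq_zero_iff, Multiset.mem_map] at h1
    obtain ⟨v', hv', hw⟩ := h1
    obtain ⟨t, ht⟩ := exists_smul_of_wedge_eq_zero (hs' v' hv') hw
    have ht0 : t ≠ 0 := by
      rintro rfl
      rw [zero_smul] at ht
      exact hv0 ht
    obtain ⟨s1, rfl⟩ := Multiset.exists_cons_of_mem hv'
    have key : ∀ x : ℂ × ℂ, k * t * (s.map fun v => wedge v x).prod
        = k' * (s1.map fun v => wedge v x).prod := by
      obtain ⟨w, hw2⟩ := exists_wedge_ne_zero (hs' v' hv')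
      have hne : ∀ x : ℂ × ℂ, wedge v' x ≠ 0 → k * t * (s.map fun v => wedge v x).prod
          = k' * (s1.map fun v => wedge v x).prod := by
        intro x hx
        have h2 := h x
        rw [Multiset.map_cons, Multiset.prod_cons, Multiset.map_cons, Multiset.prod_cons, ht,
          wedge_smul_left] at h2
        refine mul_left_cancel₀ hx ?_
        linear_combination h2
      intro x
      by_cases hx : wedge v' x = 0
      · have hc1 : Continuous fun e : ℂ => k * t * (s.map fun v => wedge v (x + e • w)).prod :=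
          continuous_const.mul ((continuous_prod_wedge24 s).comp
            (continuous_const.add (continuous_id.smul continuous_const)))
        have hc2 : Continuous fun e : ℂ => k' * (s1.map fun v => wedge v (x + e • w)).prod :=
          continuous_const.mul ((continuous_prod_wedge24 s1).comp
            (continuous_const.add (continuous_id.smul continuous_const)))
        have := Continuous.ext_on (dense_compl_singleton (0 : ℂ)) hc1 hc2 (by
          intro e he
          refine hne _ ?_
          rw [wedge_add_right, hx, zero_add, wedge_smul_right]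
          exact mul_ne_zero he hw2)
        have h3 := congrFun this 0
        simpa using h3
      · exact hne x hx
    have h4 := ih s1 (k * t) k' (fun u hu => hs u (Multiset.mem_cons_of_mem hu))
      (fun u hu => hs' u (Multiset.mem_cons_of_mem hu)) (mul_ne_zero hk ht0) hk' key
    rw [Multiset.map_cons, Multiset.sum_cons, Multiset.map_cons, Multiset.sum_cons, h4, ht,
      hf v' t ht0]

open Classical in
/-- the sum of `H` over the zeros in `S` -/
noncomputable def symSum24 (D : ℕ) (a : Fin (D + 1) → ℂ) (S : Set (ℂ × ℂ)) (H : ℂ × ℂ → ℂ) : ℂ :=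
  ((zeros24 D a).map fun v => if v ∈ S then H v else 0).sum

open Classical in
/-- the sum can be computed from every factorisation -/
theorem symSum24_eq {D : ℕ} {a : Fin (D + 1) → ℂ} (ha : a ≠ 0) (S : Set (ℂ × ℂ)) (H : ℂ × ℂ → ℂ)
    (hS : ∀ (v : ℂ × ℂ) (t : ℂ), t ≠ 0 → (t • v ∈ S ↔ v ∈ S)) (hH : ∀ (v : ℂ × ℂ) (t : ℂ), t ≠ 0 → H (t • v) = H v)
    (s : Multiset (ℂ × ℂ)) (hs : ∀ v ∈ s, v ≠ 0) (k : ℂ) (hk : k ≠ 0)
    (h : ∀ x, form D a x = k * (s.map fun v => wedge v x).prod) :
    symSum24 D a S H = (s.map fun v => if v ∈ S then H v else 0).sum := by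
  obtain ⟨k', hk', h'⟩ := form_eq_prod24 ha
  refine sum_congr24 _ ?_ _ s k' k (fun v hv => zeros24_ne_zero hv) hs hk' hk ?_
  · intro v t ht
    simp only [hS v t ht, hH v t ht]
  · intro x
    rw [← h', ← h]

theorem form_smul_coeff24 {D : ℕ} (a : Fin (D + 1) → ℂ) (t : ℂ) (x : ℂ × ℂ) :
    form D (t • a) x = t * form D a x := by
  simp only [form, Pi.smul_apply, smul_eq_mul, Finset.mul_sum, mul_assoc]

/-- proportional forms give the same sums -/
theorem symSum24_smul {D : ℕ} (a : Fin (D + 1) → ℂ) (S : Set (ℂ × ℂ)) (H : ℂ × ℂ → ℂ)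
    (hS : ∀ (v : ℂ × ℂ) (t : ℂ), t ≠ 0 → (t • v ∈ S ↔ v ∈ S)) (hH : ∀ (v : ℂ × ℂ) (t : ℂ), t ≠ 0 → H (t • v) = H v) {t : ℂ}
    (ht : t ≠ 0) : symSum24 D (t • a) S H = symSum24 D a S H := by
  classical
  by_cases ha : a ≠ 0
  · obtain ⟨k, hk, h⟩ := form_eq_prod24 ha
    have ha' : t • a ≠ 0 := smul_ne_zero ht ha
    rw [symSum24_eq ha' S H hS hH (zeros24 D a) (fun v hv => zeros24_ne_zero hv) (t * k)
      (mul_ne_zero ht hk) (by
        intro x
        rw [form_smul_coeff24, h, mul_assoc])]
    unfold symSum24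
    rfl
  · push Not at ha
    rw [ha, smul_zero]

theorem symSum24_congr {D : ℕ} (a : Fin (D + 1) → ℂ) {S S' : Set (ℂ × ℂ)} {H H' : ℂ × ℂ → ℂ}
    (hS : ∀ v, v ≠ 0 → form D a v = 0 → (v ∈ S ↔ v ∈ S'))
    (hH : ∀ v, v ≠ 0 → form D a v = 0 → v ∈ S → H v = H' v) :
    symSum24 D a S H = symSum24 D a S' H' := by
  classical
  unfold symSum24
  congr 1
  refine Multiset.map_congr rfl fun v hv => ?_
  have h1 := zeros24_ne_zero hv
  have h2 := form_zero_of_mem24 hv
  by_cases h : v ∈ S
  · have h' := (hS v h1 h2).1 h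
    simp only [h, h', if_true]
    exact hH v h1 h2 h
  · have h' : v ∉ S' := fun hh => h ((hS v h1 h2).2 hh)
    simp only [h, h', if_false]

end HypRat
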