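import Pool.Agent.Lib.Hyp.Rat.Roots15
import Pool.Agent.Lib.Hyp.Rat.Zer24

/-!
Theorem B: sums over selected zeros of a holomorphic family of binary forms are holomorphic
(module B of Theorem C for MP_47150b_an, helper15).
-/

namespace HypRat

open Filter Topology Set Metric Polynomial

namespace B15

/-- the form of degree `D` in the chart `z ↦ w + z • v0` -/
noncomputable def cp (D : ℕ) (w v0 : ℂ × ℂ) (j : Fin (D + 1)) : ℂ[X] :=
  (C w.1 + C v0.1 * X) ^ (j : ℕ) * (C w.2 + C v0.2 * X) ^ (D - (j : ℕ))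

noncomputable def chp (D : ℕ) (w v0 : ℂ × ℂ) (a : Fin (D + 1) → ℂ) : ℂ[X] :=
  ∑ j : Fin (D + 1), C (a j) * cp D w v0 j

theorem eval_chp (D : ℕ) (w v0 : ℂ × ℂ) (a : Fin (D + 1) → ℂ) (z : ℂ) :
    (chp D w v0 a).eval z = form D a (w + z • v0) := by
  unfold chp form cp
  rw [eval_finsetSum]
  refine Finset.sum_congr rfl fun j _ => ?_
  simp only [eval_mul, eval_C, eval_pow, eval_add, eval_X, Prod.fst_add, Prod.snd_add,
    Prod.smul_fst, Prod.smul_snd, smul_eq_mul]
  ring

theorem natDegree_lin (u v : ℂ) : (C u + C v * X : ℂ[X]).natDegree ≤ 1 := by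
  refine (natDegree_add_le _ _).trans ?_
  rw [natDegree_C]
  exact max_le (by omega) ((natDegree_C_mul_le v X).trans natDegree_X_le)

theorem coeff_lin (u v : ℂ) : (C u + C v * X : ℂ[X]).coeff 1 = v := by
  simp [coeff_C]

theorem natDegree_cp (D : ℕ) (w v0 : ℂ × ℂ) (j : Fin (D + 1)) :
    (cp D w v0 j).natDegree ≤ D := by
  have hj : (j : ℕ) ≤ D := Nat.lt_succ_iff.1 j.2
  unfold cp
  refine natDegree_mul_le.trans ?_
  have h1 := natDegree_pow_le_of_le (j : ℕ) (natDegree_lin w.1 v0.1)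
  have h2 := natDegree_pow_le_of_le (D - (j : ℕ)) (natDegree_lin w.2 v0.2)
  omega

theorem coeff_cp (D : ℕ) (w v0 : ℂ × ℂ) (j : Fin (D + 1)) :
    (cp D w v0 j).coeff D = v0.1 ^ (j : ℕ) * v0.2 ^ (D - (j : ℕ)) := by
  have hj : (j : ℕ) ≤ D := Nat.lt_succ_iff.1 j.2
  have h1 := natDegree_pow_le_of_le (j : ℕ) (natDegree_lin w.1 v0.1)
  have h2 := natDegree_pow_le_of_le (D - (j : ℕ)) (natDegree_lin w.2 v0.2)
  have h3 := coeff_pow_of_natDegree_le (m := (j : ℕ)) (natDegree_lin w.1 v0.1)
  have h4 := coeff_pow_of_natDegree_le (m := (D - (j : ℕ))) (natDegree_lin w.2 v0.2)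
  have h5 := coeff_mul_add_eq_of_natDegree_le h1 h2
  rw [h3, h4, coeff_lin, coeff_lin] at h5
  unfold cp
  rw [← h5]
  congr 1
  omega

theorem natDegree_chp (D : ℕ) (w v0 : ℂ × ℂ) (a : Fin (D + 1) → ℂ) :
    (chp D w v0 a).natDegree ≤ D := by
  unfold chp
  refine natDegree_sum_le_of_forall_le _ _ fun j _ => ?_
  exact (natDegree_C_mul_le _ _).trans (natDegree_cp D w v0 j)

theorem coeff_chp (D : ℕ) (w v0 : ℂ × ℂ) (a : Fin (D + 1) → ℂ) :
    (chp D w v0 a).coeff D = form D a v0 := by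
  unfold chp form
  rw [finsetSum_coeff]
  refine Finset.sum_congr rfl fun j _ => ?_
  rw [coeff_C_mul, coeff_cp]

theorem form_smul (D : ℕ) (a : Fin (D + 1) → ℂ) (t : ℂ) (x : ℂ × ℂ) :
    form D a (t • x) = t ^ D * form D a x := by
  unfold form
  rw [Finset.mul_sum]
  refine Finset.sum_congr rfl fun j _ => ?_
  have hj : (j : ℕ) ≤ D := Nat.lt_succ_iff.1 j.2
  have h1 : t ^ D = t ^ (j : ℕ) * t ^ (D - (j : ℕ)) := by
    rw [← pow_add]; congr 1; omega
  simp only [Prod.smul_fst, Prod.smul_snd, smul_eq_mul, mul_pow]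
  rw [h1]
  ring

theorem differentiable_form_joint {E : Type*} [NormedAddCommGroup E] [NormedSpace ℂ E] (D : ℕ)
    {a : E → Fin (D + 1) → ℂ} (ha : Differentiable ℂ a) :
    Differentiable ℂ (fun p : E × (ℂ × ℂ) => form D (a p.1) p.2) := by
  unfold form
  have h1 : ∀ j, Differentiable ℂ (fun p : E × (ℂ × ℂ) => a p.1 j) := fun j =>
    (differentiable_pi.1 ha j).comp differentiable_fst
  refine Differentiable.fun_sum fun j _ => ?_
  refine (h1 j).mul ?_
  fun_prop

theorem exists_form_ne_zero {D : ℕ} {a : Fin (D + 1) → ℂ} (ha : a ≠ 0) :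
    ∃ v, v ≠ 0 ∧ form D a v ≠ 0 := by
  by_contra hcon
  push Not at hcon
  apply pl24_ne_zero ha
  refine Polynomial.funext fun z => ?_
  have h1 := hcon (z, 1) (by simp)
  rw [form_chart24 a (z, 1) (by simp)] at h1
  simpa using h1

/-- the factorisation in the chart -/
theorem form_eq_chart {D : ℕ} {w v0 : ℂ × ℂ} (hw : wedge w v0 ≠ 0) {a : Fin (D + 1) → ℂ}
    (ha : form D a v0 ≠ 0) (x : ℂ × ℂ) :
    form D a x = form D a v0 / wedge w v0 ^ D *
      (((chp D w v0 a).roots.map fun r => w + r • v0).map fun v => wedge v x).prod := by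
  set p := chp D w v0 a with hp
  have hc : p.coeff D = form D a v0 := coeff_chp D w v0 a
  have hdeg : p.natDegree = D := by
    refine le_antisymm (natDegree_chp D w v0 a) ?_
    exact le_natDegree_of_ne_zero (by rw [hc]; exact ha)
  have hlead : p.leadingCoeff = form D a v0 := by rw [leadingCoeff, hdeg, hc]
  have hsp : p.Splits := IsAlgClosed.splits p
  have hcard : Multiset.card p.roots = D := by rw [← hdeg]; exact hsp.natDegree_eq_card_roots.symm
  have hev : ∀ z, p.eval z = p.leadingCoeff * (p.roots.map fun r => z - r).prod := by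
    intro z
    conv_lhs => rw [hsp.eq_prod_roots]
    rw [eval_mul, eval_C, eval_multiset_prod, Multiset.map_map]
    simp
  obtain ⟨α, hα⟩ : ∃ α, α = wedge x v0 / wedge w v0 := ⟨_, rfl⟩
  obtain ⟨β, hβ⟩ : ∃ β, β = wedge w x / wedge w v0 := ⟨_, rfl⟩
  have hx : x = α • w + β • v0 := by
    rw [hα, hβ]
    have e1 : wedge w v0 * x.1 = wedge x v0 * w.1 + wedge w x * v0.1 := by
      simp only [wedge]; ring
    have e2 : wedge w v0 * x.2 = wedge x v0 * w.2 + wedge w x * v0.2 := by
      simp only [wedge]; ring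
    refine Prod.ext ?_ ?_
    · simp only [Prod.fst_add, Prod.smul_fst, smul_eq_mul]
      field_simp
      linear_combination e1
    · simp only [Prod.snd_add, Prod.smul_snd, smul_eq_mul]
      field_simp
      linear_combination e2
  have hprod : (((p.roots.map fun r => w + r • v0)).map fun v => wedge v x).prod =
      wedge w v0 ^ D * (p.roots.map fun r => β - α * r).prod := by
    rw [Multiset.map_map]
    have : (p.roots.map ((fun v => wedge v x) ∘ fun r => w + r • v0)) =
        p.roots.map fun r => wedge w v0 * (β - α * r) := by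
      refine Multiset.map_congr rfl fun r _ => ?_
      show wedge (w + r • v0) x = _
      rw [hx]
      simp only [wedge, Prod.fst_add, Prod.snd_add, Prod.smul_fst, Prod.smul_snd, smul_eq_mul]
      ring
    rw [this, Multiset.prod_map_mul]
    simp [hcard]
  rw [hprod]
  have hwD : wedge w v0 ^ D ≠ 0 := pow_ne_zero _ hw
  rw [← mul_assoc, div_mul_cancel₀ _ hwD]
  by_cases h0 : α = 0
  · rw [h0] at hx
    rw [hx]
    have : (p.roots.map fun r => β - α * r) = Multiset.replicate D β := by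
      rw [← hcard, ← Multiset.map_const']
      refine Multiset.map_congr rfl fun r _ => by rw [h0]; ring
    rw [this, Multiset.prod_replicate, zero_smul, zero_add, form_smul]
    ring
  · have hx' : x = α • (w + (β / α) • v0) := by
      rw [smul_add, smul_smul, mul_div_cancel₀ _ h0]
      exact hx
    have h1 : form D a x = α ^ D * p.eval (β / α) := by
      rw [hp, eval_chp, ← form_smul, ← hx']
    rw [h1, hev, hlead]
    have : (p.roots.map fun r => β - α * r).prod =
        α ^ D * (p.roots.map fun r => β / α - r).prod := by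
      have : (p.roots.map fun r => β - α * r) = p.roots.map fun r => α * (β / α - r) := by
        refine Multiset.map_congr rfl fun r _ => ?_
        field_simp
      rw [this, Multiset.prod_map_mul]
      simp [hcard]
    rw [this]
    ring

end B15

/-- **Theorem B.** -/
theorem theoremB {E : Type*} [NormedAddCommGroup E] [NormedSpace ℂ E] [ProperSpace E] (D : ℕ)
    (a : E → Fin (D + 1) → ℂ) (ha : Differentiable ℂ a) (e0 : E) (hae : a e0 ≠ 0)
    (S : Set (E × (ℂ × ℂ))) (H : E × (ℂ × ℂ) → ℂ)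
    (hSs : ∀ (e : E) (v : ℂ × ℂ) (t : ℂ), t ≠ 0 → ((e, t • v) ∈ S ↔ (e, v) ∈ S))
    (hHs : ∀ (e : E) (v : ℂ × ℂ) (t : ℂ), t ≠ 0 → H (e, t • v) = H (e, v))
    (hS : ∀ v : ℂ × ℂ, v ≠ 0 → form D (a e0) v = 0 →
      (∀ᶠ q : E × (ℂ × ℂ) in 𝓝 (e0, v), form D (a q.1) q.2 = 0 → q ∈ S) ∨
      (∀ᶠ q : E × (ℂ × ℂ) in 𝓝 (e0, v), form D (a q.1) q.2 = 0 → q ∉ S))
    (hH : ∀ v : ℂ × ℂ, v ≠ 0 → form D (a e0) v = 0 → (e0, v) ∈ S →
      ∀ᶠ q : E × (ℂ × ℂ) in 𝓝 (e0, v), DifferentiableAt ℂ H q) :
    ∀ᶠ e in 𝓝 e0, DifferentiableAt ℂ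
      (fun e => symSum24 D (a e) {v | (e, v) ∈ S} (fun v => H (e, v))) e := by
  classical
  obtain ⟨v0, hv0, hfv0⟩ := B15.exists_form_ne_zero hae
  obtain ⟨w, hw'⟩ := exists_wedge_ne_zero hv0
  have hw : wedge w v0 ≠ 0 := by rw [wedge_swap]; exact neg_ne_zero.2 hw'
  have hfd := B15.differentiable_form_joint D ha
  -- the chart
  have hchart : ∀ e : E, ∀ z : ℂ, w + z • v0 ≠ 0 := by
    intro _ z h
    apply hw
    have : wedge (w + z • v0) v0 = wedge w v0 := by
      simp only [wedge, Prod.fst_add, Prod.snd_add, Prod.smul_fst, Prod.smul_snd, smul_eq_mul]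
      ring
    rw [← this, h, wedge_zero_left]
  have hJd : Differentiable ℂ (fun p : E × ℂ => ((p.1, w + p.2 • v0) : E × (ℂ × ℂ))) := by
    fun_prop
  have hJc : Continuous (fun p : E × ℂ => ((p.1, w + p.2 • v0) : E × (ℂ × ℂ))) := hJd.continuous
  -- nonvanishing at `v0`
  have hne0 : ∀ᶠ e in 𝓝 e0, form D (a e) v0 ≠ 0 := by
    have : Continuous (fun e : E => form D (a e) v0) :=
      hfd.continuous.comp (by fun_prop : Continuous fun e : E => ((e, v0) : E × (ℂ × ℂ)))
    exact this.continuousAt.eventually_ne hfv0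
  have hQe : ∀ᶠ e in 𝓝 e0, B15.chp D w v0 (a e) ≠ 0 := by
    filter_upwards [hne0] with e he h0
    apply he
    rw [← B15.coeff_chp D w v0, h0, coeff_zero]
  have hq : Differentiable ℂ (fun x : E × ℂ => (B15.chp D w v0 (a x.1)).eval x.2) := by
    have : (fun x : E × ℂ => (B15.chp D w v0 (a x.1)).eval x.2) =
        (fun p : E × (ℂ × ℂ) => form D (a p.1) p.2) ∘ fun p : E × ℂ => (p.1, w + p.2 • v0) := by
      funext x
      exact B15.eval_chp D w v0 (a x.1) x.2
    rw [this]
    exact hfd.comp hJd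
  have hq' : Differentiable ℂ
      (fun x : E × ℂ => (B15.chp D w v0 (a x.1)).derivative.eval x.2) := by
    have : (fun x : E × ℂ => (B15.chp D w v0 (a x.1)).derivative.eval x.2) =
        fun x : E × ℂ => ∑ j : Fin (D + 1), a x.1 j * (B15.cp D w v0 j).derivative.eval x.2 := by
      funext x
      unfold B15.chp
      rw [derivative_sum, eval_finsetSum]
      refine Finset.sum_congr rfl fun j _ => ?_
      rw [derivative_C_mul, eval_mul, eval_C]
    rw [this]
    refine Differentiable.fun_sum fun j _ => ?_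
    have h1 : Differentiable ℂ (fun p : E × ℂ => a p.1 j) :=
      (differentiable_pi.1 ha j).comp differentiable_fst
    exact h1.mul ((B15.cp D w v0 j).derivative.differentiable.comp differentiable_snd)
  have hbd : ∃ R : ℝ, ∀ᶠ e in 𝓝 e0, ∀ z, (B15.chp D w v0 (a e)).eval z = 0 → ‖z‖ ≤ R := by
    have hc : Continuous (fun p : E × ℂ => form D (a p.1) (v0 + p.2 • w)) :=
      hfd.continuous.comp (by fun_prop : Continuous fun p : E × ℂ =>
        ((p.1, v0 + p.2 • w) : E × (ℂ × ℂ)))
    have hev : ∀ᶠ p : E × ℂ in 𝓝 (e0, 0), form D (a p.1) (v0 + p.2 • w) ≠ 0 := by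
      refine hc.continuousAt.eventually_ne ?_
      simpa using hfv0
    obtain ⟨r, hr, hball⟩ := Metric.eventually_nhds_iff_ball.1 hev
    refine ⟨r⁻¹, ?_⟩
    filter_upwards [ball_mem_nhds e0 hr] with e he z hz
    by_contra hlt
    push Not at hlt
    have hz0 : z ≠ 0 := by
      rintro rfl
      rw [norm_zero] at hlt
      exact absurd hlt (not_lt.2 (inv_nonneg.2 hr.le))
    have hzn : 0 < ‖z‖ := norm_pos_iff.2 hz0
    have hmem : ((e, z⁻¹) : E × ℂ) ∈ ball ((e0, 0) : E × ℂ) r := by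
      rw [mem_ball, Prod.dist_eq, max_lt_iff]
      refine ⟨he, ?_⟩
      show dist z⁻¹ 0 < r
      rw [dist_zero_right, norm_inv]
      exact inv_lt_of_inv_lt₀ hr hlt
    apply hball _ hmem
    show form D (a e) (v0 + z⁻¹ • w) = 0
    have h1 : v0 + z⁻¹ • w = z⁻¹ • (w + z • v0) := by
      rw [smul_add, smul_smul, inv_mul_cancel₀ hz0, one_smul, add_comm]
    rw [h1, B15.form_smul, ← B15.eval_chp, hz, mul_zero]
  have key := Hyp20.Sym.eventually_differentiableAt_sum_roots e0
    (fun e => B15.chp D w v0 (a e)) hQe hq hq' hbd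
    ((fun p : E × ℂ => ((p.1, w + p.2 • v0) : E × (ℂ × ℂ))) ⁻¹' S)
    (fun p => H (p.1, w + p.2 • v0)) ?_ ?_
  · -- comparison of the two sums
    have hcomp : ∀ᶠ e in 𝓝 e0, symSum24 D (a e) {v | (e, v) ∈ S} (fun v => H (e, v)) =
        ((B15.chp D w v0 (a e)).roots.map fun c => if ((e, c) : E × ℂ) ∈
          ((fun p : E × ℂ => ((p.1, w + p.2 • v0) : E × (ℂ × ℂ))) ⁻¹' S) then
            H (e, w + c • v0) else 0).sum := by
      filter_upwards [hne0] with e he
      have hae' : a e ≠ 0 := by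
        intro h0
        apply he
        rw [h0]
        simp [form]
      rw [symSum24_eq hae' {v | (e, v) ∈ S} (fun v => H (e, v)) (fun v t ht => hSs e v t ht)
        (fun v t ht => hHs e v t ht) ((B15.chp D w v0 (a e)).roots.map fun r => w + r • v0) ?_
        (form D (a e) v0 / wedge w v0 ^ D) (div_ne_zero he (pow_ne_zero _ hw))
        (B15.form_eq_chart hw he)]
      · rw [Multiset.map_map]
        rfl
      · intro v hv
        obtain ⟨r, _, rfl⟩ := Multiset.mem_map.1 hv
        exact hchart e r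
    filter_upwards [key, hcomp.eventually_nhds] with e he hce
    exact he.congr_of_eventuallyEq hce
  · intro c hc
    rw [B15.eval_chp] at hc
    have htend : Tendsto (fun p : E × ℂ => ((p.1, w + p.2 • v0) : E × (ℂ × ℂ))) (𝓝 (e0, c))
        (𝓝 (e0, w + c • v0)) := hJc.tendsto (e0, c)
    rcases hS (w + c • v0) (hchart e0 c) hc with h | h
    · left
      filter_upwards [htend.eventually h] with q hq0 hq1
      rw [B15.eval_chp] at hq1
      exact hq0 hq1
    · right
      filter_upwards [htend.eventually h] with q hq0 hq1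
      rw [B15.eval_chp] at hq1
      exact hq0 hq1
  · intro c hc hmem
    rw [B15.eval_chp] at hc
    have htend : Tendsto (fun p : E × ℂ => ((p.1, w + p.2 • v0) : E × (ℂ × ℂ))) (𝓝 (e0, c))
        (𝓝 (e0, w + c • v0)) := hJc.tendsto (e0, c)
    filter_upwards [htend.eventually (hH (w + c • v0) (hchart e0 c) hc hmem)] with q hq0
    have : DifferentiableAt ℂ (H ∘ fun p : E × ℂ => ((p.1, w + p.2 • v0) : E × (ℂ × ℂ))) q :=
      DifferentiableAt.comp q hq0 (hJd q)
    exact this

end HypRat
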