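import Pool.Agent.Lib.Hyp.Rat.Form24

/-!
The trace form (helper11): for the homogeneous map `F` of `ℂ²` the trace of the derivative of the
`N`-th iterate is a binary form which does not vanish at the attracting fixed points of the
`N`-th iterate.
-/

namespace HypRat

open Filter Topology

/-- The derivative of the `N`-th iterate of `F d b` at `x` in the direction `v`. -/
noncomputable def dN (d : ℕ) (b : Par d) (N : ℕ) (x v : ℂ × ℂ) : ℂ × ℂ :=
  fderiv ℂ ((F d b)^[N]) x v

/-- The trace of the derivative of the `N`-th iterate. -/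
noncomputable def trN (d : ℕ) (N : ℕ) (b : Par d) (x : ℂ × ℂ) : ℂ :=
  (dN d b N x (1, 0)).1 + (dN d b N x (0, 1)).2

theorem dN_zero (d : ℕ) (b : Par d) (x v : ℂ × ℂ) : dN d b 0 x v = v := by
  unfold dN
  rw [Function.iterate_zero, fderiv_id]
  rfl

theorem dN_succ (d : ℕ) (b : Par d) (N : ℕ) (x v : ℂ × ℂ) :
    dN d b (N + 1) x v = fderiv ℂ (F d b) ((F d b)^[N] x) (dN d b N x v) := by
  unfold dN
  rw [Function.iterate_succ', fderiv_comp _ (differentiable_F d b).differentiableAt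
    (differentiable_iter d b N).differentiableAt]
  rfl

theorem dN_lin (d : ℕ) (b : Par d) (N : ℕ) (x v : ℂ × ℂ) :
    dN d b N x v = v.1 • dN d b N x (1, 0) + v.2 • dN d b N x (0, 1) := by
  unfold dN
  rw [← map_smul, ← map_smul, ← map_add]
  congr 1
  ext <;> simp

/-- Euler's identity. -/
theorem euler_F (d : ℕ) (b : Par d) (x : ℂ × ℂ) :
    fderiv ℂ (F d b) x x = (d : ℂ) • F d b x := by
  rw [fderiv_F]
  have key : ∀ (c : Fin (d + 1) → ℂ), ∑ j : Fin (d + 1), c j *
      (((j : ℕ) : ℂ) * x.1 ^ ((j : ℕ) - 1) * x.1 * x.2 ^ (d - (j : ℕ)) +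
        x.1 ^ (j : ℕ) * (((d - (j : ℕ) : ℕ) : ℂ) * x.2 ^ (d - (j : ℕ) - 1) * x.2)) =
      (d : ℂ) * ∑ j : Fin (d + 1), c j * (x.1 ^ (j : ℕ) * x.2 ^ (d - (j : ℕ))) := by
    intro c
    rw [Finset.mul_sum]
    refine Finset.sum_congr rfl fun j _ => ?_
    have hj : (j : ℕ) ≤ d := Nat.lt_succ_iff.mp j.2
    have e1 : ((j : ℕ) : ℂ) * x.1 ^ ((j : ℕ) - 1) * x.1 = ((j : ℕ) : ℂ) * x.1 ^ (j : ℕ) := by
      rcases Nat.eq_zero_or_pos (j : ℕ) with h | h
      · rw [h]; simp
      · rw [mul_assoc, ← pow_succ]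
        congr 2
        omega
    have e2 : ((d - (j : ℕ) : ℕ) : ℂ) * x.2 ^ (d - (j : ℕ) - 1) * x.2 =
        ((d : ℂ) - ((j : ℕ) : ℂ)) * x.2 ^ (d - (j : ℕ)) := by
      rw [← Nat.cast_sub hj]
      rcases Nat.eq_zero_or_pos (d - (j : ℕ)) with h | h
      · rw [h]; simp
      · rw [mul_assoc, ← pow_succ]
        congr 2
        omega
    rw [e1, e2]
    ring
  rw [key, key]
  rfl

theorem dN_self (d : ℕ) (b : Par d) (N : ℕ) (x : ℂ × ℂ) :
    dN d b N x x = ((d : ℂ) ^ N) • (F d b)^[N] x := by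
  induction N with
  | zero => rw [dN_zero]; simp
  | succ N ih =>
    rw [dN_succ, ih, map_smul, euler_F, smul_smul, Function.iterate_succ_apply', pow_succ]

theorem isForm24_congr11 {D : ℕ} {f g : ℂ × ℂ → ℂ} (hf : IsForm24 D f) (h : ∀ x, g x = f x) :
    IsForm24 D g := by
  obtain ⟨a, ha⟩ := hf
  exact ⟨a, fun x => (h x).trans (ha x)⟩

/-- The components of `dN` are binary forms of degree `d ^ N - 1`. -/
theorem isForm24_dN {d : ℕ} (hd : 1 ≤ d) (b : Par d) (N : ℕ) (v : ℂ × ℂ) :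
    IsForm24 (d ^ N - 1) (fun x => (dN d b N x v).1) ∧
      IsForm24 (d ^ N - 1) (fun x => (dN d b N x v).2) := by
  induction N with
  | zero =>
    simp only [dN_zero, pow_zero, Nat.sub_self]
    constructor
    · simpa using IsForm24.const_mul v.1 IsForm24.one
    · simpa using IsForm24.const_mul v.2 IsForm24.one
  | succ N ih =>
    obtain ⟨i1, i2⟩ := isForm24_iter d b N
    have hE : 1 ≤ d ^ N := Nat.one_le_pow _ _ hd
    have key : ∀ (c : Fin (d + 1) → ℂ), IsForm24 (d ^ (N + 1) - 1) (fun x => ∑ j : Fin (d + 1),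
        c j * (((j : ℕ) : ℂ) * ((F d b)^[N] x).1 ^ ((j : ℕ) - 1) * (dN d b N x v).1 *
          ((F d b)^[N] x).2 ^ (d - (j : ℕ)) +
        ((F d b)^[N] x).1 ^ (j : ℕ) * (((d - (j : ℕ) : ℕ) : ℂ) *
          ((F d b)^[N] x).2 ^ (d - (j : ℕ) - 1) * (dN d b N x v).2))) := by
      intro c
      refine IsForm24.sum _ fun j _ => IsForm24.const_mul _ (IsForm24.add ?_ ?_)
      · have hj : (j : ℕ) ≤ d := Nat.lt_succ_iff.mp j.2
        rcases Nat.eq_zero_or_pos (j : ℕ) with h | h
        · have e : (fun x : ℂ × ℂ => ((j : ℕ) : ℂ) * ((F d b)^[N] x).1 ^ ((j : ℕ) - 1) *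
              (dN d b N x v).1 * ((F d b)^[N] x).2 ^ (d - (j : ℕ))) = fun _ => 0 := by
            funext x
            rw [h]
            simp
          rw [e]
          exact IsForm24.zero _
        · have h1 := (((i1.pow ((j : ℕ) - 1)).mul ih.1).mul (i2.pow (d - (j : ℕ)))).const_mul
            ((j : ℕ) : ℂ)
          have e : ((j : ℕ) - 1) * d ^ N + (d ^ N - 1) + (d - (j : ℕ)) * d ^ N =
              d ^ (N + 1) - 1 := by
            have e1 : ((j : ℕ) - 1) * d ^ N + (d ^ N - 1) + (d - (j : ℕ)) * d ^ N + 1 =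
                d ^ (N + 1) := by
              have e2 : ((j : ℕ) - 1) * d ^ N + (d ^ N - 1) + (d - (j : ℕ)) * d ^ N + 1 =
                  ((j : ℕ) - 1) * d ^ N + (d ^ N - 1 + 1) + (d - (j : ℕ)) * d ^ N := by ring
              rw [e2, Nat.sub_add_cancel hE, pow_succ']
              have e3 : d = ((j : ℕ) - 1) + 1 + (d - (j : ℕ)) := by omega
              calc ((j : ℕ) - 1) * d ^ N + d ^ N + (d - (j : ℕ)) * d ^ N =
                  (((j : ℕ) - 1) + 1 + (d - (j : ℕ))) * d ^ N := by ring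
                _ = d * d ^ N := by rw [← e3]
            omega
          rw [e] at h1
          refine isForm24_congr11 h1 fun x => ?_
          ring
      · have hj : (j : ℕ) ≤ d := Nat.lt_succ_iff.mp j.2
        rcases Nat.eq_zero_or_pos (d - (j : ℕ)) with h | h
        · have e : (fun x : ℂ × ℂ => ((F d b)^[N] x).1 ^ (j : ℕ) * (((d - (j : ℕ) : ℕ) : ℂ) *
              ((F d b)^[N] x).2 ^ (d - (j : ℕ) - 1) * (dN d b N x v).2)) = fun _ => 0 := by
            funext x
            rw [h]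
            simp
          rw [e]
          exact IsForm24.zero _
        · have h1 := (((i1.pow (j : ℕ)).mul (i2.pow (d - (j : ℕ) - 1))).mul ih.2).const_mul
            ((d - (j : ℕ) : ℕ) : ℂ)
          have e : (j : ℕ) * d ^ N + (d - (j : ℕ) - 1) * d ^ N + (d ^ N - 1) =
              d ^ (N + 1) - 1 := by
            have e1 : (j : ℕ) * d ^ N + (d - (j : ℕ) - 1) * d ^ N + (d ^ N - 1) + 1 =
                d ^ (N + 1) := by
              have e2 : (j : ℕ) * d ^ N + (d - (j : ℕ) - 1) * d ^ N + (d ^ N - 1) + 1 =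
                  (j : ℕ) * d ^ N + (d - (j : ℕ) - 1) * d ^ N + (d ^ N - 1 + 1) := by ring
              rw [e2, Nat.sub_add_cancel hE, pow_succ']
              have e3 : d = (j : ℕ) + (d - (j : ℕ) - 1) + 1 := by omega
              calc (j : ℕ) * d ^ N + (d - (j : ℕ) - 1) * d ^ N + d ^ N =
                  ((j : ℕ) + (d - (j : ℕ) - 1) + 1) * d ^ N := by ring
                _ = d * d ^ N := by rw [← e3]
            omega
          rw [e] at h1
          refine isForm24_congr11 h1 fun x => ?_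
          ring
    constructor
    · refine isForm24_congr11 (key (fun j => b (Fin.castAdd (d + 1) j))) fun x => ?_
      rw [dN_succ, fderiv_F]
    · refine isForm24_congr11 (key (fun j => b (Fin.natAdd (d + 1) j))) fun x => ?_
      rw [dN_succ, fderiv_F]

/-- The trace is a binary form of degree `d ^ N - 1`. -/
theorem isForm24_trN {d : ℕ} (hd : 1 ≤ d) (N : ℕ) (b : Par d) :
    IsForm24 (d ^ N - 1) (trN d N b) :=
  (isForm24_dN hd b N (1, 0)).1.add (isForm24_dN hd b N (0, 1)).2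

theorem continuous_dN_joint (d N : ℕ) (v : ℂ × ℂ) :
    Continuous (fun p : Par d × (ℂ × ℂ) => dN d p.1 N p.2 v) := by
  induction N with
  | zero => simp only [dN_zero]; exact continuous_const
  | succ N ih =>
    have hy := continuous_iter_joint d N
    simp only [dN_succ, fderiv_F]
    have h1 : Continuous fun p : Par d × (ℂ × ℂ) => ((F d p.1)^[N] p.2).1 := continuous_fst.comp hy
    have h2 : Continuous fun p : Par d × (ℂ × ℂ) => ((F d p.1)^[N] p.2).2 := continuous_snd.comp hy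
    have h3 : Continuous fun p : Par d × (ℂ × ℂ) => (dN d p.1 N p.2 v).1 := continuous_fst.comp ih
    have h4 : Continuous fun p : Par d × (ℂ × ℂ) => (dN d p.1 N p.2 v).2 := continuous_snd.comp ih
    fun_prop

theorem continuous_trN_joint (d N : ℕ) :
    Continuous (fun p : Par d × (ℂ × ℂ) => trN d N p.1 p.2) :=
  (continuous_fst.comp (continuous_dN_joint d N (1, 0))).add
    (continuous_snd.comp (continuous_dN_joint d N (0, 1)))

/-- The value of the trace at a fixed point of the `N`-th iterate. -/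
theorem trN_fixed {d : ℕ} (hd : 1 ≤ d) {b : Par d} {N : ℕ} {γ : ℂ × ℂ} (hγ : γ ≠ 0) {l : ℂ}
    (hl : l ≠ 0) (h : (F d b)^[N] γ = l • γ) :
    trN d N b γ = (d : ℂ) ^ N * l + jacN d b N γ / l := by
  have h0 := dN_self d b N γ
  rw [dN_lin, h] at h0
  have h1 := wedge_fderiv_iter hd b N γ (1, 0)
  have h2 := wedge_fderiv_iter hd b N γ (0, 1)
  rw [h] at h1 h2
  change wedge (l • γ) (dN d b N γ (1, 0)) = _ at h1
  change wedge (l • γ) (dN d b N γ (0, 1)) = _ at h2
  unfold trN
  generalize dN d b N γ (1, 0) = w1 at *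
  generalize dN d b N γ (0, 1) = w2 at *
  generalize jacN d b N γ = J at *
  have e1 := congrArg Prod.fst h0
  have e2 := congrArg Prod.snd h0
  simp only [wedge, Prod.smul_fst, Prod.smul_snd, Prod.fst_add, Prod.snd_add, smul_eq_mul] at *
  have g1 : γ.1 * (w1.1 + w2.2 - ((d : ℂ) ^ N * l + J / l)) = 0 := by
    field_simp
    linear_combination l * e1 + h2
  have g2 : γ.2 * (w1.1 + w2.2 - ((d : ℂ) ^ N * l + J / l)) = 0 := by
    field_simp
    linear_combination l * e2 - h1
  rcases eq_or_ne γ.1 0 with h3 | h3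
  · have h4 : γ.2 ≠ 0 := fun h5 => hγ (Prod.ext h3 h5)
    exact sub_eq_zero.mp ((mul_eq_zero.mp g2).resolve_left h4)
  · exact sub_eq_zero.mp ((mul_eq_zero.mp g1).resolve_left h3)

/-- The trace does not vanish at the attracting fixed points of the `N`-th iterate. -/
theorem trN_ne_zero {d : ℕ} (hd : 1 ≤ d) {b : Par d} (hb : Nondeg d b) {N : ℕ} {γ : ℂ × ℂ}
    (hγ : γ ≠ 0) (h : wedge γ ((F d b)^[N] γ) = 0) (hs : sig d b N γ < 1) :
    trN d N b γ ≠ 0 := by
  obtain ⟨l, hl⟩ := exists_smul_of_wedge_eq_zero hγ h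
  have hl0 : l ≠ 0 := by
    rintro rfl
    rw [zero_smul] at hl
    exact iter_ne_zero hb hγ N hl
  intro h0
  rw [trN_fixed hd hγ hl0 hl] at h0
  have h1 : jacN d b N γ = -((d : ℂ) ^ N * l ^ 2) := by
    field_simp at h0
    linear_combination h0
  unfold sig at hs
  rw [h1, hl, norm_neg, norm_mul, norm_pow, norm_pow, norm_smul, Complex.norm_natCast,
    mul_pow] at hs
  have h2 : 0 < ‖l‖ := norm_pos_iff.mpr hl0
  have h3 : 0 < ‖γ‖ := norm_pos_iff.mpr hγ
  rw [div_lt_one (by positivity)] at hs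
  have h4 : (1 : ℝ) ≤ (d : ℝ) ^ N := one_le_pow₀ (by exact_mod_cast hd)
  have h5 : 0 < ‖l‖ ^ 2 * ‖γ‖ ^ 2 := by positivity
  nlinarith

end HypRat
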