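import Pool.Agent.Lib.Hyp.Rat.TrFun11
import Pool.Agent.Lib.Hyp.Rat.Hull1_95

/-!
Degrees of the functions `numR`, `denR`, `numL`, `denL` in the critical point and in the
coefficients of the map (helper11).
-/

namespace HypRat

attribute [local irreducible] F

/-- The degree of the `k`-th iterate in the coefficients. -/
def gs11 (d k : ℕ) : ℕ := ∑ i ∈ Finset.range k, d ^ i

theorem gs11_succ (d k : ℕ) : gs11 d (k + 1) = d * gs11 d k + 1 := by
  unfold gs11
  rw [Finset.sum_range_succ', Finset.mul_sum]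
  simp only [pow_succ', pow_zero]

theorem gs11_geom {d : ℕ} (hd : 1 ≤ d) (k : ℕ) : d ^ k = (d - 1) * gs11 d k + 1 := by
  obtain ⟨e, rfl⟩ : ∃ e, d = e + 1 := ⟨d - 1, by omega⟩
  simp only [Nat.add_sub_cancel]
  induction k with
  | zero => simp [gs11]
  | succ k ih => rw [gs11_succ, pow_succ', ih]; ring

namespace GradedC

variable {E : Type*} {Q : ℕ → (E → ℂ) → Prop} (h : GradedC Q)

include h

theorem iter11 {d n m : ℕ} {b : E → Par d} {u : E → ℂ × ℂ} (hb : ∀ j, Q n (fun e => b e j))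
    (hu1 : Q m (fun e => (u e).1)) (hu2 : Q m (fun e => (u e).2)) (k : ℕ) :
    Q (d ^ k * m + n * gs11 d k) (fun e => ((HypRat.F d (b e))^[k] (u e)).1) ∧
      Q (d ^ k * m + n * gs11 d k) (fun e => ((HypRat.F d (b e))^[k] (u e)).2) := by
  induction k with
  | zero => simpa [gs11] using And.intro hu1 hu2
  | succ k ih =>
    simp only [Function.iterate_succ_apply']
    have h1 := h.F hb ih.1 ih.2
    have e : n + d * (d ^ k * m + n * gs11 d k) = d ^ (k + 1) * m + n * gs11 d (k + 1) := by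
      rw [gs11_succ, pow_succ']; ring
    rw [e] at h1
    exact h1

theorem dN11 {d n m : ℕ} (hd : 1 ≤ d) {b : E → Par d} {u : E → ℂ × ℂ}
    (hb : ∀ j, Q n (fun e => b e j))
    (hu1 : Q m (fun e => (u e).1)) (hu2 : Q m (fun e => (u e).2)) (N : ℕ) (v : ℂ × ℂ) :
    Q ((d ^ N - 1) * m + n * gs11 d N) (fun e => (dN d (b e) N (u e) v).1) ∧
      Q ((d ^ N - 1) * m + n * gs11 d N) (fun e => (dN d (b e) N (u e) v).2) := by
  induction N with
  | zero =>
    simp only [dN_zero]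
    exact ⟨congr_deg (h.const v.1) (by simp [gs11]), congr_deg (h.const v.2) (by simp [gs11])⟩
  | succ N ih =>
    obtain ⟨i1, i2⟩ := h.iter11 hb hu1 hu2 N
    obtain ⟨E', hE⟩ : ∃ E', d ^ N = E' + 1 :=
      ⟨d ^ N - 1, (Nat.sub_add_cancel (Nat.one_le_pow _ _ hd)).symm⟩
    have key : ∀ (c : Fin (d + 1) → E → ℂ), (∀ j, Q n (c j)) →
        Q ((d ^ (N + 1) - 1) * m + n * gs11 d (N + 1)) (fun e => ∑ j : Fin (d + 1),
        c j e * (((j : ℕ) : ℂ) * ((HypRat.F d (b e))^[N] (u e)).1 ^ ((j : ℕ) - 1) *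
          (dN d (b e) N (u e) v).1 * ((HypRat.F d (b e))^[N] (u e)).2 ^ (d - (j : ℕ)) +
        ((HypRat.F d (b e))^[N] (u e)).1 ^ (j : ℕ) * (((d - (j : ℕ) : ℕ) : ℂ) *
          ((HypRat.F d (b e))^[N] (u e)).2 ^ (d - (j : ℕ) - 1) *
            (dN d (b e) N (u e) v).2))) := by
      intro c hc
      refine h.sum _ fun j _ => ?_
      have hj : (j : ℕ) ≤ d := Nat.lt_succ_iff.mp j.2
      have e0 : d * d ^ N - 1 = (d - 1) * (E' + 1) + E' := by
        rw [hE]
        obtain ⟨d', rfl⟩ : ∃ d', d = d' + 1 := ⟨d - 1, by omega⟩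
        have : (d' + 1) * (E' + 1) = d' * (E' + 1) + E' + 1 := by ring
        rw [this]
        simp
      have hdeg : ∀ s t : ℕ, s + t = d - 1 →
          n + (s * (d ^ N * m + n * gs11 d N) + t * (d ^ N * m + n * gs11 d N) +
            ((d ^ N - 1) * m + n * gs11 d N)) =
          (d ^ (N + 1) - 1) * m + n * gs11 d (N + 1) := by
        intro s t hst
        rw [gs11_succ, pow_succ', e0, hE, Nat.add_sub_cancel, ← hst]
        obtain ⟨d', hd'⟩ : ∃ d', d = d' + 1 := ⟨d - 1, by omega⟩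
        have : d = s + t + 1 := by omega
        rw [this]
        ring
      refine congr_deg (h.mul (hc j) (m := n)
        (k := (d - 1) * (d ^ N * m + n * gs11 d N) + ((d ^ N - 1) * m + n * gs11 d N))
        (h.add ?_ ?_)) ?_
      · rcases Nat.eq_zero_or_pos (j : ℕ) with h0 | h0
        · have e : (fun e : E => ((j : ℕ) : ℂ) * ((HypRat.F d (b e))^[N] (u e)).1 ^ ((j : ℕ) - 1) *
              (dN d (b e) N (u e) v).1 * ((HypRat.F d (b e))^[N] (u e)).2 ^ (d - (j : ℕ))) =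
              fun _ => 0 := by
            funext e
            rw [h0]
            simp
          rw [e]
          exact h.zero _
        · have h1 := h.smul ((j : ℕ) : ℂ) (h.mul (h.mul (h.pow i1 ((j : ℕ) - 1)) ih.1)
            (h.pow i2 (d - (j : ℕ))))
          refine congr_deg (f := fun e : E => ((j : ℕ) : ℂ) *
            ((HypRat.F d (b e))^[N] (u e)).1 ^ ((j : ℕ) - 1) *
              (dN d (b e) N (u e) v).1 * ((HypRat.F d (b e))^[N] (u e)).2 ^ (d - (j : ℕ)))
            (m := ((j : ℕ) - 1) * (d ^ N * m + n * gs11 d N) +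
              ((d ^ N - 1) * m + n * gs11 d N) + (d - (j : ℕ)) * (d ^ N * m + n * gs11 d N)) ?_ ?_
          · have e : (fun e : E => ((j : ℕ) : ℂ) *
                ((HypRat.F d (b e))^[N] (u e)).1 ^ ((j : ℕ) - 1) *
                (dN d (b e) N (u e) v).1 * ((HypRat.F d (b e))^[N] (u e)).2 ^ (d - (j : ℕ))) =
                fun e : E => ((j : ℕ) : ℂ) * (((HypRat.F d (b e))^[N] (u e)).1 ^ ((j : ℕ) - 1) *
                (dN d (b e) N (u e) v).1 * ((HypRat.F d (b e))^[N] (u e)).2 ^ (d - (j : ℕ))) := by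
              funext e
              ring
            rw [e]
            exact h1
          · have : (d - 1) = ((j : ℕ) - 1) + (d - (j : ℕ)) := by omega
            rw [this]
            ring
      · rcases Nat.eq_zero_or_pos (d - (j : ℕ)) with h0 | h0
        · have e : (fun e : E => ((HypRat.F d (b e))^[N] (u e)).1 ^ (j : ℕ) *
              (((d - (j : ℕ) : ℕ) : ℂ) * ((HypRat.F d (b e))^[N] (u e)).2 ^ (d - (j : ℕ) - 1) *
                (dN d (b e) N (u e) v).2)) = fun _ => 0 := by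
            funext e
            rw [h0]
            simp
          rw [e]
          exact h.zero _
        · have h1 := h.smul ((d - (j : ℕ) : ℕ) : ℂ) (h.mul (h.mul (h.pow i1 (j : ℕ))
            (h.pow i2 (d - (j : ℕ) - 1))) ih.2)
          refine congr_deg (f := fun e : E => ((HypRat.F d (b e))^[N] (u e)).1 ^ (j : ℕ) *
              (((d - (j : ℕ) : ℕ) : ℂ) * ((HypRat.F d (b e))^[N] (u e)).2 ^ (d - (j : ℕ) - 1) *
                (dN d (b e) N (u e) v).2))
            (m := (j : ℕ) * (d ^ N * m + n * gs11 d N) +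
              (d - (j : ℕ) - 1) * (d ^ N * m + n * gs11 d N) +
              ((d ^ N - 1) * m + n * gs11 d N)) ?_ ?_
          · have e : (fun e : E => ((HypRat.F d (b e))^[N] (u e)).1 ^ (j : ℕ) *
              (((d - (j : ℕ) : ℕ) : ℂ) * ((HypRat.F d (b e))^[N] (u e)).2 ^ (d - (j : ℕ) - 1) *
                (dN d (b e) N (u e) v).2)) =
                fun e : E => ((d - (j : ℕ) : ℕ) : ℂ) *
                (((HypRat.F d (b e))^[N] (u e)).1 ^ (j : ℕ) *
                ((HypRat.F d (b e))^[N] (u e)).2 ^ (d - (j : ℕ) - 1) *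
                  (dN d (b e) N (u e) v).2) := by
              funext e
              ring
            rw [e]
            exact h1
          · have : (d - 1) = (j : ℕ) + (d - (j : ℕ) - 1) := by omega
            rw [this]
            ring
      · have := hdeg (d - 1) 0 (by omega)
        rw [Nat.zero_mul, Nat.add_zero] at this
        exact this
    constructor
    · have h1 := key (fun j e => b e (Fin.castAdd (d + 1) j)) fun j => hb _
      simpa only [dN_succ, fderiv_F] using h1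
    · have h1 := key (fun j e => b e (Fin.natAdd (d + 1) j)) fun j => hb _
      simpa only [dN_succ, fderiv_F] using h1

theorem trN11 {d n m : ℕ} (hd : 1 ≤ d) {b : E → Par d} {u : E → ℂ × ℂ}
    (hb : ∀ j, Q n (fun e => b e j))
    (hu1 : Q m (fun e => (u e).1)) (hu2 : Q m (fun e => (u e).2)) (N : ℕ) :
    Q ((d ^ N - 1) * m + n * gs11 d N) (fun e => trN d N (b e) (u e)) :=
  h.add (h.dN11 hd hb hu1 hu2 N (1, 0)).1 (h.dN11 hd hb hu1 hu2 N (0, 1)).2

theorem jacN11 {d n m : ℕ} (hd : 1 ≤ d) {b : E → Par d} {u : E → ℂ × ℂ}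
    (hb : ∀ j, Q n (fun e => b e j))
    (hu1 : Q m (fun e => (u e).1)) (hu2 : Q m (fun e => (u e).2)) (M : ℕ) :
    Q (2 * ((d ^ M - 1) * m) + 2 * (n * gs11 d M)) (fun e => HypRat.jacN d (b e) M (u e)) := by
  have h1 := h.jacN (b := b) (u := u) M (m := fun i => d ^ i * m + n * gs11 d i)
    (fun i => h.iter11 hb hu1 hu2 i) hb
  refine congr_deg h1 ?_
  obtain ⟨d', rfl⟩ : ∃ d', d = d' + 1 := ⟨d - 1, by omega⟩
  have e2 : 2 * (d' + 1) - 2 = 2 * d' := by omega
  rw [e2]
  have key : ∑ i ∈ Finset.range M, (n + n + 2 * d' * ((d' + 1) ^ i * m + n * gs11 (d' + 1) i)) +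
      2 * m = 2 * ((d' + 1) ^ M * m) + 2 * (n * gs11 (d' + 1) M) := by
    clear h1
    induction M with
    | zero => simp [gs11]
    | succ M ih =>
      rw [Finset.sum_range_succ, gs11_succ]
      have e3 : ∑ i ∈ Finset.range M, (n + n + 2 * d' * ((d' + 1) ^ i * m + n * gs11 (d' + 1) i)) +
          (n + n + 2 * d' * ((d' + 1) ^ M * m + n * gs11 (d' + 1) M)) + 2 * m =
          (∑ i ∈ Finset.range M, (n + n + 2 * d' * ((d' + 1) ^ i * m + n * gs11 (d' + 1) i)) +
            2 * m) + (n + n + 2 * d' * ((d' + 1) ^ M * m + n * gs11 (d' + 1) M)) := by ring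
      rw [e3, ih, pow_succ]
      ring
  obtain ⟨E', hE⟩ : ∃ E', (d' + 1) ^ M = E' + 1 :=
    ⟨(d' + 1) ^ M - 1, (Nat.sub_add_cancel (Nat.one_le_pow _ _ hd)).symm⟩
  rw [hE] at key ⊢
  rw [Nat.add_sub_cancel]
  have e4 : 2 * ((E' + 1) * m) = 2 * (E' * m) + 2 * m := by ring
  omega

/-- The degrees of all four functions. -/
theorem functions11 {d n m : ℕ} (hd : 1 ≤ d) {b : E → Par d} {c : E → ℂ × ℂ}
    (hb : ∀ j, Q n (fun e => b e j)) (hR : Q (2 * d * n) (fun e => Res d (b e)))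
    (hc1 : Q m (fun e => (c e).1)) (hc2 : Q m (fun e => (c e).2)) (N k j : ℕ) :
    (Q ((d ^ N - 1) * (d ^ (k * N) * m + n * gs11 d (k * N)) + n * gs11 d N)
      (fun e => trN d N (b e) (orb d N k (b e) (c e)))) ∧
    (Q (d * ((d ^ N - 1) * (d ^ (k * N) * m + n * gs11 d (k * N)) + n * gs11 d N +
      ((d ^ N - 1) * (d ^ N * (d ^ (k * N) * m + n * gs11 d (k * N)) + n * gs11 d N) +
        n * gs11 d N))) (fun e => numR d N k (b e) (c e))) ∧
    (Q (d * ((d ^ N - 1) * (d ^ (k * N) * m + n * gs11 d (k * N)) + n * gs11 d N +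
      ((d ^ N - 1) * (d ^ N * (d ^ (k * N) * m + n * gs11 d (k * N)) + n * gs11 d N) +
        n * gs11 d N))) (fun e => denR d N k (b e) (c e))) ∧
    (Q (2 * ((d ^ N - 1) * (d ^ (j * N) * (d ^ (k * N) * m + n * gs11 d (k * N)) +
      n * gs11 d (j * N)) + n * gs11 d N)) (fun e => numL d N k j (b e) (c e))) ∧
    (Q (2 * ((d ^ N - 1) * (d ^ (j * N) * (d ^ (k * N) * m + n * gs11 d (k * N)) +
      n * gs11 d (j * N)) + n * gs11 d N)) (fun e => denL d N k j (b e) (c e))) := by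
  obtain ⟨o1, o2⟩ := h.iter11 hb hc1 hc2 (k * N)
  set A := d ^ (k * N) * m + n * gs11 d (k * N) with hA
  have s1 : ∀ i, Q (d ^ (i * N) * A + n * gs11 d (i * N))
      (fun e => (orb d N (k + i) (b e) (c e)).1) ∧ Q (d ^ (i * N) * A + n * gs11 d (i * N))
      (fun e => (orb d N (k + i) (b e) (c e)).2) := by
    intro i
    have e : ∀ e, orb d N (k + i) (b e) (c e) =
        (HypRat.F d (b e))^[i * N] ((HypRat.F d (b e))^[k * N] (c e)) := by
      intro e
      unfold orb
      rw [← Function.iterate_add_apply]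
      congr 2
      ring
    simp only [e]
    exact h.iter11 hb o1 o2 (i * N)
  have s1' : Q (d ^ N * A + n * gs11 d N)
      (fun e => (orb d N (k + 1) (b e) (c e)).1) ∧ Q (d ^ N * A + n * gs11 d N)
      (fun e => (orb d N (k + 1) (b e) (c e)).2) := by
    have := s1 1
    rwa [Nat.one_mul] at this
  have t0 : Q ((d ^ N - 1) * A + n * gs11 d N) (fun e => trN d N (b e) (orb d N k (b e) (c e))) :=
    h.trN11 hd hb o1 o2 N
  have t1 : Q ((d ^ N - 1) * (d ^ N * A + n * gs11 d N) + n * gs11 d N)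
      (fun e => trN d N (b e) (orb d N (k + 1) (b e) (c e))) := h.trN11 hd hb s1'.1 s1'.2 N
  have tj : Q ((d ^ N - 1) * (d ^ (j * N) * A + n * gs11 d (j * N)) + n * gs11 d N)
      (fun e => trN d N (b e) (orb d N (k + j) (b e) (c e))) :=
    h.trN11 hd hb (s1 j).1 (s1 j).2 N
  have hj : Q (2 * ((d ^ (j * N) - 1) * A) + 2 * (n * gs11 d (j * N)))
      (fun e => HypRat.jacN d (b e) (j * N) (orb d N k (b e) (c e))) :=
    h.jacN11 hd hb o1 o2 (j * N)
  have hw : Q (A + (d ^ N * A + n * gs11 d N)) (fun e => HypRat.wedge (orb d N k (b e) (c e))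
      (orb d N (k + 1) (b e) (c e))) := h.wedge o1 o2 s1'.1 s1'.2
  obtain ⟨D, hD⟩ : ∃ D, d ^ N = D + 1 :=
    ⟨d ^ N - 1, (Nat.sub_add_cancel (Nat.one_le_pow _ _ hd)).symm⟩
  obtain ⟨G, hG⟩ : ∃ G, d ^ (j * N) = G + 1 :=
    ⟨d ^ (j * N) - 1, (Nat.sub_add_cancel (Nat.one_le_pow _ _ hd)).symm⟩
  refine ⟨t0, ?_, ?_, ?_, ?_⟩
  · refine congr_deg (h.mul (h.pow hR (∑ i ∈ Finset.range N, d ^ i))
      (h.pow hw ((d ^ N - 1) * d))) ?_
    change gs11 d N * (2 * d * n) + _ = _
    rw [hD, Nat.add_sub_cancel]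
    ring
  · exact congr_deg (h.pow (h.mul t0 t1) d) rfl
  · refine congr_deg (h.mul (h.pow hj (d ^ N - 1)) (h.pow t0 2)) ?_
    rw [hD, hG, Nat.add_sub_cancel, Nat.add_sub_cancel]
    ring
  · exact congr_deg (h.pow tj 2) rfl

end GradedC

theorem one_le_pow11 {d N : ℕ} (hd : 2 ≤ d) (hN : 1 ≤ N) : 1 ≤ d ^ N - 1 := by
  have : 2 ≤ d ^ N := by
    calc 2 ≤ d := hd
      _ = d ^ 1 := (pow_one d).symm
      _ ≤ d ^ N := Nat.pow_le_pow_right (by omega) hN
  omega

/-- The degrees of `trN d N b (orb d N k b c)`. -/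
theorem deg_trN {d : ℕ} (hd : 2 ≤ d) {N : ℕ} (hN : 1 ≤ N) (k : ℕ) : ∃ m e : ℕ, 1 ≤ m ∧
    (∀ b, IsForm24 m (fun c => trN d N b (orb d N k b c))) ∧
    ∀ c, HP d e (fun b => trN d N b (orb d N k b c)) := by
  refine ⟨_, _, ?_, fun b => (gradedC_form.functions11 (n := 0) (m := 1) (by omega : 1 ≤ d)
    (b := fun _ => b) (c := fun c => c)
    (fun _ => gradedC_form.const _) (gradedC_form.const _) IsForm24.fst IsForm24.snd N k 0).1,
    fun c => ((gradedC_HP d).functions11 (n := 1) (m := 0) (by omega : 1 ≤ d) (b := fun b => b)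
    (c := fun _ => c) (fun i => HP.coord i) (by simpa using HP_Res d) ((gradedC_HP d).const _)
    ((gradedC_HP d).const _) N k 0).1⟩
  have h1 := one_le_pow11 hd hN
  have h2 : 1 ≤ d ^ (k * N) := Nat.one_le_pow _ _ (by omega)
  have h3 : 1 ≤ (d ^ N - 1) * (d ^ (k * N) * 1 + 0 * gs11 d (k * N)) :=
    Nat.mul_pos h1 (by omega)
  omega

/-- The degrees of `numR` and `denR`. -/
theorem deg_R {d : ℕ} (hd : 2 ≤ d) {N : ℕ} (hN : 1 ≤ N) (k : ℕ) : ∃ m e : ℕ, 1 ≤ m ∧
    (∀ b, IsForm24 m (numR d N k b)) ∧ (∀ c, HP d e (fun b => numR d N k b c)) ∧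
    (∀ b, IsForm24 m (denR d N k b)) ∧ ∀ c, HP d e (fun b => denR d N k b c) := by
  have f1 := fun b : Par d => (gradedC_form.functions11 (n := 0) (m := 1) (by omega : 1 ≤ d)
    (b := fun _ => b) (c := fun c => c)
    (fun _ => gradedC_form.const _) (gradedC_form.const _) IsForm24.fst IsForm24.snd N k 0).2
  have f2 := fun c : ℂ × ℂ => ((gradedC_HP d).functions11 (n := 1) (m := 0) (by omega : 1 ≤ d)
    (b := fun b => b) (c := fun _ => c) (fun i => HP.coord i) (by simpa using HP_Res d)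
    ((gradedC_HP d).const _) ((gradedC_HP d).const _) N k 0).2
  refine ⟨_, _, ?_, fun b => (f1 b).1, fun c => (f2 c).1, fun b => (f1 b).2.1,
    fun c => (f2 c).2.1⟩
  have h1 := one_le_pow11 hd hN
  have h2 : 1 ≤ d ^ (k * N) := Nat.one_le_pow _ _ (by omega)
  have h3 : 1 ≤ (d ^ N - 1) * (d ^ (k * N) * 1 + 0 * gs11 d (k * N)) :=
    Nat.mul_pos h1 (by omega)
  exact Nat.mul_pos (by omega) (by omega)

/-- The degrees of `numL` and `denL`. -/
theorem deg_L {d : ℕ} (hd : 2 ≤ d) {N : ℕ} (hN : 1 ≤ N) (k j : ℕ) : ∃ m e : ℕ, 1 ≤ m ∧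
    (∀ b, IsForm24 m (numL d N k j b)) ∧ (∀ c, HP d e (fun b => numL d N k j b c)) ∧
    (∀ b, IsForm24 m (denL d N k j b)) ∧ ∀ c, HP d e (fun b => denL d N k j b c) := by
  have f1 := fun b : Par d => (gradedC_form.functions11 (n := 0) (m := 1) (by omega : 1 ≤ d)
    (b := fun _ => b) (c := fun c => c)
    (fun _ => gradedC_form.const _) (gradedC_form.const _) IsForm24.fst IsForm24.snd N k j).2.2.2
  have f2 := fun c : ℂ × ℂ => ((gradedC_HP d).functions11 (n := 1) (m := 0) (by omega : 1 ≤ d)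
    (b := fun b => b) (c := fun _ => c) (fun i => HP.coord i) (by simpa using HP_Res d)
    ((gradedC_HP d).const _) ((gradedC_HP d).const _) N k j).2.2.2
  refine ⟨_, _, ?_, fun b => (f1 b).1, fun c => (f2 c).1, fun b => (f1 b).2,
    fun c => (f2 c).2⟩
  have h1 := one_le_pow11 hd hN
  have h2 : 1 ≤ d ^ (k * N) := Nat.one_le_pow _ _ (by omega)
  have h4 : 1 ≤ d ^ (j * N) := Nat.one_le_pow _ _ (by omega)
  have h3 : 1 ≤ (d ^ N - 1) * (d ^ (j * N) * (d ^ (k * N) * 1 + 0 * gs11 d (k * N)) +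
      0 * gs11 d (j * N)) := Nat.mul_pos h1 (by
    have := Nat.mul_pos h4 (by omega : 0 < d ^ (k * N) * 1 + 0 * gs11 d (k * N))
    omega)
  exact Nat.mul_pos (by omega) (by omega)

end HypRat
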