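import Pool.Agent.Lib.Hyp.Rat.TrDef11
import Pool.Agent.Lib.Hyp.Rat.RL95

/-!
The algebraic functions of a map and a critical point which measure the convergence of the
critical orbit and the contraction along it (helper11); `orb d N k b c` is the point
`F^(k N) c`, and `trN d N b` is the trace of the derivative of the `N`-th iterate.
-/

namespace HypRat

/-- The numerator of the first function. -/
noncomputable def numR (d N k : ℕ) (b : Par d) (c : ℂ × ℂ) : ℂ :=
  Res d b ^ (∑ i ∈ Finset.range N, d ^ i) *
    wedge (orb d N k b c) (orb d N (k + 1) b c) ^ ((d ^ N - 1) * d)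

/-- The denominator of the first function. -/
noncomputable def denR (d N k : ℕ) (b : Par d) (c : ℂ × ℂ) : ℂ :=
  (trN d N b (orb d N k b c) * trN d N b (orb d N (k + 1) b c)) ^ d

/-- The numerator of the second function. -/
noncomputable def numL (d N k j : ℕ) (b : Par d) (c : ℂ × ℂ) : ℂ :=
  jacN d b (j * N) (orb d N k b c) ^ (d ^ N - 1) * trN d N b (orb d N k b c) ^ 2

/-- The denominator of the second function. -/
noncomputable def denL (d N k j : ℕ) (b : Par d) (c : ℂ × ℂ) : ℂ :=
  trN d N b (orb d N (k + j) b c) ^ 2

end HypRat
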